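import Pool.Agent.P.MP_70f35d_an.Pair

set_option autoImplicit false
open Finset

namespace Pool.Agent.P.MP_70f35d_an

variable {X : Type} [Fintype X]

def ee : ℕ → ℕ
  | 0 => 0
  | i + 1 => 2 ^ i

noncomputable def Xb (A : ℝ) (L : ℕ) : ℝ := √A * (A + L)

noncomputable def Tb (A : ℝ) (k : ℕ) : ℝ := √(√((1 - 1 / (4 * A)) ^ k)) * (A ^ 2 * (k + 1 : ℕ))

noncomputable def Bd (A : ℝ) : ℕ → ℝ
  | 0 => Xb A 0
  | i + 1 => min (Xb A (2 ^ i)) (Tb A (2 ^ i - 1))

lemma Bd_nonneg {A : ℝ} (hA : 1 ≤ A) (i : ℕ) : 0 ≤ Bd A i := by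
  cases i with
  | zero => simp only [Bd, Xb]; positivity
  | succ i => simp only [Bd, Xb, Tb]; positivity

lemma Bd_le (A : ℝ) (i : ℕ) : Bd A i ≤ Xb A (ee i) := by
  cases i with
  | zero => exact le_rfl
  | succ i => exact min_le_left _ _

lemma sum_ee (m : ℕ) : ∑ i ∈ range (m + 1), (ee i : ℝ) ≤ 2 ^ m := by
  induction m with
  | zero => simp [ee]
  | succ m ih =>
    have e : ((ee (m + 1) : ℕ) : ℝ) = 2 ^ m := by
      rw [show ee (m + 1) = 2 ^ m from rfl]; push_cast; rfl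
    rw [sum_range_succ, pow_succ, e]; linarith

lemma tail_term {A : ℝ} (hA : 1 ≤ A) (i : ℕ) (h : 160 * A * (1 + Real.log A) < 2 ^ i) :
    (i + 2 : ℝ) * Tb A (2 ^ i - 1) ≤ 800000 * (1 / 2) ^ i := by
  have hk : 2 ^ i - 1 + 1 = 2 ^ i := Nat.sub_add_cancel Nat.one_le_two_pow
  set k := 2 ^ i - 1 with hk'
  have hy : ((k + 1 : ℕ) : ℝ) = 2 ^ i := by rw [hk]; push_cast; rfl
  have hi : (i + 2 : ℝ) ≤ 2 * 2 ^ i := by
    have : i < 2 ^ i := Nat.lt_two_pow_self
    have : (i + 1 : ℝ) ≤ 2 ^ i := by exact_mod_cast this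
    have : (0 : ℝ) ≤ i := Nat.cast_nonneg i
    linarith
  rw [Tb, hy, one_div_pow]
  set y : ℝ := 2 ^ i with hy'
  have hy0 : 0 < y := by positivity
  have hky : (k : ℝ) = y - 1 := by rw [← hy]; push_cast; ring
  set E1 := Real.exp (-(y / (32 * A))) with hE1
  have hE0 : 0 < E1 := Real.exp_pos _
  have h1 : √(√((1 - 1 / (4 * A)) ^ k)) ≤ 2 * E1 ^ 2 := by
    refine sqrt_le_of (by positivity) (sqrt_le_of (by positivity) ?_)
    have a1 : (1 - 1 / (4 * A)) ^ k ≤ Real.exp (-(1 / (4 * A))) ^ k :=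
      pow_le_pow_left₀ (by rw [sub_nonneg, div_le_one (by linarith)]; linarith)
        (by linarith [Real.add_one_le_exp (-(1 / (4 * A)))]) k
    refine a1.trans ?_
    have a2 : Real.exp (-(1 / (4 * A))) ^ k = Real.exp (1 / (4 * A)) * E1 ^ 8 := by
      rw [hE1, ← Real.exp_nat_mul, ← Real.exp_nat_mul, ← Real.exp_add, hky]
      congr 1; push_cast; field_simp; ring
    have a3 : Real.exp (1 / (4 * A)) ≤ 16 := by
      refine (Real.exp_le_exp.2 (show _ ≤ 1 by rw [div_le_one (by linarith)]; linarith)).trans ?_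
      linarith [Real.exp_one_lt_d9]
    rw [a2]
    nlinarith [mul_le_mul_of_nonneg_right a3 (by positivity : 0 ≤ E1 ^ 8)]
  have h2 : y ^ 3 * E1 ≤ 6 * 32 ^ 3 * A ^ 3 := by
    have := Real.pow_div_factorial_le_exp (y / (32 * A)) (by positivity) 3
    rw [hE1, Real.exp_neg, ← div_eq_mul_inv, div_le_iff₀ (Real.exp_pos _)]
    have h3 := mul_le_mul_of_nonneg_left this (by positivity : 0 ≤ 6 * 32 ^ 3 * A ^ 3)
    refine le_trans (le_of_eq ?_) h3
    simp only [Nat.factorial]; field_simp; norm_num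
  have h3 : A ^ 5 * E1 ≤ 1 := by
    have : A ^ 5 = Real.exp (5 * Real.log A) := by
      rw [show (5 : ℝ) = (5 : ℕ) by norm_num, Real.exp_nat_mul, Real.exp_log (by linarith)]
    rw [this, hE1, ← Real.exp_add, Real.exp_le_one_iff, ← sub_eq_add_neg, sub_nonpos,
      le_div_iff₀ (by positivity)]
    nlinarith
  rw [mul_one_div, le_div_iff₀ hy0]
  calc _ ≤ (2 * y) * (2 * E1 ^ 2 * (A ^ 2 * y)) * y := by gcongr
    _ = 4 * (y ^ 3 * E1) * (A ^ 2 * E1) := by ring
    _ ≤ 4 * (6 * 32 ^ 3 * A ^ 3) * (A ^ 2 * E1) := by gcongr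
    _ = 4 * (6 * 32 ^ 3) * (A ^ 5 * E1) := by ring
    _ ≤ _ := by linarith

lemma sum_Bd {A : ℝ} (hA : 1 ≤ A) (m : ℕ) :
    ∑ i ∈ range m, (i + 1 : ℝ) * Bd A i ≤ 4000000 * (√A * A * (1 + Real.log A) ^ 2) := by
  have hl := Real.log_nonneg hA
  set Y := 160 * A * (1 + Real.log A) with hY
  have hY1 : 1 ≤ Y := by nlinarith
  have hf : ⌊Y⌋₊ ≠ 0 := (Nat.floor_pos.2 hY1).ne'
  set J := Nat.log 2 ⌊Y⌋₊ with hJ
  have hJY : (2 : ℝ) ^ J ≤ Y :=
    le_trans (by exact_mod_cast Nat.pow_log_le_self 2 hf) (Nat.floor_le (by linarith))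
  have hJl : (J + 2 : ℝ) ≤ 10 * (1 + Real.log A) := by
    have h1 : Y ≤ 2 ^ 8 * A ^ 2 := by nlinarith [Real.log_le_sub_one_of_pos (by linarith : 0 < A)]
    have h2 := Real.log_le_log (by positivity) (hJY.trans h1)
    rw [Real.log_mul (by positivity) (by positivity), Real.log_pow, Real.log_pow, Real.log_pow] at h2
    have h3 := Real.log_two_gt_d9
    push_cast at h2
    by_contra hn
    nlinarith
  have hs : 1 ≤ √A := Real.one_le_sqrt.2 hA
  have key : ∀ i ∈ range m, (i + 1 : ℝ) * Bd A i ≤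
      (if i < J + 2 then (J + 2 : ℝ) * Xb A (ee i) else 0) + 1600000 * (1 / 2) ^ i := by
    intro i _
    split_ifs with h
    · have : (i + 1 : ℝ) ≤ J + 2 := by exact_mod_cast h
      have := mul_le_mul this (Bd_le A i) (Bd_nonneg hA i) (by positivity)
      have : (0 : ℝ) ≤ 1600000 * (1 / 2) ^ i := by positivity
      linarith
    · obtain ⟨i, rfl⟩ : ∃ j, i = j + 1 := ⟨i - 1, by omega⟩
      have h1 : Y < 2 ^ i := by
        by_contra hn
        have h2 : 2 ^ i ≤ ⌊Y⌋₊ := Nat.le_floor (by exact_mod_cast not_lt.1 hn)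
        have := Nat.le_log_of_pow_le (by norm_num) h2
        omega
      have h2 := tail_term hA i h1
      have h3 : (i + 2 : ℝ) * Bd A (i + 1) ≤ (i + 2 : ℝ) * Tb A (2 ^ i - 1) :=
        mul_le_mul_of_nonneg_left (min_le_right _ _) (by positivity)
      rw [pow_succ]; push_cast; linarith
  refine (sum_le_sum key).trans ?_
  rw [sum_add_distrib, ← sum_filter, ← mul_sum, ← mul_sum]
  have h1 : ∑ i ∈ range m, (1 / 2 : ℝ) ^ i ≤ 2 := by
    have := geo_le (η := 1 / 2) (by norm_num) (by norm_num) 0 m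
    rw [range_eq_Ico]; linarith
  have h2 : ∑ i ∈ (range m).filter (· < J + 2), Xb A (ee i) ≤ √A * ((J + 2) * A + 2 * Y) := by
    refine (sum_le_sum_of_subset_of_nonneg (t := range (J + 2))
      (fun i hi => mem_range.2 (mem_filter.1 hi).2) fun i _ _ => by unfold Xb; positivity).trans ?_
    simp only [Xb]
    rw [← mul_sum, sum_add_distrib, sum_const, card_range, nsmul_eq_mul]
    have := sum_ee (J + 1)
    rw [pow_succ] at this
    gcongr
    · push_cast; exact le_rfl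
    · linarith
  have h3 : (J + 2 : ℝ) * ∑ i ∈ (range m).filter (· < J + 2), Xb A (ee i) ≤
      3300 * (√A * A * (1 + Real.log A) ^ 2) := by
    calc _ ≤ (10 * (1 + Real.log A)) * (√A * ((10 * (1 + Real.log A)) * A + 2 * Y)) :=
          mul_le_mul hJl (h2.trans (by gcongr)) (sum_nonneg fun i _ => by unfold Xb; positivity)
            (by positivity)
      _ = _ := by rw [hY]; ring
  have h4 : 1 ≤ √A * A * (1 + Real.log A) ^ 2 :=
    one_le_mul_of_one_le_of_one_le (one_le_mul_of_one_le_of_one_le hs hA)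
      (one_le_pow₀ (by linarith))
  linarith

lemma lam1 {A c L N : ℝ} (hA : 1 ≤ A) (hc : 1 ≤ c) (hL : 1 ≤ L) (hN : N ≤ 2 * c * L) :
    √(8 * A * (N * A)) ≤ 6 * c * (√A * (A + L)) := by
  refine sqrt_le_of (by positivity) ?_
  rw [mul_pow, mul_pow (√_), Real.sq_sqrt (by linarith)]
  have e1 : A * L ≤ (A + L) ^ 2 := by nlinarith
  have e2 : 16 * c ≤ (6 * c) ^ 2 := by nlinarith
  calc _ ≤ 8 * A * (2 * c * L * A) := by gcongr
    _ = 16 * c * (A * (A * L)) := by ring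
    _ ≤ _ := by gcongr

lemma lam2 {A c L N r : ℝ} (hA : 1 ≤ A) (hc : 1 ≤ c) (hL : 1 ≤ L) (hN : N ≤ 2 * c * L)
    (hr : 0 ≤ r) : √(16 * A ^ 2 * r ^ 2 * (N * A)) ≤ 6 * c * (r * (A ^ 2 * L)) := by
  refine sqrt_le_of (by positivity) ?_
  have e1 : 1 ≤ A * L := by nlinarith
  have e2 : 32 * c ≤ (6 * c) ^ 2 := by nlinarith
  calc _ ≤ 16 * A ^ 2 * r ^ 2 * (2 * c * L * A) := by gcongr
    _ = 32 * c * (r ^ 2 * A ^ 2 * ((A * L) * 1)) := by ring
    _ ≤ (6 * c) ^ 2 * (r ^ 2 * A ^ 2 * ((A * L) * (A * L))) := by gcongr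
    _ = _ := by ring

lemma lam3 {A r : ℝ} (hA : 1 ≤ A) (hr : 0 ≤ r) :
    √(r ^ 4 * A * (16 * A) * (16 * A)) ≤ 16 * A ^ 2 * r ^ 2 := by
  refine sqrt_le_of (by positivity) ?_
  nlinarith [mul_le_mul_of_nonneg_left hA (by positivity : 0 ≤ r ^ 4 * A ^ 3)]

namespace Cor

variable (S : Cor X) {η : ℝ} (L : Forms S.P η)

noncomputable def KK (D η : ℝ) (c : ℕ) : ℝ :=
  2048 / (1 - η) ^ 2 * (4 * D) ^ 2 + 96 / (1 - η) * (4 * D) ^ 2 * (6 * c) + 832 * c

lemma qH (h0 : 0 ≤ η) {c : ℕ} (hc : η ^ c * (4 * S.D) ^ 2 ≤ 1 / 2) (k : ℕ) :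
    η ^ (c * k) * ((4 * S.D) ^ (k + 1)) ^ 2 ≤ (4 * S.D) ^ 2 * (1 / 2) ^ k := by
  have := pow_le_pow_left₀ (by positivity) hc k
  calc _ = (4 * S.D) ^ 2 * (η ^ c * (4 * S.D) ^ 2) ^ k := by
        generalize 4 * S.D = z
        ring
    _ ≤ _ := mul_le_mul_of_nonneg_left this (sq_nonneg _)

lemma pair_bound (h0 : 0 ≤ η) (h1 : η < 1) {c : ℕ} (hc1 : 1 ≤ c)
    (hc : η ^ c * (4 * S.D) ^ 2 ≤ 1 / 2) {u v : X → ℝ} (hu : ∀ x, |u x| ≤ S.U x)
    (hv : ∀ x, |v x| ≤ S.V x) (n : ℕ) {i j s : ℕ} (hji : j ≤ i) (hs : c * 2 ^ i ≤ s) :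
    S.Pair L u v n (ee i) (ee (i + 1)) (ee j) (ee (j + 1)) s ≤ KK S.D η c * Bd S.A i := by
  have hA := S.hA1
  have hD := S.hD1
  have hη := sub_pos.2 h1
  have hsA : 1 ≤ √S.A := Real.one_le_sqrt.2 hA
  have hc' : (1 : ℝ) ≤ c := by exact_mod_cast hc1
  have hee : ∀ i, ee i ≤ ee (i + 1) := fun i => by
    cases i with
    | zero => exact Nat.zero_le _
    | succ i => exact Nat.pow_le_pow_right (by norm_num) (Nat.le_succ i)
  have hH : ∀ i, 2 ^ i - 1 + 1 = 2 ^ i := fun i => Nat.sub_add_cancel Nat.one_le_two_pow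
  have hij : 2 ^ j ≤ 2 ^ i := Nat.pow_le_pow_right (by norm_num) hji
  have a1 := S.pair_l2 L h0 h1 hu hv n (hee i) (H := 2 ^ i - 1 + 1) (hH i).ge (hee j)
    (hij.trans (hH i).ge) (N := c * (2 ^ i - 1))
    ((Nat.mul_le_mul_left c (Nat.sub_le _ _)).trans hs)
  have a2 : 2048 / (1 - η) ^ 2 * (η ^ (c * (2 ^ i - 1)) * ((4 * S.D) ^ (2 ^ i - 1 + 1)) ^ 2) * S.A
      ≤ 2048 / (1 - η) ^ 2 * (4 * S.D) ^ 2 * ((1 / 2) ^ (2 ^ i - 1) * S.A) := by
    have := S.qH h0 hc (2 ^ i - 1)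
    calc _ ≤ 2048 / (1 - η) ^ 2 * ((4 * S.D) ^ 2 * (1 / 2) ^ (2 ^ i - 1)) * S.A := by gcongr
      _ = _ := by ring
  have k1 : 0 ≤ 2048 / (1 - η) ^ 2 * (4 * S.D) ^ 2 := by positivity
  have k2 : 0 ≤ 96 / (1 - η) * (4 * S.D) ^ 2 := by positivity
  cases i with
  | zero =>
    obtain rfl : j = 0 := by omega
    have a3 : S.Pair L u v n (ee 0) (ee (0 + 1)) (ee 0) (ee (0 + 1)) (c * (2 ^ 0 - 1)) = 0 := by
      refine sum_eq_zero fun t _ => sum_eq_zero fun x _ => ?_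
      have : S.W u t (ee 0) (ee (0 + 1)) (c * (2 ^ 0 - 1)) = 0 := by
        funext y
        have e : ∀ β, S.nu t β (c * (2 ^ 0 - 1)) y = t := fun β =>
          le_antisymm (S.nu_le_cap t β (c * (2 ^ 0 - 1)) y) (S.nu_spec _ _ _ _).1
        simp only [W, ES, e, sub_self, Pi.zero_apply]
      rw [this, map_zero, LinearMap.zero_apply, abs_zero]
    have a4 : S.A ≤ Bd S.A 0 := by simp only [Bd, Xb]; push_cast; nlinarith
    have a5 := mul_le_mul_of_nonneg_left a4 k1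
    have a6 : 0 ≤ (96 / (1 - η) * (4 * S.D) ^ 2 * (6 * c) + 832 * c) * Bd S.A 0 :=
      mul_nonneg (by positivity) (Bd_nonneg hA 0)
    simp only [pow_zero, tsub_self, one_mul] at a1 a2 a3
    simp only [KK]
    linarith
  | succ i =>
    set k := 2 ^ i - 1 with hk
    have hk1 : k + 1 = 2 ^ i := hH i
    set N' := c * (2 ^ (i + 1) - 1) with hN'
    have hL1 : (1 : ℝ) ≤ (2 ^ i : ℕ) := by exact_mod_cast Nat.one_le_two_pow
    have hN2 : ∀ i : ℕ, ((c * (2 ^ (i + 1) - 1) : ℕ) : ℝ) ≤ 2 * c * (2 ^ i : ℕ) := fun i => by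
      have : c * (2 ^ (i + 1) - 1) ≤ 2 * c * 2 ^ i :=
        (Nat.mul_le_mul_left c (Nat.sub_le _ _)).trans (le_of_eq (by ring))
      exact_mod_cast this
    set r := √(√((1 - 1 / (4 * S.A)) ^ k)) with hr
    have hρ : 0 ≤ (1 - 1 / (4 * S.A)) ^ k := pow_nonneg (sub_nonneg.2 S.kap_le) k
    have hr4 : r ^ 4 = (1 - 1 / (4 * S.A)) ^ k := sqrt_sqrt_pow hρ
    have hr0 : 0 ≤ r := Real.sqrt_nonneg _
    have hr1 : r ≤ 1 := Real.sqrt_le_one.2 (Real.sqrt_le_one.2
      (pow_le_one₀ (sub_nonneg.2 S.kap_le) (sub_le_self _ (by positivity))))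
    have hT : Tb S.A k = r * (S.A ^ 2 * (2 ^ i : ℕ)) := by rw [Tb, hk1]
    have b1 : (1 / 2 : ℝ) ^ (2 ^ (i + 1) - 1) * S.A ≤ Bd S.A (i + 1) := by
      refine le_min ?_ ?_
      · have : (1 / 2 : ℝ) ^ (2 ^ (i + 1) - 1) ≤ 1 := pow_le_one₀ (by norm_num) (by norm_num)
        simp only [Xb]; nlinarith
      · rw [← hk, hT]
        have e1 : (1 / 2 : ℝ) ^ (2 ^ (i + 1) - 1) ≤ (1 / 2) ^ k :=
          pow_le_pow_of_le_one (by norm_num) (by norm_num) (by rw [pow_succ]; omega)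
        have e2 : (1 / 2 : ℝ) ^ k ≤ r ^ 4 := by
          rw [hr4]
          refine pow_le_pow_left₀ (by norm_num) ?_ k
          have : 1 / (4 * S.A) ≤ 1 / 2 := one_div_le_one_div_of_le (by norm_num) (by linarith)
          linarith
        have e3 : r ^ 4 ≤ r := pow_le_of_le_one hr0 hr1 (by norm_num)
        exact mul_le_mul (e1.trans (e2.trans e3)) (by nlinarith) (by linarith) hr0
    have hsq : √((1 - 1 / (4 * S.A)) ^ k * S.A) ≤ r ^ 2 * S.A :=
      sqrt_le_of (by positivity) (by rw [← hr4]; nlinarith [pow_nonneg hr0 4])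
    obtain ⟨l, N, hl, hli, hlj, hq, hM⟩ : ∃ l N, 1 ≤ l ∧ l ≤ 2 ^ i ∧ l ≤ 2 ^ j - 1 + 1 ∧
        η ^ N * ((4 * S.D) ^ (2 ^ j - 1 + 1)) ^ 2 ≤ (4 * S.D) ^ 2 ∧
        S.Mn L u v n l (ee (i + 1)) (ee (i + 1 + 1)) (ee j) (ee (j + 1)) N N' ≤
          832 * c * Bd S.A (i + 1) := by
      have hq : η ^ (c * (2 ^ j - 1)) * ((4 * S.D) ^ (2 ^ j - 1 + 1)) ^ 2 ≤ (4 * S.D) ^ 2 :=
        (S.qH h0 hc _).trans (mul_le_of_le_one_right (sq_nonneg _)
          (pow_le_one₀ (by norm_num) (by norm_num)))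
      cases j with
      | zero =>
        refine ⟨1, 0, le_rfl, Nat.one_le_two_pow, by simp, by simpa using hq,
          (S.Mn_zero L hu v n (α := ee (i + 1)) Nat.one_le_two_pow (hee (i + 1))).trans ?_⟩
        exact mul_nonneg (by positivity) (Bd_nonneg hA _)
      | succ j =>
        have hji' : 2 ^ j ≤ 2 ^ i := Nat.pow_le_pow_right (by norm_num) (by omega)
        refine ⟨2 ^ j, _, Nat.one_le_two_pow, hji', by rw [hH]; exact hee (j + 1), hq, ?_⟩
        obtain ⟨m1, m2⟩ := S.Mn_le L hu hv n (N := c * (2 ^ (j + 1) - 1)) (N' := N') hji'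
          (hee (i + 1)) (hee (j + 1))
        have m3 := S.main_sharp (c := 2 * c) Nat.one_le_two_pow hji' (by linarith) (hN2 j) (hN2 i) n
        have m4 := S.main_tail (c := 2 * c) (l := 2 ^ j) (k := k) (N' := N') Nat.one_le_two_pow
          (by linarith) (by rw [hk1]; exact hN2 i) n
        rw [hk1] at m4
        simp only [Bd]
        rw [mul_min_of_nonneg _ _ (by positivity), ← hk, hT]
        refine le_min (m1.trans ?_) (m2.trans ?_)
        · simp only [Xb]; linarith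
        · have m5 : √((1 - 1 / (4 * S.A)) ^ k * S.A) * (S.A * (2 ^ i : ℕ)) ≤
              r * (S.A ^ 2 * (2 ^ i : ℕ)) := by
            have : r ^ 2 ≤ r := pow_le_of_le_one hr0 hr1 (by norm_num)
            calc _ ≤ r * S.A * (S.A * (2 ^ i : ℕ)) := by gcongr; exact hsq.trans (by gcongr)
              _ = _ := by ring
          have := mul_le_mul_of_nonneg_left m5 (by positivity : (0 : ℝ) ≤ 160 * c)
          have : 0 ≤ c * (r * (S.A ^ 2 * (2 ^ i : ℕ))) := by positivity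
          linarith
    obtain ⟨Λ, hΛ, hΛ0, hΛ1⟩ : ∃ Λ, S.Lam n (n + N') (2 ^ i) ≤ Λ ∧ 0 ≤ Λ ∧
        √(Λ * (N' * S.A)) ≤ 6 * c * Bd S.A (i + 1) := by
      have hN := hN2 i
      rw [← hN'] at hN
      rcases le_total (Xb S.A (2 ^ i)) (Tb S.A k) with h | h
      · refine ⟨8 * S.A, S.Lam_le _ _ _, by linarith, ?_⟩
        simp only [Bd]
        rw [← hk, min_eq_left h]
        exact lam1 hA hc' hL1 hN
      · refine ⟨16 * S.A ^ 2 * r ^ 2, ?_, by positivity, ?_⟩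
        · rw [← hk1]
          refine (S.Lam_tail (Nat.le_add_right n N') k).trans ?_
          rw [← hr4]
          exact lam3 hA hr0
        simp only [Bd]
        rw [← hk, min_eq_right h, hT]
        exact lam2 hA hc' hL1 hN hr0
    have a3 := S.pair_see L h0 h1 hu hv n (N := N) (N' := N') hl hli (hee (i + 1)) (hee j)
      (H := 2 ^ j - 1 + 1) (hH j).ge hlj hΛ hΛ0
    have a4 : 96 / (1 - η) * (η ^ N * ((4 * S.D) ^ (2 ^ j - 1 + 1)) ^ 2) * √(Λ * (N' * S.A)) ≤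
        96 / (1 - η) * (4 * S.D) ^ 2 * (6 * c * Bd S.A (i + 1)) := by gcongr
    have a5 := mul_le_mul_of_nonneg_left b1 k1
    simp only [KK]
    change S.Pair L u v n (ee (i + 1)) _ _ _ _ ≤ S.Mn L u v n l (ee (i + 1)) _ _ _ _ _ + _ at a3
    linarith

lemma decomp {nb : ℕ} (hb : ∀ q x y, nb ≤ q → S.P q x y → x = y) (u : X → ℝ) (t : ℕ) {s : ℕ}
    (hs : nb ≤ s) : u - E (S.P t) u = ∑ i ∈ range (nb + 1), S.W u t (ee i) (ee (i + 1)) s := by
  funext y
  rw [Finset.sum_apply, Pi.sub_apply]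
  simp only [W]
  rw [sum_range_sub fun i => ES S.P (S.nu t (ee i) s) u y]
  have h1 : nb ≤ S.nu t (ee (nb + 1)) s y := by
    obtain ⟨h1, h2⟩ := S.nu_spec t (ee (nb + 1)) s y
    have h3 := S.g_le y t (S.nu t (ee (nb + 1)) s y - t)
    rw [Nat.add_sub_cancel' h1] at h3
    have : nb < ee (nb + 1) := Nat.lt_two_pow_self
    omega
  simp only [ES]
  rw [show ee 0 = 0 from rfl, S.nu_zero,
    E_eq_of_const (P := S.P (S.nu t (ee (nb + 1)) s y)) fun z hz => by rw [hb _ _ _ h1 hz]]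

theorem total (h0 : 0 ≤ η) (h1 : η < 1) {c : ℕ} (hc1 : 1 ≤ c)
    (hc : η ^ c * (4 * S.D) ^ 2 ≤ 1 / 2) {u v : X → ℝ} (hu : ∀ x, |u x| ≤ S.U x)
    (hv : ∀ x, |v x| ≤ S.V x) {nb : ℕ} (hb : ∀ q x y, nb ≤ q → S.P q x y → x = y) (n : ℕ) :
    ∑ t ∈ range n, ∑ x, |L.ℓ t x u v| ≤
      KK S.D η c * (8000000 * (√S.A * S.A * (1 + Real.log S.A) ^ 2)) := by
  have hA := S.hA1
  have hD := S.hD1
  have hη := sub_pos.2 h1
  have hK : 0 ≤ KK S.D η c := by unfold KK; positivity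
  set s := c * 2 ^ nb + nb with hs
  have hsi : ∀ i ∈ range (nb + 1), c * 2 ^ i ≤ s := fun i hi =>
    (Nat.mul_le_mul_left c (Nat.pow_le_pow_right (by norm_num)
      (Nat.le_of_lt_succ (mem_range.1 hi)))).trans (Nat.le_add_right _ _)
  calc _ ≤ ∑ i ∈ range (nb + 1), ∑ j ∈ range (nb + 1),
        S.Pair L u v n (ee i) (ee (i + 1)) (ee j) (ee (j + 1)) s := by
        simp only [Pair]
        rw [sum_congr rfl fun i _ => sum_comm, sum_comm (s := range (nb + 1))]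
        refine sum_le_sum fun t _ => ?_
        rw [sum_congr rfl fun i _ => sum_comm, sum_comm (s := range (nb + 1))]
        refine sum_le_sum fun x _ => ?_
        have e : L.ℓ t x (u - E (S.P t) u) v = L.ℓ t x (u - E (S.P t) u) (v - E (S.P t) v) :=
          L.flip.center t x v _
        rw [L.center t x u v, e, S.decomp hb u t (Nat.le_add_left nb _),
          S.decomp hb v t (Nat.le_add_left nb (c * 2 ^ nb)), map_sum (L.ℓ t x),
          LinearMap.sum_apply]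
        refine (abs_sum_le_sum_abs _ _).trans (sum_le_sum fun i _ => ?_)
        rw [map_sum]
        exact abs_sum_le_sum_abs _ _
    _ ≤ ∑ i ∈ range (nb + 1), ∑ j ∈ range (nb + 1), KK S.D η c *
        ((if j < i + 1 then Bd S.A i else 0) + if i < j + 1 then Bd S.A j else 0) := by
        refine sum_le_sum fun i hi => sum_le_sum fun j hj => ?_
        rcases le_total j i with h | h
        · refine (S.pair_bound L h0 h1 hc1 hc hu hv n h (hsi i hi)).trans
            (mul_le_mul_of_nonneg_left ?_ hK)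
          rw [if_pos (Nat.lt_succ_of_le h)]
          have := Bd_nonneg hA j
          split_ifs <;> linarith
        · refine (S.swap.pair_bound L.flip h0 h1 hc1 hc hv hu n h (hsi j hj)).trans
            (mul_le_mul_of_nonneg_left ?_ hK)
          rw [if_pos (Nat.lt_succ_of_le h)]
          have := Bd_nonneg hA i
          change Bd S.A j ≤ _
          split_ifs <;> linarith
    _ ≤ _ := by
        simp only [← mul_sum]
        refine mul_le_mul_of_nonneg_left ?_ hK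
        have key : ∑ i ∈ range (nb + 1), ∑ j ∈ range (nb + 1),
            (if j < i + 1 then Bd S.A i else 0) ≤
            4000000 * (√S.A * S.A * (1 + Real.log S.A) ^ 2) := by
          refine le_trans (sum_le_sum fun i _ => ?_) (sum_Bd hA (nb + 1))
          rw [← sum_filter, sum_const, nsmul_eq_mul]
          refine mul_le_mul_of_nonneg_right ?_ (Bd_nonneg hA i)
          have := card_le_card (s := (range (nb + 1)).filter (· < i + 1)) (t := range (i + 1))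
            fun j hj => mem_range.2 (mem_filter.1 hj).2
          rw [card_range] at this
          exact_mod_cast this
        simp only [sum_add_distrib]
        rw [sum_comm (f := fun i j => if i < j + 1 then Bd S.A j else 0)]
        linarith

end Cor

open Classical in
noncomputable def topf (P : ℕ → Setoid X) (U V : X → ℝ) : ℕ → X → ℕ
  | 0, _ => 0
  | q + 1, x => if 4 * E (P (topf P U V q x)) U x < E (P (q + 1)) U x ∨
      4 * E (P (topf P U V q x)) V x < E (P (q + 1)) V x then q + 1 else topf P U V q x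

lemma topf_le (P : ℕ → Setoid X) (U V : X → ℝ) (q : ℕ) (x : X) : topf P U V q x ≤ q := by
  induction q with
  | zero => exact le_rfl
  | succ q ih => simp only [topf]; split_ifs <;> omega

lemma topf_meas {P : ℕ → Setoid X} (hP : Filt P) (U V : X → ℝ) (q : ℕ) (x y : X) (h : P q x y) :
    topf P U V q y = topf P U V q x := by
  induction q with
  | zero => rfl
  | succ q ih =>
    have h1 := hP.mono (topf_le P U V q x) (hP q x y h)
    simp only [topf, ih (hP q x y h), E_meas _ _ x y h, E_meas _ _ x y h1]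

lemma topf_bound (P : ℕ → Setoid X) {U V : X → ℝ} (hU : ∀ x, 0 < U x) (hV : ∀ x, 0 < V x) (q : ℕ)
    (x : X) : E (P q) U x ≤ 4 * E (P (topf P U V q x)) U x ∧
      E (P q) V x ≤ 4 * E (P (topf P U V q x)) V x := by
  have h1 := E_pos (P := P q) (x := x) hU
  have h2 := E_pos (P := P q) (x := x) hV
  cases q with
  | zero => simp only [topf]; constructor <;> linarith
  | succ q =>
    simp only [topf]
    split_ifs with h
    · constructor <;> linarith
    · exact ⟨not_lt.1 fun h' => h (Or.inl h'), not_lt.1 fun h' => h (Or.inr h')⟩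

lemma exists_dom {σ u : X → ℝ} (hσ : ∀ x, 0 < σ x) (hu : ∑ x, u x ^ 2 / σ x ≤ 1 / 4) :
    ∃ U : X → ℝ, (∀ x, 0 < U x) ∧ (∀ x, |u x| ≤ U x) ∧ ∑ x, U x ^ 2 / σ x ≤ 1 := by
  set T := ∑ x, 1 / σ x with hT
  have hT0 : 0 ≤ T := sum_nonneg fun x _ => (one_div_pos.2 (hσ x)).le
  set δ := 1 / (2 * (1 + T)) with hδ
  have hδ0 : 0 < δ := by positivity
  refine ⟨fun x => |u x| + δ, fun x => by positivity, fun x => by linarith, ?_⟩
  have h1 : δ ^ 2 * T ≤ 1 / 4 := by
    rw [hδ, one_div_pow, div_mul_eq_mul_div, div_le_div_iff₀ (by positivity) (by norm_num)]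
    nlinarith
  calc _ ≤ 2 * ∑ x, u x ^ 2 / σ x + 2 * (δ ^ 2 * T) := by
        rw [hT, mul_sum, mul_sum, mul_sum, ← sum_add_distrib]
        refine sum_le_sum fun x _ => ?_
        have := hσ x
        rw [div_le_iff₀ this, ← sq_abs (u x)]
        field_simp
        nlinarith [sq_nonneg (|u x| - δ)]
    _ ≤ _ := by linarith

theorem model (D η : ℝ) (hD : 1 ≤ D) (h0 : 0 ≤ η) (h1 : η < 1) : ∃ C : ℝ, 0 < C ∧
    ∀ (X : Type) [Fintype X] (P : ℕ → Setoid X) (nb : ℕ), Filt P →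
    (∀ q x y, nb ≤ q → P q x y → x = y) →
    (∀ t x, ((cls (P t) x).card : ℝ) ≤ D * (cls (P (t + 1)) x).card) →
    ∀ (σ w : X → ℝ) (A : ℝ), (∀ x, 0 < σ x) → (∀ x, 0 < w x) → (∀ x, 1 ≤ σ x * w x) → 1 ≤ A →
    (∀ t x, E (P t) σ x * E (P t) w x ≤ A) → ∀ (L : Forms P η) (u v : X → ℝ) (n : ℕ),
    ∑ t ∈ range n, ∑ x, |L.ℓ t x u v| ≤ C * (A ^ (3 / 2 : ℝ) * (1 + Real.log A) ^ 2) *
      √(∑ x, u x ^ 2 / σ x) * √(∑ x, v x ^ 2 / w x) := by
  obtain ⟨c, hc⟩ := exists_pow_lt_of_lt_one (show 0 < 1 / 2 / (4 * D) ^ 2 by positivity) h1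
  have hc2 : η ^ (c + 1) * (4 * D) ^ 2 ≤ 1 / 2 := by
    rw [lt_div_iff₀ (by positivity)] at hc
    refine le_trans ?_ hc.le
    exact mul_le_mul_of_nonneg_right (pow_le_pow_of_le_one h0 h1.le (Nat.le_succ c)) (sq_nonneg _)
  have hη := sub_pos.2 h1
  refine ⟨4 * (Cor.KK D η (c + 1) * 8000000), by unfold Cor.KK; positivity, ?_⟩
  intro X _ P nb hP hb hD' σ w A hσ hw hσw hA hA' L u v n
  have zero : ∀ {σ u : X → ℝ}, (∀ x, 0 < σ x) → √(∑ x, u x ^ 2 / σ x) = 0 → u = 0 := by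
    intro σ u hσ h
    have h2 : ∀ x ∈ univ, 0 ≤ u x ^ 2 / σ x := fun x _ => div_nonneg (sq_nonneg _) (hσ x).le
    rw [Real.sqrt_eq_zero (sum_nonneg h2), sum_eq_zero_iff_of_nonneg h2] at h
    funext x
    simpa [(hσ x).ne'] using h x (mem_univ x)
  have scal : ∀ {σ u : X → ℝ}, (∀ x, 0 < σ x) → 0 < √(∑ x, u x ^ 2 / σ x) →
      ∑ x, (((2 * √(∑ x, u x ^ 2 / σ x))⁻¹ • u) x) ^ 2 / σ x ≤ 1 / 4 := by
    intro σ u hσ h
    simp only [Pi.smul_apply, smul_eq_mul, mul_pow, mul_div_assoc, ← mul_sum]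
    nth_rewrite 2 [← Real.sq_sqrt (Real.sqrt_pos.1 h).le]
    field_simp; norm_num
  rcases (Real.sqrt_nonneg (∑ x, u x ^ 2 / σ x)).eq_or_lt with ha | ha
  · rw [← ha, zero hσ ha.symm]; simp
  rcases (Real.sqrt_nonneg (∑ x, v x ^ 2 / w x)).eq_or_lt with hb' | hb'
  · rw [← hb', zero hw hb'.symm]; simp
  obtain ⟨U, U0, U1, U2⟩ := exists_dom hσ (scal hσ ha)
  obtain ⟨V, V0, V1, V2⟩ := exists_dom hw (scal hw hb')
  let S : Cor X :=
    { P := P, hP := hP, D := D, hD1 := hD, hD := hD', σ := σ, w := w, U := U, V := V, A := A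
      hσ := hσ, hw := hw, hU := U0, hV := V0, hσw := hσw, hA1 := hA, hA := hA', nU := U2, nV := V2
      top := topf P U V, top_meas := topf_meas hP U V, top_zero := fun _ => rfl
      top_succ := fun q x => by simp only [topf]; split_ifs <;> simp
      U_le := fun q x => (topf_bound P U0 V0 q x).1
      V_le := fun q x => (topf_bound P U0 V0 q x).2
      reason := fun q x h => by
        by_contra hn
        simp only [topf, if_neg hn] at h
        have := topf_le P U V q x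
        omega }
  have key := S.total L h0 h1 (Nat.le_add_left 1 c) hc2 U1 V1 hb n
  set a := √(∑ x, u x ^ 2 / σ x)
  set b := √(∑ x, v x ^ 2 / w x)
  simp only [map_smul, LinearMap.smul_apply, smul_eq_mul, abs_mul, ← mul_sum] at key
  rw [abs_of_pos (by positivity), abs_of_pos (by positivity), inv_mul_le_iff₀ (by positivity),
    inv_mul_le_iff₀ (by positivity)] at key
  refine key.trans (le_of_eq ?_)
  rw [show (3 / 2 : ℝ) = 1 / 2 + 1 by norm_num, Real.rpow_add (by linarith), Real.rpow_one,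
    ← Real.sqrt_eq_rpow]
  change 2 * a * (2 * b * (Cor.KK D η (c + 1) * (8000000 * (√A * A * (1 + Real.log A) ^ 2)))) = _
  ring

end Pool.Agent.P.MP_70f35d_an
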