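import Pool.Agent.P.MP_70f35d_an.Conv
import Pool.Agent.P.MP_70f35d_an.Model

set_option autoImplicit false
open MeasureTheory Finset

namespace Pool.Agent.P.MP_70f35d_an
open SG (Nice cv See)

lemma sum_I {X : Type} [Fintype X] (P : Setoid X) (x : X) (φ : X → ℝ) :
    ∑ a, I (P x a) * φ a = (cls P x).card * E P φ x := by
  classical
  rw [E, mul_div_cancel₀ _ (card_cls_pos P x).ne', cls, sum_filter]
  exact sum_congr rfl fun a _ => by unfold I; split_ifs <;> simp

lemma exists_part {X : Type} [Fintype X] {P Q : Setoid X} (h : ∀ a b, Q a b → P a b) (x : X) :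
    ∃ (ι : Type) (_ : Fintype ι) (r : ι → X), (∀ a, ∑ i, I (Q (r i) a) = I (P x a)) ∧
      ∀ i j, Q (r i) (r j) → i = j := by
  classical
  have h1 : ∀ i : (cls P x).image (cls Q), ∃ a, P x a ∧ cls Q a = i := fun i => by
    simpa only [mem_image, mem_cls] using i.2
  choose r hr1 hr2 using h1
  have h2 : ∀ i j, Q (r i) (r j) → i = j := fun i j hij =>
    Subtype.ext (by rw [← hr2, ← hr2, cls_eq hij])
  refine ⟨_, inferInstance, r, fun a => ?_, h2⟩
  by_cases ha : P x a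
  · let i : (cls P x).image (cls Q) := ⟨cls Q a, mem_image_of_mem _ (mem_cls.2 ha)⟩
    have hi : Q (r i) a := mem_cls.1 (by rw [hr2]; exact mem_cls.2 (Q.refl' a))
    rw [I_of ha, sum_eq_single i (fun j _ hj => I_not fun hq =>
      hj (h2 _ _ (Q.trans' hq (Q.symm' hi)))) (by simp), I_of hi]
  · rw [I_not ha]
    exact sum_eq_zero fun i _ => I_not fun hq => ha (P.trans' (hr1 i) (h _ _ hq))

variable {d : ℕ}

/-- lattice box -/
noncomputable def bx (o : Fin d → ℤ) (n : ℕ) : Finset (Fin d → ℤ) :=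
  Fintype.piFinset fun i => Ico (o i) (o i + 2 ^ n)

/-- index of the dyadic cell -/
def ce (o : Fin d → ℤ) (m : ℕ) (b : Fin d → ℤ) : Fin d → ℤ := fun i => (b i - o i) / 2 ^ m

/-- dyadic filtration -/
noncomputable def PP (o : Fin d → ℤ) (n t : ℕ) : Setoid (bx o n) := Setoid.ker fun a => ce o (n - t) a.1

/-- middle part of a cell -/
def mid (o : Fin d → ℤ) (m : ℕ) (b : Fin d → ℤ) : Prop :=
  2 ≤ m ∧ ∀ i, ce o (m - 2) b i % 4 = 1 ∨ ce o (m - 2) b i % 4 = 2

variable {o : Fin d → ℤ} {n : ℕ}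

lemma ce_iff {m : ℕ} {b q : Fin d → ℤ} : ce o m b = q ↔
    ∀ i, o i + q i * 2 ^ m ≤ b i ∧ b i < o i + q i * 2 ^ m + 2 ^ m := by
  simp only [funext_iff, ce, Int.ediv_eq_iff_of_pos (show (0 : ℤ) < 2 ^ m by positivity)]
  exact forall_congr' fun i => by omega

lemma mem_bx {b : Fin d → ℤ} : b ∈ bx o n ↔ ce o n b = 0 := by
  simp [ce_iff, bx, Fintype.mem_piFinset]

lemma ce_mono {m m' : ℕ} (h : m ≤ m') {a b : Fin d → ℤ} (hab : ce o m a = ce o m b) :
    ce o m' a = ce o m' b := by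
  obtain ⟨e, rfl⟩ := Nat.exists_eq_add_of_le h
  funext i
  have := congrFun hab i
  simp only [ce] at this ⊢
  rw [pow_add, ← Int.ediv_ediv_of_nonneg (by positivity), ← Int.ediv_ediv_of_nonneg (by positivity),
    this]

lemma filt_PP : Filt (PP o n) := fun _ _ _ h => ce_mono (Nat.sub_le_sub_left (Nat.le_succ _) _) h

lemma PP_eq {q : ℕ} (h : n ≤ q) {x y : bx o n} (hxy : PP o n q x y) : x = y := by
  have : ce o (n - q) x.1 = ce o (n - q) y.1 := hxy
  rw [Nat.sub_eq_zero_of_le h] at this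
  exact Subtype.ext (funext fun i => by simpa [ce] using congrFun this i)

lemma sum_cls (t : ℕ) (x : bx o n) : ∃ o' : Fin d → ℤ, ∀ φ : (Fin d → ℤ) → ℝ,
    ∑ a ∈ cls (PP o n t) x, φ a.1 =
      ∑ b : Fin d → Fin (2 ^ (n - t)), φ fun i => o' i + (b i : ℕ) := by
  refine ⟨fun i => o i + ce o (n - t) x.1 i * 2 ^ (n - t), fun φ => ?_⟩
  have h1 : ∀ b : Fin d → Fin (2 ^ (n - t)), ce o (n - t) x.1 =
      ce o (n - t) fun i => o i + ce o (n - t) x.1 i * 2 ^ (n - t) + (b i : ℕ) := fun b => by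
    refine (ce_iff.2 fun i => ?_).symm
    have : ((b i : ℕ) : ℤ) < 2 ^ (n - t) := by exact_mod_cast (b i).2
    omega
  refine (sum_bij (fun b _ => ⟨_, mem_bx.2 ((ce_mono (Nat.sub_le n t) (h1 b)).symm.trans
    (mem_bx.1 x.2))⟩) (fun b _ => mem_cls.2 (h1 b)) (fun a _ b _ h => ?_) (fun a ha => ?_)
    fun _ _ => rfl).symm
  · funext i
    have := congrFun (congrArg Subtype.val h) i
    exact Fin.ext (by simpa using this)
  · have h2 := ce_iff.1 (show ce o (n - t) x.1 = ce o (n - t) a.1 from mem_cls.1 ha).symm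
    refine ⟨fun i => ⟨(a.1 i - (o i + ce o (n - t) x.1 i * 2 ^ (n - t))).toNat, ?_⟩, mem_univ _,
      Subtype.ext (funext fun i => ?_)⟩
    · have := h2 i
      zify
      omega
    · have := h2 i
      simp only
      omega

lemma card_cls (t : ℕ) (x : bx o n) : ((cls (PP o n t) x).card : ℝ) = (2 ^ (n - t)) ^ d := by
  obtain ⟨o', h⟩ := sum_cls t x
  simpa using h fun _ => 1

lemma near {m : ℕ} {z y : Eu d} (h : mid o m (fl (32 / 2 ^ m) z)) (hy : ‖y‖ ≤ 8) :
    ce o m (fl (32 / 2 ^ m) z) = ce o m (fl (32 / 2 ^ m) (z - y)) := by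
  obtain ⟨e, rfl⟩ := Nat.exists_eq_add_of_le' h.1
  funext i
  have h1 := h.2 i
  have h2 : |y i| ≤ 8 := (PiLp.norm_apply_le y i).trans hy
  have h3 : ∀ a b : ℝ, a ≤ b + 8 → (⌊a / (32 / 2 ^ (e + 2))⌋ - o i) / 2 ^ e ≤
      (⌊b / (32 / 2 ^ (e + 2))⌋ - o i) / 2 ^ e + 1 := fun a b hab => by
    rw [← Int.add_mul_ediv_right _ _ (by positivity)]
    refine Int.ediv_le_ediv (by positivity) ?_
    rw [one_mul, sub_add_eq_add_sub, ← Int.floor_add_intCast]
    refine sub_le_sub_right (Int.floor_mono ?_) _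
    rw [div_le_iff₀ (by positivity), add_mul, div_mul_cancel₀ _ (by positivity)]
    refine hab.trans (add_le_add_right (le_of_eq ?_) _)
    push_cast; field_simp; ring
  have h4 := h3 (z i) (z i - y i) (by linarith [(abs_le.1 h2).2])
  have h5 := h3 (z i - y i) (z i) (by linarith [(abs_le.1 h2).1])
  simp only [ce, fl, Nat.add_sub_cancel, PiLp.sub_apply] at h1 ⊢
  rw [pow_add (2 : ℤ), ← Int.ediv_ediv_of_nonneg (by positivity),
    ← Int.ediv_ediv_of_nonneg (by positivity)]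
  omega

open Classical in
/-- extension by zero -/
noncomputable def ext (F : bx o n → ℝ) (b : Fin d → ℤ) : ℝ :=
  if h : b ∈ bx o n then F ⟨b, h⟩ else 0

/-- step function -/
noncomputable def St (δ : ℝ) (F : bx o n → ℝ) (z : Eu d) : ℝ := ext F (fl δ z)

variable {δ : ℝ} {F G : bx o n → ℝ}

lemma St_eq {a : bx o n} {z : Eu d} (h : a.1 = fl δ z) (F : bx o n → ℝ) : St δ F z = F a := by
  rw [St, ← h, ext, dif_pos a.2]

lemma St_cases (δ : ℝ) (o : Fin d → ℤ) (n : ℕ) (z : Eu d) :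
    (∃ a : bx o n, a.1 = fl δ z ∧ ∀ F, St δ F z = F a) ∨
      fl δ z ∉ bx o n ∧ ∀ F : bx o n → ℝ, St δ F z = 0 := by
  by_cases h : fl δ z ∈ bx o n
  · exact Or.inl ⟨⟨_, h⟩, rfl, St_eq rfl⟩
  · exact Or.inr ⟨h, fun F => dif_neg h⟩

lemma St_nice (hδ : 0 < δ) (F : bx o n → ℝ) : Nice (St δ F) := by
  refine ⟨step_meas δ _, ⟨∑ a, |F a|, fun z => ?_⟩, ∑ a : bx o n, ‖pt δ a.1‖ + d * δ,
    fun z hz => ?_⟩ <;> rcases St_cases δ o n z with ⟨a, ha, h⟩ | ⟨-, h⟩
  · rw [h]; exact single_le_sum (f := fun a => |F a|) (fun _ _ => abs_nonneg _) (mem_univ a)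
  · rw [h, abs_zero]; positivity
  · have h1 := norm_sub_pt hδ z
    rw [← ha] at h1
    linarith [norm_le_norm_add_norm_sub' z (pt δ a.1), single_le_sum
      (f := fun a : bx o n => ‖pt δ a.1‖) (fun _ _ => norm_nonneg _) (mem_univ a)]
  · exact absurd (h F) hz

lemma int_St (hδ : 0 < δ) (F : bx o n → ℝ) {φ : ℝ → ℝ} (h0 : φ 0 = 0) :
    ∫ z, φ (St δ F z) = δ ^ d * ∑ a, φ (F a) := by
  have h := (step_int (δ := δ) (h := fun _ => 1) (fun a => integrableOn_const
    (by rw [vol_cube hδ]; exact ENNReal.ofReal_ne_top)) (s := bx o n) (v := fun b => φ (ext F b))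
    fun a ha => by_contra fun hn => ha (by rw [ext, dif_neg hn, h0])).2
  simp only [one_mul, setIntegral_const, real_cube hδ, smul_eq_mul, mul_one] at h
  rw [← sum_mul, ← sum_coe_sort, mul_comm] at h
  exact h.trans (congrArg _ (sum_congr rfl fun a _ => by rw [ext, dif_pos a.2]))

/-- restriction to a cell -/
noncomputable def Rs (t : ℕ) (x : bx o n) (F : bx o n → ℝ) (a : bx o n) : ℝ :=
  I (PP o n t x a) * F a

lemma vol_cell (m : ℕ) : ((32 : ℝ) / 2 ^ m) ^ d * (2 ^ m) ^ d = 32 ^ d := by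
  rw [← mul_pow, div_mul_cancel₀ _ (by positivity)]

lemma int_Rs (t : ℕ) (x : bx o n) (F : bx o n → ℝ) {φ : ℝ → ℝ} (h0 : φ 0 = 0) :
    ∫ z, φ (St (32 / 2 ^ (n - t)) (Rs t x F) z) = 32 ^ d * E (PP o n t) (fun a => φ (F a)) x := by
  rw [int_St (by positivity) _ h0, ← vol_cell (n - t), mul_assoc, ← card_cls t x, ← sum_I]
  congr 1
  exact sum_congr rfl fun a _ => by unfold Rs I; split_ifs <;> simp [h0]

lemma see_lat {c κ : ℝ} {A : Eu d → ℝ} (hA : See c A) (t s : ℕ) (x : bx o n)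
    (hF : ∀ y, E (PP o n (t + s)) F y = 0) (h0 : 0 < κ) (h1 : κ ≤ 1)
    (hκ : (1 / 2) ^ s ≤ κ ^ (2 * d + 4)) :
    ∫ z, cv A (St (32 / 2 ^ (n - t)) (Rs t x F)) z ^ 2 ≤ c ^ 2 * κ *
      (32 ^ d * E (PP o n t) (fun y => E (PP o n (t + s)) (fun z => |F z|) y ^ 2) x) := by
  rcases le_total n (t + s) with hn | hn
  · have : St (32 / 2 ^ (n - t)) (Rs t x F) = fun _ => 0 := funext fun z => by
      rcases St_cases (32 / 2 ^ (n - t)) o n z with ⟨a, -, h⟩ | ⟨-, h⟩ <;> rw [h]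
      rw [Rs, ← E_eq_of_const (P := PP o n (t + s)) (u := F) fun y hy => by rw [PP_eq hn hy], hF,
        mul_zero]
    have h2 := E_nonneg (P := PP o n t) (x := x)
      fun y => sq_nonneg (E (PP o n (t + s)) (fun z => |F z|) y)
    simp only [this, cv, mul_zero, integral_zero, ne_eq, OfNat.ofNat_ne_zero, not_false_eq_true,
      zero_pow]
    positivity
  set δ : ℝ := 32 / 2 ^ (n - t) with hδ'
  have hδ : 0 < δ := by positivity
  obtain ⟨ι, _, r, hr1, hr2⟩ := exists_part (P := PP o n t) (Q := PP o n (t + s))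
    (fun a b => filt_PP.mono (Nat.le_add_right t s)) x
  set N : ℝ := (2 ^ (n - (t + s))) ^ d with hN
  have hN0 : 0 < N := by positivity
  have hs : ∀ φ : bx o n → ℝ, ∑ i, δ ^ d * (N * E (PP o n (t + s)) φ (r i)) =
      32 ^ d * E (PP o n t) φ x := fun φ => by
    rw [← vol_cell (n - t), mul_assoc, ← card_cls t x, ← sum_I, ← mul_sum]
    simp only [← hr1, sum_mul]
    rw [sum_comm]
    exact congrArg _ (sum_congr rfl fun i _ => by rw [sum_I, card_cls])
  have hi : ∀ (i) {φ : ℝ → ℝ}, φ 0 = 0 → ∫ z, φ (St δ (Rs (t + s) (r i) F) z) =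
      δ ^ d * (N * E (PP o n (t + s)) (fun a => φ (F a)) (r i)) := fun i φ hφ => by
    rw [int_St hδ _ hφ, hN, ← card_cls (t + s) (r i), ← sum_I]
    congr 1
    exact sum_congr rfl fun a _ => by unfold Rs I; split_ifs <;> simp [hφ]
  have hQ : ∀ i z, z ∈ fl δ ⁻¹' ((cls (PP o n (t + s)) (r i)).map (Function.Embedding.subtype _)) ↔
      ∃ a, PP o n (t + s) (r i) a ∧ a.1 = fl δ z := fun i z => by
    simp only [Set.mem_preimage, mem_coe, mem_map, mem_cls, Function.Embedding.coe_subtype]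
  have key := hA κ h0 h1 ι
    (fun i => fl δ ⁻¹' ((cls (PP o n (t + s)) (r i)).map (Function.Embedding.subtype _)))
    (fun i => pt δ (r i).1) (δ ^ d * N) (∑ a, |F a|) (fun i => St δ (Rs (t + s) (r i) F))
    (by positivity) (fun i => fl_meas δ (Set.to_countable _).measurableSet)
    (fun i j hij => Set.disjoint_left.2 fun z hz hz' => ?_) (fun i => ?_) (fun i z hz => ?_) ?_
    (fun i => step_meas δ _) (fun i z => ?_) (fun i z hz => ?_) fun i => ?_
  · have e : (fun z => ∑ i, St δ (Rs (t + s) (r i) F) z) = St δ (Rs t x F) := funext fun z => by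
      rcases St_cases δ o n z with ⟨a, -, h⟩ | ⟨-, h⟩ <;> simp only [h]
      · simp only [Rs, ← sum_mul, hr1]
      · exact sum_const_zero
    rw [e] at key
    refine key.trans (le_of_eq ?_)
    rw [← hs]
    refine congrArg _ (sum_congr rfl fun i _ => ?_)
    rw [hi i abs_zero, E_eq_of_const (u := fun y => E (PP o n (t + s)) (fun z => |F z|) y ^ 2)
      fun y hy => by rw [E_meas _ _ _ _ hy]]
    field_simp
  · obtain ⟨a, ha, ha'⟩ := (hQ i z).1 hz
    obtain ⟨b, hb, hb'⟩ := (hQ j z).1 hz'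
    obtain rfl : a = b := Subtype.ext (ha'.trans hb'.symm)
    exact hij (hr2 _ _ ((PP o n (t + s)).trans' ha ((PP o n (t + s)).symm' hb)))
  · rw [← sum_measure_preimage_singleton _ fun y _ => cube_meas δ y,
      sum_congr (f := fun y => volume (fl δ ⁻¹' {y})) rfl fun y _ => vol_cube hδ y, sum_const, card_map, hN, ← card_cls (t + s) (r i),
      mul_comm, ENNReal.ofReal_mul (by positivity), ENNReal.ofReal_natCast, nsmul_eq_mul]
  · obtain ⟨a, ha, ha'⟩ := (hQ i z).1 hz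
    have e : δ * 2 ^ (n - (t + s)) = 32 * (1 / 2) ^ s := by
      rw [hδ', show n - t = n - (t + s) + s by omega, pow_add, one_div_pow]; field_simp
    refine (norm_le_of_coord (η := δ * 2 ^ (n - (t + s))) (by positivity) fun j => ?_).trans ?_
    · have h2 := ce_iff.1 (show ce o _ (r i).1 = ce o _ a.1 from ha) j
      have h3 := ce_iff.1 (rfl : ce o (n - (t + s)) a.1 = _) j
      have h4 := coord_fl hδ z j
      rw [← ha'] at h4
      have h5 : ((a.1 j : ℝ) + 1) - (r i).1 j ≤ 2 ^ (n - (t + s)) := by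
        exact_mod_cast (show a.1 j + 1 - (r i).1 j ≤ 2 ^ (n - (t + s)) by omega)
      have h6 : ((r i).1 j : ℝ) - a.1 j ≤ 2 ^ (n - (t + s)) := by
        exact_mod_cast (show (r i).1 j - a.1 j ≤ 2 ^ (n - (t + s)) by omega)
      change |z j - δ * (r i).1 j| ≤ _
      exact abs_le.2 ⟨by nlinarith, by nlinarith⟩
    · rw [e]
      nlinarith [mul_le_mul_of_nonneg_left hκ (Nat.cast_nonneg d)]
  · have := hs fun _ => 1
    simp only [E_const, mul_one, sum_const, card_univ, nsmul_eq_mul] at this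
    exact this.le
  · rcases St_cases δ o n z with ⟨a, -, h⟩ | ⟨-, h⟩ <;> rw [h]
    · rw [Rs, abs_mul, abs_of_nonneg (I_nonneg _)]
      exact (mul_le_of_le_one_left (abs_nonneg _) (I_le_one _)).trans
        (single_le_sum (f := fun a => |F a|) (fun _ _ => abs_nonneg _) (mem_univ a))
    · rw [abs_zero]; positivity
  · rcases St_cases δ o n z with ⟨a, ha, h⟩ | ⟨-, h⟩
    · rw [h] at hz
      exact (hQ i z).2 ⟨a, Cor.I_ne (left_ne_zero_of_mul hz), ha⟩
    · exact absurd (h _) hz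
  · rw [hi i (φ := fun x => x) rfl, hF, mul_zero, mul_zero]

lemma avg1 (a : ℤ) {e L : ℕ} (h : e + 2 ≤ L) :
    ∑ k : Fin (2 ^ L), I ((a - (k : ℕ)) / 2 ^ e % 4 = 1 ∨ (a - (k : ℕ)) / 2 ^ e % 4 = 2) =
      2 ^ L / 2 := by
  set c : ℤ → ℝ := fun k => I ((a - k) / 2 ^ e % 4 = 1 ∨ (a - k) / 2 ^ e % 4 = 2) with hc
  have h1 : ∀ k j : ℤ, (a - (k + j * 2 ^ e)) / 2 ^ e = (a - k) / 2 ^ e + -j := fun k j => by
    rw [← Int.add_mul_ediv_right _ _ (by positivity)]; congr 1; ring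
  obtain ⟨l, rfl⟩ := Nat.exists_eq_add_of_le h
  have h2 : ∀ s : ℕ, ∑ k ∈ range (2 ^ (e + 2 + l)), c (k + s) =
      ∑ k ∈ range (2 ^ (e + 2 + l)), c k := fun s => by
    induction s with
    | zero => simp
    | succ s ih =>
      have h3 := sum_range_succ' (fun k : ℕ => c (k + s)) (2 ^ (e + 2 + l))
      rw [sum_range_succ, ih] at h3
      have h4 : c ((2 ^ (e + 2 + l) : ℕ) + s) = c ((0 : ℕ) + s) := by
        rw [show ((2 ^ (e + 2 + l) : ℕ) : ℤ) + s = (0 : ℕ) + s + (4 * 2 ^ l) * 2 ^ e by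
          push_cast; ring]
        simp only [hc, h1]
        congr 1
        exact propext (by omega)
      rw [h4, add_left_inj] at h3
      rw [h3]
      exact sum_congr rfl fun k _ => by push_cast; ring_nf
  have h3 : ∀ k : ℤ, c (k + (2 * 2 ^ e : ℕ)) = 1 - c k := fun k => by
    push_cast
    simp only [hc, h1]
    by_cases hk : (a - k) / 2 ^ e % 4 = 1 ∨ (a - k) / 2 ^ e % 4 = 2
    · rw [I_of hk, I_not (by omega), sub_self]
    · rw [I_not hk, I_of (by omega), sub_zero]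
  have h4 := h2 (2 * 2 ^ e)
  simp only [h3, sum_sub_distrib, sum_const, card_range, nsmul_eq_mul] at h4
  rw [Fin.sum_univ_eq_sum_range fun k => c k]
  push_cast at h4
  linarith

lemma avg_mid (o b : Fin d → ℤ) {m L : ℕ} (h2 : 2 ≤ m) (h : m ≤ L) :
    ∑ ω : Fin d → Fin (2 ^ L), I (mid (fun i => o i + (ω i : ℕ)) m b) = (2 ^ L / 2) ^ d := by
  have h1 := prod_univ_sum (fun _ : Fin d => (univ : Finset (Fin (2 ^ L)))) fun i k =>
    I ((b i - o i - (k : ℕ)) / 2 ^ (m - 2) % 4 = 1 ∨ (b i - o i - (k : ℕ)) / 2 ^ (m - 2) % 4 = 2)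
  rw [prod_congr rfl fun i _ => avg1 _ (by omega), Fintype.piFinset_univ, prod_const, card_univ,
    Fintype.card_fin] at h1
  rw [h1]
  refine sum_congr rfl fun ω _ => ?_
  simp only [mid, ce, h2, true_and, sub_sub]
  by_cases hp : ∀ i, (b i - (o i + (ω i : ℕ))) / 2 ^ (m - 2) % 4 = 1 ∨
      (b i - (o i + (ω i : ℕ))) / 2 ^ (m - 2) % 4 = 2
  · rw [I_of hp, prod_eq_one fun i _ => I_of (hp i)]
  · obtain ⟨i, hi⟩ := not_forall.1 hp
    rw [I_not hp, prod_eq_zero (mem_univ i) (I_not hi)]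

end Pool.Agent.P.MP_70f35d_an
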