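import Pool.Agent.P.MP_70f35d_an.FinalKer

set_option autoImplicit false
open MeasureTheory Set Filter Topology

namespace Pool.Agent.P.MP_70f35d_an

variable {d : ℕ}

/-- index of the lattice cube of side `δ` containing `x` -/
noncomputable def fl (δ : ℝ) (x : Eu d) : Fin d → ℤ := fun i => ⌊x i / δ⌋

/-- corner of a lattice cube -/
noncomputable def pt (δ : ℝ) (a : Fin d → ℤ) : Eu d := WithLp.toLp 2 fun i => δ * a i

/-- lattice cube of side `δ` -/
def cube (δ : ℝ) (a : Fin d → ℤ) : Set (Eu d) := fl δ ⁻¹' {a}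

lemma fl_meas (δ : ℝ) : Measurable (fl δ : Eu d → Fin d → ℤ) :=
  measurable_pi_lambda _ fun i => Int.measurable_floor.comp
    ((by fun_prop : Measurable fun x : Eu d => x i).div_const δ)

lemma step_meas (δ : ℝ) (u : (Fin d → ℤ) → ℝ) : Measurable fun x : Eu d => u (fl δ x) :=
  (measurable_of_countable u).comp (fl_meas δ)

lemma cube_meas (δ : ℝ) (a : Fin d → ℤ) : MeasurableSet (cube δ a) :=
  fl_meas δ (measurableSet_singleton a)

lemma norm_le_of_coord {x : Eu d} {η : ℝ} (h0 : 0 ≤ η) (h : ∀ i, |x i| ≤ η) : ‖x‖ ≤ d * η := by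
  rw [EuclideanSpace.norm_eq, Real.sqrt_le_left (by positivity)]
  have h1 : ∑ i, ‖x i‖ ^ 2 ≤ ∑ _i : Fin d, η ^ 2 :=
    Finset.sum_le_sum fun i _ => pow_le_pow_left₀ (norm_nonneg _) (h i) 2
  have h2 : (d : ℝ) ≤ d ^ 2 := by exact_mod_cast Nat.le_self_pow two_ne_zero d
  simp only [Finset.sum_const, Finset.card_univ, Fintype.card_fin, nsmul_eq_mul] at h1
  rw [mul_pow]
  exact h1.trans (mul_le_mul_of_nonneg_right h2 (by positivity))

lemma coord_fl {δ : ℝ} (hδ : 0 < δ) (x : Eu d) (i : Fin d) :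
    δ * fl δ x i ≤ x i ∧ x i < δ * (fl δ x i + 1) :=
  ⟨by rw [mul_comm, ← le_div_iff₀ hδ]; exact Int.floor_le _,
    by rw [mul_comm, ← div_lt_iff₀ hδ]; exact Int.lt_floor_add_one _⟩

lemma norm_sub_pt {δ : ℝ} (hδ : 0 < δ) (x : Eu d) : ‖x - pt δ (fl δ x)‖ ≤ d * δ :=
  norm_le_of_coord hδ.le fun i => by
    have := coord_fl hδ x i
    change |x i - δ * fl δ x i| ≤ δ
    exact abs_le.2 ⟨by linarith, by linarith⟩

lemma vol_cube {δ : ℝ} (hδ : 0 < δ) (a : Fin d → ℤ) :
    volume (cube δ a) = ENNReal.ofReal (δ ^ d) := by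
  have : cube δ a = WithLp.ofLp ⁻¹' (univ.pi fun i => Ico (δ * a i) (δ * (a i + 1))) := by
    ext x
    simp only [cube, mem_preimage, mem_singleton_iff, funext_iff, fl, Int.floor_eq_iff, Set.mem_pi,
      mem_univ, true_imp_iff, mem_Ico, le_div_iff₀ hδ, div_lt_iff₀ hδ, mul_comm δ]
  rw [this, (PiLp.volume_preserving_ofLp (Fin d)).measure_preimage
    (MeasurableSet.univ_pi fun _ => measurableSet_Ico).nullMeasurableSet, Real.volume_pi_Ico]
  simp [mul_add, ENNReal.ofReal_pow hδ.le]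

lemma real_cube {δ : ℝ} (hδ : 0 < δ) (a : Fin d → ℤ) : volume.real (cube δ a) = δ ^ d := by
  rw [measureReal_def, vol_cube hδ, ENNReal.toReal_ofReal (by positivity)]

lemma cube_sub {δ : ℝ} (hδ : 0 < δ) (a : Fin d → ℤ) :
    cube δ a ⊆ Metric.ball (pt δ a) ((d + 1) * δ) := fun x hx => by
  have := norm_sub_pt hδ x
  rw [show fl δ x = a from hx] at this
  rw [mem_ball_iff_norm]
  linarith

lemma step_eq (δ : ℝ) (h : Eu d → ℝ) {s : Finset (Fin d → ℤ)} {v : (Fin d → ℤ) → ℝ}
    (hv : ∀ a, v a ≠ 0 → a ∈ s) :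
    (fun x => h x * v (fl δ x)) = fun x => ∑ a ∈ s, indicator (cube δ a) (fun x => v a * h x) x := by
  funext x
  rw [Finset.sum_eq_single (fl δ x)]
  · rw [indicator_of_mem (show x ∈ cube δ (fl δ x) from rfl), mul_comm]
  · exact fun a _ ha => indicator_of_notMem (show x ∉ cube δ a from fun e => ha (Eq.symm e)) _
  · intro ha
    rw [indicator_of_mem (show x ∈ cube δ (fl δ x) from rfl), not_not.1 (mt (hv _) ha), zero_mul]

lemma step_int {δ : ℝ} {h : Eu d → ℝ} (hh : ∀ a, IntegrableOn h (cube δ a))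
    {s : Finset (Fin d → ℤ)} {v : (Fin d → ℤ) → ℝ} (hv : ∀ a, v a ≠ 0 → a ∈ s) :
    Integrable (fun x => h x * v (fl δ x)) ∧
      ∫ x, h x * v (fl δ x) = ∑ a ∈ s, v a * ∫ x in cube δ a, h x := by
  have h1 : ∀ a ∈ s, Integrable (indicator (cube δ a) fun x => v a * h x) := fun a _ =>
    IntegrableOn.integrable_indicator ((hh a).const_mul _) (cube_meas δ a)
  rw [step_eq δ h hv, integral_finsetSum s h1]
  exact ⟨integrable_finsetSum s h1, Finset.sum_congr rfl fun a _ => by
    rw [integral_indicator (cube_meas δ a), integral_const_mul]⟩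

lemma cs_weight {S : Set (Eu d)} (hS : volume S ≠ ⊤) {w : Eu d → ℝ} (hw : ∀ x, 0 < w x)
    (h1 : IntegrableOn w S) (h2 : IntegrableOn (fun y => (w y)⁻¹) S) :
    volume.real S ^ 2 ≤ (∫ y in S, w y) * ∫ y in S, (w y)⁻¹ := by
  have h3 := discrim_le_zero (a := ∫ y in S, w y) (b := -2 * volume.real S)
    (c := ∫ y in S, (w y)⁻¹) fun t => by
      have h4 : 0 ≤ ∫ y in S, (w y * (t * t) + -2 * t) + (w y)⁻¹ := integral_nonneg fun y => by
        have h5 := hw y
        have : w y * (t * t) + -2 * t + (w y)⁻¹ = (t * w y - 1) ^ 2 / w y := by field_simp; ring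
        simp only [Pi.zero_apply, this]
        positivity
      have h5 : IntegrableOn (fun y => w y * (t * t) + -2 * t) S :=
        (h1.mul_const _).add (integrableOn_const hS)
      rw [integral_add h5 h2,
        integral_add (h1.mul_const _) (integrableOn_const hS), integral_mul_const,
        setIntegral_const, smul_eq_mul] at h4
      linarith
  rw [discrim] at h3
  nlinarith

lemma sum_cube_le {δ : ℝ} (hδ : 0 < δ) {h : Eu d → ℝ} (h0 : ∀ x, 0 ≤ h x) (o : Fin d → ℤ)
    {n : ℕ} (hn : 0 < n) (hi : IntegrableOn h (Metric.ball (pt δ o) ((d + 1) * (δ * n)))) :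
    ∑ a : Fin d → Fin n, ∫ y in cube δ (fun i => o i + (a i : ℕ)), h y ≤
      ∫ y in Metric.ball (pt δ o) ((d + 1) * (δ * n)), h y := by
  have h1 : ∀ a : Fin d → Fin n,
      cube δ (fun i => o i + (a i : ℕ)) ⊆ Metric.ball (pt δ o) ((d + 1) * (δ * n)) := by
    intro a x hx
    have hn' : (0 : ℝ) < δ * n := by positivity
    have h2 : ‖x - pt δ o‖ ≤ d * (δ * n) := norm_le_of_coord hn'.le fun i => by
      have h3 := coord_fl hδ x i
      rw [show fl δ x = _ from hx] at h3
      have h4 : ((a i : ℕ) : ℝ) + 1 ≤ n := by exact_mod_cast (a i).2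
      have h5 : (0 : ℝ) ≤ δ * (a i : ℕ) := by positivity
      have h6 := mul_le_mul_of_nonneg_left h4 hδ.le
      push_cast at h3
      change |x i - δ * o i| ≤ δ * n
      exact abs_le.2 ⟨by linarith, by linarith⟩
    rw [mem_ball_iff_norm]
    linarith
  rw [← integral_iUnion_fintype (fun a => cube_meas _ _) (fun a b hab => ?_)
    fun a => hi.mono_set (h1 a)]
  · exact setIntegral_mono_set hi (Eventually.of_forall h0) (iUnion_subset h1).eventuallyLE
  · refine disjoint_left.2 fun x ha hb => hab (funext fun i => Fin.ext ?_)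
    have := congrFun ((show fl δ x = _ from ha).symm.trans (show fl δ x = _ from hb)) i
    simpa using this

lemma conv_meas {K h : Eu d → ℝ} (hK : Measurable K) (hh : Measurable h) :
    Measurable fun x => ∫ y, K y * h (x - y) :=
  (StronglyMeasurable.integral_prod_right' (f := fun z : Eu d × Eu d => K z.2 * h (z.1 - z.2))
    ((hK.comp measurable_snd).mul (hh.comp (measurable_fst.sub measurable_snd))).stronglyMeasurable
      ).measurable

lemma conv_int {K h : Eu d → ℝ} (hK : Integrable K) (hh : Measurable h) {B : ℝ}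
    (hB : ∀ x, |h x| ≤ B) (x : Eu d) : Integrable fun y => K y * h (x - y) :=
  hK.mul_bdd (hh.comp (measurable_const.sub measurable_id)).aestronglyMeasurable
    (Eventually.of_forall fun _ => hB _)

lemma int_mul_le {K h : Eu d → ℝ} (hK : Integrable K) {η : ℝ} (hη : ∀ y, |h y| ≤ η) :
    |∫ y, K y * h y| ≤ (∫ y, |K y|) * η := by
  rw [← integral_mul_const, ← Real.norm_eq_abs]
  exact norm_integral_le_of_norm_le (hK.abs.mul_const _) (Eventually.of_forall fun y => by
    rw [Real.norm_eq_abs, abs_mul]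
    exact mul_le_mul_of_nonneg_left (hη y) (abs_nonneg _))

lemma conv_scale {δ : ℝ} (hδ : 0 < δ) (K K' : Eu d → ℝ) (hK : ∀ y, δ ^ d * K (δ • y) = K' y)
    (u v : (Fin d → ℤ) → ℝ) :
    ∫ x, (∫ y, K y * u (fl δ (x - y))) * v (fl δ x) =
      δ ^ d * ∫ x, (∫ y, K' y * stp u (x - y)) * stp v x := by
  have h1 : ∀ F : Eu d → ℝ, ∫ x, F x = δ ^ d * ∫ x, F (δ • x) := fun F => by
    rw [Measure.integral_comp_smul, finrank_euclideanSpace_fin, abs_of_pos (by positivity),
      smul_eq_mul, mul_inv_cancel_left₀ (by positivity)]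
  have h2 : ∀ x : Eu d, fl δ (δ • x) = fun i => ⌊x i⌋ := fun x => funext fun i => by
    simp [fl, hδ.ne']
  rw [h1]
  congr 2
  funext x
  rw [h1, ← integral_const_mul]
  simp only [← smul_sub, h2, stp, ← mul_assoc, hK]

lemma fatou_le {F : Eu d → ℝ} {L H : ℕ → Eu d → ℝ} (hH : ∀ n, AEMeasurable (H n))
    (hL : ∀ x, Tendsto (fun n => L n x) atTop (𝓝 (F x))) (hle : ∀ x, ∀ᶠ n in atTop, L n x ≤ H n x)
    {b : ℕ → ℝ} {B : ℝ} (hb : Tendsto b atTop (𝓝 B))
    (hB : ∀ n, ∫⁻ x, ENNReal.ofReal (H n x) ≤ ENNReal.ofReal (b n)) :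
    ∫⁻ x, ENNReal.ofReal (F x) ≤ ENNReal.ofReal B := by
  calc ∫⁻ x, ENNReal.ofReal (F x) ≤ ∫⁻ x, liminf (fun n => ENNReal.ofReal (H n x)) atTop :=
        lintegral_mono fun x => by
          rw [← (ENNReal.tendsto_ofReal (hL x)).liminf_eq]
          exact liminf_le_liminf ((hle x).mono fun n hn => ENNReal.ofReal_le_ofReal hn)
    _ ≤ liminf (fun n => ∫⁻ x, ENNReal.ofReal (H n x)) atTop :=
        lintegral_liminf_le' fun n => (hH n).ennreal_ofReal
    _ ≤ liminf (fun n => ENNReal.ofReal (b n)) atTop := liminf_le_liminf (Eventually.of_forall hB)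
    _ = _ := (ENNReal.tendsto_ofReal hb).liminf_eq

end Pool.Agent.P.MP_70f35d_an
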