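import Pool.Agent.P.MP_70f35d_an.Seeger
import Pool.Agent.P.MP_70f35d_an.FinalCube

set_option autoImplicit false
open MeasureTheory

namespace Pool.Agent.P.MP_70f35d_an
namespace SG

variable {d : ℕ} {f g h K : Eu d → ℝ}

/-- reflection -/
def rf (f : Eu d → ℝ) (y : Eu d) : ℝ := f (-y)

/-- dilation -/
noncomputable def Dl (r : ℝ) (f : Eu d → ℝ) (y : Eu d) : ℝ := (r ^ d)⁻¹ * f (r⁻¹ • y)

lemma Nice.bmul (hf : Nice f) {S : Eu d → ℝ} (hS : Measurable S) {B : ℝ} (hB : ∀ z, |S z| ≤ B) :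
    Nice fun z => S z * f z := by
  obtain ⟨C, hC⟩ := hf.bdd
  obtain ⟨R, hR⟩ := hf.supp
  exact ⟨hS.mul hf.meas, ⟨B * C, fun z => by
    rw [abs_mul]; exact mul_le_mul (hB z) (hC z) (abs_nonneg _) ((abs_nonneg _).trans (hB z))⟩,
    R, fun z hz => hR z (right_ne_zero_of_mul hz)⟩

lemma Nice.mul (hf : Nice f) (hg : Nice g) : Nice fun z => f z * g z :=
  hg.bmul hf.meas hf.bdd.choose_spec

lemma Nice.cmul (hf : Nice f) (c : ℝ) : Nice fun z => c * f z :=
  hf.bmul measurable_const fun _ => le_rfl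

lemma Nice.add (hf : Nice f) (hg : Nice g) : Nice fun z => f z + g z := by
  obtain ⟨C, hC⟩ := hf.bdd
  obtain ⟨R, hR⟩ := hf.supp
  obtain ⟨C', hC'⟩ := hg.bdd
  obtain ⟨R', hR'⟩ := hg.supp
  refine ⟨hf.meas.add hg.meas, ⟨C + C', fun z => (abs_add_le _ _).trans
    (add_le_add (hC z) (hC' z))⟩, max R R', fun z hz => ?_⟩
  by_cases h0 : f z = 0
  · exact (hR' z fun h1 => hz (by rw [h0, h1, add_zero])).trans (le_max_right _ _)
  · exact (hR z h0).trans (le_max_left _ _)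

lemma Nice.abs (hf : Nice f) : Nice fun z => |f z| :=
  ⟨hf.meas.abs, by simpa only [abs_abs] using hf.bdd, by simpa only [ne_eq, abs_eq_zero] using hf.supp⟩

lemma Nice.sq (hf : Nice f) : Nice fun z => f z ^ 2 := by simpa only [_root_.sq] using hf.mul hf

lemma Nice.rf (hf : Nice f) : Nice (rf f) := by
  obtain ⟨C, hC⟩ := hf.bdd
  obtain ⟨R, hR⟩ := hf.supp
  exact ⟨hf.meas.comp measurable_neg, ⟨C, fun z => hC _⟩, R, fun z hz => by simpa using hR _ hz⟩

lemma Nice.flip (hf : Nice f) (x : Eu d) : Nice fun y => f (x - y) := by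
  obtain ⟨C, hC⟩ := hf.bdd
  obtain ⟨R, hR⟩ := hf.supp
  refine ⟨hf.meas.comp (measurable_const.sub measurable_id), ⟨C, fun z => hC _⟩, ‖x‖ + R,
    fun z hz => ?_⟩
  have := norm_sub_le x (x - z)
  rw [sub_sub_cancel] at this
  linarith [hR _ hz]

lemma supp_smul {r R : ℝ} (hr : 0 < r) (hR : ∀ y, f y ≠ 0 → ‖y‖ ≤ R) {y : Eu d}
    (hy : f (r⁻¹ • y) ≠ 0) : ‖y‖ ≤ r * R := by
  have := hR _ hy
  rwa [norm_smul, norm_inv, Real.norm_eq_abs, abs_of_pos hr, inv_mul_le_iff₀ hr] at this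

lemma Nice.smul (hf : Nice f) {r : ℝ} (hr : 0 < r) : Nice fun y => f (r⁻¹ • y) := by
  obtain ⟨C, hC⟩ := hf.bdd
  obtain ⟨R, hR⟩ := hf.supp
  exact ⟨hf.meas.comp (measurable_const_smul _), ⟨C, fun z => hC _⟩, r * R,
    fun z hz => supp_smul hr hR hz⟩

lemma Nice.Dl (hf : Nice f) {r : ℝ} (hr : 0 < r) : Nice (Dl r f) := (hf.smul hr).cmul _

lemma prod_int (hf : Nice f) (hg : Nice g) {H : Eu d × Eu d → ℝ} (hH : Measurable H) {B : ℝ}
    (hB : ∀ p, |H p| ≤ B) :
    Integrable (fun p : Eu d × Eu d => f p.1 * g p.2 * H p) (volume.prod volume) :=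
  (hf.integrable.mul_prod hg.integrable).mul_bdd hH.aestronglyMeasurable
    (Filter.Eventually.of_forall hB)

lemma cv_comm (f g : Eu d → ℝ) : cv f g = cv g f := by
  funext x
  rw [cv, cv, ← integral_sub_left_eq_self _ volume x]
  simp only [sub_sub_cancel, mul_comm]

lemma cv_lin (hK : Nice K) (hf : Nice f) (hg : Nice g) (a b : ℝ) (x : Eu d) :
    cv K (fun z => a * f z + b * g z) x = a * cv K f x + b * cv K g x := by
  simp only [cv]
  rw [← integral_const_mul, ← integral_const_mul, ← integral_add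
    ((hK.mul (hf.flip x)).cmul a).integrable ((hK.mul (hg.flip x)).cmul b).integrable]
  congr 1; funext y; ring

lemma cv_lin' (hK : Nice K) (hf : Nice f) (hg : Nice g) (a b : ℝ) (x : Eu d) :
    cv (fun z => a * f z + b * g z) K x = a * cv f K x + b * cv g K x := by
  rw [cv_comm, cv_lin hK hf hg, cv_comm K, cv_comm K]

lemma cv_cmul (K f : Eu d → ℝ) (a : ℝ) (x : Eu d) : cv K (fun z => a * f z) x = a * cv K f x := by
  simp only [cv]
  rw [← integral_const_mul]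
  congr 1; funext y; ring

lemma cv_sum {ι : Type} (s : Finset ι) (hK : Nice K) {μ : ι → Eu d → ℝ} (hμ : ∀ i, Nice (μ i))
    (x : Eu d) : cv K (fun z => ∑ i ∈ s, μ i z) x = ∑ i ∈ s, cv K (μ i) x := by
  simp only [cv, Finset.mul_sum]
  exact integral_finsetSum _ fun i _ => (hK.mul ((hμ i).flip x)).integrable

lemma cv_assoc (hf : Nice f) (hg : Nice g) (hh : Nice h) : cv (cv f g) h = cv f (cv g h) := by
  funext x
  obtain ⟨B, hB⟩ := hg.bdd
  have i1 := prod_int (hh.flip x) hf (H := fun p => g (p.1 - p.2))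
    (hg.meas.comp (measurable_fst.sub measurable_snd)) fun p => hB _
  calc _ = ∫ y, ∫ z, h (x - y) * f z * g (y - z) := by
        simp only [cv]
        congr 1; funext y
        rw [← integral_mul_const]
        congr 1; funext z; ring
    _ = ∫ z, ∫ y, h (x - y) * f z * g (y - z) := integral_integral_swap i1
    _ = _ := by
        simp only [cv]
        congr 1; funext z
        rw [← integral_const_mul, ← integral_add_right_eq_self _ z]
        congr 1; funext y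
        rw [add_sub_cancel_right, show x - (y + z) = x - z - y by abel]; ring

lemma cv_adj (hK : Nice K) (hh : Nice h) (hg : Nice g) :
    ∫ x, cv K h x * g x = ∫ z, h z * cv (rf K) g z := by
  obtain ⟨B, hB⟩ := hK.bdd
  have i1 := prod_int hg hh (H := fun p => K (p.1 - p.2))
    (hK.meas.comp (measurable_fst.sub measurable_snd)) fun p => hB _
  rw [cv_comm K, cv_comm (rf K)]
  calc _ = ∫ x, ∫ z, g x * h z * K (x - z) := by
        simp only [cv]
        congr 1; funext y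
        rw [← integral_mul_const]
        congr 1; funext z; ring
    _ = ∫ z, ∫ x, g x * h z * K (x - z) := integral_integral_swap i1
    _ = _ := by
        simp only [cv, rf, neg_sub]
        congr 1; funext z
        rw [← integral_const_mul]
        congr 1; funext y; ring

lemma int_cv (hf : Nice f) (hg : Nice g) : ∫ x, cv f g x = (∫ x, f x) * ∫ x, g x :=
  integral_convolution (ContinuousLinearMap.mul ℝ ℝ) hf.integrable hg.integrable

lemma abs_cv_le (hK : Nice K) {B : ℝ} (hB : ∀ y, |f y| ≤ B) (x : Eu d) :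
    |cv K f x| ≤ (∫ y, |K y|) * B := int_mul_le hK.integrable fun _ => hB _

lemma abs_cv_le' (hf : Nice f) {B : ℝ} (hB : ∀ y, |K y| ≤ B) (x : Eu d) :
    |cv K f x| ≤ (∫ y, |f y|) * B := by rw [cv_comm]; exact abs_cv_le hf hB x

lemma abs_cv_mean (hK : Nice K) (hf : Nice f) (h0 : ∫ y, K y = 0) (a : ℝ) {B : ℝ} (hB : 0 ≤ B)
    {x : Eu d} (h : ∀ y, K y ≠ 0 → |f (x - y) - a| ≤ B) : |cv K f x| ≤ (∫ y, |K y|) * B := by
  have e : cv K f x = ∫ y, K y * (if K y = 0 then 0 else f (x - y) - a) := by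
    have e0 : ∫ y, K y * a = 0 := by rw [integral_mul_const, h0, zero_mul]
    rw [cv, ← sub_zero (∫ y, K y * f (x - y))]
    nth_rewrite 1 [← e0]
    rw [← integral_sub (hK.mul (hf.flip x)).integrable (hK.integrable.mul_const _)]
    congr 1; funext y
    by_cases h : K y = 0
    · rw [h]; ring
    · rw [if_neg h]; ring
  rw [e]
  refine int_mul_le hK.integrable fun y => ?_
  split_ifs with h1
  · rwa [abs_zero]
  · exact h y h1

lemma int_abs_cv (hf : Nice f) (hg : Nice g) : ∫ x, |cv f g x| ≤ (∫ x, |f x|) * ∫ x, |g x| := by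
  rw [← int_cv hf.abs hg.abs]
  refine integral_mono (hf.cv hg).abs.integrable (hf.abs.cv hg.abs).integrable fun x => ?_
  simp only [cv, ← abs_mul]
  exact abs_integral_le_integral_abs

lemma int_abs_le {B R : ℝ} (hR0 : 0 ≤ R) (hB : ∀ y, |f y| ≤ B) (hR : ∀ y, f y ≠ 0 → ‖y‖ ≤ R) :
    ∫ y, |f y| ≤ B * (R ^ d * vb d) := by
  rw [← vol_ball 0 hR0]
  refine (Real.le_norm_self _).trans (norm_integral_le_ind measurableSet_closedBall
    measure_closedBall_lt_top.ne (fun y _ => ?_) fun y hy => ?_)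
  · simpa using hB y
  · simpa using hR y (by simpa using hy)

lemma cv_supp {R R' : ℝ} (hR : ∀ y, f y ≠ 0 → ‖y‖ ≤ R) (hR' : ∀ y, g y ≠ 0 → ‖y‖ ≤ R') (x : Eu d)
    (hx : cv f g x ≠ 0) : ‖x‖ ≤ R + R' := by
  by_contra hc
  refine hx (integral_eq_zero_of_ae (Filter.Eventually.of_forall fun y => ?_))
  by_contra hy
  have := norm_add_le y (x - y)
  rw [add_sub_cancel] at this
  linarith [hR y (left_ne_zero_of_mul hy), hR' _ (right_ne_zero_of_mul hy), not_le.1 hc]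

lemma cv_congr {R : ℝ} (hR : ∀ y, K y ≠ 0 → ‖y‖ ≤ R) {x : Eu d}
    (hx : ∀ y, ‖y‖ ≤ R → f (x - y) = g (x - y)) : cv K f x = cv K g x := by
  simp only [cv]
  congr 1; funext y
  by_cases h0 : K y = 0
  · rw [h0, zero_mul, zero_mul]
  · rw [hx y (hR y h0)]

lemma int_cs (hf : Nice f) (hg : Nice g) :
    (∫ x, f x * g x) ^ 2 ≤ (∫ x, f x ^ 2) * ∫ x, g x ^ 2 := by
  have h3 := discrim_le_zero (a := ∫ x, f x ^ 2) (b := 2 * ∫ x, f x * g x)
    (c := ∫ x, g x ^ 2) fun t => by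
      have i1 := hf.sq.integrable.mul_const (t * t)
      have i2 := ((hf.mul hg).cmul 2).integrable.mul_const t
      rw [← integral_mul_const, ← integral_const_mul, ← integral_mul_const,
        ← integral_add i1 i2, ← integral_add (by exact i1.add i2) hg.sq.integrable]
      exact integral_nonneg fun x => (sq_nonneg (f x * t + g x)).trans_eq (by ring)
  rw [discrim] at h3
  linarith

lemma int_smul {r : ℝ} (hr : 0 < r) (F : Eu d → ℝ) : ∫ x, F x = r ^ d * ∫ x, F (r • x) := by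
  rw [Measure.integral_comp_smul, finrank_euclideanSpace_fin, abs_of_pos (by positivity),
    smul_eq_mul, mul_inv_cancel_left₀ (by positivity)]

lemma int_Dl {r : ℝ} (hr : 0 < r) (f : Eu d → ℝ) : ∫ x, Dl r f x = ∫ x, f x := by
  rw [int_smul hr]
  simp only [Dl, inv_smul_smul₀ hr.ne', integral_const_mul]
  rw [mul_inv_cancel_left₀ (by positivity)]

lemma int_abs_Dl {r : ℝ} (hr : 0 < r) (f : Eu d → ℝ) : ∫ x, |Dl r f x| = ∫ x, |f x| := by
  rw [← int_Dl hr fun x => |f x|]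
  simp only [Dl, abs_mul, abs_of_pos (show 0 < (r ^ d)⁻¹ by positivity)]

lemma cv_Dl {r : ℝ} (hr : 0 < r) (K f : Eu d → ℝ) (x : Eu d) :
    cv (Dl r K) f (r • x) = cv K (fun z => f (r • z)) x := by
  rw [cv, int_smul hr]
  simp only [Dl, inv_smul_smul₀ hr.ne', mul_assoc, integral_const_mul, cv, smul_sub]
  rw [mul_inv_cancel_left₀ (by positivity)]

lemma Dl_cv {r : ℝ} (hr : 0 < r) (f g : Eu d → ℝ) : Dl r (cv f g) = cv (Dl r f) (Dl r g) := by
  funext x
  rw [← smul_inv_smul₀ hr.ne' x, cv_Dl hr]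
  simp only [Dl, inv_smul_smul₀ hr.ne', cv_cmul]

lemma Dl_Dl (r s : ℝ) (f : Eu d → ℝ) : Dl r (Dl s f) = Dl (r * s) f := by
  funext x
  simp only [Dl, smul_smul, mul_pow, mul_inv]
  rw [mul_comm s⁻¹, mul_assoc]

/-- the single scale decay property -/
def See (c : ℝ) (A : Eu d → ℝ) : Prop :=
  ∀ κ : ℝ, 0 < κ → κ ≤ 1 →
    ∀ (ι : Type) [Fintype ι] (Q : ι → Set (Eu d)) (ce : ι → Eu d) (q B : ℝ) (μ : ι → Eu d → ℝ),
      0 < q → (∀ i, MeasurableSet (Q i)) → Pairwise (fun i j => Disjoint (Q i) (Q j)) →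
      (∀ i, volume (Q i) = ENNReal.ofReal q) →
      (∀ i, ∀ y ∈ Q i, ‖y - ce i‖ ≤ 32 * d * κ ^ (2 * d + 4)) →
      (Fintype.card ι : ℝ) * q ≤ 32 ^ d →
      (∀ i, Measurable (μ i)) → (∀ i y, |μ i y| ≤ B) → (∀ i y, μ i y ≠ 0 → y ∈ Q i) →
      (∀ i, ∫ y, μ i y = 0) →
      ∫ x, cv A (fun z => ∑ i, μ i z) x ^ 2 ≤ c ^ 2 * κ * ∑ i, (∫ y, |μ i y|) ^ 2 / q

lemma See.mono {c c' : ℝ} {A : Eu d → ℝ} (h : See c A) (hc : |c| ≤ c') : See c' A := by
  intro κ h0 h1 ι _ Q ce q B μ a1 a2 a3 a4 a5 a6 a7 a8 a9 a10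
  refine (h κ h0 h1 ι Q ce q B μ a1 a2 a3 a4 a5 a6 a7 a8 a9 a10).trans ?_
  have : c ^ 2 ≤ c' ^ 2 := by rw [← sq_abs c]; exact pow_le_pow_left₀ (abs_nonneg _) hc 2
  have : 0 ≤ ∑ i, (∫ y, |μ i y|) ^ 2 / q := Finset.sum_nonneg fun i _ => by positivity
  gcongr

/-- constant -/
noncomputable def cS (d : ℕ) : ℝ := 8 ^ d * vb d * 32 ^ d + 1

lemma one_le_cS (d : ℕ) : 1 ≤ cS d := le_add_of_nonneg_left (by have := vb_nonneg d; positivity)

lemma see_of_mod {A : Eu d → ℝ} {c : ℝ} (hA : Nice A) (hs : ∀ y, A y ≠ 0 → ‖y‖ ≤ 8)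
    (hb : ∀ y, |A y| ≤ c) (hm : ∀ κ : ℝ, 0 < κ → ∀ x y, ‖x - y‖ ≤ 32 * d * κ ^ 2 →
      |A x - A y| ≤ c * κ) : See (c * cS d) A := by
  intro κ h0 h1 ι _ Q ce q B μ a1 a2 a3 a4 a5 a6 a7 a8 a9 a10
  have hc : 0 ≤ c := (abs_nonneg _).trans (hb 0)
  have hn : ∀ i, Nice (μ i) := fun i => ⟨a7 i, ⟨B, a8 i⟩, _, fun y hy =>
    (norm_le_norm_add_norm_sub' y (ce i)).trans (add_le_add_right (a5 i y (a9 i y hy)) _)⟩
  set m := ∑ i, ∫ y, |μ i y| with hm'
  have b1 : ∀ x, |cv A (fun z => ∑ i, μ i z) x| ≤ m * (c * κ) := fun x => by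
    rw [cv_sum _ hA hn, hm', Finset.sum_mul]
    refine (Finset.abs_sum_le_sum_abs _ _).trans (Finset.sum_le_sum fun i _ => ?_)
    rw [cv_comm]
    refine abs_cv_mean (hn i) hA (a10 i) (A (x - ce i)) (by positivity) fun y h => hm κ h0 _ _ ?_
    rw [sub_sub_sub_cancel_left, norm_sub_rev]
    refine (a5 i y (a9 i y h)).trans (mul_le_mul_of_nonneg_left ?_ (by positivity))
    exact pow_le_pow_of_le_one h0.le h1 (by omega)
  have b2 : ∫ x, |cv A (fun z => ∑ i, μ i z) x| ≤ c * (8 ^ d * vb d) * m := by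
    refine (int_abs_cv hA (Nice.sum _ hn)).trans (mul_le_mul (int_abs_le (by norm_num) hb hs) ?_
      (integral_nonneg fun _ => abs_nonneg _) (by have := vb_nonneg d; positivity))
    rw [hm', ← integral_finsetSum _ fun i _ => (hn i).abs.integrable]
    exact integral_mono (Nice.sum _ hn).abs.integrable (Nice.sum _ fun i => (hn i).abs).integrable
      fun x => Finset.abs_sum_le_sum_abs _ _
  have hm0 : 0 ≤ m := Finset.sum_nonneg fun i _ => integral_nonneg fun _ => abs_nonneg _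
  have b3 : m ^ 2 ≤ 32 ^ d * ∑ i, (∫ y, |μ i y|) ^ 2 / q := by
    refine sq_sum_le_card_mul_sum_sq.trans ?_
    rw [← Finset.sum_div, ← mul_div_assoc, le_div_iff₀ a1, mul_right_comm]
    exact mul_le_mul_of_nonneg_right a6 (Finset.sum_nonneg fun i _ => sq_nonneg _)
  have hv := vb_nonneg d
  have hS := one_le_cS d
  calc _ ≤ ∫ x, m * (c * κ) * |cv A (fun z => ∑ i, μ i z) x| :=
        integral_mono (hA.cv (Nice.sum _ hn)).sq.integrable
          ((hA.cv (Nice.sum _ hn)).abs.cmul _).integrable fun x => by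
            simp only
            rw [← sq_abs, sq]
            exact mul_le_mul_of_nonneg_right (b1 x) (abs_nonneg _)
    _ ≤ m * (c * κ) * (c * (8 ^ d * vb d) * m) := by
        rw [integral_const_mul]; exact mul_le_mul_of_nonneg_left b2 (by positivity)
    _ = c ^ 2 * κ * (8 ^ d * vb d) * m ^ 2 := by ring
    _ ≤ c ^ 2 * κ * (8 ^ d * vb d) * (32 ^ d * ∑ i, (∫ y, |μ i y|) ^ 2 / q) := by gcongr
    _ = c ^ 2 * (8 ^ d * vb d * 32 ^ d) * κ * ∑ i, (∫ y, |μ i y|) ^ 2 / q := by ring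
    _ ≤ _ := by
        have : 0 ≤ ∑ i, (∫ y, |μ i y|) ^ 2 / q := Finset.sum_nonneg fun i _ => by positivity
        have : 8 ^ d * vb d * 32 ^ d ≤ cS d ^ 2 := by
          have : 8 ^ d * vb d * 32 ^ d + 1 = cS d := rfl
          nlinarith
        rw [mul_pow]
        gcongr

/-- admissible pairs of unit scale operators -/
structure Pr (c0 c b0 : ℝ) (β A : Eu d → ℝ) : Prop where
  hb : |b0| ≤ 1
  nβ : Nice β
  nA : Nice A
  sβ : ∀ y, β y ≠ 0 → ‖y‖ ≤ 8
  sA : ∀ y, A y ≠ 0 → ‖y‖ ≤ 8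
  bβ : ∀ y, |β y| ≤ c0
  bA : ∀ y, |A y| ≤ c
  iβ : b0 + ∫ y, β y = 0
  iA : ∫ y, A y = 0
  eβ : See c0 β
  eA : See c A
  eA' : See c (rf A)

end SG
end Pool.Agent.P.MP_70f35d_an
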