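import Pool.Agent.P.MP_70f35d_an.Mart

set_option autoImplicit false
open Finset

namespace Pool.Agent.P.MP_70f35d_an

variable {X : Type} [Fintype X]

open Classical in
noncomputable def I (p : Prop) : ℝ := if p then 1 else 0

lemma I_of {p : Prop} (h : p) : I p = 1 := by simp [I, h]
lemma I_not {p : Prop} (h : ¬ p) : I p = 0 := by simp [I, h]
lemma I_nonneg (p : Prop) : 0 ≤ I p := by unfold I; split_ifs <;> norm_num
lemma I_le_one (p : Prop) : I p ≤ 1 := by unfold I; split_ifs <;> norm_num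
lemma I_mono {p q : Prop} (h : p → q) : I p ≤ I q := by
  by_cases hp : p
  · rw [I_of hp, I_of (h hp)]
  · rw [I_not hp]; exact I_nonneg q
lemma I_mul_I (p : Prop) : I p * I p = I p := by unfold I; split_ifs <;> norm_num
lemma I_sq (p : Prop) : I p ^ 2 = I p := by rw [sq, I_mul_I]

lemma sum_I_le_one {s : Finset ℕ} {p : ℕ → Prop} (h : ∀ a b, p a → p b → a = b) :
    ∑ a ∈ s, I (p a) ≤ 1 := by
  by_cases he : ∃ a ∈ s, p a
  · obtain ⟨a, ha, hp⟩ := he
    rw [sum_eq_single a (fun b _ hb => I_not fun hpb => hb (h b a hpb hp)) fun h' => (h' ha).elim]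
    exact I_le_one _
  · rw [sum_eq_zero fun a ha => I_not fun hp => he ⟨a, ha, hp⟩]; norm_num

lemma window_sum {c : ℕ → ℝ} {p n s : ℕ} {K : ℝ} (hK : 0 ≤ K) (h0 : ∀ q, p ≤ q → 0 ≤ c q)
    (h1 : ∀ q, p ≤ q → q ≤ n + s → c q ≤ K) : ∑ t ∈ Ico p n, (c (t + s) - c t) ≤ s * K := by
  rcases le_or_gt n p with hn | hn
  · rw [Ico_eq_empty_of_le hn, sum_empty]; positivity
  induction s with
  | zero => simp
  | succ s ih =>
    have e : ∀ t ∈ Ico p n, c (t + (s + 1)) - c t =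
        (c (t + 1 + s) - c (t + s)) + (c (t + s) - c t) := by
      intro t _; rw [show t + (s + 1) = t + 1 + s by ring]; ring
    rw [sum_congr rfl e, sum_add_distrib, sum_Ico_sub (fun t => c (t + s)) hn.le]
    have := ih fun q hq hq' => h1 q hq (by omega)
    have := h0 (p + s) (by omega)
    have := h1 (n + s) (by omega) (by omega)
    push_cast; linarith

lemma Ew_one (P : Setoid X) (f : X → ℝ) : Ew P (fun _ => 1) f = E P f := by
  funext x; simp only [Ew, one_mul, E_const, div_one]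

lemma window {P : ℕ → Setoid X} (hP : Filt P) {σ φ f : X → ℝ} (hσ : ∀ x, 0 < σ x) {p n s : ℕ}
    (hφ : Meas (P p) φ) (hφ0 : ∀ x, 0 ≤ φ x) {K : ℝ} (hK : 0 ≤ K)
    (h : ∀ q, p ≤ q → ∑ x, φ x * (σ x * Ew (P q) σ f x ^ 2) ≤ K) :
    ∑ t ∈ Ico p n, ∑ x, φ x * (σ x * (Ew (P (t + s)) σ f x - Ew (P t) σ f x) ^ 2) ≤ s * K := by
  refine le_trans (le_of_eq (sum_congr rfl fun t ht => ?_))
    (window_sum (c := fun q => ∑ x, φ x * (σ x * Ew (P q) σ f x ^ 2)) (n := n) hK
      (fun q _ => sum_nonneg fun x _ => mul_nonneg (hφ0 x) (mul_nonneg (hσ x).le (sq_nonneg _)))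
      fun q hq _ => h q hq)
  have hm : Meas (P t) fun x => φ x * Ew (P t) σ f x := fun x y hxy => by
    simp only [hφ.mono hP (mem_Ico.1 ht).1 x y hxy, Ew_meas _ _ _ x y hxy]
  have h1 := sum_mul_Ew hσ hm f
  have h2 := sum_mul_Ew hσ (hm.mono hP (Nat.le_add_right t s)) f
  have h3 := sub_eq_zero.2 (h2.trans h1.symm)
  rw [← sub_eq_zero, ← mul_eq_zero_of_right (-2) h3, ← sum_sub_distrib, ← sum_sub_distrib,
    ← sum_sub_distrib, mul_sum]
  exact sum_congr rfl fun x _ => by ring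

structure Cor (X : Type) [Fintype X] where
  P : ℕ → Setoid X
  hP : Filt P
  D : ℝ
  hD1 : 1 ≤ D
  hD : ∀ t x, ((cls (P t) x).card : ℝ) ≤ D * (cls (P (t + 1)) x).card
  σ : X → ℝ
  w : X → ℝ
  U : X → ℝ
  V : X → ℝ
  A : ℝ
  hσ : ∀ x, 0 < σ x
  hw : ∀ x, 0 < w x
  hU : ∀ x, 0 < U x
  hV : ∀ x, 0 < V x
  hσw : ∀ x, 1 ≤ σ x * w x
  hA1 : 1 ≤ A
  hA : ∀ t x, E (P t) σ x * E (P t) w x ≤ A
  nU : ∑ x, U x ^ 2 / σ x ≤ 1
  nV : ∑ x, V x ^ 2 / w x ≤ 1
  top : ℕ → X → ℕ
  top_meas : ∀ q x y, P q x y → top q y = top q x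
  top_zero : ∀ x, top 0 x = 0
  top_succ : ∀ q x, top (q + 1) x = q + 1 ∨ top (q + 1) x = top q x
  U_le : ∀ q x, E (P q) U x ≤ 4 * E (P (top q x)) U x
  V_le : ∀ q x, E (P q) V x ≤ 4 * E (P (top q x)) V x
  reason : ∀ q x, top (q + 1) x = q + 1 →
    4 * E (P (top q x)) U x < E (P (q + 1)) U x ∨ 4 * E (P (top q x)) V x < E (P (q + 1)) V x

namespace Cor

def swap (S : Cor X) : Cor X :=
  { S with
    σ := S.w, w := S.σ, U := S.V, V := S.U, hσ := S.hw, hw := S.hσ, hU := S.hV, hV := S.hU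
    hσw := fun x => by rw [mul_comm]; exact S.hσw x
    hA := fun t x => by rw [mul_comm]; exact S.hA t x
    nU := S.nV, nV := S.nU, U_le := S.V_le, V_le := S.U_le
    reason := fun q x h => (S.reason q x h).symm }

def gen (top : ℕ → X → ℕ) : ℕ → X → ℕ
  | 0, _ => 0
  | q + 1, x => gen top q x + if top (q + 1) x = q + 1 then 1 else 0

variable (S : Cor X)

abbrev g : ℕ → X → ℕ := gen S.top

lemma top_le (q : ℕ) (x : X) : S.top q x ≤ q := by
  induction q with
  | zero => rw [S.top_zero]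
  | succ q ih => rcases S.top_succ q x with h | h <;> omega

lemma g_succ_of {q : ℕ} {x : X} (h : S.top (q + 1) x = q + 1) : S.g (q + 1) x = S.g q x + 1 := by
  simp [gen, h]

lemma g_succ_not {q : ℕ} {x : X} (h : S.top (q + 1) x ≠ q + 1) : S.g (q + 1) x = S.g q x := by
  simp [gen, h]

lemma g_succ_le (q : ℕ) (x : X) : S.g (q + 1) x ≤ S.g q x + 1 := by
  by_cases h : S.top (q + 1) x = q + 1
  · exact (S.g_succ_of h).le
  · rw [S.g_succ_not h]; omega

lemma g_mono (x : X) {p q : ℕ} (h : p ≤ q) : S.g p x ≤ S.g q x :=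
  monotone_nat_of_le_succ (f := fun q => S.g q x) (fun q => Nat.le_add_right _ _) h

lemma g_le (x : X) (p k : ℕ) : S.g (p + k) x ≤ S.g p x + k := by
  induction k with
  | zero => exact le_rfl
  | succ k ih => have := S.g_succ_le (p + k) x; rw [← add_assoc]; omega

lemma g_meas {q : ℕ} {x y : X} (h : S.P q x y) : S.g q y = S.g q x := by
  induction q with
  | zero => rfl
  | succ q ih =>
    have := ih (S.hP q x y h)
    simp only [g] at this
    simp only [g, gen, S.top_meas _ x y h, this]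

lemma top_top (q : ℕ) (x : X) :
    S.top (S.top q x) x = S.top q x ∧ S.g (S.top q x) x = S.g q x := by
  induction q with
  | zero => rw [S.top_zero, S.top_zero]; exact ⟨rfl, rfl⟩
  | succ q ih =>
    by_cases h : S.top (q + 1) x = q + 1
    · rw [h, h]; exact ⟨rfl, rfl⟩
    · rw [(S.top_succ q x).resolve_left h, S.g_succ_not h]; exact ih

lemma top_eq {p q : ℕ} {x : X} (hp : S.top p x = p) (hpq : p ≤ q) (hg : S.g q x ≤ S.g p x) :
    S.top q x = p := by
  induction q, hpq using Nat.le_induction with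
  | base => exact hp
  | succ q hq ih =>
    have h1 := S.g_mono x hq
    by_cases h : S.top (q + 1) x = q + 1
    · have := S.g_succ_of h; omega
    · rw [(S.top_succ q x).resolve_left h]; exact ih (by rw [← S.g_succ_not h]; exact hg)

lemma stop_inj {p q : ℕ} {x : X} (hp : S.top p x = p) (hq : S.top q x = q)
    (hg : S.g p x = S.g q x) : p = q := by
  rcases le_total p q with h | h
  · rw [← S.top_eq hp h hg.ge, hq]
  · rw [← S.top_eq hq h hg.le, hp]

lemma ivt {p q m : ℕ} {x : X} (hpq : p ≤ q) (h1 : S.g p x < m) (h2 : m ≤ S.g q x) :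
    ∃ r, p < r ∧ r ≤ q ∧ S.top r x = r ∧ S.g r x = m := by
  induction q, hpq using Nat.le_induction with
  | base => omega
  | succ q hq ih =>
    by_cases h : m ≤ S.g q x
    · obtain ⟨r, a, b, c⟩ := ih h; exact ⟨r, a, by omega, c⟩
    · by_cases h' : S.top (q + 1) x = q + 1
      · have := S.g_succ_of h'; exact ⟨q + 1, by omega, le_rfl, h', by omega⟩
      · have := S.g_succ_not h'; omega

lemma g_sub (x : X) {r m : ℕ} (h : r ≤ m) :
    (S.g m x : ℝ) - S.g r x ≤ ∑ p ∈ Ico r (m + 1), I (S.top p x = p) := by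
  induction m, h using Nat.le_induction with
  | base => rw [sub_self]; exact sum_nonneg fun _ _ => I_nonneg _
  | succ m hm ih =>
    rw [sum_Ico_succ_top (by omega)]
    by_cases h' : S.top (m + 1) x = m + 1
    · rw [S.g_succ_of h', I_of h']; push_cast; linarith
    · rw [S.g_succ_not h', I_not h']; linarith

noncomputable def a (q : ℕ) (x : X) : ℝ := E (S.P (S.top q x)) S.U x

lemma a_pos (q : ℕ) (x : X) : 0 < S.a q x := E_pos S.hU

lemma a_meas (q : ℕ) : Meas (S.P q) (S.a q) := fun x y h => by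
  simp only [a, S.top_meas q x y h]
  exact E_meas _ _ x y (S.hP.mono (S.top_le q x) h)

lemma a_le (x : X) {p q : ℕ} (h : p ≤ q) :
    S.a q x ≤ (4 * S.D) ^ (S.g q x - S.g p x) * S.a p x := by
  induction q, h using Nat.le_induction with
  | base => simp
  | succ q hq ih =>
    by_cases h' : S.top (q + 1) x = q + 1
    · have h1 := E_le_double (fun y => (S.hU y).le) (fun y => S.hP q x y) (S.hD q x)
      have h2 := S.U_le q x
      have hD := S.hD1
      rw [S.g_succ_of h', Nat.succ_sub (S.g_mono x hq), pow_succ]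
      have e : S.a (q + 1) x = E (S.P (q + 1)) S.U x := by rw [a, h']
      rw [e]
      change _ ≤ 4 * S.a q x at h2
      nlinarith [mul_le_mul_of_nonneg_left ih (by linarith : 0 ≤ 4 * S.D),
        mul_le_mul_of_nonneg_left h2 (by linarith : 0 ≤ S.D)]
    · rw [S.g_succ_not h', a, (S.top_succ q x).resolve_left h']; exact ih

lemma E_le_a {x : X} {p q β : ℕ} (h : p ≤ q) (hg : S.g q x ≤ S.g p x + β) :
    E (S.P q) S.U x ≤ 4 * (4 * S.D) ^ β * S.a p x := by
  have h1 := S.a_le x h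
  have h2 : (4 * S.D) ^ (S.g q x - S.g p x) ≤ (4 * S.D) ^ β :=
    pow_le_pow_right₀ (by linarith [S.hD1]) (by omega)
  have h3 := S.U_le q x
  change _ ≤ 4 * S.a q x at h3
  nlinarith [mul_le_mul_of_nonneg_right h2 (S.a_pos p x).le]

/-! ### stopping times -/

lemma nu_ex (top : ℕ → X → ℕ) (t β s : ℕ) (x : X) :
    ∃ q, t ≤ q ∧ (gen top t x + β ≤ gen top q x ∨ t + s ≤ q) := ⟨t + s, by omega, Or.inr le_rfl⟩

def nuu (top : ℕ → X → ℕ) (t β s : ℕ) (x : X) : ℕ := Nat.find (nu_ex top t β s x)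

abbrev nu : ℕ → ℕ → ℕ → X → ℕ := nuu S.top

lemma nu_spec (t β s : ℕ) (x : X) : t ≤ S.nu t β s x ∧
    (S.g t x + β ≤ S.g (S.nu t β s x) x ∨ t + s ≤ S.nu t β s x) := Nat.find_spec (nu_ex _ t β s x)

lemma nu_le {t β s q : ℕ} {x : X} (h : t ≤ q) (h' : S.g t x + β ≤ S.g q x ∨ t + s ≤ q) :
    S.nu t β s x ≤ q := Nat.find_min' (nu_ex _ t β s x) ⟨h, h'⟩

lemma nu_le_cap (t β s : ℕ) (x : X) : S.nu t β s x ≤ t + s := S.nu_le (by omega) (Or.inr le_rfl)

lemma g_nu_le (t β s : ℕ) (x : X) : S.g (S.nu t β s x) x ≤ S.g t x + β := by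
  obtain ⟨h1, -⟩ := S.nu_spec t β s x
  rcases h1.eq_or_lt with h | h
  · rw [← h]; omega
  · obtain ⟨q, hq⟩ : ∃ q, S.nu t β s x = q + 1 := ⟨S.nu t β s x - 1, by omega⟩
    by_contra hn
    have := S.g_succ_le q x
    rw [hq] at hn
    have := S.nu_le (t := t) (β := β) (s := s) (q := q) (x := x) (by omega) (Or.inl (by omega))
    omega

lemma nu_stop (t β s : ℕ) : IsStop S.P (S.nu t β s) := by
  intro x y h
  obtain ⟨h1, h2⟩ := S.nu_spec t β s x
  obtain ⟨h3, h4⟩ := S.nu_spec t β s y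
  have a1 : S.nu t β s y ≤ S.nu t β s x :=
    S.nu_le h1 (by rwa [S.g_meas h, S.g_meas (S.hP.mono h1 h)])
  refine le_antisymm a1 (S.nu_le h3 ?_)
  rwa [← S.g_meas (S.hP.mono a1 h), ← S.g_meas (S.hP.mono h1 h)]

lemma nu_mono {α β : ℕ} (h : α ≤ β) (t s : ℕ) (x : X) : S.nu t α s x ≤ S.nu t β s x := by
  obtain ⟨h1, h2⟩ := S.nu_spec t β s x
  exact S.nu_le h1 (h2.imp_left fun h' => by omega)

lemma nu_zero (t s : ℕ) (x : X) : S.nu t 0 s x = t :=
  le_antisymm (S.nu_le le_rfl (Or.inl le_rfl)) (S.nu_spec t 0 s x).1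

lemma nu_min {t p β s s' : ℕ} {x : X} (hp : p ≤ t) (hg : S.g t x = S.g p x)
    (hβ : 1 ≤ β ∨ p = t) (hs : t + s ≤ p + s') : S.nu t β s x = min (t + s) (S.nu p β s' x) := by
  obtain ⟨h1, h2⟩ := S.nu_spec t β s x
  obtain ⟨h3, h4⟩ := S.nu_spec p β s' x
  have h5 := S.nu_le_cap t β s x
  have h6 : t ≤ S.nu p β s' x := by
    by_contra hn
    have := S.g_mono x (not_le.1 hn).le
    omega
  refine le_antisymm (le_min h5 (S.nu_le h6 (by omega))) ?_
  rcases h2 with h2 | h2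
  · exact (min_le_right _ _).trans (S.nu_le (by omega) (Or.inl (by omega)))
  · exact (min_le_left _ _).trans h2

/-! ### sparseness -/

def Good (μ : X → ℝ) (κ : ℝ) : Prop := (∀ x, 0 ≤ μ x) ∧
  ∀ p m x, p ≤ m → S.top p x = p →
    κ * E (S.P p) μ x ≤ E (S.P p) (fun y => μ y * I (S.g m y = S.g p y)) x

lemma good_one : S.Good (fun _ => 1) (1 / 2) := by
  refine ⟨fun _ => zero_le_one, fun p m x hpm hp => ?_⟩
  have hst := S.nu_stop p 1 (m - p)
  have ha := E_pos (P := S.P p) (x := x) S.hU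
  have hb := E_pos (P := S.P p) (x := x) S.hV
  have h1 : ∀ y, S.P p x y → 1 - (4 * E (S.P p) S.U x)⁻¹ * ES S.P (S.nu p 1 (m - p)) S.U y
      - (4 * E (S.P p) S.V x)⁻¹ * ES S.P (S.nu p 1 (m - p)) S.V y ≤ 1 * I (S.g m y = S.g p y) := by
    intro y hy
    have e1 : 0 ≤ (4 * E (S.P p) S.U x)⁻¹ * ES S.P (S.nu p 1 (m - p)) S.U y :=
      mul_nonneg (by positivity) (E_pos S.hU).le
    have e2 : 0 ≤ (4 * E (S.P p) S.V x)⁻¹ * ES S.P (S.nu p 1 (m - p)) S.V y :=
      mul_nonneg (by positivity) (E_pos S.hV).le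
    by_cases hg : S.g m y = S.g p y
    · rw [I_of hg]; linarith
    rw [I_not hg]
    have hpy : S.top p y = p := by rw [S.top_meas p x y hy, hp]
    have hlt : S.g p y < S.g m y := lt_of_le_of_ne (S.g_mono y hpm) (Ne.symm hg)
    obtain ⟨r, r1, r2, r3, r4⟩ := S.ivt hpm (Nat.lt_succ_self _) hlt
    obtain ⟨q, rfl⟩ : ∃ q, r = q + 1 := ⟨r - 1, by omega⟩
    have hq : S.g q y = S.g p y := by have := S.g_succ_of r3; omega
    have hn : S.nu p 1 (m - p) y = q + 1 := by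
      refine le_antisymm (S.nu_le r1.le (Or.inl r4.ge)) ?_
      obtain ⟨h1, h2⟩ := S.nu_spec p 1 (m - p) y
      by_contra hn
      have := S.g_mono y (Nat.le_of_lt_succ (not_le.1 hn))
      omega
    have ht := S.top_eq hpy (by omega : p ≤ q) hq.le
    have hr := S.reason q y r3
    rw [ht, E_meas _ _ x y hy, E_meas _ S.V x y hy] at hr
    simp only [ES, hn] at e1 e2 ⊢
    rcases hr with hr | hr
    · have := (one_le_inv_mul₀ (by positivity : 0 < 4 * E (S.P p) S.U x)).2 hr.le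
      linarith
    · have := (one_le_inv_mul₀ (by positivity : 0 < 4 * E (S.P p) S.V x)).2 hr.le
      linarith
  refine le_trans (le_of_eq ?_) (E_mono h1)
  rw [E_sub, E_sub, E_cmul, E_cmul, hst.E_ES S.hP, hst.E_ES S.hP,
    min_eq_left (S.nu_spec p 1 (m - p) x).1, E_const]
  field_simp; ring

lemma good_σ : S.Good S.σ (1 / (4 * S.A)) := by
  refine ⟨fun x => (S.hσ x).le, fun p m x hpm hp => ?_⟩
  have h1 := S.good_one.2 p m x hpm hp
  rw [E_const] at h1
  have h2 := E_cs' (S.P p) (μ := fun y => S.σ y * I (S.g m y = S.g p y))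
    (fun y => mul_nonneg (S.hσ y).le (I_nonneg _)) (fun y => (S.σ y)⁻¹) x
  have e1 : E (S.P p) (fun y => S.σ y * I (S.g m y = S.g p y) * (S.σ y)⁻¹) x =
      E (S.P p) (fun y => 1 * I (S.g m y = S.g p y)) x := E_congr fun y _ => by
    have := (S.hσ y).ne'; field_simp
  have e2 : E (S.P p) (fun y => S.σ y * I (S.g m y = S.g p y) * (S.σ y)⁻¹ ^ 2) x ≤
      E (S.P p) S.w x := E_mono fun y _ => by
    have h3 := S.hσ y
    have h4 : (S.σ y)⁻¹ ≤ S.w y := by rw [inv_le_iff_one_le_mul₀' h3]; exact S.hσw y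
    have h5 := I_le_one (S.g m y = S.g p y)
    calc _ = I (S.g m y = S.g p y) * (S.σ y)⁻¹ := by field_simp
      _ ≤ 1 * (S.σ y)⁻¹ := mul_le_mul_of_nonneg_right h5 (by positivity)
      _ ≤ _ := by linarith
  rw [e1] at h2
  have h3 := S.hA p x
  have h4 := E_pos (P := S.P p) (x := x) S.hσ
  have h5 : 0 ≤ E (S.P p) (fun y => S.σ y * I (S.g m y = S.g p y)) x :=
    E_nonneg fun y => mul_nonneg (S.hσ y).le (I_nonneg _)
  have hA := S.hA1
  rw [div_mul_eq_mul_div, div_le_iff₀ (by positivity)]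
  have h6 : 1 / 4 ≤ E (S.P p) S.w x * E (S.P p) (fun y => S.σ y * I (S.g m y = S.g p y)) x := by
    nlinarith [mul_le_mul_of_nonneg_right e2 h5]
  nlinarith [mul_le_mul_of_nonneg_left h6 h4.le, mul_le_mul_of_nonneg_right h3 h5]

variable {S}

lemma Good.step {μ : X → ℝ} {κ : ℝ} (h : S.Good μ κ) {r p m : ℕ} (hrp : r ≤ p) (hpm : p ≤ m)
    {φ : X → ℝ} (hφ : Meas (S.P p) φ) (hφ0 : ∀ y, 0 ≤ φ y) (hst : ∀ y, φ y ≠ 0 → S.top p y = p)
    (x : X) : κ * E (S.P r) (fun y => φ y * μ y) x ≤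
      E (S.P r) (fun y => φ y * (μ y * I (S.g m y = S.g p y))) x := by
  rw [← S.hP.E_mul_E hrp hφ μ, ← S.hP.E_mul_E hrp hφ fun y => μ y * I (S.g m y = S.g p y),
    ← E_cmul]
  refine E_mono fun y _ => ?_
  by_cases h0 : φ y = 0
  · simp [h0]
  · have := mul_le_mul_of_nonneg_left (h.2 p m y hpm (hst y h0)) (hφ0 y)
    linarith

lemma st_meas (p : ℕ) : Meas (S.P p) fun y => I (S.top p y = p) := fun x y h => by
  simp only [S.top_meas p x y h]

lemma I_ne {p : Prop} (h : I p ≠ 0) : p := by_contra fun hn => h (I_not hn)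

lemma Good.count {μ : X → ℝ} {κ : ℝ} (h : S.Good μ κ) (r m : ℕ) (x : X) :
    κ * E (S.P r) (fun y => ∑ p ∈ Ico r m, I (S.top p y = p) * μ y) x ≤ E (S.P r) μ x := by
  rw [E_sum, mul_sum]
  refine (sum_le_sum fun p hp => h.step (mem_Ico.1 hp).1 (mem_Ico.1 hp).2.le (st_meas p)
    (fun y => I_nonneg _) (fun y => I_ne) x).trans ?_
  rw [← E_sum]
  refine E_mono fun y _ => ?_
  have := sum_I_le_one (s := Ico r m) (p := fun p => S.top p y = p ∧ S.g m y = S.g p y)
    fun a b ha hb => S.stop_inj ha.1 hb.1 (ha.2.symm.trans hb.2)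
  refine le_trans (le_of_eq ?_) ((mul_le_mul_of_nonneg_left this (h.1 y)).trans_eq (mul_one _))
  rw [mul_sum]
  refine sum_congr rfl fun p _ => ?_
  by_cases h1 : S.top p y = p <;> by_cases h2 : S.g m y = S.g p y <;> simp [I, h1, h2]

lemma I_le_sum {t m k : ℕ} (htm : t ≤ m) (y : X) : I (S.g t y + k + 1 ≤ S.g m y) =
    ∑ r ∈ Ioc t m, I (S.top r y = r ∧ S.g r y = S.g t y + k + 1) := by
  by_cases h : S.g t y + k + 1 ≤ S.g m y
  · obtain ⟨r, r1, r2, r3, r4⟩ := S.ivt htm (by omega) h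
    rw [I_of h, sum_eq_single r, I_of ⟨r3, r4⟩]
    · exact fun b _ hb => I_not fun h' => hb (S.stop_inj h'.1 r3 (h'.2.trans r4.symm))
    · exact fun h' => (h' (mem_Ioc.2 ⟨r1, r2⟩)).elim
  · rw [I_not h]
    refine (sum_eq_zero fun r hr => I_not fun h' => h ?_).symm
    have := S.g_mono y (mem_Ioc.1 hr).2
    omega

lemma Good.decay {μ : X → ℝ} {κ : ℝ} (h : S.Good μ κ) (hκ : κ ≤ 1) {t m : ℕ} (htm : t ≤ m)
    (k : ℕ) (x : X) : E (S.P t) (fun y => I (S.g t y + k + 1 ≤ S.g m y) * μ y) x ≤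
      (1 - κ) ^ k * E (S.P t) μ x := by
  induction k with
  | zero =>
    rw [pow_zero, one_mul]
    exact E_mono fun y _ => mul_le_of_le_one_left (h.1 y) (I_le_one _)
  | succ k ih =>
    have hφ : ∀ r ∈ Ioc t m, Meas (S.P r) fun y => I (S.top r y = r ∧ S.g r y = S.g t y + k + 1) :=
      fun r hr x y hxy => by
        simp only [S.top_meas r x y hxy, S.g_meas hxy,
          S.g_meas (S.hP.mono (mem_Ioc.1 hr).1.le hxy)]
    have h1 := sum_le_sum fun r hr => h.step (mem_Ioc.1 hr).1.le (mem_Ioc.1 hr).2 (hφ r hr)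
      (fun y => I_nonneg _) (fun y hy => (I_ne hy).1) x
    rw [← mul_sum, ← E_sum, ← E_sum] at h1
    simp only [← sum_mul, ← I_le_sum htm] at h1
    have h2 : E (S.P t) (fun y => I (S.g t y + (k + 1) + 1 ≤ S.g m y) * μ y) x ≤
        E (S.P t) (fun y => I (S.g t y + k + 1 ≤ S.g m y) * μ y) x -
        E (S.P t) (fun y => ∑ r ∈ Ioc t m, I (S.top r y = r ∧ S.g r y = S.g t y + k + 1) *
          (μ y * I (S.g m y = S.g r y))) x := by
      rw [← E_sub]
      refine E_mono fun y _ => ?_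
      have e : ∑ r ∈ Ioc t m, I (S.top r y = r ∧ S.g r y = S.g t y + k + 1) *
          (μ y * I (S.g m y = S.g r y)) =
          I (S.g t y + k + 1 ≤ S.g m y) * (μ y * I (S.g m y = S.g t y + k + 1)) := by
        rw [I_le_sum htm, sum_mul]
        refine sum_congr rfl fun r _ => ?_
        by_cases h' : S.top r y = r ∧ S.g r y = S.g t y + k + 1
        · rw [h'.2]
        · rw [I_not h', zero_mul, zero_mul]
      rw [e]
      rcases lt_trichotomy (S.g m y) (S.g t y + k + 1) with h' | h' | h'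
      · rw [I_not (by omega), I_not (by omega)]; simp
      · rw [I_not (by omega), I_of h'.ge, I_of h']; simp
      · rw [I_of (by omega), I_of h'.le, I_not h'.ne']; simp
    have := mul_le_mul_of_nonneg_left ih (sub_nonneg.2 hκ)
    rw [pow_succ]
    linarith

lemma Good.gam {μ : X → ℝ} {κ : ℝ} (h : S.Good μ κ) (hκ : 0 ≤ κ) (l N r n : ℕ) (x : X) :
    l * κ * E (S.P r) (fun y => ∑ t ∈ Ico r n, I (S.g t y + l ≤ S.g (t + N) y) * μ y) x ≤
      N * E (S.P r) μ x := by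
  have h1 := mul_le_mul_of_nonneg_left (h.count r (n + N + 1) x) (Nat.cast_nonneg N)
  refine le_trans ?_ h1
  rw [mul_comm (l : ℝ), mul_assoc, mul_left_comm (N : ℝ), ← E_cmul _ l, ← E_cmul _ N]
  refine mul_le_mul_of_nonneg_left (E_mono fun y _ => ?_) hκ
  rw [← sum_mul, ← sum_mul, ← mul_assoc, ← mul_assoc]
  refine mul_le_mul_of_nonneg_right ?_ (h.1 y)
  rcases le_or_gt r (n + N) with hr | hr
  · have h2 := window_sum (c := fun q => (S.g q y : ℝ) - S.g r y) (p := r) (n := n) (s := N)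
      (K := (S.g (n + N) y : ℝ) - S.g r y) (sub_nonneg.2 (by exact_mod_cast S.g_mono y hr))
      (fun q hq => sub_nonneg.2 (by exact_mod_cast S.g_mono y hq))
      (fun q _ hq => sub_le_sub_right (by exact_mod_cast S.g_mono y hq) _)
    refine le_trans ?_ (h2.trans (mul_le_mul_of_nonneg_left (S.g_sub y hr) (Nat.cast_nonneg N)))
    rw [mul_sum]
    refine sum_le_sum fun t _ => ?_
    have h3 : (S.g t y : ℝ) ≤ S.g (t + N) y := by exact_mod_cast S.g_mono y (Nat.le_add_right t N)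
    by_cases h' : S.g t y + l ≤ S.g (t + N) y
    · have : (S.g t y : ℝ) + l ≤ S.g (t + N) y := by exact_mod_cast h'
      rw [I_of h']; linarith
    · rw [I_not h']; linarith
  · rw [Ico_eq_empty_of_le (by omega), sum_empty, mul_zero]
    exact mul_nonneg (Nat.cast_nonneg N) (sum_nonneg fun _ _ => I_nonneg _)

end Cor

end Pool.Agent.P.MP_70f35d_an
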