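import Pool.Agent.P.MP_70f35d_an.Corona

set_option autoImplicit false
open Finset

namespace Pool.Agent.P.MP_70f35d_an

variable {X : Type} [Fintype X]

lemma sq_sum_le (y : ℕ → ℝ) (hy : ∀ t, 0 ≤ y t) (r n : ℕ) :
    (∑ t ∈ Ico r n, y t) ^ 2 ≤ 2 * ∑ t ∈ Ico r n, y t * ∑ t' ∈ Ico t n, y t' := by
  rcases le_or_gt r n with h | h
  · induction n, h using Nat.le_induction with
    | base => simp
    | succ n hn ih =>
      have e : ∀ t ∈ Ico r (n + 1), y t * ∑ t' ∈ Ico t (n + 1), y t' =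
          y t * ∑ t' ∈ Ico t n, y t' + y t * y n := by
        intro t ht
        rw [sum_Ico_succ_top (by have := mem_Ico.1 ht; omega), mul_add]
      rw [sum_congr rfl e, sum_add_distrib, ← sum_mul, sum_Ico_succ_top hn, sum_Ico_succ_top hn,
        Ico_self, sum_empty]
      nlinarith [hy n]
  · rw [Ico_eq_empty_of_le h.le]; simp

lemma testing {P : ℕ → Setoid X} (hP : Filt P) {τ j : ℕ → X → ℝ} {σ w : X → ℝ} {C Λ : ℝ} {n : ℕ}
    (hw : ∀ x, 0 < w x) (hτ : ∀ t, Meas (P t) (τ t)) (hτ0 : ∀ t x, 0 ≤ τ t x) (hC0 : 0 ≤ C)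
    (hC : ∀ t x, E (P t) (fun y => ∑ t' ∈ Ico t n, τ t' y) x ≤ C)
    (hj : ∀ t x, τ t x / E (P t) w x ≤ E (P t) (j t) x) (r : ℕ) (x : X)
    (hΛ : E (P r) (fun y => ∑ t ∈ Ico r n, j t y) x ≤ Λ * E (P r) σ x) :
    E (P r) (fun y => w y * (∑ t ∈ Ico r n, τ t y / E (P t) w y) ^ 2) x ≤
      2 * C * Λ * E (P r) σ x := by
  have hy0 : ∀ t y, 0 ≤ τ t y / E (P t) w y := fun t y => div_nonneg (hτ0 t y) (E_pos hw).le
  have hym : ∀ t, Meas (P t) fun y => τ t y / E (P t) w y := fun t x y h => by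
    simp only [hτ t x y h, E_meas _ _ x y h]
  have h1 : ∀ t y, E (P t) (fun y => ∑ t' ∈ Ico t n, τ t' y / E (P t') w y * w y) y ≤ C := by
    intro t y
    refine le_trans (le_of_eq ?_) (hC t y)
    rw [E_sum, E_sum]
    refine sum_congr rfl fun t' ht' => ?_
    rw [← hP.E_mul_E (mem_Ico.1 ht').1 (hym t')]
    exact E_congr fun z _ => div_mul_cancel₀ _ (E_pos hw).ne'
  calc _ ≤ E (P r) (fun y => 2 * ∑ t ∈ Ico r n, τ t y / E (P t) w y *
          ∑ t' ∈ Ico t n, τ t' y / E (P t') w y * w y) x := by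
        refine E_mono fun y _ => ?_
        have := mul_le_mul_of_nonneg_left (sq_sum_le _ (fun t => hy0 t y) r n) (hw y).le
        refine this.trans (le_of_eq ?_)
        simp only [← sum_mul, ← mul_assoc]; ring
    _ ≤ 2 * ∑ t ∈ Ico r n, C * E (P r) (j t) x := by
        rw [E_cmul, E_sum]
        refine mul_le_mul_of_nonneg_left (sum_le_sum fun t ht => ?_) zero_le_two
        rw [← hP.E_mul_E (mem_Ico.1 ht).1 (hym t), ← hP.E_E (mem_Ico.1 ht).1 (j t), ← E_cmul]
        refine E_mono fun y _ => ?_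
        rw [mul_comm]
        exact mul_le_mul (h1 t y) (hj t y) (hy0 t y) hC0
    _ ≤ _ := by
        rw [← mul_sum, ← E_sum]
        nlinarith [mul_le_mul_of_nonneg_left hΛ hC0]

lemma le_of_sq_le' {a b : ℝ} (h : a ^ 2 ≤ b ^ 2) (hb : 0 ≤ b) : a ≤ b :=
  (abs_le_of_sq_le_sq' h hb).2

lemma amgm4 {z p q : ℝ} (hp : 0 ≤ p) (hq : 0 ≤ q) (h : z ^ 4 = p * q) :
    z ≤ p / 4 + q / 4 + 1 / 2 ∧ z ≤ p / 8 + q / 4 + 1 := by
  constructor
  · have : z ^ 2 ≤ (p + q) / 2 := by
      refine le_of_sq_le' ?_ (by positivity)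
      nlinarith [sq_nonneg (p - q)]
    nlinarith [sq_nonneg (z - 1)]
  · have : z ^ 2 ≤ 3 / 2 * ((p / 2 + q) / 2) := by
      refine le_of_sq_le' ?_ (by positivity)
      nlinarith [sq_nonneg (p / 2 - q), mul_nonneg hp hq]
    nlinarith [sq_nonneg (z - 3 / 2)]

lemma sqrt_sqrt_pow {a : ℝ} (ha : 0 ≤ a) : √(√a) ^ 4 = a := by
  rw [show 4 = 2 * 2 by rfl, pow_mul, Real.sq_sqrt (Real.sqrt_nonneg a), Real.sq_sqrt ha]

lemma sqrt_le_of {a b : ℝ} (hb : 0 ≤ b) (h : a ≤ b ^ 2) : √a ≤ b := Real.sqrt_le_iff.2 ⟨hb, h⟩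

namespace Cor

variable (S : Cor X)

noncomputable def f (x : X) : ℝ := S.U x / S.σ x

lemma f_nonneg (x : X) : 0 ≤ S.f x := (div_pos (S.hU x) (S.hσ x)).le

lemma σ_f (x : X) : S.σ x * S.f x = S.U x := mul_div_cancel₀ _ (S.hσ x).ne'

lemma nf : ∑ x, S.σ x * S.f x ^ 2 ≤ 1 := by
  refine le_trans (le_of_eq (sum_congr rfl fun x _ => ?_)) S.nU
  have := (S.hσ x).ne'
  simp only [f]; field_simp

noncomputable def F (q : ℕ) : X → ℝ := Ew (S.P q) S.σ S.f

lemma F_nonneg (q : ℕ) (x : X) : 0 ≤ S.F q x := Ew_nonneg S.hσ S.f_nonneg x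

lemma F_meas (q : ℕ) : Meas (S.P q) (S.F q) := Ew_meas _ _ _

lemma EU (q : ℕ) (x : X) : E (S.P q) S.U x = S.F q x * E (S.P q) S.σ x := by
  rw [F, Ew_mul S.hσ]; simp only [σ_f]

lemma E_φU {t q : ℕ} (h : t ≤ q) {φ : X → ℝ} (hφ : Meas (S.P q) φ) (x : X) :
    E (S.P t) (fun y => φ y * S.U y) x = E (S.P t) (fun y => φ y * (S.σ y * S.F q y)) x := by
  rw [F, S.hP.E_mul_Ew h S.hσ hφ]; simp only [σ_f]

lemma sparse (n : ℕ) :
    ∑ p ∈ range n, ∑ x, I (S.top p x = p) * (E (S.P p) S.U x * E (S.P p) S.V x) ≤ 8 * S.A := by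
  have hA := S.hA1
  have h1 : ∀ p ∈ range n, ∑ x, I (S.top p x = p) * (E (S.P p) S.U x * E (S.P p) S.V x) ≤
      2 * S.A * ∑ x, I (S.top p x = p ∧ S.g n x = S.g p x) *
        (rmax S.F n x * rmax S.swap.F n x) := by
    intro p hp
    have hpn := (mem_range.1 hp).le
    have h2 := fun x => S.good_one.step le_rfl hpn
      (φ := fun x => I (S.top p x = p) * (S.F p x * S.swap.F p x))
      (fun x y h => by simp only [S.top_meas p x y h, S.F_meas p x y h, S.swap.F_meas p x y h])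
      (fun x => mul_nonneg (I_nonneg _) (mul_nonneg (S.F_nonneg p x) (S.swap.F_nonneg p x)))
      (fun y hy => I_ne (left_ne_zero_of_mul hy)) x
    have h3 := sum_le_sum fun x (_ : x ∈ univ) => h2 x
    rw [← mul_sum, sum_E, sum_E] at h3
    calc _ ≤ S.A * ∑ x, I (S.top p x = p) * (S.F p x * S.swap.F p x) * 1 := by
          rw [mul_sum]
          refine sum_le_sum fun x _ => ?_
          have e : E (S.P p) S.V x = S.swap.F p x * E (S.P p) S.w x := S.swap.EU p x
          rw [S.EU, e]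
          have := mul_le_mul_of_nonneg_left (S.hA p x) (mul_nonneg (I_nonneg (S.top p x = p))
            (mul_nonneg (S.F_nonneg p x) (S.swap.F_nonneg p x)))
          linarith
      _ ≤ 2 * S.A * ∑ x, I (S.top p x = p) * (S.F p x * S.swap.F p x) *
          (1 * I (S.g n x = S.g p x)) := by nlinarith
      _ ≤ _ := by
          refine mul_le_mul_of_nonneg_left (sum_le_sum fun x _ => ?_) (by linarith)
          have a1 := (le_rmax S.F p x).trans (rmax_mono S.F x hpn)
          have a2 := (le_rmax S.swap.F p x).trans (rmax_mono S.swap.F x hpn)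
          have a3 := mul_le_mul a1 a2 (S.swap.F_nonneg p x) ((S.F_nonneg p x).trans a1)
          by_cases h1 : S.top p x = p <;> by_cases h2 : S.g n x = S.g p x <;>
            simp [I, h1, h2, a3]
  refine (sum_le_sum h1).trans ?_
  rw [← mul_sum, sum_comm]
  have p1 : ∀ x, 0 ≤ rmax S.F n x := fun x => (S.F_nonneg n x).trans (le_rmax _ _ _)
  have p2 : ∀ x, 0 ≤ rmax S.swap.F n x := fun x => (S.swap.F_nonneg n x).trans (le_rmax _ _ _)
  have h2 : ∑ x, ∑ p ∈ range n, I (S.top p x = p ∧ S.g n x = S.g p x) *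
      (rmax S.F n x * rmax S.swap.F n x) ≤ ∑ x, rmax S.F n x * rmax S.swap.F n x := by
    refine sum_le_sum fun x _ => ?_
    rw [← sum_mul]
    exact mul_le_of_le_one_left (mul_nonneg (p1 x) (p2 x))
      (sum_I_le_one fun a b ha hb => S.stop_inj ha.1 hb.1 (ha.2.symm.trans hb.2))
  have h3 := sum_sq_le_sum_mul_sum_of_sq_le_mul (univ : Finset X)
    (r := fun x => rmax S.F n x * rmax S.swap.F n x) (f := fun x => S.σ x * rmax S.F n x ^ 2)
    (g := fun x => S.w x * rmax S.swap.F n x ^ 2)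
    (fun x _ => mul_nonneg (S.hσ x).le (sq_nonneg _))
    (fun x _ => mul_nonneg (S.hw x).le (sq_nonneg _))
    (fun x _ => by
      nlinarith [mul_le_mul_of_nonneg_right (S.hσw x)
        (sq_nonneg (rmax S.F n x * rmax S.swap.F n x))])
  have d1 : ∑ x, S.σ x * rmax S.F n x ^ 2 ≤ 4 := by
    have := doob S.hP S.hσ S.f n; have := S.nf; unfold F; linarith
  have d2 : ∑ x, S.w x * rmax S.swap.F n x ^ 2 ≤ 4 := by
    have := doob S.swap.hP S.swap.hσ S.swap.f n; have := S.swap.nf; unfold F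
    change ∑ x, S.swap.σ x * _ ≤ _; linarith
  have h4 : ∑ x, rmax S.F n x * rmax S.swap.F n x ≤ 4 := by
    refine le_of_sq_le' (h3.trans ?_) (by norm_num)
    have := mul_le_mul d1 d2 (sum_nonneg fun x _ => mul_nonneg (S.hw x).le (sq_nonneg _))
      (by norm_num)
    linarith
  nlinarith

noncomputable def ω (t : ℕ) (x : X) : ℝ := S.swap.a t x / S.a t x

lemma ω_pos (t : ℕ) (x : X) : 0 < S.ω t x := div_pos (S.swap.a_pos t x) (S.a_pos t x)

lemma ω_meas (t : ℕ) : Meas (S.P t) (S.ω t) := fun x y h => by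
  simp only [ω, S.a_meas t x y h, S.swap.a_meas t x y h]

lemma ω_mul (t : ℕ) (x : X) : S.ω t x * S.swap.ω t x = 1 := by
  have h1 := S.a_pos t x
  have h2 := S.swap.a_pos t x
  change S.swap.a t x / S.a t x * (S.a t x / S.swap.a t x) = 1
  field_simp

lemma sum_top {n : ℕ} {t : ℕ} (ht : t < n) (x : X) (c : ℕ → ℝ) :
    c (S.top t x) = ∑ p ∈ range n, I (S.top t x = p) * c p := by
  rw [sum_eq_single (S.top t x), I_of rfl, one_mul]
  · exact fun b _ hb => by rw [I_not (Ne.symm hb), zero_mul]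
  · exact fun h => (h (mem_range.2 ((S.top_le t x).trans_lt ht))).elim

lemma abs_E_le_a {u : X → ℝ} (hu : ∀ x, |u x| ≤ S.U x) {x : X} {p q β : ℕ} (h : p ≤ q)
    (hg : S.g q x ≤ S.g p x + β) : |E (S.P q) u x| ≤ 4 * (4 * S.D) ^ β * S.a p x :=
  (abs_E_le _ _ _).trans ((E_mono fun y _ => hu y).trans (S.E_le_a h hg))

lemma lemQ {u : X → ℝ} (hu : ∀ x, |u x| ≤ S.U x) (n β s : ℕ) :
    ∑ t ∈ range n, ∑ x, S.ω t x * (ES S.P (S.nu t β s) u x - E (S.P t) u x) ^ 2 ≤
      s * (4 * (4 * S.D) ^ β) ^ 2 * (8 * S.A) := by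
  have hA := S.hA1
  rcases Nat.eq_zero_or_pos β with rfl | hβ
  · simp only [ES, nu_zero, sub_self]
    simp only [ne_eq, OfNat.ofNat_ne_zero, not_false_eq_true, zero_pow, mul_zero, sum_const_zero]
    positivity
  set Z : ℕ → X → ℝ := fun p => ES S.P (S.nu p β (n + s)) u with hZ
  set φ : ℕ → X → ℝ := fun p x => I (S.top p x = p) * (E (S.P p) S.V x / E (S.P p) S.U x) with hφ
  have hφ0 : ∀ p x, 0 ≤ φ p x := fun p x =>
    mul_nonneg (I_nonneg _) (div_pos (E_pos S.hV) (E_pos S.hU)).le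
  have hEZ : ∀ p q x, E (S.P q) (Z p) x = E (S.P (min q (S.nu p β (n + s) x))) u x :=
    fun p q x => (S.nu_stop p β (n + s)).E_ES S.hP q u x
  have h1 : ∀ t ∈ range n, ∀ x, S.ω t x * (ES S.P (S.nu t β s) u x - E (S.P t) u x) ^ 2 ≤
      ∑ p ∈ range n, I (p ≤ t) *
        (φ p x * (1 * (E (S.P (t + s)) (Z p) x - E (S.P t) (Z p) x) ^ 2)) := by
    intro t ht x
    have hp := S.top_le t x
    have ht' := mem_range.1 ht
    refine le_trans (le_of_eq ?_) (single_le_sum (a := S.top t x) (fun p _ => mul_nonneg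
      (I_nonneg _) (mul_nonneg (hφ0 p x) (by positivity))) (mem_range.2 (hp.trans_lt ht')))
    have e1 := S.nu_min (β := β) (s := s) (s' := n + s) hp (S.top_top t x).2.symm (Or.inl hβ)
      (by omega)
    have e2 := S.nu_min (β := β) (s := 0) (s' := n + s) hp (S.top_top t x).2.symm (Or.inl hβ)
      (by omega)
    have e3 : S.nu t β 0 x = t := le_antisymm (S.nu_le_cap t β 0 x) (S.nu_spec t β 0 x).1
    rw [e3, add_zero] at e2
    rw [hEZ, hEZ, ← e1, ← e2, I_of hp]
    simp only [hφ, I_of (S.top_top t x).1, one_mul]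
    rfl
  calc _ ≤ ∑ p ∈ range n, ∑ t ∈ Ico p n, ∑ x,
          φ p x * (1 * (E (S.P (t + s)) (Z p) x - E (S.P t) (Z p) x) ^ 2) := by
        refine (sum_le_sum fun t ht => sum_le_sum fun x _ => h1 t ht x).trans (le_of_eq ?_)
        rw [sum_congr rfl fun t _ => sum_comm, sum_comm]
        refine sum_congr rfl fun p _ => ?_
        rw [show Ico p n = (range n).filter (p ≤ ·) by ext; simp [and_comm], sum_filter]
        refine sum_congr rfl fun t _ => ?_
        split_ifs with h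
        · simp only [I_of h, one_mul]
        · simp only [I_not h, zero_mul, sum_const_zero]
    _ ≤ ∑ p ∈ range n, s * ((4 * (4 * S.D) ^ β) ^ 2 *
          ∑ x, I (S.top p x = p) * (E (S.P p) S.U x * E (S.P p) S.V x)) := by
        refine sum_le_sum fun p _ => ?_
        have := window S.hP (σ := fun _ => 1) (φ := φ p) (f := Z p) (fun _ => one_pos) (p := p)
          (n := n) (s := s) (fun x y h => by
            simp only [hφ, S.top_meas p x y h, E_meas _ _ x y h]) (hφ0 p)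
          (K := (4 * (4 * S.D) ^ β) ^ 2 *
            ∑ x, I (S.top p x = p) * (E (S.P p) S.U x * E (S.P p) S.V x))
          (mul_nonneg (sq_nonneg _) (sum_nonneg fun x _ => mul_nonneg (I_nonneg _)
            (mul_pos (E_pos S.hU) (E_pos S.hV)).le)) ?_
        · simpa only [Ew_one] using this
        intro q hq
        rw [mul_sum]
        refine sum_le_sum fun x _ => ?_
        by_cases h : S.top p x = p
        · have h2 := S.abs_E_le_a hu (x := x) (β := β) (le_min hq (S.nu_spec p β (n + s) x).1)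
            ((S.g_mono x (min_le_right _ _)).trans (S.g_nu_le p β (n + s) x))
          have h3 := sq_le_sq' (abs_le.1 h2).1 (abs_le.1 h2).2
          have h4 := E_pos (P := S.P p) (x := x) S.hU
          have h5 := E_pos (P := S.P p) (x := x) S.hV
          simp only [Ew_one, hEZ, hφ, I_of h, one_mul]
          refine (mul_le_mul_of_nonneg_left h3 (div_pos h5 h4).le).trans (le_of_eq ?_)
          simp only [a, h]
          field_simp
        · simp [hφ, I_not h]
    _ ≤ _ := by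
        rw [← mul_sum, ← mul_sum, mul_assoc]
        gcongr
        exact S.sparse n

noncomputable def W (u : X → ℝ) (t α β s : ℕ) (x : X) : ℝ :=
  ES S.P (S.nu t β s) u x - ES S.P (S.nu t α s) u x

lemma lemW {u : X → ℝ} (hu : ∀ x, |u x| ≤ S.U x) (n : ℕ) {α β : ℕ} (h : α ≤ β) (s : ℕ) :
    ∑ t ∈ range n, ∑ x, S.ω t x * S.W u t α β s x ^ 2 ≤
      512 * s * ((4 * S.D) ^ β) ^ 2 * S.A := by
  have h1 := S.lemQ hu n α s
  have h2 := S.lemQ hu n β s
  have hA := S.hA1
  have hD := S.hD1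
  have h3 : ((4 * S.D) ^ α) ^ 2 ≤ ((4 * S.D) ^ β) ^ 2 :=
    pow_le_pow_left₀ (by positivity) (pow_le_pow_right₀ (by linarith) h) 2
  calc _ ≤ 2 * ∑ t ∈ range n, ∑ x, S.ω t x * (ES S.P (S.nu t α s) u x - E (S.P t) u x) ^ 2 +
        2 * ∑ t ∈ range n, ∑ x, S.ω t x * (ES S.P (S.nu t β s) u x - E (S.P t) u x) ^ 2 := by
        simp only [mul_sum, ← sum_add_distrib]
        refine sum_le_sum fun t _ => sum_le_sum fun x _ => ?_
        have := mul_nonneg (S.ω_pos t x).le (sq_nonneg (ES S.P (S.nu t β s) u x +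
          ES S.P (S.nu t α s) u x - 2 * E (S.P t) u x))
        simp only [W]; nlinarith
    _ ≤ _ := by
        have := mul_le_mul_of_nonneg_left h3 (by positivity : 0 ≤ 256 * (s : ℝ) * S.A)
        nlinarith

lemma carl_stop {μ h : X → ℝ} (hμ : ∀ x, 0 < μ x) (hg : S.Good μ (1 / (4 * S.A)))
    (h0 : ∀ x, 0 ≤ h x) (h1 : ∑ x, μ x * h x ^ 2 ≤ 1) (n : ℕ) :
    ∑ p ∈ range n, ∑ x, I (S.top p x = p) * μ x * Ew (S.P p) μ h x ^ 2 ≤ 16 * S.A := by
  have hA := S.hA1
  have := carleson S.hP (α := fun p x => I (S.top p x = p) * μ x) (n := n) (C := 4 * S.A) hμ h0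
    (by linarith) (fun t x => mul_nonneg (I_nonneg _) (hμ x).le) fun r _ x => by
      have := hg.count r n x
      rwa [one_div, inv_mul_le_iff₀ (by positivity)] at this
  nlinarith

noncomputable def Lam (n m α : ℕ) : ℝ := ∑ p ∈ range n, ∑ x,
  I (S.top p x = p) * E (S.P p) S.V x * (I (S.g p x + α ≤ S.g m x) * S.U x)

lemma phi_meas (p : ℕ) : Meas (S.P p) fun x => I (S.top p x = p) * E (S.P p) S.V x :=
  fun x y h => by simp only [S.top_meas p x y h, E_meas _ _ x y h]

lemma Lam_le (n m α : ℕ) : S.Lam n m α ≤ 8 * S.A := by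
  refine le_trans (sum_le_sum fun p _ => ?_) (S.sparse n)
  calc _ ≤ ∑ x, I (S.top p x = p) * E (S.P p) S.V x * S.U x :=
        sum_le_sum fun x _ => mul_le_mul_of_nonneg_left
          (mul_le_of_le_one_left (S.hU x).le (I_le_one _))
          (mul_nonneg (I_nonneg _) (E_pos S.hV).le)
    _ = _ := by
        rw [← sum_mul_E (S.phi_meas p)]
        exact sum_congr rfl fun x _ => by ring

lemma kap_le : 1 / (4 * S.A) ≤ 1 := by
  have := S.hA1
  rw [div_le_one (by linarith)]; linarith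

lemma Lam_tail {n m : ℕ} (hnm : n ≤ m) (k : ℕ) :
    S.Lam n m (k + 1) ≤ √((1 - 1 / (4 * S.A)) ^ k * S.A * (16 * S.A) * (16 * S.A)) := by
  have hA := S.hA1
  have hρ : 0 ≤ (1 - 1 / (4 * S.A)) ^ k := pow_nonneg (sub_nonneg.2 S.kap_le) k
  set J : ℕ → ℕ → X → ℝ := fun p r y => I (S.top r y = r ∧ S.g r y = S.g p y + k + 1) with hJ
  have hJm : ∀ p, ∀ r ∈ Ioc p m, Meas (S.P r) (J p r) := fun p r hr x y hxy => by
    simp only [hJ, S.top_meas r x y hxy, S.g_meas hxy,
      S.g_meas (S.hP.mono (mem_Ioc.1 hr).1.le hxy)]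
  have key := cs_sum (range n) (K := (1 - 1 / (4 * S.A)) ^ k * S.A)
    (z := fun p x => I (S.top p x = p) * E (S.P p) S.V x *
      E (S.P p) (fun y => I (S.g p y + (k + 1) ≤ S.g m y) * S.U y) x)
    (p := fun p x => I (S.top p x = p) * S.swap.F p x ^ 2 * E (S.P p) S.w x)
    (q := fun p x => I (S.top p x = p) *
      E (S.P p) (fun y => ∑ r ∈ Ioc p m, J p r y * (S.σ y * S.F r y ^ 2)) x)
    (a := 16 * S.A) (b := 16 * S.A) (by positivity)
    (fun p _ x => mul_nonneg (mul_nonneg (I_nonneg _) (sq_nonneg _)) (E_pos S.hw).le)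
    (fun p _ x => mul_nonneg (I_nonneg _) (E_nonneg fun y => sum_nonneg fun r _ =>
      mul_nonneg (I_nonneg _) (mul_nonneg (S.hσ y).le (sq_nonneg _)))) ?_ ?_ ?_
  · refine le_trans (sum_le_sum fun p _ => ?_) key
    rw [← sum_mul_E (S.phi_meas p)]
    exact sum_le_sum fun x _ => le_abs_self _
  · intro p hp x
    have hpm : p ≤ m := (mem_range.1 hp).le.trans hnm
    by_cases h : S.top p x = p
    swap
    · simp [I_not h]
    have hs : ∀ y, I (S.g p y + k + 1 ≤ S.g m y) = ∑ r ∈ Ioc p m, J p r y := I_le_sum hpm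
    have e1 : E (S.P p) (fun y => I (S.g p y + (k + 1) ≤ S.g m y) * S.U y) x =
        E (S.P p) (fun y => (I (S.g p y + k + 1 ≤ S.g m y) * S.σ y) *
          ∑ r ∈ Ioc p m, J p r y * S.F r y) x := by
      simp only [← add_assoc]
      rw [E_congr (v := fun y => ∑ r ∈ Ioc p m, J p r y * S.U y) fun y _ => by rw [hs, sum_mul],
        E_sum, sum_congr rfl fun r hr => S.E_φU (mem_Ioc.1 hr).1.le (hJm p r hr) x, ← E_sum]
      refine E_congr fun y _ => ?_
      rw [mul_sum]
      refine sum_congr rfl fun r hr => ?_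
      by_cases h' : S.top r y = r ∧ S.g r y = S.g p y + k + 1
      · rw [I_of (h'.2.ge.trans (S.g_mono y (mem_Ioc.1 hr).2))]; ring
      · simp only [hJ, I_not h', zero_mul, mul_zero]
    have h2 := E_cs' (S.P p) (μ := fun y => I (S.g p y + k + 1 ≤ S.g m y) * S.σ y)
      (fun y => mul_nonneg (I_nonneg _) (S.hσ y).le) (fun y => ∑ r ∈ Ioc p m, J p r y * S.F r y) x
    have h3 := S.good_σ.decay S.kap_le hpm k x
    have h4 : E (S.P p) (fun y => (I (S.g p y + k + 1 ≤ S.g m y) * S.σ y) *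
        (∑ r ∈ Ioc p m, J p r y * S.F r y) ^ 2) x ≤
        E (S.P p) (fun y => ∑ r ∈ Ioc p m, J p r y * (S.σ y * S.F r y ^ 2)) x := by
      refine E_mono fun y _ => ?_
      have a1 := sum_sq_le_sum_mul_sum_of_sq_le_mul (Ioc p m) (r := fun r => J p r y * S.F r y)
        (f := fun r => J p r y) (g := fun r => J p r y * S.F r y ^ 2) (fun _ _ => I_nonneg _)
        (fun _ _ => mul_nonneg (I_nonneg _) (sq_nonneg _)) fun r _ => le_of_eq (by ring)
      have a2 : 0 ≤ ∑ r ∈ Ioc p m, J p r y * S.F r y ^ 2 :=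
        sum_nonneg fun _ _ => mul_nonneg (I_nonneg _) (sq_nonneg _)
      rw [← hs] at a1
      have a3 := a1.trans (mul_le_of_le_one_left a2 (I_le_one _))
      calc _ ≤ S.σ y * ∑ r ∈ Ioc p m, J p r y * S.F r y ^ 2 :=
            mul_le_mul (mul_le_of_le_one_left (S.hσ y).le (I_le_one _)) a3 (sq_nonneg _)
              (S.hσ y).le
        _ = _ := by rw [mul_sum]; exact sum_congr rfl fun r _ => by ring
    have e : E (S.P p) S.V x = S.swap.F p x * E (S.P p) S.w x := S.swap.EU p x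
    have h5 := h2.trans (mul_le_mul h4 h3 (E_nonneg fun y => mul_nonneg (I_nonneg _) (S.hσ y).le)
      (le_trans (E_nonneg fun y => mul_nonneg (mul_nonneg (I_nonneg _) (S.hσ y).le)
        (sq_nonneg _)) h4))
    simp only [I_of h, one_mul]
    rw [e1, e, mul_pow]
    refine (mul_le_mul_of_nonneg_left h5 (sq_nonneg _)).trans ?_
    have h6 : 0 ≤ E (S.P p) (fun y => ∑ r ∈ Ioc p m, J p r y * (S.σ y * S.F r y ^ 2)) x :=
      E_nonneg fun y => sum_nonneg fun r _ =>
        mul_nonneg (I_nonneg _) (mul_nonneg (S.hσ y).le (sq_nonneg _))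
    have h7 := mul_le_mul_of_nonneg_left (S.hA p x) (mul_nonneg hρ (mul_nonneg (mul_nonneg
      (sq_nonneg (S.swap.F p x)) (E_pos (P := S.P p) (x := x) S.hw).le) h6))
    linarith
  · refine le_trans (le_of_eq (sum_congr rfl fun p _ => ?_))
      (S.carl_stop S.hw S.swap.good_σ S.swap.f_nonneg S.swap.nf n)
    rw [sum_mul_E (P := S.P p) (fun x y h => by
      simp only [S.top_meas p x y h, S.swap.F_meas p x y h])]
    exact sum_congr rfl fun x _ => by rw [mul_right_comm]; rfl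
  · refine le_trans ?_ (S.carl_stop S.hσ S.good_σ S.f_nonneg S.nf (m + 1))
    rw [sum_congr rfl fun p _ => sum_mul_E (st_meas p) _, sum_comm, sum_comm (s := range (m + 1))]
    refine sum_le_sum fun x _ => ?_
    calc _ ≤ ∑ p ∈ range n, ∑ r ∈ range (m + 1), I (S.top p x = p ∧ S.g r x = S.g p x + k + 1) *
          (I (S.top r x = r) * S.σ x * S.F r x ^ 2) := by
          refine sum_le_sum fun p _ => ?_
          rw [mul_sum]
          refine le_trans (le_of_eq (sum_congr rfl fun r _ => ?_))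
            (sum_le_sum_of_subset_of_nonneg (s := Ioc p m)
              (fun r hr => mem_range.2 (by have := mem_Ioc.1 hr; omega)) fun r _ _ =>
              mul_nonneg (I_nonneg _) (mul_nonneg (mul_nonneg (I_nonneg _) (S.hσ x).le)
                (sq_nonneg _)))
          by_cases h1 : S.top p x = p <;> by_cases h2 : S.top r x = r <;>
            by_cases h3 : S.g r x = S.g p x + k + 1 <;> simp [hJ, I, h1, h2, h3]
      _ ≤ _ := by
          rw [sum_comm]
          refine sum_le_sum fun r _ => ?_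
          rw [← sum_mul]
          exact mul_le_of_le_one_left (mul_nonneg (mul_nonneg (I_nonneg _) (S.hσ x).le)
            (sq_nonneg _)) (sum_I_le_one fun a b ha hb => S.stop_inj ha.1 hb.1 (by omega))

end Cor

end Pool.Agent.P.MP_70f35d_an
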