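import Pool.Agent.P.MP_70f35d_an.FinalCube

set_option autoImplicit false
open MeasureTheory Set Filter Topology

namespace Pool.Agent.P.MP_70f35d_an

variable {d : ℕ}

/-- the growth function in the weight constant -/
noncomputable def GG (A : ℝ) : ℝ := A ^ (3 / 2 : ℝ) * (1 + Real.log A) ^ 2

lemma one_le_GG {A : ℝ} (h : 1 ≤ A) : 1 ≤ GG A :=
  one_le_mul_of_one_le_of_one_le (Real.one_le_rpow h (by norm_num))
    (one_le_pow₀ (by linarith [Real.log_nonneg h]))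

lemma GG_mul {c A : ℝ} (hc : 1 ≤ c) (h : 1 ≤ A) : GG (c * A) ≤ GG c * GG A := by
  have h1 := Real.log_nonneg hc
  have h2 := Real.log_nonneg h
  rw [GG, GG, GG, Real.mul_rpow (by linarith) (by linarith), Real.log_mul (by linarith) (by linarith),
    mul_mul_mul_comm _ (_ ^ 2), ← mul_pow]
  gcongr
  nlinarith [mul_nonneg h1 h2]

/-- the ball form of the weight condition -/
def Wt (w : Eu d → ℝ) (A : ℝ) : Prop :=
  ∀ (x : Eu d) (r : ℝ), 0 < r → IntegrableOn w (Metric.ball x r) ∧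
    IntegrableOn (fun y => (w y)⁻¹) (Metric.ball x r) ∧
    (∫ y in Metric.ball x r, w y) * (∫ y in Metric.ball x r, (w y)⁻¹)
      ≤ A * (volume (Metric.ball x r)).toReal ^ 2

/-- volume of the unit ball -/
noncomputable def om (d : ℕ) : ℝ := volume.real (Metric.ball (0 : Eu d) 1)

lemma om_pos (d : ℕ) : 0 < om d :=
  ENNReal.toReal_pos (Metric.measure_ball_pos _ _ one_pos).ne' measure_ball_lt_top.ne

lemma Wt.one_le {w : Eu d → ℝ} {A : ℝ} (hA : Wt w A) (hw : ∀ x, 0 < w x) : 1 ≤ A := by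
  obtain ⟨h1, h2, h3⟩ := hA 0 1 one_pos
  have h4 := (cs_weight measure_ball_lt_top.ne hw h1 h2).trans h3
  have h5 := pow_pos (om_pos d) 2
  exact le_of_mul_le_mul_right ((one_mul _).trans_le h4) h5

lemma Wt.meas {w : Eu d → ℝ} {A : ℝ} (hA : Wt w A) : AEMeasurable w :=
  (LocallyIntegrable.aestronglyMeasurable fun x =>
    ⟨_, Metric.ball_mem_nhds x one_pos, (hA x 1 one_pos).1⟩).aemeasurable

lemma Wt.cube {w : Eu d → ℝ} {A : ℝ} (hA : Wt w A) {δ : ℝ} (hδ : 0 < δ) (a : Fin d → ℤ) :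
    IntegrableOn w (cube δ a) ∧ IntegrableOn (fun y => (w y)⁻¹) (cube δ a) :=
  ⟨(hA _ _ (by positivity)).1.mono_set (cube_sub hδ a),
    (hA _ _ (by positivity)).2.1.mono_set (cube_sub hδ a)⟩

/-- loss in the weight constant from balls to cubes -/
noncomputable def cc (d : ℕ) : ℝ := ((d + 1) ^ d * om d) ^ 2 + 1

lemma one_le_cc (d : ℕ) : 1 ≤ cc d := le_add_of_nonneg_left (by positivity)

/-- a smoothly truncated operator is bounded on lattice step functions -/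
def Disc (K w : Eu d → ℝ) (δ L : ℝ) : Prop :=
  ∀ (s : Finset (Fin d → ℤ)) (u : (Fin d → ℤ) → ℝ) (B : ℝ), (∀ a, u a ≠ 0 → a ∈ s) →
    (∀ a, |u a| ≤ B) →
    ∑ a ∈ s, ((δ ^ d)⁻¹ * ∫ z in cube δ a, ∫ y, K y * u (fl δ (z - y))) ^ 2 * ∫ z in cube δ a, w z ≤
      L ^ 2 * ∑ a ∈ s, u a ^ 2 * ∫ z in cube δ a, w z

lemma conv_cube {K h : Eu d → ℝ} (hK : Measurable K) (hK' : Integrable K) (hh : Measurable h)
    {B : ℝ} (hB : ∀ x, |h x| ≤ B) {δ : ℝ} (hδ : 0 < δ) (a : Fin d → ℤ) :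
    IntegrableOn (fun z => ∫ y, K y * h (z - y)) (cube δ a) :=
  Measure.integrableOn_of_bounded (by rw [vol_cube hδ]; exact ENNReal.ofReal_ne_top)
    (conv_meas hK hh).aestronglyMeasurable
    (Eventually.of_forall fun _ => int_mul_le hK' fun _ => hB _)

theorem disc_of_lattice (h : LatticeStmt d) : ∃ C : ℝ, 0 < C ∧
    ∀ (Ω : Eu d → ℝ) (M : ℝ), Measurable Ω → (∀ x, |Ω x| ≤ M) →
      (∀ x, ∀ t : ℝ, 0 < t → Ω (t • x) = Ω x) →
      (∫ y in {y : Eu d | 1 ≤ ‖y‖ ∧ ‖y‖ ≤ 2}, Ω y) = 0 →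
      ∀ (w : Eu d → ℝ) (A : ℝ), (∀ x, 0 < w x) → Wt w A → ∀ δ : ℝ, 0 < δ → ∀ j0 j1 : ℕ, j0 ≤ j1 →
        Disc (KK Ω (δ * (2 ^ j0 / 2)) (δ * (2 ^ j1 / 2))) w δ (C * M * GG A) := by
  obtain ⟨C, hC, h⟩ := h
  have g0 := one_le_GG (one_le_cc d)
  refine ⟨C * GG (cc d), by positivity, fun Ω M hm hM hΩ h0 w A hw hA δ hδ j0 j1 hj s u B hu hB => ?_⟩
  have m0 : 0 ≤ M := (abs_nonneg _).trans (hM 0)
  have a1 := hA.one_le hw
  have dd : 0 < δ ^ d := by positivity
  have hK : Integrable (KK Ω (δ * (2 ^ j0 / 2)) (δ * (2 ^ j1 / 2))) :=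
    KK_int hm hM (by positivity) (by gcongr; exact one_le_two)
  have hg := conv_cube (KK_meas hm _ _) hK (step_meas δ u) (fun _ => hB _) hδ
  obtain ⟨g, hg'⟩ : ∃ g : Eu d → ℝ,
    g = fun z => ∫ y, KK Ω (δ * (2 ^ j0 / 2)) (δ * (2 ^ j1 / 2)) y * u (fl δ (z - y)) := ⟨_, rfl⟩
  let W : (Fin d → ℤ) → ℝ := fun a => (δ ^ d)⁻¹ * ∫ z in cube δ a, w z
  let σ : (Fin d → ℤ) → ℝ := fun a => (δ ^ d)⁻¹ * ∫ z in cube δ a, (w z)⁻¹
  let γ : (Fin d → ℤ) → ℝ := fun a => (δ ^ d)⁻¹ * ∫ z in cube δ a, g z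
  let v : (Fin d → ℤ) → ℝ := fun a => if a ∈ s then γ a * W a else 0
  have hv : ∀ a, v a ≠ 0 → a ∈ s := fun a ha => by
    by_contra h1
    exact ha (if_neg h1)
  have w0 : ∀ a, 0 ≤ W a := fun a => mul_nonneg (by positivity) (integral_nonneg fun z => (hw z).le)
  have s0 : ∀ a, 0 ≤ σ a := fun a =>
    mul_nonneg (by positivity) (integral_nonneg fun z => (inv_pos.2 (hw z)).le)
  have sw : ∀ a, 1 ≤ σ a * W a := fun a => by
    have h1 := cs_weight (by rw [vol_cube hδ]; exact ENNReal.ofReal_ne_top) hw (hA.cube hδ a).1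
      (hA.cube hδ a).2
    rw [real_cube hδ] at h1
    have h2 := mul_le_mul_of_nonneg_left h1 (sq_nonneg (δ ^ d)⁻¹)
    rw [← mul_pow, inv_mul_cancel₀ dd.ne', one_pow] at h2
    exact h2.trans_eq (by simp only [σ, W]; ring)
  have w1 : ∀ a, 0 < W a := fun a => (w0 a).lt_of_ne fun e => by
    have := sw a
    rw [← e, mul_zero] at this
    linarith
  have s1 : ∀ a, 0 < σ a := fun a => (s0 a).lt_of_ne fun e => by
    have := sw a
    rw [← e, zero_mul] at this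
    linarith
  have key := h (kk Ω) M (hm.indicator (meas_ann d))
    (fun y => by
      rw [kk, indicator]
      split_ifs
      exacts [hM y, by simpa using m0])
    (fun y hy => (mem_of_indicator_ne_zero hy).2) (by rw [kk, integral_indicator (meas_ann d), h0])
    σ W (cc d * A) s1 w1 sw (fun o m => by
      have r0 : (0 : ℝ) < (d + 1) * (δ * (2 ^ m : ℕ)) := by positivity
      obtain ⟨b1, b2, b3⟩ := hA (pt δ o) _ r0
      have b4 := sum_cube_le hδ (fun z => (hw z).le) o (Nat.two_pow_pos m) b1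
      have b5 := sum_cube_le hδ (fun z => (inv_pos.2 (hw z)).le) o (Nat.two_pow_pos m) b2
      rw [Measure.addHaar_ball_of_pos _ _ r0, finrank_euclideanSpace_fin, ENNReal.toReal_mul,
        ENNReal.toReal_ofReal (by positivity), mul_comm] at b3
      have b6 := (mul_le_mul b5 b4 (Finset.sum_nonneg fun _ _ => integral_nonneg fun z => (hw z).le)
        (integral_nonneg fun z => (inv_pos.2 (hw z)).le)).trans b3
      have b7 := mul_le_mul_of_nonneg_left b6 (sq_nonneg (δ ^ d)⁻¹)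
      simp only [σ, W, ← Finset.mul_sum]
      refine le_trans (le_of_eq (by ring)) (b7.trans ?_)
      have b8 : (δ ^ d)⁻¹ ^ 2 * (A * ((((d : ℝ) + 1) * (δ * (2 ^ m : ℕ))) ^ d * om d) ^ 2) =
          ((d + 1) ^ d * om d) ^ 2 * A * ((2 ^ m) ^ d) ^ 2 := by
        push_cast
        simp only [mul_pow]
        field_simp
      refine b8.trans_le ?_
      gcongr
      exact le_add_of_nonneg_right zero_le_one) j0 j1 s u v hu hv
  have e1 := conv_scale hδ _ (Ksum (kk Ω) j0 j1)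
    (fun y => (KK_smul hΩ hδ _ _ y).trans (Ksum_kk hΩ hj y).symm) u v
  rw [(step_int hg hv).2, ← hg'] at e1
  have e2 : ∑ a ∈ s, v a * ∫ z in cube δ a, g z = δ ^ d * ∑ a ∈ s, γ a ^ 2 * W a := by
    rw [Finset.mul_sum]
    refine Finset.sum_congr rfl fun a ha => ?_
    simp only [v, if_pos ha, γ]
    field_simp
  have e3 : ∑ a ∈ s, v a ^ 2 / W a = ∑ a ∈ s, γ a ^ 2 * W a :=
    Finset.sum_congr rfl fun a ha => by
      have := w1 a
      simp only [v, if_pos ha]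
      field_simp
  have e4 : ∑ a ∈ s, u a ^ 2 / σ a ≤ ∑ a ∈ s, u a ^ 2 * W a :=
    Finset.sum_le_sum fun a _ => by
      rw [div_le_iff₀ (s1 a), mul_assoc, mul_comm (W a)]
      exact le_mul_of_one_le_right (sq_nonneg _) (sw a)
  rw [← mul_left_cancel₀ dd.ne' (e2.symm.trans e1), e3] at key
  have x0 : 0 ≤ ∑ a ∈ s, γ a ^ 2 * W a := Finset.sum_nonneg fun a _ => mul_nonneg (sq_nonneg _) (w0 a)
  have y0 : 0 ≤ ∑ a ∈ s, u a ^ 2 * W a := Finset.sum_nonneg fun a _ => mul_nonneg (sq_nonneg _) (w0 a)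
  have e5 : ∑ a ∈ s, γ a ^ 2 * W a ≤ C * GG (cc d) * M * GG A * √(∑ a ∈ s, u a ^ 2 * W a) *
      √(∑ a ∈ s, γ a ^ 2 * W a) := by
    refine (le_abs_self _).trans (key.trans ?_)
    have g1 := mul_le_mul_of_nonneg_left (GG_mul (one_le_cc d) a1) (mul_nonneg hC.le m0)
    have g2 := one_le_GG a1
    exact mul_le_mul_of_nonneg_right (mul_le_mul (g1.trans_eq (by ring)) (Real.sqrt_le_sqrt e4)
      (Real.sqrt_nonneg _) (by positivity)) (Real.sqrt_nonneg _)
  have e6 : ∑ a ∈ s, γ a ^ 2 * W a ≤ (C * GG (cc d) * M * GG A) ^ 2 * ∑ a ∈ s, u a ^ 2 * W a := by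
    have q1 := Real.sq_sqrt x0
    have q2 := Real.sq_sqrt y0
    rw [← q2, ← mul_pow]
    nlinarith [sq_nonneg (C * GG (cc d) * M * GG A * √(∑ a ∈ s, u a ^ 2 * W a) -
      √(∑ a ∈ s, γ a ^ 2 * W a))]
  have e7 : ∀ t : (Fin d → ℤ) → ℝ,
      ∑ a ∈ s, t a * ∫ z in cube δ a, w z = δ ^ d * ∑ a ∈ s, t a * W a := fun t => by
    rw [Finset.mul_sum]
    refine Finset.sum_congr rfl fun a _ => ?_
    simp only [W]
    field_simp
  rw [e7, e7, mul_left_comm]
  subst hg'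
  exact mul_le_mul_of_nonneg_left e6 dd.le

lemma finite_pt {δ : ℝ} (hδ : 0 < δ) (r : ℝ) : {a : Fin d → ℤ | ‖pt δ a‖ ≤ r}.Finite := by
  refine (finite_Icc (fun _ => -⌈r / δ⌉) fun _ => ⌈r / δ⌉).subset fun a ha => ?_
  have h1 : ∀ i, |a i| ≤ ⌈r / δ⌉ := fun i => by
    have h2 : |δ * a i| ≤ r := (PiLp.norm_apply_le (pt δ a) i).trans ha
    rw [abs_mul, abs_of_pos hδ, mul_comm, ← le_div_iff₀ hδ] at h2
    exact_mod_cast h2.trans (Int.le_ceil _)
  exact ⟨fun i => (abs_le.1 (h1 i)).1, fun i => (abs_le.1 (h1 i)).2⟩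

lemma int_supp {w : Eu d → ℝ} {A : ℝ} (hA : Wt w A) {r : ℝ} (hr : 0 < r) (B : ℝ) :
    Integrable (indicator (Metric.ball (0 : Eu d) r) fun x => w x * B) :=
  IntegrableOn.integrable_indicator ((hA 0 r hr).1.mul_const B) measurableSet_ball

lemma lip_le {f : Eu d → ℝ} {Lp : NNReal} (hf : LipschitzWith Lp f) {x z : Eu d} {η : ℝ}
    (h : ‖x - z‖ ≤ η) : |f x - f z| ≤ Lp * η :=
  (hf.norm_sub_le x z).trans (mul_le_mul_of_nonneg_left h Lp.2)

theorem conv_bound {K w f : Eu d → ℝ} {A L R B : ℝ} {Lp : NNReal} (hK : Measurable K)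
    (hK' : Integrable K) (hw : ∀ x, 0 < w x) (hA : Wt w A) (hf : LipschitzWith Lp f)
    (hB : ∀ x, |f x| ≤ B) (hR : 0 < R) (hs : ∀ x, f x ≠ 0 → ‖x‖ ≤ R) (δ : ℕ → ℝ)
    (h0 : ∀ n, 0 < δ n) (h1 : ∀ n, δ n ≤ 1) (h2 : Tendsto δ atTop (𝓝 0))
    (h : ∀ n, Disc K w (δ n) L) :
    ∫⁻ x, ENNReal.ofReal ((∫ y, K y * f (x - y)) ^ 2 * w x) ≤
      ENNReal.ofReal (L ^ 2 * ∫ x, f x ^ 2 * w x) := by
  have fm := hf.continuous.measurable
  let s : ℕ → Finset (Fin d → ℤ) := fun n => (finite_pt (h0 n) (R + n)).toFinset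
  let u : ℕ → (Fin d → ℤ) → ℝ := fun n a => f (pt (δ n) a)
  let γ : ℕ → (Fin d → ℤ) → ℝ := fun n a =>
    (δ n ^ d)⁻¹ * ∫ z in cube (δ n) a, ∫ y, K y * u n (fl (δ n) (z - y))
  let V : ℕ → (Fin d → ℤ) → ℝ := fun n a => if a ∈ s n then γ n a ^ 2 else 0
  have hV : ∀ n a, V n a ≠ 0 → a ∈ s n := fun n a ha => by
    by_contra h1
    exact ha (if_neg h1)
  have hu : ∀ n a, u n a ≠ 0 → a ∈ s n := fun n a ha =>
    (Finite.mem_toFinset _).2 ((hs _ ha).trans (le_add_of_nonneg_right n.cast_nonneg))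
  have i1 := fun n => step_int (fun a => (hA.cube (h0 n) a).1) (hV n)
  have i2 := fun n => step_int (v := fun a => u n a ^ 2) (fun a => (hA.cube (h0 n) a).1)
    fun a ha => hu n a fun e => ha (by simp [e])
  have lim : ∀ (c : ℝ) (t : ℕ → ℝ) (t₀ : ℝ), (∀ n, |t n - t₀| ≤ c * δ n) →
      Tendsto t atTop (𝓝 t₀) := fun c t t₀ ht =>
    tendsto_iff_norm_sub_tendsto_zero.2 (squeeze_zero (fun _ => norm_nonneg _) ht
      (by simpa using h2.const_mul c))
  refine fatou_le (L := fun n x => γ n (fl (δ n) x) ^ 2 * w x)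
    (H := fun n x => w x * V n (fl (δ n) x))
    (b := fun n => L ^ 2 * ∫ x, w x * u n (fl (δ n) x) ^ 2)
    (fun n => (i1 n).1.aemeasurable) (fun x => ?_) (fun x => ?_) (Tendsto.const_mul _ ?_) fun n => ?_
  · refine ((lim ((∫ y, |K y|) * (Lp * (3 * d))) _ _ fun n => ?_).pow 2).mul_const _
    have dd : 0 < δ n ^ d := pow_pos (h0 n) d
    have v0 : volume (cube (δ n) (fl (δ n) x)) < ⊤ := by
      rw [vol_cube (h0 n)]
      exact ENNReal.ofReal_lt_top
    have a1 := norm_setIntegral_le_of_norm_le_const (μ := volume)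
      (f := fun z => (∫ y, K y * u n (fl (δ n) (z - y))) - ∫ y, K y * f (x - y))
      (C := (∫ y, |K y|) * (Lp * (3 * d * δ n))) v0 fun z hz => by
        rw [← integral_sub (conv_int hK' (step_meas (δ n) (u n)) (fun _ => hB _) z)
          (conv_int hK' fm hB x)]
        simp only [← mul_sub]
        refine int_mul_le hK' fun y => lip_le hf ?_
        have b1 := norm_sub_pt (h0 n) (z - y)
        have b2 := norm_sub_pt (h0 n) z
        have b3 := norm_sub_pt (h0 n) x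
        rw [show fl (δ n) z = fl (δ n) x from hz] at b2
        have b4 : pt (δ n) (fl (δ n) (z - y)) - (x - y) = (z - pt (δ n) (fl (δ n) x)) -
            (x - pt (δ n) (fl (δ n) x)) - (z - y - pt (δ n) (fl (δ n) (z - y))) := by abel
        rw [b4]
        refine (norm_sub_le _ _).trans ?_
        linarith [norm_sub_le (z - pt (δ n) (fl (δ n) x)) (x - pt (δ n) (fl (δ n) x))]
    rw [integral_sub (conv_cube hK hK' (step_meas (δ n) (u n)) (fun _ => hB _) (h0 n) _)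
      (integrableOn_const v0.ne), setIntegral_const, real_cube (h0 n), smul_eq_mul,
      Real.norm_eq_abs, ← div_le_iff₀ dd, ← abs_of_pos dd, ← abs_div, abs_of_pos dd] at a1
    refine le_of_eq_of_le ?_ (a1.trans_eq (by ring))
    congr 1
    simp only [γ]
    field_simp
  · obtain ⟨n0, hn0⟩ := exists_nat_ge (‖x‖ + d)
    refine eventually_atTop.2 ⟨n0, fun n hn => le_of_eq ?_⟩
    have a1 : fl (δ n) x ∈ s n := (Finite.mem_toFinset _).2 (by
      have b1 := norm_sub_pt (h0 n) x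
      have b2 := norm_sub_norm_le (pt (δ n) (fl (δ n) x)) x
      have b3 := mul_le_mul_of_nonneg_left (h1 n) d.cast_nonneg
      have b4 : (n0 : ℝ) ≤ n := by exact_mod_cast hn
      rw [norm_sub_rev] at b2
      change ‖_‖ ≤ _
      linarith)
    simp only [V, if_pos a1, mul_comm]
  · simp only [mul_comm (f _ ^ 2)]
    refine tendsto_integral_of_dominated_convergence _ (fun n => (i2 n).1.aestronglyMeasurable)
      (int_supp hA (r := R + d + 1) (by positivity) (B ^ 2))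
      (fun n => Eventually.of_forall fun x => ?_) (Eventually.of_forall fun x => ?_)
    · have w0 := hw x
      by_cases a1 : x ∈ Metric.ball (0 : Eu d) (R + d + 1)
      · rw [indicator_of_mem a1, Real.norm_of_nonneg (by positivity), ← sq_abs]
        have := hB (pt (δ n) (fl (δ n) x))
        gcongr
      · have a2 : u n (fl (δ n) x) = 0 := by
          by_contra a2
          have b1 := norm_sub_pt (h0 n) x
          have b2 := norm_sub_norm_le x (pt (δ n) (fl (δ n) x))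
          have b3 := mul_le_mul_of_nonneg_left (h1 n) d.cast_nonneg
          have b4 := hs _ a2
          exact a1 (mem_ball_zero_iff.2 (by linarith))
        simp [indicator_of_notMem a1, a2]
    · refine ((lim (Lp * d) _ _ fun n => ?_).pow 2).const_mul _
      rw [abs_sub_comm, mul_assoc]
      exact lip_le hf (norm_sub_pt (h0 n) x)
  · rw [← ofReal_integral_eq_lintegral_ofReal (i1 n).1 (Eventually.of_forall fun x => by
      refine mul_nonneg (hw x).le ?_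
      simp only [V]
      split_ifs
      exacts [sq_nonneg _, le_rfl]), (i1 n).2, (i2 n).2]
    refine ENNReal.ofReal_le_ofReal (le_of_eq_of_le ?_ (h n (s n) (u n) B (hu n) fun _ => hB _))
    exact Finset.sum_congr rfl fun a ha => by simp only [V, if_pos ha, γ]

lemma trunc_le {Ω f : Eu d → ℝ} {M R B ρ₀ ρ₁ : ℝ} {Lp : NNReal} (hm : Measurable Ω)
    (hM : ∀ x, |Ω x| ≤ M) (hf : LipschitzWith Lp f) (hB : ∀ x, |f x| ≤ B)
    (hs : ∀ x, f x ≠ 0 → ‖x‖ ≤ R) (h0 : 0 < ρ₀) (h1 : ρ₀ ≤ ρ₁) {x : Eu d} (hx : ‖x‖ + R ≤ ρ₁) :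
    (∫ y in {y : Eu d | 4 * ρ₀ < ‖y‖}, f (x - y) * Ω y / ‖y‖ ^ d) ^ 2 -
        3 * (M * 4 ^ d * om d * (Lp * (4 * ρ₀))) ^ 2 ≤
      3 / ZZ d 0 ^ 2 * (∫ y, KK Ω ρ₀ ρ₁ y * f (x - y)) ^ 2 + 3 * (M * 4 ^ d * om d) ^ 2 * f x ^ 2 := by
  have z0 := ZZ_pos d
  have m0 : 0 ≤ M := (abs_nonneg _).trans (hM 0)
  have a1 := integral_add_compl (measurableSet_closedBall (x := (0 : Eu d)) (ε := 4 * ρ₀))
    (conv_int (KK_int hm hM h0 h1) hf.continuous.measurable hB x)
  have a2 : (Metric.closedBall (0 : Eu d) (4 * ρ₀))ᶜ = {y : Eu d | 4 * ρ₀ < ‖y‖} := by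
    ext y
    simp
  have a3 : ∫ y in {y : Eu d | 4 * ρ₀ < ‖y‖}, KK Ω ρ₀ ρ₁ y * f (x - y) =
      ZZ d 0 * ∫ y in {y : Eu d | 4 * ρ₀ < ‖y‖}, f (x - y) * Ω y / ‖y‖ ^ d := by
    rw [← integral_const_mul]
    refine setIntegral_congr_fun (measurableSet_lt measurable_const measurable_norm) fun y hy => ?_
    by_cases h : f (x - y) = 0
    · simp [h]
    · have b1 := hs _ h
      have b2 := norm_sub_norm_le y x
      rw [norm_sub_rev] at b2
      rw [KK_mid Ω h0 (le_of_lt hy) (by linarith)]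
      ring
  have a4 := norm_setIntegral_le_of_norm_le_const (μ := volume)
    (f := fun y => KK Ω ρ₀ ρ₁ y * f (x - y)) (C := M / ρ₀ ^ d * ZZ d 0 * (|f x| + Lp * (4 * ρ₀)))
    (measure_closedBall_lt_top (x := (0 : Eu d)) (r := 4 * ρ₀)) fun y hy => by
      rw [Real.norm_eq_abs, abs_mul]
      refine mul_le_mul (KK_bound hM h0 h1 y) ?_ (abs_nonneg _) (by positivity)
      have b1 : |f (x - y) - f x| ≤ Lp * (4 * ρ₀) := lip_le hf (by simpa using hy)
      linarith [abs_sub_abs_le_abs_sub (f (x - y)) (f x)]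
  rw [Measure.addHaar_real_closedBall _ _ (by positivity), finrank_euclideanSpace_fin, ← om,
    Real.norm_eq_abs] at a4
  rw [a2, a3] at a1
  rw [← a1, ← sq_abs (f x)]
  generalize ∫ y in {y : Eu d | 4 * ρ₀ < ‖y‖}, f (x - y) * Ω y / ‖y‖ ^ d = t
  generalize ∫ y in Metric.closedBall (0 : Eu d) (4 * ρ₀), KK Ω ρ₀ ρ₁ y * f (x - y) = e at a4 ⊢
  have a5 : |e / ZZ d 0| ≤ M * 4 ^ d * om d * |f x| + M * 4 ^ d * om d * (Lp * (4 * ρ₀)) := by
    rw [abs_div, abs_of_pos z0, div_le_iff₀ z0]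
    refine a4.trans_eq ?_
    rw [mul_pow]
    field_simp
  have a6 : 3 / ZZ d 0 ^ 2 * (e + ZZ d 0 * t) ^ 2 = 3 * (e / ZZ d 0 + t) ^ 2 := by field_simp
  have a7 := sq_le_sq' (abs_le.1 a5).1 (abs_le.1 a5).2
  rw [a6, mul_assoc 3, ← mul_pow]
  generalize M * 4 ^ d * om d * |f x| = p at a7 ⊢
  generalize M * 4 ^ d * om d * (Lp * (4 * ρ₀)) = q at a7 ⊢
  generalize e / ZZ d 0 = r at a7 ⊢
  nlinarith [sq_nonneg (p - q), sq_nonneg (2 * t + 3 * r)]

theorem final_of_lattice (d : ℕ) (_hd : 1 ≤ d) (h : LatticeStmt d) : FinalStmt d := by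
  obtain ⟨C, hC, h⟩ := disc_of_lattice h
  have z0 := ZZ_pos d
  have o0 := om_pos d
  refine ⟨2 * C / ZZ d 0 + 2 * (4 ^ d * om d), by positivity,
    fun Ω M hm hM hΩ h0 w A hw hA f hf hc T hT => ?_⟩
  replace h := h Ω M hm hM hΩ h0 w A hw hA
  have m0 : 0 ≤ M := (abs_nonneg _).trans (hM 0)
  have g1 := one_le_GG (Wt.one_le hA hw)
  obtain ⟨Lp, hL⟩ := ContDiff.lipschitzWith_of_hasCompactSupport hc hf (by simp)
  obtain ⟨B, hB⟩ := hc.exists_bound_of_continuous hf.continuous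
  obtain ⟨R, hR, hs⟩ := hc.isCompact.isBounded.exists_pos_norm_le
  replace hs : ∀ x, f x ≠ 0 → ‖x‖ ≤ R := fun x hx => hs x (subset_tsupport f hx)
  have fm := hf.continuous.measurable
  have wm := Wt.meas hA
  have i1 : Integrable fun x => f x ^ 2 * w x :=
    (int_supp hA (r := R + 1) (by positivity) (B ^ 2)).mono'
      (((fm.pow_const 2).aemeasurable.mul wm).aestronglyMeasurable)
      (Eventually.of_forall fun x => by
        have w0 := hw x
        by_cases a1 : x ∈ Metric.ball (0 : Eu d) (R + 1)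
        · rw [indicator_of_mem a1, Real.norm_of_nonneg (by positivity), ← sq_abs, mul_comm]
          have : |f x| ≤ B := hB x
          gcongr
        · have a2 : f x = 0 := by
            by_contra a2
            exact a1 (mem_ball_zero_iff.2 (by linarith [hs x a2]))
          simp [indicator_of_notMem a1, a2])
  have p1 : ∀ x, 0 ≤ f x ^ 2 * w x := fun x => mul_nonneg (sq_nonneg _) (hw x).le
  have i2 := ofReal_integral_eq_lintegral_ofReal i1 (Eventually.of_forall p1)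
  have i3 : 0 ≤ ∫ x, f x ^ 2 * w x := integral_nonneg p1
  let ρ : ℕ → ℝ := fun N => (2 ^ N)⁻¹ / 2
  have r0 : ∀ N, 0 < ρ N := fun N => by positivity
  have r1 : ∀ N, ρ N ≤ 2 ^ N / 2 := fun N => by
    have : (1 : ℝ) ≤ 2 ^ N := one_le_pow₀ one_le_two
    have := inv_le_one_of_one_le₀ this
    simp only [ρ]
    linarith
  have t0 : Tendsto (fun N : ℕ => ((2 : ℝ) ^ N)⁻¹) atTop (𝓝 0) :=
    (tendsto_pow_atTop_atTop_of_one_lt one_lt_two).inv_tendsto_atTop
  have t1 : Tendsto (fun N => 4 * ρ N) atTop (𝓝 0) := by simpa using (t0.div_const 2).const_mul 4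
  have key : ∀ N, ∫⁻ x, ENNReal.ofReal ((∫ y, KK Ω (ρ N) (2 ^ N / 2) y * f (x - y)) ^ 2 * w x) ≤
      ENNReal.ofReal ((C * M * GG A) ^ 2 * ∫ x, f x ^ 2 * w x) := fun N =>
    conv_bound (KK_meas hm _ _) (KK_int hm hM (r0 N) (r1 N)) hw hA hL hB hR hs
      (fun n => (2 ^ (n + N))⁻¹) (fun n => by positivity)
      (fun n => inv_le_one_of_one_le₀ (one_le_pow₀ one_le_two))
      (t0.comp (tendsto_add_atTop_nat N)) fun n => by
        have := h (2 ^ (n + N))⁻¹ (by positivity) n (n + N + N) (by omega)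
        convert this using 2
        · simp only [ρ, pow_add]
          field_simp
        · simp only [pow_add]
          field_simp
  rw [← i2, ← ENNReal.ofReal_mul (sq_nonneg _)]
  refine fatou_le
    (L := fun N x => ((∫ y in {y : Eu d | 4 * ρ N < ‖y‖}, f (x - y) * Ω y / ‖y‖ ^ d) ^ 2 -
      3 * (M * 4 ^ d * om d * (Lp * (4 * ρ N))) ^ 2) * w x)
    (H := fun N x => 3 / ZZ d 0 ^ 2 * ((∫ y, KK Ω (ρ N) (2 ^ N / 2) y * f (x - y)) ^ 2 * w x) +
      3 * (M * 4 ^ d * om d) ^ 2 * (f x ^ 2 * w x))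
    (fun N => ?_) (fun x => ?_) (fun x => ?_) tendsto_const_nhds fun N => ?_
  · exact ((((conv_meas (KK_meas hm _ _) fm).pow_const 2).aemeasurable.mul wm).const_mul _).add
      (i1.aemeasurable.const_mul _)
  · have t2 := (hT x).comp (tendsto_nhdsWithin_iff.2
      ⟨t1, Eventually.of_forall fun N => mul_pos four_pos (r0 N)⟩)
    simpa using ((t2.pow 2).sub ((((t1.const_mul (Lp : ℝ)).const_mul
      (M * 4 ^ d * om d)).pow 2).const_mul 3)).mul_const (w x)
  · refine ((((tendsto_pow_atTop_atTop_of_one_lt one_lt_two).atTop_div_const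
      two_pos).eventually_ge_atTop (‖x‖ + R)).mono fun N hN => ?_)
    exact (mul_le_mul_of_nonneg_right (trunc_le hm hM hL hB hs (r0 N) (r1 N) hN)
      (hw x).le).trans_eq (by ring)
  · have q1 : (0 : ℝ) ≤ 3 / ZZ d 0 ^ 2 := by positivity
    have q2 : (0 : ℝ) ≤ 3 * (M * 4 ^ d * om d) ^ 2 := by positivity
    have q3 : ∀ x, 0 ≤ (∫ y, KK Ω (ρ N) (2 ^ N / 2) y * f (x - y)) ^ 2 * w x :=
      fun x => mul_nonneg (sq_nonneg _) (hw x).le
    simp only [fun x => ENNReal.ofReal_add (mul_nonneg q1 (q3 x)) (mul_nonneg q2 (p1 x)),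
      ENNReal.ofReal_mul q1, ENNReal.ofReal_mul q2]
    rw [lintegral_add_right' _ (i1.aemeasurable.ennreal_ofReal.const_mul _),
      lintegral_const_mul' _ _ ENNReal.ofReal_ne_top, lintegral_const_mul' _ _ ENNReal.ofReal_ne_top,
      ← i2]
    refine (add_le_add (mul_le_mul_right (key N) _) le_rfl).trans ?_
    rw [← ENNReal.ofReal_mul q1, ← ENNReal.ofReal_mul q2,
      ← ENNReal.ofReal_add (by positivity) (by positivity), ← mul_assoc, ← add_mul]
    refine ENNReal.ofReal_le_ofReal (mul_le_mul_of_nonneg_right ?_ i3)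
    change _ ≤ (_ * M * GG A) ^ 2
    have q4 : 3 / ZZ d 0 ^ 2 * (C * M * GG A) ^ 2 = 3 * (C / ZZ d 0 * M * GG A) ^ 2 := by field_simp
    have q5 : M * 4 ^ d * om d ≤ 4 ^ d * om d * M * GG A :=
      le_of_eq_of_le (by ring) (le_mul_of_one_le_right (by positivity) g1)
    have q6 := pow_le_pow_left₀ (by positivity) q5 2
    have q7 : (2 * C / ZZ d 0 + 2 * (4 ^ d * om d)) * M * GG A =
        2 * (C / ZZ d 0 * M * GG A) + 2 * (4 ^ d * om d * M * GG A) := by ring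
    have q8 : 0 ≤ C / ZZ d 0 * M * GG A := by positivity
    have q9 : 0 ≤ 4 ^ d * om d * M * GG A := by positivity
    rw [q4, q7]
    nlinarith [mul_nonneg q8 q9]

end Pool.Agent.P.MP_70f35d_an
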