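import Pool.Agent.P.MP_70f35d_an.Kern

set_option autoImplicit false
open MeasureTheory Set

namespace Pool.Agent.P.MP_70f35d_an

lemma cut_one {τ : ℝ} (h : τ ≤ 1) : cut τ = 1 := Real.smoothTransition.one_of_one_le (by linarith)

lemma cut_zero {τ : ℝ} (h : 2 ≤ τ) : cut τ = 0 := Real.smoothTransition.zero_of_nonpos (by linarith)

lemma cut_anti : Antitone cut := fun _ _ h => Real.smoothTransition.monotone (by linarith)

lemma cut_nonneg (τ : ℝ) : 0 ≤ cut τ := Real.smoothTransition.nonneg _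

lemma cut_cont : Continuous cut :=
  Real.smoothTransition.continuous.comp (continuous_const.sub continuous_id)

/-- radial profile of the truncation -/
noncomputable def ZZ (d : ℕ) (s : ℝ) : ℝ := ∫ t in (1 / 2 : ℝ)..1, cut (s * t) * (t ^ (d + 1))⁻¹

lemma ZZ_int (d : ℕ) (s : ℝ) :
    IntervalIntegrable (fun t => cut (s * t) * (t ^ (d + 1))⁻¹) volume (1 / 2) 1 := by
  refine ContinuousOn.intervalIntegrable_of_Icc (by norm_num) ?_
  refine (cut_cont.comp (continuous_const.mul continuous_id)).continuousOn.mul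
    ((continuous_pow _).continuousOn.inv₀ fun t ht => ?_)
  have := ht.1
  positivity

lemma ZZ_anti (d : ℕ) : Antitone (ZZ d) := fun s s' h =>
  intervalIntegral.integral_mono_on (by norm_num) (ZZ_int d s') (ZZ_int d s) fun t ht => by
    have h0 : 0 < t := by linarith [ht.1]
    exact mul_le_mul_of_nonneg_right (cut_anti (by nlinarith)) (by positivity)

lemma ZZ_zero (d : ℕ) {s : ℝ} (h : 4 ≤ s) : ZZ d s = 0 := by
  rw [ZZ, intervalIntegral.integral_congr (g := fun _ => 0), intervalIntegral.integral_zero]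
  intro t ht
  rw [uIcc_of_le (by norm_num)] at ht
  simp only
  rw [cut_zero (by nlinarith [ht.1]), zero_mul]

lemma ZZ_one (d : ℕ) {s : ℝ} (h : s ≤ 1) : ZZ d s = ZZ d 0 := by
  refine intervalIntegral.integral_congr fun t ht => ?_
  rw [uIcc_of_le (by norm_num)] at ht
  rw [cut_one (by nlinarith [ht.1, ht.2]), cut_one (by simp)]

lemma ZZ_nonneg (d : ℕ) (s : ℝ) : 0 ≤ ZZ d s :=
  (ZZ_zero d (le_max_right s 4)).ge.trans (ZZ_anti d (le_max_left s 4))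

lemma ZZ_pos (d : ℕ) : 0 < ZZ d 0 :=
  intervalIntegral.intervalIntegral_pos_of_pos_on (ZZ_int d 0) (fun t ht => by
    have h0 : 0 < t := by linarith [ht.1]
    rw [cut_one (by simp)]
    positivity) (by norm_num)

/-- the restriction of `Ω` to an annulus -/
noncomputable def kk {d : ℕ} (Ω : Eu d → ℝ) : Eu d → ℝ :=
  indicator {y : Eu d | 1 ≤ ‖y‖ ∧ ‖y‖ ≤ 2} Ω

lemma meas_ann (d : ℕ) : MeasurableSet {y : Eu d | 1 ≤ ‖y‖ ∧ ‖y‖ ≤ 2} :=
  (measurableSet_le measurable_const measurable_norm).inter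
    (measurableSet_le measurable_norm measurable_const)

lemma dil_kk {d : ℕ} {Ω : Eu d → ℝ} (hΩ : ∀ x, ∀ t : ℝ, 0 < t → Ω (t • x) = Ω x)
    (y : Eu d) : dil (aa d) (kk Ω) y = Ω y / ‖y‖ ^ d * (ZZ d ‖y‖ - ZZ d (2 * ‖y‖)) := by
  have h1 : ∀ τ : ℝ, aa d τ * kk Ω (τ⁻¹ • y) = Ω y * indicator (Icc (‖y‖ / 2) ‖y‖) (aa d) τ := by
    intro τ
    rcases le_or_gt τ 0 with h | h
    · have : aa d τ = 0 := by rw [aa, cut_one (by linarith), cut_one (by linarith)]; simp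
      simp [indicator, this]
    · have h2 : τ⁻¹ • y ∈ {y : Eu d | 1 ≤ ‖y‖ ∧ ‖y‖ ≤ 2} ↔ τ ∈ Icc (‖y‖ / 2) ‖y‖ := by
        simp only [mem_ofPred_eq, norm_smul, norm_inv, Real.norm_eq_abs, abs_of_pos h, mem_Icc]
        rw [inv_mul_eq_div, one_le_div h, div_le_iff₀ h, div_le_iff₀ two_pos, and_comm, mul_comm]
      by_cases h3 : τ ∈ Icc (‖y‖ / 2) ‖y‖
      · rw [kk, indicator_of_mem (h2.2 h3), indicator_of_mem h3, hΩ _ _ (inv_pos.2 h), mul_comm]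
      · rw [kk, indicator_of_notMem (mt h2.1 h3), indicator_of_notMem h3, mul_zero, mul_zero]
  rw [dil]
  simp only [h1]
  rw [integral_const_mul, integral_indicator measurableSet_Icc, integral_Icc_eq_integral_Ioc,
    ← intervalIntegral.integral_of_le (by linarith [norm_nonneg y])]
  rcases (norm_nonneg y).eq_or_lt with h | h
  · rw [← h]
    simp
  · generalize ‖y‖ = s at h
    have h2 := intervalIntegral.smul_integral_comp_mul_left (a := 1 / 2) (b := 1) (aa d) s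
    rw [mul_one, mul_one_div] at h2
    rw [← h2, ZZ, ZZ, ← intervalIntegral.integral_sub (ZZ_int d _) (ZZ_int d _), div_eq_mul_inv (Ω y),
      mul_assoc, smul_eq_mul]
    congr 1
    rw [← intervalIntegral.integral_const_mul, ← intervalIntegral.integral_const_mul]
    refine intervalIntegral.integral_congr fun t ht => ?_
    rw [uIcc_of_le (by norm_num)] at ht
    have h0 : 0 < t := by linarith [ht.1]
    simp only [aa, mul_assoc]
    field_simp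
    ring

lemma Kr_kk {d : ℕ} {Ω : Eu d → ℝ} (hΩ : ∀ x, ∀ t : ℝ, 0 < t → Ω (t • x) = Ω x)
    {r : ℝ} (hr : 0 < r) (y : Eu d) :
    Kr (kk Ω) r y = Ω y / ‖y‖ ^ d * (ZZ d (‖y‖ / r) - ZZ d (2 * (‖y‖ / r))) := by
  rw [Kr, dil_kk hΩ, hΩ _ _ (inv_pos.2 hr), norm_smul, norm_inv, Real.norm_eq_abs,
    abs_of_pos hr, inv_mul_eq_div, inv_mul_eq_div, div_pow]
  rcases eq_or_ne (‖y‖ ^ d) 0 with h | h
  · simp [h]
  · field_simp

/-- the smoothly truncated kernel -/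
noncomputable def KK {d : ℕ} (Ω : Eu d → ℝ) (ρ₀ ρ₁ : ℝ) (y : Eu d) : ℝ :=
  Ω y / ‖y‖ ^ d * (ZZ d (‖y‖ / ρ₁) - ZZ d (‖y‖ / ρ₀))

lemma Ksum_kk {d : ℕ} {Ω : Eu d → ℝ} (hΩ : ∀ x, ∀ t : ℝ, 0 < t → Ω (t • x) = Ω x)
    {j0 j1 : ℕ} (h : j0 ≤ j1) (y : Eu d) :
    Ksum (kk Ω) j0 j1 y = KK Ω (2 ^ j0 / 2) (2 ^ j1 / 2) y := by
  induction j1, h using Nat.le_induction with
  | base => simp [Ksum, KK]
  | succ j hj ih =>
    rw [Ksum, Finset.sum_Ico_succ_top hj, ← Ksum, ih, Kr_kk hΩ (by positivity), KK, KK]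
    have e1 : ‖y‖ / ((2 : ℝ) ^ (j + 1) / 2) = ‖y‖ / 2 ^ j := by rw [pow_succ]; field_simp
    have e2 : ‖y‖ / ((2 : ℝ) ^ j / 2) = 2 * (‖y‖ / 2 ^ j) := by field_simp
    rw [e1, e2]
    ring

lemma KK_smul {d : ℕ} {Ω : Eu d → ℝ} (hΩ : ∀ x, ∀ t : ℝ, 0 < t → Ω (t • x) = Ω x)
    {δ : ℝ} (hδ : 0 < δ) (ρ₀ ρ₁ : ℝ) (y : Eu d) :
    δ ^ d * KK Ω (δ * ρ₀) (δ * ρ₁) (δ • y) = KK Ω ρ₀ ρ₁ y := by
  rw [KK, KK, hΩ _ _ hδ, norm_smul, Real.norm_eq_abs, abs_of_pos hδ, mul_div_mul_left _ _ hδ.ne',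
    mul_div_mul_left _ _ hδ.ne', mul_pow, ← mul_assoc, ← mul_div_assoc,
    mul_div_mul_left _ _ (by positivity)]

lemma KK_meas {d : ℕ} {Ω : Eu d → ℝ} (hΩ : Measurable Ω) (ρ₀ ρ₁ : ℝ) : Measurable (KK Ω ρ₀ ρ₁) :=
  (hΩ.div (measurable_norm.pow_const d)).mul
    (((ZZ_anti d).measurable.comp (measurable_norm.div_const _)).sub
      ((ZZ_anti d).measurable.comp (measurable_norm.div_const _)))

lemma KK_bound {d : ℕ} {Ω : Eu d → ℝ} {M : ℝ} (hM : ∀ x, |Ω x| ≤ M) {ρ₀ ρ₁ : ℝ} (h0 : 0 < ρ₀)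
    (h1 : ρ₀ ≤ ρ₁) (y : Eu d) : |KK Ω ρ₀ ρ₁ y| ≤ M / ρ₀ ^ d * ZZ d 0 := by
  have m0 : 0 ≤ M := (abs_nonneg _).trans (hM 0)
  have z0 := ZZ_pos d
  rcases le_or_gt ‖y‖ ρ₀ with h | h
  · rw [KK, ZZ_one d ((div_le_one (by linarith)).2 (h.trans h1)), ZZ_one d ((div_le_one h0).2 h),
      sub_self, mul_zero, abs_zero]
    positivity
  · rw [KK, abs_mul, abs_div, abs_pow, abs_norm]
    have a1 := ZZ_nonneg d (‖y‖ / ρ₁)
    have a2 := ZZ_nonneg d (‖y‖ / ρ₀)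
    have a3 := ZZ_anti d (div_nonneg (norm_nonneg y) (h0.le.trans h1))
    have a4 := ZZ_anti d (div_nonneg (norm_nonneg y) h0.le)
    have a5 : |ZZ d (‖y‖ / ρ₁) - ZZ d (‖y‖ / ρ₀)| ≤ ZZ d 0 := abs_le.2 ⟨by linarith, by linarith⟩
    have := hM y
    gcongr

lemma KK_int {d : ℕ} {Ω : Eu d → ℝ} (hΩ : Measurable Ω) {M : ℝ} (hM : ∀ x, |Ω x| ≤ M)
    {ρ₀ ρ₁ : ℝ} (h0 : 0 < ρ₀) (h1 : ρ₀ ≤ ρ₁) : Integrable (KK Ω ρ₀ ρ₁) := by
  refine (integrableOn_iff_integrable_of_support_subset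
    (s := Metric.ball 0 (4 * ρ₁)) fun y hy => ?_).1 (Measure.integrableOn_of_bounded
      measure_ball_lt_top.ne (KK_meas hΩ _ _).aestronglyMeasurable
      (Filter.Eventually.of_forall (KK_bound hM h0 h1)))
  by_contra h
  rw [mem_ball_zero_iff, not_lt] at h
  refine hy ?_
  rw [KK, ZZ_zero d ((le_div_iff₀ (by linarith)).2 h),
    ZZ_zero d ((le_div_iff₀ h0).2 (by linarith)), sub_self, mul_zero]

lemma KK_mid {d : ℕ} (Ω : Eu d → ℝ) {ρ₀ ρ₁ : ℝ} (h0 : 0 < ρ₀) {y : Eu d} (h1 : 4 * ρ₀ ≤ ‖y‖)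
    (h2 : ‖y‖ ≤ ρ₁) : KK Ω ρ₀ ρ₁ y = Ω y / ‖y‖ ^ d * ZZ d 0 := by
  rw [KK, ZZ_one d ((div_le_one (by linarith)).2 h2), ZZ_zero d ((le_div_iff₀ h0).2 h1), sub_zero]

end Pool.Agent.P.MP_70f35d_an
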