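import Mathlib

set_option autoImplicit false
open MeasureTheory

namespace Pool.Agent.P.MP_70f35d_an

abbrev Eu (d : ℕ) : Type := EuclideanSpace ℝ (Fin d)

/-- smooth cutoff, `1` on `τ ≤ 1`, `0` on `τ ≥ 2` -/
noncomputable def cut (τ : ℝ) : ℝ := Real.smoothTransition (2 - τ)

/-- smooth density in the dilation parameter, supported in `[1/2, 2]` -/
noncomputable def aa (d : ℕ) (τ : ℝ) : ℝ := (cut τ - cut (2 * τ)) * (τ ^ (d + 1))⁻¹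

/-- dilation average of a rough kernel -/
noncomputable def dil {d : ℕ} (a : ℝ → ℝ) (k : Eu d → ℝ) (y : Eu d) : ℝ :=
  ∫ τ : ℝ, a τ * k (τ⁻¹ • y)

/-- the kernel at scale `r` -/
noncomputable def Kr {d : ℕ} (k : Eu d → ℝ) (r : ℝ) (y : Eu d) : ℝ :=
  (r ^ d)⁻¹ * dil (aa d) k (r⁻¹ • y)

/-- sum of the kernels at scales `2^j`, `j0 ≤ j < j1` -/
noncomputable def Ksum {d : ℕ} (k : Eu d → ℝ) (j0 j1 : ℕ) (y : Eu d) : ℝ :=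
  ∑ j ∈ Finset.Ico j0 j1, Kr k (2 ^ j) y

/-- step function on unit lattice cubes -/
noncomputable def stp {d : ℕ} (u : (Fin d → ℤ) → ℝ) (x : Eu d) : ℝ := u fun i => ⌊x i⌋

/-- The single scale decay estimate. -/
def SeegerStmt (d : ℕ) : Prop :=
  ∀ (a : ℝ → ℝ), ContDiff ℝ (⊤ : ℕ∞) a → (∀ τ, a τ ≠ 0 → 1 / 2 ≤ τ ∧ τ ≤ 2) →
  ∀ C1 V : ℝ, 0 ≤ C1 → 0 ≤ V → ∃ C : ℝ, 0 ≤ C ∧
    ∀ (k : Eu d → ℝ) (M : ℝ), Measurable k → (∀ y, |k y| ≤ M) → (∀ y, k y ≠ 0 → ‖y‖ ≤ 2) →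
    ∀ κ : ℝ, 0 < κ → κ ≤ 1 →
    ∀ (ι : Type) [Fintype ι] (Q : ι → Set (Eu d)) (c : ι → Eu d) (q B : ℝ) (μ : ι → Eu d → ℝ),
      0 < q → (∀ i, MeasurableSet (Q i)) → Pairwise (fun i j => Disjoint (Q i) (Q j)) →
      (∀ i, volume (Q i) = ENNReal.ofReal q) →
      (∀ i, ∀ y ∈ Q i, ‖y - c i‖ ≤ C1 * κ ^ (2 * d + 4)) →
      (Fintype.card ι : ℝ) * q ≤ V →
      (∀ i, Measurable (μ i)) → (∀ i y, |μ i y| ≤ B) → (∀ i y, μ i y ≠ 0 → y ∈ Q i) →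
      (∀ i, ∫ y, μ i y = 0) →
      ∫ x, (∫ y, dil a k y * ∑ i, μ i (x - y)) ^ 2 ≤ C * M ^ 2 * κ * ∑ i, (∫ y, |μ i y|) ^ 2 / q

/-- The estimate for lattice step functions and lattice weights. -/
def LatticeStmt (d : ℕ) : Prop :=
  ∃ C : ℝ, 0 < C ∧
    ∀ (k : Eu d → ℝ) (M : ℝ), Measurable k → (∀ y, |k y| ≤ M) → (∀ y, k y ≠ 0 → ‖y‖ ≤ 2) →
    (∫ y, k y) = 0 →
    ∀ (σ w : (Fin d → ℤ) → ℝ) (A : ℝ), (∀ a, 0 < σ a) → (∀ a, 0 < w a) → (∀ a, 1 ≤ σ a * w a) →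
    (∀ (o : Fin d → ℤ) (m : ℕ),
      (∑ a : Fin d → Fin (2 ^ m), σ fun i => o i + (a i : ℕ)) *
        (∑ a : Fin d → Fin (2 ^ m), w fun i => o i + (a i : ℕ)) ≤ A * (((2 : ℝ) ^ m) ^ d) ^ 2) →
    ∀ (j0 j1 : ℕ) (s : Finset (Fin d → ℤ)) (u v : (Fin d → ℤ) → ℝ),
      (∀ a, u a ≠ 0 → a ∈ s) → (∀ a, v a ≠ 0 → a ∈ s) →
      |∫ x, (∫ y, Ksum k j0 j1 y * stp u (x - y)) * stp v x| ≤
        C * M * (A ^ (3 / 2 : ℝ) * (1 + Real.log A) ^ 2) *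
          √(∑ a ∈ s, u a ^ 2 / σ a) * √(∑ a ∈ s, v a ^ 2 / w a)

/-- The final statement. -/
def FinalStmt (d : ℕ) : Prop :=
  ∃ C : ℝ, 0 < C ∧
      ∀ (Ω : EuclideanSpace ℝ (Fin d) → ℝ) (M : ℝ),
        Measurable Ω →
        (∀ x, |Ω x| ≤ M) →
        (∀ x, ∀ t : ℝ, 0 < t → Ω (t • x) = Ω x) →
        (∫ y in {y : EuclideanSpace ℝ (Fin d) | 1 ≤ ‖y‖ ∧ ‖y‖ ≤ 2}, Ω y) = 0 →
        ∀ (w : EuclideanSpace ℝ (Fin d) → ℝ) (A : ℝ),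
          (∀ x, 0 < w x) →
          (∀ (x : EuclideanSpace ℝ (Fin d)) (r : ℝ), 0 < r →
            IntegrableOn w (Metric.ball x r) ∧
            IntegrableOn (fun y => (w y)⁻¹) (Metric.ball x r) ∧
            (∫ y in Metric.ball x r, w y) * (∫ y in Metric.ball x r, (w y)⁻¹)
              ≤ A * (volume (Metric.ball x r)).toReal ^ 2) →
          ∀ (f : EuclideanSpace ℝ (Fin d) → ℝ),
            ContDiff ℝ (⊤ : ℕ∞) f → HasCompactSupport f →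
            ∀ (T : EuclideanSpace ℝ (Fin d) → ℝ),
              (∀ x, Filter.Tendsto
                (fun ε : ℝ => ∫ y in {y : EuclideanSpace ℝ (Fin d) | ε < ‖y‖},
                  f (x - y) * Ω y / ‖y‖ ^ d)
                (nhdsWithin 0 (Set.Ioi 0)) (nhds (T x))) →
              ∫⁻ x, ENNReal.ofReal ((T x) ^ 2 * w x)
                ≤ ENNReal.ofReal ((C * M * (A ^ (3 / 2 : ℝ) * (1 + Real.log A) ^ 2)) ^ 2) *
                  ∫⁻ x, ENNReal.ofReal ((f x) ^ 2 * w x)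

end Pool.Agent.P.MP_70f35d_an
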