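import Pool.Agent.P.MP_70f35d_an.Conv

set_option autoImplicit false
open MeasureTheory

namespace Pool.Agent.P.MP_70f35d_an
namespace SG

variable {d : ℕ} {f g K : Eu d → ℝ}

def Lip (c : ℝ) (f : Eu d → ℝ) : Prop := ∀ x y, |f x - f y| ≤ c * ‖x - y‖

lemma Lip.cv {c : ℝ} (hK : Nice K) (hf : Nice f) (h : Lip c f) : Lip ((∫ y, |K y|) * c) (cv K f) := by
  intro x x'
  simp only [SG.cv]
  rw [← integral_sub (hK.mul (hf.flip x)).integrable (hK.mul (hf.flip x')).integrable, mul_assoc]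
  simp only [← mul_sub]
  exact int_mul_le hK.integrable fun y => (h _ _).trans_eq (by rw [sub_sub_sub_cancel_right])

lemma Lip.mono {c c' : ℝ} (h : Lip c f) (hc : c ≤ c') : Lip c' f := fun x y =>
  (h x y).trans (mul_le_mul_of_nonneg_right hc (norm_nonneg _))

/-- constant -/
noncomputable def cL (d : ℕ) : ℝ := (32 * d + 2) * cS d

lemma see_of_lip {c a : ℝ} (hf : Nice f) (hs : ∀ y, f y ≠ 0 → ‖y‖ ≤ 8) (hc : 0 ≤ c) (a0 : 0 ≤ a)
    (a1 : a ≤ 1) (hb : ∀ y, |f y| ≤ c * a ^ 2) (hl : Lip c f) :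
    See (c * cL d * a) f ∧ See (c * cL d * a) (rf f) ∧ ∀ y, |f y| ≤ c * cL d * a := by
  have hd : (0 : ℝ) ≤ d := Nat.cast_nonneg d
  have hb' : ∀ y, |f y| ≤ c * (32 * d + 2) * a := fun y => (hb y).trans (by
    rw [mul_assoc]; exact mul_le_mul_of_nonneg_left (by nlinarith) hc)
  have hm : ∀ κ : ℝ, 0 < κ → ∀ x y, ‖x - y‖ ≤ 32 * d * κ ^ 2 →
      |f x - f y| ≤ c * (32 * d + 2) * a * κ := fun κ hκ x y h => by
    have h1 : |f x - f y| ≤ c * (32 * d + 2) * a ^ 2 := by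
      have := mul_nonneg hd (mul_nonneg hc (sq_nonneg a))
      linarith [abs_sub (f x) (f y), hb x, hb y]
    have h2 : |f x - f y| ≤ c * (32 * d + 2) * κ ^ 2 := by
      have := mul_nonneg hc (sq_nonneg κ)
      linarith [hl x y, mul_le_mul_of_nonneg_left h hc]
    refine abs_le_of_sq_le_sq' ?_ (by positivity) |>.2
    calc _ = |f x - f y| * |f x - f y| := sq _
      _ ≤ _ := mul_le_mul h1 h2 (abs_nonneg _) (by positivity)
      _ = _ := by ring
  have e : c * cL d * a = c * (32 * d + 2) * a * cS d := by rw [cL]; ring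
  rw [e]
  refine ⟨see_of_mod hf hs hb' hm, see_of_mod hf.rf (fun y hy => by simpa using hs _ hy)
    (fun y => hb' _) fun κ hκ x y h => hm κ hκ _ _ (by rwa [neg_sub_neg, norm_sub_rev]),
    fun y => (hb' y).trans (le_mul_of_one_le_right (by positivity) (one_le_cS d))⟩

structure Bump (c : ℝ) (η : Eu d → ℝ) : Prop where
  nice : Nice η
  supp : ∀ y, η y ≠ 0 → ‖y‖ ≤ 1
  int : ∫ y, η y = 1
  bdd : ∀ y, |η y| ≤ c
  lip : Lip c η

lemma exists_bump (d : ℕ) : ∃ (c : ℝ) (η : Eu d → ℝ), Bump c η := by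
  let φ : ContDiffBump (0 : Eu d) := ⟨1 / 2, 1, by norm_num, by norm_num⟩
  have h1 : ContDiff ℝ 1 (φ.normed volume) := φ.contDiff_normed
  obtain ⟨L, hL⟩ := h1.lipschitzWith_of_hasCompactSupport φ.hasCompactSupport_normed one_ne_zero
  obtain ⟨B, hB⟩ := h1.continuous.bounded_above_of_compact_support φ.hasCompactSupport_normed
  have hs : ∀ y, φ.normed volume y ≠ 0 → ‖y‖ ≤ 1 := fun y hy => by
    have : y ∈ Function.support (φ.normed volume) := hy
    rw [φ.support_normed_eq, mem_ball_zero_iff] at this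
    exact this.le
  refine ⟨max B L, φ.normed volume, ⟨h1.continuous.measurable, ⟨B, hB⟩, 1, hs⟩, hs,
    φ.integral_normed, fun y => (hB y).trans (le_max_left _ _), Lip.mono (fun x y => ?_)
    (le_max_right _ _)⟩
  simpa only [dist_eq_norm, Real.norm_eq_abs] using hL.dist_le_mul x y

/-- combination of two neighbouring scales -/
noncomputable def lc (b : ℝ) (η : Eu d → ℝ) (z : Eu d) : ℝ := 1 * η z + b * Dl 2 η z

lemma Bump.lc {c b : ℝ} {η : Eu d → ℝ} (h : Bump c η) (hb : |b| = 1) :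
    Nice (lc b η) ∧ (∀ y, lc b η y ≠ 0 → ‖y‖ ≤ 2) ∧ ∫ y, lc b η y = 1 + b ∧
      (∀ y, |lc b η y| ≤ 2 * c) ∧ Lip (2 * c) (lc b η) := by
  have hc : 0 ≤ c := (abs_nonneg _).trans (h.bdd 0)
  have h2 : |((2 : ℝ) ^ d)⁻¹| ≤ 1 := by
    rw [abs_of_pos (by positivity)]; exact inv_le_one_of_one_le₀ (one_le_pow₀ one_le_two)
  have n2 := h.nice.Dl two_pos
  refine ⟨(h.nice.cmul 1).add (n2.cmul b), fun y hy => ?_, ?_, fun y => ?_, fun x y => ?_⟩
  · by_cases h0 : η y = 0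
    · have : η ((2 : ℝ)⁻¹ • y) ≠ 0 := fun e => hy (by simp [SG.lc, Dl, h0, e])
      simpa using supp_smul two_pos h.supp this
    · linarith [h.supp y h0]
  · simp only [SG.lc]
    rw [integral_add (h.nice.cmul 1).integrable (n2.cmul b).integrable, integral_const_mul,
      integral_const_mul, int_Dl two_pos, h.int]
    ring
  · refine (abs_add_le _ _).trans ?_
    rw [one_mul, abs_mul, hb, one_mul, Dl, abs_mul]
    linarith [h.bdd y, mul_le_mul h2 (h.bdd ((2 : ℝ)⁻¹ • y)) (abs_nonneg _) zero_le_one]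
  · have e : SG.lc b η x - SG.lc b η y = (η x - η y) +
        b * ((2 ^ d)⁻¹ * (η ((2 : ℝ)⁻¹ • x) - η ((2 : ℝ)⁻¹ • y))) := by
      simp only [SG.lc, Dl]; ring
    have h3 := h.lip ((2 : ℝ)⁻¹ • x) ((2 : ℝ)⁻¹ • y)
    rw [← smul_sub, norm_smul, norm_inv, Real.norm_ofNat] at h3
    rw [e]
    refine (abs_add_le _ _).trans ?_
    rw [abs_mul, hb, one_mul, abs_mul]
    have := mul_nonneg hc (norm_nonneg (x - y))
    linarith [h.lip x y, mul_le_mul h2 h3 (abs_nonneg _) zero_le_one]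

lemma dens_aa (d : ℕ) : Dens (aa d) := by
  have hc : ContDiff ℝ (⊤ : ℕ∞) cut :=
    Real.smoothTransition.contDiff.comp (contDiff_const.sub contDiff_id)
  have h0 : ∀ τ : ℝ, τ < 1 / 2 → aa d τ = 0 := fun τ h => by
    rw [aa, cut_one (by linarith), cut_one (by linarith), sub_self, zero_mul]
  refine ⟨contDiff_iff_contDiffAt.2 fun τ => ?_, fun τ h => ⟨not_lt.1 fun h' => h (h0 τ h'),
    not_lt.1 fun h' => h ?_⟩⟩
  · rcases lt_or_ge τ (1 / 2) with h | h
    · exact contDiffAt_const.congr_of_eventuallyEq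
        ((eventually_lt_nhds h).mono fun σ hσ => h0 σ hσ)
    · exact (hc.sub (hc.comp (contDiff_const.mul contDiff_id))).contDiffAt.mul
        ((contDiffAt_id.pow _).inv (pow_ne_zero _ (by simp only [id]; linarith)))
  · rw [aa, cut_zero h'.le, cut_zero (by linarith), sub_self, zero_mul]

lemma int_dil {a : ℝ → ℝ} (ha : Dens a) {k : Eu d → ℝ} (hk : Nice k) (h0 : ∫ y, k y = 0) :
    ∫ y, dil a k y = 0 := by
  have h := ft_dil ha hk 0
  simp only [ft_eq, inner_zero_right, neg_zero, AddChar.map_zero_eq_one, Circle.coe_one, one_mul,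
    integral_mul_const, integral_complex_ofReal, h0] at h
  simpa using h

theorem kernels (d : ℕ) (hS : SeegerStmt d) : ∃ (η : Eu d → ℝ) (c0 c1 : ℝ), 0 < c1 ∧ Nice η ∧
    ∀ (k : Eu d → ℝ) (M : ℝ), Measurable k → (∀ y, |k y| ≤ M) → (∀ y, k y ≠ 0 → ‖y‖ ≤ 2) →
      (∫ y, k y) = 0 → Pr c0 (c1 * M) 1 (fun z => (-1) * cv η η z) (dil (aa d) k) ∧
      ∀ m : ℕ, Pr c0 (c1 * M * (3 / 4) ^ m) 0 (lc (-1) η)
        (cv (Dl (2 ^ m)⁻¹ (dil (aa d) k)) (lc 1 η)) := by
  obtain ⟨c, η, hη⟩ := exists_bump d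
  have ha := dens_aa d
  obtain ⟨C, hC0, hC⟩ := hS (aa d) ha.smooth ha.supp (32 * d) (32 ^ d) (by positivity)
    (by positivity)
  have hc : 0 ≤ c := (abs_nonneg _).trans (hη.bdd 0)
  have hv := vb_nonneg d
  have hL : 0 ≤ cL d := by have := one_le_cS d; unfold cL; positivity
  set a1 := ∫ τ, |aa d τ| with ha1
  have a0 : 0 ≤ a1 := integral_nonneg fun _ => abs_nonneg _
  set e1 := ∫ y, |η y| with he1
  have e0 : 0 ≤ e1 := integral_nonneg fun _ => abs_nonneg _
  obtain ⟨p1, p2, p3, p4, p5⟩ := hη.lc (b := 1) abs_one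
  obtain ⟨q1, q2, q3, q4, q5⟩ := hη.lc (b := -1) (by simp)
  have n1 : Nice fun z => (-1) * cv η η z := (hη.nice.cv hη.nice).cmul _
  have s1 : ∀ y, (-1) * cv η η y ≠ 0 → ‖y‖ ≤ 8 := fun y hy => by
    linarith [cv_supp hη.supp hη.supp y (right_ne_zero_of_mul hy)]
  obtain ⟨r1, -, r3⟩ := see_of_lip (c := e1 * c) n1 s1 (by positivity) zero_le_one le_rfl
    (fun y => by simpa using abs_cv_le hη.nice hη.bdd y) fun x y => by
      rw [← mul_sub, abs_mul]; simpa using hη.lip.cv hη.nice hη.nice x y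
  obtain ⟨t1, -, t3⟩ := see_of_lip (c := 2 * c) q1 (fun y hy => by linarith [q2 y hy])
    (by positivity) zero_le_one le_rfl (fun y => by simpa using q4 y) q5
  have u1 : 0 ≤ e1 * c * cL d * 1 := by positivity
  have u2 : 0 ≤ 2 * c * cL d * 1 := by positivity
  set c2 := a1 * (4 ^ d * vb d) * (8 * c) * cL d with hc2
  have u3 : 0 ≤ c2 := by positivity
  have u4 := Real.sqrt_nonneg C
  refine ⟨η, e1 * c * cL d * 1 + 2 * c * cL d * 1, √C + a1 + c2 + 1, by positivity, hη.nice, ?_⟩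
  intro k M k1 k2 k3 k4
  have hM : 0 ≤ M := (abs_nonneg _).trans (k2 0)
  have hk : Nice k := ⟨k1, ⟨M, k2⟩, 2, k3⟩
  have hK := hk.dil ha
  have K1 : ∀ y, |dil (aa d) k y| ≤ a1 * M := fun y => by
    rw [ha1, ← integral_mul_const, ← Real.norm_eq_abs]
    refine norm_integral_le_of_norm_le (ha.integrable.abs.mul_const M)
      (Filter.Eventually.of_forall fun τ => ?_)
    rw [Real.norm_eq_abs, abs_mul]
    exact mul_le_mul_of_nonneg_left (k2 _) (abs_nonneg _)
  have K2 : ∀ y, dil (aa d) k y ≠ 0 → ‖y‖ ≤ 4 := fun y hy => by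
    by_contra hn
    refine hy (integral_eq_zero_of_ae (Filter.Eventually.of_forall fun τ => ?_))
    by_contra hτ
    exact hn ((dil_supp ha k3 hτ).trans_eq (by norm_num))
  have K3 := int_dil ha hk k4
  have K4 : ∀ k' : Eu d → ℝ, Measurable k' → (∀ y, |k' y| ≤ M) → (∀ y, k' y ≠ 0 → ‖y‖ ≤ 2) →
      See ((√C + a1 + c2 + 1) * M) (dil (aa d) k') := fun k' h1 h2 h3 => by
    refine See.mono (c := √C * M) (fun κ => ?_) (by rw [abs_of_nonneg (by positivity)]; nlinarith)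
    rw [mul_pow, Real.sq_sqrt hC0]
    exact hC k' M h1 h2 h3 κ
  refine ⟨⟨abs_one.le, n1, hK, s1, fun y hy => by linarith [K2 y hy], fun y => by linarith [r3 y],
    fun y => (K1 y).trans (by nlinarith), ?_, K3, r1.mono (by rw [abs_of_nonneg u1]; linarith),
    K4 k k1 k2 k3, ?_⟩, fun m => ?_⟩
  · rw [integral_const_mul, int_cv hη.nice hη.nice, hη.int]; ring
  · have e : rf (dil (aa d) k) = dil (aa d) (rf k) := by funext y; simp only [rf, dil, smul_neg]
    rw [e]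
    exact K4 _ hk.rf.meas (fun y => k2 _) fun y hy => by simpa using k3 _ hy
  · have hρ : (0 : ℝ) < (2 ^ m)⁻¹ := by positivity
    have hρ1 : ((2 : ℝ) ^ m)⁻¹ ≤ ((3 / 4) ^ m) ^ 2 := by
      rw [← inv_pow, ← pow_mul, mul_comm, pow_mul]
      exact pow_le_pow_left₀ (by norm_num) (by norm_num) m
    have ha' : ((3 : ℝ) / 4) ^ m ≤ 1 := pow_le_one₀ (by norm_num) (by norm_num)
    have hρ2 : ((2 : ℝ) ^ m)⁻¹ ≤ 1 := inv_le_one_of_one_le₀ (one_le_pow₀ one_le_two)
    have nD := hK.Dl hρ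
    have sD : ∀ y, Dl (2 ^ m)⁻¹ (dil (aa d) k) y ≠ 0 → ‖y‖ ≤ (2 ^ m)⁻¹ * 4 := fun y hy =>
      supp_smul hρ K2 (right_ne_zero_of_mul hy)
    have iD : ∫ y, Dl (2 ^ m)⁻¹ (dil (aa d) k) y = 0 := by rw [int_Dl hρ, K3]
    have aD : ∫ y, |Dl (2 ^ m)⁻¹ (dil (aa d) k) y| ≤ a1 * M * (4 ^ d * vb d) := by
      rw [int_abs_Dl hρ]; exact int_abs_le (by norm_num) K1 K2
    have sA : ∀ y, cv (Dl (2 ^ m)⁻¹ (dil (aa d) k)) (lc 1 η) y ≠ 0 → ‖y‖ ≤ 8 := fun y hy => by
      linarith [cv_supp sD p2 y hy]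
    obtain ⟨w1, w2, w3⟩ := see_of_lip (c := a1 * M * (4 ^ d * vb d) * (8 * c))
      (a := (3 / 4) ^ m) (nD.cv p1) sA (by positivity) (by positivity) ha'
      (fun x => by
        refine (abs_cv_mean nD p1 iD (lc 1 η x) (B := 8 * c * ((3 / 4) ^ m) ^ 2) (by positivity)
          fun y hy => (p5 _ _).trans ?_).trans ?_
        · rw [sub_sub_cancel_left, norm_neg]
          nlinarith [mul_le_mul_of_nonneg_left ((sD y hy).trans
            (mul_le_mul_of_nonneg_right hρ1 (by norm_num))) hc]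
        · rw [mul_assoc (a1 * M * _)]
          exact mul_le_mul_of_nonneg_right aD (by positivity))
      ((p5.cv nD p1).mono (mul_le_mul aD (by linarith) (by positivity) (by positivity)))
    have hle : a1 * M * (4 ^ d * vb d) * (8 * c) * cL d * (3 / 4) ^ m ≤
        (√C + a1 + c2 + 1) * M * (3 / 4) ^ m := by
      refine mul_le_mul_of_nonneg_right ?_ (by positivity)
      have : a1 * M * (4 ^ d * vb d) * (8 * c) * cL d = c2 * M := by rw [hc2]; ring
      nlinarith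
    have hle' := (abs_of_nonneg (by positivity)).trans_le hle
    exact ⟨by simp, q1, nD.cv p1, fun y hy => by linarith [q2 y hy], sA, fun y => by linarith [t3 y],
      fun y => (w3 y).trans hle, by rw [q3]; ring, by rw [int_cv nD p1, iD, zero_mul],
      t1.mono (by rw [abs_of_nonneg u2]; linarith), w1.mono hle', w2.mono hle'⟩

end SG
end Pool.Agent.P.MP_70f35d_an
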