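import Pool.Agent.P.MP_70f35d_an.LWt

set_option autoImplicit false
open MeasureTheory Filter Topology Metric

namespace Pool.Agent.P.MP_70f35d_an.Low

variable {d : ℕ}

noncomputable def bump (d : ℕ) : ContDiffBump (0 : Eu d) := ⟨1 / 2, 1, by norm_num, by norm_num⟩

noncomputable def m0 (d : ℕ) : ℝ := ∫ x, bump d x

lemma m0_pos (d : ℕ) : 0 < m0 d := (bump d).integral_pos

noncomputable def f0 (L : ℕ) (x : Eu d) : ℝ :=
  (∑ k ∈ Finset.Ico L (2 * L), ((2 : ℝ) ^ k) ^ d * bump d ((2 : ℝ) ^ k • x)) / L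

lemma f0_smooth (L : ℕ) : ContDiff ℝ (⊤ : ℕ∞) (f0 L : Eu d → ℝ) :=
  (ContDiff.sum fun _ _ => contDiff_const.mul
    ((bump d).contDiff.comp (contDiff_id.const_smul _))).div_const _

lemma f0_nonneg (L : ℕ) (x : Eu d) : 0 ≤ f0 L x :=
  div_nonneg (Finset.sum_nonneg fun _ _ => mul_nonneg (by positivity) (bump d).nonneg)
    (Nat.cast_nonneg L)

lemma f0_le (L : ℕ) (x : Eu d) : f0 L x ≤ G L (2 * L) x / L := by
  refine div_le_div_of_nonneg_right (Finset.sum_le_sum fun k _ =>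
    mul_le_mul_of_nonneg_left ?_ (by positivity)) (Nat.cast_nonneg L)
  by_cases h : ‖x‖ < (1 / 2) ^ k
  · rw [I_of h]; exact (bump d).le_one
  · rw [I_not h]
    refine ((bump d).zero_of_le_dist ?_).le
    rw [dist_zero_right, norm_smul, Real.norm_of_nonneg (by positivity)]
    rw [one_div_pow, not_lt, div_le_iff₀' (by positivity)] at h
    exact h

lemma f0_ne {L : ℕ} {x : Eu d} (h : f0 L x ≠ 0) : ‖x‖ < (1 / 2) ^ L :=
  G_ne (b := 2 * L) fun h' => h (le_antisymm ((f0_le L x).trans_eq (by rw [h', zero_div]))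
    (f0_nonneg L x))

lemma f0_int (L : ℕ) : Integrable (f0 L : Eu d → ℝ) :=
  (integrable_finsetSum _ fun _ _ => ((bump d).integrable.comp_smul (by positivity)).const_mul _
    ).div_const _

lemma int_f0 {L : ℕ} (hL : 1 ≤ L) : ∫ x : Eu d, f0 L x = m0 d := by
  have e : ∀ k ∈ Finset.Ico L (2 * L),
      ∫ x : Eu d, ((2 : ℝ) ^ k) ^ d * bump d ((2 : ℝ) ^ k • x) = m0 d := fun k _ => by
    rw [integral_const_mul, Measure.integral_comp_smul volume (bump d), finrank_euclideanSpace_fin,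
      abs_of_pos (by positivity), smul_eq_mul, mul_inv_cancel_left₀ (by positivity)]; rfl
  unfold f0
  rw [integral_div, integral_finsetSum _ fun _ _ =>
    ((bump d).integrable.comp_smul (by positivity)).const_mul _, Finset.sum_congr rfl e,
    Finset.sum_const, Nat.card_Ico, show 2 * L - L = L by omega, nsmul_eq_mul,
    mul_div_cancel_left₀ _ (by exact_mod_cast (by omega : L ≠ 0))]

noncomputable def ff (L : ℕ) (S : Finset (Fin d → ℤ)) (x : Eu d) : ℝ := ∑ p ∈ S, f0 L (x - pt 1 p)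

lemma ff_smooth (L : ℕ) (S : Finset (Fin d → ℤ)) : ContDiff ℝ (⊤ : ℕ∞) (ff L S) :=
  ContDiff.sum fun _ _ => (f0_smooth L).comp (contDiff_id.sub contDiff_const)

lemma ff_ne {L : ℕ} {S : Finset (Fin d → ℤ)} {x : Eu d} (h : ff L S x ≠ 0) :
    ∃ p ∈ S, ‖x - pt 1 p‖ < (1 / 2) ^ L := by
  obtain ⟨p, hp, h'⟩ := Finset.exists_ne_zero_of_sum_ne_zero h
  exact ⟨p, hp, f0_ne h'⟩

lemma ff_supp (L : ℕ) (S : Finset (Fin d → ℤ)) : HasCompactSupport (ff L S) := by
  refine HasCompactSupport.intro (S.isCompact_biUnion fun p _ => isCompact_closedBall (pt 1 p) 1)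
    fun x hx => by_contra fun h => hx ?_
  obtain ⟨p, hp, h'⟩ := ff_ne h
  exact Set.mem_biUnion hp (mem_closedBall_iff_norm.2
    (h'.le.trans (pow_le_one₀ (by norm_num) (by norm_num))))

lemma ff_nonneg (L : ℕ) (S : Finset (Fin d → ℤ)) (x : Eu d) : 0 ≤ ff L S x :=
  Finset.sum_nonneg fun _ _ => f0_nonneg _ _

lemma ff_int (L : ℕ) (S : Finset (Fin d → ℤ)) : Integrable (ff L S) :=
  integrable_finsetSum _ fun _ _ => (f0_int L).comp_sub_right _

lemma int_ff {L : ℕ} (hL : 1 ≤ L) (S : Finset (Fin d → ℤ)) : ∫ x, ff L S x = S.card * m0 d := by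
  unfold ff
  rw [integral_finsetSum _ fun _ _ => (f0_int L).comp_sub_right _]
  simp [integral_sub_right_eq_self (f0 L), int_f0 hL]

lemma GS_zero {K L : ℕ} (hL : 2 ≤ L) {S : Finset (Fin d → ℤ)} {p : Fin d → ℤ} (hp : p ∉ S)
    {x : Eu d} (h : ‖x - pt 1 p‖ < (1 / 2) ^ L) : GS 2 K S x = 0 := by
  refine Finset.sum_eq_zero fun b hb => by_contra fun h' => hp ((pt_sep (a := b) (b := p) ?_) ▸ hb)
  have := G_ne h'
  have := norm_sub_le_norm_sub_add_norm_sub (pt 1 b) x (pt 1 p)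
  have := norm_sub_rev x (pt 1 b)
  have : (1 / 2 : ℝ) ^ L ≤ (1 / 2) ^ 2 := pow_le_pow_of_le_one (by norm_num) (by norm_num) hL
  linarith

lemma ff_sq {L : ℕ} (hL : 2 ≤ L) {SE SF : Finset (Fin d → ℤ)} (hd : Disjoint SE SF) (x : Eu d) :
    ff L SE x ^ 2 * wt L SE SF x ≤ ff L SE x := by
  by_cases h : ff L SE x = 0
  · simp [h]
  obtain ⟨p, hp, h'⟩ := ff_ne h
  have h1 : ff L SE x ≤ GS 2 (2 * L) SE x / L := by
    rw [GS, Finset.sum_div]
    exact Finset.sum_le_sum fun p _ => (f0_le L _).trans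
      (div_le_div_of_nonneg_right (G_mono hL _ _) (Nat.cast_nonneg L))
  have h2 := ff_nonneg L SE x
  rw [wt, GS_zero hL (Finset.disjoint_left.1 hd hp) h', add_zero, mul_one_div,
    div_le_iff₀ (by linarith), sq]
  exact mul_le_mul_of_nonneg_left (by linarith) h2

noncomputable def box (d n : ℕ) : Finset (Fin d → ℤ) := Fintype.piFinset fun _ => Finset.Ico 0 (2 ^ n)

lemma card_box (d n : ℕ) : ((box d n).card : ℝ) = (2 ^ n) ^ d := by
  have : (2 ^ n : ℤ).toNat = 2 ^ n := by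
    rw [show (2 ^ n : ℤ) = ((2 ^ n : ℕ) : ℤ) by push_cast; rfl, Int.toNat_natCast]
  simp [box, this]

def emb (θ : Fin d → ℤ) : (Fin d → ℤ) ↪ (Fin d → ℤ) :=
  ⟨fun a l => 2 * a l + θ l, fun a b h => funext fun l => by
    have : 2 * a l + θ l = 2 * b l + θ l := congrFun h l
    omega⟩

lemma emb_apply (θ a : Fin d → ℤ) (l : Fin d) : emb θ a l = 2 * a l + θ l := rfl

lemma lat_sum (i : Fin d) {n : ℕ} {a : Fin d → ℤ} (ha : a ∈ box d n) :
    n / (8 * d) ^ d ≤ ∑ b ∈ box d (n + 1),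
      ((‖pt 1 (emb (Pi.single i 1) a) - pt 1 (emb 0 b)‖ + 1) ^ d)⁻¹ := by
  classical
  have hd : (1 : ℝ) ≤ d := by exact_mod_cast i.pos
  set B : ℕ → Finset (Fin d → ℤ) := fun k =>
    Fintype.piFinset fun l => Finset.Ico (a l + 2 ^ k) (a l + 2 ^ (k + 1)) with hB
  have hm : ∀ {k l : ℕ}, k < l → (2 : ℤ) ^ (k + 1) ≤ 2 ^ l := fun h => pow_le_pow_right₀ one_le_two h
  refine le_trans ?_ (Finset.sum_le_sum_of_subset_of_nonneg (s := (Finset.range n).biUnion B)
    (fun b hb => ?_) fun _ _ _ => by positivity)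
  · rw [Finset.sum_biUnion]
    · refine le_trans (le_of_eq ?_) (Finset.card_nsmul_le_sum _ _ ((8 * d : ℝ) ^ d)⁻¹ fun k _ => ?_)
      · simp [div_eq_mul_inv]
      refine le_trans (le_of_eq ?_) (Finset.card_nsmul_le_sum _ _ ((8 * d * 2 ^ k : ℝ) ^ d)⁻¹
        fun b hb => ?_)
      · have : (2 ^ (k + 1) - 2 ^ k : ℤ).toNat = 2 ^ k := by
          rw [show (2 ^ (k + 1) - 2 ^ k : ℤ) = ((2 ^ k : ℕ) : ℤ) by push_cast; ring,
            Int.toNat_natCast]
        simp only [hB, Fintype.card_piFinset, Int.card_Ico, add_sub_add_left_eq_sub, this,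
          Finset.prod_const, Finset.card_univ, Fintype.card_fin, nsmul_eq_mul, mul_pow (8 * d : ℝ)]
        push_cast; field_simp
      · refine inv_anti₀ (by positivity) (pow_le_pow_left₀ (by positivity) ?_ d)
        have h1 := norm_le_of_coord (x := pt 1 (emb (Pi.single i 1) a) - pt 1 (emb 0 b))
          (η := 4 * 2 ^ k) (by positivity) fun l => by
            have h2 := Finset.mem_Ico.1 (Fintype.mem_piFinset.1 hb l)
            have h3 : (0 : ℤ) < 2 ^ k := by positivity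
            have h4 : |emb (Pi.single i 1) a l - emb 0 b l| ≤ 4 * 2 ^ k := by
              rw [pow_succ] at h2
              simp only [emb_apply, Pi.single_apply, Pi.zero_apply]
              split_ifs <;> exact abs_le.2 ⟨by omega, by omega⟩
            simp only [pt, PiLp.sub_apply, one_mul]
            exact_mod_cast h4
        have h5 : (1 : ℝ) ≤ 2 ^ k := one_le_pow₀ one_le_two
        nlinarith
    · intro k _ l _ hkl
      refine Finset.disjoint_left.2 fun b h1 h2 => ?_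
      have h3 := Finset.mem_Ico.1 (Fintype.mem_piFinset.1 h1 i)
      have h4 := Finset.mem_Ico.1 (Fintype.mem_piFinset.1 h2 i)
      rcases lt_or_gt_of_ne hkl with h | h <;> have := hm h <;> omega
  · obtain ⟨k, hk, hb⟩ := Finset.mem_biUnion.1 hb
    refine Fintype.mem_piFinset.2 fun l => ?_
    have h1 := Finset.mem_Ico.1 (Fintype.mem_piFinset.1 hb l)
    have h2 := Finset.mem_Ico.1 (Fintype.mem_piFinset.1 ha l)
    have h3 := hm (Finset.mem_range.1 hk)
    have h4 : (0 : ℤ) < 2 ^ k := by positivity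
    rw [Finset.mem_Ico, pow_succ (2 : ℤ) n]
    omega

lemma T_low {i j : Fin d} (hij : i ≠ j) {n : ℕ} {a : Fin d → ℤ} (ha : a ∈ box d n) {x : Eu d}
    (hx : ‖x - pt 1 (emb (Pi.single i 1) a)‖ < (1 / 2) ^ (2 * n + 12)) {ε : ℝ} (h0 : 0 < ε)
    (h1 : ε < 1 / 2) : n / (8 * d) ^ d * m0 d ≤ ∫ y in {y : Eu d | ε < ‖y‖},
      ff (2 * n + 12) ((box d (n + 1)).map (emb 0)) (x - y) * Om i j (2 ^ (n + 3)) y / ‖y‖ ^ d := by
  have hs : MeasurableSet {y : Eu d | ε < ‖y‖} := measurableSet_lt measurable_const measurable_norm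
  set L := 2 * n + 12 with hL
  set p := pt 1 (emb (Pi.single i 1) a) with hp
  have hη : (1 / 2 : ℝ) ^ L ≤ (1 / 2) ^ 2 :=
    pow_le_pow_of_le_one (by norm_num) (by norm_num) (by omega)
  have key : ∀ b ∈ box d (n + 1), ∀ y, f0 L (x - y - pt 1 (emb 0 b)) ≠ 0 →
      Om i j (2 ^ (n + 3)) y = 1 ∧ ε < ‖y‖ ∧ ‖y‖ ≤ ‖p - pt 1 (emb 0 b)‖ + 1 := fun b hb y hy => by
    have a1 : ‖y - (p - pt 1 (emb 0 b))‖ ≤ 2 * (1 / 2) ^ L := by
      have := norm_sub_le (x - p) (x - y - pt 1 (emb 0 b))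
      rw [show x - p - (x - y - pt 1 (emb 0 b)) = y - (p - pt 1 (emb 0 b)) by abel] at this
      linarith [f0_ne hy]
    have a2 : ∀ l, |y l - ((emb (Pi.single i 1) a l - emb 0 b l : ℤ) : ℝ)| ≤ 2 * (1 / 2) ^ L :=
      fun l => by
        have := (PiLp.norm_apply_le (y - (p - pt 1 (emb 0 b))) l).trans a1
        simpa only [hp, pt, PiLp.sub_apply, one_mul, Real.norm_eq_abs, Int.cast_sub] using this
    have a3 : ∀ l, |emb (Pi.single i 1) a l - emb 0 b l| ≤ ((2 ^ (n + 3) : ℕ) : ℤ) := fun l => by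
      have h2 := Finset.mem_Ico.1 (Fintype.mem_piFinset.1 hb l)
      have h3 := Finset.mem_Ico.1 (Fintype.mem_piFinset.1 ha l)
      simp only [emb_apply, Pi.single_apply, Pi.zero_apply]
      push_cast
      simp only [pow_succ] at h2 ⊢
      split_ifs <;> exact abs_le.2 ⟨by omega, by omega⟩
    have a4 : Odd (emb (Pi.single i 1) a i - emb 0 b i) := ⟨a i - b i, by simp [emb_apply]; ring⟩
    refine ⟨Om_one a4 ⟨a j - b j, by simp [emb_apply, hij.symm]; ring⟩ (a3 i) (a3 j) (le_of_eq ?_)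
      (a2 i) (a2 j), ?_, ?_⟩
    · rw [hL, one_div_pow]; push_cast; field_simp; ring
    · have a5 : (1 : ℝ) ≤ |((emb (Pi.single i 1) a i - emb 0 b i : ℤ) : ℝ)| := by
        exact_mod_cast Int.one_le_abs (by intro h; rw [h] at a4; exact absurd a4 (by decide))
      have a6 := abs_sub (y i) (y i - ((emb (Pi.single i 1) a i - emb 0 b i : ℤ) : ℝ))
      rw [sub_sub_cancel] at a6
      have a7 : |y i| ≤ ‖y‖ := PiLp.norm_apply_le y i
      linarith [a2 i]
    · linarith [norm_sub_norm_le y (p - pt 1 (emb 0 b))]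
  have i0 : ∀ b, Integrable fun y => f0 L (x - y - pt 1 (emb 0 b)) := fun b =>
    ((f0_int L).comp_sub_right _).comp_sub_left x
  refine (mul_le_mul_of_nonneg_right (lat_sum i ha) (m0_pos d).le).trans ?_
  rw [← integral_indicator hs]
  refine le_trans (le_of_eq ?_) (integral_mono (f := fun y => ∑ b ∈ box d (n + 1),
    ((‖p - pt 1 (emb 0 b)‖ + 1) ^ d)⁻¹ * f0 L (x - y - pt 1 (emb 0 b)))
    (integrable_finsetSum _ fun b _ => (i0 b).const_mul _) ((int_far (Om_meas _ _ _) (Om_le _ _ _)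
      ((ff_int _ _).comp_sub_left x) h0).integrable_indicator hs) fun y => ?_)
  · rw [integral_finsetSum _ fun b _ => (i0 b).const_mul _, Finset.sum_mul]
    refine Finset.sum_congr rfl fun b _ => ?_
    rw [integral_const_mul, integral_sub_left_eq_self (fun z => f0 L (z - pt 1 (emb 0 b))),
      integral_sub_right_eq_self (f0 L), int_f0 (by omega)]
  · by_cases hy : ε < ‖y‖
    · rw [Set.indicator_of_mem (show y ∈ {y : Eu d | ε < ‖y‖} from hy), ff, Finset.sum_map,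
        Finset.sum_mul, Finset.sum_div]
      refine Finset.sum_le_sum fun b hb => ?_
      by_cases h : f0 L (x - y - pt 1 (emb 0 b)) = 0
      · simp [h]
      · obtain ⟨k1, -, k3⟩ := key b hb y h
        rw [k1, mul_one, div_eq_inv_mul]
        exact mul_le_mul_of_nonneg_right (inv_anti₀ (pow_pos (h0.trans hy) d)
          (pow_le_pow_left₀ (norm_nonneg _) k3 d)) (f0_nonneg _ _)
    · rw [Set.indicator_of_notMem (show y ∉ {y : Eu d | ε < ‖y‖} from hy)]
      exact le_of_eq (Finset.sum_eq_zero fun b hb => by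
        rw [by_contra fun h => hy (key b hb y h).2.1, mul_zero])

theorem lower (d : ℕ) (hd : 2 ≤ d) : ∃ c : ℝ, 0 < c ∧ ∃ A0 : ℝ, ∀ A, A0 ≤ A →
    ∃ (Ω w f T : Eu d → ℝ), Measurable Ω ∧ (∀ x, |Ω x| ≤ 1) ∧
      (∀ x, ∀ t : ℝ, 0 < t → Ω (t • x) = Ω x) ∧
      (∫ y in {y : Eu d | 1 ≤ ‖y‖ ∧ ‖y‖ ≤ 2}, Ω y) = 0 ∧ (∀ x, 0 < w x) ∧ Wt w A ∧
      ContDiff ℝ (⊤ : ℕ∞) f ∧ HasCompactSupport f ∧ (∀ x, Tendsto
        (fun ε : ℝ => ∫ y in {y : Eu d | ε < ‖y‖}, f (x - y) * Ω y / ‖y‖ ^ d) (𝓝[>] 0) (𝓝 (T x))) ∧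
      ENNReal.ofReal ((c * A ^ (3 / 2 : ℝ)) ^ 2) * ∫⁻ x, ENNReal.ofReal ((f x) ^ 2 * w x) <
        ∫⁻ x, ENNReal.ofReal ((T x) ^ 2 * w x) := by
  have o := om_pos d
  have m := m0_pos d
  have hd' : (0 : ℝ) < d := by exact_mod_cast (by omega : 0 < d)
  set κ : ℝ := (1 + 2 * 12 ^ d) ^ 2 with hκ
  have κ0 : 0 < κ := by positivity
  set γ : ℝ := m0 d * om d / (((8 * d) ^ d) ^ 2 * 2 ^ d * (16 * κ) ^ 3) with hγ
  have γ0 : 0 < γ := by positivity
  refine ⟨√γ, Real.sqrt_pos.2 γ0, 14 * κ, fun A hA => ?_⟩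
  have A0 : 0 < A := lt_of_lt_of_le (by positivity) hA
  obtain ⟨n, n1, n2, n3⟩ : ∃ n : ℕ, 1 ≤ n ∧ κ * (2 * n + 12 : ℕ) ≤ A ∧ A ≤ 16 * κ * n := by
    have h1 : 1 ≤ (A / κ - 12) / 2 := by
      have : 14 ≤ A / κ := (le_div_iff₀ κ0).2 hA
      linarith
    have h2 := Nat.floor_le (zero_le_one.trans h1)
    have h3 := Nat.lt_floor_add_one ((A / κ - 12) / 2)
    have h4 : 1 ≤ ⌊(A / κ - 12) / 2⌋₊ := Nat.floor_pos.2 h1
    have h5 : (1 : ℝ) ≤ ⌊(A / κ - 12) / 2⌋₊ := by exact_mod_cast h4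
    refine ⟨_, h4, ?_, ?_⟩
    · rw [← le_div_iff₀' κ0]; push_cast; linarith
    · rw [mul_right_comm, ← div_le_iff₀ κ0]; linarith
  set i : Fin d := ⟨0, by omega⟩
  set j : Fin d := ⟨1, by omega⟩
  have hij : i ≠ j := fun h => absurd (congrArg Fin.val h) zero_ne_one
  set L := 2 * n + 12 with hL
  set SE := (box d (n + 1)).map (emb 0) with hE
  set SF := (box d n).map (emb (Pi.single i 1)) with hF
  have dis : Disjoint SE SF := Finset.disjoint_left.2 fun p h1 h2 => by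
    obtain ⟨a, -, rfl⟩ := Finset.mem_map.1 h1
    obtain ⟨b, -, h⟩ := Finset.mem_map.1 h2
    have := congrFun h i
    simp only [emb_apply, Pi.single_eq_same, Pi.zero_apply] at this
    omega
  obtain ⟨Lp, hLp⟩ := ContDiff.lipschitzWith_of_hasCompactSupport (ff_supp L SE) (ff_smooth L SE)
    (by simp)
  choose T hT using pv_exists (by omega) (Om_meas i j (2 ^ (n + 3))) (Om_le _ _ _) (Om_rad _ _ _)
    hLp (ff_int L SE)
  refine ⟨Om i j (2 ^ (n + 3)), wt L SE SF, ff L SE, T, Om_meas _ _ _, Om_le _ _ _, Om_smul _ _ _,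
    ?_, wt_pos _ _ _, wt_A2 (by omega) dis n2, ff_smooth _ _, ff_supp _ _, hT, ?_⟩
  · rw [← Om_rad i j (2 ^ (n + 3)) fun s => I (1 ≤ s ∧ s ≤ 2), ← integral_indicator (meas_ann d)]
    congr 1; funext y
    by_cases hy : 1 ≤ ‖y‖ ∧ ‖y‖ ≤ 2
    · rw [Set.indicator_of_mem (show y ∈ {y : Eu d | 1 ≤ ‖y‖ ∧ ‖y‖ ≤ 2} from hy), I_of hy, one_mul]
    · rw [Set.indicator_of_notMem (show y ∉ {y : Eu d | 1 ≤ ‖y‖ ∧ ‖y‖ ≤ 2} from hy), I_not hy,
        zero_mul]
  set τ : ℝ := n / (8 * d) ^ d * m0 d with hτ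
  have h1 : ∀ x, τ ^ 2 * GS L (2 * L) SF x ≤ T x ^ 2 * wt L SE SF x := fun x => by
    by_cases h : GS L (2 * L) SF x = 0
    · rw [h, mul_zero]; exact mul_nonneg (sq_nonneg _) (wt_pos _ _ _ _).le
    obtain ⟨p, hp, h'⟩ := Finset.exists_ne_zero_of_sum_ne_zero h
    have h2 := G_ne h'
    have h3 := GS_zero (K := 2 * L) (by omega) (Finset.disjoint_right.1 dis hp) h2
    obtain ⟨a, ha, rfl⟩ := Finset.mem_map.1 hp
    have h4 : τ ≤ T x := ge_of_tendsto (hT x) (mem_of_superset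
      (Ioo_mem_nhdsGT (show (0 : ℝ) < 1 / 2 by norm_num)) fun ε hε => T_low hij ha h2 hε.1 hε.2)
    refine mul_le_mul (pow_le_pow_left₀ (by positivity) h4 2) ?_ (GS_nonneg _ _ _ _) (sq_nonneg _)
    rw [wt, h3, zero_div, add_zero, div_one]
    exact le_add_of_nonneg_of_le zero_le_one (Finset.sum_le_sum fun p _ => G_mono (by omega) _ _)
  refine lt_of_le_of_lt (mul_le_mul_right (lintegral_mono fun x =>
    ENNReal.ofReal_le_ofReal (ff_sq (by omega) dis x)) _)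
    (lt_of_lt_of_le ?_ (lintegral_mono fun x => ENNReal.ofReal_le_ofReal (h1 x)))
  rw [← ofReal_integral_eq_lintegral_ofReal (ff_int L SE) (Eventually.of_forall (ff_nonneg L SE)),
    ← ofReal_integral_eq_lintegral_ofReal ((GS_int _ _ _).const_mul _) (Eventually.of_forall
      fun x => mul_nonneg (sq_nonneg _) (GS_nonneg _ _ _ _)), ← ENNReal.ofReal_mul (sq_nonneg _),
    integral_const_mul, int_GS, int_ff (by omega), hE, hF, Finset.card_map, Finset.card_map,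
    card_box, card_box, show 2 * L - L = L by omega, mul_pow, Real.sq_sqrt γ0.le,
    ← Real.rpow_natCast (A ^ _), ← Real.rpow_mul A0.le,
    show (3 / 2 : ℝ) * (2 : ℕ) = (3 : ℕ) by norm_num, Real.rpow_natCast]
  have n0 : (0 : ℝ) < n := by exact_mod_cast n1
  have hnL : (n : ℝ) < L := by exact_mod_cast (by omega : n < L)
  refine (ENNReal.ofReal_lt_ofReal_iff (by positivity)).2 ?_
  calc _ ≤ γ * (16 * κ * n) ^ 3 * ((2 ^ (n + 1)) ^ d * m0 d) := by gcongr
    _ = τ ^ 2 * ((2 ^ n) ^ d * (n * om d)) := by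
        rw [hγ, hτ, pow_succ (2 : ℝ) n, mul_pow ((2 : ℝ) ^ n)]; field_simp
    _ < _ := by gcongr

end Pool.Agent.P.MP_70f35d_an.Low
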