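import Pool.Agent.P.MP_70f35d_an.Final
import Pool.Agent.P.MP_70f35d_an.Corona

set_option autoImplicit false
open MeasureTheory Set Filter Topology

namespace Pool.Agent.P.MP_70f35d_an.Low

variable {d : ℕ}

lemma meas_I {α : Type} [MeasurableSpace α] {p : α → Prop} (h : MeasurableSet {x | p x}) :
    Measurable fun x => I (p x) := by
  unfold I
  exact Measurable.ite h measurable_const measurable_const

/-- a thin cone around the directions with odd first and even second coordinate -/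
def Kc (i j : Fin d) (R : ℕ) (y : Eu d) : Prop :=
  ∃ a b : ℤ, Odd a ∧ Even b ∧ |a| ≤ R ∧ |b| ≤ R ∧ 4 * R * |y i * b - y j * a| < |y i|

noncomputable def Om (i j : Fin d) (R : ℕ) (y : Eu d) : ℝ := I (Kc i j R y) - I (Kc j i R y)

lemma Kc_meas (i j : Fin d) (R : ℕ) : MeasurableSet {y : Eu d | Kc i j R y} := by
  simp only [Kc, ofPred_exists]
  refine MeasurableSet.iUnion fun a => MeasurableSet.iUnion fun b => ?_
  simp only [← and_assoc]
  exact (MeasurableSet.const _).inter (measurableSet_lt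
    (f := fun y : Eu d => 4 * (R : ℝ) * |y i * b - y j * a|) (g := fun y : Eu d => |y i|)
    (by fun_prop) (by fun_prop))

lemma Om_meas (i j : Fin d) (R : ℕ) : Measurable (Om i j R) :=
  (meas_I (Kc_meas i j R)).sub (meas_I (Kc_meas j i R))

lemma Om_le (i j : Fin d) (R : ℕ) (y : Eu d) : |Om i j R y| ≤ 1 := by
  have := I_nonneg (Kc i j R y)
  have := I_nonneg (Kc j i R y)
  have := I_le_one (Kc i j R y)
  have := I_le_one (Kc j i R y)
  exact abs_le.2 ⟨by unfold Om; linarith, by unfold Om; linarith⟩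

lemma Kc_smul (i j : Fin d) (R : ℕ) (y : Eu d) {t : ℝ} (ht : 0 < t) :
    Kc i j R (t • y) ↔ Kc i j R y := by
  simp only [Kc, PiLp.smul_apply, smul_eq_mul, mul_assoc t, ← mul_sub, abs_mul, abs_of_pos ht,
    mul_left_comm _ t, mul_lt_mul_iff_right₀ ht]

lemma Om_smul (i j : Fin d) (R : ℕ) (y : Eu d) (t : ℝ) (ht : 0 < t) :
    Om i j R (t • y) = Om i j R y := by
  simp only [Om, Kc_smul _ _ _ _ ht]

lemma Om_rad (i j : Fin d) (R : ℕ) (g : ℝ → ℝ) : ∫ y : Eu d, g ‖y‖ * Om i j R y = 0 := by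
  have h := integral_comp (LinearIsometryEquiv.piLpCongrLeft 2 ℝ ℝ (Equiv.swap i j) :
    Eu d ≃ₗᵢ[ℝ] Eu d) fun y => g ‖y‖ * Om i j R y
  have e : ∀ y : Eu d, Om i j R (LinearIsometryEquiv.piLpCongrLeft 2 ℝ ℝ (Equiv.swap i j) y) =
      -Om i j R y := fun y => by
    simp [Om, Kc, LinearIsometryEquiv.piLpCongrLeft_apply]
  simp only [LinearIsometryEquiv.norm_map, e, mul_neg, integral_neg] at h
  linarith

lemma Om_one {i j : Fin d} {R : ℕ} {y : Eu d} {a b : ℤ} {η : ℝ} (ha : Odd a) (hb : Even b)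
    (haR : |a| ≤ R) (hbR : |b| ≤ R) (hη : 32 * R ^ 2 * η ≤ 1) (h1 : |y i - a| ≤ η)
    (h2 : |y j - b| ≤ η) : Om i j R y = 1 := by
  have a1 : (1 : ℝ) ≤ |(a : ℝ)| := by
    exact_mod_cast Int.one_le_abs (by rintro rfl; exact absurd ha (by decide))
  have a2 : |(a : ℝ)| ≤ R := by exact_mod_cast haR
  have a3 : |(b : ℝ)| ≤ R := by exact_mod_cast hbR
  have hR : (1 : ℝ) ≤ R := a1.trans a2
  have η0 : 0 ≤ η := (abs_nonneg _).trans h1
  have η1 : 32 * (R * η) ≤ 1 := by nlinarith [mul_nonneg (sub_nonneg.2 hR) (mul_nonneg (by linarith : (0 : ℝ) ≤ R) η0)]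
  have η2 : η ≤ R * η := le_mul_of_one_le_left η0 hR
  have key : ∀ p q : ℝ, |p| ≤ R → |q| ≤ R → |(y i - a) * p - (y j - b) * q| ≤ 2 * (R * η) :=
    fun p q hp hq => by
      refine (abs_sub _ _).trans ?_
      rw [abs_mul, abs_mul]
      nlinarith [mul_le_mul h1 hp (abs_nonneg _) η0, mul_le_mul h2 hq (abs_nonneg _) η0]
  rw [Om, I_of, I_not, sub_zero]
  · rintro ⟨a', b', c1, c2, c3, c4, c5⟩
    have b1 : (1 : ℝ) ≤ |(a : ℝ) * a' - b * b'| := by
      have : Odd (a * a' - b * b') := (ha.mul c1).sub_even (hb.mul_right b')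
      exact_mod_cast Int.one_le_abs (by intro h; rw [h] at this; exact absurd this (by decide))
    have b2 := key a' b' (by exact_mod_cast c3) (by exact_mod_cast c4)
    have b3 := abs_sub (y i * a' - y j * b') ((y i - a) * a' - (y j - b) * b')
    rw [show y i * a' - y j * b' - ((y i - a) * a' - (y j - b) * b') = a * a' - b * b' by ring] at b3
    have b4 := abs_add_le (y j - b) b
    rw [sub_add_cancel] at b4
    rw [abs_sub_comm] at c5
    nlinarith
  · refine ⟨a, b, ha, hb, haR, hbR, ?_⟩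
    have b2 := key b a a3 a2
    rw [show (y i - a) * b - (y j - b) * a = y i * b - y j * a by ring] at b2
    have b4 := abs_sub (y i) (y i - a)
    rw [sub_sub_cancel] at b4
    nlinarith [mul_le_mul_of_nonneg_left b2 (by linarith : (0 : ℝ) ≤ 4 * R)]

lemma int_far {Ω : Eu d → ℝ} (hm : Measurable Ω) (hM : ∀ x, |Ω x| ≤ 1) {u : Eu d → ℝ}
    (hu : Integrable u) {ε : ℝ} (hε : 0 < ε) :
    IntegrableOn (fun y => u y * Ω y / ‖y‖ ^ d) {y : Eu d | ε < ‖y‖} := by
  have hs : MeasurableSet {y : Eu d | ε < ‖y‖} := measurableSet_lt measurable_const measurable_norm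
  simp only [mul_div_assoc]
  refine Integrable.mul_bdd (c := 1 / ε ^ d) hu.integrableOn
    (hm.div (measurable_norm.pow_const d)).aestronglyMeasurable
    ((ae_restrict_mem hs).mono fun y hy => ?_)
  rw [Real.norm_eq_abs, abs_div, abs_pow, abs_norm]
  have : ε < ‖y‖ := hy
  have := hM y
  gcongr

theorem pv_exists (hd : 1 ≤ d) {Ω f : Eu d → ℝ} (hm : Measurable Ω) (hM : ∀ x, |Ω x| ≤ 1)
    (h0 : ∀ g : ℝ → ℝ, ∫ y : Eu d, g ‖y‖ * Ω y = 0) {Lp : NNReal} (hf : LipschitzWith Lp f)
    (hi : Integrable f) (x : Eu d) : ∃ t, Tendsto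
      (fun ε : ℝ => ∫ y in {y : Eu d | ε < ‖y‖}, f (x - y) * Ω y / ‖y‖ ^ d) (𝓝[>] 0) (𝓝 t) := by
  have hs : ∀ ε : ℝ, MeasurableSet {y : Eu d | ε < ‖y‖} := fun ε =>
    measurableSet_lt measurable_const measurable_norm
  have hb : MeasurableSet {y : Eu d | ‖y‖ < 1} := measurableSet_lt measurable_norm measurable_const
  have i1 : Integrable fun y => f (x - y) := hi.comp_sub_left x
  have i2 : Integrable fun y : Eu d => f x * I (‖y‖ < 1) := by
    refine (integrableOn_iff_integrable_of_support_subset (s := Metric.ball 0 1) fun y hy => ?_).1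
      (Measure.integrableOn_of_bounded (M := |f x|) measure_ball_lt_top.ne
        ((meas_I hb).const_mul _).aestronglyMeasurable (Eventually.of_forall fun y => ?_))
    · exact mem_ball_zero_iff.2 (Cor.I_ne (right_ne_zero_of_mul hy))
    · rw [Real.norm_eq_abs, abs_mul, abs_of_nonneg (I_nonneg _)]
      exact mul_le_of_le_one_right (abs_nonneg _) (I_le_one _)
  set H : Eu d → ℝ := fun y => (f (x - y) - f x * I (‖y‖ < 1)) * Ω y / ‖y‖ ^ d with hH
  have Hm : Measurable H := (((hf.continuous.measurable.comp (measurable_const.sub measurable_id)).sub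
    ((meas_I hb).const_mul _)).mul hm).div (measurable_norm.pow_const d)
  have i3 : Integrable H := by
    rw [← integrableOn_univ, show (univ : Set (Eu d)) = Metric.ball 0 1 ∪ {y | 1 / 2 < ‖y‖} by
      ext y; simp only [mem_univ, mem_union, mem_ball_zero_iff, mem_ofPred_eq, true_iff]
      by_contra! h; linarith [h.1, h.2]]
    refine IntegrableOn.union ?_ (int_far hm hM (i1.sub i2) (by norm_num))
    refine integrableOn_ball_of_norm_le_rpow (C := Lp) (α := (d - 1 : ℕ)) (by simpa using hd)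
      (by rw [finrank_euclideanSpace_fin]; exact_mod_cast (by omega : d - 1 < d))
      ((ae_restrict_mem measurableSet_ball).mono fun y hy => ?_) Hm.aestronglyMeasurable
    have h1 : |f (x - y) - f x| ≤ Lp * ‖y‖ := lip_le hf (by simp)
    rw [Real.rpow_neg (norm_nonneg _), Real.rpow_natCast, hH, Real.norm_eq_abs]
    simp only [I_of (mem_ball_zero_iff.1 hy), mul_one, abs_div, abs_mul, abs_pow, abs_norm]
    rcases (norm_nonneg y).eq_or_lt with h | h
    · rw [← h, zero_pow (by omega), div_zero]; positivity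
    · obtain ⟨e, rfl⟩ : ∃ e, d = e + 1 := ⟨d - 1, by omega⟩
      rw [div_le_iff₀ (by positivity), Nat.add_sub_cancel, pow_succ, mul_assoc,
        inv_mul_cancel_left₀ (by positivity)]
      exact (mul_le_of_le_one_right (abs_nonneg _) (hM y)).trans h1
  refine ⟨∫ y, indicator {y : Eu d | 0 < ‖y‖} H y, ?_⟩
  have lim := tendsto_integral_filter_of_dominated_convergence (l := 𝓝[>] (0 : ℝ))
    (F := fun ε => indicator {y : Eu d | ε < ‖y‖} H) (f := indicator {y : Eu d | 0 < ‖y‖} H)
    (fun y => ‖H y‖) (Eventually.of_forall fun ε => (Hm.indicator (hs ε)).aestronglyMeasurable)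
    (Eventually.of_forall fun ε => Eventually.of_forall fun y => norm_indicator_le_norm_self _ _)
    i3.norm (Eventually.of_forall fun y => ?_)
  · refine lim.congr' (eventually_mem_nhdsWithin.mono fun ε (hε : 0 < ε) => ?_)
    have e := h0 fun s => I (ε < s) * (f x * I (s < 1)) / s ^ d
    have e2 : ∫ y in {y : Eu d | ε < ‖y‖}, f x * I (‖y‖ < 1) * Ω y / ‖y‖ ^ d = 0 := by
      rw [← e, ← integral_indicator (hs ε)]
      congr 1; funext y
      by_cases hy : ε < ‖y‖
      · rw [indicator_of_mem (show y ∈ {y : Eu d | ε < ‖y‖} from hy), I_of hy]; ring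
      · rw [indicator_of_notMem (show y ∉ {y : Eu d | ε < ‖y‖} from hy), I_not hy]; ring
    simp only [integral_indicator (hs ε), hH, sub_mul, sub_div]
    rw [integral_sub (int_far hm hM i1 hε) (int_far hm hM i2 hε), e2, sub_zero]
  · refine tendsto_const_nhds.congr' ?_
    rcases (norm_nonneg y).eq_or_lt with h | h
    · refine eventually_mem_nhdsWithin.mono fun ε (hε : 0 < ε) => ?_
      dsimp only
      rw [indicator_of_notMem (show y ∉ {y : Eu d | 0 < ‖y‖} from h.not_lt),
        indicator_of_notMem (show y ∉ {y : Eu d | ε < ‖y‖} from (h.ge.trans hε.le).not_gt)]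
    · refine ((eventually_lt_nhds h).filter_mono nhdsWithin_le_nhds).mono fun ε hε => ?_
      dsimp only
      rw [indicator_of_mem (show y ∈ {y : Eu d | 0 < ‖y‖} from h),
        indicator_of_mem (show y ∈ {y : Eu d | ε < ‖y‖} from hε)]

end Pool.Agent.P.MP_70f35d_an.Low
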