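import Pool.Agent.P.MP_70f35d_an.LOm

set_option autoImplicit false
open MeasureTheory Filter Topology Metric

namespace Pool.Agent.P.MP_70f35d_an.Low

variable {d : ℕ}

lemma vol_ball (c : Eu d) {r : ℝ} (hr : 0 < r) : volume.real (ball c r) = r ^ d * om d := by
  rw [measureReal_def, Measure.addHaar_ball_of_pos _ _ hr, finrank_euclideanSpace_fin,
    ENNReal.toReal_mul, ENNReal.toReal_ofReal (by positivity)]; rfl

lemma I_ball (c : Eu d) (r : ℝ) :
    (fun x : Eu d => I (‖x - c‖ < r)) = Set.indicator (ball c r) fun _ => 1 := by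
  funext x
  by_cases h : ‖x - c‖ < r
  · rw [I_of h, Set.indicator_of_mem (mem_ball_iff_norm.2 h)]
  · rw [I_not h, Set.indicator_of_notMem (mt mem_ball_iff_norm.1 h)]

lemma I_int (c : Eu d) (r : ℝ) : Integrable fun x : Eu d => I (‖x - c‖ < r) := by
  rw [I_ball]
  exact (integrableOn_const measure_ball_lt_top.ne).integrable_indicator measurableSet_ball

lemma int_I (c : Eu d) (k : ℕ) :
    ∫ x : Eu d, ((2 : ℝ) ^ k) ^ d * I (‖x - c‖ < (1 / 2) ^ k) = om d := by
  rw [integral_const_mul, I_ball, integral_indicator measurableSet_ball, setIntegral_const,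
    vol_ball _ (by positivity), smul_eq_mul, mul_one, ← mul_assoc, ← mul_pow, ← mul_pow]
  norm_num

/-- a tower of normalized indicators of balls -/
noncomputable def G (a b : ℕ) (x : Eu d) : ℝ :=
  ∑ k ∈ Finset.Ico a b, ((2 : ℝ) ^ k) ^ d * I (‖x‖ < (1 / 2) ^ k)

lemma G_nonneg (a b : ℕ) (x : Eu d) : 0 ≤ G a b x :=
  Finset.sum_nonneg fun _ _ => mul_nonneg (by positivity) (I_nonneg _)

lemma G_ne {a b : ℕ} {x : Eu d} (h : G a b x ≠ 0) : ‖x‖ < (1 / 2) ^ a := by
  obtain ⟨k, hk, h'⟩ := Finset.exists_ne_zero_of_sum_ne_zero h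
  exact (Cor.I_ne (right_ne_zero_of_mul h')).trans_le
    (pow_le_pow_of_le_one (by norm_num) (by norm_num) (Finset.mem_Ico.1 hk).1)

lemma G_mono {a a' : ℕ} (h : a ≤ a') (b : ℕ) (x : Eu d) : G a' b x ≤ G a b x :=
  Finset.sum_le_sum_of_subset_of_nonneg (Finset.Ico_subset_Ico_left h)
    fun _ _ _ => mul_nonneg (by positivity) (I_nonneg _)

lemma G_int (a b : ℕ) (c : Eu d) : Integrable fun x => G a b (x - c) :=
  integrable_finsetSum _ fun _ _ => (I_int c _).const_mul _

lemma int_G (a b : ℕ) (c : Eu d) : ∫ x, G a b (x - c) = (b - a : ℕ) * om d := by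
  unfold G
  rw [integral_finsetSum _ fun _ _ => (I_int c _).const_mul _]
  simp [int_I, -one_div]

lemma G_pw {K k : ℕ} (hk : k < K) {s : ℝ} (hs : (1 / 2) ^ k ≤ s) {y : Eu d} (hy : ‖y‖ < 3 * s) :
    (s ^ d)⁻¹ ≤ 12 ^ d * (1 + G 2 K y) := by
  have s0 : 0 < s := lt_of_lt_of_le (by positivity) hs
  have g0 := G_nonneg 2 K y
  rw [← inv_pow]
  rcases le_or_gt (3 * s) (1 / 4) with h | h
  · obtain ⟨n, h1, h2⟩ := exists_nat_pow_near_of_lt_one (x := 3 * s) (y := 1 / 2) (by positivity)
      (by linarith) (by norm_num) (by norm_num)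
    have h3 : 2 < n + 1 := by
      rw [← pow_lt_pow_iff_right_of_lt_one₀ (a := (1 / 2 : ℝ)) (by norm_num) (by norm_num)]
      linarith
    have h4 : n < k := by
      rw [← pow_lt_pow_iff_right_of_lt_one₀ (a := (1 / 2 : ℝ)) (by norm_num) (by norm_num)]
      linarith
    have h5 : ((2 : ℝ) ^ n) ^ d ≤ G 2 K y := le_trans (by rw [I_of (hy.trans_le h2), mul_one])
      (Finset.single_le_sum (f := fun k => ((2 : ℝ) ^ k) ^ d * I (‖y‖ < (1 / 2) ^ k))
        (fun _ _ => mul_nonneg (by positivity) (I_nonneg _)) (Finset.mem_Ico.2 ⟨by omega, by omega⟩))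
    calc _ ≤ (12 * 2 ^ n : ℝ) ^ d := by
          refine pow_le_pow_left₀ (by positivity) ?_ d
          rw [inv_le_iff_one_le_mul₀ s0]
          rw [pow_succ, one_div_pow, div_mul_eq_mul_div, div_lt_iff₀ (by positivity)] at h1
          nlinarith [(by positivity : 0 < s * 2 ^ n)]
      _ ≤ _ := by rw [mul_pow]; gcongr; linarith
  · calc _ ≤ (12 : ℝ) ^ d := by
          refine pow_le_pow_left₀ (by positivity) ?_ d
          rw [inv_le_iff_one_le_mul₀ s0]; linarith
      _ ≤ _ := le_mul_of_one_le_right (by positivity) (by linarith)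

lemma G_A1 (K : ℕ) (p x : Eu d) {r : ℝ} (hr : 0 < r) {y : Eu d} (hy : y ∈ ball x r) :
    ∫ z in ball x r, G 2 K (z - p) ≤ K * (12 ^ d * (1 + G 2 K (y - p)) * (r ^ d * om d)) := by
  have o := om_pos d
  have g0 := G_nonneg 2 K (y - p)
  unfold G
  rw [integral_finsetSum _ fun _ _ => ((I_int p _).const_mul _).integrableOn]
  refine (Finset.sum_le_card_nsmul _ _ (12 ^ d * (1 + G 2 K (y - p)) * (r ^ d * om d))
    fun k hk => ?_).trans ?_
  swap
  · rw [nsmul_eq_mul, Nat.card_Ico]
    exact mul_le_mul_of_nonneg_right (by exact_mod_cast Nat.sub_le K 2) (by positivity)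
  by_cases h : ∃ z ∈ ball x r, ‖z - p‖ < (1 / 2) ^ k
  swap
  · rw [setIntegral_eq_zero_of_forall_eq_zero fun z hz => by
      rw [I_not fun h' => h ⟨z, hz, h'⟩, mul_zero]]
    positivity
  obtain ⟨z, hz, h⟩ := h
  have h1 : ‖y - p‖ < (1 / 2) ^ k + 2 * r := by
    have := norm_sub_le_norm_sub_add_norm_sub y z p
    have := norm_sub_le_norm_sub_add_norm_sub y x z
    have := norm_sub_rev x z
    have := mem_ball_iff_norm.1 hy
    have := mem_ball_iff_norm.1 hz
    linarith
  rcases le_total r ((1 / 2) ^ k) with h2 | h2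
  · have h3 := G_pw (Finset.mem_Ico.1 hk).2 le_rfl (y := y - p) (by linarith)
    rw [← inv_pow, one_div_pow, inv_div, div_one] at h3
    refine le_trans ?_ (mul_le_mul_of_nonneg_right h3 (by positivity))
    rw [← vol_ball x hr, mul_comm _ (volume.real _), ← smul_eq_mul, ← setIntegral_const]
    exact setIntegral_mono ((I_int p _).const_mul _).integrableOn
      (integrableOn_const measure_ball_lt_top.ne)
      fun z => mul_le_of_le_one_right (by positivity) (I_le_one _)
  · have h3 := G_pw (Finset.mem_Ico.1 hk).2 h2 (y := y - p) (by linarith)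
    refine le_trans ?_ (mul_le_mul_of_nonneg_right h3 (by positivity))
    rw [inv_mul_cancel_left₀ (by positivity), ← int_I p k]
    exact setIntegral_le_integral ((I_int p _).const_mul _)
      (Eventually.of_forall fun z => mul_nonneg (by positivity) (I_nonneg _))

lemma pt_sep {a b : Fin d → ℤ} (h : ‖pt 1 a - pt 1 b‖ < 1) : a = b := by
  funext i
  have h1 := (PiLp.norm_apply_le (pt 1 a - pt 1 b) i).trans_lt h
  simp only [pt, PiLp.sub_apply, one_mul, Real.norm_eq_abs] at h1
  have : |a i - b i| < 1 := by exact_mod_cast h1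
  have := abs_lt.1 this
  omega

lemma small (K : ℕ) (x : Eu d) {r : ℝ} (hr : r ≤ 1 / 4) :
    ∃ a, ∀ b ≠ a, ∀ y ∈ ball x r, G 2 K (y - pt 1 b) = 0 := by
  by_cases h : ∃ a, ∃ y ∈ ball x r, G 2 K (y - pt 1 a) ≠ 0
  · obtain ⟨a, z, hz, h⟩ := h
    refine ⟨a, fun b hb y hy => by_contra fun h' => hb (pt_sep ?_)⟩
    have := G_ne h
    have := G_ne h'
    have := norm_sub_le_norm_sub_add_norm_sub (pt 1 b) y (pt 1 a)
    have := norm_sub_le_norm_sub_add_norm_sub y z (pt 1 a)
    have := norm_sub_le_norm_sub_add_norm_sub y x z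
    have := norm_sub_rev x z
    have := norm_sub_rev y (pt 1 b)
    have := mem_ball_iff_norm.1 hy
    have := mem_ball_iff_norm.1 hz
    linarith
  · exact ⟨0, fun b _ y hy => by_contra fun h' => h ⟨b, y, hy, h'⟩⟩

/-- towers at the points of a finite subset of the lattice -/
noncomputable def GS (a b : ℕ) (S : Finset (Fin d → ℤ)) (x : Eu d) : ℝ :=
  ∑ p ∈ S, G a b (x - pt 1 p)

lemma GS_nonneg (a b : ℕ) (S : Finset (Fin d → ℤ)) (x : Eu d) : 0 ≤ GS a b S x :=
  Finset.sum_nonneg fun _ _ => G_nonneg _ _ _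

lemma GS_int (a b : ℕ) (S : Finset (Fin d → ℤ)) : Integrable (GS a b S) :=
  integrable_finsetSum _ fun _ _ => G_int _ _ _

lemma int_GS (a b : ℕ) (S : Finset (Fin d → ℤ)) :
    ∫ x, GS a b S x = S.card * ((b - a : ℕ) * om d) := by
  unfold GS
  rw [integral_finsetSum _ fun _ _ => G_int _ _ _]
  simp [int_G]

lemma GS_small (K : ℕ) (S : Finset (Fin d → ℤ)) (x : Eu d) {r : ℝ} (h0 : 0 < r) (hr : r ≤ 1 / 4)
    {y : Eu d} (hy : y ∈ ball x r) :
    ∫ z in ball x r, GS 2 K S z ≤ K * (12 ^ d * (1 + GS 2 K S y) * (r ^ d * om d)) := by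
  obtain ⟨a, ha⟩ := small K x hr
  have o := om_pos d
  have g0 := GS_nonneg 2 K S y
  by_cases h : a ∈ S
  · have e : ∀ z ∈ ball x r, GS 2 K S z = G 2 K (z - pt 1 a) := fun z hz =>
      Finset.sum_eq_single a (fun b _ hb => ha b hb z hz) fun h' => (h' h).elim
    rw [setIntegral_congr_fun measurableSet_ball e, e y hy]
    exact G_A1 K _ x h0 hy
  · rw [setIntegral_eq_zero_of_forall_eq_zero (f := GS 2 K S) fun z hz =>
      Finset.sum_eq_zero fun b hb => ha b (by rintro rfl; exact h hb) z hz]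
    positivity

lemma GS_large (K : ℕ) (S : Finset (Fin d → ℤ)) (x : Eu d) {r : ℝ} (hr : 1 / 4 ≤ r) :
    ∫ z in ball x r, GS 2 K S z ≤ K * (12 ^ d * (r ^ d * om d)) := by
  classical
  have o := om_pos d
  set U : Finset (Fin d → ℤ) := Fintype.piFinset fun i => Finset.Icc ⌈x i - 2 * r⌉ ⌊x i + 2 * r⌋
    with hU
  have h1 : (U.card : ℝ) ≤ 12 ^ d * r ^ d := by
    rw [hU, Fintype.card_piFinset, ← mul_pow]
    push_cast
    refine (Finset.prod_le_prod (fun _ _ => Nat.cast_nonneg _) fun i _ =>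
      show _ ≤ 12 * r from ?_).trans (by simp)
    have a1 := Int.le_ceil (x i - 2 * r)
    have a2 := Int.floor_le (x i + 2 * r)
    rw [Int.card_Icc]
    rcases le_total (⌊x i + 2 * r⌋ + 1 - ⌈x i - 2 * r⌉) 0 with h | h
    · rw [Int.toNat_of_nonpos h]; push_cast; linarith
    · have : ((⌊x i + 2 * r⌋ + 1 - ⌈x i - 2 * r⌉).toNat : ℝ) = ⌊x i + 2 * r⌋ + 1 - ⌈x i - 2 * r⌉ := by
        exact_mod_cast Int.toNat_of_nonneg h
      linarith
  calc _ ≤ ∫ z in ball x r, GS 2 K U z := by
        refine setIntegral_mono_on (GS_int _ _ _).integrableOn (GS_int _ _ _).integrableOn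
          measurableSet_ball fun z hz => ?_
        refine (Finset.sum_filter_ne_zero S).symm.trans_le (Finset.sum_le_sum_of_subset_of_nonneg
          (fun p hp => Fintype.mem_piFinset.2 fun i => ?_) fun _ _ _ => G_nonneg _ _ _)
        replace hp := (Finset.mem_filter.1 hp).2
        have a1 := G_ne hp
        have a2 := norm_sub_le_norm_sub_add_norm_sub x z (pt 1 p)
        have a3 := mem_ball_iff_norm'.1 hz
        have a4 := PiLp.norm_apply_le (x - pt 1 p) i
        simp only [pt, PiLp.sub_apply, one_mul, Real.norm_eq_abs] at a4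
        simp only [pt, one_mul] at a1 a2
        have a5 := abs_le.1 (show |x i - p i| ≤ 2 * r by linarith)
        exact Finset.mem_Icc.2 ⟨Int.ceil_le.2 (by linarith), Int.le_floor.2 (by linarith)⟩
    _ ≤ ∫ z, GS 2 K U z := setIntegral_le_integral (GS_int _ _ _)
        (Eventually.of_forall (GS_nonneg _ _ _))
    _ ≤ _ := by
        rw [int_GS]
        have : ((K - 2 : ℕ) : ℝ) ≤ K := by exact_mod_cast Nat.sub_le K 2
        calc _ ≤ 12 ^ d * r ^ d * (K * om d) := by gcongr
          _ = _ := by ring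

lemma a2_of_a1 {u : Eu d → ℝ} {B : Set (Eu d)} (hB : MeasurableSet B) (hv : volume B ≠ ⊤)
    (h2 : IntegrableOn (fun y => (u y)⁻¹) B) (h0 : ∀ y, 0 < u y) {c : ℝ}
    (h : ∀ y ∈ B, ∫ z in B, u z ≤ c * u y) :
    (∫ z in B, u z) * ∫ z in B, (u z)⁻¹ ≤ volume.real B * c := by
  rw [← integral_const_mul, ← smul_eq_mul (volume.real B), ← setIntegral_const]
  refine setIntegral_mono_on (h2.const_mul _) (integrableOn_const hv) hB fun y hy => ?_
  rw [← div_eq_mul_inv, div_le_iff₀ (h0 y)]
  exact h y hy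

/-- the weight -/
noncomputable def wt (L : ℕ) (SE SF : Finset (Fin d → ℤ)) (x : Eu d) : ℝ :=
  (1 + GS 2 (2 * L) SF x) / (1 + GS 2 (2 * L) SE x / L)

lemma wt_pos (L : ℕ) (SE SF : Finset (Fin d → ℤ)) (x : Eu d) : 0 < wt L SE SF x := by
  have := GS_nonneg 2 (2 * L) SF x
  have := GS_nonneg 2 (2 * L) SE x
  unfold wt; positivity

theorem wt_A2 {L : ℕ} (hL : 1 ≤ L) {SE SF : Finset (Fin d → ℤ)} (hd : Disjoint SE SF) {A : ℝ}
    (hA : (1 + 2 * 12 ^ d) ^ 2 * L ≤ A) : Wt (wt L SE SF) A := by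
  intro x r hr
  have o := om_pos d
  have hL' : (1 : ℝ) ≤ L := by exact_mod_cast hL
  set u : Eu d → ℝ := fun z => 1 + GS 2 (2 * L) SF z with hu
  set v : Eu d → ℝ := fun z => 1 + GS 2 (2 * L) SE z / L with hv
  have u1 : ∀ z, 1 ≤ u z := fun z => le_add_of_nonneg_right (GS_nonneg _ _ _ _)
  have v1 : ∀ z, 1 ≤ v z := fun z =>
    le_add_of_nonneg_right (div_nonneg (GS_nonneg _ _ _ _) (by linarith))
  have ic : IntegrableOn (fun _ : Eu d => (1 : ℝ)) (ball x r) :=
    integrableOn_const measure_ball_lt_top.ne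
  have iu : IntegrableOn u (ball x r) := ic.add (GS_int _ _ _).integrableOn
  have iv : IntegrableOn v (ball x r) := ic.add ((GS_int _ _ _).div_const _).integrableOn
  have iq : ∀ {u v : Eu d → ℝ}, IntegrableOn u (ball x r) → IntegrableOn v (ball x r) →
      (∀ z, 1 ≤ u z) → (∀ z, 1 ≤ v z) → IntegrableOn (fun z => u z / v z) (ball x r) ∧
      ∫ z in ball x r, u z / v z ≤ ∫ z in ball x r, u z := fun {u v} iu iv u1 v1 => by
    have h : ∀ z, u z / v z ≤ u z := fun z => div_le_self (by linarith [u1 z]) (v1 z)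
    have i : IntegrableOn (fun z => u z / v z) (ball x r) :=
      iu.mono' (iu.aemeasurable.div iv.aemeasurable).aestronglyMeasurable
        (Eventually.of_forall fun z => by
          rw [Real.norm_of_nonneg (div_nonneg (by linarith [u1 z]) (by linarith [v1 z]))]
          exact h z)
    exact ⟨i, setIntegral_mono i iu h⟩
  have e : (fun y => (wt L SE SF y)⁻¹) = fun y => v y / u y := funext fun y => inv_div _ _
  have eu : ∫ z in ball x r, u z = r ^ d * om d + ∫ z in ball x r, GS 2 (2 * L) SF z := by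
    rw [integral_add ic (GS_int _ _ _).integrableOn, setIntegral_const, vol_ball x hr, smul_eq_mul,
      mul_one]
  have ev : ∫ z in ball x r, v z = r ^ d * om d + (∫ z in ball x r, GS 2 (2 * L) SE z) / L := by
    rw [integral_add ic ((GS_int _ _ _).div_const _).integrableOn, setIntegral_const, vol_ball x hr,
      smul_eq_mul, mul_one, integral_div]
  rw [e]
  refine ⟨(iq iu iv u1 v1).1, (iq iv iu v1 u1).1, ?_⟩
  rw [← measureReal_def, vol_ball x hr]
  set a := r ^ d * om d with ha
  have a0 : 0 < a := by positivity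
  set κ : ℝ := 12 ^ d with hκ
  have κ0 : 0 < κ := by positivity
  refine le_trans ?_ (mul_le_mul_of_nonneg_right hA (sq_nonneg _))
  change (∫ z in ball x r, u z / v z) * _ ≤ _
  rcases le_total r (1 / 4) with h | h
  · have fin : a * ((1 + 2 * κ) * L * a) ≤ (1 + 2 * κ) ^ 2 * L * a ^ 2 := by
      nlinarith [(by positivity : 0 ≤ (1 + 2 * κ) * κ * L * a ^ 2)]
    obtain ⟨p, hp⟩ := small (2 * L) x h
    have z0 : ∀ S : Finset (Fin d → ℤ), p ∉ S → ∀ z ∈ ball x r, GS 2 (2 * L) S z = 0 :=
      fun S hS z hz => Finset.sum_eq_zero fun b hb => hp b (by rintro rfl; exact hS hb) z hz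
    by_cases h1 : p ∈ SE
    · have z1 : ∀ z ∈ ball x r, u z = 1 := fun z hz => by
        simp only [hu, z0 SF (Finset.disjoint_left.1 hd h1) z hz, add_zero]
      rw [setIntegral_congr_fun (g := fun z => (v z)⁻¹) measurableSet_ball fun z hz => by
          simp only [z1 z hz, one_div],
        setIntegral_congr_fun (f := fun z => v z / u z) (g := v) measurableSet_ball fun z hz => by
          simp only [z1 z hz, div_one], mul_comm]
      refine (a2_of_a1 measurableSet_ball measure_ball_lt_top.ne (by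
        simpa only [one_div] using (iq ic iv (fun _ => le_rfl) v1).1) (fun z => by linarith [v1 z])
        (c := (1 + 2 * κ) * L * a) fun y hy => ?_).trans (by rw [vol_ball x hr]; exact fin)
      have b1 := GS_small (2 * L) SE x hr h hy
      have b2 := GS_nonneg 2 (2 * L) SE y
      have b3 : (∫ z in ball x r, GS 2 (2 * L) SE z) / L ≤ 2 * (κ * (1 + GS 2 (2 * L) SE y) * a) := by
        rw [div_le_iff₀ (by linarith)]; push_cast at b1; linarith
      have b4 : (1 + 2 * κ) * L * a * v y = (1 + 2 * κ) * a * (L + GS 2 (2 * L) SE y) := by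
        simp only [hv]; field_simp
      rw [ev, b4]
      nlinarith [mul_nonneg a0.le b2, mul_nonneg (mul_pos κ0 a0).le (sub_nonneg.2 hL'),
        mul_nonneg a0.le (sub_nonneg.2 hL')]
    · have z1 : ∀ z ∈ ball x r, v z = 1 := fun z hz => by
        simp only [hv, z0 SE h1 z hz, zero_div, add_zero]
      rw [setIntegral_congr_fun (g := u) measurableSet_ball fun z hz => by
          simp only [z1 z hz, div_one],
        setIntegral_congr_fun (f := fun z => v z / u z) (g := fun z => (u z)⁻¹) measurableSet_ball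
          fun z hz => by simp only [z1 z hz, one_div]]
      refine (a2_of_a1 measurableSet_ball measure_ball_lt_top.ne (by
        simpa only [one_div] using (iq ic iu (fun _ => le_rfl) u1).1) (fun z => by linarith [u1 z])
        (c := (1 + 2 * κ) * L * a) fun y hy => ?_).trans (by rw [vol_ball x hr]; exact fin)
      have b1 := GS_small (2 * L) SF x hr h hy
      push_cast at b1
      change _ ≤ 2 * L * (κ * u y * a) at b1
      rw [eu]
      nlinarith [mul_le_mul hL' (u1 y) zero_le_one (by linarith)]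
  · have b1 := GS_large (2 * L) SF x h
    have b2 := GS_large (2 * L) SE x h
    push_cast at b1 b2
    have b3 : ∫ z in ball x r, u z ≤ (1 + 2 * κ) * L * a := by
      rw [eu]; nlinarith
    have b4 : ∫ z in ball x r, v z ≤ (1 + 2 * κ) * a := by
      have : (∫ z in ball x r, GS 2 (2 * L) SE z) / L ≤ 2 * (κ * a) := by
        rw [div_le_iff₀ (by linarith)]; linarith
      rw [ev]; linarith
    refine (mul_le_mul ((iq iu iv u1 v1).2.trans b3) ((iq iv iu v1 u1).2.trans b4)
      (integral_nonneg fun z => div_nonneg (by linarith [v1 z]) (by linarith [u1 z]))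
      (by positivity)).trans_eq (by ring)

end Pool.Agent.P.MP_70f35d_an.Low
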