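import Pool.Agent.P.MP_70f35d_an.Local
import Pool.Agent.P.MP_70f35d_an.Kers
import Pool.Agent.P.MP_70f35d_an.Final

set_option autoImplicit false
open MeasureTheory Finset

namespace Pool.Agent.P.MP_70f35d_an
open SG

variable {d : ℕ}

lemma St_val {o : Fin d → ℤ} {n : ℕ} {u : (Fin d → ℤ) → ℝ} (hu : ∀ b, u b ≠ 0 → b ∈ bx o n)
    (δ : ℝ) : St δ (fun a : bx o n => u a.1) = fun z => u (fl δ z) := funext fun z => by
  rcases St_cases δ o n z with ⟨a, ha, h⟩ | ⟨ha, h⟩ <;> rw [h]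
  · rw [ha]
  · exact (not_not.1 (mt (hu _) ha)).symm

lemma exists_level (s : Finset (Fin d → ℤ)) (J : Finset ℕ) : ∃ L : ℕ, (∀ j ∈ J, j + 5 ≤ L) ∧
    ∀ ω : Fin d → Fin (2 ^ L), s ⊆ bx (fun i => -2 ^ (L + 1) + (ω i : ℕ)) (L + 2) := by
  obtain ⟨L, h1, h2⟩ : ∃ L : ℕ, J.sup id + 5 ≤ L ∧
      (s.sup fun a => univ.sup fun i => (a i).natAbs) ≤ L :=
    ⟨_, Nat.le_add_right _ _, Nat.le_add_left _ _⟩
  refine ⟨L, fun j hj => ?_, fun ω a ha => Fintype.mem_piFinset.2 fun i => ?_⟩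
  · have : j ≤ J.sup id := le_sup (f := id) hj
    omega
  · have h3 : (a i).natAbs ≤ L := ((le_sup (f := fun i => (a i).natAbs) (mem_univ i)).trans
      (le_sup (f := fun a : Fin d → ℤ => univ.sup fun i => (a i).natAbs) ha)).trans h2
    have h4 := (ω i).2
    have h5 : L < 2 ^ L := Nat.lt_two_pow_self
    zify at h4 h5
    simp only [mem_Ico, pow_succ]
    omega

lemma nice_fl {s : Finset (Fin d → ℤ)} {u : (Fin d → ℤ) → ℝ} (hu : ∀ b, u b ≠ 0 → b ∈ s) {δ : ℝ}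
    (hδ : 0 < δ) : Nice fun z : Eu d => u (fl δ z) := by
  obtain ⟨L, -, h⟩ := exists_level s ∅
  exact St_val (fun b hb => h (fun _ => ⟨0, Nat.two_pow_pos L⟩) (hu b hb)) δ ▸ St_nice hδ _

lemma one_le_of_lat {σ w : (Fin d → ℤ) → ℝ} {B : ℝ} (hσw : ∀ a, 1 ≤ σ a * w a)
    (hB : ∀ (o : Fin d → ℤ) (m : ℕ), (∑ a : Fin d → Fin (2 ^ m), σ fun i => o i + (a i : ℕ)) *
      (∑ a : Fin d → Fin (2 ^ m), w fun i => o i + (a i : ℕ)) ≤ B * (((2 : ℝ) ^ m) ^ d) ^ 2) :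
    1 ≤ B := by
  have : (∑ a : Fin d → Fin 1, σ fun i => 0 + (a i : ℕ)) *
      (∑ a : Fin d → Fin 1, w fun i => 0 + (a i : ℕ)) ≤ _ := hB 0 0
  rw [Fintype.sum_unique, Fintype.sum_unique, pow_zero, one_pow, one_pow, mul_one] at this
  exact (hσw _).trans this

lemma stp_smul (u : (Fin d → ℤ) → ℝ) (j : ℕ) (z : Eu d) :
    stp u ((2 : ℝ) ^ j • z) = u (fl (32 / 2 ^ (j + 5)) z) := by
  refine congrArg u (funext fun i => congrArg Int.floor ?_)
  rw [PiLp.smul_apply, smul_eq_mul, pow_add]; field_simp; norm_num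

lemma nice_stp {s : Finset (Fin d → ℤ)} {u : (Fin d → ℤ) → ℝ} (hu : ∀ b, u b ≠ 0 → b ∈ s) :
    Nice (stp u) := by
  have h := nice_fl hu (show (0 : ℝ) < 32 / 2 ^ (0 + 5) by positivity)
  simpa only [← stp_smul, pow_zero, one_smul] using h

lemma rescale {c0 c b0 : ℝ} {β A : Eu d → ℝ} (h : Pr c0 c b0 β A) {f g : Eu d → ℝ} (hf : Nice f)
    (hg : Nice g) {r : ℝ} (hr : 0 < r) :
    ∫ x, cv (Dl r A) (fun z => b0 * f z + cv (Dl r β) f z) x * g x =
      r ^ d * ∫ z, Hf b0 β A (fun z => f (r • z)) (fun z => g (r • z)) z := by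
  have e : rf (Dl r A) = Dl r (rf A) := by funext y; simp only [rf, Dl, smul_neg]
  rw [cv_adj (h.nA.Dl hr) ((hf.cmul _).add ((h.nβ.Dl hr).cv hf)) hg, e, int_smul hr]
  simp only [cv_Dl hr, Hf]

theorem fam (d : ℕ) (c0 : ℝ) : ∃ C : ℝ, 0 < C ∧ ∀ (c b0 : ℝ) (β A : Eu d → ℝ), Pr c0 c b0 β A →
    0 < c → ∀ (σ w : (Fin d → ℤ) → ℝ) (B : ℝ), (∀ a, 0 < σ a) → (∀ a, 0 < w a) →
    (∀ a, 1 ≤ σ a * w a) → (∀ (o : Fin d → ℤ) (m : ℕ),
      (∑ a : Fin d → Fin (2 ^ m), σ fun i => o i + (a i : ℕ)) *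
        (∑ a : Fin d → Fin (2 ^ m), w fun i => o i + (a i : ℕ)) ≤ B * (((2 : ℝ) ^ m) ^ d) ^ 2) →
    ∀ (J : Finset ℕ) (s : Finset (Fin d → ℤ)) (u v : (Fin d → ℤ) → ℝ),
      (∀ a, u a ≠ 0 → a ∈ s) → (∀ a, v a ≠ 0 → a ∈ s) →
      |∑ j ∈ J, ∫ x, cv (Dl (2 ^ j) A) (fun z => b0 * stp u z + cv (Dl (2 ^ j) β) (stp u) z) x *
        stp v x| ≤ c * (C * (B ^ (3 / 2 : ℝ) * (1 + Real.log B) ^ 2) *
          √(∑ a ∈ s, u a ^ 2 / σ a) * √(∑ a ∈ s, v a ^ 2 / w a)) := by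
  obtain ⟨η, η0, η1, hη⟩ : ∃ η : ℝ, 0 < η ∧ η < 1 ∧ 1 / 2 ≤ η ^ (8 * d + 16) :=
    ⟨(1 / 2) ^ ((8 * d + 16 : ℕ) : ℝ)⁻¹, by positivity,
      Real.rpow_lt_one (by norm_num) (by norm_num) (by positivity),
      (Real.rpow_inv_natCast_pow (by norm_num) (by omega)).ge⟩
  obtain ⟨C, hC0, hC⟩ := model (2 ^ d) η (one_le_pow₀ one_le_two) η0.le η1
  refine ⟨2 ^ d * (|cW d c0| + 1) * C, by positivity, ?_⟩
  intro c b0 β A h hc σ w B hσ hw hσw hB J s u v hu hv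
  have hc0 : 0 ≤ c0 := (abs_nonneg _).trans (h.bβ 0)
  have hW : 0 < cW d c0 := by unfold cW; positivity
  have hB1 := one_le_of_lat hσw hB
  obtain ⟨L, hL1, hL2⟩ := exists_level s J
  set Z := C * (B ^ (3 / 2 : ℝ) * (1 + Real.log B) ^ 2) * √(∑ a ∈ s, u a ^ 2 / σ a) *
    √(∑ a ∈ s, v a ^ 2 / w a) with hZ
  have hZ0 : 0 ≤ Z := by positivity
  set H : ℕ → Eu d → ℝ := fun j => Hf b0 β A (fun z => u (fl (32 / 2 ^ (j + 5)) z))
    fun z => v (fl (32 / 2 ^ (j + 5)) z) with hH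
  have nH : ∀ j, Nice (H j) := fun j => h.nH (nice_fl hu (by positivity)) (nice_fl hv (by positivity))
  have key : ∀ o : Fin d → ℤ, s ⊆ bx o (L + 2) → ∑ j ∈ J, (2 ^ j) ^ d *
      |∫ z, I (mid o (j + 5) (fl (32 / 2 ^ (j + 5)) z)) * H j z| ≤ cW d c0 * c * Z := by
    intro o ho
    obtain ⟨F, hF⟩ := exists_forms h hc η0 η1.le hη o (L + 2)
    have a1 := hC (bx o (L + 2)) (PP o (L + 2)) (L + 2) filt_PP (fun _ _ _ h h' => PP_eq h h')
      (fun t x => by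
        rw [card_cls, card_cls, ← mul_pow, ← pow_succ']
        exact pow_le_pow_left₀ (by positivity) (pow_le_pow_right₀ one_le_two (by omega)) d)
      (fun a => σ a.1) (fun a => w a.1) B (fun _ => hσ _) (fun _ => hw _) (fun _ => hσw _) hB1
      (fun t x => by
        obtain ⟨o', h'⟩ := sum_cls t x
        rw [E, E, h' σ, h' w, card_cls, div_mul_div_comm, div_le_iff₀ (by positivity), ← sq]
        exact hB o' _) F (fun a => u a.1) (fun a => v a.1) (L + 2)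
    rw [sum_coe_sort (bx o (L + 2)) fun a => u a ^ 2 / σ a,
      sum_coe_sort (bx o (L + 2)) fun a => v a ^ 2 / w a,
      ← sum_subset ho fun a _ ha => by rw [not_not.1 (mt (hu a) ha)]; simp,
      ← sum_subset ho fun a _ ha => by rw [not_not.1 (mt (hv a) ha)]; simp] at a1
    refine le_trans ?_ (mul_le_mul_of_nonneg_left a1 (by positivity))
    refine le_trans ?_ (mul_le_mul_of_nonneg_left (sum_le_sum_of_subset_of_nonneg
      (s := J.image fun j => L + 2 - (j + 5)) (fun t ht => ?_) fun _ _ _ => by positivity)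
      (by positivity))
    · rw [sum_image fun i hi j hj e => by have := hL1 i hi; have := hL1 j hj; omega,
        mul_sum]
      refine sum_le_sum fun j hj => ?_
      have e : L + 2 - (L + 2 - (j + 5)) = j + 5 := by have := hL1 j hj; omega
      have a2 := cell_sum h (L + 2 - (j + 5)) (fun a : bx o (L + 2) => u a.1) fun a => v a.1
      rw [St_val fun b hb => ho (hu b hb), St_val fun b hb => ho (hv b hb)] at a2
      simp only [hF, abs_mul, ← mul_sum]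
      rw [abs_of_pos (inv_pos.2 (mul_pos hW hc)), mul_inv_cancel_left₀ (mul_pos hW hc).ne']
      refine le_trans ?_ (abs_sum_le_sum_abs _ _)
      rw [a2, e, abs_mul, abs_of_pos (by positivity : (0 : ℝ) < (2 ^ (j + 5)) ^ d)]
      exact mul_le_mul_of_nonneg_right (pow_le_pow_left₀ (by positivity)
        (pow_le_pow_right₀ one_le_two (by omega)) d) (abs_nonneg _)
    · obtain ⟨j, -, rfl⟩ := mem_image.1 ht
      exact mem_range.2 (by omega)
  have avg : ∀ j ∈ J, (2 ^ L / 2) ^ d * ∫ z, H j z = ∑ ω : Fin d → Fin (2 ^ L), ∫ z,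
      I (mid (fun i => -2 ^ (L + 1) + (ω i : ℕ)) (j + 5) (fl (32 / 2 ^ (j + 5)) z)) * H j z := by
    intro j hj
    rw [← integral_finsetSum _ fun ω _ => ((nH j).bmul (step_meas _ fun b => I (mid _ _ b))
      fun z => (abs_of_nonneg (I_nonneg _)).trans_le (I_le_one _)).integrable,
      ← integral_const_mul]
    congr 1; funext z
    rw [← sum_mul, avg_mid _ _ (by omega) (hL1 j hj)]
  have hN : (0 : ℝ) < (2 ^ L / 2) ^ d := by positivity
  simp only [rescale h (nice_stp hu) (nice_stp hv) (pow_pos two_pos _), stp_smul]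
  refine le_of_mul_le_mul_left ?_ hN
  rw [← abs_of_pos hN, ← abs_mul, abs_of_pos hN, mul_sum,
    sum_congr rfl fun j hj => by rw [mul_left_comm, avg j hj, mul_sum], sum_comm]
  refine (abs_sum_le_sum_abs _ _).trans ((sum_le_sum fun ω _ => (abs_sum_le_sum_abs _ _).trans
    ((sum_le_sum fun j _ => by rw [abs_mul, abs_of_pos (by positivity)]).trans
      (key _ (hL2 ω)))).trans ?_)
  rw [sum_const, card_univ, Fintype.card_fun, Fintype.card_fin, Fintype.card_fin, nsmul_eq_mul,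
    abs_of_pos hW]
  have : (2 ^ L / 2) ^ d * (c * (2 ^ d * (cW d c0 + 1) * C * (B ^ (3 / 2 : ℝ) *
      (1 + Real.log B) ^ 2) * √(∑ a ∈ s, u a ^ 2 / σ a) * √(∑ a ∈ s, v a ^ 2 / w a))) =
      (2 ^ L) ^ d * ((cW d c0 + 1) * c * Z) := by
    rw [hZ, div_pow]; field_simp
  rw [this]
  push_cast
  gcongr
  linarith

theorem lattice (d : ℕ) (hd : 1 ≤ d) (hS : SeegerStmt d) : LatticeStmt d := by
  obtain ⟨η, c0, c1, hc1, nη, hK⟩ := kernels d hS
  obtain ⟨C, hC0, hC⟩ := fam d c0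
  refine ⟨5 * c1 * C, by positivity, ?_⟩
  intro k M k1 k2 k3 k4 σ w B hσ hw hσw hB j0 j1 s u v hu hv
  obtain ⟨P1, P2⟩ := hK k M k1 k2 k3 k4
  have hC' := fun c b0 β A h hc J => hC c b0 β A h hc σ w B hσ hw hσw hB J s u v hu hv
  set Z := C * (B ^ (3 / 2 : ℝ) * (1 + Real.log B) ^ 2) * √(∑ a ∈ s, u a ^ 2 / σ a) *
    √(∑ a ∈ s, v a ^ 2 / w a) with hZ
  have hB0 := zero_le_one.trans (one_le_of_lat hσw hB)
  have hZ0 : 0 ≤ Z := by positivity
  refine le_of_le_of_eq (b := 5 * (c1 * M * Z)) ?_ (by rw [hZ]; ring)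
  rcases ((abs_nonneg _).trans (k2 0)).eq_or_lt with hM | hM
  · have : k = fun _ => 0 := funext fun y => abs_nonpos_iff.1 ((k2 y).trans hM.ge)
    simp [this, Ksum, Kr, dil, ← hM]
  set K := dil (aa d) k with hKd
  have nK : Nice K := P1.nA
  have nf := nice_stp hu
  have ng := nice_stp hv
  have p2 : ∀ j : ℕ, (0 : ℝ) < 2 ^ j := fun j => by positivity
  set T : ℕ → (Eu d → ℝ) → ℝ := fun j h => ∫ x, cv (Dl (2 ^ j) K) h x * stp v x with hT
  set hh : ℕ → Eu d → ℝ := fun j => cv (Dl (2 ^ j) η) (cv (Dl (2 ^ j) η) (stp u)) with hhh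
  have nD := fun j => nη.Dl (p2 j)
  have nh : ∀ j, Nice (hh j) := fun j => (nD j).cv ((nD j).cv nf)
  have Tsub : ∀ j {f g : Eu d → ℝ}, Nice f → Nice g →
      T j (fun z => 1 * f z + (-1) * g z) = T j f - T j g := fun j f g hf hg => by
    simp only [hT, cv_lin (nK.Dl (p2 j)) hf hg]
    rw [← integral_sub (((nK.Dl (p2 j)).cv hf).mul ng).integrable
      (((nK.Dl (p2 j)).cv hg).mul ng).integrable]
    congr 1; funext x; ring
  have e0 : ∫ x, (∫ y, Ksum k j0 j1 y * stp u (x - y)) * stp v x = ∑ j ∈ Ico j0 j1, T j (stp u) := by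
    rw [← integral_finsetSum _ fun j _ => (((nK.Dl (p2 j)).cv nf).mul ng).integrable]
    congr 1; funext x
    rw [← sum_mul, sum_congr rfl fun j _ => congrFun (cv_comm _ _) x,
      ← cv_sum _ nf fun j => nK.Dl (p2 j), cv_comm]
    rfl
  have e1 : |∑ j ∈ Ico j0 j1, (T j (stp u) - T j (hh j))| ≤ c1 * M * Z := by
    refine le_of_eq_of_le (congrArg _ (sum_congr rfl fun j _ => ?_))
      (hC' _ _ _ _ P1 (by positivity) (Ico j0 j1))
    have e : Dl (2 ^ j) (fun z => (-1) * cv η η z) =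
        fun z => (-1) * cv (Dl (2 ^ j) η) (Dl (2 ^ j) η) z := by
      funext z; rw [← Dl_cv (p2 j)]; simp only [Dl]; ring
    rw [← Tsub j nf (nh j), e]
    refine congrArg (T j) (funext fun z => ?_)
    rw [cv_comm _ (stp u), cv_cmul, cv_comm (stp u), cv_assoc (nD j) (nD j) nf]
  have e2 : ∀ m : ℕ, |∑ j ∈ Ico j0 j1, (T j (hh (j + m)) - T j (hh (j + (m + 1))))| ≤
      c1 * M * (3 / 4) ^ m * Z := fun m => by
    refine le_of_eq_of_le (congrArg _ ?_) (hC' _ _ _ _ (P2 m) (by positivity)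
      (Ico (j0 + m) (j1 + m)))
    rw [← sum_Ico_add']
    refine sum_congr rfl fun j _ => ?_
    have e : ∀ b, Dl (2 ^ (j + m)) (lc b η) =
        fun z => 1 * Dl (2 ^ (j + m)) η z + b * Dl (2 ^ (j + (m + 1))) η z := fun b => by
      funext z
      rw [← add_assoc, pow_succ, ← Dl_Dl]
      simp only [Dl, lc]; ring
    have n1 := nD (j + m)
    have n2 := nD (j + (m + 1))
    have n3 := fun b => (n1.cmul 1).add (n2.cmul b)
    rw [← Tsub j (nh _) (nh _), Dl_cv (p2 _), Dl_Dl, e, e, pow_add, mul_inv_cancel_right₀ (p2 m).ne',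
      ← pow_add, cv_assoc (nK.Dl (p2 j)) (n3 1) ((nf.cmul 0).add ((n3 (-1)).cv nf))]
    refine congrArg (T j) (funext fun z => ?_)
    simp only [zero_mul, zero_add, hhh]
    rw [funext (cv_lin' nf n1 n2 1 (-1)), cv_lin (n3 1) (n1.cv nf) (n2.cv nf),
      cv_lin' (n1.cv nf) n1 n2, cv_lin' (n2.cv nf) n1 n2, ← cv_assoc n1 n2 nf, ← cv_assoc n2 n1 nf,
      cv_comm (Dl (2 ^ (j + m)) η) (Dl (2 ^ (j + (m + 1))) η)]
    ring
  obtain ⟨b, hb⟩ := nη.bdd
  set R := (∫ y, |stp v y|) * ((∫ y, |K y|) * ((∫ y, |η y|) * ((∫ y, |stp u y|) * b))) with hR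
  have e3 : ∀ N j : ℕ, |T j (hh (j + N))| ≤ R * (1 / 2) ^ N := fun N j => by
    have a1 : ∀ y, |Dl (2 ^ (j + N)) η y| ≤ b * (1 / 2) ^ N := fun y => by
      rw [Dl, abs_mul, mul_comm, abs_of_pos (by positivity : (0 : ℝ) < ((2 ^ (j + N)) ^ d)⁻¹)]
      refine mul_le_mul (hb _) ?_ (by positivity) ((abs_nonneg _).trans (hb 0))
      rw [one_div, inv_pow, ← pow_mul]
      exact inv_anti₀ (p2 N) (pow_le_pow_right₀ one_le_two (by nlinarith))
    simp only [hT, mul_comm _ (stp v _)]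
    refine (int_mul_le ng.integrable (abs_cv_le (nK.Dl (p2 j)) (abs_cv_le (nD _)
      (abs_cv_le' nf a1)))).trans (le_of_eq ?_)
    rw [int_abs_Dl (p2 _), int_abs_Dl (p2 _), hR]; ring
  have e4 : ∀ N : ℕ, |∑ j ∈ Ico j0 j1, T j (stp u)| ≤
      5 * (c1 * M * Z) + (Ico j0 j1).card * R * (1 / 2) ^ N := fun N => by
    have a1 : ∑ j ∈ Ico j0 j1, T j (stp u) = ∑ j ∈ Ico j0 j1, (T j (stp u) - T j (hh j)) +
        ∑ m ∈ range N, ∑ j ∈ Ico j0 j1, (T j (hh (j + m)) - T j (hh (j + (m + 1)))) +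
        ∑ j ∈ Ico j0 j1, T j (hh (j + N)) := by
      rw [sum_comm, ← sum_add_distrib, ← sum_add_distrib]
      refine sum_congr rfl fun j _ => ?_
      rw [sum_range_sub' fun m => T j (hh (j + m)), add_zero]; ring
    have a2 := (abs_sum_le_sum_abs _ _).trans (sum_le_sum fun m (_ : m ∈ range N) => e2 m)
    have a3 := (abs_sum_le_sum_abs _ _).trans (sum_le_sum fun j (_ : j ∈ Ico j0 j1) => e3 N j)
    have a4 := geo_le (η := 3 / 4) (by norm_num) (by norm_num) 0 N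
    rw [← sum_mul, ← mul_sum, range_eq_Ico] at a2
    rw [sum_const, nsmul_eq_mul, ← mul_assoc] at a3
    have a5 := mul_le_mul_of_nonneg_right (mul_le_mul_of_nonneg_left a4
      (by positivity : 0 ≤ c1 * M)) hZ0
    rw [a1, range_eq_Ico]
    refine (abs_add_three _ _ _).trans ?_
    rw [pow_zero, show (1 : ℝ) / (1 - 3 / 4) = 4 by norm_num] at a5
    linarith
  rw [e0]
  have lim := (tendsto_pow_atTop_nhds_zero_of_lt_one (r := (1 / 2 : ℝ)) (by norm_num)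
    (by norm_num)).const_mul (((Ico j0 j1).card : ℝ) * R) |>.const_add (5 * (c1 * M * Z))
  rw [mul_zero, add_zero] at lim
  exact ge_of_tendsto' lim e4

theorem final (d : ℕ) (hd : 1 ≤ d) : FinalStmt d :=
  final_of_lattice d hd (lattice d hd (seeger d hd))

end Pool.Agent.P.MP_70f35d_an
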