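import Pool.Agent.P.MP_70f35d_an.Cells

set_option autoImplicit false
open MeasureTheory Finset

namespace Pool.Agent.P.MP_70f35d_an
open SG

variable {d : ℕ}

/-- integrand of the local forms -/
noncomputable def Hf (b0 : ℝ) (β A f g : Eu d → ℝ) (z : Eu d) : ℝ :=
  (b0 * f z + cv β f z) * cv (rf A) g z

/-- local form -/
noncomputable def Lm (b0 : ℝ) (β A S f g : Eu d → ℝ) : ℝ := ∫ z, S z * Hf b0 β A f g z

namespace SG.Pr

variable {c0 c b0 V : ℝ} {β A S f g f' : Eu d → ℝ} (h : Pr c0 c b0 β A)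
include h

lemma nB (hf : Nice f) : Nice fun z => b0 * f z + cv β f z := (hf.cmul _).add (h.nβ.cv hf)

lemma nH (hf : Nice f) (hg : Nice g) : Nice (Hf b0 β A f g) := (h.nB hf).mul (h.nA.rf.cv hg)

lemma lin1 (hS : Nice S) (hf : Nice f) (hf' : Nice f') (hg : Nice g) (p q : ℝ) :
    Lm b0 β A S (fun z => p * f z + q * f' z) g = p * Lm b0 β A S f g + q * Lm b0 β A S f' g := by
  simp only [Lm]
  rw [← integral_const_mul, ← integral_const_mul, ← integral_add
    ((hS.mul (h.nH hf hg)).cmul p).integrable ((hS.mul (h.nH hf' hg)).cmul q).integrable]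
  congr 1; funext z
  simp only [Hf, cv_lin h.nβ hf hf']; ring

lemma lin2 (hS : Nice S) (hf : Nice f) (hf' : Nice f') (hg : Nice g) (p q : ℝ) :
    Lm b0 β A S g (fun z => p * f z + q * f' z) = p * Lm b0 β A S g f + q * Lm b0 β A S g f' := by
  simp only [Lm]
  rw [← integral_const_mul, ← integral_const_mul, ← integral_add
    ((hS.mul (h.nH hg hf)).cmul p).integrable ((hS.mul (h.nH hg hf')).cmul q).integrable]
  congr 1; funext z
  simp only [Hf, cv_lin h.nA.rf hf hf']; ring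

lemma ptw (h1 : ∀ z, |S z| ≤ 1) (hf : Nice f) (z : Eu d) :
    |S z * (b0 * f z + cv β f z)| ≤ |f z| + |S z| * ((∫ y, |f y|) * c0) := by
  rw [mul_add]
  refine (abs_add_le _ _).trans (add_le_add ?_ ?_)
  · rw [abs_mul, abs_mul, ← mul_assoc]
    exact mul_le_of_le_one_left (abs_nonneg _) (mul_le_one₀ (h1 z) (abs_nonneg _) h.hb)
  · rw [abs_mul]
    exact mul_le_mul_of_nonneg_left (abs_cv_le' hf h.bβ z) (abs_nonneg _)

lemma L0 (hS : Nice S) (h1 : ∀ z, |S z| ≤ 1) (hV : ∫ z, |S z| ≤ V) (hf : Nice f) (hg : Nice g) :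
    |Lm b0 β A S f g| ≤ (1 + V * c0) * (∫ y, |f y|) * ((∫ y, |g y|) * c) := by
  have hc0 : 0 ≤ c0 := (abs_nonneg _).trans (h.bβ 0)
  have hc : 0 ≤ c := (abs_nonneg _).trans (h.bA 0)
  have f0 : 0 ≤ ∫ y, |f y| := integral_nonneg fun _ => abs_nonneg _
  have g0 : 0 ≤ ∫ y, |g y| := integral_nonneg fun _ => abs_nonneg _
  simp only [Lm, Hf, ← mul_assoc]
  rw [mul_assoc _ _ c]
  refine (int_mul_le (hS.mul (h.nB hf)).integrable
    (abs_cv_le' hg fun y => h.bA (-y))).trans (mul_le_mul_of_nonneg_right ?_ (by positivity))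
  refine (integral_mono (hS.mul (h.nB hf)).abs.integrable (hf.abs.integrable.add
    (hS.abs.integrable.mul_const _)) (h.ptw h1 hf)).trans ?_
  rw [integral_add' hf.abs.integrable (hS.abs.integrable.mul_const _), integral_mul_const]
  linarith [mul_le_mul_of_nonneg_right hV (mul_nonneg f0 hc0)]

lemma L2r (hS : Nice S) (h1 : ∀ z, |S z| ≤ 1) (hV : ∫ z, |S z| ≤ V) (hf : Nice f) (hg : Nice g) :
    Lm b0 β A S f g ^ 2 ≤ (2 * (∫ y, f y ^ 2) + 2 * (V * ((∫ y, |f y|) * c0) ^ 2)) *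
      ∫ z, cv (rf A) g z ^ 2 := by
  simp only [Lm, Hf, ← mul_assoc]
  refine (int_cs (hS.mul (h.nB hf)) (h.nA.rf.cv hg)).trans
    (mul_le_mul_of_nonneg_right ?_ (integral_nonneg fun _ => sq_nonneg _))
  have i1 := (hf.sq.cmul 2).integrable
  have i2 := hS.abs.integrable.mul_const (2 * ((∫ y, |f y|) * c0) ^ 2)
  refine (integral_mono (hS.mul (h.nB hf)).sq.integrable (i1.add i2) fun z => ?_).trans ?_
  · have a1 := pow_le_pow_left₀ (abs_nonneg _) (h.ptw h1 hf z) 2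
    have a2 := mul_le_mul_of_nonneg_right (pow_le_of_le_one (abs_nonneg _) (h1 z) two_ne_zero)
      (sq_nonneg ((∫ y, |f y|) * c0))
    rw [sq_abs] at a1
    simp only [Pi.add_apply]
    nlinarith [sq_abs (f z), sq_nonneg (|f z| - |S z| * ((∫ y, |f y|) * c0))]
  · rw [integral_add' i1 i2, integral_mul_const, integral_const_mul]
    nlinarith [mul_le_mul_of_nonneg_right hV (sq_nonneg ((∫ y, |f y|) * c0))]

lemma L2l (hS : Nice S) (h1 : ∀ z, |S z| ≤ 1) (hV : ∫ z, |S z| ≤ V) (hf : Nice f) (hg : Nice g) :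
    Lm b0 β A S f g ^ 2 ≤ 2 * ((∫ z, cv A (fun y => S y * f y) z ^ 2) * ∫ y, g y ^ 2) +
      2 * ((∫ z, cv β f z ^ 2) * (V * ((∫ y, |g y|) * c) ^ 2)) := by
  have n1 := h.nA.rf.cv hg
  have e : Lm b0 β A S f g = b0 * (∫ z, cv A (fun y => S y * f y) z * g z) +
      ∫ z, cv β f z * (S z * cv (rf A) g z) := by
    rw [cv_adj h.nA (hS.mul hf) hg, ← integral_const_mul, ← integral_add
      (((hS.mul hf).mul n1).cmul b0).integrable ((h.nβ.cv hf).mul (hS.mul n1)).integrable, Lm]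
    congr 1; funext z
    rw [Hf]; ring
  have a1 := int_cs (h.nA.cv (hS.mul hf)) hg
  have a2 := int_cs (h.nβ.cv hf) (hS.mul n1)
  have a3 : ∫ z, (S z * cv (rf A) g z) ^ 2 ≤ V * ((∫ y, |g y|) * c) ^ 2 := by
    refine (integral_mono (hS.mul n1).sq.integrable (hS.abs.integrable.mul_const
      (((∫ y, |g y|) * c) ^ 2)) fun z => ?_).trans ?_
    · simp only
      rw [mul_pow, ← sq_abs (S z), ← sq_abs (cv _ _ _)]
      exact mul_le_mul (pow_le_of_le_one (abs_nonneg _) (h1 z) two_ne_zero) (pow_le_pow_left₀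
        (abs_nonneg _) (abs_cv_le' hg (fun y => h.bA (-y)) z) 2) (sq_nonneg _) (abs_nonneg _)
    · rw [integral_mul_const]
      exact mul_le_mul_of_nonneg_right hV (sq_nonneg _)
  have a4 := a2.trans (mul_le_mul_of_nonneg_left a3 (integral_nonneg fun _ => sq_nonneg _))
  have a5 : b0 ^ 2 ≤ 1 := by rw [← sq_abs]; exact pow_le_one₀ (abs_nonneg _) h.hb
  rw [e]
  generalize (∫ z, cv A (fun y => S y * f y) z * g z) = p at *
  generalize (∫ z, cv β f z * (S z * cv (rf A) g z)) = q at *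
  nlinarith [sq_nonneg (b0 * p - q), mul_le_mul_of_nonneg_right a5 (sq_nonneg p)]

end SG.Pr

variable {o : Fin d → ℤ} {n : ℕ}

/-- indicator of the middle part of a cell -/
noncomputable def Sm (t : ℕ) (x : bx o n) : Eu d → ℝ :=
  St (32 / 2 ^ (n - t)) (Rs t x fun a => I (mid o (n - t) a.1))

lemma Sm_nice (t : ℕ) (x : bx o n) : Nice (Sm t x) := St_nice (by positivity) _

lemma loc {t : ℕ} {x : bx o n} {z y : Eu d} (hz : Sm t x z ≠ 0) (hy : ‖y‖ ≤ 8) :
    ∃ a, PP o n t x a ∧ a.1 = fl (32 / 2 ^ (n - t)) (z - y) := by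
  rcases St_cases (32 / 2 ^ (n - t)) o n z with ⟨a, ha, h⟩ | ⟨-, h⟩
  · rw [Sm, h] at hz
    have h1 := Cor.I_ne (right_ne_zero_of_mul hz)
    rw [ha] at h1
    have h2 := near h1 hy
    rw [← ha] at h2
    exact ⟨⟨_, mem_bx.2 ((ce_mono (Nat.sub_le n t) h2).symm.trans (mem_bx.1 a.2))⟩,
      (show ce o _ x.1 = ce o _ a.1 from Cor.I_ne (left_ne_zero_of_mul hz)).trans h2, rfl⟩
  · exact absurd (h _) hz

lemma St_lin (δ : ℝ) (t : ℕ) (x : bx o n) (F G : bx o n → ℝ) (p q : ℝ) :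
    St δ (Rs t x fun a => p * F a + q * G a) =
      fun z => p * St δ (Rs t x F) z + q * St δ (Rs t x G) z := funext fun z => by
  rcases St_cases δ o n z with ⟨a, -, h⟩ | ⟨-, h⟩ <;> simp only [h, Rs] <;> ring

/-- constant -/
noncomputable def cW (d : ℕ) (c0 : ℝ) : ℝ := 2 * (1 + 32 ^ d * c0) * (32 ^ d) ^ 2

lemma exists_forms {c0 c b0 η : ℝ} {β A : Eu d → ℝ} (h : Pr c0 c b0 β A) (hc : 0 < c) (η0 : 0 < η)
    (η1 : η ≤ 1) (hη : 1 / 2 ≤ η ^ (8 * d + 16)) (o : Fin d → ℤ) (n : ℕ) :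
    ∃ L : Forms (PP o n) η, ∀ t x F G, L.ℓ t x F G = (cW d c0 * c)⁻¹ * Lm b0 β A (Sm t x)
      (St (32 / 2 ^ (n - t)) (Rs t x F)) (St (32 / 2 ^ (n - t)) (Rs t x G)) := by
  have hc0 : 0 ≤ c0 := (abs_nonneg _).trans (h.bβ 0)
  have hV : (1 : ℝ) ≤ 32 ^ d := one_le_pow₀ (by norm_num)
  have hW : 0 < cW d c0 * c := by unfold cW; positivity
  have nS : ∀ t (F : bx o n → ℝ), Nice (St (32 / 2 ^ (n - t)) F) := fun t F =>
    St_nice (by positivity) F
  have S1 : ∀ t (x : bx o n) z, |Sm t x z| ≤ 1 := fun t x z => by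
    rcases St_cases (32 / 2 ^ (n - t)) o n z with ⟨a, -, h⟩ | ⟨-, h⟩ <;> rw [Sm, h]
    · rw [Rs, abs_of_nonneg (mul_nonneg (I_nonneg _) (I_nonneg _))]
      exact mul_le_one₀ (I_le_one _) (I_nonneg _) (I_le_one _)
    · simp
  have S2 : ∀ t (x : bx o n), ∫ z, |Sm t x z| ≤ 32 ^ d := fun t x => by
    rw [Sm, int_Rs t x _ abs_zero]
    exact mul_le_of_le_one_right (by positivity) (E_le_of_le fun y _ =>
      (abs_of_nonneg (I_nonneg _)).trans_le (I_le_one _))
  have S3 : ∀ t (x : bx o n) z, Sm t x z ≠ 0 → ∀ y, ‖y‖ ≤ 8 →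
      St (32 / 2 ^ (n - t)) (Rs t x fun _ => 1) (z - y) = 1 := fun t x z hz y hy => by
    obtain ⟨a, ha, ha'⟩ := loc hz hy
    rw [St_eq ha', Rs, I_of ha, mul_one]
  have hκ : ∀ s : ℕ, 0 < (η ^ s) ^ 4 ∧ (η ^ s) ^ 4 ≤ 1 ∧
      (1 / 2) ^ s ≤ ((η ^ s) ^ 4) ^ (2 * d + 4) := fun s => ⟨by positivity,
    pow_le_one₀ (by positivity) (pow_le_one₀ η0.le η1),
    (pow_le_pow_left₀ (by norm_num) hη s).trans_eq (by ring)⟩
  have q0 : (0 : ℝ) ^ 2 = 0 := by norm_num
  have J : ∀ t (x : bx o n) (F : bx o n → ℝ), E (PP o n t) (fun y => |F y|) x ^ 2 ≤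
      E (PP o n t) (fun y => F y ^ 2) x := fun t x F => by
    simpa only [sq_abs] using E_sq_le (PP o n t) (fun y => |F y|) x
  have fin : ∀ {z p : ℝ}, 0 ≤ p → z ^ 2 ≤ (2 * (32 ^ d) ^ 2 + 2 * (c0 ^ 2 * (32 ^ d) ^ 4)) *
      c ^ 2 * p → ((cW d c0 * c)⁻¹ * z) ^ 2 ≤ p := fun {z p} hp hz => by
    rw [mul_pow, inv_pow, inv_mul_le_iff₀ (by positivity), mul_pow]
    refine hz.trans (mul_le_mul_of_nonneg_right (mul_le_mul_of_nonneg_right ?_ (sq_nonneg _)) hp)
    rw [cW]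
    generalize (32 : ℝ) ^ d = V at hV
    have a1 : V ^ 2 ≤ V ^ 4 := pow_le_pow_right₀ hV (by norm_num)
    have a2 := mul_le_mul_of_nonneg_left (pow_le_pow_right₀ hV (show 4 ≤ 6 by norm_num))
      (sq_nonneg c0)
    have a3 : 0 ≤ c0 * V ^ 5 := by positivity
    have a4 : 0 ≤ c0 ^ 2 * V ^ 6 := by positivity
    have a5 : 0 ≤ V ^ 4 := by positivity
    nlinarith
  have L0 : ∀ t x F G, |(cW d c0 * c)⁻¹ * Lm b0 β A (Sm t x) (St (32 / 2 ^ (n - t)) (Rs t x F))
      (St (32 / 2 ^ (n - t)) (Rs t x G))| ≤ 1 / 2 *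
      (E (PP o n t) (fun y => |F y|) x * E (PP o n t) (fun y => |G y|) x) := fun t x F G => by
    rw [abs_mul, abs_of_pos (inv_pos.2 hW), inv_mul_le_iff₀ hW]
    refine (h.L0 (Sm_nice t x) (S1 t x) (S2 t x) (nS t _) (nS t _)).trans (le_of_eq ?_)
    rw [int_Rs t x F abs_zero, int_Rs t x G abs_zero, cW]; ring
  refine ⟨⟨fun t x => LinearMap.mk₂ ℝ (fun F G => (cW d c0 * c)⁻¹ * Lm b0 β A (Sm t x)
    (St (32 / 2 ^ (n - t)) (Rs t x F)) (St (32 / 2 ^ (n - t)) (Rs t x G))) (fun F F' G => ?_)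
    (fun p F G => ?_) (fun F G G' => ?_) (fun p F G => ?_), fun t x F G => ?_, fun t x G => ?_,
    fun t x F => ?_, fun t s x F G hF => ?_, fun t s x F G hG => ?_⟩, fun _ _ _ _ => rfl⟩
  · rw [show F + F' = fun a => 1 * F a + 1 * F' a from funext fun a => by simp, St_lin,
      h.lin1 (Sm_nice t x) (nS t _) (nS t _) (nS t _)]; ring
  · rw [show p • F = fun a => p * F a + 0 * F a from funext fun a => by simp, St_lin,
      h.lin1 (Sm_nice t x) (nS t _) (nS t _) (nS t _), smul_eq_mul]; ring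
  · rw [show G + G' = fun a => 1 * G a + 1 * G' a from funext fun a => by simp, St_lin,
      h.lin2 (Sm_nice t x) (nS t _) (nS t _) (nS t _)]; ring
  · rw [show p • G = fun a => p * G a + 0 * G a from funext fun a => by simp, St_lin,
      h.lin2 (Sm_nice t x) (nS t _) (nS t _) (nS t _), smul_eq_mul]; ring
  · refine (L0 t x F G).trans (mul_le_of_le_one_left (mul_nonneg (E_nonneg fun _ => abs_nonneg _)
      (E_nonneg fun _ => abs_nonneg _)) (by norm_num))
  · refine mul_eq_zero_of_right _ (integral_eq_zero_of_ae (Filter.Eventually.of_forall fun z => ?_))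
    by_cases hz : Sm t x z = 0
    · simp [hz]
    · have := S3 t x z hz 0 (by simp)
      rw [sub_zero] at this
      simp only [Hf, cv_congr (g := fun _ => 1) h.sβ (S3 t x z hz), this]
      simp [cv, h.iβ]
  · refine mul_eq_zero_of_right _ (integral_eq_zero_of_ae (Filter.Eventually.of_forall fun z => ?_))
    by_cases hz : Sm t x z = 0
    · simp [hz]
    · simp only [Hf, cv_congr (K := rf A) (g := fun _ => 1)
        (fun y hy => by simpa using h.sA _ hy) (S3 t x z hz)]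
      simp [cv, rf, integral_neg_eq_self, h.iA]
  · obtain ⟨k0, k1, k2⟩ := hκ s
    have x0 := E_nonneg (P := PP o n t) (x := x)
      fun y => sq_nonneg (E (PP o n (t + s)) (fun z => |F z|) y)
    have g0 := E_nonneg (P := PP o n t) (x := x) fun y => sq_nonneg (G y)
    rcases lt_or_ge s 2 with hs | hs
    · have a1 := pow_le_pow_left₀ (abs_nonneg _) (L0 t x F G) 2
      have a2 := E_sq_le (PP o n t) (E (PP o n (t + s)) fun z => |F z|) x
      rw [filt_PP.E_E (Nat.le_add_right t s)] at a2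
      have a3 : 1 / 2 ≤ (η ^ s) ^ 4 := by
        rw [← pow_mul]; exact hη.trans (pow_le_pow_of_le_one η0.le η1 (by omega))
      rw [sq_abs, mul_pow (1 / 2), mul_pow (E _ _ _)] at a1
      exact a1.trans (mul_le_mul (by linarith) (mul_le_mul a2 (J t x G) (sq_nonneg _) x0)
        (by positivity) k0.le)
    refine fin (by positivity) ((h.L2l (Sm_nice t x) (S1 t x) (S2 t x) (nS t _) (nS t _)).trans ?_)
    have e : (fun y => Sm t x y * St (32 / 2 ^ (n - t)) (Rs t x F) y) = St (32 / 2 ^ (n - t))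
        (Rs t x fun a => I (mid o (n - t) a.1) * F a) := funext fun z => by
      rcases St_cases (32 / 2 ^ (n - t)) o n z with ⟨a, -, h⟩ | ⟨-, h⟩ <;> simp only [Sm, h, Rs]
      · rw [mul_mul_mul_comm, I_mul_I]
      · rw [mul_zero]
    have a1 := see_lat (F := fun a => I (mid o (n - t) a.1) * F a) h.eA t s x (fun y => by
      rw [E_mul_left F fun a ha => ?_, hF, mul_zero]
      simp only [mid, ce_mono (show n - (t + s) ≤ n - t - 2 by omega) ha]) k0 k1 k2
    have a2 : E (PP o n t) (fun y => E (PP o n (t + s))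
        (fun z => |I (mid o (n - t) z.1) * F z|) y ^ 2) x ≤
        E (PP o n t) (fun y => E (PP o n (t + s)) (fun z => |F z|) y ^ 2) x :=
      E_mono fun y _ => pow_le_pow_left₀ (E_nonneg fun _ => abs_nonneg _) (E_mono fun z _ => by
        rw [abs_mul, abs_of_nonneg (I_nonneg _)]
        exact mul_le_of_le_one_left (abs_nonneg _) (I_le_one _)) 2
    have a3 := see_lat h.eβ t s x hF k0 k1 k2
    have a4 := J t x G
    rw [e, int_Rs t x G abs_zero, int_Rs t x G (φ := fun x => x ^ 2) q0, mul_pow, mul_pow]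
    refine (add_le_add (mul_le_mul_of_nonneg_left (mul_le_mul_of_nonneg_right
      (a1.trans (mul_le_mul_of_nonneg_left (mul_le_mul_of_nonneg_left a2 (by positivity))
      (by positivity))) (by positivity)) zero_le_two) (mul_le_mul_of_nonneg_left (mul_le_mul a3
      (mul_le_mul_of_nonneg_left (mul_le_mul_of_nonneg_right (mul_le_mul_of_nonneg_left a4
      (by positivity)) (sq_nonneg c)) (by positivity)) (by positivity) (by positivity))
      zero_le_two)).trans (le_of_eq (by ring))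
  · obtain ⟨k0, k1, k2⟩ := hκ s
    have x0 := E_nonneg (P := PP o n t) (x := x)
      fun y => sq_nonneg (E (PP o n (t + s)) (fun z => |G z|) y)
    have g0 := E_nonneg (P := PP o n t) (x := x) fun y => sq_nonneg (F y)
    refine fin (by positivity) ((h.L2r (Sm_nice t x) (S1 t x) (S2 t x) (nS t _) (nS t _)).trans ?_)
    rw [int_Rs t x F abs_zero, int_Rs t x F (φ := fun x => x ^ 2) q0, mul_pow, mul_pow]
    refine (mul_le_mul (add_le_add_right (mul_le_mul_of_nonneg_left (mul_le_mul_of_nonneg_left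
      (mul_le_mul_of_nonneg_right (mul_le_mul_of_nonneg_left (J t x F) (by positivity))
      (sq_nonneg c0)) (by positivity)) zero_le_two) _) (see_lat h.eA' t s x hG k0 k1 k2)
      (integral_nonneg fun _ => sq_nonneg _) (by positivity)).trans (le_of_eq (by ring))

lemma cell_sum {c0 c b0 : ℝ} {β A : Eu d → ℝ} (h : Pr c0 c b0 β A) (t : ℕ) (F G : bx o n → ℝ) :
    ∑ x, Lm b0 β A (Sm t x) (St (32 / 2 ^ (n - t)) (Rs t x F)) (St (32 / 2 ^ (n - t)) (Rs t x G)) =
      (2 ^ (n - t)) ^ d * ∫ z, I (mid o (n - t) (fl (32 / 2 ^ (n - t)) z)) *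
        Hf b0 β A (St (32 / 2 ^ (n - t)) F) (St (32 / 2 ^ (n - t)) G) z := by
  have nS : ∀ F : bx o n → ℝ, Nice (St (32 / 2 ^ (n - t)) F) := St_nice (by positivity)
  simp only [Lm]
  rw [← integral_finsetSum _ fun x _ => ((Sm_nice t x).mul (h.nH (nS _) (nS _))).integrable,
    ← integral_const_mul]
  congr 1; funext z
  have e : ∀ x, Sm t x z * Hf b0 β A (St (32 / 2 ^ (n - t)) (Rs t x F))
      (St (32 / 2 ^ (n - t)) (Rs t x G)) z = Sm t x z *
      Hf b0 β A (St (32 / 2 ^ (n - t)) F) (St (32 / 2 ^ (n - t)) G) z := fun x => by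
    by_cases hz : Sm t x z = 0
    · rw [hz, zero_mul, zero_mul]
    have e1 : ∀ F : bx o n → ℝ, ∀ y, ‖y‖ ≤ 8 → St (32 / 2 ^ (n - t)) (Rs t x F) (z - y) =
        St (32 / 2 ^ (n - t)) F (z - y) := fun F y hy => by
      obtain ⟨a, ha, ha'⟩ := loc hz hy
      rw [St_eq ha', St_eq ha', Rs, I_of ha, one_mul]
    have e2 := e1 F 0 (by simp)
    rw [sub_zero] at e2
    rw [Hf, Hf, e2, cv_congr h.sβ (e1 F),
      cv_congr (K := rf A) (fun y hy => by simpa using h.sA _ hy) (e1 G)]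
  refine (sum_congr rfl fun x _ => e x).trans ?_
  rw [← sum_mul, ← mul_assoc]
  rcases St_cases (32 / 2 ^ (n - t)) o n z with ⟨a, ha, h1⟩ | ⟨ha, h1⟩
  · have : ∀ x, I (PP o n t x a) = I (PP o n t a x) := fun x =>
      congrArg I (propext ⟨(PP o n t).symm', (PP o n t).symm'⟩)
    simp only [Sm, h1, Rs, this, sum_I, E_const, card_cls, ha]
  · simp only [Sm, h1, sum_const_zero, zero_mul]
    by_cases hm : mid o (n - t) (fl (32 / 2 ^ (n - t)) z)
    · rw [Hf, h1, cv_congr (g := fun _ => 0) h.sβ fun y hy => dif_neg fun hn => ha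
        (mem_bx.2 ((ce_mono (Nat.sub_le n t) (near hm hy)).trans (mem_bx.1 hn)))]
      simp [cv]
    · rw [I_not hm, mul_zero, zero_mul]

end Pool.Agent.P.MP_70f35d_an
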