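import Pool.Agent.P.MP_70f35d_an.Est

set_option autoImplicit false
open Finset

namespace Pool.Agent.P.MP_70f35d_an

variable {X : Type} [Fintype X]

namespace Cor

variable (S : Cor X)

noncomputable def Γ (l N t : ℕ) (y : X) : ℝ := I (S.g t y + l ≤ S.g (t + N) y)

lemma Γ_nonneg (l N t : ℕ) (y : X) : 0 ≤ S.Γ l N t y := I_nonneg _
lemma Γ_le_one (l N t : ℕ) (y : X) : S.Γ l N t y ≤ 1 := I_le_one _

lemma Γ_meas (l N t : ℕ) : Meas (S.P (t + N)) (S.Γ l N t) := fun x y h => by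
  simp only [Γ, S.g_meas h, S.g_meas (S.hP.mono (Nat.le_add_right t N) h)]

lemma gam_le {μ : X → ℝ} {κ c : ℝ} (hg : S.Good μ κ) (hκ : 0 < κ) {l N : ℕ} (hl : 1 ≤ l)
    (hN : (N : ℝ) ≤ c * l) (r n : ℕ) (x : X) :
    E (S.P r) (fun y => ∑ t ∈ Ico r n, S.Γ l N t y * μ y) x ≤ c / κ * E (S.P r) μ x := by
  have h1 := hg.gam hκ.le l N r n x
  have h2 := mul_le_mul_of_nonneg_right hN (E_nonneg (P := S.P r) (x := x) hg.1)
  have hl' : (0 : ℝ) < l := by exact_mod_cast hl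
  rw [div_mul_eq_mul_div, le_div_iff₀ hκ]
  refine le_of_mul_le_mul_left ?_ hl'
  simp only [Γ]
  linarith

lemma c_nonneg {c : ℝ} {l N : ℕ} (hl : 1 ≤ l) (hN : (N : ℝ) ≤ c * l) : 0 ≤ c := by
  have hl' : (0 : ℝ) < l := by exact_mod_cast hl
  exact nonneg_of_mul_nonneg_left ((Nat.cast_nonneg N).trans hN) hl'

lemma carl_gam {μ h : X → ℝ} {c : ℝ} (hμ : ∀ x, 0 < μ x) (hg : S.Good μ (1 / (4 * S.A)))
    (h0 : ∀ x, 0 ≤ h x) (h1 : ∑ x, μ x * h x ^ 2 ≤ 1) {l N : ℕ} (hl : 1 ≤ l)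
    (hN : (N : ℝ) ≤ c * l) (n : ℕ) :
    ∑ t ∈ range n, ∑ x, S.Γ l N t x * μ x * Ew (S.P t) μ h x ^ 2 ≤ 16 * S.A * c := by
  have hA := S.hA1
  have hc := c_nonneg hl hN
  have := carleson S.hP (α := fun t x => S.Γ l N t x * μ x) (n := n) (C := 4 * S.A * c) hμ h0
    (by positivity) (fun t x => mul_nonneg (I_nonneg _) (hμ x).le) fun r _ x => by
      have := S.gam_le hg (by positivity) hl hN r n x
      rwa [div_div_eq_mul_div, div_one, mul_comm c] at this
  nlinarith [mul_nonneg (by linarith : 0 ≤ S.A) hc]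

lemma carl_shift {μ h : X → ℝ} {c : ℝ} (hμ : ∀ x, 0 < μ x) (hg : S.Good μ (1 / (4 * S.A)))
    (h0 : ∀ x, 0 ≤ h x) (h1 : ∑ x, μ x * h x ^ 2 ≤ 1) {l N : ℕ} (hl : 1 ≤ l)
    (hN : (N : ℝ) ≤ c * l) (n : ℕ) :
    ∑ t ∈ range n, ∑ x, S.Γ l N t x * μ x * Ew (S.P (t + N)) μ h x ^ 2 ≤
      4 * (N + 4 * S.A * c) := by
  have hA := S.hA1
  have hc := c_nonneg hl hN
  have := carleson (P := fun t => S.P (t + N)) (fun t x y h => S.hP.mono (by omega) h)
    (α := fun t x => S.Γ l N t x * μ x) (n := n) (C := N + 4 * S.A * c) hμ h0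
    (by positivity) (fun t x => mul_nonneg (I_nonneg _) (hμ x).le) fun r _ x => by
      have := S.gam_le hg (by positivity) hl hN (r + N) n x
      rw [div_div_eq_mul_div, div_one, mul_comm c] at this
      rw [add_mul, ← E_cmul _ (N : ℝ)]
      refine le_trans ?_ (add_le_add_right this _)
      rw [← E_add]
      refine E_mono fun y _ => ?_
      calc _ ≤ ∑ t ∈ Ico r (r + N) ∪ Ico (r + N) n, S.Γ l N t y * μ y :=
            sum_le_sum_of_subset_of_nonneg (fun t ht => by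
              simp only [mem_union, mem_Ico] at ht ⊢; omega)
              fun t _ _ => mul_nonneg (I_nonneg _) (hμ y).le
        _ ≤ _ := by
            rw [sum_union (Ico_disjoint_Ico_consecutive _ _ _)]
            refine add_le_add_left ?_ _
            refine (sum_le_card_nsmul _ _ (μ y) fun t _ =>
              mul_le_of_le_one_left (hμ y).le (I_le_one _)).trans (le_of_eq ?_)
            simp
  have h3 : 0 ≤ N + 4 * S.A * c := by positivity
  nlinarith

lemma win_F (N n : ℕ) :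
    ∑ t ∈ range n, ∑ x, S.σ x * (S.F (t + N) x - S.F t x) ^ 2 ≤ N := by
  have := window S.hP (φ := fun _ => 1) (f := S.f) S.hσ (p := 0) (n := n) (s := N)
    (fun _ _ _ => rfl) (fun _ => zero_le_one) zero_le_one fun q _ => by
      simpa only [one_mul] using (sum_Ew_sq_le S.hσ S.f).trans S.nf
  simpa only [one_mul, mul_one, range_eq_Ico, F] using this

noncomputable def Φ (t : ℕ) (x : X) : ℝ := √(√(E (S.P t) S.σ x * E (S.P t) S.w x))

lemma Φ_pos (t : ℕ) (x : X) : 0 < S.Φ t x :=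
  Real.sqrt_pos.2 (Real.sqrt_pos.2 (mul_pos (E_pos S.hσ) (E_pos S.hw)))

lemma Φ_pow (t : ℕ) (x : X) : S.Φ t x ^ 4 = E (S.P t) S.σ x * E (S.P t) S.w x :=
  sqrt_sqrt_pow (mul_pos (E_pos S.hσ) (E_pos S.hw)).le

lemma Φ_le (t : ℕ) (x : X) : S.Φ t x ≤ √(√S.A) := Real.sqrt_le_sqrt (Real.sqrt_le_sqrt (S.hA t x))

lemma defic (l N t : ℕ) (x : X) :
    E (S.P t) (fun y => S.Γ l N t y * S.σ y) x * E (S.P t) S.w x ≤
      8 * √(√S.A) ^ 3 * (S.Φ t x - E (S.P t) (S.Φ (t + N)) x +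
        √(√S.A) / 2 * E (S.P t) (S.Γ l N t) x) := by
  have hs := E_pos (P := S.P t) (x := x) S.hσ
  have hw := E_pos (P := S.P t) (x := x) S.hw
  have hΦ := S.Φ_pos t x
  have h1 : E (S.P t) (S.Φ (t + N)) x ≤ E (S.P t) (fun y => S.Φ t x *
      ((4 * E (S.P t) S.σ x)⁻¹ * E (S.P (t + N)) S.σ y + (4 * E (S.P t) S.w x)⁻¹ *
        E (S.P (t + N)) S.w y + 1 / 2 - (8 * E (S.P t) S.σ x)⁻¹ *
        (S.Γ l N t y * E (S.P (t + N)) S.σ y) + 1 / 2 * S.Γ l N t y)) x := by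
    refine E_mono fun y _ => ?_
    have h2 := amgm4 (z := S.Φ (t + N) y / S.Φ t x)
      (div_pos (E_pos (P := S.P (t + N)) (x := y) S.hσ) hs).le
      (div_pos (E_pos (P := S.P (t + N)) (x := y) S.hw) hw).le
      (by rw [div_pow, Φ_pow, Φ_pow, div_mul_div_comm])
    rw [← div_le_iff₀' hΦ]
    by_cases h : S.g t y + l ≤ S.g (t + N) y
    · refine h2.2.trans (le_of_eq ?_)
      rw [Γ, I_of h]; field_simp; ring
    · refine h2.1.trans (le_of_eq ?_)
      rw [Γ, I_not h]; field_simp; ring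
  rw [E_cmul, E_add, E_sub, E_add, E_add, E_cmul, E_cmul, E_cmul, E_cmul, E_const,
    S.hP.E_E (Nat.le_add_right t N), S.hP.E_E (Nat.le_add_right t N),
    S.hP.E_mul_E (Nat.le_add_right t N) (S.Γ_meas l N t)] at h1
  set θ := E (S.P t) (fun y => S.Γ l N t y * S.σ y) x / E (S.P t) S.σ x with hθ
  have hθ0 : 0 ≤ θ := div_nonneg (E_nonneg fun y => mul_nonneg (I_nonneg _) (S.hσ y).le) hs.le
  have hρ : 0 ≤ E (S.P t) (S.Γ l N t) x := E_nonneg fun y => I_nonneg _
  have e1 : E (S.P t) (fun y => S.Γ l N t y * S.σ y) x = θ * E (S.P t) S.σ x :=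
    (div_mul_cancel₀ _ hs.ne').symm
  have h2 : E (S.P t) (S.Φ (t + N)) x ≤
      S.Φ t x * (1 - θ / 8 + 1 / 2 * E (S.P t) (S.Γ l N t) x) := by
    refine h1.trans (le_of_eq ?_)
    rw [e1]; field_simp; ring
  have h3 := S.Φ_le t x
  have h4 : S.Φ t x ^ 3 ≤ √(√S.A) ^ 3 := pow_le_pow_left₀ hΦ.le h3 3
  rw [e1, mul_assoc, ← S.Φ_pow]
  have h5 : θ * S.Φ t x ≤ 8 * (S.Φ t x - E (S.P t) (S.Φ (t + N)) x +
      √(√S.A) / 2 * E (S.P t) (S.Γ l N t) x) := by
    nlinarith [mul_le_mul_of_nonneg_right h3 hρ]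
  calc _ = S.Φ t x ^ 3 * (θ * S.Φ t x) := by ring
    _ ≤ √(√S.A) ^ 3 * (θ * S.Φ t x) := mul_le_mul_of_nonneg_right h4 (by positivity)
    _ ≤ _ := by nlinarith [mul_le_mul_of_nonneg_left h5 (by positivity : 0 ≤ √(√S.A) ^ 3)]

lemma bellman {c : ℝ} {l N : ℕ} (hl : 1 ≤ l) (hN : (N : ℝ) ≤ c * l) (r n : ℕ) (x : X) :
    E (S.P r) (fun y => ∑ t ∈ Ico r n,
      E (S.P t) (fun y => S.Γ l N t y * S.σ y) y * E (S.P t) S.w y) x ≤ 16 * c * S.A * l := by
  have hA := S.hA1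
  have hc := c_nonneg hl hN
  have hl' : (1 : ℝ) ≤ l := by exact_mod_cast hl
  set R := √(√S.A) with hR
  have hR0 : 0 ≤ R := Real.sqrt_nonneg _
  have h1 := window_sum (c := fun q => R - E (S.P r) (S.Φ q) x) (p := r) (n := n) (s := N) hR0
    (fun q _ => sub_nonneg.2 (E_le_of_le fun y _ => S.Φ_le q y))
    fun q _ _ => sub_le_self _ (E_nonneg fun y => (S.Φ_pos q y).le)
  have h2 := S.gam_le S.good_one (by norm_num) hl hN r n x
  simp only [mul_one, E_const] at h2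
  rw [E_sum] at h2
  calc _ ≤ ∑ t ∈ Ico r n, 8 * R ^ 3 * ((R - E (S.P r) (S.Φ (t + N)) x - (R - E (S.P r) (S.Φ t) x))
        + R / 2 * E (S.P r) (S.Γ l N t) x) := by
        rw [E_sum]
        refine sum_le_sum fun t ht => (E_mono fun y _ => S.defic l N t y).trans (le_of_eq ?_)
        rw [E_cmul, E_add, E_sub, E_cmul, S.hP.E_E (mem_Ico.1 ht).1, S.hP.E_E (mem_Ico.1 ht).1]
        ring
    _ ≤ 8 * R ^ 3 * (N * R + R / 2 * (c / (1 / 2))) := by
        rw [← mul_sum, sum_add_distrib, ← mul_sum]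
        gcongr
    _ = 8 * R ^ 4 * (N + c) := by ring
    _ ≤ _ := by
        rw [hR, sqrt_sqrt_pow (by linarith)]
        have : (N : ℝ) + c ≤ 2 * c * l := by nlinarith
        nlinarith [mul_le_mul_of_nonneg_left this (by linarith : 0 ≤ 8 * S.A)]

lemma sq_any (l N t : ℕ) (x : X) : E (S.P t) (fun y => S.Γ l N t y * S.U y) x ^ 2 ≤
    E (S.P t) (fun y => S.Γ l N t y * S.σ y * S.F (t + N) y ^ 2) x *
      E (S.P t) (fun y => S.Γ l N t y * S.σ y) x := by
  rw [S.E_φU (Nat.le_add_right t N) (S.Γ_meas l N t)]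
  simp only [← mul_assoc]
  exact E_cs' _ (fun y => mul_nonneg (I_nonneg _) (S.hσ y).le) _ x

lemma EΓ_le (l N t : ℕ) (x : X) :
    E (S.P t) (fun y => S.Γ l N t y * S.σ y) x ≤ E (S.P t) S.σ x :=
  E_mono fun y _ => mul_le_of_le_one_left (S.hσ y).le (I_le_one _)

lemma EΓ_nonneg (l N t : ℕ) (x : X) : 0 ≤ E (S.P t) (fun y => S.Γ l N t y * S.σ y) x :=
  E_nonneg fun y => mul_nonneg (I_nonneg _) (S.hσ y).le

noncomputable def dif (l N t : ℕ) (x : X) : ℝ :=
  E (S.P t) (fun y => S.Γ l N t y * S.σ y * (S.F (t + N) y - S.F t y)) x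

lemma split (l N t : ℕ) (x : X) : E (S.P t) (fun y => S.Γ l N t y * S.U y) x =
    S.dif l N t x + S.F t x * E (S.P t) (fun y => S.Γ l N t y * S.σ y) x := by
  rw [S.E_φU (Nat.le_add_right t N) (S.Γ_meas l N t), dif, ← E_mul_left _ (S.F_meas t x), ← E_add]
  exact E_congr fun y _ => by ring

lemma sq_dif (l N t : ℕ) (x : X) : S.dif l N t x ^ 2 ≤
    E (S.P t) (fun y => S.σ y * (S.F (t + N) y - S.F t y) ^ 2) x * E (S.P t) S.σ x := by
  refine (E_cs' _ (fun y => mul_nonneg (I_nonneg _) (S.hσ y).le) _ x).trans ?_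
  refine mul_le_mul (E_mono fun y _ => ?_) (S.EΓ_le l N t x) (S.EΓ_nonneg l N t x)
    (E_nonneg fun y => mul_nonneg (S.hσ y).le (sq_nonneg _))
  exact mul_le_mul_of_nonneg_right (mul_le_of_le_one_left (S.hσ y).le (I_le_one _)) (sq_nonneg _)

lemma mul4 {a b p q s w A : ℝ} (h1 : a ^ 2 ≤ p * s) (h2 : b ^ 2 ≤ q * w) (hA : s * w ≤ A)
    (hp : 0 ≤ p) (hq : 0 ≤ q) : (a * b) ^ 2 ≤ A * (p * q) := by
  have := mul_le_mul h1 h2 (sq_nonneg _) ((sq_nonneg _).trans h1)
  nlinarith [mul_le_mul_of_nonneg_right hA (mul_nonneg hp hq)]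

theorem main_sharp {c : ℝ} {l L N N' : ℕ} (hl : 1 ≤ l) (hlL : l ≤ L) (hc : 1 ≤ c)
    (hN : (N : ℝ) ≤ c * l) (hN' : (N' : ℝ) ≤ c * L) (n : ℕ) :
    ∑ t ∈ range n, ∑ x, E (S.P t) (fun y => S.Γ l N t y * S.U y) x *
      E (S.P t) (fun y => S.Γ l N' t y * S.V y) x ≤ 104 * c * (√S.A * (S.A + L)) := by
  have hA := S.hA1
  have hl' : (1 : ℝ) ≤ l := by exact_mod_cast hl
  have hL : (l : ℝ) ≤ L := by exact_mod_cast hlL
  have hN2 : (N' : ℝ) ≤ c * L / l * l := by rw [div_mul_cancel₀ _ (by linarith)]; exact hN'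
  have hsq : (√S.A * (S.A + L)) ^ 2 = S.A * (S.A + L) ^ 2 := by
    rw [mul_pow, Real.sq_sqrt (by linarith)]
  set Y := √S.A * (S.A + L) with hY
  have hY0 : 0 ≤ Y := by positivity
  have hAL : S.A * (S.A * L) ≤ Y ^ 2 := by
    rw [hsq]; exact mul_le_mul_of_nonneg_left (by nlinarith) (by linarith)
  have hLL : S.A * (L * L + 4 * S.A * L) ≤ 4 * Y ^ 2 := by
    rw [hsq]; nlinarith [mul_nonneg (by linarith : 0 ≤ S.A) (sq_nonneg (L : ℝ)),
      mul_nonneg (by linarith : 0 ≤ S.A) (sq_nonneg S.A),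
      mul_nonneg (sq_nonneg S.A) (by linarith : (0 : ℝ) ≤ L)]
  have t1 := cs_sum (range n) (K := S.A)
    (z := fun t x => S.dif l N t x * E (S.P t) (fun y => S.Γ l N' t y * S.V y) x)
    (p := fun t x => E (S.P t) (fun y => S.σ y * (S.F (t + N) y - S.F t y) ^ 2) x)
    (q := fun t x => E (S.P t) (fun y => S.Γ l N' t y * S.w y * S.swap.F (t + N') y ^ 2) x)
    (a := N) (b := 4 * (N' + 4 * S.A * (c * L / l))) (by linarith)
    (fun t _ x => E_nonneg fun y => mul_nonneg (S.hσ y).le (sq_nonneg _))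
    (fun t _ x => E_nonneg fun y => mul_nonneg (mul_nonneg (I_nonneg _) (S.hw y).le) (sq_nonneg _))
    (fun t _ x => mul4 (S.sq_dif l N t x) (S.swap.sq_any l N' t x)
      ((mul_le_mul_of_nonneg_left (S.swap.EΓ_le l N' t x) (E_pos S.hσ).le).trans (S.hA t x))
      (E_nonneg fun y => mul_nonneg (S.hσ y).le (sq_nonneg _))
      (E_nonneg fun y => mul_nonneg (mul_nonneg (I_nonneg _) (S.hw y).le) (sq_nonneg _)))
    (by simp only [sum_E]; exact S.win_F N n)
    (by simp only [sum_E]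
        exact S.carl_shift S.hw S.swap.good_σ S.swap.f_nonneg S.swap.nf hl hN2 n)
  have t2 := cs_sum (range n) (K := S.A)
    (z := fun t x => (S.F t x * E (S.P t) (fun y => S.Γ l N t y * S.σ y) x) * S.swap.dif l N' t x)
    (p := fun t x => S.F t x ^ 2 * E (S.P t) (fun y => S.Γ l N t y * S.σ y) x)
    (q := fun t x => E (S.P t) (fun y => S.w y * (S.swap.F (t + N') y - S.swap.F t y) ^ 2) x)
    (a := 16 * S.A * c) (b := N') (by linarith)
    (fun t _ x => mul_nonneg (sq_nonneg _) (S.EΓ_nonneg l N t x))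
    (fun t _ x => E_nonneg fun y => mul_nonneg (S.hw y).le (sq_nonneg _))
    (fun t _ x => mul4 (s := E (S.P t) S.σ x) (by
        have := mul_le_mul_of_nonneg_left (S.EΓ_le l N t x)
          (mul_nonneg (sq_nonneg (S.F t x)) (S.EΓ_nonneg l N t x))
        linarith) (S.swap.sq_dif l N' t x) (S.hA t x)
      (mul_nonneg (sq_nonneg _) (S.EΓ_nonneg l N t x))
      (E_nonneg fun y => mul_nonneg (S.hw y).le (sq_nonneg _)))
    (by refine le_trans (le_of_eq (sum_congr rfl fun t _ => ?_))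
          (S.carl_gam S.hσ S.good_σ S.f_nonneg S.nf hl hN n)
        rw [sum_mul_E (P := S.P t) fun x y h => by simp only [S.F_meas t x y h]]
        exact sum_congr rfl fun x _ => mul_comm _ _)
    (by simp only [sum_E]; exact S.swap.win_F N' n)
  set τ : ℕ → X → ℝ := fun t x => E (S.P t) (fun y => S.Γ l N t y * S.σ y) x *
    E (S.P t) (fun y => S.Γ l N' t y * S.w y) x with hτ
  have hτm : ∀ t, Meas (S.P t) (τ t) := fun t x y h => by simp only [hτ, E_meas _ _ x y h]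
  have hτ0 : ∀ t x, 0 ≤ τ t x := fun t x =>
    mul_nonneg (S.EΓ_nonneg l N t x) (S.swap.EΓ_nonneg l N' t x)
  have hC : ∀ t x, E (S.P t) (fun y => ∑ t' ∈ Ico t n, τ t' y) x ≤ 16 * c * S.A * l :=
    fun t x => le_trans (E_mono fun y _ => sum_le_sum fun t' _ => mul_le_mul_of_nonneg_left
      (S.swap.EΓ_le l N' t' y) (S.EΓ_nonneg l N t' y)) (S.bellman hl hN t n x)
  have t3 := sawyer S.hP (τ := τ) (n := n) S.hσ S.hw S.f_nonneg S.swap.f_nonneg
    (B1 := 2 * (16 * c * S.A * l) * (c / (1 / (4 * S.A))))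
    (B2 := 2 * (16 * c * S.A * l) * (c * L / l / (1 / (4 * S.A)))) (by positivity) (by positivity)
    hτm hτ0
    (fun r _ x => testing S.hP (j := fun t y => S.Γ l N t y * S.σ y) S.hw hτm hτ0 (by positivity)
      hC (fun t x => by
        rw [div_le_iff₀ (E_pos S.hw)]
        exact mul_le_mul_of_nonneg_left (S.swap.EΓ_le l N' t x) (S.EΓ_nonneg l N t x)) r x
      (S.gam_le S.good_σ (by positivity) hl hN r n x))
    (fun r _ x => testing S.hP (j := fun t y => S.Γ l N' t y * S.w y) S.hσ hτm hτ0 (by positivity)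
      hC (fun t x => by
        rw [div_le_iff₀ (E_pos S.hσ), mul_comm]
        exact mul_le_mul_of_nonneg_right (S.EΓ_le l N t x) (S.swap.EΓ_nonneg l N' t x)) r x
      (S.gam_le S.swap.good_σ (by have : 0 < S.swap.A := by change 0 < S.A; linarith
                                  positivity) hl hN2 r n x))
  have hc2 : 0 ≤ c ^ 2 := sq_nonneg c
  have b1 : √(S.A * N * (4 * (N' + 4 * S.A * (c * L / l)))) ≤ 4 * c * Y := by
    refine sqrt_le_of (by positivity) ?_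
    have e1 : (N : ℝ) * N' ≤ c ^ 2 * (L * L) := by
      have := mul_le_mul (hN.trans (mul_le_mul_of_nonneg_left hL (by linarith))) hN'
        (Nat.cast_nonneg _) (by positivity)
      linarith
    have e2 : N * (c * L / l) ≤ c ^ 2 * L := by
      refine (mul_le_mul_of_nonneg_right hN (by positivity)).trans (le_of_eq ?_)
      field_simp
    have e3 := mul_le_mul_of_nonneg_left hLL hc2
    nlinarith [mul_le_mul_of_nonneg_left e1 (by linarith : 0 ≤ S.A),
      mul_le_mul_of_nonneg_left e2 (by positivity : 0 ≤ S.A * S.A)]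
  have b2 : √(S.A * (16 * S.A * c) * N') ≤ 4 * c * Y := by
    refine sqrt_le_of (by positivity) ?_
    nlinarith [mul_le_mul_of_nonneg_left hAL hc2,
      mul_le_mul_of_nonneg_left hN' (by positivity : 0 ≤ S.A * (16 * S.A * c))]
  have b3 : √(2 * (16 * c * S.A * l) * (c / (1 / (4 * S.A)))) ≤ 12 * c * Y := by
    refine sqrt_le_of (by positivity) ?_
    rw [div_div_eq_mul_div, div_one]
    nlinarith [mul_le_mul_of_nonneg_left hAL hc2, mul_nonneg hc2 (sq_nonneg Y),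
      mul_le_mul_of_nonneg_left hL (by positivity : 0 ≤ c ^ 2 * S.A * S.A)]
  have b4 : √(2 * (16 * c * S.A * l) * (c * L / l / (1 / (4 * S.A)))) ≤ 12 * c * Y := by
    refine sqrt_le_of (by positivity) ?_
    have e : 2 * (16 * c * S.A * l) * (c * L / l / (1 / (4 * S.A))) =
        128 * (c ^ 2 * (S.A * (S.A * L))) := by field_simp; ring
    rw [e]
    nlinarith [mul_le_mul_of_nonneg_left hAL hc2, mul_nonneg hc2 (sq_nonneg Y)]
  have b5 : √((∑ x, S.σ x * S.f x ^ 2) * ∑ x, S.w x * S.swap.f x ^ 2) ≤ 1 := by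
    refine sqrt_le_of zero_le_one ?_
    rw [one_pow]
    exact mul_le_one₀ S.nf (sum_nonneg fun x _ => mul_nonneg (S.hw x).le (sq_nonneg _)) S.swap.nf
  have t3' := t3.trans (mul_le_of_le_one_right (by positivity) b5)
  calc _ ≤ ∑ t ∈ range n, ∑ x, |S.dif l N t x * E (S.P t) (fun y => S.Γ l N' t y * S.V y) x| +
        ∑ t ∈ range n, ∑ x, |(S.F t x * E (S.P t) (fun y => S.Γ l N t y * S.σ y) x) *
          S.swap.dif l N' t x| +
        ∑ t ∈ range n, ∑ x, τ t x * (Ew (S.P t) S.σ S.f x * Ew (S.P t) S.w S.swap.f x) := by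
        simp only [← sum_add_distrib]
        refine sum_le_sum fun t _ => sum_le_sum fun x _ => ?_
        have e : E (S.P t) (fun y => S.Γ l N' t y * S.V y) x = S.swap.dif l N' t x +
            Ew (S.P t) S.w S.swap.f x * E (S.P t) (fun y => S.Γ l N' t y * S.w y) x :=
          S.swap.split l N' t x
        have a1 := le_abs_self (S.dif l N t x * E (S.P t) (fun y => S.Γ l N' t y * S.V y) x)
        have a2 := le_abs_self ((S.F t x * E (S.P t) (fun y => S.Γ l N t y * S.σ y) x) *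
          S.swap.dif l N' t x)
        rw [S.split, add_mul]
        have : S.F t x * E (S.P t) (fun y => S.Γ l N t y * S.σ y) x *
            E (S.P t) (fun y => S.Γ l N' t y * S.V y) x =
            (S.F t x * E (S.P t) (fun y => S.Γ l N t y * S.σ y) x) * S.swap.dif l N' t x +
            τ t x * (Ew (S.P t) S.σ S.f x * Ew (S.P t) S.w S.swap.f x) := by
          rw [e]; simp only [hτ, F]; ring
        linarith
    _ ≤ _ := by linarith

theorem main_tail {c : ℝ} {l k N' : ℕ} (hl : 1 ≤ l) (hc : 1 ≤ c)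
    (hN' : (N' : ℝ) ≤ c * (k + 1 : ℕ)) (n : ℕ) :
    ∑ t ∈ range n, ∑ x, E (S.P t) (fun y => S.Γ (k + 1) N' t y * S.U y) x *
      E (S.P t) (fun y => S.Γ l N' t y * S.V y) x ≤
        20 * c * (√((1 - 1 / (4 * S.A)) ^ k * S.A) * (S.A * (k + 1 : ℕ))) := by
  have hA := S.hA1
  have hρ : 0 ≤ (1 - 1 / (4 * S.A)) ^ k := pow_nonneg (sub_nonneg.2 S.kap_le) k
  have hl' : (1 : ℝ) ≤ l := by exact_mod_cast hl
  have hk : (1 : ℝ) ≤ (k + 1 : ℕ) := by exact_mod_cast Nat.le_add_left 1 k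
  have hN2 : (N' : ℝ) ≤ c * (k + 1 : ℕ) * l := hN'.trans (le_mul_of_one_le_right (by positivity) hl')
  have t1 := cs_sum (range n) (K := (1 - 1 / (4 * S.A)) ^ k * S.A)
    (z := fun t x => E (S.P t) (fun y => S.Γ (k + 1) N' t y * S.U y) x *
      E (S.P t) (fun y => S.Γ l N' t y * S.V y) x)
    (p := fun t x => E (S.P t) (fun y => S.Γ (k + 1) N' t y * S.σ y * S.F (t + N') y ^ 2) x)
    (q := fun t x => E (S.P t) (fun y => S.Γ l N' t y * S.w y * S.swap.F (t + N') y ^ 2) x)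
    (a := 4 * (N' + 4 * S.A * c)) (b := 4 * (N' + 4 * S.A * (c * (k + 1 : ℕ)))) (by positivity)
    (fun t _ x => E_nonneg fun y => mul_nonneg (mul_nonneg (I_nonneg _) (S.hσ y).le) (sq_nonneg _))
    (fun t _ x => E_nonneg fun y => mul_nonneg (mul_nonneg (I_nonneg _) (S.hw y).le) (sq_nonneg _))
    (fun t _ x => mul4 (S.sq_any _ N' t x) (S.swap.sq_any l N' t x) (by
        have h1 := S.good_σ.decay S.kap_le (Nat.le_add_right t N') k x
        have h2 := mul_le_mul h1 (S.swap.EΓ_le l N' t x) (S.swap.EΓ_nonneg l N' t x)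
          (mul_nonneg hρ (E_pos S.hσ).le)
        refine h2.trans ?_
        rw [mul_assoc]
        exact mul_le_mul_of_nonneg_left (S.hA t x) hρ)
      (E_nonneg fun y => mul_nonneg (mul_nonneg (I_nonneg _) (S.hσ y).le) (sq_nonneg _))
      (E_nonneg fun y => mul_nonneg (mul_nonneg (I_nonneg _) (S.hw y).le) (sq_nonneg _)))
    (by simp only [sum_E]
        exact S.carl_shift S.hσ S.good_σ S.f_nonneg S.nf (Nat.le_add_left 1 k) hN' n)
    (by simp only [sum_E]
        exact S.carl_shift S.hw S.swap.good_σ S.swap.f_nonneg S.swap.nf hl hN2 n)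
  refine (sum_le_sum fun t _ => sum_le_sum fun x _ => le_abs_self _).trans (t1.trans ?_)
  refine sqrt_le_of (by positivity) ?_
  rw [mul_pow, mul_pow (√_), Real.sq_sqrt (by positivity)]
  have e0 : c * (k + 1 : ℕ) ≤ S.A * (c * (k + 1 : ℕ)) := le_mul_of_one_le_left (by positivity) hA
  have e1 : 4 * (N' + 4 * S.A * c) ≤ 20 * c * (S.A * (k + 1 : ℕ)) := by
    nlinarith [mul_le_mul_of_nonneg_left hk (by positivity : 0 ≤ S.A * c)]
  have e2 : 4 * (N' + 4 * S.A * (c * (k + 1 : ℕ))) ≤ 20 * c * (S.A * (k + 1 : ℕ)) := by nlinarith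
  have := mul_le_mul_of_nonneg_left (mul_le_mul e1 e2 (by positivity) (by positivity))
    (by positivity : 0 ≤ (1 - 1 / (4 * S.A)) ^ k * S.A)
  linarith

end Cor

end Pool.Agent.P.MP_70f35d_an
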