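import Mathlib

set_option autoImplicit false
open Finset

namespace Pool.Agent.P.MP_70f35d_an

variable {X : Type} [Fintype X]

open Classical in
noncomputable def cls (P : Setoid X) (x : X) : Finset X := univ.filter fun y => P x y

noncomputable def E (P : Setoid X) (u : X → ℝ) (x : X) : ℝ :=
  (∑ y ∈ cls P x, u y) / (cls P x).card

def Meas (P : Setoid X) (φ : X → ℝ) : Prop := ∀ x y, P x y → φ y = φ x

lemma mem_cls {P : Setoid X} {x y : X} : y ∈ cls P x ↔ P x y := by simp [cls]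

lemma cls_eq {P : Setoid X} {x y : X} (h : P x y) : cls P y = cls P x := by
  ext z; simp only [mem_cls]; exact ⟨fun h' => P.trans' h h', fun h' => P.trans' (P.symm' h) h'⟩

lemma card_cls_pos (P : Setoid X) (x : X) : (0 : ℝ) < (cls P x).card := by
  exact_mod_cast card_pos.2 ⟨x, mem_cls.2 (P.refl' x)⟩

lemma E_meas (P : Setoid X) (u : X → ℝ) : Meas P (E P u) := fun x y h => by
  simp only [E, cls_eq h]

lemma E_add (P : Setoid X) (u v : X → ℝ) (x : X) :
    E P (fun y => u y + v y) x = E P u x + E P v x := by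
  simp only [E, sum_add_distrib, add_div]

lemma E_sub (P : Setoid X) (u v : X → ℝ) (x : X) :
    E P (fun y => u y - v y) x = E P u x - E P v x := by
  simp only [E, sum_sub_distrib, sub_div]

lemma E_cmul (P : Setoid X) (c : ℝ) (u : X → ℝ) (x : X) :
    E P (fun y => c * u y) x = c * E P u x := by
  simp only [E, ← mul_sum, mul_div_assoc]

lemma E_sum {ι : Type} (P : Setoid X) (s : Finset ι) (u : ι → X → ℝ) (x : X) :
    E P (fun y => ∑ i ∈ s, u i y) x = ∑ i ∈ s, E P (u i) x := by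
  simp only [E]; rw [sum_comm, sum_div]

lemma E_mono {P : Setoid X} {u v : X → ℝ} {x : X} (h : ∀ y, P x y → u y ≤ v y) :
    E P u x ≤ E P v x :=
  div_le_div_of_nonneg_right (sum_le_sum fun y hy => h y (mem_cls.1 hy)) (card_cls_pos P x).le

lemma E_congr {P : Setoid X} {u v : X → ℝ} {x : X} (h : ∀ y, P x y → u y = v y) :
    E P u x = E P v x :=
  le_antisymm (E_mono fun y hy => (h y hy).le) (E_mono fun y hy => (h y hy).ge)

lemma E_const (P : Setoid X) (c : ℝ) (x : X) : E P (fun _ => c) x = c := by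
  have := card_cls_pos P x
  simp only [E, sum_const, nsmul_eq_mul]; field_simp

lemma E_nonneg {P : Setoid X} {u : X → ℝ} {x : X} (h : ∀ y, 0 ≤ u y) : 0 ≤ E P u x := by
  rw [← E_const P 0 x]; exact E_mono fun y _ => h y

lemma E_pos {P : Setoid X} {u : X → ℝ} {x : X} (h : ∀ y, 0 < u y) : 0 < E P u x :=
  div_pos (sum_pos (fun y _ => h y) ⟨x, mem_cls.2 (P.refl' x)⟩) (card_cls_pos P x)

lemma E_le_of_le {P : Setoid X} {u : X → ℝ} {x : X} {c : ℝ} (h : ∀ y, P x y → u y ≤ c) :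
    E P u x ≤ c := by
  rw [← E_const P c x]; exact E_mono h

lemma E_eq_of_const {P : Setoid X} {u : X → ℝ} {x : X} (h : ∀ y, P x y → u y = u x) :
    E P u x = u x := by
  rw [← E_const P (u x) x]; exact E_congr h

lemma abs_E_le (P : Setoid X) (u : X → ℝ) (x : X) : |E P u x| ≤ E P (fun y => |u y|) x := by
  simp only [E, abs_div, Nat.abs_cast]
  exact div_le_div_of_nonneg_right (abs_sum_le_sum_abs _ _) (card_cls_pos P x).le

lemma E_mul_left {P : Setoid X} {φ : X → ℝ} (u : X → ℝ) {x : X}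
    (h : ∀ y, P x y → φ y = φ x) : E P (fun y => φ y * u y) x = φ x * E P u x := by
  rw [← E_cmul]; exact E_congr fun y hy => by rw [h y hy]

/-- local tower property -/
lemma E_E {P Q : Setoid X} (u : X → ℝ) {x : X} (h : ∀ y z, P x y → Q y z → P x z) :
    E P (E Q u) x = E P u x := by
  classical
  unfold E
  congr 1
  have h1 : ∀ y ∈ cls P x, (∑ z ∈ cls Q y, u z) / (cls Q y).card
      = ∑ z ∈ cls P x, if Q y z then u z / (cls Q z).card else 0 := by
    intro y hy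
    rw [← sum_filter, sum_div]
    refine sum_congr ?_ fun z hz => ?_
    · ext z
      simp only [mem_filter, mem_cls]
      exact ⟨fun h' => ⟨h y z (mem_cls.1 hy) h', h'⟩, fun h' => h'.2⟩
    · rw [cls_eq (mem_filter.1 hz).2]
  rw [sum_congr rfl h1, sum_comm]
  refine sum_congr rfl fun z hz => ?_
  rw [← sum_filter, sum_const]
  have : (cls P x).filter (fun y => Q y z) = cls Q z := by
    ext y
    simp only [mem_filter, mem_cls]
    exact ⟨fun h' => Q.symm' h'.2, fun h' => ⟨h z y (mem_cls.1 hz) h', Q.symm' h'⟩⟩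
  have hp := card_cls_pos Q z
  rw [this, nsmul_eq_mul]; field_simp

lemma E_mul_E {P Q : Setoid X} {φ : X → ℝ} (u : X → ℝ) {x : X}
    (h : ∀ y z, P x y → Q y z → P x z) (hφ : ∀ y z, P x y → Q y z → φ z = φ y) :
    E P (fun y => φ y * E Q u y) x = E P (fun y => φ y * u y) x := by
  rw [← E_E (fun y => φ y * u y) h]
  exact E_congr fun y hy => (E_mul_left u fun z hz => hφ y z hy hz).symm

lemma sum_E (P : Setoid X) (u : X → ℝ) : ∑ x, E P u x = ∑ x, u x := by
  classical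
  rcases isEmpty_or_nonempty X with hX | ⟨⟨x⟩⟩
  · simp
  have h := E_E (P := ⊤) (Q := P) u (x := x) fun _ _ _ _ => trivial
  have hc : cls (⊤ : Setoid X) x = univ := by ext y; simp [mem_cls]
  have hp := card_cls_pos (⊤ : Setoid X) x
  unfold E at h
  rw [div_left_inj' hp.ne', hc] at h
  exact h

lemma sum_mul_E {P : Setoid X} {φ : X → ℝ} (hφ : Meas P φ) (u : X → ℝ) :
    ∑ x, φ x * E P u x = ∑ x, φ x * u x := by
  rw [← sum_E P fun x => φ x * u x]
  exact sum_congr rfl fun x _ => (E_mul_left u (hφ x)).symm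

lemma E_cs (P : Setoid X) (f g : X → ℝ) (x : X) :
    E P (fun y => f y * g y) x ^ 2 ≤ E P (fun y => f y ^ 2) x * E P (fun y => g y ^ 2) x := by
  simp only [E, div_pow, div_mul_div_comm, ← sq]
  exact div_le_div_of_nonneg_right (sum_mul_sq_le_sq_mul_sq _ _ _) (sq_nonneg _)

/-- weighted Cauchy-Schwarz -/
lemma E_cs' (P : Setoid X) {μ : X → ℝ} (hμ : ∀ y, 0 ≤ μ y) (f : X → ℝ) (x : X) :
    E P (fun y => μ y * f y) x ^ 2 ≤ E P (fun y => μ y * f y ^ 2) x * E P μ x := by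
  have h := E_cs P (fun y => √(μ y) * f y) (fun y => √(μ y)) x
  have e1 : (fun y => √(μ y) * f y * √(μ y)) = fun y => μ y * f y := by
    funext y; rw [mul_right_comm, Real.mul_self_sqrt (hμ y)]
  have e2 : (fun y => (√(μ y) * f y) ^ 2) = fun y => μ y * f y ^ 2 := by
    funext y; rw [mul_pow, Real.sq_sqrt (hμ y)]
  have e3 : (fun y => √(μ y) ^ 2) = μ := by funext y; rw [Real.sq_sqrt (hμ y)]
  rwa [e1, e2, e3] at h

lemma E_sq_le (P : Setoid X) (f : X → ℝ) (x : X) :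
    E P f x ^ 2 ≤ E P (fun y => f y ^ 2) x := by
  have h := E_cs' P (μ := fun _ => 1) (fun _ => zero_le_one) f x
  simpa only [one_mul, E_const, mul_one] using h

lemma E_le_double {P Q : Setoid X} {u : X → ℝ} (hu : ∀ y, 0 ≤ u y) {x : X} {D : ℝ}
    (h : ∀ y, Q x y → P x y) (hD : ((cls P x).card : ℝ) ≤ D * (cls Q x).card) :
    E Q u x ≤ D * E P u x := by
  have h1 := card_cls_pos P x
  have h2 := card_cls_pos Q x
  have h3 : ∑ y ∈ cls Q x, u y ≤ ∑ y ∈ cls P x, u y :=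
    sum_le_sum_of_subset_of_nonneg (fun y hy => mem_cls.2 (h y (mem_cls.1 hy))) fun y _ _ => hu y
  have h4 : 0 ≤ ∑ y ∈ cls Q x, u y := sum_nonneg fun y _ => hu y
  have hD0 : 0 ≤ D := by
    by_contra hn
    push_neg at hn
    nlinarith
  unfold E
  rw [← mul_div_assoc, div_le_div_iff₀ h2 h1]
  calc _ ≤ (∑ y ∈ cls Q x, u y) * (D * (cls Q x).card) := mul_le_mul_of_nonneg_left hD h4
    _ ≤ (∑ y ∈ cls P x, u y) * (D * (cls Q x).card) :=
        mul_le_mul_of_nonneg_right h3 (by positivity)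
    _ = _ := by ring

/-- Cauchy-Schwarz for double sums -/
lemma cs_sum {ι : Type} (s : Finset ι) {z p q : ι → X → ℝ} {K a b : ℝ} (hK : 0 ≤ K)
    (hp : ∀ t ∈ s, ∀ x, 0 ≤ p t x) (hq : ∀ t ∈ s, ∀ x, 0 ≤ q t x)
    (h : ∀ t ∈ s, ∀ x, z t x ^ 2 ≤ K * (p t x * q t x))
    (ha : ∑ t ∈ s, ∑ x, p t x ≤ a) (hb : ∑ t ∈ s, ∑ x, q t x ≤ b) :
    ∑ t ∈ s, ∑ x, |z t x| ≤ √(K * a * b) := by
  rw [← sum_product' (f := fun t x => |z t x|)]
  rw [← sum_product' (f := p)] at ha
  rw [← sum_product' (f := q)] at hb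
  have hpp : ∀ i ∈ s ×ˢ (univ : Finset X), 0 ≤ p i.1 i.2 := fun i hi => hp _ (mem_product.1 hi).1 _
  have hqq : ∀ i ∈ s ×ˢ (univ : Finset X), 0 ≤ q i.1 i.2 := fun i hi => hq _ (mem_product.1 hi).1 _
  have h1 := sum_sq_le_sum_mul_sum_of_sq_le_mul (s ×ˢ (univ : Finset X))
    (r := fun i => |z i.1 i.2|) (f := fun i => K * p i.1 i.2) (g := fun i => q i.1 i.2)
    (fun i hi => mul_nonneg hK (hpp i hi)) hqq
    (fun i hi => by rw [sq_abs, mul_assoc]; exact h _ (mem_product.1 hi).1 _)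
  refine Real.le_sqrt_of_sq_le (h1.trans ?_)
  rw [← mul_sum]
  have := sum_nonneg hpp
  have := sum_nonneg hqq
  gcongr
  exact mul_nonneg hK (this.trans' (le_refl _) |> fun _ => le_trans (sum_nonneg hpp) ha)

/-! ### filtrations and stopping times -/

def Filt (P : ℕ → Setoid X) : Prop := ∀ t x y, P (t + 1) x y → P t x y

lemma Filt.mono {P : ℕ → Setoid X} (hP : Filt P) {s t : ℕ} (h : s ≤ t) {x y : X} (hxy : P t x y) :
    P s x y := by
  induction t, h using Nat.le_induction with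
  | base => exact hxy
  | succ t _ ih => exact ih (hP t x y hxy)

lemma Meas.mono {P : ℕ → Setoid X} (hP : Filt P) {s t : ℕ} (h : s ≤ t) {φ : X → ℝ}
    (hφ : Meas (P s) φ) : Meas (P t) φ := fun x y hxy => hφ x y (hP.mono h hxy)

lemma Filt.E_E {P : ℕ → Setoid X} (hP : Filt P) {s t : ℕ} (h : s ≤ t) (u : X → ℝ) (x : X) :
    E (P s) (E (P t) u) x = E (P s) u x :=
  MP_70f35d_an.E_E u fun _ _ h1 h2 => (P s).trans' h1 (hP.mono h h2)

lemma Filt.E_mul_E {P : ℕ → Setoid X} (hP : Filt P) {s t : ℕ} (h : s ≤ t) {φ : X → ℝ}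
    (hφ : Meas (P t) φ) (u : X → ℝ) (x : X) :
    E (P s) (fun y => φ y * E (P t) u y) x = E (P s) (fun y => φ y * u y) x :=
  MP_70f35d_an.E_mul_E u (fun _ _ h1 h2 => (P s).trans' h1 (hP.mono h h2))
    fun y z _ h2 => hφ y z h2

def IsStop (P : ℕ → Setoid X) (ν : X → ℕ) : Prop := ∀ x y, P (ν x) x y → ν y = ν x

def IsStop.setoid {P : ℕ → Setoid X} {ν : X → ℕ} (h : IsStop P ν) : Setoid X where
  r x y := P (ν x) x y
  iseqv := ⟨fun x => (P _).refl' x, fun {x y} hxy => by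
    rw [h x y hxy]; exact (P _).symm' hxy, fun {x y z} h1 h2 => by
    rw [h x y h1] at h2; exact (P _).trans' h1 h2⟩

noncomputable def ES (P : ℕ → Setoid X) (ν : X → ℕ) (u : X → ℝ) (x : X) : ℝ := E (P (ν x)) u x

lemma IsStop.E_eq {P : ℕ → Setoid X} {ν : X → ℕ} (h : IsStop P ν) (u : X → ℝ) :
    E h.setoid u = ES P ν u := by
  funext x
  have : cls h.setoid x = cls (P (ν x)) x := by ext y; simp only [mem_cls]; rfl
  simp only [E, ES, this]

/-- optional stopping -/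
lemma IsStop.E_mul_ES {P : ℕ → Setoid X} (hP : Filt P) {ν : X → ℕ} (h : IsStop P ν) {q : ℕ}
    {x : X} (hq : ∀ y, P q x y → q ≤ ν y) {φ : X → ℝ}
    (hφ : ∀ y z, P q x y → P (ν y) y z → φ z = φ y) (u : X → ℝ) :
    E (P q) (fun y => φ y * ES P ν u y) x = E (P q) (fun y => φ y * u y) x := by
  rw [← h.E_eq]
  exact E_mul_E u (fun y z h1 h2 => (P q).trans' h1 (hP.mono (hq y h1) h2)) hφ

lemma IsStop.ge_of {P : ℕ → Setoid X} (hP : Filt P) {ν : X → ℕ} (h : IsStop P ν) {q : ℕ}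
    {x y : X} (hq : q ≤ ν x) (hxy : P q x y) : q ≤ ν y := by
  by_contra hn
  push_neg at hn
  have := h y x (hP.mono hn.le ((P q).symm' hxy))
  omega

lemma IsStop.E_ES {P : ℕ → Setoid X} (hP : Filt P) {ν : X → ℕ} (h : IsStop P ν) (q : ℕ)
    (u : X → ℝ) (x : X) : E (P q) (ES P ν u) x = E (P (min q (ν x))) u x := by
  rcases le_total q (ν x) with hq | hq
  · rw [min_eq_left hq]
    have := h.E_mul_ES hP (fun y hy => h.ge_of hP hq hy) (φ := fun _ => 1) (fun _ _ _ _ => rfl) u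
    simpa only [one_mul] using this
  · rw [min_eq_right hq]
    refine E_eq_of_const fun y hy => ?_
    have h1 := hP.mono hq hy
    simp only [ES, h x y h1]
    exact E_meas _ _ _ _ h1

/-! ### weighted expectations, Doob, Carleson, Sawyer -/

noncomputable def Ew (P : Setoid X) (σ f : X → ℝ) (x : X) : ℝ :=
  E P (fun y => σ y * f y) x / E P σ x

lemma Ew_meas (P : Setoid X) (σ f : X → ℝ) : Meas P (Ew P σ f) := fun x y h => by
  simp only [Ew, E_meas P _ x y h]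

lemma Ew_nonneg {P : Setoid X} {σ f : X → ℝ} (hσ : ∀ y, 0 < σ y) (hf : ∀ y, 0 ≤ f y) (x : X) :
    0 ≤ Ew P σ f x :=
  div_nonneg (E_nonneg fun y => mul_nonneg (hσ y).le (hf y)) (E_pos hσ).le

lemma Ew_mul {P : Setoid X} {σ : X → ℝ} (hσ : ∀ y, 0 < σ y) (f : X → ℝ) (x : X) :
    Ew P σ f x * E P σ x = E P (fun y => σ y * f y) x :=
  div_mul_cancel₀ _ (E_pos hσ).ne'

lemma Filt.E_mul_Ew {P : ℕ → Setoid X} (hP : Filt P) {s t : ℕ} (h : s ≤ t) {φ σ : X → ℝ}
    (hσ : ∀ y, 0 < σ y) (hφ : Meas (P t) φ) (f : X → ℝ) (x : X) :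
    E (P s) (fun y => φ y * (σ y * Ew (P t) σ f y)) x = E (P s) (fun y => φ y * (σ y * f y)) x := by
  have h1 := hP.E_mul_E h (φ := fun y => φ y * Ew (P t) σ f y)
    (fun x y hxy => by simp only [hφ x y hxy, Ew_meas _ _ _ x y hxy]) σ x
  rw [← hP.E_mul_E h hφ (fun y => σ y * f y)]
  simp only [mul_assoc, Ew_mul hσ] at h1
  rw [h1]
  exact E_congr fun y _ => by ring

lemma sum_mul_Ew {P : Setoid X} {φ σ : X → ℝ} (hσ : ∀ y, 0 < σ y) (hφ : Meas P φ) (f : X → ℝ) :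
    ∑ x, φ x * (σ x * Ew P σ f x) = ∑ x, φ x * (σ x * f x) := by
  have h := fun x => Filt.E_mul_Ew (P := fun _ => P) (fun _ _ _ h => h) (le_refl 0) hσ hφ f x
  rw [← sum_E P, ← sum_E P fun x => φ x * (σ x * f x)]
  exact sum_congr rfl fun x _ => h x

lemma sum_Ew_sq_le {P : Setoid X} {σ : X → ℝ} (hσ : ∀ y, 0 < σ y) (f : X → ℝ) :
    ∑ x, σ x * Ew P σ f x ^ 2 ≤ ∑ x, σ x * f x ^ 2 := by
  have h := sum_mul_Ew hσ (Ew_meas P σ f) f
  have h2 : ∑ x, σ x * (f x - Ew P σ f x) ^ 2 = ∑ x, σ x * f x ^ 2 -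
      2 * ∑ x, Ew P σ f x * (σ x * f x) + ∑ x, Ew P σ f x * (σ x * Ew P σ f x) := by
    rw [mul_sum, ← sum_sub_distrib, ← sum_add_distrib]
    exact sum_congr rfl fun x _ => by ring
  have h3 : 0 ≤ ∑ x, σ x * (f x - Ew P σ f x) ^ 2 :=
    sum_nonneg fun x _ => mul_nonneg (hσ x).le (sq_nonneg _)
  have h4 : ∑ x, σ x * Ew P σ f x ^ 2 = ∑ x, Ew P σ f x * (σ x * Ew P σ f x) :=
    sum_congr rfl fun x _ => by ring
  linarith

noncomputable def rmax (F : ℕ → X → ℝ) : ℕ → X → ℝ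
  | 0, x => F 0 x
  | q + 1, x => max (rmax F q x) (F (q + 1) x)

omit [Fintype X] in
lemma le_rmax (F : ℕ → X → ℝ) (q : ℕ) (x : X) : F q x ≤ rmax F q x := by
  cases q with
  | zero => exact le_rfl
  | succ q => exact le_max_right _ _

omit [Fintype X] in
lemma rmax_mono (F : ℕ → X → ℝ) (x : X) : Monotone fun q => rmax F q x :=
  monotone_nat_of_le_succ fun _ => le_max_left _ _

lemma rmax_meas {P : ℕ → Setoid X} (hP : Filt P) {F : ℕ → X → ℝ} (hF : ∀ q, Meas (P q) (F q))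
    (q : ℕ) : Meas (P q) (rmax F q) := by
  induction q with
  | zero => exact hF 0
  | succ q ih => intro x y h; simp only [rmax, ih x y (hP q x y h), hF _ x y h]

omit [Fintype X] in
lemma doob_path (F : ℕ → X → ℝ) (x : X) (n : ℕ) :
    4 * ∑ k ∈ range n, rmax F k x * (F (k + 1) x - F k x) ≤
      4 * rmax F n x * F n x - 2 * rmax F n x ^ 2 := by
  induction n with
  | zero => simp only [rmax, range_zero, sum_empty]; nlinarith [sq_nonneg (F 0 x)]
  | succ n ih =>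
    rw [sum_range_succ]
    simp only [rmax]
    rcases le_total (rmax F n x) (F (n + 1) x) with h | h
    · rw [max_eq_right h]; nlinarith [sq_nonneg (rmax F n x - F (n + 1) x)]
    · rw [max_eq_left h]; nlinarith

theorem doob {P : ℕ → Setoid X} (hP : Filt P) {σ : X → ℝ} (hσ : ∀ y, 0 < σ y) (f : X → ℝ)
    (n : ℕ) : ∑ x, σ x * rmax (fun q => Ew (P q) σ f) n x ^ 2 ≤ 4 * ∑ x, σ x * f x ^ 2 := by
  set F : ℕ → X → ℝ := fun q => Ew (P q) σ f with hF
  have hm := rmax_meas hP (F := F) fun q => Ew_meas _ _ _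
  have h0 : ∑ x, σ x * ∑ k ∈ range n, rmax F k x * (F (k + 1) x - F k x) = 0 := by
    simp only [mul_sum]
    rw [sum_comm]
    refine sum_eq_zero fun k _ => ?_
    have h1 := sum_mul_Ew hσ (hm k) f
    have h2 := sum_mul_Ew hσ ((hm k).mono hP (Nat.le_succ k)) f
    rw [← sub_eq_zero.2 (h2.trans h1.symm), ← sum_sub_distrib]
    exact sum_congr rfl fun x _ => by simp only [hF]; ring
  have h1 : ∑ x, σ x * rmax F n x ^ 2 +
      4 * ∑ x, σ x * ∑ k ∈ range n, rmax F k x * (F (k + 1) x - F k x) ≤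
      4 * ∑ x, σ x * F n x ^ 2 := by
    rw [mul_sum, mul_sum, ← sum_add_distrib]
    refine sum_le_sum fun x _ => ?_
    have := doob_path F x n
    have h2 : rmax F n x ^ 2 + 4 * ∑ k ∈ range n, rmax F k x * (F (k + 1) x - F k x) ≤
        4 * F n x ^ 2 := by nlinarith [sq_nonneg (rmax F n x - 2 * F n x)]
    nlinarith [mul_le_mul_of_nonneg_left h2 (hσ x).le]
  have h2 := sum_Ew_sq_le (P := P n) hσ f
  simp only [hF] at h0 h1 ⊢
  linarith

/-- previous value -/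
def pre (G : ℕ → X → ℝ) : ℕ → X → ℝ
  | 0, _ => 0
  | r + 1, x => G r x

omit [Fintype X] in
lemma sum_inc (G : ℕ → X → ℝ) (x : X) (n : ℕ) :
    ∑ r ∈ range n, (G r x - pre G r x) = pre G n x := by
  induction n with
  | zero => simp [pre]
  | succ n ih => rw [sum_range_succ, ih]; simp [pre]

omit [Fintype X] in
lemma abel (α G : ℕ → X → ℝ) (x : X) (n : ℕ) :
    ∑ t ∈ range n, α t x * G t x =
      ∑ r ∈ range n, (G r x - pre G r x) * ∑ t ∈ Ico r n, α t x := by
  induction n with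
  | zero => simp
  | succ n ih =>
    have h : ∀ r ∈ range (n + 1), (G r x - pre G r x) * ∑ t ∈ Ico r (n + 1), α t x =
        (G r x - pre G r x) * ∑ t ∈ Ico r n, α t x + (G r x - pre G r x) * α n x := by
      intro r hr
      rw [sum_Ico_succ_top (by have := mem_range.1 hr; omega), mul_add]
    rw [sum_congr rfl h, sum_add_distrib, ← sum_mul, sum_inc, sum_range_succ, ih,
      sum_range_succ _ n]
    simp [pre, mul_comm]

lemma pre_meas {P : ℕ → Setoid X} (hP : Filt P) {G : ℕ → X → ℝ} (hG : ∀ q, Meas (P q) (G q))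
    (q : ℕ) : Meas (P q) (pre G q) := by
  cases q with
  | zero => exact fun _ _ _ => rfl
  | succ q => exact (hG q).mono hP (Nat.le_succ q)

omit [Fintype X] in
lemma pre_le {G : ℕ → X → ℝ} {x : X} (h0 : 0 ≤ G 0 x) (hm : Monotone fun q => G q x) (q : ℕ) :
    pre G q x ≤ G q x := by
  cases q with
  | zero => exact h0
  | succ q => exact hm (Nat.le_succ q)

omit [Fintype X] in
lemma pre_nonneg {G : ℕ → X → ℝ} {x : X} (h0 : 0 ≤ G 0 x) (hm : Monotone fun q => G q x) (q : ℕ) :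
    0 ≤ pre G q x := by
  cases q with
  | zero => exact le_rfl
  | succ q => exact h0.trans (hm (Nat.zero_le q))

theorem carleson_mono {P : ℕ → Setoid X} (hP : Filt P) {α G : ℕ → X → ℝ} {μ : X → ℝ} {C : ℝ}
    {n : ℕ} (hG : ∀ q, Meas (P q) (G q)) (h0 : ∀ x, 0 ≤ G 0 x)
    (hm : ∀ x, Monotone fun q => G q x) (hC : 0 ≤ C) (hμ : ∀ x, 0 ≤ μ x)
    (h : ∀ r < n, ∀ x, E (P r) (fun y => ∑ t ∈ Ico r n, α t y) x ≤ C * E (P r) μ x) :
    ∑ t ∈ range n, ∑ x, α t x * G t x ≤ C * ∑ x, μ x * G n x := by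
  rw [sum_comm]
  simp only [abel]
  rw [sum_comm]
  have hd : ∀ r, Meas (P r) fun x => G r x - pre G r x := fun r x y hxy => by
    simp only [hG r x y hxy, pre_meas hP hG r x y hxy]
  calc _ ≤ ∑ r ∈ range n, C * ∑ x, (G r x - pre G r x) * μ x := by
        refine sum_le_sum fun r hr => ?_
        rw [← sum_mul_E (hd r), ← sum_mul_E (hd r) μ, mul_sum]
        refine sum_le_sum fun x _ => ?_
        have := mul_le_mul_of_nonneg_left (h r (mem_range.1 hr) x)
          (sub_nonneg.2 (pre_le (h0 x) (hm x) r))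
        linarith
    _ = C * ∑ x, μ x * pre G n x := by
        rw [← mul_sum, sum_comm]
        congr 1
        refine sum_congr rfl fun x _ => ?_
        rw [← sum_mul, sum_inc, mul_comm]
    _ ≤ _ := by
        gcongr with x
        · exact hμ x
        · exact pre_le (h0 x) (hm x) n

/-- Carleson embedding -/
theorem carleson {P : ℕ → Setoid X} (hP : Filt P) {α : ℕ → X → ℝ} {σ f : X → ℝ} {C : ℝ}
    {n : ℕ} (hσ : ∀ x, 0 < σ x) (hf : ∀ x, 0 ≤ f x) (hC : 0 ≤ C) (hα : ∀ t x, 0 ≤ α t x)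
    (h : ∀ r < n, ∀ x, E (P r) (fun y => ∑ t ∈ Ico r n, α t y) x ≤ C * E (P r) σ x) :
    ∑ t ∈ range n, ∑ x, α t x * Ew (P t) σ f x ^ 2 ≤ 4 * C * ∑ x, σ x * f x ^ 2 := by
  set F : ℕ → X → ℝ := fun q => Ew (P q) σ f with hF
  have hF0 : ∀ q x, 0 ≤ F q x := fun q x => Ew_nonneg hσ hf x
  have h1 := carleson_mono hP (α := α) (G := fun q x => rmax F q x ^ 2) (μ := σ) (n := n)
    (fun q x y hxy => by simp only [rmax_meas hP (F := F) (fun q => Ew_meas _ _ _) q x y hxy])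
    (fun x => sq_nonneg _)
    (fun x a b hab => pow_le_pow_left₀ ((hF0 a x).trans (le_rmax F a x)) (rmax_mono F x hab) 2)
    hC (fun x => (hσ x).le) h
  have h2 := mul_le_mul_of_nonneg_left (doob hP hσ f n) hC
  calc _ ≤ ∑ t ∈ range n, ∑ x, α t x * rmax F t x ^ 2 := by
        gcongr with t _ x
        · exact hα t x
        · exact hF0 t x
        · exact le_rmax F t x
    _ ≤ _ := by linarith

lemma sawyer_half {P : ℕ → Setoid X} (hP : Filt P) {τ F G G' : ℕ → X → ℝ} {σ w : X → ℝ} {B : ℝ}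
    {n : ℕ} (hσ : ∀ x, 0 < σ x) (hw : ∀ x, 0 < w x) (hB : 0 ≤ B)
    (hτ : ∀ t, Meas (P t) (τ t)) (hτ0 : ∀ t x, 0 ≤ τ t x)
    (hF : ∀ q, Meas (P q) (F q)) (hF0 : ∀ x, 0 ≤ F 0 x) (hFm : ∀ x, Monotone fun q => F q x)
    (hG : ∀ q, Meas (P q) (G q)) (hG0 : ∀ x, 0 ≤ G 0 x) (hGm : ∀ x, Monotone fun q => G q x)
    (hG' : ∀ q, Meas (P q) (G' q)) (hG'0 : ∀ q x, 0 ≤ G' q x) (hG'1 : ∀ q x, G' q x ≤ G q x)
    (h : ∀ r < n, ∀ x, E (P r) (fun y => σ y * (∑ t ∈ Ico r n, τ t y / E (P t) σ y) ^ 2) x ≤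
      B * E (P r) w x) :
    ∑ r ∈ range n, ∑ x, (F r x - pre F r x) * G' r x * ∑ t ∈ Ico r n, τ t x ≤
      √(B * (∑ x, σ x * F n x ^ 2) * ∑ x, w x * G n x ^ 2) := by
  set Ψ : ℕ → X → ℝ := fun r y => ∑ t ∈ Ico r n, τ t y / E (P t) σ y with hΨ
  have hΨ0 : ∀ r y, 0 ≤ Ψ r y := fun r y =>
    sum_nonneg fun t _ => div_nonneg (hτ0 t y) (E_pos hσ).le
  have hΨm : ∀ y p r, p ≤ r → Ψ r y ≤ Ψ p y := fun y p r hpr =>
    sum_le_sum_of_subset_of_nonneg (Ico_subset_Ico_left hpr)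
      fun t _ _ => div_nonneg (hτ0 t y) (E_pos hσ).le
  set G2 : ℕ → X → ℝ := fun q x => G q x ^ 2 with hG2
  have hGq : ∀ q x, 0 ≤ G q x := fun q x => (hG0 x).trans (hGm x (Nat.zero_le q))
  have hG2m : ∀ x, Monotone fun q => G2 q x := fun x a b hab =>
    pow_le_pow_left₀ (hGq a x) (hGm x hab) 2
  have hG2M : ∀ q, Meas (P q) (G2 q) := fun q x y hxy => by simp only [hG2, hG q x y hxy]
  have hd2 : ∀ q x, 0 ≤ G2 q x - pre G2 q x := fun q x =>
    sub_nonneg.2 (pre_le (sq_nonneg _) (hG2m x) q)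
  set Y2 : X → ℝ := fun x => ∑ p ∈ range n, (G2 p x - pre G2 p x) * Ψ p x ^ 2 with hY2
  have hY0 : ∀ x, 0 ≤ Y2 x := fun x => sum_nonneg fun p _ => mul_nonneg (hd2 p x) (sq_nonneg _)
  have hY : ∀ r < n, ∀ x, G r x * Ψ r x ≤ √(Y2 x) := by
    intro r hr x
    refine Real.le_sqrt_of_sq_le ?_
    have e : (G r x * Ψ r x) ^ 2 = ∑ p ∈ range (r + 1), (G2 p x - pre G2 p x) * Ψ r x ^ 2 := by
      rw [← sum_mul, sum_inc, mul_pow]; rfl
    rw [e]
    calc _ ≤ ∑ p ∈ range (r + 1), (G2 p x - pre G2 p x) * Ψ p x ^ 2 := by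
          refine sum_le_sum fun p hp => mul_le_mul_of_nonneg_left ?_ (hd2 p x)
          exact pow_le_pow_left₀ (hΨ0 r x) (hΨm x p r (by have := mem_range.1 hp; omega)) 2
      _ ≤ _ := sum_le_sum_of_subset_of_nonneg (range_subset_range.2 hr)
          fun p _ _ => mul_nonneg (hd2 p x) (sq_nonneg _)
  have hdF : ∀ q x, 0 ≤ F q x - pre F q x := fun q x => sub_nonneg.2 (pre_le (hF0 x) (hFm x) q)
  have e1 : ∀ r ∈ range n, ∑ x, (F r x - pre F r x) * G' r x * ∑ t ∈ Ico r n, τ t x =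
      ∑ x, (F r x - pre F r x) * G' r x * (σ x * Ψ r x) := by
    intro r _
    simp only [hΨ, mul_sum]
    rw [sum_comm, sum_comm (s := univ)]
    refine sum_congr rfl fun t ht => ?_
    have hrt := (mem_Ico.1 ht).1
    have := sum_mul_E (P := P t)
      (φ := fun x => (F r x - pre F r x) * G' r x * (τ t x / E (P t) σ x)) (fun x y hxy => by
        have h' := hP.mono hrt hxy
        simp only [hF r x y h', pre_meas hP hF r x y h', hG' r x y h', hτ t x y hxy,
          E_meas _ _ x y hxy]) σ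
    refine Eq.trans (sum_congr rfl fun x _ => ?_) (this.trans (sum_congr rfl fun x _ => by ring))
    have := (E_pos (P := P t) (x := x) hσ).ne'
    field_simp
  have e2 : ∑ x, σ x * Y2 x ≤ B * ∑ x, w x * G n x ^ 2 := by
    have hd : ∀ r, Meas (P r) fun x => G2 r x - pre G2 r x := fun r x y hxy => by
      simp only [hG2M r x y hxy, pre_meas hP hG2M r x y hxy]
    calc _ = ∑ p ∈ range n, ∑ x, (G2 p x - pre G2 p x) * (σ x * Ψ p x ^ 2) := by
          simp only [hY2, mul_sum]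
          rw [sum_comm]
          exact sum_congr rfl fun p _ => sum_congr rfl fun x _ => by ring
      _ ≤ ∑ p ∈ range n, B * ∑ x, (G2 p x - pre G2 p x) * w x := by
          refine sum_le_sum fun p hp => ?_
          rw [← sum_mul_E (hd p), ← sum_mul_E (hd p) w, mul_sum]
          refine sum_le_sum fun x _ => ?_
          have := mul_le_mul_of_nonneg_left (h p (mem_range.1 hp) x) (hd2 p x)
          linarith
      _ = B * ∑ x, w x * pre G2 n x := by
          rw [← mul_sum, sum_comm]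
          congr 1
          refine sum_congr rfl fun x _ => ?_
          rw [← sum_mul, sum_inc, mul_comm]
      _ ≤ _ := by
          gcongr with x
          · exact (hw x).le
          · exact pre_le (sq_nonneg _) (hG2m x) n
  rw [sum_congr rfl e1, sum_comm]
  have e3 : ∀ x ∈ (univ : Finset X),
      ∑ r ∈ range n, (F r x - pre F r x) * G' r x * (σ x * Ψ r x) ≤ σ x * (F n x * √(Y2 x)) := by
    intro x _
    calc _ ≤ ∑ r ∈ range n, (F r x - pre F r x) * (σ x * √(Y2 x)) := by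
          refine sum_le_sum fun r hr => ?_
          have h1 := (mul_le_mul_of_nonneg_right (hG'1 r x) (hΨ0 r x)).trans
            (hY r (mem_range.1 hr) x)
          have := mul_le_mul_of_nonneg_left h1 (mul_nonneg (hdF r x) (hσ x).le)
          linarith
      _ = pre F n x * (σ x * √(Y2 x)) := by rw [← sum_mul, sum_inc]
      _ ≤ F n x * (σ x * √(Y2 x)) := mul_le_mul_of_nonneg_right (pre_le (hF0 x) (hFm x) n)
          (mul_nonneg (hσ x).le (Real.sqrt_nonneg _))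
      _ = _ := by ring
  refine (sum_le_sum e3).trans (Real.le_sqrt_of_sq_le ?_)
  have h1 := sum_sq_le_sum_mul_sum_of_sq_le_mul (univ : Finset X)
    (r := fun x => σ x * (F n x * √(Y2 x))) (f := fun x => σ x * F n x ^ 2)
    (g := fun x => σ x * Y2 x) (fun x _ => mul_nonneg (hσ x).le (sq_nonneg _))
    (fun x _ => mul_nonneg (hσ x).le (hY0 x))
    (fun x _ => by rw [mul_pow, mul_pow, Real.sq_sqrt (hY0 x)]; exact le_of_eq (by ring))
  refine h1.trans ?_
  have h2 : 0 ≤ ∑ x, σ x * F n x ^ 2 := sum_nonneg fun x _ => mul_nonneg (hσ x).le (sq_nonneg _)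
  nlinarith [mul_le_mul_of_nonneg_left e2 h2]

/-- two weight testing theorem -/
theorem sawyer {P : ℕ → Setoid X} (hP : Filt P) {τ : ℕ → X → ℝ} {σ w f g : X → ℝ} {B1 B2 : ℝ}
    {n : ℕ} (hσ : ∀ x, 0 < σ x) (hw : ∀ x, 0 < w x) (hf : ∀ x, 0 ≤ f x) (hg : ∀ x, 0 ≤ g x)
    (hB1 : 0 ≤ B1) (hB2 : 0 ≤ B2) (hτ : ∀ t, Meas (P t) (τ t)) (hτ0 : ∀ t x, 0 ≤ τ t x)
    (h1 : ∀ r < n, ∀ x, E (P r) (fun y => w y * (∑ t ∈ Ico r n, τ t y / E (P t) w y) ^ 2) x ≤
      B1 * E (P r) σ x)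
    (h2 : ∀ r < n, ∀ x, E (P r) (fun y => σ y * (∑ t ∈ Ico r n, τ t y / E (P t) σ y) ^ 2) x ≤
      B2 * E (P r) w x) :
    ∑ t ∈ range n, ∑ x, τ t x * (Ew (P t) σ f x * Ew (P t) w g x) ≤
      4 * (√B1 + √B2) * √((∑ x, σ x * f x ^ 2) * ∑ x, w x * g x ^ 2) := by
  set F := rmax fun q => Ew (P q) σ f with hF
  set G := rmax fun q => Ew (P q) w g with hG
  have hFM : ∀ q, Meas (P q) (F q) := rmax_meas hP fun q => Ew_meas _ _ _
  have hGM : ∀ q, Meas (P q) (G q) := rmax_meas hP fun q => Ew_meas _ _ _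
  have hFm : ∀ x, Monotone fun q => F q x := rmax_mono _
  have hGm : ∀ x, Monotone fun q => G q x := rmax_mono _
  have hF0 : ∀ x, 0 ≤ F 0 x := fun x => Ew_nonneg hσ hf x
  have hG0 : ∀ x, 0 ≤ G 0 x := fun x => Ew_nonneg hw hg x
  have a1 := sawyer_half hP (G' := G) hσ hw hB2 hτ hτ0 hFM hF0 hFm hGM hG0 hGm hGM
    (fun q x => (hG0 x).trans (hGm x (Nat.zero_le q))) (fun _ _ => le_rfl) h2
  have a2 := sawyer_half hP (G' := pre F) hw hσ hB1 hτ hτ0 hGM hG0 hGm hFM hF0 hFm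
    (pre_meas hP hFM) (fun q x => pre_nonneg (hF0 x) (hFm x) q)
    (fun q x => pre_le (hF0 x) (hFm x) q) h1
  have d1 := doob hP hσ f n
  have d2 := doob hP hw g n
  have p1 : 0 ≤ ∑ x, σ x * F n x ^ 2 := sum_nonneg fun x _ => mul_nonneg (hσ x).le (sq_nonneg _)
  have p2 : 0 ≤ ∑ x, w x * G n x ^ 2 := sum_nonneg fun x _ => mul_nonneg (hw x).le (sq_nonneg _)
  have key : ∀ B : ℝ, 0 ≤ B → √(B * (∑ x, σ x * F n x ^ 2) * ∑ x, w x * G n x ^ 2) ≤
      4 * √B * √((∑ x, σ x * f x ^ 2) * ∑ x, w x * g x ^ 2) := by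
    intro B hB
    have h4 : (4 : ℝ) = √16 := by rw [show (16 : ℝ) = 4 ^ 2 by norm_num, Real.sqrt_sq (by norm_num)]
    rw [h4, ← Real.sqrt_mul (by norm_num), ← Real.sqrt_mul (by positivity)]
    refine Real.sqrt_le_sqrt ?_
    have := mul_le_mul d1 d2 p2 (p1.trans d1)
    nlinarith [mul_le_mul_of_nonneg_left this hB]
  calc _ ≤ ∑ t ∈ range n, ∑ x, τ t x * (F t x * G t x) := by
        refine sum_le_sum fun t _ => sum_le_sum fun x _ => mul_le_mul_of_nonneg_left ?_ (hτ0 t x)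
        exact mul_le_mul (le_rmax (fun q => Ew (P q) σ f) t x) (le_rmax (fun q => Ew (P q) w g) t x)
          (Ew_nonneg hw hg x) ((hF0 x).trans (hFm x (Nat.zero_le t)))
    _ = ∑ r ∈ range n, ∑ x, (F r x - pre F r x) * G r x * ∑ t ∈ Ico r n, τ t x +
        ∑ r ∈ range n, ∑ x, (G r x - pre G r x) * pre F r x * ∑ t ∈ Ico r n, τ t x := by
        rw [sum_comm]
        simp only [abel τ fun t x => F t x * G t x]
        rw [sum_comm, ← sum_add_distrib]
        refine sum_congr rfl fun r _ => ?_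
        rw [← sum_add_distrib]
        refine sum_congr rfl fun x _ => ?_
        cases r <;> simp only [pre] <;> ring
    _ ≤ _ := by
        have b1 := key B2 hB2
        have b2 := key B1 hB1
        rw [mul_right_comm B1] at a2
        linarith

end Pool.Agent.P.MP_70f35d_an
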