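import Pool.Agent.P.MP_70f35d_an.MainT

set_option autoImplicit false
open Finset

namespace Pool.Agent.P.MP_70f35d_an

variable {X : Type} [Fintype X]

structure Forms (P : ℕ → Setoid X) (η : ℝ) where
  ℓ : ℕ → X → (X → ℝ) →ₗ[ℝ] (X → ℝ) →ₗ[ℝ] ℝ
  h0 : ∀ t x F G, |ℓ t x F G| ≤ E (P t) (fun y => |F y|) x * E (P t) (fun y => |G y|) x
  h1l : ∀ t x G, ℓ t x (fun _ => 1) G = 0
  h1r : ∀ t x F, ℓ t x F (fun _ => 1) = 0
  h2l : ∀ t s x F G, (∀ y, E (P (t + s)) F y = 0) → ℓ t x F G ^ 2 ≤ (η ^ s) ^ 4 *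
    (E (P t) (fun y => E (P (t + s)) (fun z => |F z|) y ^ 2) x * E (P t) (fun y => G y ^ 2) x)
  h2r : ∀ t s x F G, (∀ y, E (P (t + s)) G y = 0) → ℓ t x F G ^ 2 ≤ (η ^ s) ^ 4 *
    (E (P t) (fun y => E (P (t + s)) (fun z => |G z|) y ^ 2) x * E (P t) (fun y => F y ^ 2) x)

def Forms.flip {P : ℕ → Setoid X} {η : ℝ} (L : Forms P η) : Forms P η where
  ℓ t x := (L.ℓ t x).flip
  h0 t x F G := by rw [mul_comm]; exact L.h0 t x G F
  h1l t x G := L.h1r t x G
  h1r t x F := L.h1l t x F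
  h2l t s x F G h := L.h2r t s x G F h
  h2r t s x F G h := L.h2l t s x G F h

lemma Forms.center {P : ℕ → Setoid X} {η : ℝ} (L : Forms P η) (t : ℕ) (x : X) (F G : X → ℝ) :
    L.ℓ t x F G = L.ℓ t x (F - E (P t) F) G := by
  have h := L.h0 t x (E (P t) F - E (P t) F x • fun _ => 1) G
  have e : E (P t) (fun y => |(E (P t) F - E (P t) F x • fun _ => (1 : ℝ) : X → ℝ) y|) x = 0 := by
    rw [E_congr (v := fun _ => 0) fun y hy => by simp [E_meas _ _ x y hy], E_const]
  rw [e, zero_mul, abs_nonpos_iff, map_sub, map_smul] at h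
  simp only [LinearMap.sub_apply, LinearMap.smul_apply, L.h1l, smul_zero, sub_zero] at h
  rw [map_sub, LinearMap.sub_apply, h, sub_zero]

lemma geo_le {η : ℝ} (h0 : 0 ≤ η) (h1 : η < 1) (N s : ℕ) :
    ∑ r ∈ Ico N s, η ^ r ≤ η ^ N / (1 - η) := geom_sum_Ico_le_of_lt_one h0 h1

lemma succ_mul_pow_le {η : ℝ} (h0 : 0 ≤ η) (h1 : η < 1) (r : ℕ) :
    (r + 1 : ℝ) * η ^ r ≤ 1 / (1 - η) := by
  have h := geo_le h0 h1 0 (r + 1)
  rw [pow_zero] at h
  refine le_trans ?_ h
  have := card_nsmul_le_sum (Ico 0 (r + 1)) (fun i => η ^ i) (η ^ r) fun i hi =>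
    pow_le_pow_of_le_one h0 h1.le (by have := mem_Ico.1 hi; omega)
  simpa using this

namespace Cor

variable (S : Cor X) {η : ℝ} (L : Forms S.P η)

lemma wcs {n : ℕ} {z A B : ℕ → X → ℝ} {K a b : ℝ} (hK : 0 ≤ K) (hA : ∀ t x, 0 ≤ A t x)
    (hB : ∀ t x, 0 ≤ B t x)
    (h : ∀ t x, z t x ^ 2 ≤ K * (E (S.P t) (A t) x * E (S.P t) (B t) x))
    (ha : ∑ t ∈ range n, ∑ x, S.ω t x * A t x ≤ a)
    (hb : ∑ t ∈ range n, ∑ x, S.swap.ω t x * B t x ≤ b) :
    ∑ t ∈ range n, ∑ x, |z t x| ≤ √(K * a * b) := by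
  refine cs_sum (range n) (p := fun t x => S.ω t x * E (S.P t) (A t) x)
    (q := fun t x => S.swap.ω t x * E (S.P t) (B t) x) hK
    (fun t _ x => mul_nonneg (S.ω_pos t x).le (E_nonneg (hA t)))
    (fun t _ x => mul_nonneg (S.swap.ω_pos t x).le (E_nonneg (hB t))) (fun t _ x => ?_) ?_ ?_
  · rw [mul_mul_mul_comm, S.ω_mul, one_mul]; exact h t x
  · rwa [sum_congr rfl fun t _ => sum_mul_E (S.ω_meas t) _]
  · rwa [sum_congr rfl fun t _ => sum_mul_E (P := S.P t) (S.swap.ω_meas t) _]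

lemma E_W (u : X → ℝ) (t α β : ℕ) {s s' : ℕ} (h : s ≤ s') (y : X) :
    E (S.P (t + s)) (S.W u t α β s') y = S.W u t α β s y := by
  unfold W
  rw [E_sub, (S.nu_stop t β s').E_ES S.hP, (S.nu_stop t α s').E_ES S.hP,
    ← S.nu_min le_rfl rfl (Or.inr rfl) (by omega), ← S.nu_min le_rfl rfl (Or.inr rfl) (by omega)]
  rfl

lemma l2_step {u : X → ℝ} (hu : ∀ x, |u x| ≤ S.U x) (n : ℕ) {α β H : ℕ} (h : α ≤ β) (hH : β ≤ H)
    (r : ℕ) {G : ℕ → X → ℝ}
    (hG : ∑ t ∈ range n, ∑ x, S.swap.ω t x * G t x ^ 2 ≤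
      512 * (r + 1) * ((4 * S.D) ^ H) ^ 2 * S.A) :
    ∑ t ∈ range n, ∑ x, |L.ℓ t x (S.W u t α β (r + 1) - S.W u t α β r) (G t)| ≤
      1024 * ((r + 1) * (η ^ r) ^ 2) * ((4 * S.D) ^ H) ^ 2 * S.A := by
  have hA := S.hA1
  have hD := S.hD1
  have h3 : ((4 * S.D) ^ β) ^ 2 ≤ ((4 * S.D) ^ H) ^ 2 :=
    pow_le_pow_left₀ (by positivity) (pow_le_pow_right₀ (by linarith) hH) 2
  refine le_trans (S.wcs (K := (η ^ r) ^ 4) (a := 2048 * (r + 1) * ((4 * S.D) ^ H) ^ 2 * S.A)
    (z := fun t x => L.ℓ t x (S.W u t α β (r + 1) - S.W u t α β r) (G t))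
    (A := fun t y => E (S.P (t + r)) (fun z => |(S.W u t α β (r + 1) - S.W u t α β r) z|) y ^ 2)
    (B := fun t y => G t y ^ 2)
    (by positivity) (fun t x => sq_nonneg _) (fun t x => sq_nonneg _)
    (fun t x => L.h2l t r x _ _ fun y => ?_) ?_ hG)
    (sqrt_le_of (by positivity) (le_of_eq (by ring)))
  · change E _ (fun y => S.W u t α β (r + 1) y - S.W u t α β r y) y = 0
    rw [E_sub, S.E_W u t α β (Nat.le_succ r), S.E_W u t α β le_rfl, sub_self]
  · have h1 := S.lemW hu n h r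
    have h2 := S.lemW hu n h (r + 1)
    calc _ ≤ 2 * ∑ t ∈ range n, ∑ x, S.ω t x * S.W u t α β r x ^ 2 +
          2 * ∑ t ∈ range n, ∑ x, S.ω t x * S.W u t α β (r + 1) x ^ 2 := by
          rw [mul_sum, mul_sum, ← sum_add_distrib]
          refine sum_le_sum fun t _ => ?_
          calc _ ≤ ∑ x, S.ω t x * E (S.P (t + r))
                (fun z => |(S.W u t α β (r + 1) - S.W u t α β r) z| ^ 2) x :=
                sum_le_sum fun x _ => mul_le_mul_of_nonneg_left (E_sq_le _ _ x) (S.ω_pos t x).le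
            _ ≤ _ := by
                rw [sum_mul_E ((S.ω_meas t).mono S.hP (Nat.le_add_right t r)), mul_sum, mul_sum,
                  ← sum_add_distrib]
                refine sum_le_sum fun x _ => ?_
                rw [sq_abs, Pi.sub_apply]
                nlinarith [mul_nonneg (S.ω_pos t x).le
                  (sq_nonneg (S.W u t α β (r + 1) x + S.W u t α β r x))]
      _ ≤ _ := by
          push_cast at h2
          have := mul_le_mul_of_nonneg_left h3 (by positivity : 0 ≤ (2 * r + 1 : ℝ) * S.A)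
          have : 0 ≤ ((4 * S.D) ^ H) ^ 2 * S.A := by positivity
          nlinarith

noncomputable def Pair (u v : X → ℝ) (n α β α' β' s : ℕ) : ℝ :=
  ∑ t ∈ range n, ∑ x, |L.ℓ t x (S.W u t α β s) (S.W v t α' β' s)|

lemma lemW' {v : X → ℝ} (hv : ∀ x, |v x| ≤ S.U x) (n : ℕ) {α β H : ℕ} (h : α ≤ β) (hH : β ≤ H)
    {s : ℕ} {r : ℝ} (hs : s ≤ r) : ∑ t ∈ range n, ∑ x, S.ω t x * S.W v t α β s x ^ 2 ≤
      512 * r * ((4 * S.D) ^ H) ^ 2 * S.A := by
  have hA := S.hA1
  have hD := S.hD1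
  refine (S.lemW hv n h s).trans ?_
  have : (0 : ℝ) ≤ r := (Nat.cast_nonneg s).trans hs
  gcongr
  linarith

lemma pair_l2 (h0 : 0 ≤ η) (h1 : η < 1) {u v : X → ℝ} (hu : ∀ x, |u x| ≤ S.U x)
    (hv : ∀ x, |v x| ≤ S.V x) (n : ℕ) {α β α' β' H : ℕ} (h : α ≤ β) (hH : β ≤ H) (h' : α' ≤ β')
    (hH' : β' ≤ H) {N s : ℕ} (hNs : N ≤ s) :
    S.Pair L u v n α β α' β' s ≤ S.Pair L u v n α β α' β' N +
      2048 / (1 - η) ^ 2 * (η ^ N * ((4 * S.D) ^ H) ^ 2) * S.A := by
  have hA := S.hA1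
  have key : S.Pair L u v n α β α' β' s ≤ S.Pair L u v n α β α' β' N +
      ∑ r ∈ Ico N s, 2048 * ((r + 1) * (η ^ r) ^ 2) * ((4 * S.D) ^ H) ^ 2 * S.A := by
    induction s, hNs using Nat.le_induction with
    | base => simp
    | succ r hr ih =>
      rw [sum_Ico_succ_top hr]
      have a1 := S.l2_step L hu n h hH r (G := fun t => S.W v t α' β' (r + 1))
        (S.swap.lemW' hv n h' hH' (by push_cast; exact le_rfl))
      have a2 := S.swap.l2_step L.flip hv n h' hH' r (G := fun t => S.W u t α β r)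
        (S.lemW' hu n h hH (by linarith))
      have a3 : S.Pair L u v n α β α' β' (r + 1) ≤ S.Pair L u v n α β α' β' r +
          ∑ t ∈ range n, ∑ x, |L.ℓ t x (S.W u t α β (r + 1) - S.W u t α β r)
            (S.W v t α' β' (r + 1))| +
          ∑ t ∈ range n, ∑ x, |L.ℓ t x (S.W u t α β r)
            (S.W v t α' β' (r + 1) - S.W v t α' β' r)| := by
        simp only [Pair, ← sum_add_distrib]
        refine sum_le_sum fun t _ => sum_le_sum fun x _ => ?_
        refine le_trans (le_of_eq ?_) ((abs_add_le _ _).trans (add_le_add_left (abs_add_le _ _) _))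
        simp only [map_sub, LinearMap.sub_apply]
        congr 1; ring
      change ∑ t ∈ range n, ∑ x, |L.ℓ t x (S.W u t α β r)
            (S.W v t α' β' (r + 1) - S.W v t α' β' r)| ≤
            1024 * ((r + 1) * (η ^ r) ^ 2) * ((4 * S.D) ^ H) ^ 2 * S.A at a2
      linarith
  refine key.trans (add_le_add_right ?_ _)
  rw [← sum_mul, ← sum_mul, ← mul_sum]
  have h2 : ∑ r ∈ Ico N s, (r + 1 : ℝ) * (η ^ r) ^ 2 ≤ 1 / (1 - η) * (η ^ N / (1 - η)) := by
    refine le_trans ?_ (mul_le_mul_of_nonneg_left (geo_le h0 h1 N s)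
      (by have := sub_pos.2 h1; positivity))
    rw [mul_sum]
    refine sum_le_sum fun r _ => ?_
    rw [sq, ← mul_assoc]
    exact mul_le_mul_of_nonneg_right (succ_mul_pow_le h0 h1 r) (pow_nonneg h0 r)
  calc _ ≤ 2048 * (1 / (1 - η) * (η ^ N / (1 - η))) * ((4 * S.D) ^ H) ^ 2 * S.A := by gcongr
    _ = _ := by have := (sub_pos.2 h1).ne'; field_simp

lemma abs_W {u : X → ℝ} (hu : ∀ x, |u x| ≤ S.U x) {t α β s q : ℕ} (h : α ≤ β) {x : X}
    (hq : ∀ y, S.P q x y → q ≤ S.nu t α s y) {p : X → Prop}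
    (hp : ∀ y z, S.P (S.nu t α s y) y z → (p z ↔ p y)) :
    E (S.P q) (fun y => |I (p y) * S.W u t α β s y|) x ≤
      2 * E (S.P q) (fun y => I (p y ∧ S.nu t α s y < t + s) * S.U y) x := by
  have hm : ∀ y z, S.P (S.nu t α s y) y z →
      I (p z ∧ S.nu t α s z < t + s) = I (p y ∧ S.nu t α s y < t + s) := fun y z hyz => by
    rw [hp y z hyz, S.nu_stop t α s y z hyz]
  have e1 := (S.nu_stop t α s).E_mul_ES S.hP hq (fun y z _ hyz => hm y z hyz) S.U
  have e2 := (S.nu_stop t β s).E_mul_ES S.hP (fun y hy => (hq y hy).trans (S.nu_mono h t s y))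
    (fun y z _ hyz => hm y z (S.hP.mono (S.nu_mono h t s y) hyz)) S.U
  rw [two_mul]
  nth_rewrite 1 [← e1]
  rw [← e2, ← E_add]
  refine E_mono fun y _ => ?_
  have b : ∀ γ, |ES S.P (S.nu t γ s) u y| ≤ ES S.P (S.nu t γ s) S.U y := fun γ =>
    (abs_E_le _ _ _).trans (E_mono fun y _ => hu y)
  by_cases h1 : p y ∧ S.nu t α s y < t + s
  · rw [I_of h1, I_of h1.1, one_mul, one_mul, one_mul, W]
    exact (abs_sub _ _).trans (by linarith [b α, b β])
  · rw [I_not h1, zero_mul, zero_mul, add_zero]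
    by_cases h2 : p y
    · have h3 := S.nu_le_cap t β s y
      have h4 := S.nu_mono h t s y
      have : S.nu t β s y = S.nu t α s y := by
        have : ¬ S.nu t α s y < t + s := fun h' => h1 ⟨h2, h'⟩
        omega
      simp [W, ES, this]
    · simp [I_not h2]

lemma see_one {u : X → ℝ} (hu : ∀ x, |u x| ≤ S.U x) (n : ℕ) {l α β N s : ℕ} (hl : 1 ≤ l)
    (hlα : l ≤ α) (h : α ≤ β) {G : ℕ → X → ℝ} {b : ℝ}
    (hG : ∑ t ∈ range n, ∑ x, S.swap.ω t x * G t x ^ 2 ≤ b) :
    ∑ t ∈ range n, ∑ x, |L.ℓ t x (fun y => I (S.nu t l N y = t + s) * S.W u t α β N y) (G t)| ≤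
      √((η ^ s) ^ 4 * (16 * (4 * S.D) ^ l * S.Lam n (n + N) α) * b) := by
  have hD := S.hD1
  have hcl : ∀ t x y, S.P (t + s) x y → S.nu t l N x = t + s → S.nu t l N y = t + s :=
    fun t x y hxy h => by rw [← h] at hxy; rw [S.nu_stop t l N x y hxy, h]
  have hcm : ∀ t, Meas (S.P (t + s)) fun y => I (S.nu t l N y = t + s) := fun t x y hxy =>
    congrArg I (propext ⟨hcl t y x ((S.P _).symm' hxy), hcl t x y hxy⟩)
  refine S.wcs (by positivity) (fun t x => sq_nonneg _) (fun t x => sq_nonneg _)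
    (fun t x => L.h2l t s x _ _ fun y => ?_) ?_ hG
  · rw [E_mul_left _ (hcm t y)]
    by_cases h1 : S.nu t l N y = t + s
    · unfold W
      have h2 := S.nu_mono hlα t N y
      have h3 := S.nu_mono h t N y
      rw [E_sub, (S.nu_stop t β N).E_ES S.hP, (S.nu_stop t α N).E_ES S.hP,
        min_eq_left (by omega), min_eq_left (by omega), sub_self, mul_zero]
    · rw [I_not h1, zero_mul]
  set Z : ℕ → X → ℝ := fun t y => I (S.nu t l N y = t + s ∧ S.nu t α N y < t + N) with hZ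
  have h1 : ∀ t y, S.ω t y * E (S.P (t + s))
      (fun z => |I (S.nu t l N z = t + s) * S.W u t α β N z|) y ^ 2 ≤
      16 * (4 * S.D) ^ l * (S.swap.a t y * E (S.P (t + s)) (fun z => Z t z * S.U z) y) := by
    intro t y
    have hZ0 : 0 ≤ E (S.P (t + s)) (fun z => Z t z * S.U z) y :=
      E_nonneg fun z => mul_nonneg (I_nonneg _) (S.hU z).le
    have hb := S.swap.a_pos t y
    have ha := S.a_pos t y
    by_cases h2 : S.nu t l N y = t + s
    · have h3 := S.abs_W hu (β := β) h (x := y) (q := t + s)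
        (fun z hz => (hcl t y z hz h2).ge.trans (S.nu_mono hlα t N z))
        (p := fun z => S.nu t l N z = t + s) fun y z hyz => by
          rw [S.nu_stop t l N y z (S.hP.mono (S.nu_mono hlα t N y) hyz)]
      have h4 : E (S.P (t + s)) (fun z => Z t z * S.U z) y ≤ 4 * (4 * S.D) ^ l * S.a t y :=
        (E_mono fun z _ => mul_le_of_le_one_left (S.hU z).le (I_le_one _)).trans
          (S.E_le_a (Nat.le_add_right t s) (by rw [← h2]; exact S.g_nu_le t l N y))
      have h5 := pow_le_pow_left₀ (E_nonneg fun _ => abs_nonneg _) h3 2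
      refine (mul_le_mul_of_nonneg_left h5 (S.ω_pos t y).le).trans ?_
      change S.swap.a t y / S.a t y * (2 * E (S.P (t + s)) (fun z => Z t z * S.U z) y) ^ 2 ≤ _
      rw [div_mul_eq_mul_div, div_le_iff₀ ha]
      nlinarith [mul_le_mul_of_nonneg_left h4 (mul_nonneg hb.le hZ0)]
    · rw [E_congr (v := fun _ => 0) fun z hz => by
        rw [I_not fun h' => h2 (hcl t z y ((S.P _).symm' hz) h'), zero_mul, abs_zero], E_const]
      simp only [ne_eq, OfNat.ofNat_ne_zero, not_false_eq_true, zero_pow, mul_zero]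
      positivity
  refine (sum_le_sum fun t _ => sum_le_sum fun y _ => h1 t y).trans ?_
  simp only [← mul_sum]
  refine mul_le_mul_of_nonneg_left ?_ (by positivity)
  rw [sum_congr rfl fun t _ =>
    sum_mul_E (P := S.P (t + s)) ((S.swap.a_meas t).mono S.hP (Nat.le_add_right t s)) _]
  unfold Lam
  rw [sum_comm, sum_comm (s := range n)]
  refine sum_le_sum fun y _ => ?_
  calc _ = ∑ t ∈ range n, ∑ p ∈ range n, I (S.top t y = p) * Z t y * (E (S.P p) S.V y * S.U y) := by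
        refine sum_congr rfl fun t ht => ?_
        have := S.sum_top (mem_range.1 ht) y fun p => E (S.P p) S.V y
        change S.swap.a t y = _ at this
        rw [this, sum_mul]
        exact sum_congr rfl fun p _ => by ring
    _ ≤ _ := by
        rw [sum_comm]
        refine sum_le_sum fun p _ => ?_
        rw [← sum_mul]
        have h2 : ∑ t ∈ range n, I (S.top t y = p) * Z t y ≤
            I (S.top p y = p) * I (S.g p y + α ≤ S.g (n + N) y) := by
          by_cases h3 : S.top p y = p ∧ S.g p y + α ≤ S.g (n + N) y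
          · rw [I_of h3.1, I_of h3.2, one_mul]
            refine le_trans (sum_le_sum fun t ht => ?_)
              (sum_I_le_one (p := fun t => t + s = S.nu p l (n + N) y) fun a b ha hb => by omega)
            by_cases h4 : S.top t y = p ∧ S.nu t l N y = t + s ∧ S.nu t α N y < t + N
            · have h5 := S.nu_min (t := t) (p := p) (β := l) (s := N) (s' := n + N) (x := y)
                (h4.1 ▸ S.top_le t y) (h4.1 ▸ (S.top_top t y).2.symm) (Or.inl hl)
                (by have := mem_range.1 ht; omega)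
              have h6 := S.nu_mono hlα t N y
              rw [I_of (p := t + s = _) (by omega)]
              exact mul_le_one₀ (I_le_one _) (I_nonneg _) (I_le_one _)
            · refine le_trans (le_of_eq ?_) (I_nonneg _)
              by_cases h5 : S.top t y = p
              · simp only [hZ]; rw [I_not fun h' => h4 ⟨h5, h'⟩, mul_zero]
              · rw [I_not h5, zero_mul]
          · refine le_trans (le_of_eq (sum_eq_zero fun t ht => ?_))
              (mul_nonneg (I_nonneg _) (I_nonneg _))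
            by_cases h5 : S.top t y = p
            · simp only [hZ]
              rw [I_not (p := _ ∧ _) fun h' => h3 ⟨h5 ▸ (S.top_top t y).1, ?_⟩, mul_zero]
              have h6 := (S.nu_spec t α N y).2
              have h7 := S.g_mono y (show S.nu t α N y ≤ n + N by have := mem_range.1 ht; omega)
              have h8 : S.g p y = S.g t y := h5 ▸ (S.top_top t y).2
              omega
            · rw [I_not h5, zero_mul]
        have := mul_le_mul_of_nonneg_right h2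
          (mul_pos (E_pos (P := S.P p) (x := y) S.hV) (S.hU y)).le
        linarith

noncomputable def Mn (u v : X → ℝ) (n l α β α' β' N N' : ℕ) : ℝ := ∑ t ∈ range n, ∑ x,
  |L.ℓ t x (fun y => I (S.nu t l N' y ≤ t + N) * S.W u t α β N' y) (S.W v t α' β' N')|

lemma pair_see (h0 : 0 ≤ η) (h1 : η < 1) {u v : X → ℝ} (hu : ∀ x, |u x| ≤ S.U x)
    (hv : ∀ x, |v x| ≤ S.V x) (n : ℕ) {l α β α' β' H N N' : ℕ} (hl : 1 ≤ l) (hlα : l ≤ α)
    (h : α ≤ β) (h' : α' ≤ β') (hH : β' ≤ H) (hlH : l ≤ H) {Λ : ℝ}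
    (hΛ : S.Lam n (n + N') α ≤ Λ) (hΛ0 : 0 ≤ Λ) :
    S.Pair L u v n α β α' β' N' ≤ S.Mn L u v n l α β α' β' N N' +
      96 / (1 - η) * (η ^ N * ((4 * S.D) ^ H) ^ 2) * √(Λ * (N' * S.A)) := by
  have hA := S.hA1
  have hD := S.hD1
  have key : S.Pair L u v n α β α' β' N' ≤ S.Mn L u v n l α β α' β' N N' +
      ∑ s ∈ Ico (N + 1) (N' + 1), ∑ t ∈ range n, ∑ x,
        |L.ℓ t x (fun y => I (S.nu t l N' y = t + s) * S.W u t α β N' y) (S.W v t α' β' N')| := by
    rw [sum_comm]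
    simp only [Pair, Mn, ← sum_add_distrib]
    refine sum_le_sum fun t _ => ?_
    rw [sum_comm, ← sum_add_distrib]
    refine sum_le_sum fun x _ => ?_
    have e : S.W u t α β N' = (fun y => I (S.nu t l N' y ≤ t + N) * S.W u t α β N' y) +
        ∑ s ∈ Ico (N + 1) (N' + 1), fun y => I (S.nu t l N' y = t + s) * S.W u t α β N' y := by
      funext y
      rw [Pi.add_apply, Finset.sum_apply, ← sum_mul, ← add_mul]
      have h2 := S.nu_le_cap t l N' y
      by_cases h3 : S.nu t l N' y ≤ t + N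
      · rw [I_of h3, sum_eq_zero fun s hs => I_not (by have := mem_Ico.1 hs; omega)]; simp
      · rw [I_not h3, sum_eq_single (S.nu t l N' y - t) (fun b _ hb => I_not (by omega))
          (fun h' => (h' (mem_Ico.2 (by omega))).elim), I_of (by omega)]; simp
    nth_rewrite 1 [e]
    rw [map_add, map_sum, LinearMap.add_apply, LinearMap.sum_apply]
    exact (abs_add_le _ _).trans (add_le_add_right (abs_sum_le_sum_abs _ _) _)
  refine key.trans (add_le_add_right ?_ _)
  have hC : (1 : ℝ) ≤ (4 * S.D) ^ H := one_le_pow₀ (by linarith)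
  have hl' : (4 * S.D) ^ l ≤ (4 * S.D) ^ H := pow_le_pow_right₀ (by linarith) hlH
  calc _ ≤ ∑ s ∈ Ico (N + 1) (N' + 1), η ^ s * (96 * ((4 * S.D) ^ H) ^ 2 * √(Λ * (N' * S.A))) := by
        refine sum_le_sum fun s _ => (S.see_one L hu n hl hlα h
          (S.swap.lemW' hv n h' hH le_rfl)).trans (sqrt_le_of (by positivity) ?_)
        change _ * (512 * N' * ((4 * S.D) ^ H) ^ 2 * S.A) ≤ _
        have e1 : (η ^ s) ^ 4 ≤ (η ^ s) ^ 2 :=
          pow_le_pow_of_le_one (pow_nonneg h0 s) (pow_le_one₀ h0 h1.le) (by norm_num)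
        have e2 : 16 * (4 * S.D) ^ l * S.Lam n (n + N') α ≤ 16 * ((4 * S.D) ^ H) ^ 2 * Λ := by
          refine (mul_le_mul_of_nonneg_left hΛ (by positivity)).trans ?_
          gcongr
          nlinarith
        calc _ ≤ (η ^ s) ^ 4 * (16 * ((4 * S.D) ^ H) ^ 2 * Λ) *
              (512 * N' * ((4 * S.D) ^ H) ^ 2 * S.A) := by gcongr
          _ ≤ (η ^ s) ^ 2 * (16 * ((4 * S.D) ^ H) ^ 2 * Λ) *
              (512 * N' * ((4 * S.D) ^ H) ^ 2 * S.A) := by gcongr
          _ ≤ _ := by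
              rw [mul_pow (η ^ s), mul_pow _ (√_), Real.sq_sqrt (by positivity)]
              have : 0 ≤ (η ^ s) ^ 2 * (((4 * S.D) ^ H) ^ 2) ^ 2 * (Λ * (N' * S.A)) := by
                positivity
              nlinarith
    _ ≤ η ^ (N + 1) / (1 - η) * (96 * ((4 * S.D) ^ H) ^ 2 * √(Λ * (N' * S.A))) := by
        rw [← sum_mul]
        exact mul_le_mul_of_nonneg_right (geo_le h0 h1 _ _) (by positivity)
    _ ≤ η ^ N / (1 - η) * (96 * ((4 * S.D) ^ H) ^ 2 * √(Λ * (N' * S.A))) := by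
        exact mul_le_mul_of_nonneg_right (div_le_div_of_nonneg_right
          (pow_le_pow_of_le_one h0 h1.le (Nat.le_succ N)) (sub_pos.2 h1).le) (by positivity)
    _ = _ := by ring

lemma Z_le {t l α N N' : ℕ} (hlα : l ≤ α) (y : X) :
    I (S.nu t l N' y ≤ t + N ∧ S.nu t α N' y < t + N') ≤ S.Γ l N t y ∧
    I (S.nu t l N' y ≤ t + N ∧ S.nu t α N' y < t + N') ≤ S.Γ α N' t y := by
  have h1 := S.nu_mono hlα t N' y
  have h2 := (S.nu_spec t l N' y).2
  have h3 := (S.nu_spec t α N' y).2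
  refine ⟨I_mono fun h => ?_, I_mono fun h => ?_⟩
  · have := S.g_mono y h.1; omega
  · have := S.g_mono y h.2.le; omega

lemma E_main {u : X → ℝ} (hu : ∀ x, |u x| ≤ S.U x) {t l α β N N' : ℕ} (hlα : l ≤ α) (h : α ≤ β)
    (x : X) : E (S.P t) (fun y => |I (S.nu t l N' y ≤ t + N) * S.W u t α β N' y|) x ≤
      2 * E (S.P t) (fun y => S.Γ l N t y * S.U y) x ∧
    E (S.P t) (fun y => |I (S.nu t l N' y ≤ t + N) * S.W u t α β N' y|) x ≤
      2 * E (S.P t) (fun y => S.Γ α N' t y * S.U y) x := by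
  have := S.abs_W hu (t := t) (s := N') (q := t) (x := x) h (fun y _ => (S.nu_spec t α N' y).1)
    (p := fun y => S.nu t l N' y ≤ t + N) fun y z hyz => by
      rw [S.nu_stop t l N' y z (S.hP.mono (S.nu_mono hlα t N' y) hyz)]
  exact ⟨this.trans (mul_le_mul_of_nonneg_left (E_mono fun y _ =>
      mul_le_mul_of_nonneg_right (S.Z_le hlα y).1 (S.hU y).le) zero_le_two),
    this.trans (mul_le_mul_of_nonneg_left (E_mono fun y _ =>
      mul_le_mul_of_nonneg_right (S.Z_le hlα y).2 (S.hU y).le) zero_le_two)⟩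

lemma Mn_zero {u : X → ℝ} (hu : ∀ x, |u x| ≤ S.U x) (v : X → ℝ) (n : ℕ) {α β α' β' N' : ℕ}
    (hα : 1 ≤ α) (h : α ≤ β) : S.Mn L u v n 1 α β α' β' 0 N' ≤ 0 := by
  refine sum_nonpos fun t _ => sum_nonpos fun x _ => (L.h0 t x _ _).trans ?_
  refine mul_nonpos_of_nonpos_of_nonneg ((S.E_main hu hα h x).1.trans ?_)
    (E_nonneg fun _ => abs_nonneg _)
  rw [E_congr (v := fun _ => 0) fun y _ => by rw [Γ, I_not (by simp), zero_mul], E_const, mul_zero]

lemma Mn_le {u v : X → ℝ} (hu : ∀ x, |u x| ≤ S.U x) (hv : ∀ x, |v x| ≤ S.V x) (n : ℕ)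
    {l α β β' N N' : ℕ} (hlα : l ≤ α) (h : α ≤ β) (h' : l ≤ β') :
    S.Mn L u v n l α β l β' N N' ≤ 4 * ∑ t ∈ range n, ∑ x,
      E (S.P t) (fun y => S.Γ l N t y * S.U y) x * E (S.P t) (fun y => S.Γ l N' t y * S.V y) x ∧
    S.Mn L u v n l α β l β' N N' ≤ 4 * ∑ t ∈ range n, ∑ x,
      E (S.P t) (fun y => S.Γ α N' t y * S.U y) x *
        E (S.P t) (fun y => S.Γ l N' t y * S.V y) x := by
  have hG : ∀ t x, E (S.P t) (fun y => |S.W v t l β' N' y|) x ≤
      2 * E (S.P t) (fun y => S.Γ l N' t y * S.V y) x := fun t x => by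
    refine le_trans (le_of_eq (E_congr fun y _ => ?_))
      (S.swap.E_main hv (t := t) (N := N') (N' := N') le_rfl h' x).1
    rw [I_of (S.swap.nu_le_cap t l N' y), one_mul]; rfl
  simp only [mul_sum]
  refine ⟨sum_le_sum fun t _ => sum_le_sum fun x _ => (L.h0 t x _ _).trans ?_,
    sum_le_sum fun t _ => sum_le_sum fun x _ => (L.h0 t x _ _).trans ?_⟩
  · have := (S.E_main hu (t := t) (N := N) (N' := N') hlα h x).1
    exact (mul_le_mul this (hG t x) (E_nonneg fun _ => abs_nonneg _)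
      ((E_nonneg fun _ => abs_nonneg _).trans this)).trans_eq (by ring)
  · have := (S.E_main hu (t := t) (N := N) (N' := N') hlα h x).2
    exact (mul_le_mul this (hG t x) (E_nonneg fun _ => abs_nonneg _)
      ((E_nonneg fun _ => abs_nonneg _).trans this)).trans_eq (by ring)

end Cor

end Pool.Agent.P.MP_70f35d_an
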