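import Pool.Agent.P.MP_70f35d_an.Model

set_option autoImplicit false
open Finset Filter Topology

namespace Pool.Agent.P.MP_70f35d_an

variable {X : Type} [Fintype X]

lemma Ew_mono {P : Setoid X} {σ f g : X → ℝ} (hσ : ∀ y, 0 < σ y) {x : X}
    (h : ∀ y, P x y → f y ≤ g y) : Ew P σ f x ≤ Ew P σ g x :=
  div_le_div_of_nonneg_right (E_mono fun y hy => mul_le_mul_of_nonneg_left (h y hy) (hσ y).le)
    (E_pos hσ).le

lemma Ew_const {P : Setoid X} {σ : X → ℝ} (hσ : ∀ y, 0 < σ y) (c : ℝ) (x : X) :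
    Ew P σ (fun _ => c) x = c := by
  have := (E_pos (P := P) (x := x) hσ).ne'
  rw [Ew, E_congr (v := fun y => c * σ y) fun y _ => mul_comm _ _, E_cmul]
  field_simp

lemma Ew_cmul {P : Setoid X} (σ f : X → ℝ) (c : ℝ) (x : X) :
    Ew P σ (fun y => c * f y) x = c * Ew P σ f x := by
  rw [Ew, Ew, E_congr (v := fun y => c * (σ y * f y)) fun y _ => by ring, E_cmul, mul_div_assoc]

omit [Fintype X] in
lemma rmax_le {F : ℕ → X → ℝ} {x : X} {c : ℝ} (h : ∀ q, F q x ≤ c) (n : ℕ) : rmax F n x ≤ c := by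
  induction n with
  | zero => exact h 0
  | succ n ih => exact max_le ih (h _)

omit [Fintype X] in
lemma rmax_le' {F : ℕ → X → ℝ} {x : X} {c : ℝ} (n : ℕ) (h : ∀ q ≤ n, F q x ≤ c) :
    rmax F n x ≤ c := by
  induction n with
  | zero => exact h 0 le_rfl
  | succ n ih => exact max_le (ih fun q hq => h q (by omega)) (h _ le_rfl)

/-- Rubio de Francia algorithm -/
theorem rubio {P : ℕ → Setoid X} (hP : Filt P) {nb : ℕ} (hb : ∀ q x y, nb ≤ q → P q x y → x = y)
    {σ f0 : X → ℝ} (hσ : ∀ x, 0 < σ x) (hf0 : ∀ x, 0 ≤ f0 x)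
    (hn : ∑ x, σ x * f0 x ^ 2 ≤ 1 / 4) :
    ∃ f : X → ℝ, (∀ x, f0 x ≤ f x) ∧ ∑ x, σ x * f x ^ 2 ≤ 1 ∧
      ∀ q x, Ew (P q) σ f x ≤ 4 * f x := by
  let T : (X → ℝ) → X → ℝ := fun g x => f0 x + rmax (fun q => Ew (P q) σ g) nb x / 4
  let s : ℕ → X → ℝ := fun k => T^[k] f0
  have hs : ∀ k, s (k + 1) = T (s k) := fun k => Function.iterate_succ_apply' T k f0
  have T0 : ∀ g : X → ℝ, (∀ x, 0 ≤ g x) → ∀ x, f0 x ≤ T g x := fun g hg x => by
    have := (Ew_nonneg (P := P nb) hσ hg x).trans (le_rmax (fun q => Ew (P q) σ g) nb x)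
    simp only [T]; linarith
  have s0 : ∀ k x, f0 x ≤ s k x := by
    intro k
    induction k with
    | zero => exact fun x => le_rfl
    | succ k ih => rw [hs]; exact T0 _ fun x => (hf0 x).trans (ih x)
  have sm : ∀ k x, s k x ≤ s (k + 1) x := by
    intro k
    induction k with
    | zero => exact s0 1
    | succ k ih =>
      intro x
      rw [hs (k + 1), hs k]
      have : rmax (fun q => Ew (P q) σ (s k)) nb x ≤ rmax (fun q => Ew (P q) σ (s (k + 1))) nb x :=
        rmax_le' nb fun q hq => (Ew_mono hσ fun y _ => ih y).trans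
          ((le_rmax (fun q => Ew (P q) σ (s (k + 1))) q x).trans (rmax_mono _ x hq))
      simp only [T, ← hs k]; linarith
  have sn : ∀ k, ∑ x, σ x * s k x ^ 2 ≤ 1 := by
    intro k
    induction k with
    | zero => exact hn.trans (by norm_num)
    | succ k ih =>
      have h1 := doob hP hσ (s k) nb
      rw [hs]
      calc _ ≤ 2 * ∑ x, σ x * f0 x ^ 2 +
            1 / 8 * ∑ x, σ x * rmax (fun q => Ew (P q) σ (s k)) nb x ^ 2 := by
            rw [mul_sum, mul_sum, ← sum_add_distrib]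
            refine sum_le_sum fun x _ => ?_
            simp only [T]
            nlinarith [mul_nonneg (hσ x).le
              (sq_nonneg (f0 x - rmax (fun q => Ew (P q) σ (s k)) nb x / 4))]
        _ ≤ _ := by linarith
  have bd : ∀ x, BddAbove (Set.range fun k => s k x) := fun x => by
    refine ⟨1 + 1 / σ x, ?_⟩
    rintro _ ⟨k, rfl⟩
    have h1 : σ x * s k x ^ 2 ≤ 1 := (single_le_sum (f := fun x => σ x * s k x ^ 2)
      (fun y _ => mul_nonneg (hσ y).le (sq_nonneg _)) (mem_univ x)).trans (sn k)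
    have h2 : s k x ^ 2 ≤ 1 / σ x := by rw [le_div_iff₀ (hσ x)]; linarith
    nlinarith [sq_nonneg (s k x - 1), sq_nonneg (s k x)]
  have mono : ∀ x, Monotone fun k => s k x := fun x => monotone_nat_of_le_succ fun k => sm k x
  have lim : ∀ x, Tendsto (fun k => s k x) atTop (𝓝 (⨆ k, s k x)) := fun x =>
    tendsto_atTop_ciSup (mono x) (bd x)
  have le : ∀ k x, s k x ≤ ⨆ k, s k x := fun k x => le_ciSup (bd x) k
  refine ⟨fun x => ⨆ k, s k x, fun x => (s0 0 x).trans (le 0 x), ?_, fun q x => ?_⟩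
  · exact le_of_tendsto' (tendsto_finsetSum _ fun x _ => ((lim x).pow 2).const_mul (σ x)) sn
  · rcases le_total q nb with hq | hq
    · have h1 : Tendsto (fun k => Ew (P q) σ (s k) x) atTop
          (𝓝 (Ew (P q) σ (fun x => ⨆ k, s k x) x)) :=
        ((tendsto_finsetSum _ fun y _ => (lim y).const_mul (σ y)).div_const _).div_const _
      refine le_of_tendsto' h1 fun k => ?_
      have h2 := (le_rmax (fun q => Ew (P q) σ (s k)) q x).trans (rmax_mono _ x hq)
      have h3 := le (k + 1) x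
      rw [hs] at h3
      have := hf0 x
      simp only [T] at h3
      linarith
    · have h1 := (Ew_mono (P := P q) (f := fun x => ⨆ k, s k x) (g := fun _ => ⨆ k, s k x) hσ
        (x := x) fun y hy => by rw [hb q x y hq hy]).trans_eq (Ew_const hσ _ x)
      have := (hf0 x).trans ((s0 0 x).trans (le 0 x))
      linarith

/-- rising sun lemma -/
lemma rising {g : ℕ → ℕ} (hg : Monotone g) {c N n : ℕ} {p : ℕ → Prop}
    (hp : ∀ t, p t → ∃ h, 1 ≤ c * h ∧ c * h ≤ N ∧ g t + h ≤ g (t + c * h)) (r : ℕ)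
    (hr : r ≤ n + N) : ∑ t ∈ Ico r n, I (p t) ≤ c * ((g (n + N) : ℝ) - g r) := by
  induction hk : n - r using Nat.strong_induction_on generalizing r with
  | _ k ih =>
    have h0 : (g r : ℝ) ≤ g (n + N) := by exact_mod_cast hg hr
    rcases le_or_gt n r with h | h
    · rw [Ico_eq_empty_of_le h, sum_empty]
      exact mul_nonneg (Nat.cast_nonneg c) (by linarith)
    by_cases hpr : p r
    · obtain ⟨l, l1, l2, l3⟩ := hp r hpr
      have h1 := ih (n - (r + c * l)) (by omega) (r + c * l) (by omega) rfl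
      have h2 : ∑ t ∈ Ico r n, I (p t) ≤ ∑ t ∈ Ico r (r + c * l) ∪ Ico (r + c * l) n, I (p t) :=
        sum_le_sum_of_subset_of_nonneg (fun t ht => by
          simp only [mem_union, mem_Ico] at ht ⊢; omega) fun t _ _ => I_nonneg _
      rw [sum_union (Ico_disjoint_Ico_consecutive _ _ _)] at h2
      have h3 := sum_le_card_nsmul (Ico r (r + c * l)) (fun t => I (p t)) 1 fun t _ => I_le_one _
      rw [Nat.card_Ico, Nat.add_sub_cancel_left, nsmul_eq_mul, mul_one] at h3
      have h4 : (g r : ℝ) + l ≤ g (r + c * l) := by exact_mod_cast l3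
      push_cast at h3
      nlinarith [mul_le_mul_of_nonneg_left h4 (Nat.cast_nonneg c)]
    · have h1 := ih (n - (r + 1)) (by omega) (r + 1) (by omega) rfl
      rw [sum_eq_sum_Ico_succ_bot h, I_not hpr, zero_add]
      have h4 : (g r : ℝ) ≤ g (r + 1) := by exact_mod_cast hg (Nat.le_succ r)
      nlinarith [mul_le_mul_of_nonneg_left h4 (Nat.cast_nonneg c)]

namespace Cor

variable (S : Cor X)

noncomputable def Fs : ℕ → X → ℝ := rmax S.F

lemma Fs_meas (q : ℕ) : Meas (S.P q) (S.Fs q) := rmax_meas S.hP S.F_meas q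
lemma Fs_mono (x : X) : Monotone fun q => S.Fs q x := rmax_mono _ x
lemma F_le_Fs (q : ℕ) (x : X) : S.F q x ≤ S.Fs q x := le_rmax _ q x
lemma Fs_nonneg (q : ℕ) (x : X) : 0 ≤ S.Fs q x := (S.F_nonneg q x).trans (S.F_le_Fs q x)

lemma nFs (n : ℕ) : ∑ x, S.σ x * S.Fs n x ^ 2 ≤ 4 := by
  have := doob S.hP S.hσ S.f n
  have := S.nf
  unfold Fs F; linarith

lemma win_Fs (N n : ℕ) :
    ∑ t ∈ range n, ∑ x, S.σ x * (S.Fs (t + N) x - S.Fs t x) ^ 2 ≤ 4 * N := by
  have := window_sum (c := fun q => ∑ x, S.σ x * S.Fs q x ^ 2) (p := 0) (n := n) (s := N) (K := 4)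
    (by norm_num) (fun q _ => sum_nonneg fun x _ => mul_nonneg (S.hσ x).le (sq_nonneg _))
    fun q _ _ => S.nFs q
  rw [range_eq_Ico, mul_comm]
  refine le_trans (sum_le_sum fun t _ => ?_) this
  rw [← sum_sub_distrib]
  refine sum_le_sum fun x _ => ?_
  have h1 : S.Fs t x ≤ S.Fs (t + N) x := S.Fs_mono x (Nat.le_add_right t N)
  nlinarith [mul_nonneg (S.hσ x).le (mul_nonneg (S.Fs_nonneg t x) (sub_nonneg.2 h1))]

lemma sum_FsGs (n : ℕ) : ∑ x, S.Fs n x * S.swap.Fs n x ≤ 4 := by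
  have h3 := sum_sq_le_sum_mul_sum_of_sq_le_mul (univ : Finset X)
    (r := fun x => S.Fs n x * S.swap.Fs n x) (f := fun x => S.σ x * S.Fs n x ^ 2)
    (g := fun x => S.w x * S.swap.Fs n x ^ 2)
    (fun x _ => mul_nonneg (S.hσ x).le (sq_nonneg _))
    (fun x _ => mul_nonneg (S.hw x).le (sq_nonneg _))
    (fun x _ => by
      nlinarith [mul_le_mul_of_nonneg_right (S.hσw x) (sq_nonneg (S.Fs n x * S.swap.Fs n x))])
  refine le_of_sq_le' (h3.trans ?_) (by norm_num)
  have := mul_le_mul (S.nFs n) (S.swap.nFs n)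
    (sum_nonneg fun x _ => mul_nonneg (S.hw x).le (sq_nonneg _)) (by norm_num)
  exact this.trans (by norm_num)

lemma splitS {t N : ℕ} {φ : X → ℝ} (hφ : Meas (S.P (t + N)) φ) (h0 : ∀ y, 0 ≤ φ y) (x : X) :
    E (S.P t) (fun y => φ y * S.U y) x ≤ S.Fs t x * E (S.P t) (fun y => φ y * S.σ y) x +
      E (S.P t) (fun y => φ y * S.σ y * (S.Fs (t + N) y - S.Fs t y)) x := by
  rw [S.E_φU (Nat.le_add_right t N) hφ, ← E_mul_left _ (S.Fs_meas t x), ← E_add]
  refine E_mono fun y _ => ?_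
  nlinarith [mul_le_mul_of_nonneg_left (S.F_le_Fs (t + N) y) (mul_nonneg (h0 y) (S.hσ y).le)]

variable {S} in
lemma Good.cnt {μ : X → ℝ} {κ : ℝ} (h : S.Good μ κ) (hκ : 0 ≤ κ) {r m : ℕ} (hr : r ≤ m) (x : X) :
    κ * E (S.P r) (fun y => ((S.g m y : ℝ) - S.g r y) * μ y) x ≤ E (S.P r) μ x := by
  refine le_trans (mul_le_mul_of_nonneg_left (E_mono fun y _ => ?_) hκ) (h.count r (m + 1) x)
  rw [← sum_mul]
  exact mul_le_mul_of_nonneg_right (S.g_sub y hr) (h.1 y)

variable {S} in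
lemma Good.stop_decay {μ : X → ℝ} {κ : ℝ} (h : S.Good μ κ) (hκ : κ ≤ 1) {t l k α N N' : ℕ}
    (hk : l + k + 1 ≤ α) (x : X) :
    E (S.P t) (fun y => I (S.nu t l N' y ≤ t + N ∧ S.nu t α N' y < t + N') * μ y) x ≤
      (1 - κ) ^ k * E (S.P t) (fun y => S.Γ l N t y * μ y) x := by
  set φ : ℕ → X → ℝ := fun r y => I (S.nu t l N' y = r ∧ r ≤ t + N ∧ r < t + N') with hφ
  have hcl : ∀ r x y, S.P r x y → S.nu t l N' x = r → S.nu t l N' y = r :=
    fun r x y hxy h => by rw [← h] at hxy; rw [S.nu_stop t l N' x y hxy, h]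
  have hm : ∀ r, Meas (S.P r) (φ r) := fun r x y hxy => congrArg I (propext
    ⟨fun h => ⟨hcl r y x ((S.P _).symm' hxy) h.1, h.2⟩, fun h => ⟨hcl r x y hxy h.1, h.2⟩⟩)
  have hρ : 0 ≤ (1 - κ) ^ k := pow_nonneg (sub_nonneg.2 hκ) k
  calc _ ≤ E (S.P t) (fun y => ∑ r ∈ Ico t (t + N'),
          φ r y * (I (S.g r y + k + 1 ≤ S.g (t + N') y) * μ y)) x := by
        refine E_mono fun y _ => ?_
        have hn : ∀ r ∈ Ico t (t + N'), 0 ≤ φ r y * (I (S.g r y + k + 1 ≤ S.g (t + N') y) * μ y) :=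
          fun r _ => mul_nonneg (I_nonneg _) (mul_nonneg (I_nonneg _) (h.1 y))
        by_cases h1 : S.nu t l N' y ≤ t + N ∧ S.nu t α N' y < t + N'
        · have h2 := S.nu_mono (show l ≤ α by omega) t N' y
          have h3 := S.g_nu_le t l N' y
          have h4 := (S.nu_spec t α N' y).2
          have h5 := S.g_mono y h1.2.le
          refine le_trans (le_of_eq ?_) (single_le_sum hn (a := S.nu t l N' y)
            (mem_Ico.2 ⟨(S.nu_spec t l N' y).1, by omega⟩))
          simp only [hφ]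
          rw [I_of h1, I_of ⟨trivial, h1.1, by omega⟩, I_of (by omega), one_mul, one_mul]
        · rw [I_not h1, zero_mul]; exact sum_nonneg hn
    _ ≤ ∑ r ∈ Ico t (t + N'), (1 - κ) ^ k * E (S.P t) (fun y => φ r y * μ y) x := by
        rw [E_sum]
        refine sum_le_sum fun r hr => ?_
        rw [← S.hP.E_mul_E (mem_Ico.1 hr).1 (hm r), ← S.hP.E_mul_E (mem_Ico.1 hr).1 (hm r) μ,
          ← E_cmul]
        refine E_mono fun y _ => ?_
        have := mul_le_mul_of_nonneg_left (h.decay hκ (mem_Ico.1 hr).2.le k y) (I_nonneg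
          (S.nu t l N' y = r ∧ r ≤ t + N ∧ r < t + N'))
        simp only [hφ]; linarith
    _ ≤ _ := by
        rw [← mul_sum, ← E_sum]
        refine mul_le_mul_of_nonneg_left (E_mono fun y _ => ?_) hρ
        rw [← sum_mul]
        refine mul_le_mul_of_nonneg_right ?_ (h.1 y)
        by_cases h1 : S.g t y + l ≤ S.g (t + N) y
        · rw [Γ, I_of h1]
          exact sum_I_le_one fun a b ha hb => ha.1.symm.trans hb.1
        · refine le_trans (le_of_eq (sum_eq_zero fun r _ => I_not fun h2 => h1 ?_)) (I_nonneg _)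
          have h3 := (S.nu_spec t l N' y).2
          have h4 := S.g_mono y h2.2.1
          rw [h2.1] at h3
          omega

lemma aa_sum (N n : ℕ) :
    ∑ t ∈ range n, ∑ x, S.a t x * S.swap.a t x * S.Γ 1 N t x ≤ N * (8 * S.A) := by
  refine le_trans ?_ (mul_le_mul_of_nonneg_left (S.sparse n) (Nat.cast_nonneg N))
  rw [sum_comm, sum_comm (s := range n), mul_sum]
  refine sum_le_sum fun x _ => ?_
  calc _ = ∑ t ∈ range n, ∑ p ∈ range n, I (S.top t x = p) * S.Γ 1 N t x *
          (E (S.P p) S.U x * E (S.P p) S.V x) := by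
        refine sum_congr rfl fun t ht => ?_
        have := S.sum_top (mem_range.1 ht) x fun p => E (S.P p) S.U x * E (S.P p) S.V x
        change S.a t x * S.swap.a t x = _ at this
        rw [this, sum_mul]
        exact sum_congr rfl fun p _ => by ring
    _ ≤ _ := by
        rw [sum_comm, mul_sum]
        refine sum_le_sum fun p _ => ?_
        rw [← sum_mul, ← mul_assoc (N : ℝ)]
        refine mul_le_mul_of_nonneg_right ?_ (mul_pos (E_pos S.hU) (E_pos S.hV)).le
        by_cases hp : S.top p x = p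
        · have := window_sum (c := fun q => I (S.g p x < S.g q x)) (p := 0) (n := n) (s := N)
            zero_le_one (fun _ _ => I_nonneg _) fun _ _ _ => I_le_one _
          rw [I_of hp, range_eq_Ico]
          refine le_trans (sum_le_sum fun t _ => ?_) this
          by_cases h1 : S.top t x = p ∧ S.g t x + 1 ≤ S.g (t + N) x
          · have h2 : S.g p x = S.g t x := h1.1 ▸ (S.top_top t x).2
            rw [Γ, I_of h1.1, I_of h1.2, I_of (by omega), I_not (by omega)]; norm_num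
          · have h2 := S.g_mono x (Nat.le_add_right t N)
            refine le_trans (le_of_eq ?_) (sub_nonneg.2 (I_mono fun h => by omega))
            by_cases h3 : S.top t x = p
            · rw [Γ, I_not fun h => h1 ⟨h3, h⟩, mul_zero]
            · rw [I_not h3, zero_mul]
        · rw [I_not hp, mul_zero]
          exact le_of_eq (sum_eq_zero fun t _ => by
            rw [I_not fun h => hp (by rw [← h]; exact (S.top_top t x).1), zero_mul])

/-- the `A₁` type property from the Rubio de Francia algorithm -/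
structure A1 : Prop where
  hF : ∀ q x, S.F q x ≤ 4 * S.f x
  hG : ∀ q x, S.swap.F q x ≤ 4 * S.swap.f x

variable {S}

lemma A1.swap (h : S.A1) : S.swap.A1 := ⟨h.hG, h.hF⟩

lemma kap_le' : 1 / (16 * S.A) ≤ 1 := by
  have := S.hA1
  rw [div_le_one (by linarith)]; linarith

lemma A1.good (h : S.A1) : S.Good S.U (1 / (16 * S.A)) := by
  refine ⟨fun x => (S.hU x).le, fun p m x hpm hp => ?_⟩
  have h1 := mul_le_mul_of_nonneg_left (S.good_σ.2 p m x hpm hp)
    (div_nonneg (S.F_nonneg p x) (by norm_num : (0 : ℝ) ≤ 4))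
  have hA := S.hA1
  rw [← E_cmul _ (S.F p x / 4)] at h1
  refine le_trans (le_of_eq ?_) (h1.trans (E_mono fun y hy => ?_))
  · rw [S.EU]; field_simp; ring
  · have h2 := h.hF p y
    rw [S.F_meas p x y hy] at h2
    rw [← S.σ_f]
    nlinarith [mul_le_mul_of_nonneg_left h2
      (mul_nonneg (S.hσ y).le (I_nonneg (S.g m y = S.g p y)))]

lemma A1.lam (h : S.A1) {n m : ℕ} (hnm : n ≤ m) (k : ℕ) :
    S.Lam n m (k + 1) ≤ (1 - 1 / (16 * S.A)) ^ k * (8 * S.A) := by
  have hρ : 0 ≤ (1 - 1 / (16 * S.A)) ^ k := pow_nonneg (sub_nonneg.2 kap_le') k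
  refine le_trans ?_ (mul_le_mul_of_nonneg_left (S.sparse n) hρ)
  rw [Lam, mul_sum]
  refine sum_le_sum fun p hp => ?_
  rw [← sum_mul_E (S.phi_meas p), mul_sum]
  refine sum_le_sum fun x _ => ?_
  have := mul_le_mul_of_nonneg_left (h.good.decay kap_le' ((mem_range.1 hp).le.trans hnm) k x)
    (mul_nonneg (I_nonneg (S.top p x = p)) (E_pos (P := S.P p) (x := x) S.hV).le)
  simp only [← add_assoc]
  linarith

lemma A1.supG (h : S.A1) (n : ℕ) :
    ∑ x, rmax (fun t x => S.swap.F t x ^ 2 * E (S.P t) S.w x) n x ≤ 32 * S.A := by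
  have hA := S.hA1
  set φ : X → ℝ := fun y => S.swap.f y / S.σ y with hφ
  set R := rmax (fun q => Ew (S.P q) S.σ φ) n with hR
  have g0 := S.swap.f_nonneg
  have hφ0 : ∀ y, 0 ≤ φ y := fun y => div_nonneg (g0 y) (S.hσ y).le
  have h1 : ∀ x, rmax (fun t x => S.swap.F t x ^ 2 * E (S.P t) S.w x) n x ≤
      16 * S.A * (S.swap.f x * R x) := fun x => rmax_le' n fun t ht => by
    have a1 := h.hG t x
    have a2 : S.swap.F t x ≤ 4 * (Ew (S.P t) S.σ φ x * E (S.P t) S.σ x) := by
      rw [Ew_mul S.hσ, ← E_cmul, ← E_const (S.P t) (S.swap.F t x) x]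
      refine E_mono fun y hy => ?_
      have := h.hG t y
      rw [S.swap.F_meas t x y hy] at this
      rwa [hφ, mul_div_cancel₀ _ (S.hσ y).ne']
    have a3 : Ew (S.P t) S.σ φ x ≤ R x :=
      (le_rmax (fun q => Ew (S.P q) S.σ φ) t x).trans (rmax_mono _ x ht)
    have a4 := Ew_nonneg (P := S.P t) S.hσ hφ0 x
    have a5 := (E_pos (P := S.P t) (x := x) S.hw).le
    have a6 := (E_pos (P := S.P t) (x := x) S.hσ).le
    have a7 := S.swap.F_nonneg t x
    calc _ = S.swap.F t x * S.swap.F t x * E (S.P t) S.w x := by ring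
      _ ≤ (4 * S.swap.f x) * (4 * (Ew (S.P t) S.σ φ x * E (S.P t) S.σ x)) * E (S.P t) S.w x := by
          gcongr; exact a7.trans a1
      _ = 16 * (E (S.P t) S.σ x * E (S.P t) S.w x) * (S.swap.f x * Ew (S.P t) S.σ φ x) := by ring
      _ ≤ _ := by
          have := g0 x
          gcongr; exact S.hA t x
  have h2 : ∑ x, S.σ x * φ x ^ 2 ≤ 1 := by
    refine le_trans (sum_le_sum fun x _ => ?_) S.swap.nf
    have h3 := S.hσ x
    have h4 : (S.σ x)⁻¹ ≤ S.w x := by rw [inv_le_iff_one_le_mul₀' h3]; exact S.hσw x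
    calc _ = (S.σ x)⁻¹ * S.swap.f x ^ 2 := by simp only [hφ]; field_simp
      _ ≤ _ := mul_le_mul_of_nonneg_right h4 (sq_nonneg _)
  have h3 := doob S.hP S.hσ φ n
  have h4 : ∑ x, S.swap.f x * R x ≤ 2 := by
    calc _ ≤ ∑ x, (S.σ x * φ x ^ 2 + 1 / 4 * (S.σ x * R x ^ 2)) := sum_le_sum fun x _ => by
          have e : S.swap.f x = S.σ x * φ x := (mul_div_cancel₀ _ (S.hσ x).ne').symm
          rw [e]
          nlinarith [mul_nonneg (S.hσ x).le (sq_nonneg (φ x - R x / 2))]
      _ ≤ _ := by rw [sum_add_distrib, ← mul_sum]; linarith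
  refine (sum_le_sum fun x _ => h1 x).trans ?_
  rw [← mul_sum]
  nlinarith

end Cor

end Pool.Agent.P.MP_70f35d_an
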