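import Pool.Agent.P.MP_70f35d_an.SOld

set_option autoImplicit false
open Finset

namespace Pool.Agent.P.MP_70f35d_an

variable {X : Type} [Fintype X]

namespace Cor

variable (S : Cor X) {η : ℝ} (L : Forms S.P η)

noncomputable def Zm (c l α N t : ℕ) : X → ℝ :=
  E (S.P t) fun y => I (S.nu t l N y ≤ t + c * l ∧ S.nu t α N y < t + N) * S.U y

lemma Zm_nonneg (c l α N t : ℕ) (x : X) : 0 ≤ S.Zm c l α N t x :=
  E_nonneg fun y => mul_nonneg (I_nonneg _) (S.hU y).le

lemma cls_see (h0 : 0 ≤ η) (h1 : η < 1) {c : ℕ} (hc : η ^ c * (4 * S.D) ^ 16 ≤ 1 / 4)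
    {u : X → ℝ} (hu : ∀ x, |u x| ≤ S.U x) (n : ℕ) {l α β N : ℕ} (hl : 1 ≤ l) (hlα : l ≤ α)
    (h : α ≤ β) {G : ℕ → X → ℝ} {Λ : ℝ} (hΛ : S.Lam n (n + N) α ≤ Λ) (hΛ0 : 0 ≤ Λ)
    (hG : ∑ t ∈ range n, ∑ x, S.swap.ω t x * G t x ^ 2 ≤
      256 * ((4 * S.D) ^ l) ^ 16 * (N * S.A)) :
    ∑ t ∈ range n, ∑ x, |L.ℓ t x (S.W u t α β N) (G t)| ≤
      ∑ t ∈ range n, ∑ x, 2 * S.Zm c l α N t x * E (S.P t) (fun y => |G t y|) x +
        64 / (1 - η) * (1 / 2) ^ l * √(Λ * (N * S.A)) := by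
  have hA := S.hA1
  have hD := S.hD1
  have key : ∑ t ∈ range n, ∑ x, |L.ℓ t x (S.W u t α β N) (G t)| ≤
      ∑ t ∈ range n, ∑ x, 2 * S.Zm c l α N t x * E (S.P t) (fun y => |G t y|) x +
      ∑ s ∈ Ico (c * l + 1) (N + 1), ∑ t ∈ range n, ∑ x,
        |L.ℓ t x (fun y => I (S.nu t l N y = t + s) * S.W u t α β N y) (G t)| := by
    rw [sum_comm (s := Ico _ _), ← sum_add_distrib]
    refine sum_le_sum fun t _ => ?_
    rw [sum_comm (s := Ico _ _), ← sum_add_distrib]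
    refine sum_le_sum fun x _ => ?_
    have e : S.W u t α β N = (fun y => I (S.nu t l N y ≤ t + c * l) * S.W u t α β N y) +
        ∑ s ∈ Ico (c * l + 1) (N + 1), fun y => I (S.nu t l N y = t + s) * S.W u t α β N y := by
      funext y
      rw [Pi.add_apply, Finset.sum_apply, ← sum_mul, ← add_mul]
      have h2 := S.nu_le_cap t l N y
      by_cases h3 : S.nu t l N y ≤ t + c * l
      · rw [I_of h3, sum_eq_zero fun s hs => I_not (by have := mem_Ico.1 hs; omega)]; simp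
      · rw [I_not h3, sum_eq_single (S.nu t l N y - t) (fun b _ hb => I_not (by omega))
          (fun h' => (h' (mem_Ico.2 (by omega))).elim), I_of (by omega)]; simp
    nth_rewrite 1 [e]
    rw [map_add, map_sum, LinearMap.add_apply, LinearMap.sum_apply]
    refine (abs_add_le _ _).trans (add_le_add ((L.h0 t x _ _).trans ?_) (abs_sum_le_sum_abs _ _))
    exact mul_le_mul_of_nonneg_right (S.abs_W hu (t := t) (s := N) (q := t) (x := x) h
      (fun y _ => (S.nu_spec t α N y).1) (p := fun y => S.nu t l N y ≤ t + c * l) fun y z hyz => by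
        rw [S.nu_stop t l N y z (S.hP.mono (S.nu_mono hlα t N y) hyz)])
      (E_nonneg fun _ => abs_nonneg _)
  refine key.trans (add_le_add_right ?_ _)
  calc _ ≤ ∑ s ∈ Ico (c * l + 1) (N + 1), η ^ s * (64 * (1 / 2) ^ l * √(Λ * (N * S.A))) := by
        refine sum_le_sum fun s hs => (S.see_one L hu n hl hlα h hG).trans
          (sqrt_le_of (by positivity) ?_)
        have e1 : η ^ s ≤ (η ^ c) ^ l := by
          rw [← pow_mul]; exact pow_le_pow_of_le_one h0 h1.le (by have := mem_Ico.1 hs; omega)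
        have e2 : (1 : ℝ) ≤ (4 * S.D) ^ l := one_le_pow₀ (by linarith)
        have e3 : η ^ s * ((4 * S.D) ^ l) ^ 16 ≤ (1 / 2) ^ l := by
          refine (mul_le_mul_of_nonneg_right e1 (by positivity)).trans ?_
          rw [← pow_mul (4 * S.D), mul_comm l, pow_mul (4 * S.D), ← mul_pow]
          exact pow_le_pow_left₀ (by positivity) (by linarith) l
        have e4 : (η ^ s) ^ 2 * ((4 * S.D) ^ l * ((4 * S.D) ^ l) ^ 16) ≤ ((1 / 2) ^ l) ^ 2 := by
          refine le_trans ?_ (pow_le_pow_left₀ (by positivity) e3 2)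
          rw [mul_pow (η ^ s), ← pow_succ', ← pow_mul _ 16]
          exact mul_le_mul_of_nonneg_left (pow_le_pow_right₀ e2 (by norm_num)) (sq_nonneg _)
        calc _ ≤ (η ^ s) ^ 4 * (16 * (4 * S.D) ^ l * Λ) *
              (256 * ((4 * S.D) ^ l) ^ 16 * (N * S.A)) := by gcongr
          _ = 4096 * (η ^ s) ^ 2 * (Λ * (N * S.A)) *
              ((η ^ s) ^ 2 * ((4 * S.D) ^ l * ((4 * S.D) ^ l) ^ 16)) := by ring
          _ ≤ 4096 * (η ^ s) ^ 2 * (Λ * (N * S.A)) * ((1 / 2) ^ l) ^ 2 := by gcongr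
          _ = _ := by
              rw [mul_pow (η ^ s), mul_pow _ (√_), Real.sq_sqrt (by positivity)]; ring
    _ ≤ 1 / (1 - η) * (64 * (1 / 2) ^ l * √(Λ * (N * S.A))) := by
        rw [← sum_mul]
        exact mul_le_mul_of_nonneg_right ((geo_le h0 h1 _ _).trans (div_le_div_of_nonneg_right
          (pow_le_one₀ h0 h1.le) (sub_pos.2 h1).le)) (by positivity)
    _ = _ := by ring

def off (β N t : ℕ) (y : X) : ℕ := S.g (S.nu t β N y) y - S.g t y

lemma off_eq {β N t : ℕ} {y z : X} (h : S.P (S.nu t β N y) y z) :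
    S.off β N t z = S.off β N t y := by
  simp only [off, S.nu_stop t β N y z h, S.g_meas h,
    S.g_meas (S.hP.mono (S.nu_spec t β N y).1 h)]

lemma off_le (β N t : ℕ) (y : X) : S.off β N t y ≤ β := by
  have := S.g_nu_le t β N y
  simp only [off]; omega

lemma off_le' (β N t : ℕ) (y : X) : S.g t y + S.off β N t y ≤ S.g (t + N) y := by
  have h1 := S.g_mono y (S.nu_le_cap t β N y)
  have h2 := S.g_mono y (S.nu_spec t β N y).1
  simp only [off]; omega

lemma E_off {v : X → ℝ} (hv : ∀ x, |v x| ≤ S.V x) (p : ℕ → Prop) (β N t : ℕ) (x : X) :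
    E (S.P t) (fun y => |I (p (S.off β N t y)) * ES S.P (S.nu t β N) v y|) x ≤
      E (S.P t) (fun y => I (p (S.off β N t y)) * S.V y) x := by
  rw [← (S.nu_stop t β N).E_mul_ES S.hP (fun y _ => (S.nu_spec t β N y).1)
    (fun y z _ hyz => by rw [S.off_eq hyz]) S.V]
  refine E_mono fun y _ => ?_
  rw [abs_mul, abs_of_nonneg (I_nonneg _)]
  exact mul_le_mul_of_nonneg_left ((abs_E_le _ _ _).trans (E_mono fun y _ => hv y)) (I_nonneg _)

lemma ω_sq {t N : ℕ} {x : X} {z K : ℝ} (hz : |z| ≤ K * S.swap.a t x)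
    (hg : S.g t x + 1 ≤ S.g (t + N) x) :
    S.swap.ω t x * z ^ 2 ≤ K ^ 2 * (S.a t x * S.swap.a t x * S.Γ 1 N t x) := by
  have h3 := sq_le_sq' (abs_le.1 hz).1 (abs_le.1 hz).2
  refine (mul_le_mul_of_nonneg_left h3 (S.swap.ω_pos t x).le).trans (le_of_eq ?_)
  have := (S.swap.a_pos t x).ne'
  rw [Γ, I_of hg]
  change S.a t x / S.swap.a t x * _ = _
  field_simp

lemma L2_mid {v : X → ℝ} (hv : ∀ x, |v x| ≤ S.V x) {p : ℕ → Prop} {l β : ℕ} (N n : ℕ)
    (hp : ∀ o ≤ β, p o → 1 ≤ o ∧ o ≤ 8 * l) : ∑ t ∈ range n, ∑ x, S.swap.ω t x *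
      (I (p (S.off β N t x)) * ES S.P (S.nu t β N) v x) ^ 2 ≤
      256 * ((4 * S.D) ^ l) ^ 16 * (N * S.A) := by
  have hA := S.hA1
  have hD := S.hD1
  have h1 := mul_le_mul_of_nonneg_left (S.aa_sum N n) (sq_nonneg (4 * (4 * S.D) ^ (8 * l)))
  refine le_trans ?_ (h1.trans ?_)
  · simp only [mul_sum]
    refine sum_le_sum fun t _ => sum_le_sum fun x _ => ?_
    by_cases h : p (S.off β N t x)
    · obtain ⟨h2, h3⟩ := hp _ (S.off_le β N t x) h
      rw [I_of h, one_mul]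
      refine S.ω_sq (S.swap.abs_E_le_a hv (S.nu_spec t β N x).1 ?_)
        (by have := S.off_le' β N t x; omega)
      change S.g _ x ≤ S.g t x + _
      simp only [off] at h3
      omega
    · rw [I_not h, zero_mul, zero_pow two_ne_zero, mul_zero]
      exact mul_nonneg (sq_nonneg _) (mul_nonneg (mul_pos (S.a_pos t x) (S.swap.a_pos t x)).le
        (I_nonneg _))
  · have : 0 ≤ ((4 * S.D) ^ l) ^ 16 * (N * S.A) := by positivity
    calc _ = 128 * (((4 * S.D) ^ l) ^ 16 * (N * S.A)) := by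
          generalize 4 * S.D = z; ring
      _ ≤ _ := by linarith

lemma L2_bot {v : X → ℝ} (hv : ∀ x, |v x| ≤ S.V x) {l β : ℕ} (hl : 1 ≤ l) (hβ : l ≤ β) (N n : ℕ) :
    ∑ t ∈ range n, ∑ x, S.swap.ω t x *
      (I (S.off β N t x < l) * ES S.P (S.nu t β N) v x - E (S.P t) v x) ^ 2 ≤
      256 * ((4 * S.D) ^ l) ^ 16 * (N * S.A) := by
  have hA := S.hA1
  have hD := S.hD1
  have h1 := mul_le_mul_of_nonneg_left (S.aa_sum N n) (sq_nonneg (4 : ℝ))
  have h2 := S.swap.lemQ hv n l N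
  refine le_trans ?_ ((add_le_add h1 h2).trans ?_)
  · simp only [mul_sum, ← sum_add_distrib]
    refine sum_le_sum fun t _ => sum_le_sum fun x _ => ?_
    by_cases h : S.off β N t x < l
    · have h3 := (S.nu_spec t β N x).2
      have h4 := (S.nu_spec t l N x).2
      have h5 := S.nu_mono hβ t N x
      have h6 := S.g_mono x h5
      have h7 := S.nu_le_cap t β N x
      have e : S.nu t β N x = S.nu t l N x := by simp only [off] at h; omega
      rw [I_of h, one_mul, ES, e]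
      exact le_add_of_nonneg_left (mul_nonneg (sq_nonneg _) (mul_nonneg
        (mul_pos (S.a_pos t x) (S.swap.a_pos t x)).le (I_nonneg _)))
    · rw [I_not h, zero_mul, zero_sub, neg_sq]
      refine le_add_of_le_of_nonneg (S.ω_sq ?_ (by have := S.off_le' β N t x; omega))
        (mul_nonneg (S.swap.ω_pos t x).le (sq_nonneg _))
      have := S.swap.abs_E_le_a hv (β := 0) (x := x) (le_refl t) le_rfl
      rwa [pow_zero, mul_one] at this
  · change _ + N * (4 * (4 * S.D) ^ l) ^ 2 * (8 * S.A) ≤ _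
    have e2 : (1 : ℝ) ≤ (4 * S.D) ^ l := one_le_pow₀ (by linarith)
    have e3 : ((4 * S.D) ^ l) ^ 2 ≤ ((4 * S.D) ^ l) ^ 16 := pow_le_pow_right₀ e2 (by norm_num)
    have e4 : 1 ≤ ((4 * S.D) ^ l) ^ 16 := one_le_pow₀ e2
    have e5 : 0 ≤ N * S.A := by positivity
    nlinarith [mul_le_mul_of_nonneg_right e3 e5, mul_le_mul_of_nonneg_right e4 e5]

def pc (m j o : ℕ) : Prop := 2 ^ (m + 1) ≤ o ∧ min (Nat.log 2 o) (2 * m + 1) = j

lemma pc_le {m j o : ℕ} (h : pc m j o) : 2 ^ j ≤ o := by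
  have : o ≠ 0 := by have := Nat.two_pow_pos (m + 1); have := h.1; omega
  exact (Nat.pow_le_pow_right two_pos (h.2 ▸ min_le_left _ _)).trans (Nat.pow_log_le_self 2 this)

lemma pc_ge {m j o : ℕ} (ho : o ≤ 4 ^ (m + 2)) (h : pc m j o) : o ≤ 8 * 2 ^ j := by
  rcases le_total (Nat.log 2 o) (2 * m + 1) with h1 | h1
  · have h2 := Nat.lt_pow_succ_log_self one_lt_two o
    rw [← h.2, min_eq_left h1]
    rw [pow_succ] at h2; omega
  · rw [← h.2, min_eq_right h1]
    refine ho.trans (le_of_eq ?_)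
    rw [show 4 = 2 ^ 2 by rfl, ← pow_mul]; ring

lemma pc_sum (m o : ℕ) : I (o < 2 ^ (m + 1)) + ∑ j ∈ Ico (m + 1) (2 * m + 2), I (pc m j o) = 1 := by
  by_cases h : o < 2 ^ (m + 1)
  · rw [I_of h, sum_eq_zero fun j _ => I_not fun h' => absurd h'.1 (not_le.2 h), add_zero]
  · have := Nat.le_log_of_pow_le one_lt_two (not_lt.1 h)
    rw [I_not h, zero_add, sum_eq_single (min (Nat.log 2 o) (2 * m + 1))
      (fun b _ hb => I_not fun h' => hb h'.2.symm) fun h' => (h' (mem_Ico.2 (by omega))).elim]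
    exact I_of ⟨not_lt.1 h, rfl⟩

lemma cls_off {c : ℕ} (hc : 1 ≤ c) (m β : ℕ) : S.Cls c (c * 2 ^ (2 * m + 1)) ((2 ^ (m + 1)) ^ 2)
    (Ico (m + 1) (2 * m + 2)) fun i y => I (pc m i.2 (S.off β (c * 2 ^ (2 * m + 1)) i.1 y)) := by
  have h1 : ∀ o, ∑ j ∈ Ico (m + 1) (2 * m + 2), I (pc m j o) ≤ 1 := fun o => by
    linarith [pc_sum m o, I_nonneg (o < 2 ^ (m + 1))]
  refine ⟨hc, fun j hj => Nat.mul_le_mul_left c (Nat.pow_le_pow_right two_pos
    (by have := mem_Ico.1 hj; omega)), ?_, fun j hj => ?_, fun i x => I_nonneg _,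
    fun t x => h1 (S.off β _ t x), fun t x => ?_⟩
  · refine (sum_le_sum_of_subset_of_nonneg (t := range (2 * m + 2))
      (fun j hj => mem_range.2 (mem_Ico.1 hj).2) fun _ _ _ => by positivity).trans ?_
    rw [geom_sum_eq (by norm_num), ← pow_mul, show (m + 1) * 2 = 2 * m + 2 by ring]; linarith
  · rw [← pow_mul, ← pow_add]
    have := mem_Ico.1 hj
    have := Nat.lt_two_pow_self (n := j)
    exact pow_le_pow_right₀ one_le_two (by omega)
  · set o := S.off β (c * 2 ^ (2 * m + 1)) t x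
    have h2 : (S.g t x : ℝ) + o ≤ S.g (t + c * 2 ^ (2 * m + 1)) x := by
      exact_mod_cast S.off_le' β _ t x
    calc _ ≤ ∑ j ∈ Ico (m + 1) (2 * m + 2), o * I (pc m j o) := sum_le_sum fun j _ => by
          by_cases h : pc m j o
          · exact mul_le_mul_of_nonneg_right (by exact_mod_cast pc_le h) (I_nonneg _)
          · exact (mul_eq_zero_of_right _ (I_not h)).trans_le (mul_eq_zero_of_right _ (I_not h)).ge
      _ ≤ o := by rw [← mul_sum]; exact mul_le_of_le_one_right (Nat.cast_nonneg _) (h1 o)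
      _ ≤ _ := by linarith

end Cor

end Pool.Agent.P.MP_70f35d_an
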