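import Pool.Agent.P.MP_70f35d_an.SBase

set_option autoImplicit false
open Finset

namespace Pool.Agent.P.MP_70f35d_an

variable {X : Type} [Fintype X]

/-! ### combinatorial lemmas -/

lemma sq_le_two {ι : Type} (s : Finset ι) (τ : ι → ℕ) {a : ι → ℝ} (ha : ∀ i ∈ s, 0 ≤ a i) :
    (∑ i ∈ s, a i) ^ 2 ≤ 2 * ∑ i ∈ s, ∑ k ∈ s, I (τ i ≤ τ k) * (a i * a k) := by
  have e : ∑ i ∈ s, ∑ k ∈ s, I (τ k ≤ τ i) * (a i * a k) =
      ∑ i ∈ s, ∑ k ∈ s, I (τ i ≤ τ k) * (a i * a k) := by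
    rw [sum_comm]
    exact sum_congr rfl fun i _ => sum_congr rfl fun k _ => by rw [mul_comm (a k)]
  rw [sq, sum_mul_sum, two_mul]
  nth_rewrite 1 [← e]
  rw [← sum_add_distrib]
  refine sum_le_sum fun i hi => ?_
  rw [← sum_add_distrib]
  refine sum_le_sum fun k hk => ?_
  have h := mul_nonneg (ha i hi) (ha k hk)
  rcases le_total (τ i) (τ k) with h1 | h1
  · rw [I_of h1]; nlinarith [I_nonneg (τ k ≤ τ i)]
  · rw [I_of h1]; nlinarith [I_nonneg (τ i ≤ τ k)]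

lemma sum_I_le {s u : Finset ℕ} {p : ℕ → Prop} {z : ℕ → ℝ} (hz : ∀ t, 0 ≤ z t)
    (h : ∀ t ∈ s, p t → t ∈ u) : ∑ t ∈ s, I (p t) * z t ≤ ∑ t ∈ u, z t := by
  classical
  calc _ = ∑ t ∈ s.filter p, z t := by
        rw [sum_filter]
        refine sum_congr rfl fun t _ => ?_
        split_ifs with h'
        · rw [I_of h', one_mul]
        · rw [I_not h', zero_mul]
    _ ≤ _ := sum_le_sum_of_subset_of_nonneg
        (fun t ht => h t (mem_filter.1 ht).1 (mem_filter.1 ht).2) fun t _ _ => hz t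

lemma sum_I_le_card {s u : Finset ℕ} {p : ℕ → Prop} (h : ∀ t ∈ s, p t → t ∈ u) :
    ∑ t ∈ s, I (p t) ≤ u.card := by
  have := sum_I_le (z := fun _ => (1 : ℝ)) (fun _ => zero_le_one) h
  simpa using this

lemma near_am {T J : Finset ℕ} {q y : ℕ × ℕ → ℝ} {c : ℕ} (hq0 : ∀ i, 0 ≤ q i)
    (hq1 : ∀ t, ∑ j ∈ J, q (t, j) ≤ 1) :
    ∑ i ∈ T ×ˢ J, ∑ k ∈ T ×ˢ J, I (i.1 ≤ k.1 ∧ k.1 < i.1 + c * 2 ^ i.2 ∧ i.2 ≤ k.2) *
      (q i * y i * (q k * y k)) ≤ c * ∑ i ∈ T ×ˢ J, 2 ^ i.2 * (q i * y i ^ 2) := by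
  have key : ∀ (p : ℕ → Prop) (u : Finset ℕ) (p' : ℕ × ℕ → Prop), (∀ k, p' k → p k.1) →
      (∀ t, p t → t ∈ u) → ∑ k ∈ T ×ˢ J, I (p' k) * q k ≤ u.card := by
    intro p u p' h1 h2
    refine le_trans ?_ (sum_I_le_card (s := T) fun t _ => h2 t)
    rw [sum_product]
    refine sum_le_sum fun t _ => ?_
    calc _ ≤ ∑ j ∈ J, I (p t) * q (t, j) := sum_le_sum fun j _ =>
          mul_le_mul_of_nonneg_right (I_mono (h1 (t, j))) (hq0 _)
      _ ≤ _ := by rw [← mul_sum]; exact mul_le_of_le_one_right (I_nonneg _) (hq1 t)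
  have h1 : ∑ i ∈ T ×ˢ J, ∑ k ∈ T ×ˢ J, I (i.1 ≤ k.1 ∧ k.1 < i.1 + c * 2 ^ i.2 ∧ i.2 ≤ k.2) *
      q k * (q i * y i ^ 2) ≤ c * ∑ i ∈ T ×ˢ J, 2 ^ i.2 * (q i * y i ^ 2) := by
    rw [mul_sum]
    refine sum_le_sum fun i _ => ?_
    rw [← sum_mul, ← mul_assoc (c : ℝ)]
    refine mul_le_mul_of_nonneg_right ((key (fun t => i.1 ≤ t ∧ t < i.1 + c * 2 ^ i.2)
      (Ico i.1 (i.1 + c * 2 ^ i.2)) (fun k => i.1 ≤ k.1 ∧ k.1 < i.1 + c * 2 ^ i.2 ∧ i.2 ≤ k.2)
      (fun k h => ⟨h.1, h.2.1⟩)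
      fun t ht => mem_Ico.2 ht).trans (le_of_eq ?_)) (mul_nonneg (hq0 i) (sq_nonneg _))
    simp
  have h2 : ∑ i ∈ T ×ˢ J, ∑ k ∈ T ×ˢ J, I (i.1 ≤ k.1 ∧ k.1 < i.1 + c * 2 ^ i.2 ∧ i.2 ≤ k.2) *
      q i * (q k * y k ^ 2) ≤ c * ∑ i ∈ T ×ˢ J, 2 ^ i.2 * (q i * y i ^ 2) := by
    rw [mul_sum, sum_comm]
    refine sum_le_sum fun k _ => ?_
    rw [← sum_mul, ← mul_assoc (c : ℝ)]
    refine mul_le_mul_of_nonneg_right ((key (fun t => t ≤ k.1 ∧ k.1 < t + c * 2 ^ k.2)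
      (Ico (k.1 + 1 - c * 2 ^ k.2) (k.1 + 1))
      (fun i => i.1 ≤ k.1 ∧ k.1 < i.1 + c * 2 ^ i.2 ∧ i.2 ≤ k.2) (fun i h => ⟨h.1, h.2.1.trans_le
        (Nat.add_le_add_left (Nat.mul_le_mul_left c (Nat.pow_le_pow_right two_pos h.2.2)) _)⟩)
      fun t ht => mem_Ico.2 (by omega)).trans ?_) (mul_nonneg (hq0 k) (sq_nonneg _))
    rw [Nat.card_Ico]
    exact_mod_cast (by omega : k.1 + 1 - (k.1 + 1 - c * 2 ^ k.2) ≤ c * 2 ^ k.2)
  refine le_trans ?_ ((div_le_div_of_nonneg_right (add_le_add h1 h2) zero_le_two).trans_eq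
    (add_self_div_two _))
  rw [← sum_add_distrib, sum_div]
  refine sum_le_sum fun i _ => ?_
  rw [← sum_add_distrib, sum_div]
  refine sum_le_sum fun k _ => ?_
  nlinarith [mul_nonneg (mul_nonneg (I_nonneg (i.1 ≤ k.1 ∧ k.1 < i.1 + c * 2 ^ i.2 ∧ i.2 ≤ k.2))
    (mul_nonneg (hq0 i) (hq0 k))) (sq_nonneg (y i - y k))]

lemma win_sup {ι : Type} (s : Finset ι) (τ L : ι → ℕ) {a : ι → ℝ} (ha : ∀ i ∈ s, 0 ≤ a i)
    {F : ℕ → ℝ} (hF : Monotone F) (hF0 : 0 ≤ F 0) {n : ℕ} (h : ∀ i ∈ s, τ i + L i ≤ n) :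
    ∑ i ∈ s, (F (τ i + L i) - F (τ i)) * a i ≤
      F n * √(2 * ∑ i ∈ s, ∑ k ∈ s, I (τ i ≤ τ k ∧ τ k < τ i + L i) * (a i * a k)) := by
  set R := √(2 * ∑ i ∈ s, ∑ k ∈ s, I (τ i ≤ τ k ∧ τ k < τ i + L i) * (a i * a k)) with hR
  have hZ : ∀ l, ∑ i ∈ s, I (τ i ≤ l ∧ l < τ i + L i) * a i ≤ R := fun l => by
    refine Real.le_sqrt_of_sq_le ((sq_le_two s τ fun i hi =>
      mul_nonneg (I_nonneg _) (ha i hi)).trans ?_)
    refine mul_le_mul_of_nonneg_left (sum_le_sum fun i hi => sum_le_sum fun k hk => ?_) zero_le_two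
    have h0 := mul_nonneg (ha i hi) (ha k hk)
    by_cases h1 : τ i ≤ τ k ∧ (τ i ≤ l ∧ l < τ i + L i) ∧ (τ k ≤ l ∧ l < τ k + L k)
    · rw [I_of h1.1, I_of h1.2.1, I_of h1.2.2, I_of ⟨h1.1, by omega⟩]; simp
    · refine le_trans (le_of_eq ?_) (mul_nonneg (I_nonneg _) h0)
      by_cases h2 : τ i ≤ τ k
      · by_cases h3 : τ i ≤ l ∧ l < τ i + L i
        · rw [I_not (p := τ k ≤ l ∧ _) fun h4 => h1 ⟨h2, h3, h4⟩]; simp
        · rw [I_not h3]; simp
      · rw [I_not h2, zero_mul]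
  have hd : ∀ l, 0 ≤ F (l + 1) - F l := fun l => sub_nonneg.2 (hF (Nat.le_succ l))
  calc _ ≤ ∑ i ∈ s, ∑ l ∈ range n, (F (l + 1) - F l) * (I (τ i ≤ l ∧ l < τ i + L i) * a i) := by
        refine sum_le_sum fun i hi => ?_
        rw [← sum_Ico_sub F (Nat.le_add_right _ _), sum_mul]
        refine le_trans (le_of_eq (sum_congr rfl fun l hl => ?_)) (sum_le_sum_of_subset_of_nonneg
          (s := Ico (τ i) (τ i + L i)) (fun l hl => mem_range.2 ((mem_Ico.1 hl).2.trans_le (h i hi)))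
          fun l _ _ => mul_nonneg (hd l) (mul_nonneg (I_nonneg _) (ha i hi)))
        rw [I_of (mem_Ico.1 hl), one_mul]
    _ ≤ ∑ l ∈ range n, (F (l + 1) - F l) * R := by
        rw [sum_comm]
        refine sum_le_sum fun l _ => ?_
        rw [← mul_sum]
        exact mul_le_mul_of_nonneg_left (hZ l) (hd l)
    _ ≤ _ := by
        rw [← sum_mul, sum_range_sub]
        exact mul_le_mul_of_nonneg_right (by linarith) (Real.sqrt_nonneg _)

lemma cs_sqrt {σ F R : X → ℝ} (hσ : ∀ x, 0 ≤ σ x) (hR : ∀ x, 0 ≤ R x) {a b : ℝ}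
    (ha : ∑ x, σ x * F x ^ 2 ≤ a) (hb : ∑ x, σ x * R x ≤ b) :
    ∑ x, σ x * (F x * √(R x)) ≤ √(a * b) := by
  refine Real.le_sqrt_of_sq_le ?_
  have h1 := sum_sq_le_sum_mul_sum_of_sq_le_mul (univ : Finset X)
    (r := fun x => σ x * (F x * √(R x))) (f := fun x => σ x * F x ^ 2)
    (g := fun x => σ x * R x) (fun x _ => mul_nonneg (hσ x) (sq_nonneg _))
    (fun x _ => mul_nonneg (hσ x) (hR x))
    (fun x _ => by rw [mul_pow, mul_pow, Real.sq_sqrt (hR x)]; exact le_of_eq (by ring))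
  have h2 : 0 ≤ ∑ x, σ x * F x ^ 2 := sum_nonneg fun x _ => mul_nonneg (hσ x) (sq_nonneg _)
  exact h1.trans (mul_le_mul ha hb (sum_nonneg fun x _ => mul_nonneg (hσ x) (hR x)) (h2.trans ha))

/-- half of the testing theorem, without averaging -/
lemma half {P : ℕ → Setoid X} (hP : Filt P) {Ψ F G : ℕ → X → ℝ} {σ w : X → ℝ} {B a b : ℝ}
    {n : ℕ} (hσ : ∀ x, 0 ≤ σ x) (hw : ∀ x, 0 ≤ w x) (hB : 0 ≤ B)
    (hΨ0 : ∀ r y, 0 ≤ Ψ r y) (hΨm : ∀ y p r, p ≤ r → Ψ r y ≤ Ψ p y)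
    (hF0 : ∀ x, 0 ≤ F 0 x) (hFm : ∀ x, Monotone fun q => F q x)
    (hG : ∀ q, Meas (P q) (G q)) (hG0 : ∀ x, 0 ≤ G 0 x) (hGm : ∀ x, Monotone fun q => G q x)
    (h : ∀ r < n, ∀ x, E (P r) (fun y => σ y * Ψ r y ^ 2) x ≤ B * E (P r) w x)
    (ha : ∑ x, σ x * F n x ^ 2 ≤ a) (hb : ∑ x, w x * G n x ^ 2 ≤ b) :
    ∑ r ∈ range n, ∑ x, (F r x - pre F r x) * G r x * (σ x * Ψ r x) ≤ √(a * (B * b)) := by
  set G2 : ℕ → X → ℝ := fun q x => G q x ^ 2 with hG2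
  have hGq : ∀ q x, 0 ≤ G q x := fun q x => (hG0 x).trans (hGm x (Nat.zero_le q))
  have hG2m : ∀ x, Monotone fun q => G2 q x := fun x a b hab =>
    pow_le_pow_left₀ (hGq a x) (hGm x hab) 2
  have hG2M : ∀ q, Meas (P q) (G2 q) := fun q x y hxy => by simp only [hG2, hG q x y hxy]
  have hd2 : ∀ q x, 0 ≤ G2 q x - pre G2 q x := fun q x =>
    sub_nonneg.2 (pre_le (sq_nonneg _) (hG2m x) q)
  set Y2 : X → ℝ := fun x => ∑ p ∈ range n, (G2 p x - pre G2 p x) * Ψ p x ^ 2 with hY2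
  have hY0 : ∀ x, 0 ≤ Y2 x := fun x => sum_nonneg fun p _ => mul_nonneg (hd2 p x) (sq_nonneg _)
  have hY : ∀ r < n, ∀ x, G r x * Ψ r x ≤ √(Y2 x) := by
    intro r hr x
    refine Real.le_sqrt_of_sq_le ?_
    have e : (G r x * Ψ r x) ^ 2 = ∑ p ∈ range (r + 1), (G2 p x - pre G2 p x) * Ψ r x ^ 2 := by
      rw [← sum_mul, sum_inc, mul_pow]; rfl
    rw [e]
    calc _ ≤ ∑ p ∈ range (r + 1), (G2 p x - pre G2 p x) * Ψ p x ^ 2 := by
          refine sum_le_sum fun p hp => mul_le_mul_of_nonneg_left ?_ (hd2 p x)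
          exact pow_le_pow_left₀ (hΨ0 r x) (hΨm x p r (by have := mem_range.1 hp; omega)) 2
      _ ≤ _ := sum_le_sum_of_subset_of_nonneg (range_subset_range.2 hr)
          fun p _ _ => mul_nonneg (hd2 p x) (sq_nonneg _)
  have hdF : ∀ q x, 0 ≤ F q x - pre F q x := fun q x => sub_nonneg.2 (pre_le (hF0 x) (hFm x) q)
  have e2 : ∑ x, σ x * Y2 x ≤ B * b := by
    have hd : ∀ r, Meas (P r) fun x => G2 r x - pre G2 r x := fun r x y hxy => by
      simp only [hG2M r x y hxy, pre_meas hP hG2M r x y hxy]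
    calc _ = ∑ p ∈ range n, ∑ x, (G2 p x - pre G2 p x) * (σ x * Ψ p x ^ 2) := by
          simp only [hY2, mul_sum]
          rw [sum_comm]
          exact sum_congr rfl fun p _ => sum_congr rfl fun x _ => by ring
      _ ≤ ∑ p ∈ range n, B * ∑ x, (G2 p x - pre G2 p x) * w x := by
          refine sum_le_sum fun p hp => ?_
          rw [← sum_mul_E (hd p), ← sum_mul_E (hd p) w, mul_sum]
          refine sum_le_sum fun x _ => ?_
          have := mul_le_mul_of_nonneg_left (h p (mem_range.1 hp) x) (hd2 p x)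
          linarith
      _ = B * ∑ x, w x * pre G2 n x := by
          rw [← mul_sum, sum_comm]
          congr 1
          refine sum_congr rfl fun x _ => ?_
          rw [← sum_mul, sum_inc, mul_comm]
      _ ≤ _ := mul_le_mul_of_nonneg_left (le_trans (sum_le_sum fun x _ =>
          mul_le_mul_of_nonneg_left (pre_le (sq_nonneg _) (hG2m x) n) (hw x)) hb) hB
  rw [sum_comm]
  refine le_trans (sum_le_sum fun x _ => ?_) (cs_sqrt hσ hY0 ha e2)
  calc _ ≤ ∑ r ∈ range n, (F r x - pre F r x) * (σ x * √(Y2 x)) := by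
        refine sum_le_sum fun r hr => ?_
        have := mul_le_mul_of_nonneg_left (hY r (mem_range.1 hr) x) (mul_nonneg (hdF r x) (hσ x))
        linarith
    _ = pre F n x * (σ x * √(Y2 x)) := by rw [← sum_mul, sum_inc]
    _ ≤ F n x * (σ x * √(Y2 x)) := mul_le_mul_of_nonneg_right (pre_le (hF0 x) (hFm x) n)
        (mul_nonneg (hσ x) (Real.sqrt_nonneg _))
    _ = _ := by ring

namespace Cor

variable (S : Cor X)

noncomputable def dl (N t : ℕ) (y : X) : ℝ := S.Fs (t + N) y - S.Fs t y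

lemma dl_nonneg (N t : ℕ) (y : X) : 0 ≤ S.dl N t y :=
  sub_nonneg.2 (S.Fs_mono y (Nat.le_add_right t N))

lemma win_dl (N n : ℕ) : ∑ t ∈ range n, ∑ x,
    E (S.P t) (fun y => S.σ y * S.dl N t y ^ 2) x ≤ 4 * N := by
  simp only [sum_E]; exact S.win_Fs N n

lemma sq_dl {φ : X → ℝ} (h0 : ∀ y, 0 ≤ φ y) (h1 : ∀ y, φ y ≤ 1) (N t : ℕ) (x : X) :
    E (S.P t) (fun y => φ y * S.σ y * S.dl N t y) x ^ 2 ≤
      E (S.P t) (fun y => S.σ y * S.dl N t y ^ 2) x * E (S.P t) (fun y => φ y * S.σ y) x := by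
  refine (E_cs' _ (fun y => mul_nonneg (h0 y) (S.hσ y).le) _ x).trans ?_
  refine mul_le_mul_of_nonneg_right (E_mono fun y _ => ?_)
    (E_nonneg fun y => mul_nonneg (h0 y) (S.hσ y).le)
  exact mul_le_mul_of_nonneg_right (mul_le_of_le_one_left (S.hσ y).le (h1 y)) (sq_nonneg _)

variable {S} in
theorem A1.bottom (h : S.A1) {c : ℝ} {l N : ℕ} (hl : 1 ≤ l) (hN : (N : ℝ) ≤ c * l) (n : ℕ) :
    ∑ t ∈ range n, ∑ x, E (S.P t) (fun y => S.Γ l N t y * S.U y) x * E (S.P t) S.V x ≤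
      110 * (c * S.A * l) := by
  have hA := S.hA1
  have hc := c_nonneg hl hN
  set α : ℕ → X → ℝ := fun t x => E (S.P t) (fun y => S.Γ l N t y * S.σ y) x * E (S.P t) S.w x
    with hα
  have hα0 : ∀ t x, 0 ≤ α t x := fun t x => mul_nonneg (S.EΓ_nonneg l N t x) (E_pos S.hw).le
  have hC : ∀ r < n, ∀ x, E (S.P r) (fun y => ∑ t ∈ Ico r n, α t y) x ≤
      16 * c * S.A * l * E (S.P r) (fun _ => 1) x := fun r _ x => by
    rw [E_const, mul_one]; exact S.bellman hl hN r n x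
  have t1 := carleson_mono S.hP (G := fun t x => S.Fs t x * S.swap.Fs t x)
    (fun q x y hxy => by simp only [S.Fs_meas q x y hxy, S.swap.Fs_meas q x y hxy])
    (fun x => mul_nonneg (S.Fs_nonneg 0 x) (S.swap.Fs_nonneg 0 x))
    (fun x a b hab => mul_le_mul (S.Fs_mono x hab) (S.swap.Fs_mono x hab) (S.swap.Fs_nonneg a x)
      (S.Fs_nonneg b x)) (by positivity) (fun _ => zero_le_one) hC
  have t2 := carleson_mono S.hP (G := rmax fun t x => S.swap.F t x ^ 2 * E (S.P t) S.w x)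
    (rmax_meas S.hP fun q x y hxy => by simp only [S.swap.F_meas q x y hxy, E_meas _ _ x y hxy])
    (fun x => mul_nonneg (sq_nonneg _) (E_pos S.hw).le) (rmax_mono _) (by positivity)
    (fun _ => zero_le_one) hC
  simp only [one_mul] at t1 t2
  have t1' := t1.trans (mul_le_mul_of_nonneg_left (S.sum_FsGs n) (by positivity))
  have t2' := t2.trans (mul_le_mul_of_nonneg_left (h.supG n) (by positivity))
  have t3 := cs_sum (range n) (K := 1)
    (z := fun t x => E (S.P t) (fun y => S.Γ l N t y * S.σ y * S.dl N t y) x * E (S.P t) S.V x)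
    (p := fun t x => E (S.P t) (fun y => S.σ y * S.dl N t y ^ 2) x)
    (q := fun t x => α t x * (S.swap.F t x ^ 2 * E (S.P t) S.w x)) zero_le_one
    (fun t _ x => E_nonneg fun y => mul_nonneg (S.hσ y).le (sq_nonneg _))
    (fun t _ x => mul_nonneg (hα0 t x) (mul_nonneg (sq_nonneg _) (E_pos S.hw).le))
    (fun t _ x => by
      have e : E (S.P t) S.V x = S.swap.F t x * E (S.P t) S.w x := S.swap.EU t x
      have := mul_le_mul_of_nonneg_right (S.sq_dl (S.Γ_nonneg l N t) (S.Γ_le_one l N t) N t x)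
        (sq_nonneg (E (S.P t) S.V x))
      rw [mul_pow]
      refine this.trans (le_of_eq ?_)
      rw [e]; simp only [hα]; ring)
    (S.win_dl N n) (le_trans (sum_le_sum fun t _ => sum_le_sum fun x _ =>
      mul_le_mul_of_nonneg_left (le_rmax (fun t x => S.swap.F t x ^ 2 * E (S.P t) S.w x) t x)
        (hα0 t x)) t2')
  have t4 : √(1 * (4 * N) * (16 * c * S.A * l * (32 * S.A))) ≤ 46 * (c * S.A * l) := by
    refine sqrt_le_of (by positivity) ?_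
    nlinarith [mul_le_mul_of_nonneg_right hN (by positivity : 0 ≤ c * S.A * l * S.A),
      sq_nonneg (c * S.A * l)]
  calc _ ≤ ∑ t ∈ range n, ∑ x, α t x * (S.Fs t x * S.swap.Fs t x) + ∑ t ∈ range n, ∑ x,
        |E (S.P t) (fun y => S.Γ l N t y * S.σ y * S.dl N t y) x * E (S.P t) S.V x| := by
        simp only [← sum_add_distrib]
        refine sum_le_sum fun t _ => sum_le_sum fun x _ => ?_
        have a1 := mul_le_mul_of_nonneg_right (S.splitS (S.Γ_meas l N t) (S.Γ_nonneg l N t) x)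
          (E_pos (P := S.P t) (x := x) S.hV).le
        refine a1.trans ?_
        rw [add_mul]
        refine add_le_add ?_ (le_abs_self _)
        have e : E (S.P t) S.V x = S.swap.F t x * E (S.P t) S.w x := S.swap.EU t x
        have := mul_le_mul_of_nonneg_left (S.swap.F_le_Fs t x)
          (mul_nonneg (hα0 t x) (S.Fs_nonneg t x))
        rw [e]; simp only [hα] at this ⊢; linarith
    _ ≤ _ := by linarith

theorem delta {c : ℝ} {k N : ℕ} (hN : (N : ℝ) ≤ c * (k + 1 : ℕ)) (n : ℕ) :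
    ∑ t ∈ range n, ∑ x, E (S.P t) (fun y => S.Γ (k + 1) N t y * S.U y) x *
      E (S.P t) (fun y => S.w y * S.swap.dl N t y) x ≤
        √((1 - 1 / (4 * S.A)) ^ k * S.A * (4 * (N + 4 * S.A * c)) * (4 * N)) := by
  have hA := S.hA1
  have hρ : 0 ≤ (1 - 1 / (4 * S.A)) ^ k := pow_nonneg (sub_nonneg.2 S.kap_le) k
  have t1 := cs_sum (range n) (K := (1 - 1 / (4 * S.A)) ^ k * S.A)
    (z := fun t x => E (S.P t) (fun y => S.Γ (k + 1) N t y * S.U y) x *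
      E (S.P t) (fun y => S.w y * S.swap.dl N t y) x)
    (p := fun t x => E (S.P t) (fun y => S.Γ (k + 1) N t y * S.σ y * S.F (t + N) y ^ 2) x)
    (q := fun t x => E (S.P t) (fun y => S.w y * S.swap.dl N t y ^ 2) x)
    (a := 4 * (N + 4 * S.A * c)) (b := 4 * N) (by positivity)
    (fun t _ x => E_nonneg fun y => mul_nonneg (mul_nonneg (I_nonneg _) (S.hσ y).le) (sq_nonneg _))
    (fun t _ x => E_nonneg fun y => mul_nonneg (S.hw y).le (sq_nonneg _))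
    (fun t _ x => mul4 (S.sq_any _ N t x) (E_cs' _ (fun y => (S.hw y).le) _ x) (by
        have h1 := S.good_σ.decay S.kap_le (Nat.le_add_right t N) k x
        refine (mul_le_mul_of_nonneg_right h1 (E_pos S.hw).le).trans ?_
        rw [mul_assoc]
        exact mul_le_mul_of_nonneg_left (S.hA t x) hρ)
      (E_nonneg fun y => mul_nonneg (mul_nonneg (I_nonneg _) (S.hσ y).le) (sq_nonneg _))
      (E_nonneg fun y => mul_nonneg (S.hw y).le (sq_nonneg _)))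
    (by simp only [sum_E]
        exact S.carl_shift S.hσ S.good_σ S.f_nonneg S.nf (Nat.le_add_left 1 k) hN n)
    (S.swap.win_dl N n)
  exact (sum_le_sum fun t _ => sum_le_sum fun x _ => le_abs_self _).trans t1

end Cor

end Pool.Agent.P.MP_70f35d_an
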