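import Pool.Agent.P.MP_70f35d_an.Final

set_option autoImplicit false
open MeasureTheory Set Filter Topology

namespace Pool.Agent.P.MP_70f35d_an

variable {d : ℕ}

/-- The estimate for lattice step functions and lattice weights. -/
def LatticeStmtS (d : ℕ) : Prop :=
  ∃ C : ℝ, 0 < C ∧
    ∀ (k : Eu d → ℝ) (M : ℝ), Measurable k → (∀ y, |k y| ≤ M) → (∀ y, k y ≠ 0 → ‖y‖ ≤ 2) →
    (∫ y, k y) = 0 →
    ∀ (σ w : (Fin d → ℤ) → ℝ) (A : ℝ), (∀ a, 0 < σ a) → (∀ a, 0 < w a) → (∀ a, 1 ≤ σ a * w a) →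
    (∀ (o : Fin d → ℤ) (m : ℕ),
      (∑ a : Fin d → Fin (2 ^ m), σ fun i => o i + (a i : ℕ)) *
        (∑ a : Fin d → Fin (2 ^ m), w fun i => o i + (a i : ℕ)) ≤ A * (((2 : ℝ) ^ m) ^ d) ^ 2) →
    ∀ (j0 j1 : ℕ) (s : Finset (Fin d → ℤ)) (u v : (Fin d → ℤ) → ℝ),
      (∀ a, u a ≠ 0 → a ∈ s) → (∀ a, v a ≠ 0 → a ∈ s) →
      |∫ x, (∫ y, Ksum k j0 j1 y * stp u (x - y)) * stp v x| ≤
        C * M * A ^ (3 / 2 : ℝ) *
          √(∑ a ∈ s, u a ^ 2 / σ a) * √(∑ a ∈ s, v a ^ 2 / w a)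

/-- The final statement. -/
def FinalStmtS (d : ℕ) : Prop :=
  ∃ C : ℝ, 0 < C ∧
      ∀ (Ω : EuclideanSpace ℝ (Fin d) → ℝ) (M : ℝ),
        Measurable Ω →
        (∀ x, |Ω x| ≤ M) →
        (∀ x, ∀ t : ℝ, 0 < t → Ω (t • x) = Ω x) →
        (∫ y in {y : EuclideanSpace ℝ (Fin d) | 1 ≤ ‖y‖ ∧ ‖y‖ ≤ 2}, Ω y) = 0 →
        ∀ (w : EuclideanSpace ℝ (Fin d) → ℝ) (A : ℝ),
          (∀ x, 0 < w x) →
          (∀ (x : EuclideanSpace ℝ (Fin d)) (r : ℝ), 0 < r →
            IntegrableOn w (Metric.ball x r) ∧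
            IntegrableOn (fun y => (w y)⁻¹) (Metric.ball x r) ∧
            (∫ y in Metric.ball x r, w y) * (∫ y in Metric.ball x r, (w y)⁻¹)
              ≤ A * (volume (Metric.ball x r)).toReal ^ 2) →
          ∀ (f : EuclideanSpace ℝ (Fin d) → ℝ),
            ContDiff ℝ (⊤ : ℕ∞) f → HasCompactSupport f →
            ∀ (T : EuclideanSpace ℝ (Fin d) → ℝ),
              (∀ x, Filter.Tendsto
                (fun ε : ℝ => ∫ y in {y : EuclideanSpace ℝ (Fin d) | ε < ‖y‖},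
                  f (x - y) * Ω y / ‖y‖ ^ d)
                (nhdsWithin 0 (Set.Ioi 0)) (nhds (T x))) →
              ∫⁻ x, ENNReal.ofReal ((T x) ^ 2 * w x)
                ≤ ENNReal.ofReal ((C * M * A ^ (3 / 2 : ℝ)) ^ 2) *
                  ∫⁻ x, ENNReal.ofReal ((f x) ^ 2 * w x)

noncomputable def GS (A : ℝ) : ℝ := A ^ (3 / 2 : ℝ)

lemma one_le_GGS {A : ℝ} (h : 1 ≤ A) : 1 ≤ GS A := Real.one_le_rpow h (by norm_num)

lemma GG_mulS {c A : ℝ} (hc : 1 ≤ c) (h : 1 ≤ A) : GS (c * A) ≤ GS c * GS A :=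
  (Real.mul_rpow (by linarith) (by linarith)).le

theorem disc_of_latticeS (h : LatticeStmtS d) : ∃ C : ℝ, 0 < C ∧
    ∀ (Ω : Eu d → ℝ) (M : ℝ), Measurable Ω → (∀ x, |Ω x| ≤ M) →
      (∀ x, ∀ t : ℝ, 0 < t → Ω (t • x) = Ω x) →
      (∫ y in {y : Eu d | 1 ≤ ‖y‖ ∧ ‖y‖ ≤ 2}, Ω y) = 0 →
      ∀ (w : Eu d → ℝ) (A : ℝ), (∀ x, 0 < w x) → Wt w A → ∀ δ : ℝ, 0 < δ → ∀ j0 j1 : ℕ, j0 ≤ j1 →
        Disc (KK Ω (δ * (2 ^ j0 / 2)) (δ * (2 ^ j1 / 2))) w δ (C * M * GS A) := by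
  obtain ⟨C, hC, h⟩ := h
  have g0 := one_le_GGS (one_le_cc d)
  refine ⟨C * GS (cc d), by positivity, fun Ω M hm hM hΩ h0 w A hw hA δ hδ j0 j1 hj s u B hu hB => ?_⟩
  have m0 : 0 ≤ M := (abs_nonneg _).trans (hM 0)
  have a1 := hA.one_le hw
  have dd : 0 < δ ^ d := by positivity
  have hK : Integrable (KK Ω (δ * (2 ^ j0 / 2)) (δ * (2 ^ j1 / 2))) :=
    KK_int hm hM (by positivity) (by gcongr; exact one_le_two)
  have hg := conv_cube (KK_meas hm _ _) hK (step_meas δ u) (fun _ => hB _) hδ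
  obtain ⟨g, hg'⟩ : ∃ g : Eu d → ℝ,
    g = fun z => ∫ y, KK Ω (δ * (2 ^ j0 / 2)) (δ * (2 ^ j1 / 2)) y * u (fl δ (z - y)) := ⟨_, rfl⟩
  let W : (Fin d → ℤ) → ℝ := fun a => (δ ^ d)⁻¹ * ∫ z in cube δ a, w z
  let σ : (Fin d → ℤ) → ℝ := fun a => (δ ^ d)⁻¹ * ∫ z in cube δ a, (w z)⁻¹
  let γ : (Fin d → ℤ) → ℝ := fun a => (δ ^ d)⁻¹ * ∫ z in cube δ a, g z
  let v : (Fin d → ℤ) → ℝ := fun a => if a ∈ s then γ a * W a else 0
  have hv : ∀ a, v a ≠ 0 → a ∈ s := fun a ha => by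
    by_contra h1
    exact ha (if_neg h1)
  have w0 : ∀ a, 0 ≤ W a := fun a => mul_nonneg (by positivity) (integral_nonneg fun z => (hw z).le)
  have s0 : ∀ a, 0 ≤ σ a := fun a =>
    mul_nonneg (by positivity) (integral_nonneg fun z => (inv_pos.2 (hw z)).le)
  have sw : ∀ a, 1 ≤ σ a * W a := fun a => by
    have h1 := cs_weight (by rw [vol_cube hδ]; exact ENNReal.ofReal_ne_top) hw (hA.cube hδ a).1
      (hA.cube hδ a).2
    rw [real_cube hδ] at h1
    have h2 := mul_le_mul_of_nonneg_left h1 (sq_nonneg (δ ^ d)⁻¹)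
    rw [← mul_pow, inv_mul_cancel₀ dd.ne', one_pow] at h2
    exact h2.trans_eq (by simp only [σ, W]; ring)
  have w1 : ∀ a, 0 < W a := fun a => (w0 a).lt_of_ne fun e => by
    have := sw a
    rw [← e, mul_zero] at this
    linarith
  have s1 : ∀ a, 0 < σ a := fun a => (s0 a).lt_of_ne fun e => by
    have := sw a
    rw [← e, zero_mul] at this
    linarith
  have key := h (kk Ω) M (hm.indicator (meas_ann d))
    (fun y => by
      rw [kk, indicator]
      split_ifs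
      exacts [hM y, by simpa using m0])
    (fun y hy => (mem_of_indicator_ne_zero hy).2) (by rw [kk, integral_indicator (meas_ann d), h0])
    σ W (cc d * A) s1 w1 sw (fun o m => by
      have r0 : (0 : ℝ) < (d + 1) * (δ * (2 ^ m : ℕ)) := by positivity
      obtain ⟨b1, b2, b3⟩ := hA (pt δ o) _ r0
      have b4 := sum_cube_le hδ (fun z => (hw z).le) o (Nat.two_pow_pos m) b1
      have b5 := sum_cube_le hδ (fun z => (inv_pos.2 (hw z)).le) o (Nat.two_pow_pos m) b2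
      rw [Measure.addHaar_ball_of_pos _ _ r0, finrank_euclideanSpace_fin, ENNReal.toReal_mul,
        ENNReal.toReal_ofReal (by positivity), mul_comm] at b3
      have b6 := (mul_le_mul b5 b4 (Finset.sum_nonneg fun _ _ => integral_nonneg fun z => (hw z).le)
        (integral_nonneg fun z => (inv_pos.2 (hw z)).le)).trans b3
      have b7 := mul_le_mul_of_nonneg_left b6 (sq_nonneg (δ ^ d)⁻¹)
      simp only [σ, W, ← Finset.mul_sum]
      refine le_trans (le_of_eq (by ring)) (b7.trans ?_)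
      have b8 : (δ ^ d)⁻¹ ^ 2 * (A * ((((d : ℝ) + 1) * (δ * (2 ^ m : ℕ))) ^ d * om d) ^ 2) =
          ((d + 1) ^ d * om d) ^ 2 * A * ((2 ^ m) ^ d) ^ 2 := by
        push_cast
        simp only [mul_pow]
        field_simp
      refine b8.trans_le ?_
      gcongr
      exact le_add_of_nonneg_right zero_le_one) j0 j1 s u v hu hv
  have e1 := conv_scale hδ _ (Ksum (kk Ω) j0 j1)
    (fun y => (KK_smul hΩ hδ _ _ y).trans (Ksum_kk hΩ hj y).symm) u v
  rw [(step_int hg hv).2, ← hg'] at e1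
  have e2 : ∑ a ∈ s, v a * ∫ z in cube δ a, g z = δ ^ d * ∑ a ∈ s, γ a ^ 2 * W a := by
    rw [Finset.mul_sum]
    refine Finset.sum_congr rfl fun a ha => ?_
    simp only [v, if_pos ha, γ]
    field_simp
  have e3 : ∑ a ∈ s, v a ^ 2 / W a = ∑ a ∈ s, γ a ^ 2 * W a :=
    Finset.sum_congr rfl fun a ha => by
      have := w1 a
      simp only [v, if_pos ha]
      field_simp
  have e4 : ∑ a ∈ s, u a ^ 2 / σ a ≤ ∑ a ∈ s, u a ^ 2 * W a :=
    Finset.sum_le_sum fun a _ => by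
      rw [div_le_iff₀ (s1 a), mul_assoc, mul_comm (W a)]
      exact le_mul_of_one_le_right (sq_nonneg _) (sw a)
  rw [← mul_left_cancel₀ dd.ne' (e2.symm.trans e1), e3] at key
  have x0 : 0 ≤ ∑ a ∈ s, γ a ^ 2 * W a := Finset.sum_nonneg fun a _ => mul_nonneg (sq_nonneg _) (w0 a)
  have y0 : 0 ≤ ∑ a ∈ s, u a ^ 2 * W a := Finset.sum_nonneg fun a _ => mul_nonneg (sq_nonneg _) (w0 a)
  have e5 : ∑ a ∈ s, γ a ^ 2 * W a ≤ C * GS (cc d) * M * GS A * √(∑ a ∈ s, u a ^ 2 * W a) *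
      √(∑ a ∈ s, γ a ^ 2 * W a) := by
    refine (le_abs_self _).trans (key.trans ?_)
    have g1 := mul_le_mul_of_nonneg_left (GG_mulS (one_le_cc d) a1) (mul_nonneg hC.le m0)
    have g2 := one_le_GGS a1
    exact mul_le_mul_of_nonneg_right (mul_le_mul (g1.trans_eq (by ring)) (Real.sqrt_le_sqrt e4)
      (Real.sqrt_nonneg _) (by positivity)) (Real.sqrt_nonneg _)
  have e6 : ∑ a ∈ s, γ a ^ 2 * W a ≤ (C * GS (cc d) * M * GS A) ^ 2 * ∑ a ∈ s, u a ^ 2 * W a := by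
    have q1 := Real.sq_sqrt x0
    have q2 := Real.sq_sqrt y0
    rw [← q2, ← mul_pow]
    nlinarith [sq_nonneg (C * GS (cc d) * M * GS A * √(∑ a ∈ s, u a ^ 2 * W a) -
      √(∑ a ∈ s, γ a ^ 2 * W a))]
  have e7 : ∀ t : (Fin d → ℤ) → ℝ,
      ∑ a ∈ s, t a * ∫ z in cube δ a, w z = δ ^ d * ∑ a ∈ s, t a * W a := fun t => by
    rw [Finset.mul_sum]
    refine Finset.sum_congr rfl fun a _ => ?_
    simp only [W]
    field_simp
  rw [e7, e7, mul_left_comm]
  subst hg'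
  exact mul_le_mul_of_nonneg_left e6 dd.le

theorem final_of_latticeS (d : ℕ) (_hd : 1 ≤ d) (h : LatticeStmtS d) : FinalStmtS d := by
  obtain ⟨C, hC, h⟩ := disc_of_latticeS h
  have z0 := ZZ_pos d
  have o0 := om_pos d
  refine ⟨2 * C / ZZ d 0 + 2 * (4 ^ d * om d), by positivity,
    fun Ω M hm hM hΩ h0 w A hw hA f hf hc T hT => ?_⟩
  replace h := h Ω M hm hM hΩ h0 w A hw hA
  have m0 : 0 ≤ M := (abs_nonneg _).trans (hM 0)
  have g1 := one_le_GGS (Wt.one_le hA hw)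
  obtain ⟨Lp, hL⟩ := ContDiff.lipschitzWith_of_hasCompactSupport hc hf (by simp)
  obtain ⟨B, hB⟩ := hc.exists_bound_of_continuous hf.continuous
  obtain ⟨R, hR, hs⟩ := hc.isCompact.isBounded.exists_pos_norm_le
  replace hs : ∀ x, f x ≠ 0 → ‖x‖ ≤ R := fun x hx => hs x (subset_tsupport f hx)
  have fm := hf.continuous.measurable
  have wm := Wt.meas hA
  have i1 : Integrable fun x => f x ^ 2 * w x :=
    (int_supp hA (r := R + 1) (by positivity) (B ^ 2)).mono'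
      (((fm.pow_const 2).aemeasurable.mul wm).aestronglyMeasurable)
      (Eventually.of_forall fun x => by
        have w0 := hw x
        by_cases a1 : x ∈ Metric.ball (0 : Eu d) (R + 1)
        · rw [indicator_of_mem a1, Real.norm_of_nonneg (by positivity), ← sq_abs, mul_comm]
          have : |f x| ≤ B := hB x
          gcongr
        · have a2 : f x = 0 := by
            by_contra a2
            exact a1 (mem_ball_zero_iff.2 (by linarith [hs x a2]))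
          simp [indicator_of_notMem a1, a2])
  have p1 : ∀ x, 0 ≤ f x ^ 2 * w x := fun x => mul_nonneg (sq_nonneg _) (hw x).le
  have i2 := ofReal_integral_eq_lintegral_ofReal i1 (Eventually.of_forall p1)
  have i3 : 0 ≤ ∫ x, f x ^ 2 * w x := integral_nonneg p1
  let ρ : ℕ → ℝ := fun N => (2 ^ N)⁻¹ / 2
  have r0 : ∀ N, 0 < ρ N := fun N => by positivity
  have r1 : ∀ N, ρ N ≤ 2 ^ N / 2 := fun N => by
    have : (1 : ℝ) ≤ 2 ^ N := one_le_pow₀ one_le_two
    have := inv_le_one_of_one_le₀ this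
    simp only [ρ]
    linarith
  have t0 : Tendsto (fun N : ℕ => ((2 : ℝ) ^ N)⁻¹) atTop (𝓝 0) :=
    (tendsto_pow_atTop_atTop_of_one_lt one_lt_two).inv_tendsto_atTop
  have t1 : Tendsto (fun N => 4 * ρ N) atTop (𝓝 0) := by simpa using (t0.div_const 2).const_mul 4
  have key : ∀ N, ∫⁻ x, ENNReal.ofReal ((∫ y, KK Ω (ρ N) (2 ^ N / 2) y * f (x - y)) ^ 2 * w x) ≤
      ENNReal.ofReal ((C * M * GS A) ^ 2 * ∫ x, f x ^ 2 * w x) := fun N =>
    conv_bound (KK_meas hm _ _) (KK_int hm hM (r0 N) (r1 N)) hw hA hL hB hR hs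
      (fun n => (2 ^ (n + N))⁻¹) (fun n => by positivity)
      (fun n => inv_le_one_of_one_le₀ (one_le_pow₀ one_le_two))
      (t0.comp (tendsto_add_atTop_nat N)) fun n => by
        have := h (2 ^ (n + N))⁻¹ (by positivity) n (n + N + N) (by omega)
        convert this using 2
        · simp only [ρ, pow_add]
          field_simp
        · simp only [pow_add]
          field_simp
  rw [← i2, ← ENNReal.ofReal_mul (sq_nonneg _)]
  refine fatou_le
    (L := fun N x => ((∫ y in {y : Eu d | 4 * ρ N < ‖y‖}, f (x - y) * Ω y / ‖y‖ ^ d) ^ 2 -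
      3 * (M * 4 ^ d * om d * (Lp * (4 * ρ N))) ^ 2) * w x)
    (H := fun N x => 3 / ZZ d 0 ^ 2 * ((∫ y, KK Ω (ρ N) (2 ^ N / 2) y * f (x - y)) ^ 2 * w x) +
      3 * (M * 4 ^ d * om d) ^ 2 * (f x ^ 2 * w x))
    (fun N => ?_) (fun x => ?_) (fun x => ?_) tendsto_const_nhds fun N => ?_
  · exact ((((conv_meas (KK_meas hm _ _) fm).pow_const 2).aemeasurable.mul wm).const_mul _).add
      (i1.aemeasurable.const_mul _)
  · have t2 := (hT x).comp (tendsto_nhdsWithin_iff.2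
      ⟨t1, Eventually.of_forall fun N => mul_pos four_pos (r0 N)⟩)
    simpa using ((t2.pow 2).sub ((((t1.const_mul (Lp : ℝ)).const_mul
      (M * 4 ^ d * om d)).pow 2).const_mul 3)).mul_const (w x)
  · refine ((((tendsto_pow_atTop_atTop_of_one_lt one_lt_two).atTop_div_const
      two_pos).eventually_ge_atTop (‖x‖ + R)).mono fun N hN => ?_)
    exact (mul_le_mul_of_nonneg_right (trunc_le hm hM hL hB hs (r0 N) (r1 N) hN)
      (hw x).le).trans_eq (by ring)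
  · have q1 : (0 : ℝ) ≤ 3 / ZZ d 0 ^ 2 := by positivity
    have q2 : (0 : ℝ) ≤ 3 * (M * 4 ^ d * om d) ^ 2 := by positivity
    have q3 : ∀ x, 0 ≤ (∫ y, KK Ω (ρ N) (2 ^ N / 2) y * f (x - y)) ^ 2 * w x :=
      fun x => mul_nonneg (sq_nonneg _) (hw x).le
    simp only [fun x => ENNReal.ofReal_add (mul_nonneg q1 (q3 x)) (mul_nonneg q2 (p1 x)),
      ENNReal.ofReal_mul q1, ENNReal.ofReal_mul q2]
    rw [lintegral_add_right' _ (i1.aemeasurable.ennreal_ofReal.const_mul _),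
      lintegral_const_mul' _ _ ENNReal.ofReal_ne_top, lintegral_const_mul' _ _ ENNReal.ofReal_ne_top,
      ← i2]
    refine (add_le_add (mul_le_mul_right (key N) _) le_rfl).trans ?_
    rw [← ENNReal.ofReal_mul q1, ← ENNReal.ofReal_mul q2,
      ← ENNReal.ofReal_add (by positivity) (by positivity), ← mul_assoc, ← add_mul]
    refine ENNReal.ofReal_le_ofReal (mul_le_mul_of_nonneg_right ?_ i3)
    change _ ≤ (_ * M * GS A) ^ 2
    have q4 : 3 / ZZ d 0 ^ 2 * (C * M * GS A) ^ 2 = 3 * (C / ZZ d 0 * M * GS A) ^ 2 := by field_simp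
    have q5 : M * 4 ^ d * om d ≤ 4 ^ d * om d * M * GS A :=
      le_of_eq_of_le (by ring) (le_mul_of_one_le_right (by positivity) g1)
    have q6 := pow_le_pow_left₀ (by positivity) q5 2
    have q7 : (2 * C / ZZ d 0 + 2 * (4 ^ d * om d)) * M * GS A =
        2 * (C / ZZ d 0 * M * GS A) + 2 * (4 ^ d * om d * M * GS A) := by ring
    have q8 : 0 ≤ C / ZZ d 0 * M * GS A := by positivity
    have q9 : 0 ≤ 4 ^ d * om d * M * GS A := by positivity
    rw [q4, q7]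
    nlinarith [mul_nonneg q8 q9]

end Pool.Agent.P.MP_70f35d_an
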