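import Pool.Agent.P.MP_70f35d_an.SBlock

set_option autoImplicit false
open Finset

namespace Pool.Agent.P.MP_70f35d_an

variable {X : Type} [Fintype X]

lemma blk_term {A : ℝ} (hA : 1 ≤ A) (m : ℕ) :
    (1 - 1 / (16 * A)) ^ (2 ^ (2 * m + 1) - 1) * (A * 2 ^ (m + 1) + √A * (2 ^ (m + 1)) ^ 2) ≤
      50000 * (√A * A) * (2 ^ (m + 1 + 1) / √A / (1 + 2 ^ (m + 1 + 1) / √A) -
        2 ^ (m + 1) / √A / (1 + 2 ^ (m + 1) / √A)) := by
  have ha : 1 ≤ √A := Real.one_le_sqrt.2 hA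
  have hq := Real.sq_sqrt (by linarith : 0 ≤ A)
  set k := 2 ^ (2 * m + 1) - 1 with hk
  have hk' : (k : ℝ) = (2 ^ (m + 1)) ^ 2 / 2 - 1 := by
    rw [hk, Nat.cast_sub Nat.one_le_two_pow]; push_cast; ring
  rw [pow_succ (2 : ℝ) (m + 1), mul_div_right_comm]
  have hy : (0 : ℝ) < 2 ^ (m + 1) := by positivity
  generalize (2 : ℝ) ^ (m + 1) = y at *
  generalize √A = a at *
  set z := y / a with hz
  have hz0 : 0 < z := by positivity
  have e : y = z * a := by rw [hz]; field_simp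
  have h1 : (1 - 1 / (16 * A)) ^ k ≤ 3 * Real.exp (-(z ^ 2 / 32)) := by
    have a1 : (1 - 1 / (16 * A)) ^ k ≤ Real.exp (-(1 / (16 * A))) ^ k :=
      pow_le_pow_left₀ (by rw [sub_nonneg, div_le_one (by linarith)]; linarith)
        (by linarith [Real.add_one_le_exp (-(1 / (16 * A)))]) k
    have a2 : Real.exp (-(1 / (16 * A))) ^ k = Real.exp (1 / (16 * A)) * Real.exp (-(z ^ 2 / 32)) := by
      rw [← Real.exp_nat_mul, ← Real.exp_add, hk', e, ← hq]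
      congr 1; field_simp; ring
    have a3 : Real.exp (1 / (16 * A)) ≤ 3 := by
      refine (Real.exp_le_exp.2 (show _ ≤ 1 by rw [div_le_one (by linarith)]; linarith)).trans ?_
      linarith [Real.exp_one_lt_d9]
    rw [a2] at a1
    exact a1.trans (mul_le_mul_of_nonneg_right a3 (Real.exp_pos _).le)
  have h2 : (1 + z) ^ 2 * (1 + 2 * z) * Real.exp (-(z ^ 2 / 32)) ≤ 16384 := by
    have := Real.quadratic_le_exp_of_nonneg (by positivity : 0 ≤ z ^ 2 / 32)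
    rw [Real.exp_neg, ← div_eq_mul_inv, div_le_iff₀ (Real.exp_pos _)]
    nlinarith [sq_nonneg (z - 1), sq_nonneg (z ^ 2 - z), sq_nonneg z]
  have h3 : z * 2 / (1 + z * 2) - z / (1 + z) = z / ((1 + z) * (1 + 2 * z)) := by
    field_simp; ring
  rw [h3, e, ← hq, mul_div_assoc', le_div_iff₀ (by positivity)]
  rw [← hq] at h1
  calc _ = (1 - 1 / (16 * a ^ 2)) ^ k * ((1 + z) ^ 2 * (1 + 2 * z)) * (a ^ 3 * z) := by ring
    _ ≤ 3 * Real.exp (-(z ^ 2 / 32)) * ((1 + z) ^ 2 * (1 + 2 * z)) * (a ^ 3 * z) := by gcongr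
    _ ≤ _ := by nlinarith [mul_le_mul_of_nonneg_right h2 (by positivity : 0 ≤ a ^ 3 * z),
        (by positivity : 0 ≤ a ^ 3 * z)]

lemma blk_sum {A : ℝ} (hA : 1 ≤ A) (n : ℕ) : ∑ m ∈ range n,
    (1 - 1 / (16 * A)) ^ (2 ^ (2 * m + 1) - 1) * (A * 2 ^ (m + 1) + √A * (2 ^ (m + 1)) ^ 2) ≤
      50000 * (√A * A) := by
  refine (sum_le_sum fun m _ => blk_term hA m).trans ?_
  rw [← mul_sum, sum_range_sub fun m => (2 : ℝ) ^ (m + 1) / √A / (1 + 2 ^ (m + 1) / √A)]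
  refine mul_le_of_le_one_right (by positivity) ?_
  have h1 : (2 : ℝ) ^ (n + 1) / √A / (1 + 2 ^ (n + 1) / √A) ≤ 1 :=
    div_le_one_of_le₀ (by linarith) (by positivity)
  have h2 : 0 ≤ (2 : ℝ) ^ (0 + 1) / √A / (1 + 2 ^ (0 + 1) / √A) := by positivity
  linarith

lemma num1 {A c r y N : ℝ} (hA : 1 ≤ A) (hc : 1 ≤ c) (hr : 0 ≤ r) (hy : 0 ≤ y)
    (hN : N = c * y ^ 2 / 2) :
    √(r ^ 2 * (8 * A) * (N * A)) ≤ 2 * (c * (r * (A * y + √A * y ^ 2))) := by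
  have : A * y ≤ A * y + √A * y ^ 2 := le_add_of_nonneg_right (by positivity)
  refine le_trans (sqrt_le_of (b := 2 * (c * (r * (A * y)))) (by positivity) ?_) (by gcongr)
  rw [hN]
  nlinarith [mul_le_mul_of_nonneg_right hc (by positivity : 0 ≤ c * (r * (A * y)) ^ 2)]

lemma num2 (a b k : ℕ) : (1 / 2 : ℝ) ^ k + ∑ j ∈ Ico a b, (1 / 2 : ℝ) ^ 2 ^ j ≤ 3 := by
  have i1 : (1 / 2 : ℝ) ^ k ≤ 1 := pow_le_one₀ (by norm_num) (by norm_num)
  have i2 := geo_le (η := 1 / 2) (by norm_num) (by norm_num) a b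
  have i3 : (1 / 2 : ℝ) ^ a ≤ 1 := pow_le_one₀ (by norm_num) (by norm_num)
  have i4 : ∑ j ∈ Ico a b, (1 / 2 : ℝ) ^ 2 ^ j ≤ ∑ j ∈ Ico a b, (1 / 2 : ℝ) ^ j :=
    sum_le_sum fun j _ => pow_le_pow_of_le_one (by norm_num) (by norm_num) Nat.lt_two_pow_self.le
  rw [show (1 : ℝ) - 1 / 2 = 2⁻¹ by norm_num, div_inv_eq_mul] at i2
  linarith

lemma num3 {A c r y N ρ : ℝ} (hA : 1 ≤ A) (hc : 0 ≤ c) (hr : 0 ≤ r) (hy : 0 ≤ y)
    (hN : N = c * y ^ 2 / 2) (hρ : ρ ≤ r ^ 2) :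
    √(ρ * A * (4 * (N + 4 * A * c)) * (4 * N)) ≤ 6 * (c * (r * (A * y + √A * y ^ 2))) := by
  refine sqrt_le_of (by positivity) ?_
  subst hN
  calc _ ≤ r ^ 2 * A * (4 * (c * y ^ 2 / 2 + 4 * A * c)) * (4 * (c * y ^ 2 / 2)) := by gcongr
    _ = (c * r) ^ 2 * (4 * (√A * y ^ 2) ^ 2 + 32 * (A * y) ^ 2) := by
        rw [mul_pow (√A), Real.sq_sqrt (by linarith)]; ring
    _ ≤ (c * r) ^ 2 * (36 * (A * y + √A * y ^ 2) ^ 2) := by
        gcongr
        nlinarith [(by positivity : 0 ≤ A * y * (√A * y ^ 2)), sq_nonneg (A * y),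
          sq_nonneg (√A * y ^ 2)]
    _ = _ := by ring

namespace Cor

variable {S : Cor X} {η : ℝ} (L : Forms S.P η)

theorem A1.block (h : S.A1) (h0 : 0 ≤ η) (h1 : η < 1) {c : ℕ} (hc1 : 1 ≤ c)
    (hc : η ^ c * (4 * S.D) ^ 16 ≤ 1 / 4) {u v : X → ℝ} (hu : ∀ x, |u x| ≤ S.U x)
    (hv : ∀ x, |v x| ≤ S.V x) (n m : ℕ) {β s : ℕ} (hβ1 : 4 ^ (m + 1) ≤ β) (hβ2 : β ≤ 4 ^ (m + 2))
    (hs : c * 2 ^ (2 * m + 1) ≤ s) :
    S.Pair L u v n (4 ^ (m + 1)) (4 ^ (m + 2)) 0 β s ≤ 2048 / (1 - η) ^ 2 * ((1 / 2) ^ m * S.A) +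
      (800 + 384 / (1 - η)) * c * ((1 - 1 / (16 * S.A)) ^ (2 ^ (2 * m + 1) - 1) *
        (S.A * 2 ^ (m + 1) + √S.A * (2 ^ (m + 1)) ^ 2)) := by
  have hA := S.hA1
  have hD := S.hD1
  have hη := sub_pos.2 h1
  have hc' : (1 : ℝ) ≤ c := by exact_mod_cast hc1
  have e4 : 4 ^ (m + 1) = 2 * 2 ^ (2 * m + 1) := by rw [show 4 = 2 ^ 2 by rfl, ← pow_mul]; ring
  have e4' : 4 ^ (m + 2) = 8 * 2 ^ (2 * m + 1) := by rw [show 4 = 2 ^ 2 by rfl, ← pow_mul]; ring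
  have hp1 : 1 ≤ 2 ^ (2 * m + 1) := Nat.one_le_two_pow
  have hαβ : 4 ^ (m + 1) ≤ 4 ^ (m + 2) := by omega
  have hj2 : ∀ j ≤ 2 * m + 1, 2 ^ j ≤ 2 ^ (2 * m + 1) := fun j hj => Nat.pow_le_pow_right two_pos hj
  have a1 := S.pair_l2 L h0 h1 hu hv n hαβ le_rfl (Nat.zero_le β) hβ2 hs
  have a2 : η ^ (c * 2 ^ (2 * m + 1)) * ((4 * S.D) ^ 4 ^ (m + 2)) ^ 2 ≤ (1 / 2) ^ m := by
    calc _ = (η ^ c * (4 * S.D) ^ 16) ^ 2 ^ (2 * m + 1) := by
          rw [e4', mul_pow (η ^ c), ← pow_mul, ← pow_mul, ← pow_mul]; congr 2; ring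
      _ ≤ (1 / 2) ^ 2 ^ (2 * m + 1) := pow_le_pow_left₀ (by positivity) (by linarith) _
      _ ≤ _ := pow_le_pow_of_le_one (by norm_num) (by norm_num)
          (by have := Nat.lt_two_pow_self (n := 2 * m + 1); omega)
  have a3 := mul_le_mul_of_nonneg_right (mul_le_mul_of_nonneg_left a2
    (by positivity : 0 ≤ 2048 / (1 - η) ^ 2)) (by linarith : 0 ≤ S.A)
  have hcl := S.cls_off hc1 m β
  set N := c * 2 ^ (2 * m + 1) with hN
  set k := 2 ^ (2 * m + 1) - 1 with hk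
  set J := Ico (m + 1) (2 * m + 2) with hJ
  set B : ℕ × ℕ → X → ℝ := fun i y => I (pc m i.2 (S.off β N i.1 y)) with hB
  have hρ : 0 ≤ 1 - 1 / (16 * S.A) := sub_nonneg.2 kap_le'
  have hρ1 : 1 - 1 / (16 * S.A) ≤ 1 := sub_le_self _ (by positivity)
  set r := (1 - 1 / (16 * S.A)) ^ k with hr
  have hr0 : 0 ≤ r := pow_nonneg hρ k
  have hr2 : (1 - 1 / (16 * S.A)) ^ (4 ^ (m + 1) - 1) ≤ r ^ 2 := by
    rw [hr, ← pow_mul]; exact pow_le_pow_of_le_one hρ hρ1 (by omega)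
  set y : ℝ := 2 ^ (m + 1) with hy
  have hy0 : 0 ≤ y := by positivity
  have hNy : (N : ℝ) = c * y ^ 2 / 2 := by rw [hN, hy]; push_cast; ring
  have hk1 : 4 ^ (m + 1) - 1 + 1 = 4 ^ (m + 1) := by omega
  have hΛ : S.Lam n (n + N) (4 ^ (m + 1)) ≤ r ^ 2 * (8 * S.A) := by
    have := h.lam (Nat.le_add_right n N) (4 ^ (m + 1) - 1)
    rw [hk1] at this
    exact this.trans (mul_le_mul_of_nonneg_right hr2 (by linarith))
  have hsA := Real.sqrt_nonneg S.A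
  have hq := Real.sq_sqrt (by linarith : 0 ≤ S.A)
  set Y := S.A * y + √S.A * y ^ 2 with hY
  have hY1 : S.A * y ≤ Y := le_add_of_nonneg_right (by positivity)
  have hY0 : 0 ≤ Y := by positivity
  have b1 : √(r ^ 2 * (8 * S.A) * (N * S.A)) ≤ 2 * (c * (r * Y)) := num1 hA hc' hr0 hy0 hNy
  have hZ : ∀ l ≤ 2 ^ (2 * m + 1), ∀ t x, S.Zm c l (4 ^ (m + 1)) N t x ≤
      r * E (S.P t) (fun y => S.Γ l (c * l) t y * S.U y) x := fun l hl t x =>
    h.good.stop_decay kap_le' (by omega) x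
  set G0 : ℕ → X → ℝ := fun t x =>
    I (S.off β N t x < 2 ^ (m + 1)) * ES S.P (S.nu t β N) v x - E (S.P t) v x with hG0
  set G : ℕ → ℕ → X → ℝ := fun j t x => B (t, j) x * ES S.P (S.nu t β N) v x with hG
  have c0 := S.cls_see L h0 h1 hc hu n (l := 2 ^ (m + 1)) Nat.one_le_two_pow
    (by have := hj2 (m + 1) (by omega); omega) hαβ hΛ (by positivity) (G := G0)
    (S.L2_bot hv Nat.one_le_two_pow (by have := hj2 (m + 1) (by omega); omega) N n)
  have c1 := sum_le_sum fun j (hj : j ∈ J) => S.cls_see L h0 h1 hc hu n (l := 2 ^ j)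
    Nat.one_le_two_pow (by have := hj2 j (by have := mem_Ico.1 hj; omega); omega) hαβ hΛ
    (by positivity) (G := G j) (S.L2_mid hv (p := pc m j) N n fun o ho hp =>
      ⟨Nat.one_le_two_pow.trans (pc_le hp), pc_ge (ho.trans hβ2) hp⟩)
  have c2 : S.Pair L u v n (4 ^ (m + 1)) (4 ^ (m + 2)) 0 β N ≤
      ∑ t ∈ range n, ∑ x, |L.ℓ t x (S.W u t (4 ^ (m + 1)) (4 ^ (m + 2)) N) (G0 t)| +
      ∑ j ∈ J, ∑ t ∈ range n, ∑ x, |L.ℓ t x (S.W u t (4 ^ (m + 1)) (4 ^ (m + 2)) N) (G j t)| := by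
    rw [sum_comm (s := J), ← sum_add_distrib]
    refine sum_le_sum fun t _ => ?_
    rw [sum_comm (s := J), ← sum_add_distrib]
    refine sum_le_sum fun x _ => ?_
    have e : S.W v t 0 β N = G0 t + ∑ j ∈ J, G j t := by
      funext z
      rw [Pi.add_apply, Finset.sum_apply]
      simp only [hG0, hG, hB, W]
      rw [← sum_mul, sub_add_eq_add_sub, ← add_mul, pc_sum, one_mul, ES, ES, S.nu_zero]
    rw [e, map_add, map_sum]
    exact (abs_add_le _ _).trans (add_le_add_right (abs_sum_le_sum_abs _ _) _)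
  have d0 : ∑ t ∈ range n, ∑ x, 2 * S.Zm c (2 ^ (m + 1)) (4 ^ (m + 1)) N t x *
      E (S.P t) (fun y => |G0 t y|) x ≤ 440 * (c * (r * Y)) := by
    have := mul_le_mul_of_nonneg_left (h.bottom (c := c) (l := 2 ^ (m + 1)) (N := c * 2 ^ (m + 1))
      Nat.one_le_two_pow (by push_cast; exact le_rfl) n) (by positivity : 0 ≤ 4 * r)
    refine le_trans ?_ (this.trans ?_)
    · simp only [mul_sum]
      refine sum_le_sum fun t _ => sum_le_sum fun x _ => ?_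
      have b : E (S.P t) (fun y => |G0 t y|) x ≤ 2 * E (S.P t) S.V x := by
        have b1 := (S.E_off hv (· < 2 ^ (m + 1)) β N t x).trans
          (E_mono fun y _ => mul_le_of_le_one_left (S.hV y).le (I_le_one _))
        have b2 : E (S.P t) (fun y => |E (S.P t) v y|) x ≤ E (S.P t) S.V x :=
          E_le_of_le fun y hy => by
            rw [E_meas _ _ x y hy]; exact (abs_E_le _ _ _).trans (E_mono fun y _ => hv y)
        refine le_trans ?_ ((add_le_add b1 b2).trans_eq (two_mul _).symm)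
        rw [← E_add]
        exact E_mono fun y _ => abs_sub _ _
      have b' := hZ _ (hj2 (m + 1) (by omega)) t x
      exact (mul_le_mul (mul_le_mul_of_nonneg_left b' zero_le_two) b (E_nonneg fun _ => abs_nonneg _)
        (mul_nonneg zero_le_two ((S.Zm_nonneg _ _ _ _ _ _).trans b'))).trans_eq (by ring)
    · push_cast
      linarith [mul_le_mul_of_nonneg_left hY1 (by positivity : 0 ≤ c * r)]
  have d1 : ∑ j ∈ J, ∑ t ∈ range n, ∑ x, 2 * S.Zm c (2 ^ j) (4 ^ (m + 1)) N t x *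
      E (S.P t) (fun y => |G j t y|) x ≤ 358 * (c * (r * Y)) := by
    have o1 := mul_le_mul_of_nonneg_left (hcl.old hy0 (hNy.trans_le (half_le_self (by positivity))) n)
      (by positivity : 0 ≤ 2 * r)
    have o2 := S.delta (c := c) (k := 4 ^ (m + 1) - 1) (N := N) (by
      rw [hk1, e4, hN]; exact_mod_cast Nat.mul_le_mul_left c (by omega)) n
    rw [hk1] at o2
    have o3 := num3 hA (Nat.cast_nonneg c) hr0 hy0 hNy ((pow_le_pow_left₀ (sub_nonneg.2 S.kap_le)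
      (sub_le_sub_left (one_div_le_one_div_of_le (by linarith) (by linarith)) 1) _).trans hr2)
    refine le_trans ?_ ((add_le_add o1 (mul_le_mul_of_nonneg_left (o2.trans o3)
      zero_le_two)).trans_eq (by ring))
    rw [sum_comm]
    simp only [mul_sum (range n), ← sum_add_distrib]
    refine sum_le_sum fun t _ => ?_
    rw [sum_comm]
    simp only [mul_sum univ, ← sum_add_distrib]
    refine sum_le_sum fun x _ => ?_
    have p1 : ∑ j ∈ J, E (S.P t) (fun y => B (t, j) y * S.w y * S.swap.dl N t y) x ≤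
        E (S.P t) (fun y => S.w y * S.swap.dl N t y) x := by
      rw [← E_sum]
      refine E_mono fun y _ => ?_
      simp only [mul_assoc]
      rw [← sum_mul]
      exact mul_le_of_le_one_left (mul_nonneg (S.hw y).le (S.swap.dl_nonneg N t y)) (hcl.B1 t y)
    have p0 : 0 ≤ E (S.P t) (fun y => S.Γ (4 ^ (m + 1)) N t y * S.U y) x :=
      E_nonneg fun y => mul_nonneg (I_nonneg _) (S.hU y).le
    refine le_trans ?_ (add_le_add_right (mul_le_mul_of_nonneg_left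
      (mul_le_mul_of_nonneg_left p1 p0) zero_le_two) _)
    simp only [mul_sum J, ← sum_add_distrib]
    refine sum_le_sum fun j hj => ?_
    have hjj := hj2 j (by have := mem_Ico.1 hj; omega)
    have q1 := (S.E_off hv (pc m j) β N t x).trans (S.swap.splitS (t := t) (N := N)
      (fun a b hab => by rw [S.off_eq (S.hP.mono (S.nu_le_cap t β N a) hab)])
      (fun y => I_nonneg _) x)
    have q2 := hZ _ hjj t x
    have q3 : S.Zm c (2 ^ j) (4 ^ (m + 1)) N t x ≤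
        E (S.P t) (fun y => S.Γ (4 ^ (m + 1)) N t y * S.U y) x := E_mono fun y _ =>
      mul_le_mul_of_nonneg_right (S.Z_le (by omega) y).2 (S.hU y).le
    have q4 := mul_le_mul_of_nonneg_left q1 (S.Zm_nonneg c (2 ^ j) (4 ^ (m + 1)) N t x)
    have q5 := mul_le_mul_of_nonneg_right q2 (mul_nonneg (S.swap.Fs_nonneg t x) (hcl.Q0 (t, j) x))
    have q6 := mul_le_mul_of_nonneg_right q3 (E_nonneg (P := S.P t) (x := x) fun y =>
      mul_nonneg (mul_nonneg (hcl.B0 (t, j) y) (S.hw y).le) (S.swap.dl_nonneg N t y))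
    change _ * E (S.P t) (fun y => |G j t y|) x ≤ _ * (S.swap.Fs t x * S.Q B (t, j) x +
      E (S.P t) (fun y => B (t, j) y * S.w y * S.swap.dl N t y) x) at q4
    simp only [Gm]
    linarith
  have d2 : (1 / 2 : ℝ) ^ 2 ^ (m + 1) + ∑ j ∈ J, (1 / 2 : ℝ) ^ 2 ^ j ≤ 3 := num2 _ _ _
  rw [sum_add_distrib, ← sum_mul, ← mul_sum] at c1
  have d3 := mul_le_mul (mul_le_mul_of_nonneg_left d2 (by positivity : 0 ≤ 64 / (1 - η))) b1
    (Real.sqrt_nonneg _) (by positivity)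
  have d4 : 0 ≤ c * (r * Y) := by positivity
  have d5 : 64 / (1 - η) * 3 * (2 * (c * (r * Y))) = 384 / (1 - η) * (c * (r * Y)) := by ring
  linarith

theorem A1.total (h : S.A1) (h0 : 0 ≤ η) (h1 : η < 1) {c : ℕ} (hc1 : 1 ≤ c)
    (hc : η ^ c * (4 * S.D) ^ 16 ≤ 1 / 4) {u v : X → ℝ} (hu : ∀ x, |u x| ≤ S.U x)
    (hv : ∀ x, |v x| ≤ S.V x) {nb : ℕ} (hb : ∀ q x y, nb ≤ q → S.P q x y → x = y) (n : ℕ) :
    ∑ t ∈ range n, ∑ x, |L.ℓ t x u v| ≤ (2048 / (1 - η) ^ 2 * (((4 * S.D) ^ 4) ^ 2 + 4) +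
      (800 + 384 / (1 - η)) * c * 100000) * (√S.A * S.A) := by
  have hA := S.hA1
  have hD := S.hD1
  have hη := sub_pos.2 h1
  set s := c * 2 ^ (2 * nb + 1) + nb with hs
  have hsi : ∀ i ∈ range nb, c * 2 ^ (2 * i + 1) ≤ s := fun i hi =>
    (Nat.mul_le_mul_left c (Nat.pow_le_pow_right (by norm_num)
      (by have := mem_range.1 hi; omega))).trans (Nat.le_add_right _ _)
  have e1 : ∀ (u : X → ℝ) t, u - E (S.P t) u = S.W u t 0 (4 ^ (nb + 1)) s := fun u t => by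
    funext y
    have h1 : nb ≤ S.nu t (4 ^ (nb + 1)) s y := by
      obtain ⟨h1, h2⟩ := S.nu_spec t (4 ^ (nb + 1)) s y
      have h3 := S.g_le y t (S.nu t (4 ^ (nb + 1)) s y - t)
      rw [Nat.add_sub_cancel' h1] at h3
      have : nb + 1 < 4 ^ (nb + 1) := Nat.lt_pow_self (by norm_num)
      omega
    simp only [W, ES, Pi.sub_apply]
    rw [S.nu_zero, E_eq_of_const (P := S.P (S.nu t (4 ^ (nb + 1)) s y)) fun z hz => by
      rw [hb _ _ _ h1 hz]]
  have e2 : ∀ (u : X → ℝ) t α β, S.W u t 0 β s = S.W u t 0 α s + S.W u t α β s := fun u t α β => by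
    funext y; simp only [W, Pi.add_apply]; ring
  have a0 := S.pair_l2 L h0 h1 hu hv n (Nat.zero_le 4) le_rfl (Nat.zero_le 4) le_rfl
    (Nat.zero_le s)
  have a1 : S.Pair L u v n 0 4 0 4 0 = 0 := by
    refine sum_eq_zero fun t _ => sum_eq_zero fun x _ => ?_
    have : S.W u t 0 4 0 = 0 := by
      funext y
      have e : ∀ β, S.nu t β 0 y = t := fun β =>
        le_antisymm (S.nu_le_cap t β 0 y) (S.nu_spec _ _ _ _).1
      simp only [W, ES, e, sub_self, Pi.zero_apply]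
    rw [this, map_zero, LinearMap.zero_apply, abs_zero]
  have a2 : ∑ t ∈ range n, ∑ x, |L.ℓ t x u v| ≤ S.Pair L u v n 0 4 0 4 s + ∑ m ∈ range nb,
      (S.Pair L u v n (4 ^ (m + 1)) (4 ^ (m + 2)) 0 (4 ^ (m + 2)) s +
        S.Pair L u v n 0 (4 ^ (m + 1)) (4 ^ (m + 1)) (4 ^ (m + 2)) s) := by
    simp only [Pair, ← sum_add_distrib]
    rw [sum_comm (s := range nb), ← sum_add_distrib]
    refine sum_le_sum fun t _ => ?_
    rw [sum_comm (s := range nb), ← sum_add_distrib]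
    refine sum_le_sum fun x _ => ?_
    have e : L.ℓ t x (u - E (S.P t) u) v = L.ℓ t x (u - E (S.P t) u) (v - E (S.P t) v) :=
      L.flip.center t x v _
    rw [L.center t x u v, e, e1, e1, ← sub_add_cancel (L.ℓ t x _ _)
      (L.ℓ t x (S.W u t 0 (4 ^ (0 + 1)) s) (S.W v t 0 (4 ^ (0 + 1)) s)), add_comm,
      ← sum_range_sub fun m => L.ℓ t x (S.W u t 0 (4 ^ (m + 1)) s) (S.W v t 0 (4 ^ (m + 1)) s)]
    refine (abs_add_le _ _).trans (add_le_add le_rfl ((abs_sum_le_sum_abs _ _).trans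
      (sum_le_sum fun m _ => le_trans (le_of_eq ?_) (abs_add_le _ _))))
    rw [e2 u t (4 ^ (m + 1)) (4 ^ (m + 1 + 1)), map_add, LinearMap.add_apply]
    nth_rewrite 1 [e2 v t (4 ^ (m + 1)) (4 ^ (m + 1 + 1))]
    rw [map_add]
    congr 1; ring
  have a3 := sum_le_sum fun m (hm : m ∈ range nb) => add_le_add
    (h.block L h0 h1 hc1 hc hu hv n m (Nat.pow_le_pow_right (by norm_num) (Nat.le_succ _)) le_rfl
      (hsi m hm))
    (A1.block (S := S.swap) L.flip h.swap h0 h1 hc1 hc hv hu n m le_rfl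
      (Nat.pow_le_pow_right (by norm_num) (Nat.le_succ _)) (hsi m hm))
  change ∑ m ∈ range nb, (_ + S.Pair L u v n 0 (4 ^ (m + 1)) (4 ^ (m + 1)) (4 ^ (m + 2)) s) ≤
    ∑ m ∈ range nb, (_ + (_ * (_ * S.A) + _ * ((1 - 1 / (16 * S.A)) ^ _ *
      (S.A * _ + √S.A * _)))) at a3
  simp only [sum_add_distrib, ← mul_sum, ← sum_mul] at a3 a2
  have a4 := mul_le_mul_of_nonneg_left (blk_sum hA nb)
    (by positivity : 0 ≤ (800 + 384 / (1 - η)) * c)
  have a5 := geo_le (η := 1 / 2) (by norm_num) (by norm_num) 0 nb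
  rw [← range_eq_Ico] at a5
  have a6 : S.A ≤ √S.A * S.A := le_mul_of_one_le_left (by linarith) (Real.one_le_sqrt.2 hA)
  have a7 : (∑ m ∈ range nb, (1 / 2 : ℝ) ^ m) * S.A ≤ 2 * (√S.A * S.A) :=
    mul_le_mul (by linarith) a6 (by linarith) zero_le_two
  have a8 := mul_le_mul_of_nonneg_left a7 (by positivity : 0 ≤ 2048 / (1 - η) ^ 2)
  have a9 := mul_le_mul_of_nonneg_left a6
    (by positivity : 0 ≤ 2048 / (1 - η) ^ 2 * ((4 * S.D) ^ 4) ^ 2)
  rw [a1, pow_zero, one_mul] at a0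
  linarith

end Cor

lemma exists_dom' {P : ℕ → Setoid X} (hP : Filt P) {nb : ℕ}
    (hb : ∀ q x y, nb ≤ q → P q x y → x = y) {σ u : X → ℝ} (hσ : ∀ x, 0 < σ x)
    (hu : ∑ x, u x ^ 2 / σ x ≤ 1 / 16) : ∃ U : X → ℝ, (∀ x, 0 < U x) ∧ (∀ x, |u x| ≤ U x) ∧
      ∑ x, U x ^ 2 / σ x ≤ 1 ∧ ∀ q x, Ew (P q) σ (fun y => U y / σ y) x ≤ 4 * (U x / σ x) := by
  obtain ⟨U, U0, U1, U2⟩ := exists_dom (u := fun x => 2 * u x) hσ (by
    simp only [mul_pow, mul_div_assoc, ← mul_sum]; linarith)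
  obtain ⟨f, f1, f2, f3⟩ := rubio hP hb (f0 := fun x => U x / (2 * σ x)) hσ
    (fun x => (div_pos (U0 x) (mul_pos two_pos (hσ x))).le) (by
      refine le_trans (le_of_eq ?_) (mul_le_mul_of_nonneg_left U2 (by norm_num : (0 : ℝ) ≤ 1 / 4)
        |>.trans_eq (mul_one _))
      rw [mul_sum]
      refine sum_congr rfl fun x _ => ?_
      have := (hσ x).ne'
      field_simp; norm_num)
  have e : ∀ x, σ x * f x / σ x = f x := fun x => mul_div_cancel_left₀ _ (hσ x).ne'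
  have h1 : ∀ x, U x / 2 ≤ σ x * f x := fun x => by
    have := f1 x
    rw [div_le_iff₀ (mul_pos two_pos (hσ x))] at this
    linarith
  refine ⟨fun x => σ x * f x, fun x => (half_pos (U0 x)).trans_le (h1 x), fun x => ?_,
    le_trans (le_of_eq (sum_congr rfl fun x _ => ?_)) f2, fun q x => ?_⟩
  · have := U1 x
    rw [abs_mul, abs_two] at this
    linarith [h1 x]
  · have := (hσ x).ne'
    field_simp
  · simp only [e]; exact f3 q x

theorem modelS (D η : ℝ) (hD : 1 ≤ D) (h0 : 0 ≤ η) (h1 : η < 1) : ∃ C : ℝ, 0 < C ∧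
    ∀ (X : Type) [Fintype X] (P : ℕ → Setoid X) (nb : ℕ), Filt P →
    (∀ q x y, nb ≤ q → P q x y → x = y) →
    (∀ t x, ((cls (P t) x).card : ℝ) ≤ D * (cls (P (t + 1)) x).card) →
    ∀ (σ w : X → ℝ) (A : ℝ), (∀ x, 0 < σ x) → (∀ x, 0 < w x) → (∀ x, 1 ≤ σ x * w x) → 1 ≤ A →
    (∀ t x, E (P t) σ x * E (P t) w x ≤ A) → ∀ (L : Forms P η) (u v : X → ℝ) (n : ℕ),
    ∑ t ∈ range n, ∑ x, |L.ℓ t x u v| ≤ C * A ^ (3 / 2 : ℝ) *
      √(∑ x, u x ^ 2 / σ x) * √(∑ x, v x ^ 2 / w x) := by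
  obtain ⟨c, hc⟩ := exists_pow_lt_of_lt_one (show 0 < 1 / 4 / (4 * D) ^ 16 by positivity) h1
  have hc2 : η ^ (c + 1) * (4 * D) ^ 16 ≤ 1 / 4 := by
    rw [lt_div_iff₀ (by positivity)] at hc
    refine le_trans ?_ hc.le
    exact mul_le_mul_of_nonneg_right (pow_le_pow_of_le_one h0 h1.le (Nat.le_succ c)) (by positivity)
  have hη := sub_pos.2 h1
  refine ⟨16 * (2048 / (1 - η) ^ 2 * (((4 * D) ^ 4) ^ 2 + 4) +
      (800 + 384 / (1 - η)) * (c + 1 : ℕ) * 100000), by positivity, ?_⟩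
  intro X _ P nb hP hb hD' σ w A hσ hw hσw hA hA' L u v n
  have zero : ∀ {σ u : X → ℝ}, (∀ x, 0 < σ x) → √(∑ x, u x ^ 2 / σ x) = 0 → u = 0 := by
    intro σ u hσ h
    have h2 : ∀ x ∈ univ, 0 ≤ u x ^ 2 / σ x := fun x _ => div_nonneg (sq_nonneg _) (hσ x).le
    rw [Real.sqrt_eq_zero (sum_nonneg h2), sum_eq_zero_iff_of_nonneg h2] at h
    funext x
    simpa [(hσ x).ne'] using h x (mem_univ x)
  have scal : ∀ {σ u : X → ℝ}, (∀ x, 0 < σ x) → 0 < √(∑ x, u x ^ 2 / σ x) →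
      ∑ x, (((4 * √(∑ x, u x ^ 2 / σ x))⁻¹ • u) x) ^ 2 / σ x ≤ 1 / 16 := by
    intro σ u hσ h
    simp only [Pi.smul_apply, smul_eq_mul, mul_pow, mul_div_assoc, ← mul_sum]
    nth_rewrite 2 [← Real.sq_sqrt (Real.sqrt_pos.1 h).le]
    field_simp; norm_num
  rcases (Real.sqrt_nonneg (∑ x, u x ^ 2 / σ x)).eq_or_lt with ha | ha
  · rw [← ha, zero hσ ha.symm]; simp
  rcases (Real.sqrt_nonneg (∑ x, v x ^ 2 / w x)).eq_or_lt with hb' | hb'
  · rw [← hb', zero hw hb'.symm]; simp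
  obtain ⟨U, U0, U1, U2, U3⟩ := exists_dom' hP hb hσ (scal hσ ha)
  obtain ⟨V, V0, V1, V2, V3⟩ := exists_dom' hP hb hw (scal hw hb')
  let S : Cor X :=
    { P := P, hP := hP, D := D, hD1 := hD, hD := hD', σ := σ, w := w, U := U, V := V, A := A
      hσ := hσ, hw := hw, hU := U0, hV := V0, hσw := hσw, hA1 := hA, hA := hA', nU := U2, nV := V2
      top := topf P U V, top_meas := topf_meas hP U V, top_zero := fun _ => rfl
      top_succ := fun q x => by simp only [topf]; split_ifs <;> simp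
      U_le := fun q x => (topf_bound P U0 V0 q x).1
      V_le := fun q x => (topf_bound P U0 V0 q x).2
      reason := fun q x h => by
        by_contra hn
        simp only [topf, if_neg hn] at h
        have := topf_le P U V q x
        omega }
  have key := Cor.A1.total (S := S) L ⟨U3, V3⟩ h0 h1 (Nat.le_add_left 1 c) hc2 U1 V1 hb n
  set a := √(∑ x, u x ^ 2 / σ x)
  set b := √(∑ x, v x ^ 2 / w x)
  simp only [map_smul, LinearMap.smul_apply, smul_eq_mul, abs_mul, ← mul_sum] at key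
  rw [abs_of_pos (by positivity), abs_of_pos (by positivity), inv_mul_le_iff₀ (by positivity),
    inv_mul_le_iff₀ (by positivity)] at key
  refine key.trans (le_of_eq ?_)
  rw [show (3 / 2 : ℝ) = 1 / 2 + 1 by norm_num, Real.rpow_add (by linarith), Real.rpow_one,
    ← Real.sqrt_eq_rpow]
  change 4 * a * (4 * b * ((2048 / (1 - η) ^ 2 * (((4 * D) ^ 4) ^ 2 + 4) +
      (800 + 384 / (1 - η)) * (c + 1 : ℕ) * 100000) * (√A * A))) = _
  ring

end Pool.Agent.P.MP_70f35d_an
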