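import Pool.Agent.P.MP_70f35d_an.Lattice
import Pool.Agent.P.MP_70f35d_an.SModel
import Pool.Agent.P.MP_70f35d_an.SFinal

set_option autoImplicit false
open MeasureTheory Finset

namespace Pool.Agent.P.MP_70f35d_an
open SG

variable {d : ℕ}

theorem famS (d : ℕ) (c0 : ℝ) : ∃ C : ℝ, 0 < C ∧ ∀ (c b0 : ℝ) (β A : Eu d → ℝ), Pr c0 c b0 β A →
    0 < c → ∀ (σ w : (Fin d → ℤ) → ℝ) (B : ℝ), (∀ a, 0 < σ a) → (∀ a, 0 < w a) →
    (∀ a, 1 ≤ σ a * w a) → (∀ (o : Fin d → ℤ) (m : ℕ),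
      (∑ a : Fin d → Fin (2 ^ m), σ fun i => o i + (a i : ℕ)) *
        (∑ a : Fin d → Fin (2 ^ m), w fun i => o i + (a i : ℕ)) ≤ B * (((2 : ℝ) ^ m) ^ d) ^ 2) →
    ∀ (J : Finset ℕ) (s : Finset (Fin d → ℤ)) (u v : (Fin d → ℤ) → ℝ),
      (∀ a, u a ≠ 0 → a ∈ s) → (∀ a, v a ≠ 0 → a ∈ s) →
      |∑ j ∈ J, ∫ x, cv (Dl (2 ^ j) A) (fun z => b0 * stp u z + cv (Dl (2 ^ j) β) (stp u) z) x *
        stp v x| ≤ c * (C * B ^ (3 / 2 : ℝ) *
          √(∑ a ∈ s, u a ^ 2 / σ a) * √(∑ a ∈ s, v a ^ 2 / w a)) := by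
  obtain ⟨η, η0, η1, hη⟩ : ∃ η : ℝ, 0 < η ∧ η < 1 ∧ 1 / 2 ≤ η ^ (8 * d + 16) :=
    ⟨(1 / 2) ^ ((8 * d + 16 : ℕ) : ℝ)⁻¹, by positivity,
      Real.rpow_lt_one (by norm_num) (by norm_num) (by positivity),
      (Real.rpow_inv_natCast_pow (by norm_num) (by omega)).ge⟩
  obtain ⟨C, hC0, hC⟩ := modelS (2 ^ d) η (one_le_pow₀ one_le_two) η0.le η1
  refine ⟨2 ^ d * (|cW d c0| + 1) * C, by positivity, ?_⟩
  intro c b0 β A h hc σ w B hσ hw hσw hB J s u v hu hv
  have hc0 : 0 ≤ c0 := (abs_nonneg _).trans (h.bβ 0)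
  have hW : 0 < cW d c0 := by unfold cW; positivity
  have hB1 := one_le_of_lat hσw hB
  obtain ⟨L, hL1, hL2⟩ := exists_level s J
  set Z := C * B ^ (3 / 2 : ℝ) * √(∑ a ∈ s, u a ^ 2 / σ a) *
    √(∑ a ∈ s, v a ^ 2 / w a) with hZ
  have hZ0 : 0 ≤ Z := by positivity
  set H : ℕ → Eu d → ℝ := fun j => Hf b0 β A (fun z => u (fl (32 / 2 ^ (j + 5)) z))
    fun z => v (fl (32 / 2 ^ (j + 5)) z) with hH
  have nH : ∀ j, Nice (H j) := fun j => h.nH (nice_fl hu (by positivity)) (nice_fl hv (by positivity))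
  have key : ∀ o : Fin d → ℤ, s ⊆ bx o (L + 2) → ∑ j ∈ J, (2 ^ j) ^ d *
      |∫ z, I (mid o (j + 5) (fl (32 / 2 ^ (j + 5)) z)) * H j z| ≤ cW d c0 * c * Z := by
    intro o ho
    obtain ⟨F, hF⟩ := exists_forms h hc η0 η1.le hη o (L + 2)
    have a1 := hC (bx o (L + 2)) (PP o (L + 2)) (L + 2) filt_PP (fun _ _ _ h h' => PP_eq h h')
      (fun t x => by
        rw [card_cls, card_cls, ← mul_pow, ← pow_succ']
        exact pow_le_pow_left₀ (by positivity) (pow_le_pow_right₀ one_le_two (by omega)) d)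
      (fun a => σ a.1) (fun a => w a.1) B (fun _ => hσ _) (fun _ => hw _) (fun _ => hσw _) hB1
      (fun t x => by
        obtain ⟨o', h'⟩ := sum_cls t x
        rw [E, E, h' σ, h' w, card_cls, div_mul_div_comm, div_le_iff₀ (by positivity), ← sq]
        exact hB o' _) F (fun a => u a.1) (fun a => v a.1) (L + 2)
    rw [sum_coe_sort (bx o (L + 2)) fun a => u a ^ 2 / σ a,
      sum_coe_sort (bx o (L + 2)) fun a => v a ^ 2 / w a,
      ← sum_subset ho fun a _ ha => by rw [not_not.1 (mt (hu a) ha)]; simp,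
      ← sum_subset ho fun a _ ha => by rw [not_not.1 (mt (hv a) ha)]; simp] at a1
    refine le_trans ?_ (mul_le_mul_of_nonneg_left a1 (by positivity))
    refine le_trans ?_ (mul_le_mul_of_nonneg_left (sum_le_sum_of_subset_of_nonneg
      (s := J.image fun j => L + 2 - (j + 5)) (fun t ht => ?_) fun _ _ _ => by positivity)
      (by positivity))
    · rw [sum_image fun i hi j hj e => by have := hL1 i hi; have := hL1 j hj; omega,
        mul_sum]
      refine sum_le_sum fun j hj => ?_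
      have e : L + 2 - (L + 2 - (j + 5)) = j + 5 := by have := hL1 j hj; omega
      have a2 := cell_sum h (L + 2 - (j + 5)) (fun a : bx o (L + 2) => u a.1) fun a => v a.1
      rw [St_val fun b hb => ho (hu b hb), St_val fun b hb => ho (hv b hb)] at a2
      simp only [hF, abs_mul, ← mul_sum]
      rw [abs_of_pos (inv_pos.2 (mul_pos hW hc)), mul_inv_cancel_left₀ (mul_pos hW hc).ne']
      refine le_trans ?_ (abs_sum_le_sum_abs _ _)
      rw [a2, e, abs_mul, abs_of_pos (by positivity : (0 : ℝ) < (2 ^ (j + 5)) ^ d)]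
      exact mul_le_mul_of_nonneg_right (pow_le_pow_left₀ (by positivity)
        (pow_le_pow_right₀ one_le_two (by omega)) d) (abs_nonneg _)
    · obtain ⟨j, -, rfl⟩ := mem_image.1 ht
      exact mem_range.2 (by omega)
  have avg : ∀ j ∈ J, (2 ^ L / 2) ^ d * ∫ z, H j z = ∑ ω : Fin d → Fin (2 ^ L), ∫ z,
      I (mid (fun i => -2 ^ (L + 1) + (ω i : ℕ)) (j + 5) (fl (32 / 2 ^ (j + 5)) z)) * H j z := by
    intro j hj
    rw [← integral_finsetSum _ fun ω _ => ((nH j).bmul (step_meas _ fun b => I (mid _ _ b))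
      fun z => (abs_of_nonneg (I_nonneg _)).trans_le (I_le_one _)).integrable,
      ← integral_const_mul]
    congr 1; funext z
    rw [← sum_mul, avg_mid _ _ (by omega) (hL1 j hj)]
  have hN : (0 : ℝ) < (2 ^ L / 2) ^ d := by positivity
  simp only [rescale h (nice_stp hu) (nice_stp hv) (pow_pos two_pos _), stp_smul]
  refine le_of_mul_le_mul_left ?_ hN
  rw [← abs_of_pos hN, ← abs_mul, abs_of_pos hN, mul_sum,
    sum_congr rfl fun j hj => by rw [mul_left_comm, avg j hj, mul_sum], sum_comm]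
  refine (abs_sum_le_sum_abs _ _).trans ((sum_le_sum fun ω _ => (abs_sum_le_sum_abs _ _).trans
    ((sum_le_sum fun j _ => by rw [abs_mul, abs_of_pos (by positivity)]).trans
      (key _ (hL2 ω)))).trans ?_)
  rw [sum_const, card_univ, Fintype.card_fun, Fintype.card_fin, Fintype.card_fin, nsmul_eq_mul,
    abs_of_pos hW]
  have : (2 ^ L / 2) ^ d * (c * (2 ^ d * (cW d c0 + 1) * C * B ^ (3 / 2 : ℝ) * √(∑ a ∈ s, u a ^ 2 / σ a) * √(∑ a ∈ s, v a ^ 2 / w a))) =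
      (2 ^ L) ^ d * ((cW d c0 + 1) * c * Z) := by
    rw [hZ, div_pow]; field_simp
  rw [this]
  push_cast
  gcongr
  linarith

theorem latticeS (d : ℕ) (hd : 1 ≤ d) (hS : SeegerStmt d) : LatticeStmtS d := by
  obtain ⟨η, c0, c1, hc1, nη, hK⟩ := kernels d hS
  obtain ⟨C, hC0, hC⟩ := famS d c0
  refine ⟨5 * c1 * C, by positivity, ?_⟩
  intro k M k1 k2 k3 k4 σ w B hσ hw hσw hB j0 j1 s u v hu hv
  obtain ⟨P1, P2⟩ := hK k M k1 k2 k3 k4
  have hC' := fun c b0 β A h hc J => hC c b0 β A h hc σ w B hσ hw hσw hB J s u v hu hv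
  set Z := C * B ^ (3 / 2 : ℝ) * √(∑ a ∈ s, u a ^ 2 / σ a) *
    √(∑ a ∈ s, v a ^ 2 / w a) with hZ
  have hB0 := zero_le_one.trans (one_le_of_lat hσw hB)
  have hZ0 : 0 ≤ Z := by positivity
  refine le_of_le_of_eq (b := 5 * (c1 * M * Z)) ?_ (by rw [hZ]; ring)
  rcases ((abs_nonneg _).trans (k2 0)).eq_or_lt with hM | hM
  · have : k = fun _ => 0 := funext fun y => abs_nonpos_iff.1 ((k2 y).trans hM.ge)
    simp [this, Ksum, Kr, dil, ← hM]
  set K := dil (aa d) k with hKd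
  have nK : Nice K := P1.nA
  have nf := nice_stp hu
  have ng := nice_stp hv
  have p2 : ∀ j : ℕ, (0 : ℝ) < 2 ^ j := fun j => by positivity
  set T : ℕ → (Eu d → ℝ) → ℝ := fun j h => ∫ x, cv (Dl (2 ^ j) K) h x * stp v x with hT
  set hh : ℕ → Eu d → ℝ := fun j => cv (Dl (2 ^ j) η) (cv (Dl (2 ^ j) η) (stp u)) with hhh
  have nD := fun j => nη.Dl (p2 j)
  have nh : ∀ j, Nice (hh j) := fun j => (nD j).cv ((nD j).cv nf)
  have Tsub : ∀ j {f g : Eu d → ℝ}, Nice f → Nice g →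
      T j (fun z => 1 * f z + (-1) * g z) = T j f - T j g := fun j f g hf hg => by
    simp only [hT, cv_lin (nK.Dl (p2 j)) hf hg]
    rw [← integral_sub (((nK.Dl (p2 j)).cv hf).mul ng).integrable
      (((nK.Dl (p2 j)).cv hg).mul ng).integrable]
    congr 1; funext x; ring
  have e0 : ∫ x, (∫ y, Ksum k j0 j1 y * stp u (x - y)) * stp v x = ∑ j ∈ Ico j0 j1, T j (stp u) := by
    rw [← integral_finsetSum _ fun j _ => (((nK.Dl (p2 j)).cv nf).mul ng).integrable]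
    congr 1; funext x
    rw [← sum_mul, sum_congr rfl fun j _ => congrFun (cv_comm _ _) x,
      ← cv_sum _ nf fun j => nK.Dl (p2 j), cv_comm]
    rfl
  have e1 : |∑ j ∈ Ico j0 j1, (T j (stp u) - T j (hh j))| ≤ c1 * M * Z := by
    refine le_of_eq_of_le (congrArg _ (sum_congr rfl fun j _ => ?_))
      (hC' _ _ _ _ P1 (by positivity) (Ico j0 j1))
    have e : Dl (2 ^ j) (fun z => (-1) * cv η η z) =
        fun z => (-1) * cv (Dl (2 ^ j) η) (Dl (2 ^ j) η) z := by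
      funext z; rw [← Dl_cv (p2 j)]; simp only [Dl]; ring
    rw [← Tsub j nf (nh j), e]
    refine congrArg (T j) (funext fun z => ?_)
    rw [cv_comm _ (stp u), cv_cmul, cv_comm (stp u), cv_assoc (nD j) (nD j) nf]
  have e2 : ∀ m : ℕ, |∑ j ∈ Ico j0 j1, (T j (hh (j + m)) - T j (hh (j + (m + 1))))| ≤
      c1 * M * (3 / 4) ^ m * Z := fun m => by
    refine le_of_eq_of_le (congrArg _ ?_) (hC' _ _ _ _ (P2 m) (by positivity)
      (Ico (j0 + m) (j1 + m)))
    rw [← sum_Ico_add']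
    refine sum_congr rfl fun j _ => ?_
    have e : ∀ b, Dl (2 ^ (j + m)) (lc b η) =
        fun z => 1 * Dl (2 ^ (j + m)) η z + b * Dl (2 ^ (j + (m + 1))) η z := fun b => by
      funext z
      rw [← add_assoc, pow_succ, ← Dl_Dl]
      simp only [Dl, lc]; ring
    have n1 := nD (j + m)
    have n2 := nD (j + (m + 1))
    have n3 := fun b => (n1.cmul 1).add (n2.cmul b)
    rw [← Tsub j (nh _) (nh _), Dl_cv (p2 _), Dl_Dl, e, e, pow_add, mul_inv_cancel_right₀ (p2 m).ne',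
      ← pow_add, cv_assoc (nK.Dl (p2 j)) (n3 1) ((nf.cmul 0).add ((n3 (-1)).cv nf))]
    refine congrArg (T j) (funext fun z => ?_)
    simp only [zero_mul, zero_add, hhh]
    rw [funext (cv_lin' nf n1 n2 1 (-1)), cv_lin (n3 1) (n1.cv nf) (n2.cv nf),
      cv_lin' (n1.cv nf) n1 n2, cv_lin' (n2.cv nf) n1 n2, ← cv_assoc n1 n2 nf, ← cv_assoc n2 n1 nf,
      cv_comm (Dl (2 ^ (j + m)) η) (Dl (2 ^ (j + (m + 1))) η)]
    ring
  obtain ⟨b, hb⟩ := nη.bdd
  set R := (∫ y, |stp v y|) * ((∫ y, |K y|) * ((∫ y, |η y|) * ((∫ y, |stp u y|) * b))) with hR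
  have e3 : ∀ N j : ℕ, |T j (hh (j + N))| ≤ R * (1 / 2) ^ N := fun N j => by
    have a1 : ∀ y, |Dl (2 ^ (j + N)) η y| ≤ b * (1 / 2) ^ N := fun y => by
      rw [Dl, abs_mul, mul_comm, abs_of_pos (by positivity : (0 : ℝ) < ((2 ^ (j + N)) ^ d)⁻¹)]
      refine mul_le_mul (hb _) ?_ (by positivity) ((abs_nonneg _).trans (hb 0))
      rw [one_div, inv_pow, ← pow_mul]
      exact inv_anti₀ (p2 N) (pow_le_pow_right₀ one_le_two (by nlinarith))
    simp only [hT, mul_comm _ (stp v _)]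
    refine (int_mul_le ng.integrable (abs_cv_le (nK.Dl (p2 j)) (abs_cv_le (nD _)
      (abs_cv_le' nf a1)))).trans (le_of_eq ?_)
    rw [int_abs_Dl (p2 _), int_abs_Dl (p2 _), hR]; ring
  have e4 : ∀ N : ℕ, |∑ j ∈ Ico j0 j1, T j (stp u)| ≤
      5 * (c1 * M * Z) + (Ico j0 j1).card * R * (1 / 2) ^ N := fun N => by
    have a1 : ∑ j ∈ Ico j0 j1, T j (stp u) = ∑ j ∈ Ico j0 j1, (T j (stp u) - T j (hh j)) +
        ∑ m ∈ range N, ∑ j ∈ Ico j0 j1, (T j (hh (j + m)) - T j (hh (j + (m + 1)))) +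
        ∑ j ∈ Ico j0 j1, T j (hh (j + N)) := by
      rw [sum_comm, ← sum_add_distrib, ← sum_add_distrib]
      refine sum_congr rfl fun j _ => ?_
      rw [sum_range_sub' fun m => T j (hh (j + m)), add_zero]; ring
    have a2 := (abs_sum_le_sum_abs _ _).trans (sum_le_sum fun m (_ : m ∈ range N) => e2 m)
    have a3 := (abs_sum_le_sum_abs _ _).trans (sum_le_sum fun j (_ : j ∈ Ico j0 j1) => e3 N j)
    have a4 := geo_le (η := 3 / 4) (by norm_num) (by norm_num) 0 N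
    rw [← sum_mul, ← mul_sum, range_eq_Ico] at a2
    rw [sum_const, nsmul_eq_mul, ← mul_assoc] at a3
    have a5 := mul_le_mul_of_nonneg_right (mul_le_mul_of_nonneg_left a4
      (by positivity : 0 ≤ c1 * M)) hZ0
    rw [a1, range_eq_Ico]
    refine (abs_add_three _ _ _).trans ?_
    rw [pow_zero, show (1 : ℝ) / (1 - 3 / 4) = 4 by norm_num] at a5
    linarith
  rw [e0]
  have lim := (tendsto_pow_atTop_nhds_zero_of_lt_one (r := (1 / 2 : ℝ)) (by norm_num)
    (by norm_num)).const_mul (((Ico j0 j1).card : ℝ) * R) |>.const_add (5 * (c1 * M * Z))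
  rw [mul_zero, add_zero] at lim
  exact ge_of_tendsto' lim e4

theorem finalS (d : ℕ) (hd : 1 ≤ d) : FinalStmtS d :=
  final_of_latticeS d hd (latticeS d hd (seeger d hd))

end Pool.Agent.P.MP_70f35d_an
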