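import Pool.Agent.P.MP_70f35d_an.SBot

set_option autoImplicit false
open Finset

namespace Pool.Agent.P.MP_70f35d_an

variable {X : Type} [Fintype X]

lemma sum_I_pow (J : Finset ℕ) (j : ℕ) : ∑ k ∈ J, I (k < j) * (2 : ℝ) ^ k ≤ 2 ^ j := by
  refine (sum_I_le (u := range j) (fun _ => by positivity) fun t _ h => mem_range.2 h).trans ?_
  rw [geom_sum_eq (by norm_num)]; linarith

namespace Cor

variable (S : Cor X)

structure Cls (c N : ℕ) (M : ℝ) (J : Finset ℕ) (B : ℕ × ℕ → X → ℝ) : Prop where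
  hc : 1 ≤ c
  hN : ∀ j ∈ J, c * 2 ^ j ≤ N
  hM : ∑ j ∈ J, (2 : ℝ) ^ j ≤ M
  hM' : ∀ j ∈ J, M ≤ 2 ^ j * 2 ^ 2 ^ j
  B0 : ∀ i x, 0 ≤ B i x
  B1 : ∀ t x, ∑ j ∈ J, B (t, j) x ≤ 1
  Bg : ∀ t x, ∑ j ∈ J, 2 ^ j * B (t, j) x ≤ (S.g (t + N) x : ℝ) - S.g t x

noncomputable def Q (B : ℕ × ℕ → X → ℝ) (i : ℕ × ℕ) : X → ℝ :=
  E (S.P i.1) fun y => B i y * S.w y

noncomputable def Gm (c : ℕ) (i : ℕ × ℕ) : X → ℝ := S.Γ (2 ^ i.2) (c * 2 ^ i.2) i.1

noncomputable def Xq (c : ℕ) (B : ℕ × ℕ → X → ℝ) (i : ℕ × ℕ) (y : X) : ℝ := S.Q B i y * S.Gm c i y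

lemma Q_meas (B : ℕ × ℕ → X → ℝ) (i : ℕ × ℕ) : Meas (S.P i.1) (S.Q B i) := E_meas _ _

lemma Gm_nonneg (c : ℕ) (i : ℕ × ℕ) (y : X) : 0 ≤ S.Gm c i y := I_nonneg _
lemma Gm_le_one (c : ℕ) (i : ℕ × ℕ) (y : X) : S.Gm c i y ≤ 1 := I_le_one _

lemma bel (c j r n : ℕ) (x : X) : E (S.P r) (fun y => ∑ t ∈ Ico r n,
    E (S.P t) (fun y => S.Gm c (t, j) y * S.σ y) y * E (S.P t) S.w y) x ≤
      16 * c * S.A * 2 ^ j := by
  have := S.bellman (c := c) (l := 2 ^ j) (N := c * 2 ^ j) Nat.one_le_two_pow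
    (by push_cast; exact le_rfl) r n x
  push_cast at this
  exact this

variable {S} {c N : ℕ} {M : ℝ} {J : Finset ℕ} {B : ℕ × ℕ → X → ℝ}

lemma Cls.Q0 (h : S.Cls c N M J B) (i : ℕ × ℕ) (x : X) : 0 ≤ S.Q B i x :=
  E_nonneg fun y => mul_nonneg (h.B0 i y) (S.hw y).le

lemma Cls.X0 (h : S.Cls c N M J B) (i : ℕ × ℕ) (x : X) : 0 ≤ S.Xq c B i x :=
  mul_nonneg (h.Q0 i x) (S.Gm_nonneg c i x)

lemma Cls.X_le (h : S.Cls c N M J B) (i : ℕ × ℕ) (x : X) : S.Xq c B i x ≤ S.Q B i x :=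
  mul_le_of_le_one_right (h.Q0 i x) (S.Gm_le_one c i x)

lemma Cls.Q_sum (h : S.Cls c N M J B) (t : ℕ) (x : X) :
    ∑ j ∈ J, S.Q B (t, j) x ≤ E (S.P t) S.w x := by
  simp only [Q]
  rw [← E_sum]
  refine E_mono fun y _ => ?_
  rw [← sum_mul]
  exact mul_le_of_le_one_left (S.hw y).le (h.B1 t y)

lemma Cls.Q_le (h : S.Cls c N M J B) (t : ℕ) {j : ℕ} (hj : j ∈ J) (x : X) :
    S.Q B (t, j) x ≤ E (S.P t) S.w x :=
  (single_le_sum (f := fun j => S.Q B (t, j) x) (fun _ _ => h.Q0 _ x) hj).trans (h.Q_sum t x)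

lemma Cls.M0 (h : S.Cls c N M J B) : 0 ≤ M := (sum_nonneg fun _ _ => by positivity).trans h.hM

lemma Cls.carlH (h : S.Cls c N M J B) (r n : ℕ) (x : X) :
    E (S.P r) (fun y => ∑ i ∈ Ico r n ×ˢ J, 2 ^ i.2 * S.Q B i y) x ≤
      4 * S.A * N * E (S.P r) S.w x := by
  have hA := S.hA1
  have hw := (E_pos (P := S.P r) (x := x) S.hw).le
  rcases le_or_gt n r with hr | hr
  · simp only [Ico_eq_empty_of_le hr, empty_product, sum_empty, E_const]; positivity
  have h1 := S.swap.good_σ.cnt (by change 0 ≤ 1 / (4 * S.A); positivity)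
    (show r ≤ n + N by omega) x
  change 1 / (4 * S.A) * E (S.P r) (fun y => ((S.g (n + N) y : ℝ) - S.g r y) * S.w y) x ≤
    E (S.P r) S.w x at h1
  rw [one_div, inv_mul_le_iff₀ (by positivity)] at h1
  calc _ = E (S.P r) (fun y => ∑ i ∈ Ico r n ×ˢ J, 2 ^ i.2 * (B i y * S.w y)) x := by
        rw [E_sum, E_sum]
        refine sum_congr rfl fun i hi => ?_
        rw [E_cmul, E_cmul, Q, S.hP.E_E (mem_Ico.1 (mem_product.1 hi).1).1]
    _ ≤ E (S.P r) (fun y => N * (((S.g (n + N) y : ℝ) - S.g r y) * S.w y)) x := by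
        refine E_mono fun y _ => ?_
        simp only [← mul_assoc]
        rw [← sum_mul, sum_product]
        refine mul_le_mul_of_nonneg_right ((sum_le_sum fun t _ => h.Bg t y).trans ?_) (S.hw y).le
        have h2 := window_sum (c := fun q => (S.g q y : ℝ) - S.g r y) (p := r) (n := n) (s := N)
          (K := (S.g (n + N) y : ℝ) - S.g r y)
          (sub_nonneg.2 (by exact_mod_cast S.g_mono y (by omega)))
          (fun q hq => sub_nonneg.2 (by exact_mod_cast S.g_mono y hq))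
          (fun q _ hq => sub_le_sub_right (by exact_mod_cast S.g_mono y hq) _)
        simpa only [sub_sub_sub_cancel_right] using h2
    _ ≤ _ := by
        rw [E_cmul]
        nlinarith [mul_le_mul_of_nonneg_left h1 (Nat.cast_nonneg N)]

lemma Cls.belQ (h : S.Cls c N M J B) (p : ℕ → Prop) (r s n : ℕ) (x : X) :
    E (S.P s) (fun y => ∑ k ∈ Ico r n ×ˢ J, I (s ≤ k.1 ∧ p k.2) * (S.Xq c B k y * S.σ y)) x ≤
      16 * c * S.A * ∑ j ∈ J, I (p j) * 2 ^ j := by
  calc _ ≤ E (S.P s) (fun y => ∑ j ∈ J, I (p j) * ∑ t ∈ Ico s n,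
          E (S.P t) S.w y * (S.Gm c (t, j) y * S.σ y)) x := by
        refine E_mono fun y _ => ?_
        rw [sum_product, sum_comm]
        refine sum_le_sum fun j hj => ?_
        have hz : ∀ t, 0 ≤ E (S.P t) S.w y * (S.Gm c (t, j) y * S.σ y) := fun t =>
          mul_nonneg (E_pos S.hw).le (mul_nonneg (S.Gm_nonneg _ _ _) (S.hσ y).le)
        by_cases hp : p j
        · rw [I_of hp, one_mul]
          refine le_trans (sum_le_sum fun t _ => ?_) (sum_I_le (s := Ico r n) (p := fun t => s ≤ t)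
            hz fun t ht h' => mem_Ico.2 ⟨h', (mem_Ico.1 ht).2⟩)
          refine mul_le_mul (I_mono fun h => h.1) ?_ (mul_nonneg (h.X0 _ y) (S.hσ y).le) (I_nonneg _)
          rw [Xq, mul_assoc]
          exact mul_le_mul_of_nonneg_right (h.Q_le t hj y)
            (mul_nonneg (S.Gm_nonneg _ _ _) (S.hσ y).le)
        · rw [I_not hp, zero_mul]
          exact le_of_eq (sum_eq_zero fun t _ => by rw [I_not fun h => hp h.2, zero_mul])
    _ ≤ _ := by
        rw [E_sum, mul_sum]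
        refine sum_le_sum fun j _ => ?_
        rw [E_cmul, mul_left_comm]
        refine mul_le_mul_of_nonneg_left (le_trans (le_of_eq ?_) (S.bel c j s n x)) (I_nonneg _)
        rw [E_sum, E_sum]
        refine sum_congr rfl fun t ht => ?_
        rw [← S.hP.E_mul_E (mem_Ico.1 ht).1 (E_meas _ _)]
        exact E_congr fun y _ => mul_comm _ _

lemma Cls.low (h : S.Cls c N M J B) {Y : ℕ → X → ℝ} (hY : ∀ t, Meas (S.P t) (Y t))
    (hY0 : ∀ t y, 0 ≤ Y t y) (r n : ℕ) (x : X) :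
    E (S.P r) (fun y => ∑ i ∈ Ico r n ×ˢ J, ∑ k ∈ Ico r n ×ˢ J, I (i.1 ≤ k.1 ∧ k.2 < i.2) *
      (Y i.1 y * S.Xq c B i y * S.Xq c B k y) * S.σ y) x ≤
      16 * c * S.A * E (S.P r) (fun y => ∑ i ∈ Ico r n ×ˢ J, 2 ^ i.2 * S.Q B i y * Y i.1 y) x := by
  have hA := S.hA1
  rw [E_sum, E_sum, mul_sum]
  refine sum_le_sum fun i hi => ?_
  have hr := (mem_Ico.1 (mem_product.1 hi).1).1
  calc _ ≤ E (S.P r) (fun y => Y i.1 y * S.Q B i y * ∑ k ∈ Ico r n ×ˢ J,
          I (i.1 ≤ k.1 ∧ k.2 < i.2) * (S.Xq c B k y * S.σ y)) x := by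
        refine E_mono fun y _ => ?_
        rw [mul_sum]
        refine sum_le_sum fun k _ => ?_
        have := mul_le_mul_of_nonneg_left (h.X_le i y) (mul_nonneg (mul_nonneg (hY0 i.1 y)
          (I_nonneg (i.1 ≤ k.1 ∧ k.2 < i.2))) (mul_nonneg (h.X0 k y) (S.hσ y).le))
        linarith
    _ ≤ _ := by
        rw [← S.hP.E_mul_E hr (φ := fun y => Y i.1 y * S.Q B i y) fun x y hxy => by
          simp only [hY _ x y hxy, S.Q_meas B i x y hxy], ← E_cmul]
        refine E_mono fun y _ => ?_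
        have h1 := (h.belQ (fun j => j < i.2) r i.1 n y).trans
          (mul_le_mul_of_nonneg_left (sum_I_pow J i.2) (by positivity))
        have := mul_le_mul_of_nonneg_left h1 (mul_nonneg (hY0 i.1 y) (h.Q0 i y))
        linarith

lemma Cls.far (h : S.Cls c N M J B) (r n : ℕ) (x : X) :
    E (S.P r) (fun y => ∑ i ∈ Ico r n ×ˢ J, ∑ k ∈ Ico r n ×ˢ J, I (i.1 + c * 2 ^ i.2 ≤ k.1) *
      (S.Xq c B i y * S.Xq c B k y) * S.σ y) x ≤
      32 * c * S.A * E (S.P r) (fun y => ∑ i ∈ Ico r n ×ˢ J, 2 ^ i.2 * S.Q B i y) x := by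
  have hA := S.hA1
  have hM := h.M0
  rw [E_sum, E_sum, mul_sum]
  refine sum_le_sum fun i hi => ?_
  have hr := (mem_Ico.1 (mem_product.1 hi).1).1
  have hm : Meas (S.P (i.1 + c * 2 ^ i.2)) (S.Xq c B i) := fun x y hxy => by
    simp only [Xq, Gm, S.Γ_meas _ _ _ x y hxy,
      S.Q_meas B i x y (S.hP.mono (Nat.le_add_right _ _) hxy)]
  calc _ = E (S.P r) (fun y => S.Xq c B i y * ∑ k ∈ Ico r n ×ˢ J,
          I (i.1 + c * 2 ^ i.2 ≤ k.1 ∧ True) * (S.Xq c B k y * S.σ y)) x := by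
        refine E_congr fun y _ => ?_
        rw [mul_sum]
        exact sum_congr rfl fun k _ => by rw [and_true]; ring
    _ ≤ E (S.P r) (fun y => 16 * c * S.A * M * (S.Q B i y * S.Gm c i y)) x := by
        rw [← S.hP.E_mul_E (hr.trans (Nat.le_add_right _ _)) hm]
        refine E_mono fun y _ => ?_
        have h1 := h.belQ (fun _ => True) r (i.1 + c * 2 ^ i.2) n y
        simp only [I_of trivial, one_mul] at h1
        have h2 := h1.trans (mul_le_mul_of_nonneg_left h.hM (by positivity))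
        have := mul_le_mul_of_nonneg_left h2 (h.X0 i y)
        simp only [Xq] at this ⊢
        linarith
    _ ≤ _ := by
        rw [E_cmul, ← S.hP.E_mul_E hr (S.Q_meas B i), ← E_cmul, ← E_cmul]
        refine E_mono fun y _ => ?_
        have hk : 2 ^ i.2 - 1 + 1 = 2 ^ i.2 := Nat.sub_add_cancel Nat.one_le_two_pow
        have h1 := S.good_one.decay (by norm_num) (Nat.le_add_right i.1 (c * 2 ^ i.2))
          (2 ^ i.2 - 1) y
        simp only [add_assoc, hk, mul_one, E_const] at h1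
        change E (S.P i.1) (S.Gm c i) y ≤ _ at h1
        have h2 : M * (1 - 1 / 2) ^ (2 ^ i.2 - 1) ≤ 2 * 2 ^ i.2 := by
          refine (mul_le_mul_of_nonneg_right (h.hM' _ (mem_product.1 hi).2) (by positivity)).trans
            (le_of_eq ?_)
          generalize 2 ^ i.2 - 1 = k at hk
          rw [← hk, pow_succ, mul_assoc, mul_right_comm, ← mul_pow]
          norm_num; ring
        have h3 := (mul_le_mul_of_nonneg_left h1 hM).trans h2
        have := mul_le_mul_of_nonneg_left h3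
          (mul_nonneg (by positivity : 0 ≤ 16 * c * S.A) (h.Q0 i y))
        linarith

lemma Cls.nearE (h : S.Cls c N M J B) {Y : ℕ → X → ℝ} (hY : ∀ t, Meas (S.P t) (Y t))
    (r n : ℕ) (x : X) :
    E (S.P r) (fun y => ∑ i ∈ Ico r n ×ˢ J, ∑ k ∈ Ico r n ×ˢ J,
      I (i.1 ≤ k.1 ∧ k.1 < i.1 + c * 2 ^ i.2 ∧ i.2 ≤ k.2) *
      (Y i.1 y * S.Xq c B i y * (Y k.1 y * S.Xq c B k y)) * S.σ y) x ≤
      c * S.A * E (S.P r) (fun y => ∑ i ∈ Ico r n ×ˢ J, 2 ^ i.2 * S.Q B i y * Y i.1 y ^ 2) x := by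
  have hw : ∀ t y, 0 < E (S.P t) S.w y := fun t y => E_pos S.hw
  calc _ ≤ E (S.P r) (fun y => ∑ i ∈ Ico r n ×ˢ J, c * (2 ^ i.2 * S.Q B i y * Y i.1 y ^ 2 *
          E (S.P i.1) S.w y) * S.σ y) x := by
        refine E_mono fun y _ => ?_
        have h1 := near_am (T := Ico r n) (J := J) (c := c)
          (q := fun i => S.Q B i y / E (S.P i.1) S.w y)
          (y := fun i => Y i.1 y * E (S.P i.1) S.w y * S.Gm c i y)
          (fun i => div_nonneg (h.Q0 i y) (hw _ y).le) fun t => by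
            dsimp only
            rw [← sum_div, div_le_one (hw t y)]; exact h.Q_sum t y
        simp only [← sum_mul]
        refine mul_le_mul_of_nonneg_right (le_trans (le_of_eq ?_) (h1.trans ?_)) (S.hσ y).le
        · refine sum_congr rfl fun i _ => sum_congr rfl fun k _ => ?_
          have := (hw i.1 y).ne'
          have := (hw k.1 y).ne'
          simp only [Xq]; field_simp
        · rw [mul_sum]
          refine sum_le_sum fun i _ => mul_le_mul_of_nonneg_left ?_ (Nat.cast_nonneg c)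
          have h2 : S.Gm c i y ^ 2 ≤ 1 := pow_le_one₀ (S.Gm_nonneg _ _ _) (S.Gm_le_one _ _ _)
          have h3 := hw i.1 y
          have h4 := h.Q0 i y
          calc _ = 2 ^ i.2 * S.Q B i y * Y i.1 y ^ 2 * E (S.P i.1) S.w y * S.Gm c i y ^ 2 := by
                field_simp
            _ ≤ _ := mul_le_of_le_one_right (by positivity) h2
    _ ≤ _ := by
        rw [E_sum, E_sum, mul_sum]
        refine sum_le_sum fun i hi => ?_
        rw [← S.hP.E_mul_E (mem_Ico.1 (mem_product.1 hi).1).1 fun x y hxy => by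
          simp only [hY _ x y hxy, S.Q_meas B i x y hxy, E_meas _ _ x y hxy], ← E_cmul]
        refine E_mono fun y _ => ?_
        have h4 := h.Q0 i y
        have := mul_le_mul_of_nonneg_left (S.hA i.1 y)
          (by positivity : 0 ≤ c * (2 ^ i.2 * S.Q B i y * Y i.1 y ^ 2))
        linarith

lemma Cls.T2 (h : S.Cls c N M J B) (r n : ℕ) (x : X) :
    E (S.P r) (fun y => S.σ y * (∑ i ∈ Ico r n ×ˢ J, S.Xq c B i y) ^ 2) x ≤
      392 * c * S.A ^ 2 * N * E (S.P r) S.w x := by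
  have hA := S.hA1
  have h1 := h.nearE (Y := fun _ _ => 1) (fun _ _ _ _ => rfl) r n x
  have h2 := h.low (Y := fun _ _ => 1) (fun _ _ _ _ => rfl) (fun _ _ => zero_le_one) r n x
  have h3 := h.far r n x
  simp only [one_mul, mul_one, one_pow] at h1 h2
  have h4 := mul_le_mul_of_nonneg_left (h.carlH r n x) (by positivity : 0 ≤ 98 * c * S.A)
  refine le_trans ?_ (le_trans (b := 2 * (_ + _ + _)) (mul_le_mul_of_nonneg_left
    (add_le_add (add_le_add h1 h2) h3) zero_le_two) (by linarith))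
  rw [← E_add, ← E_add, ← E_cmul]
  refine E_mono fun y _ => ?_
  refine (mul_le_mul_of_nonneg_left (sq_le_two _ Prod.fst fun i _ => h.X0 i y) (S.hσ y).le).trans ?_
  rw [mul_left_comm, mul_sum]
  simp only [← sum_add_distrib]
  refine mul_le_mul_of_nonneg_left (sum_le_sum fun i _ => ?_) zero_le_two
  rw [mul_sum]
  refine sum_le_sum fun k _ => ?_
  have a : I (i.1 ≤ k.1) ≤ I (i.1 ≤ k.1 ∧ k.1 < i.1 + c * 2 ^ i.2 ∧ i.2 ≤ k.2) +
      I (i.1 ≤ k.1 ∧ k.2 < i.2) + I (i.1 + c * 2 ^ i.2 ≤ k.1) := by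
    have a1 := I_nonneg (i.1 ≤ k.1 ∧ k.1 < i.1 + c * 2 ^ i.2 ∧ i.2 ≤ k.2)
    have a2 := I_nonneg (i.1 ≤ k.1 ∧ k.2 < i.2)
    have a3 := I_nonneg (i.1 + c * 2 ^ i.2 ≤ k.1)
    by_cases b1 : i.1 + c * 2 ^ i.2 ≤ k.1
    · linarith [I_mono (p := i.1 ≤ k.1) fun _ => b1]
    by_cases b2 : k.2 < i.2
    · linarith [I_mono (p := i.1 ≤ k.1) fun h => (⟨h, b2⟩ : i.1 ≤ k.1 ∧ k.2 < i.2)]
    · linarith [I_mono (p := i.1 ≤ k.1) fun h =>
        (⟨h, by omega, by omega⟩ : i.1 ≤ k.1 ∧ k.1 < i.1 + c * 2 ^ i.2 ∧ i.2 ≤ k.2)]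
  have := mul_le_mul_of_nonneg_right a (mul_nonneg (mul_nonneg (h.X0 i y) (h.X0 k y)) (S.hσ y).le)
  linarith

noncomputable def tau (S : Cor X) (c : ℕ) (J : Finset ℕ) (B : ℕ × ℕ → X → ℝ) (t : ℕ) (x : X) : ℝ :=
  ∑ j ∈ J, E (S.P t) (fun y => S.Gm c (t, j) y * S.σ y) x * S.Q B (t, j) x

lemma tau_meas (t : ℕ) : Meas (S.P t) (S.tau c J B t) := fun x y hxy => by
  simp only [tau, E_meas _ _ x y hxy, fun j => S.Q_meas B (t, j) x y hxy]

lemma Cls.tau0 (h : S.Cls c N M J B) (t : ℕ) (x : X) : 0 ≤ S.tau c J B t x :=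
  sum_nonneg fun _ _ => mul_nonneg (S.EΓ_nonneg _ _ _ _) (h.Q0 _ x)

lemma Cls.T1 (h : S.Cls c N M J B) {r n : ℕ} (hr : r < n) (x : X) :
    E (S.P r) (fun y => S.w y * (∑ t ∈ Ico r n, S.tau c J B t y / E (S.P t) S.w y) ^ 2) x ≤
      2 * (16 * c * S.A * M) * (4 * S.A * c) * E (S.P r) S.σ x := by
  have hA := S.hA1
  have hM := h.M0
  set p : ℕ → X → Prop := fun t y => ∃ j ∈ J, S.g t y + 2 ^ j ≤ S.g (t + c * 2 ^ j) y with hp
  refine testing S.hP (j := fun t y => I (p t y) * S.σ y) S.hw tau_meas h.tau0 (by positivity)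
    (fun t x => ?_) (fun t x => ?_) r x ?_
  · calc _ ≤ E (S.P t) (fun y => ∑ j ∈ J, ∑ t' ∈ Ico t n,
          E (S.P t') (fun y => S.Gm c (t', j) y * S.σ y) y * E (S.P t') S.w y) x := by
          refine E_mono fun y _ => ?_
          rw [sum_comm]
          exact sum_le_sum fun t' _ => sum_le_sum fun j hj =>
            mul_le_mul_of_nonneg_left (h.Q_le t' hj y) (S.EΓ_nonneg _ _ _ _)
      _ ≤ _ := by
          rw [E_sum]
          refine (sum_le_sum fun j _ => S.bel c j t n x).trans ?_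
          rw [← mul_sum]
          exact mul_le_mul_of_nonneg_left h.hM (by positivity)
  · rw [div_le_iff₀ (E_pos S.hw)]
    refine le_trans ?_ (mul_le_mul_of_nonneg_left (h.Q_sum t x)
      (E_nonneg fun y => mul_nonneg (I_nonneg _) (S.hσ y).le))
    rw [mul_sum]
    exact sum_le_sum fun j hj => mul_le_mul_of_nonneg_right (E_mono fun y _ =>
      mul_le_mul_of_nonneg_right (I_mono fun h' => ⟨j, hj, h'⟩) (S.hσ y).le) (h.Q0 _ x)
  · have h1 := S.good_σ.cnt (by positivity) (show r ≤ n + N by omega) x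
    rw [one_div, inv_mul_le_iff₀ (by positivity)] at h1
    refine le_trans ?_ ((mul_le_mul_of_nonneg_left h1 (Nat.cast_nonneg c)).trans_eq (by ring))
    rw [← E_cmul]
    refine E_mono fun y _ => ?_
    rw [← sum_mul, ← mul_assoc]
    refine mul_le_mul_of_nonneg_right (rising (g := fun q => S.g q y) (fun a b hab => S.g_mono y hab)
      (fun t ht => ?_) r (by omega)) (S.hσ y).le
    obtain ⟨j, hj, h'⟩ := ht
    exact ⟨2 ^ j, Nat.mul_pos h.hc (Nat.two_pow_pos j), h.hN j hj, h'⟩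

lemma Cls.oldold (h : S.Cls c N M J B) (n : ℕ) :
    ∑ t ∈ range n, ∑ x, S.tau c J B t x * (S.Fs t x * S.swap.Fs t x) ≤
      √(4 * (392 * c * S.A ^ 2 * N * 4)) + √(2 * (16 * c * S.A * M) * (4 * S.A * c) * 4 * 4) := by
  have hA := S.hA1
  have hM := h.M0
  have a1 := half S.hP (Ψ := fun r y => ∑ i ∈ Ico r n ×ˢ J, S.Xq c B i y) (F := S.Fs)
    (G := S.swap.Fs) (n := n) (fun x => (S.hσ x).le) (fun x => (S.hw x).le) (by positivity)
    (fun r y => sum_nonneg fun i _ => h.X0 i y)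
    (fun y p r hpr => sum_le_sum_of_subset_of_nonneg
      (product_subset_product_left (Ico_subset_Ico_left hpr)) fun i _ _ => h.X0 i y)
    (S.Fs_nonneg 0) S.Fs_mono S.swap.Fs_meas (S.swap.Fs_nonneg 0) S.swap.Fs_mono
    (fun r _ x => h.T2 r n x) (S.nFs n) (S.swap.nFs n)
  have a2 := sawyer_half S.hP (F := S.swap.Fs) (G := S.Fs) (G' := pre S.Fs) (n := n) S.hw S.hσ
    (by positivity) tau_meas h.tau0 S.swap.Fs_meas (S.swap.Fs_nonneg 0) S.swap.Fs_mono
    S.Fs_meas (S.Fs_nonneg 0) S.Fs_mono (pre_meas S.hP S.Fs_meas)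
    (fun q x => pre_nonneg (S.Fs_nonneg 0 x) (S.Fs_mono x) q)
    (fun q x => pre_le (S.Fs_nonneg 0 x) (S.Fs_mono x) q) fun r hr x => h.T1 hr x
  have a3 := a2.trans (Real.sqrt_le_sqrt (show _ ≤ 2 * (16 * c * S.A * M) * (4 * S.A * c) * 4 * 4
    from mul_le_mul (mul_le_mul_of_nonneg_left (S.swap.nFs n) (by positivity)) (S.nFs n)
      (sum_nonneg fun x _ => mul_nonneg (S.hσ x).le (sq_nonneg _)) (by positivity)))
  refine le_trans (le_of_eq ?_) (add_le_add a1 a3)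
  have e : ∀ r ∈ range n, ∑ x, (S.Fs r x - pre S.Fs r x) * S.swap.Fs r x *
      (S.σ x * ∑ i ∈ Ico r n ×ˢ J, S.Xq c B i x) = ∑ x, (S.Fs r x - pre S.Fs r x) * S.swap.Fs r x *
        ∑ t ∈ Ico r n, S.tau c J B t x := by
    intro r _
    have e0 : ∀ x, ∑ t ∈ Ico r n, S.tau c J B t x = ∑ i ∈ Ico r n ×ˢ J,
        E (S.P i.1) (fun y => S.Gm c i y * S.σ y) x * S.Q B i x := fun x => by
      rw [sum_product]; rfl
    simp only [e0, mul_sum]
    rw [sum_comm, sum_comm (s := univ)]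
    refine sum_congr rfl fun i hi => ?_
    have hr := (mem_Ico.1 (mem_product.1 hi).1).1
    have := sum_mul_E (P := S.P i.1)
      (φ := fun x => (S.Fs r x - pre S.Fs r x) * S.swap.Fs r x * S.Q B i x) (fun x y hxy => by
        have h' := S.hP.mono hr hxy
        simp only [S.Fs_meas r x y h', pre_meas S.hP S.Fs_meas r x y h', S.swap.Fs_meas r x y h',
          S.Q_meas B i x y hxy]) fun y => S.Gm c i y * S.σ y
    refine Eq.trans (sum_congr rfl fun x _ => ?_)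
      (this.symm.trans (sum_congr rfl fun x _ => by ring))
    simp only [Xq]; ring
  rw [sum_congr rfl e, sum_comm]
  simp only [abel (S.tau c J B) fun t x => S.Fs t x * S.swap.Fs t x]
  rw [sum_comm, ← sum_add_distrib]
  refine sum_congr rfl fun r _ => ?_
  rw [← sum_add_distrib]
  refine sum_congr rfl fun x _ => ?_
  cases r <;> simp only [pre] <;> ring

end Cor

end Pool.Agent.P.MP_70f35d_an
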