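import Pool.Agent.P.MP_70f35d_an.SMid

set_option autoImplicit false
open Finset

namespace Pool.Agent.P.MP_70f35d_an

variable {X : Type} [Fintype X]

namespace Cor

variable (S : Cor X)

lemma crossE {t s N : ℕ} (h1 : t ≤ s) (h2 : s ≤ t + N) (x : X) :
    E (S.P t) (fun y => (S.swap.Fs s y - S.swap.Fs t y) * E (S.P s) S.w y * S.σ y) x ≤
      √(S.A * (E (S.P t) (fun y => S.w y * S.swap.dl N t y ^ 2) x * E (S.P t) S.σ x)) := by
  have hA := S.hA1
  have hm : Meas (S.P s) fun y => S.swap.Fs s y - S.swap.Fs t y := fun x y hxy => by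
    simp only [S.swap.Fs_meas s x y hxy, S.swap.Fs_meas t x y (S.hP.mono h1 hxy)]
  refine Real.le_sqrt_of_sq_le ?_
  have a1 := E_cs' (S.P t) (fun y => (S.hσ y).le)
    (fun y => (S.swap.Fs s y - S.swap.Fs t y) * E (S.P s) S.w y) x
  simp only [mul_comm (S.σ _)] at a1
  refine a1.trans ?_
  rw [← mul_assoc]
  refine mul_le_mul_of_nonneg_right ?_ (E_pos S.hσ).le
  rw [← S.hP.E_mul_E h1 fun x y hxy => by simp only [hm x y hxy, E_meas _ _ x y hxy]]
  calc _ ≤ E (S.P t) (fun y => S.A * ((S.swap.Fs s y - S.swap.Fs t y) ^ 2 * E (S.P s) S.w y)) x := by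
        refine E_mono fun y _ => ?_
        have := mul_le_mul_of_nonneg_left (S.hA s y) (mul_nonneg
          (sq_nonneg (S.swap.Fs s y - S.swap.Fs t y)) (E_pos (P := S.P s) (x := y) S.hw).le)
        linarith
    _ ≤ _ := by
        rw [E_cmul, S.hP.E_mul_E h1 fun x y hxy => by simp only [hm x y hxy]]
        refine mul_le_mul_of_nonneg_left (E_mono fun y _ => ?_) (by linarith)
        rw [mul_comm]
        exact mul_le_mul_of_nonneg_left (pow_le_pow_left₀ (sub_nonneg.2 (S.swap.Fs_mono y h1))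
          (sub_le_sub_right (S.swap.Fs_mono y h2) _) 2) (S.hw y).le

variable {S} {c N : ℕ} {M : ℝ} {J : Finset ℕ} {B : ℕ × ℕ → X → ℝ}

lemma Cls.carlG (h : S.Cls c N M J B) (n : ℕ) :
    ∑ t ∈ range n, ∑ x, (∑ j ∈ J, 2 ^ j * S.Q B (t, j) x) * S.swap.Fs t x ^ 2 ≤
      16 * S.A * N := by
  have hA := S.hA1
  have := carleson_mono S.hP (α := fun t x => ∑ j ∈ J, 2 ^ j * S.Q B (t, j) x)
    (G := fun t x => S.swap.Fs t x ^ 2) (μ := S.w) (C := 4 * S.A * N) (n := n)
    (fun q x y hxy => by simp only [S.swap.Fs_meas q x y hxy]) (fun x => sq_nonneg _)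
    (fun x a b hab => pow_le_pow_left₀ (S.swap.Fs_nonneg a x) (S.swap.Fs_mono x hab) 2)
    (by positivity) (fun x => (S.hw x).le) fun r _ x => by
      have := h.carlH r n x
      simpa only [sum_product] using this
  exact this.trans ((mul_le_mul_of_nonneg_left (S.swap.nFs n) (by positivity)).trans_eq (by ring))

lemma Cls.carlG' (h : S.Cls c N M J B) (n : ℕ) :
    ∑ x, E (S.P 0) (fun y => ∑ i ∈ Ico 0 n ×ˢ J, 2 ^ i.2 * S.Q B i y * S.swap.Fs i.1 y ^ 2) x ≤
      16 * S.A * N := by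
  rw [sum_E]
  refine le_trans (le_of_eq ?_) (h.carlG n)
  rw [sum_comm (s := range n), range_eq_Ico]
  refine sum_congr rfl fun x _ => ?_
  rw [sum_product]
  exact sum_congr rfl fun t _ => by rw [sum_mul]

lemma Cls.cross (h : S.Cls c N M J B) (n : ℕ) :
    ∑ x, ∑ i ∈ Ico 0 n ×ˢ J, ∑ k ∈ Ico 0 n ×ˢ J, I (i.1 ≤ k.1 ∧ k.1 < i.1 + c * 2 ^ i.2) *
      (S.swap.Fs i.1 x * S.Q B i x * ((S.swap.Fs k.1 x - S.swap.Fs i.1 x) * S.Q B k x)) * S.σ x ≤
      c * √(S.A * (M * S.A) * (16 * S.A * N) * (4 * N)) := by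
  have hA := S.hA1
  have hM := h.M0
  set e : ℕ → X → ℝ := fun t x => E (S.P t) (fun y => S.w y * S.swap.dl N t y ^ 2) x with he
  have he0 : ∀ t x, 0 ≤ e t x := fun t x =>
    E_nonneg fun y => mul_nonneg (S.hw y).le (sq_nonneg _)
  set H : ℕ → X → ℝ := fun t x => ∑ j ∈ J, 2 ^ j * S.Q B (t, j) x with hH
  have hH0 : ∀ t x, 0 ≤ H t x := fun t x =>
    sum_nonneg fun j _ => mul_nonneg (by positivity) (h.Q0 _ x)
  have t1 := cs_sum (range n) (K := S.A * (M * S.A))
    (z := fun t x => S.swap.Fs t x * H t x * √(S.A * (e t x * E (S.P t) S.σ x)))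
    (p := fun t x => H t x * S.swap.Fs t x ^ 2) (q := e) (by positivity)
    (fun t _ x => mul_nonneg (hH0 t x) (sq_nonneg _)) (fun t _ x => he0 t x)
    (fun t _ x => by
      have a1 := (E_pos (P := S.P t) (x := x) S.hσ).le
      have a2 := he0 t x
      have a3 : H t x ≤ M * E (S.P t) S.w x := by
        refine le_trans ?_ (mul_le_mul_of_nonneg_right h.hM (E_pos S.hw).le)
        rw [sum_mul]
        exact sum_le_sum fun j hj => mul_le_mul_of_nonneg_left (h.Q_le t hj x) (by positivity)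
      have a4 : H t x * E (S.P t) S.σ x ≤ M * S.A := by
        nlinarith [mul_le_mul_of_nonneg_right a3 a1, mul_le_mul_of_nonneg_left (S.hA t x) hM]
      rw [mul_pow, Real.sq_sqrt (by positivity)]
      have := mul_le_mul_of_nonneg_left a4 (mul_nonneg (by linarith : 0 ≤ S.A)
        (mul_nonneg (mul_nonneg (hH0 t x) (sq_nonneg (S.swap.Fs t x))) a2))
      linarith) (h.carlG n) (S.swap.win_dl N n)
  refine le_trans ?_ (mul_le_mul_of_nonneg_left t1 (Nat.cast_nonneg c))
  rw [sum_comm, sum_product, mul_sum, range_eq_Ico]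
  refine sum_le_sum fun t _ => ?_
  calc _ ≤ ∑ j ∈ J, ∑ x, S.swap.Fs t x * S.Q B (t, j) x *
          (c * 2 ^ j * √(S.A * (e t x * E (S.P t) S.σ x))) := by
        refine sum_le_sum fun j hj => ?_
        calc _ ≤ ∑ x, S.swap.Fs t x * S.Q B (t, j) x * ∑ s ∈ Ico t (t + c * 2 ^ j),
              (S.swap.Fs s x - S.swap.Fs t x) * E (S.P s) S.w x * S.σ x := by
              refine sum_le_sum fun x _ => ?_
              have a0 := mul_nonneg (S.swap.Fs_nonneg t x) (h.Q0 (t, j) x)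
              rw [sum_product]
              calc _ ≤ ∑ s ∈ Ico 0 n, S.swap.Fs t x * S.Q B (t, j) x *
                    (I (t ≤ s ∧ s < t + c * 2 ^ j) * (I (t ≤ s) *
                    ((S.swap.Fs s x - S.swap.Fs t x) * E (S.P s) S.w x * S.σ x))) := by
                    refine sum_le_sum fun s _ => ?_
                    dsimp only
                    by_cases h1 : t ≤ s ∧ s < t + c * 2 ^ j
                    · have := mul_le_mul_of_nonneg_left (h.Q_sum s x) (mul_nonneg (mul_nonneg a0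
                        (sub_nonneg.2 (S.swap.Fs_mono x h1.1))) (S.hσ x).le)
                      rw [mul_sum] at this
                      rw [I_of h1, I_of h1.1]
                      refine le_trans (le_of_eq (sum_congr rfl fun k _ => by ring))
                        (this.trans_eq (by ring))
                    · simp [I_not h1]
                _ ≤ _ := by
                    rw [← mul_sum]
                    refine mul_le_mul_of_nonneg_left ((sum_I_le (u := Ico t (t + c * 2 ^ j))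
                      (fun s => ?_) fun s _ hs => mem_Ico.2 hs).trans
                      (le_of_eq (sum_congr rfl fun s hs => ?_))) a0
                    · by_cases h1 : t ≤ s
                      · exact mul_nonneg (I_nonneg _) (mul_nonneg (mul_nonneg
                          (sub_nonneg.2 (S.swap.Fs_mono x h1)) (E_pos S.hw).le) (S.hσ x).le)
                      · rw [I_not h1, zero_mul]
                    · rw [I_of (mem_Ico.1 hs).1, one_mul]
          _ ≤ _ := by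
              rw [← sum_mul_E (P := S.P t) fun x y hxy => by
                simp only [S.swap.Fs_meas t x y hxy, S.Q_meas B (t, j) x y hxy]]
              refine sum_le_sum fun x _ => mul_le_mul_of_nonneg_left ?_
                (mul_nonneg (S.swap.Fs_nonneg t x) (h.Q0 (t, j) x))
              rw [E_sum]
              refine (sum_le_card_nsmul _ _ _ fun s hs => S.crossE (N := N) (mem_Ico.1 hs).1
                ((mem_Ico.1 hs).2.le.trans (Nat.add_le_add_left (h.hN j hj) t)) x).trans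
                (le_of_eq ?_)
              simp [he]
    _ ≤ _ := by
        rw [sum_comm, mul_sum]
        refine sum_le_sum fun x _ => le_trans (le_of_eq ?_)
          (mul_le_mul_of_nonneg_left (le_abs_self _) (Nat.cast_nonneg c))
        simp only [hH, mul_sum, sum_mul]
        exact sum_congr rfl fun j _ => by ring

lemma Cls.Zp (h : S.Cls c N M J B) (n : ℕ) :
    ∑ x, S.σ x * ∑ i ∈ Ico 0 n ×ˢ J, (S.Fs (i.1 + c * 2 ^ i.2) x - S.Fs i.1 x) *
      (S.swap.Fs i.1 x * S.Xq c B i x) ≤ √(4 * (2 * (17 * c * S.A * (16 * S.A * N) +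
        c * √(S.A * (M * S.A) * (16 * S.A * N) * (4 * N))))) := by
  have hA := S.hA1
  have ha : ∀ i x, 0 ≤ S.swap.Fs i.1 x * S.Xq c B i x := fun i x =>
    mul_nonneg (S.swap.Fs_nonneg _ x) (h.X0 i x)
  refine le_trans (sum_le_sum fun x _ => mul_le_mul_of_nonneg_left
    (win_sup (Ico 0 n ×ˢ J) Prod.fst (fun i => c * 2 ^ i.2) (fun i _ => ha i x) (S.Fs_mono x)
      (S.Fs_nonneg 0 x) (n := n + N) fun i hi => add_le_add (mem_Ico.1 (mem_product.1 hi).1).2.le
        (h.hN _ (mem_product.1 hi).2)) (S.hσ x).le)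
    (cs_sqrt (fun x => (S.hσ x).le) (fun x => mul_nonneg zero_le_two (sum_nonneg fun i _ =>
      sum_nonneg fun k _ => mul_nonneg (I_nonneg _) (mul_nonneg (ha i x) (ha k x))))
      (S.nFs (n + N)) ?_)
  have h1 := sum_le_sum fun x (_ : x ∈ univ) => h.nearE S.swap.Fs_meas 0 n x
  have h2 := sum_le_sum fun x (_ : x ∈ univ) => h.low (Y := fun t y => S.swap.Fs t y ^ 2)
    (fun q x y hxy => by simp only [S.swap.Fs_meas q x y hxy]) (fun _ _ => sq_nonneg _) 0 n x
  rw [sum_E, ← mul_sum] at h1 h2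
  have h3 := h.cross n
  have h4 := mul_le_mul_of_nonneg_left (h.carlG' n) (by positivity : 0 ≤ 17 * c * S.A)
  refine le_trans ?_ (le_trans (b := 2 * (_ + _ + _)) (mul_le_mul_of_nonneg_left
    (add_le_add (add_le_add h1 h2) h3) zero_le_two) (by linarith))
  simp only [← sum_add_distrib]
  rw [mul_sum]
  refine sum_le_sum fun y _ => ?_
  rw [mul_left_comm, mul_sum]
  refine mul_le_mul_of_nonneg_left (sum_le_sum fun i _ => ?_) zero_le_two
  rw [mul_sum]
  refine sum_le_sum fun k _ => ?_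
  have hσ := (S.hσ y).le
  by_cases b0 : i.1 ≤ k.1 ∧ k.1 < i.1 + c * 2 ^ i.2
  · have d0 : 0 ≤ S.swap.Fs k.1 y - S.swap.Fs i.1 y := sub_nonneg.2 (S.swap.Fs_mono y b0.1)
    have g0 := S.swap.Fs_nonneg i.1 y
    have c3 : 0 ≤ S.swap.Fs i.1 y * S.Q B i y *
        ((S.swap.Fs k.1 y - S.swap.Fs i.1 y) * S.Q B k y) * S.σ y :=
      mul_nonneg (mul_nonneg (mul_nonneg g0 (h.Q0 i y)) (mul_nonneg d0 (h.Q0 k y))) hσ
    by_cases b2 : k.2 < i.2
    · rw [I_of b0, I_of (p := _ ∧ k.2 < i.2) ⟨b0.1, b2⟩,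
        I_not (p := i.1 ≤ k.1 ∧ k.1 < i.1 + c * 2 ^ i.2 ∧ i.2 ≤ k.2) fun h => by omega]
      have := mul_le_mul_of_nonneg_left (mul_le_mul (h.X_le i y) (h.X_le k y) (h.X0 k y) (h.Q0 i y))
        (mul_nonneg (mul_nonneg g0 d0) hσ)
      linarith
    · rw [I_of b0, I_not (p := _ ∧ k.2 < i.2) fun h => b2 h.2, I_of ⟨b0.1, b0.2, by omega⟩]
      linarith
  · rw [I_not b0, I_not (p := _ ∧ _ ∧ _) fun h => b0 ⟨h.1, h.2.1⟩]
    have := mul_nonneg (mul_nonneg (I_nonneg (i.1 ≤ k.1 ∧ k.2 < i.2)) (mul_nonneg (mul_nonneg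
      (sq_nonneg (S.swap.Fs i.1 y)) (h.X0 i y)) (h.X0 k y))) hσ
    linarith

theorem Cls.old {y : ℝ} (h : S.Cls c N (y ^ 2) J B) (hy : 0 ≤ y) (hN : (N : ℝ) ≤ c * y ^ 2)
    (n : ℕ) : ∑ t ∈ range n, ∑ x, ∑ j ∈ J, E (S.P t) (fun y => S.Gm c (t, j) y * S.U y) x *
      (S.swap.Fs t x * S.Q B (t, j) x) ≤ 173 * (c * (S.A * y + √S.A * y ^ 2)) := by
  have hA := S.hA1
  have h1 := h.oldold n
  have h2 := h.Zp n
  have hs := Real.sqrt_nonneg S.A
  have hq := Real.sq_sqrt (by linarith : 0 ≤ S.A)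
  have hc : (0 : ℝ) ≤ c := Nat.cast_nonneg c
  have hAN := mul_le_mul_of_nonneg_left hN (by positivity : 0 ≤ c * S.A ^ 2)
  have b1 : √(4 * (392 * c * S.A ^ 2 * N * 4)) ≤ 80 * (c * (S.A * y)) := by
    refine sqrt_le_of (by positivity) ?_
    nlinarith [sq_nonneg (c * (S.A * y))]
  have b2 : √(2 * (16 * c * S.A * y ^ 2) * (4 * S.A * c) * 4 * 4) ≤ 46 * (c * (S.A * y)) := by
    refine sqrt_le_of (by positivity) ?_
    nlinarith [sq_nonneg (c * (S.A * y))]
  have b3 : √(S.A * (y ^ 2 * S.A) * (16 * S.A * N) * (4 * N)) ≤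
      8 * c * (S.A * y * (√S.A * y ^ 2)) := by
    refine sqrt_le_of (by positivity) ?_
    have e : (8 * c * (S.A * y * (√S.A * y ^ 2))) ^ 2 =
        64 * (S.A ^ 3 * y ^ 2) * (c * y ^ 2) ^ 2 := by
      rw [show (8 * c * (S.A * y * (√S.A * y ^ 2))) ^ 2 =
        64 * (S.A ^ 2 * √S.A ^ 2 * y ^ 2) * (c * y ^ 2) ^ 2 by ring, hq]; ring
    rw [e]
    calc _ = 64 * (S.A ^ 3 * y ^ 2) * (N : ℝ) ^ 2 := by ring
      _ ≤ _ := by gcongr
  have b4 : √(4 * (2 * (17 * c * S.A * (16 * S.A * N) +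
      c * √(S.A * (y ^ 2 * S.A) * (16 * S.A * N) * (4 * N))))) ≤
      47 * (c * (S.A * y + √S.A * y ^ 2)) := by
    refine sqrt_le_of (by positivity) ?_
    have := mul_le_mul_of_nonneg_left b3 hc
    nlinarith [sq_nonneg (c * (S.A * y)), sq_nonneg (c * (√S.A * y ^ 2)),
      (by positivity : 0 ≤ c * (S.A * y) * (c * (√S.A * y ^ 2)))]
  have b5 : 0 ≤ c * (√S.A * y ^ 2) := by positivity
  refine le_trans ?_ ((add_le_add h1 h2).trans (by nlinarith))
  have e : ∑ x, S.σ x * ∑ i ∈ Ico 0 n ×ˢ J, (S.Fs (i.1 + c * 2 ^ i.2) x - S.Fs i.1 x) *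
      (S.swap.Fs i.1 x * S.Xq c B i x) = ∑ t ∈ range n, ∑ x, ∑ j ∈ J,
      E (S.P t) (fun y => S.Gm c (t, j) y * S.σ y * (S.Fs (t + c * 2 ^ j) y - S.Fs t y)) x *
        (S.swap.Fs t x * S.Q B (t, j) x) := by
    simp only [mul_sum, sum_product]
    rw [sum_comm, range_eq_Ico]
    refine sum_congr rfl fun t _ => ?_
    rw [sum_comm, sum_comm (s := univ)]
    refine sum_congr rfl fun j _ => ?_
    have := sum_mul_E (P := S.P t) (φ := fun x => S.swap.Fs t x * S.Q B (t, j) x)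
      (fun x y hxy => by simp only [S.swap.Fs_meas t x y hxy, S.Q_meas B (t, j) x y hxy])
      fun y => S.Gm c (t, j) y * S.σ y * (S.Fs (t + c * 2 ^ j) y - S.Fs t y)
    refine Eq.trans (sum_congr rfl fun x _ => ?_)
      (this.symm.trans (sum_congr rfl fun x _ => mul_comm _ _))
    simp only [Xq]; ring
  rw [e]
  simp only [tau, sum_mul, ← sum_add_distrib]
  refine sum_le_sum fun t _ => sum_le_sum fun x _ => sum_le_sum fun j _ => ?_
  have := mul_le_mul_of_nonneg_right (S.splitS (S.Γ_meas (2 ^ j) (c * 2 ^ j) t)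
    (S.Γ_nonneg _ _ t) x) (mul_nonneg (S.swap.Fs_nonneg t x) (h.Q0 (t, j) x))
  simp only [Gm]
  linarith

end Cor

end Pool.Agent.P.MP_70f35d_an
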