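import Pool.Agent.P.MP_70f35d_an.Kern

set_option autoImplicit false
open MeasureTheory
open scoped FourierTransform SchwartzMap RealInnerProductSpace ContDiff

namespace Pool.Agent.P.MP_70f35d_an
namespace SG

variable {d : ℕ}

lemma integrable_of_bdd {α F : Type*} [MeasurableSpace α] {m : Measure α} [NormedAddCommGroup F]
    {f : α → F} (hf : AEStronglyMeasurable f m) {s : Set α} (hs : MeasurableSet s)
    (hm : m s ≠ ⊤) {B : ℝ} (hB : ∀ x, ‖f x‖ ≤ B) (h0 : ∀ x, f x ≠ 0 → x ∈ s) :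
    Integrable f m := by
  have h1 : Integrable (s.indicator fun _ => B) m :=
    (integrable_indicator_iff hs).2 (integrableOn_const hm)
  refine h1.mono' hf (Filter.Eventually.of_forall fun x => ?_)
  by_cases hx : x ∈ s
  · rw [Set.indicator_of_mem hx]; exact hB x
  · rw [Set.indicator_of_notMem hx]
    have : f x = 0 := by
      by_contra h
      exact hx (h0 x h)
    simp [this]

structure Nice (f : Eu d → ℝ) : Prop where
  meas : Measurable f
  bdd : ∃ B, ∀ x, |f x| ≤ B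
  supp : ∃ R, ∀ x, f x ≠ 0 → ‖x‖ ≤ R

lemma Nice.integrable {f : Eu d → ℝ} (h : Nice f) : Integrable f := by
  obtain ⟨B, hB⟩ := h.bdd
  obtain ⟨R, hR⟩ := h.supp
  refine integrable_of_bdd h.meas.aestronglyMeasurable
    (s := Metric.closedBall 0 R) measurableSet_closedBall measure_closedBall_lt_top.ne
    (B := B) (fun x => hB x) fun x hx => ?_
  simpa using hR x hx

lemma Nice.memLp {f : Eu d → ℝ} (h : Nice f) : MemLp f 2 := by
  rw [memLp_two_iff_integrable_sq h.meas.aestronglyMeasurable]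
  obtain ⟨B, hB⟩ := h.bdd
  obtain ⟨R, hR⟩ := h.supp
  refine integrable_of_bdd (h.meas.pow_const 2).aestronglyMeasurable
    (s := Metric.closedBall 0 R) measurableSet_closedBall measure_closedBall_lt_top.ne
    (B := B ^ 2) (fun x => ?_) fun x hx => ?_
  · rw [Real.norm_eq_abs, abs_pow]
    exact pow_le_pow_left₀ (abs_nonneg _) (hB x) 2
  · have : f x ≠ 0 := fun h0 => hx (by simp [h0])
    simpa using hR x this

noncomputable def ft (f : Eu d → ℝ) (ξ : Eu d) : ℂ := 𝓕 (fun x => (f x : ℂ)) ξ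

lemma ft_dual (h : Lp ℂ 2 (volume : Measure (Eu d))) (φ : 𝓢(Eu d, ℂ)) :
    ∫ x, φ x * (𝓕 h : Lp ℂ 2 (volume : Measure (Eu d))) x
      = ∫ x, (𝓕 (φ : Eu d → ℂ)) x * h x := by
  have h1 := Lp.fourier_toTemperedDistribution_eq h
  have h2 := congrArg (fun T : 𝓢'(Eu d, ℂ) => T φ) h1
  simp only [TemperedDistribution.fourier_apply, Lp.toTemperedDistribution_apply,
    smul_eq_mul] at h2
  rw [← h2]
  rfl

lemma plancherel_c {F : Eu d → ℂ} (h1 : Integrable F) (h2 : MemLp F 2) :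
    Integrable (fun ξ => ‖𝓕 F ξ‖ ^ 2) ∧ ∫ ξ, ‖𝓕 F ξ‖ ^ 2 = ∫ x, ‖F x‖ ^ 2 := by
  set H : Lp ℂ 2 (volume : Measure (Eu d)) := h2.toLp F with hH
  have hHF : (H : Eu d → ℂ) =ᵐ[volume] F := h2.coeFn_toLp
  have hc : Continuous (𝓕 F) :=
    VectorFourier.fourierIntegral_continuous Real.continuous_fourierChar
      (by exact continuous_inner) h1
  have hae : (fun ξ => (𝓕 H : Lp ℂ 2 (volume : Measure (Eu d))) ξ - 𝓕 F ξ) =ᵐ[volume] 0 := by
    apply ae_eq_zero_of_integral_contDiff_smul_eq_zero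
    · exact ((Lp.memLp _).locallyIntegrable (by norm_num)).sub hc.locallyIntegrable
    · intro g hg1 hg2
      have c1 : HasCompactSupport (fun s : Eu d => (g s : ℂ)) :=
        hg2.comp_left (g := fun r : ℝ => (r : ℂ)) (by simp)
      have c2 : ContDiff ℝ ∞ (fun s : Eu d => (g s : ℂ)) := Complex.ofRealCLM.contDiff.comp hg1
      have m3 : MemLp (fun s : Eu d => (g s : ℂ)) 2 volume :=
        c2.continuous.memLp_of_hasCompactSupport c1
      have i3 : Integrable (fun s : Eu d => (g s : ℂ)) :=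
        c2.continuous.integrable_of_hasCompactSupport c1
      have i1 : Integrable (fun s => (g s : ℂ) * (𝓕 H : Lp ℂ 2 (volume : Measure (Eu d))) s) :=
        m3.integrable_mul (Lp.memLp _)
      have i2 : Integrable (fun s => (g s : ℂ) * 𝓕 F s) :=
        (c2.continuous.mul hc).integrable_of_hasCompactSupport c1.mul_right
      have e1 := ft_dual H (c1.toSchwartzMap c2)
      have e2 : ∫ ξ, 𝓕 F ξ * (g ξ : ℂ) = ∫ x, F x * 𝓕 (fun s : Eu d => (g s : ℂ)) x := by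
        have := VectorFourier.integral_fourierIntegral_smul_eq_flip (μ := volume) (ν := volume)
          (L := innerₗ (Eu d)) Real.continuous_fourierChar (by exact continuous_inner) h1 i3
        simp only [flip_innerₗ, smul_eq_mul] at this
        exact this
      simp only [Complex.real_smul, mul_sub]
      rw [integral_sub i1 i2]
      change (∫ x, (g x : ℂ) * (𝓕 H : Lp ℂ 2 (volume : Measure (Eu d))) x)
        = ∫ x, 𝓕 (fun s : Eu d => (g s : ℂ)) x * H x at e1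
      rw [e1, sub_eq_zero]
      simp_rw [mul_comm (g _ : ℂ)]
      rw [e2]
      refine integral_congr_ae ?_
      filter_upwards [hHF] with x hx
      rw [hx, mul_comm]
  have hae' : ((𝓕 H : Lp ℂ 2 (volume : Measure (Eu d))) : Eu d → ℂ) =ᵐ[volume] 𝓕 F := by
    filter_upwards [hae] with x hx
    exact sub_eq_zero.1 hx
  have hm : MemLp (𝓕 F) 2 := (Lp.memLp _).ae_eq hae'
  refine ⟨(memLp_two_iff_integrable_sq_norm hm.1).1 hm, ?_⟩
  have n1 : ∀ G : Lp ℂ 2 (volume : Measure (Eu d)), ‖G‖ ^ 2 = ∫ x, ‖G x‖ ^ 2 := by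
    intro G
    rw [← real_inner_self_eq_norm_sq, L2.inner_def]
    simp_rw [real_inner_self_eq_norm_sq]
  calc ∫ ξ, ‖𝓕 F ξ‖ ^ 2 = ∫ ξ, ‖(𝓕 H : Lp ℂ 2 (volume : Measure (Eu d))) ξ‖ ^ 2 := by
        refine integral_congr_ae ?_
        filter_upwards [hae'] with x hx
        rw [hx]
    _ = ∫ x, ‖H x‖ ^ 2 := by rw [← n1, ← n1, Lp.norm_fourier_eq]
    _ = ∫ x, ‖F x‖ ^ 2 := by
        refine integral_congr_ae ?_
        filter_upwards [hHF] with x hx
        rw [hx]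

lemma plancherel {f : Eu d → ℝ} (h : Nice f) :
    Integrable (fun ξ => ‖ft f ξ‖ ^ 2) ∧ ∫ ξ, ‖ft f ξ‖ ^ 2 = ∫ x, f x ^ 2 := by
  have := plancherel_c (F := fun x => (f x : ℂ)) h.integrable.ofReal h.memLp.ofReal
  refine ⟨this.1, this.2.trans ?_⟩
  simp

noncomputable def cv (K μ : Eu d → ℝ) (x : Eu d) : ℝ := ∫ y, K y * μ (x - y)

lemma Nice.cv {K μ : Eu d → ℝ} (hK : Nice K) (hμ : Nice μ) : Nice (cv K μ) := by
  obtain ⟨B, hB⟩ := hμ.bdd
  obtain ⟨R, hR⟩ := hK.supp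
  obtain ⟨R', hR'⟩ := hμ.supp
  refine ⟨?_, ⟨(∫ y, |K y|) * B, fun x => ?_⟩, ⟨R + R', fun x hx => ?_⟩⟩
  · have : Measurable (fun p : Eu d × Eu d => K p.2 * μ (p.1 - p.2)) :=
      (hK.meas.comp measurable_snd).mul (hμ.meas.comp (measurable_fst.sub measurable_snd))
    exact (this.stronglyMeasurable.integral_prod_right' (ν := volume)).measurable
  · rw [← integral_mul_const, ← Real.norm_eq_abs]
    refine norm_integral_le_of_norm_le (hK.integrable.abs.mul_const B)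
      (Filter.Eventually.of_forall fun y => ?_)
    rw [Real.norm_eq_abs, abs_mul]
    exact mul_le_mul_of_nonneg_left (hB _) (abs_nonneg _)
  · by_contra hc
    apply hx
    have : ∀ y, K y * μ (x - y) = 0 := by
      intro y
      by_contra hy
      have h1 := hR y (left_ne_zero_of_mul hy)
      have h2 := hR' _ (right_ne_zero_of_mul hy)
      apply hc
      calc ‖x‖ = ‖y + (x - y)‖ := by congr 1; abel
        _ ≤ ‖y‖ + ‖x - y‖ := norm_add_le _ _
        _ ≤ R + R' := add_le_add h1 h2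
    simp [SG.cv, this]

lemma ft_cv {K μ : Eu d → ℝ} (hK : Nice K) (hμ : Nice μ) (ξ : Eu d) :
    ft (cv K μ) ξ = ft K ξ * ft μ ξ := by
  have := Real.fourier_mul_convolution_eq (f₁ := fun x => (K x : ℂ)) (f₂ := fun x => (μ x : ℂ))
    hK.integrable.ofReal hμ.integrable.ofReal ξ
  unfold ft
  rw [← this]
  refine Real.fourier_congr_ae (Filter.Eventually.of_forall fun x => ?_) ξ
  simp only [cv, convolution, ContinuousLinearMap.mul_apply']
  rw [← integral_complex_ofReal]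
  simp

/-- the dilation density -/
structure Dens (a : ℝ → ℝ) : Prop where
  smooth : ContDiff ℝ ∞ a
  supp : ∀ τ, a τ ≠ 0 → 1 / 2 ≤ τ ∧ τ ≤ 2

lemma Dens.compact {a : ℝ → ℝ} (h : Dens a) : HasCompactSupport a :=
  HasCompactSupport.intro' (K := Set.Icc (1 / 2) 2) isCompact_Icc isClosed_Icc fun τ hτ => by
    by_contra h0
    exact hτ (h.supp τ h0)

lemma Dens.bdd {a : ℝ → ℝ} (h : Dens a) : ∃ A, 0 ≤ A ∧ ∀ τ, |a τ| ≤ A := by
  obtain ⟨A, hA⟩ := h.smooth.continuous.bounded_above_of_compact_support h.compact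
  exact ⟨A, (norm_nonneg _).trans (hA 0), fun τ => hA τ⟩

lemma Dens.integrable {a : ℝ → ℝ} (h : Dens a) : Integrable a :=
  h.smooth.continuous.integrable_of_hasCompactSupport h.compact

lemma Dens.meas {a : ℝ → ℝ} (h : Dens a) : Measurable a := h.smooth.continuous.measurable

lemma meas_dil_int {a : ℝ → ℝ} (ha : Dens a) {k : Eu d → ℝ} (hk : Measurable k) :
    Measurable (fun p : Eu d × ℝ => a p.2 * k (p.2⁻¹ • p.1)) :=
  (ha.meas.comp measurable_snd).mul (hk.comp (measurable_snd.inv.smul measurable_fst))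

lemma dil_supp {a : ℝ → ℝ} (ha : Dens a) {k : Eu d → ℝ} {R : ℝ} (hR : ∀ x, k x ≠ 0 → ‖x‖ ≤ R)
    {x : Eu d} {τ : ℝ} (h : a τ * k (τ⁻¹ • x) ≠ 0) : ‖x‖ ≤ 2 * R := by
  obtain ⟨h1, h2⟩ := ha.supp τ (left_ne_zero_of_mul h)
  have h3 := hR _ (right_ne_zero_of_mul h)
  have hτ : 0 < τ := by linarith
  have : x = τ • (τ⁻¹ • x) := by rw [smul_smul, mul_inv_cancel₀ hτ.ne', one_smul]
  rw [this, norm_smul, Real.norm_eq_abs, abs_of_pos hτ]
  exact mul_le_mul h2 h3 (norm_nonneg _) (by norm_num)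

lemma Nice.dil {a : ℝ → ℝ} (ha : Dens a) {k : Eu d → ℝ} (hk : Nice k) : Nice (dil a k) := by
  obtain ⟨B, hB⟩ := hk.bdd
  obtain ⟨R, hR⟩ := hk.supp
  refine ⟨?_, ⟨(∫ τ, |a τ|) * B, fun x => ?_⟩, ⟨2 * R, fun x hx => ?_⟩⟩
  · exact ((meas_dil_int ha hk.meas).stronglyMeasurable.integral_prod_right'
      (ν := volume)).measurable
  · rw [← integral_mul_const, ← Real.norm_eq_abs]
    refine norm_integral_le_of_norm_le (ha.integrable.abs.mul_const B)
      (Filter.Eventually.of_forall fun y => ?_)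
    rw [Real.norm_eq_abs, abs_mul]
    exact mul_le_mul_of_nonneg_left (hB _) (abs_nonneg _)
  · by_contra hc
    apply hx
    have : ∀ τ, a τ * k (τ⁻¹ • x) = 0 := by
      intro τ
      by_contra hτ
      exact hc (dil_supp ha hR hτ)
    simp [MP_70f35d_an.dil, this]

noncomputable def Phi (d : ℕ) (a : ℝ → ℝ) : ℝ → ℂ := 𝓕 (fun τ : ℝ => ((a τ * τ ^ d : ℝ) : ℂ))

lemma Phi_decay (d n : ℕ) {a : ℝ → ℝ} (ha : Dens a) :
    ∃ C, 0 ≤ C ∧ ∀ l, (1 + |l|) ^ n * ‖Phi d a l‖ ≤ C := by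
  have c0 : HasCompactSupport (fun τ : ℝ => a τ * τ ^ d) := ha.compact.mul_right
  have c1 : HasCompactSupport (fun τ : ℝ => ((a τ * τ ^ d : ℝ) : ℂ)) :=
    c0.comp_left (g := fun r : ℝ => (r : ℂ)) (by simp)
  have c2 : ContDiff ℝ ∞ (fun τ : ℝ => ((a τ * τ ^ d : ℝ) : ℂ)) :=
    Complex.ofRealCLM.contDiff.comp (ha.smooth.mul (contDiff_id.pow d))
  set S : 𝓢(ℝ, ℂ) := 𝓕 (c1.toSchwartzMap c2) with hS
  have key := fun l => SchwartzMap.one_add_le_sup_seminorm_apply (𝕜 := ℝ) (m := (n, 0))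
    (k := n) (n := 0) le_rfl le_rfl S l
  refine ⟨_, le_trans (by positivity) (key 0), fun l => ?_⟩
  have := key l
  rw [norm_iteratedFDeriv_zero, Real.norm_eq_abs] at this
  exact this

lemma Phi_eq (d : ℕ) (a : ℝ → ℝ) (l : ℝ) :
    Phi d a l = ∫ τ : ℝ, (𝐞 (-(τ * l)) : ℂ) * ((a τ * τ ^ d : ℝ) : ℂ) := by
  unfold Phi
  rw [Real.fourier_real_eq]
  simp only [Circle.smul_def, smul_eq_mul]

lemma ft_eq (f : Eu d → ℝ) (ξ : Eu d) :
    ft f ξ = ∫ x, (𝐞 (-⟪x, ξ⟫) : ℂ) * (f x : ℂ) := by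
  unfold ft
  rw [Real.fourier_eq]
  simp only [Circle.smul_def, smul_eq_mul]

lemma cont_e : Continuous (fun t : ℝ => (𝐞 t : ℂ)) :=
  continuous_subtype_val.comp Real.continuous_fourierChar

lemma ft_dil {a : ℝ → ℝ} (ha : Dens a) {k : Eu d → ℝ} (hk : Nice k) (ξ : Eu d) :
    ft (dil a k) ξ = ∫ y, (k y : ℂ) * Phi d a ⟪y, ξ⟫ := by
  obtain ⟨B, hB⟩ := hk.bdd
  obtain ⟨R, hR⟩ := hk.supp
  obtain ⟨A, hA0, hA⟩ := ha.bdd
  have hs : ∀ R : ℝ, (volume : Measure (Eu d)).prod (volume : Measure ℝ)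
      (Metric.closedBall 0 R ×ˢ Set.Icc (1 / 2) 2) ≠ ⊤ := by
    intro R
    rw [Measure.prod_prod]
    exact ENNReal.mul_ne_top measure_closedBall_lt_top.ne measure_Icc_lt_top.ne
  have i1 : Integrable (fun p : Eu d × ℝ =>
      (𝐞 (-⟪p.1, ξ⟫) : ℂ) * ((a p.2 * k (p.2⁻¹ • p.1) : ℝ) : ℂ)) (volume.prod volume) := by
    refine integrable_of_bdd ?_ (measurableSet_closedBall.prod measurableSet_Icc) (hs (2 * R))
      (B := A * B) (fun p => ?_) (fun p hp => ?_)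
    · exact ((cont_e.comp (by fun_prop)).measurable.mul
        (Complex.measurable_ofReal.comp (meas_dil_int ha hk.meas))).aestronglyMeasurable
    · rw [norm_mul, Circle.norm_coe, one_mul, Complex.norm_real, Real.norm_eq_abs, abs_mul]
      exact mul_le_mul (hA _) (hB _) (abs_nonneg _) hA0
    · have h1 : a p.2 * k (p.2⁻¹ • p.1) ≠ 0 := fun h0 => hp (by rw [h0]; simp)
      exact ⟨by simpa using dil_supp ha hR h1, ha.supp _ (left_ne_zero_of_mul h1)⟩
  have i2 : Integrable (fun p : Eu d × ℝ =>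
      (k p.1 : ℂ) * ((𝐞 (-(p.2 * ⟪p.1, ξ⟫)) : ℂ) * ((a p.2 * p.2 ^ d : ℝ) : ℂ)))
      (volume.prod volume) := by
    refine integrable_of_bdd ?_ (measurableSet_closedBall.prod measurableSet_Icc) (hs R)
      (B := B * (A * 2 ^ d)) (fun p => ?_) (fun p hp => ?_)
    · exact ((Complex.measurable_ofReal.comp (hk.meas.comp measurable_fst)).mul
        ((cont_e.comp (by fun_prop)).measurable.mul (Complex.measurable_ofReal.comp
          ((ha.meas.comp measurable_snd).mul (measurable_snd.pow_const d))))).aestronglyMeasurable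
    · rw [norm_mul, norm_mul, Circle.norm_coe, one_mul, Complex.norm_real, Complex.norm_real,
        Real.norm_eq_abs, Real.norm_eq_abs]
      refine mul_le_mul (hB _) ?_ (abs_nonneg _) ((abs_nonneg _).trans (hB 0))
      by_cases h0 : a p.2 = 0
      · rw [h0]; simp only [zero_mul, abs_zero]; positivity
      · obtain ⟨h1, h2⟩ := ha.supp _ h0
        rw [abs_mul, abs_pow, abs_of_pos (by linarith : 0 < p.2)]
        exact mul_le_mul (hA _) (pow_le_pow_left₀ (by linarith) h2 d) (by positivity) hA0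
    · have h1 : k p.1 ≠ 0 := fun h0 => hp (by rw [h0]; simp)
      have h2 : a p.2 ≠ 0 := fun h0 => hp (by rw [h0]; simp)
      exact ⟨by simpa using hR _ h1, ha.supp _ h2⟩
  calc ft (dil a k) ξ
      = ∫ x, ∫ τ, (𝐞 (-⟪x, ξ⟫) : ℂ) * ((a τ * k (τ⁻¹ • x) : ℝ) : ℂ) := by
        rw [ft_eq]
        congr 1
        funext x
        rw [integral_const_mul, integral_complex_ofReal]
        rfl
    _ = ∫ τ, ∫ x, (𝐞 (-⟪x, ξ⟫) : ℂ) * ((a τ * k (τ⁻¹ • x) : ℝ) : ℂ) :=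
        integral_integral_swap i1
    _ = ∫ τ, ∫ y, (k y : ℂ) * ((𝐞 (-(τ * ⟪y, ξ⟫)) : ℂ) * ((a τ * τ ^ d : ℝ) : ℂ)) := by
        congr 1
        funext τ
        by_cases h0 : a τ = 0
        · simp [h0]
        · obtain ⟨h1, h2⟩ := ha.supp _ h0
          have hτ : 0 < τ := by linarith
          have := Measure.integral_comp_smul (volume : Measure (Eu d))
            (fun x => (𝐞 (-⟪x, ξ⟫) : ℂ) * ((a τ * k (τ⁻¹ • x) : ℝ) : ℂ)) τ
          simp only [smul_smul, inv_mul_cancel₀ hτ.ne', one_smul, real_inner_smul_left,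
            finrank_euclideanSpace_fin] at this
          rw [abs_of_pos (by positivity)] at this
          have h3 : ∫ x, (𝐞 (-⟪x, ξ⟫) : ℂ) * ((a τ * k (τ⁻¹ • x) : ℝ) : ℂ)
              = ((τ ^ d : ℝ) : ℂ) * ∫ y : Eu d, (𝐞 (-(τ * ⟪y, ξ⟫)) : ℂ) * ((a τ * k y : ℝ) : ℂ) := by
            rw [this, Complex.real_smul, ← mul_assoc, ← Complex.ofReal_mul,
              mul_inv_cancel₀ (by positivity)]
            simp
          rw [h3, ← integral_const_mul]
          congr 1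
          funext y
          push_cast
          ring
    _ = ∫ y, ∫ τ, (k y : ℂ) * ((𝐞 (-(τ * ⟪y, ξ⟫)) : ℂ) * ((a τ * τ ^ d : ℝ) : ℂ)) :=
        (integral_integral_swap i2).symm
    _ = _ := by
        congr 1
        funext y
        rw [integral_const_mul, Phi_eq]

/-- volume of the unit ball -/
noncomputable def vb (d : ℕ) : ℝ := (volume : Measure (Eu d)).real (Metric.ball 0 1)

lemma vb_nonneg (d : ℕ) : 0 ≤ vb d := measureReal_nonneg

lemma vol_ball (x : Eu d) {r : ℝ} (hr : 0 ≤ r) :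
    (volume : Measure (Eu d)).real (Metric.closedBall x r) = r ^ d * vb d := by
  rw [Measure.real, Measure.addHaar_closedBall _ _ hr, ENNReal.toReal_mul,
    ENNReal.toReal_ofReal (by positivity), finrank_euclideanSpace_fin]
  rfl

lemma norm_integral_le_ind {α F : Type*} [MeasurableSpace α] {m : Measure α}
    [NormedAddCommGroup F] [NormedSpace ℝ F] {f : α → F} {s : Set α} (hs : MeasurableSet s)
    (hm : m s ≠ ⊤) {B : ℝ} (hB : ∀ x, x ∈ s → ‖f x‖ ≤ B) (h0 : ∀ x, f x ≠ 0 → x ∈ s) :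
    ‖∫ x, f x ∂m‖ ≤ B * m.real s := by
  have h1 : Integrable (s.indicator fun _ => B) m :=
    (integrable_indicator_iff hs).2 (integrableOn_const hm)
  have h2 : ∫ x, s.indicator (fun _ => B) x ∂m = B * m.real s := by
    rw [integral_indicator hs, setIntegral_const, smul_eq_mul, mul_comm]
  rw [← h2]
  refine norm_integral_le_of_norm_le h1 (Filter.Eventually.of_forall fun x => ?_)
  by_cases hx : x ∈ s
  · rw [Set.indicator_of_mem hx]; exact hB x hx
  · rw [Set.indicator_of_notMem hx]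
    have : f x = 0 := by
      by_contra h
      exact hx (h0 x h)
    simp [this]

/-- the tail bound -/
lemma tail_le {a : ℝ → ℝ} (ha : Dens a) {k : Eu d → ℝ} (hk : Nice k) {M t C0 : ℝ} {n : ℕ}
    (hM : ∀ y, |k y| ≤ M) (h2 : ∀ y, k y ≠ 0 → ‖y‖ ≤ 2) (ξ : Eu d) (ht : 0 ≤ t)
    (hkt : ∀ y, k y ≠ 0 → t ≤ |⟪y, ξ⟫|) (hC : ∀ l, (1 + |l|) ^ n * ‖Phi d a l‖ ≤ C0) :
    ‖ft (dil a k) ξ‖ ≤ M * (C0 / (1 + t) ^ n) * (2 ^ d * vb d) := by
  have hM0 : 0 ≤ M := (abs_nonneg _).trans (hM 0)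
  have hC0 : 0 ≤ C0 := le_trans (by positivity) (hC 0)
  rw [ft_dil ha hk, ← vol_ball (0 : Eu d) (by norm_num : (0 : ℝ) ≤ 2)]
  refine norm_integral_le_ind measurableSet_closedBall measure_closedBall_lt_top.ne
    (fun y _ => ?_) (fun y hy => ?_)
  · by_cases h0 : k y = 0
    · rw [h0]; simp only [Complex.ofReal_zero, zero_mul, norm_zero]; positivity
    · rw [norm_mul, Complex.norm_real, Real.norm_eq_abs]
      refine mul_le_mul (hM y) ?_ (norm_nonneg _) hM0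
      rw [le_div_iff₀ (by positivity), mul_comm]
      refine le_trans (mul_le_mul_of_nonneg_right ?_ (norm_nonneg _)) (hC ⟪y, ξ⟫)
      exact pow_le_pow_left₀ (by positivity) (by linarith [hkt y h0]) n
  · have : k y ≠ 0 := fun h0 => hy (by rw [h0]; simp)
    simpa using h2 y this

lemma e_sub_le (s t : ℝ) : ‖(𝐞 s : ℂ) - (𝐞 t : ℂ)‖ ≤ 2 * Real.pi * |s - t| := by
  have h1 : (𝐞 s : ℂ) - (𝐞 t : ℂ) = (𝐞 t : ℂ) * ((𝐞 (s - t) : ℂ) - 1) := by
    rw [mul_sub, ← Circle.coe_mul, ← AddChar.map_add_eq_mul]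
    simp
  rw [h1, norm_mul, Circle.norm_coe, one_mul, Real.fourierChar_apply, mul_comm _ Complex.I]
  refine Real.norm_exp_I_mul_ofReal_sub_one_le.trans ?_
  rw [Real.norm_eq_abs, abs_mul, abs_of_pos (by positivity)]

lemma ft_cancel {μ : Eu d → ℝ} (hμ : Nice μ) (h0 : ∫ y, μ y = 0) (c : Eu d) {δ : ℝ}
    (hc : ∀ y, μ y ≠ 0 → ‖y - c‖ ≤ δ) (ξ : Eu d) :
    ‖ft μ ξ‖ ≤ 2 * Real.pi * δ * ‖ξ‖ * ∫ y, |μ y| := by
  have i1 : Integrable (fun x => (𝐞 (-⟪x, ξ⟫) : ℂ) * (μ x : ℂ)) := by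
    refine hμ.integrable.ofReal.bdd_mul (c := 1)
      (cont_e.comp (by fun_prop)).aestronglyMeasurable (Filter.Eventually.of_forall fun x => ?_)
    exact (Circle.norm_coe _).le
  have i2 : Integrable (fun x => (𝐞 (-⟪c, ξ⟫) : ℂ) * (μ x : ℂ)) :=
    hμ.integrable.ofReal.const_mul _
  have e1 : ft μ ξ = ∫ x, ((𝐞 (-⟪x, ξ⟫) : ℂ) * (μ x : ℂ) - (𝐞 (-⟪c, ξ⟫) : ℂ) * (μ x : ℂ)) := by
    rw [integral_sub i1 i2, integral_const_mul, integral_complex_ofReal, h0, ft_eq]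
    simp
  rw [e1, ← integral_const_mul]
  refine norm_integral_le_of_norm_le (hμ.integrable.abs.const_mul _)
    (Filter.Eventually.of_forall fun x => ?_)
  by_cases hx : μ x = 0
  · simp [hx]
  · rw [← sub_mul, norm_mul, Complex.norm_real, Real.norm_eq_abs]
    refine mul_le_mul_of_nonneg_right ((e_sub_le _ _).trans ?_) (abs_nonneg _)
    rw [mul_assoc (2 * Real.pi)]
    refine mul_le_mul_of_nonneg_left ?_ (by positivity)
    have : -⟪x, ξ⟫ - -⟪c, ξ⟫ = -⟪x - c, ξ⟫ := by rw [inner_sub_left]; ring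
    rw [this, abs_neg]
    exact (abs_real_inner_le_norm _ _).trans
      (mul_le_mul_of_nonneg_right (hc x hx) (norm_nonneg _))

lemma Nice.sum {ι : Type*} (s : Finset ι) {f : ι → Eu d → ℝ} (h : ∀ i, Nice (f i)) :
    Nice (fun x => ∑ i ∈ s, f i x) := by
  choose B hB using fun i => (h i).bdd
  choose R hR using fun i => (h i).supp
  refine ⟨Finset.measurable_sum _ fun i _ => (h i).meas, ⟨∑ i ∈ s, B i, fun x => ?_⟩,
    ⟨∑ i ∈ s, |R i|, fun x hx => ?_⟩⟩
  · exact (Finset.abs_sum_le_sum_abs _ _).trans (Finset.sum_le_sum fun i _ => hB i x)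
  · obtain ⟨i, hi, hx⟩ := Finset.exists_ne_zero_of_sum_ne_zero hx
    exact (hR i x hx).trans ((le_abs_self _).trans
      (Finset.single_le_sum (f := fun i => |R i|) (fun i _ => abs_nonneg _) hi))

lemma ft_sum {ι : Type*} (s : Finset ι) {f : ι → Eu d → ℝ} (h : ∀ i, Nice (f i)) (ξ : Eu d) :
    ft (fun x => ∑ i ∈ s, f i x) ξ = ∑ i ∈ s, ft (f i) ξ := by
  simp_rw [ft_eq]
  rw [← integral_finsetSum]
  · congr 1
    funext x
    push_cast
    rw [Finset.mul_sum]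
  · intro i _
    refine (h i).integrable.ofReal.bdd_mul (c := 1)
      (cont_e.comp (by fun_prop)).aestronglyMeasurable (Filter.Eventually.of_forall fun x => ?_)
    exact (Circle.norm_coe _).le

lemma dil_sum {ι : Type*} (s : Finset ι) {a : ℝ → ℝ} (ha : Dens a) {f : ι → Eu d → ℝ}
    (h : ∀ i, Nice (f i)) :
    dil a (fun x => ∑ i ∈ s, f i x) = fun y => ∑ i ∈ s, dil a (f i) y := by
  funext y
  unfold dil
  rw [← integral_finsetSum]
  · congr 1
    funext τ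
    rw [Finset.mul_sum]
  · intro i _
    obtain ⟨B, hB⟩ := (h i).bdd
    exact ha.integrable.mul_bdd (c := B)
      ((h i).meas.comp (measurable_inv.smul measurable_const)).aestronglyMeasurable
      (Filter.Eventually.of_forall fun τ => hB _)

/-- the tube majorant -/
noncomputable def tube (a : ℝ → ℝ) (p : Eu d) (r : ℝ) (z : Eu d) : ℝ :=
  ∫ τ : ℝ, |a τ| * (Metric.closedBall (τ • p) r).indicator 1 z

lemma ind_meas (p : Eu d) (r : ℝ) : Measurable (fun w : Eu d × ℝ =>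
    (Metric.closedBall (w.2 • p) r).indicator (1 : Eu d → ℝ) w.1) := by
  have : (fun w : Eu d × ℝ => (Metric.closedBall (w.2 • p) r).indicator (1 : Eu d → ℝ) w.1)
      = {w : Eu d × ℝ | dist w.1 (w.2 • p) ≤ r}.indicator 1 := by
    funext w
    simp [Set.indicator, Metric.mem_closedBall]
  rw [this]
  exact measurable_one.indicator (isClosed_le (by fun_prop) continuous_const).measurableSet

lemma ind_nonneg (s : Set (Eu d)) (z : Eu d) : 0 ≤ s.indicator (1 : Eu d → ℝ) z :=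
  Set.indicator_nonneg (fun _ _ => zero_le_one) z

lemma ind_le (s : Set (Eu d)) (z : Eu d) : s.indicator (1 : Eu d → ℝ) z ≤ 1 :=
  Set.indicator_le_self' (fun _ _ => zero_le_one) z

lemma tube_int {a : ℝ → ℝ} (ha : Dens a) (p : Eu d) (r : ℝ) (z : Eu d) :
    Integrable (fun τ : ℝ => |a τ| * (Metric.closedBall (τ • p) r).indicator (1 : Eu d → ℝ) z) :=
  ha.integrable.abs.mul_bdd (c := 1)
    ((ind_meas p r).comp (measurable_const.prodMk measurable_id)).aestronglyMeasurable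
    (Filter.Eventually.of_forall fun τ => by
      rw [Real.norm_eq_abs, abs_of_nonneg (ind_nonneg _ _)]; exact ind_le _ _)

lemma tube_nonneg (a : ℝ → ℝ) (p : Eu d) (r : ℝ) (z : Eu d) : 0 ≤ tube a p r z :=
  integral_nonneg fun _ => mul_nonneg (abs_nonneg _) (ind_nonneg _ _)

lemma tube_integral {a : ℝ → ℝ} (ha : Dens a) (p : Eu d) {r : ℝ} (hr : 0 ≤ r) :
    Integrable (tube a p r) ∧ ∫ z, tube a p r z = (∫ τ, |a τ|) * (r ^ d * vb d) := by
  obtain ⟨A, hA0, hA⟩ := ha.bdd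
  have i1 : Integrable (fun w : Eu d × ℝ =>
      |a w.2| * (Metric.closedBall (w.2 • p) r).indicator (1 : Eu d → ℝ) w.1)
      (volume.prod volume) := by
    refine integrable_of_bdd (s := Metric.closedBall 0 (r + 2 * ‖p‖) ×ˢ Set.Icc (1 / 2) 2) ?_
      (measurableSet_closedBall.prod measurableSet_Icc) ?_ (B := A * 1) (fun w => ?_)
      (fun w hw => ?_)
    · exact ((ha.meas.comp measurable_snd).abs.mul (ind_meas p r)).aestronglyMeasurable
    · rw [Measure.prod_prod]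
      exact ENNReal.mul_ne_top measure_closedBall_lt_top.ne measure_Icc_lt_top.ne
    · rw [Real.norm_eq_abs, abs_mul, abs_abs, abs_of_nonneg (ind_nonneg _ _)]
      exact mul_le_mul (hA _) (ind_le _ _) (ind_nonneg _ _) hA0
    · have h1 : a w.2 ≠ 0 := fun h0 => hw (by rw [h0]; simp)
      have h2 := Set.mem_of_indicator_ne_zero (right_ne_zero_of_mul hw)
      obtain ⟨h3, h4⟩ := ha.supp _ h1
      refine ⟨?_, h3, h4⟩
      rw [mem_closedBall_iff_norm] at h2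
      rw [mem_closedBall_zero_iff]
      calc ‖w.1‖ = ‖(w.1 - w.2 • p) + w.2 • p‖ := by congr 1; abel
        _ ≤ ‖w.1 - w.2 • p‖ + ‖w.2 • p‖ := norm_add_le _ _
        _ ≤ r + 2 * ‖p‖ := by
          refine add_le_add h2 ?_
          rw [norm_smul, Real.norm_eq_abs, abs_of_pos (by linarith)]
          exact mul_le_mul_of_nonneg_right h4 (norm_nonneg _)
  refine ⟨i1.integral_prod_left, ?_⟩
  unfold tube
  rw [integral_integral_swap i1, ← integral_mul_const]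
  congr 1
  funext τ
  rw [integral_const_mul, integral_indicator_one measurableSet_closedBall, vol_ball _ hr]

lemma count_le {ι : Type} [Fintype ι] {Q : ι → Set (Eu d)} {c : ι → Eu d} {q δ r : ℝ}
    (hq : 0 < q) (hQ : ∀ i, MeasurableSet (Q i)) (hd : Pairwise fun i j => Disjoint (Q i) (Q j))
    (hv : ∀ i, volume (Q i) = ENNReal.ofReal q) (hc : ∀ i, ∀ y ∈ Q i, ‖y - c i‖ ≤ δ)
    (hr : 0 ≤ r + δ) (x w : Eu d) :
    ∑ i, (Metric.closedBall w r).indicator (1 : Eu d → ℝ) (x - c i)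
      ≤ (r + δ) ^ d * vb d / q := by
  classical
  set s : Finset ι := Finset.univ.filter fun i => x - c i ∈ Metric.closedBall w r with hs
  have h1 : ∑ i, (Metric.closedBall w r).indicator (1 : Eu d → ℝ) (x - c i) = s.card := by
    simp only [Set.indicator, Pi.one_apply, hs]
    rw [Finset.sum_boole]
  have h2 : ∀ i, (volume : Measure (Eu d)).real (Q i) = q := fun i => by
    rw [Measure.real, hv, ENNReal.toReal_ofReal hq.le]
  have h3 : (volume : Measure (Eu d)).real (⋃ i ∈ s, Q i) = s.card * q := by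
    rw [measureReal_biUnion_finset (fun i _ j _ hij => hd hij) (fun i _ => hQ i)
      (fun i _ => by rw [hv]; exact ENNReal.ofReal_ne_top)]
    simp [h2]
  rw [h1, le_div_iff₀ hq, ← h3, ← vol_ball (x - w) hr]
  refine measureReal_mono ?_ measure_closedBall_lt_top.ne
  intro y hy
  simp only [Set.mem_iUnion] at hy
  obtain ⟨i, hi, hy⟩ := hy
  have h4 := (Finset.mem_filter.1 hi).2
  rw [mem_closedBall_iff_norm] at h4 ⊢
  calc ‖y - (x - w)‖ = ‖(y - c i) - (x - c i - w)‖ := by congr 1; abel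
    _ ≤ ‖y - c i‖ + ‖x - c i - w‖ := norm_sub_le _ _
    _ ≤ r + δ := by linarith [hc i y hy]

lemma tube_sum {a : ℝ → ℝ} (ha : Dens a) (p : Eu d) {ι : Type} [Fintype ι] {c : ι → Eu d}
    {r N : ℝ} (x : Eu d)
    (hN : ∀ w, ∑ i, (Metric.closedBall w r).indicator (1 : Eu d → ℝ) (x - c i) ≤ N) :
    ∑ i, tube a p r (x - c i) ≤ (∫ τ, |a τ|) * N := by
  unfold tube
  rw [← integral_finsetSum _ fun i _ => tube_int ha p r _, ← integral_mul_const]
  refine integral_mono (integrable_finsetSum _ fun i _ => tube_int ha p r _)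
    (ha.integrable.abs.mul_const _) fun τ => ?_
  simp only [← Finset.mul_sum]
  exact mul_le_mul_of_nonneg_left (hN _) (abs_nonneg _)

lemma dil_le_tube {a : ℝ → ℝ} (ha : Dens a) {k : Eu d → ℝ} {M ρ δ : ℝ} (p : Eu d)
    (hM : ∀ y, |k y| ≤ M) (hρ : ∀ y, k y ≠ 0 → ‖y - p‖ ≤ ρ) {y z : Eu d} (hyz : ‖z - y‖ ≤ δ) :
    |dil a k y| ≤ M * tube a p (2 * ρ + δ) z := by
  have hM0 : 0 ≤ M := (abs_nonneg _).trans (hM 0)
  unfold tube dil
  rw [← integral_const_mul, ← Real.norm_eq_abs]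
  refine norm_integral_le_of_norm_le ((tube_int ha p _ z).const_mul M)
    (Filter.Eventually.of_forall fun τ => ?_)
  by_cases h0 : a τ * k (τ⁻¹ • y) = 0
  · rw [h0, norm_zero]
    exact mul_nonneg hM0 (mul_nonneg (abs_nonneg _) (ind_nonneg _ _))
  · obtain ⟨h1, h2⟩ := ha.supp τ (left_ne_zero_of_mul h0)
    have h3 := hρ _ (right_ne_zero_of_mul h0)
    have hτ : 0 < τ := by linarith
    have h4 : y - τ • p = τ • (τ⁻¹ • y - p) := by
      rw [smul_sub, smul_smul, mul_inv_cancel₀ hτ.ne', one_smul]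
    have h5 : z ∈ Metric.closedBall (τ • p) (2 * ρ + δ) := by
      rw [mem_closedBall_iff_norm]
      calc ‖z - τ • p‖ = ‖(y - τ • p) + (z - y)‖ := by congr 1; abel
        _ ≤ ‖y - τ • p‖ + ‖z - y‖ := norm_add_le _ _
        _ ≤ 2 * ρ + δ := by
          refine add_le_add ?_ hyz
          rw [h4, norm_smul, Real.norm_eq_abs, abs_of_pos hτ]
          exact mul_le_mul h2 h3 (norm_nonneg _) (by norm_num)
    rw [Set.indicator_of_mem h5, Real.norm_eq_abs, abs_mul, Pi.one_apply, mul_one, mul_comm]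
    exact mul_le_mul_of_nonneg_right (hM _) (abs_nonneg _)

/-- the bound for one piece -/
lemma piece_le {a : ℝ → ℝ} (ha : Dens a) {k : Eu d → ℝ} {M ρ δ q : ℝ} (p : Eu d)
    (hM : ∀ y, |k y| ≤ M) (hρ : ∀ y, k y ≠ 0 → ‖y - p‖ ≤ ρ) (hρ0 : 0 ≤ ρ) (hδ0 : 0 ≤ δ)
    {ι : Type} [Fintype ι] {Q : ι → Set (Eu d)} {c : ι → Eu d} {μ : ι → Eu d → ℝ}
    (hq : 0 < q) (hQ : ∀ i, MeasurableSet (Q i)) (hd : Pairwise fun i j => Disjoint (Q i) (Q j))
    (hv : ∀ i, volume (Q i) = ENNReal.ofReal q) (hc : ∀ i, ∀ y ∈ Q i, ‖y - c i‖ ≤ δ)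
    (hμ : ∀ i, Nice (μ i)) (hμQ : ∀ i y, μ i y ≠ 0 → y ∈ Q i) :
    ∫ x, cv (dil a k) (fun y => ∑ i, μ i y) x ^ 2 ≤
      M ^ 2 * ((∫ τ, |a τ|) * ((2 * ρ + 2 * δ) ^ d * vb d)) ^ 2 * ∑ i, (∫ y, |μ i y|) ^ 2 / q := by
  have hM0 : 0 ≤ M := (abs_nonneg _).trans (hM 0)
  set A := ∫ τ, |a τ| with hA
  have hA0 : 0 ≤ A := integral_nonneg fun _ => abs_nonneg _
  set m : ι → ℝ := fun i => ∫ y, |μ i y| with hm
  have hm0 : ∀ i, 0 ≤ m i := fun i => integral_nonneg fun _ => abs_nonneg _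
  set W := tube a p (2 * ρ + δ) with hW
  have hW0 : ∀ z, 0 ≤ W z := tube_nonneg _ _ _
  obtain ⟨hWi, hWe⟩ := tube_integral ha p (r := 2 * ρ + δ) (by positivity)
  have hvb := vb_nonneg d
  set U := (2 * ρ + 2 * δ) ^ d * vb d with hU
  have hU0 : 0 ≤ U := by positivity
  have h1 : ∀ x, |cv (dil a k) (fun y => ∑ i, μ i y) x| ≤ ∑ i, M * W (x - c i) * m i := by
    intro x
    have i1 : ∀ i, Integrable (fun y => M * W (x - c i) * |μ i (x - y)|) := fun i =>
      ((hμ i).integrable.abs.comp_sub_left x).const_mul _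
    have e1 : ∑ i, M * W (x - c i) * m i = ∫ y, ∑ i, M * W (x - c i) * |μ i (x - y)| := by
      rw [integral_finsetSum _ fun i _ => i1 i]
      refine Finset.sum_congr rfl fun i _ => ?_
      rw [integral_const_mul, integral_sub_left_eq_self (fun y => |μ i y|) volume x]
    rw [e1, ← Real.norm_eq_abs]
    refine norm_integral_le_of_norm_le (integrable_finsetSum _ fun i _ => i1 i)
      (Filter.Eventually.of_forall fun y => ?_)
    rw [Real.norm_eq_abs, Finset.mul_sum]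
    refine (Finset.abs_sum_le_sum_abs _ _).trans (Finset.sum_le_sum fun i _ => ?_)
    by_cases h0 : μ i (x - y) = 0
    · simp [h0]
    · rw [abs_mul]
      refine mul_le_mul_of_nonneg_right (dil_le_tube ha p hM hρ ?_) (abs_nonneg _)
      have := hc i _ (hμQ i _ h0)
      rwa [show x - y - c i = x - c i - y by abel] at this
  have h2 : ∀ x, ∑ i, W (x - c i) ≤ A * (U / q) := fun x =>
    tube_sum ha p x fun w => by
      have := count_le hq hQ hd hv hc (r := 2 * ρ + δ) (by positivity) x w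
      rwa [show 2 * ρ + δ + δ = 2 * ρ + 2 * δ by ring] at this
  have h3 : ∀ x, cv (dil a k) (fun y => ∑ i, μ i y) x ^ 2
      ≤ ∑ i, M ^ 2 * (A * (U / q)) * m i ^ 2 * W (x - c i) := by
    intro x
    calc cv (dil a k) (fun y => ∑ i, μ i y) x ^ 2
        ≤ (∑ i, M * W (x - c i) * m i) ^ 2 := by
          rw [← sq_abs]
          exact pow_le_pow_left₀ (abs_nonneg _) (h1 x) 2
      _ ≤ (∑ i, W (x - c i)) * ∑ i, M ^ 2 * m i ^ 2 * W (x - c i) :=
          Finset.sum_sq_le_sum_mul_sum_of_sq_le_mul _ (fun i _ => hW0 _)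
            (fun i _ => mul_nonneg (by positivity) (hW0 _)) (fun i _ => le_of_eq (by ring))
      _ ≤ (A * (U / q)) * ∑ i, M ^ 2 * m i ^ 2 * W (x - c i) :=
          mul_le_mul_of_nonneg_right (h2 x)
            (Finset.sum_nonneg fun i _ => mul_nonneg (by positivity) (hW0 _))
      _ = _ := by
          rw [Finset.mul_sum]
          exact Finset.sum_congr rfl fun i _ => by ring
  have i2 : ∀ i, Integrable (fun x => M ^ 2 * (A * (U / q)) * m i ^ 2 * W (x - c i)) := fun i =>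
    (hWi.comp_sub_right (c i)).const_mul _
  refine (integral_mono_of_nonneg (Filter.Eventually.of_forall fun x => sq_nonneg _)
    (integrable_finsetSum _ fun i _ => i2 i) (Filter.Eventually.of_forall h3)).trans ?_
  rw [integral_finsetSum _ fun i _ => i2 i, Finset.mul_sum]
  refine Finset.sum_le_sum fun i _ => ?_
  rw [integral_const_mul, integral_sub_right_eq_self W (c i), hWe]
  have h4 : (2 * ρ + δ) ^ d * vb d ≤ U :=
    mul_le_mul_of_nonneg_right (pow_le_pow_left₀ (by positivity) (by linarith) d) hvb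
  calc M ^ 2 * (A * (U / q)) * m i ^ 2 * (A * ((2 * ρ + δ) ^ d * vb d))
      ≤ M ^ 2 * (A * (U / q)) * m i ^ 2 * (A * U) := by gcongr
    _ = M ^ 2 * (A * U) ^ 2 * (m i ^ 2 / q) := by ring

/-- lattice index -/
noncomputable def idx (κ : ℝ) (y : Eu d) : Fin d → ℤ := fun i => ⌊y i / κ⌋

/-- lattice point -/
noncomputable def pt (κ : ℝ) (ν : Fin d → ℤ) : Eu d := WithLp.toLp 2 fun i => κ * ν i

lemma idx_meas (κ : ℝ) : Measurable (idx (d := d) κ) :=
  measurable_pi_lambda _ fun i => Int.measurable_floor.comp (by fun_prop)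

lemma idx_close {κ : ℝ} (hκ : 0 < κ) (y : Eu d) (i : Fin d) : |y i - κ * idx κ y i| ≤ κ := by
  have h1 := Int.floor_le (y i / κ)
  have h2 := Int.lt_floor_add_one (y i / κ)
  rw [le_div_iff₀ hκ] at h1
  rw [div_lt_iff₀ hκ] at h2
  unfold idx
  rw [abs_le]
  constructor <;> nlinarith

lemma norm_le_of_coord {v : Eu d} {t : ℝ} (ht : 0 ≤ t) (h : ∀ i, |v i| ≤ t) : ‖v‖ ≤ d * t := by
  have h1 : ‖v‖ ^ 2 ≤ d * t ^ 2 := by
    rw [EuclideanSpace.norm_sq_eq]
    calc ∑ i, ‖v i‖ ^ 2 ≤ ∑ _i : Fin d, t ^ 2 :=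
          Finset.sum_le_sum fun i _ => pow_le_pow_left₀ (norm_nonneg _) (h i) 2
      _ = d * t ^ 2 := by simp
  have h2 : (d : ℝ) ≤ d ^ 2 := by exact_mod_cast Nat.le_self_pow (by norm_num) d
  refine (pow_le_pow_iff_left₀ (norm_nonneg _) (by positivity) two_ne_zero).1 (h1.trans ?_)
  rw [mul_pow]
  exact mul_le_mul_of_nonneg_right h2 (sq_nonneg _)

lemma idx_norm {κ : ℝ} (hκ : 0 < κ) (y : Eu d) : ‖y - pt κ (idx κ y)‖ ≤ d * κ :=
  norm_le_of_coord hκ.le fun i => idx_close hκ y i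

noncomputable def box (d L : ℕ) : Finset (Fin d → ℤ) :=
  Fintype.piFinset fun _ => Finset.Icc (-(L : ℤ)) L

lemma box_card (d L : ℕ) : (box d L).card = (2 * L + 1) ^ d := by
  unfold box
  rw [Fintype.card_piFinset_const, Int.card_Icc]
  congr 1
  omega

lemma idx_mem {κ : ℝ} (hκ : 0 < κ) {y : Eu d} (hy : ‖y‖ ≤ 2) : idx κ y ∈ box d ⌈2 / κ⌉₊ := by
  unfold box
  rw [Fintype.mem_piFinset]
  intro i
  have h1 : |y i| ≤ 2 := (PiLp.norm_apply_le y i).trans hy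
  have h2 : 2 / κ ≤ ⌈2 / κ⌉₊ := Nat.le_ceil _
  rw [abs_le] at h1
  have h3 : y i / κ ≤ 2 / κ := by gcongr; exact h1.2
  have h4 : -2 / κ ≤ y i / κ := by gcongr; exact h1.1
  rw [neg_div] at h4
  rw [Finset.mem_Icc]
  constructor
  · refine Int.le_floor.2 ?_
    push_cast
    linarith
  · have : ((idx κ y i : ℤ) : ℝ) ≤ ((⌈2 / κ⌉₊ : ℤ) : ℝ) := by
      push_cast
      exact (Int.floor_le _).trans (h3.trans h2)
    exact_mod_cast this

lemma slab_card {e : ℕ} (L : ℕ) (ξ : Fin (e + 1) → ℝ) (i0 : Fin (e + 1)) (h0 : ξ i0 ≠ 0)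
    (n : ℕ) (s : Finset (Fin (e + 1) → ℤ)) (hs : s ⊆ box (e + 1) L)
    (hξ : ∀ ν ∈ s, |∑ i, (ν i : ℝ) * ξ i| ≤ n * |ξ i0|) :
    s.card ≤ (4 * n + 1) * (2 * L + 1) ^ e := by
  classical
  rw [← box_card]
  refine (Finset.card_le_mul_card_image_of_maps_to (f := fun ν j => ν (i0.succAbove j))
    (fun ν hν => ?_) (4 * n + 1) fun b _ => ?_)
  · have := hs hν
    unfold box at this ⊢
    rw [Fintype.mem_piFinset] at this ⊢
    exact fun j => this _
  · rcases (s.filter fun ν => (fun j => ν (i0.succAbove j)) = b).eq_empty_or_nonempty with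
      h | ⟨ν0, hν0⟩
    · rw [h]; simp
    · have hc : (Finset.Icc (ν0 i0 - 2 * n) (ν0 i0 + 2 * n)).card = 4 * n + 1 := by
        rw [Int.card_Icc]; omega
      rw [← hc]
      obtain ⟨hs0, hb0⟩ := Finset.mem_filter.1 hν0
      refine Finset.card_le_card_of_injOn (fun ν => ν i0) (fun ν hν => ?_) fun ν hν ν' hν' h => ?_
      · obtain ⟨hs1, hb1⟩ := Finset.mem_filter.1 hν
        have h1 := hξ ν hs1
        have h2 := hξ ν0 hs0
        rw [Fin.sum_univ_succAbove _ i0] at h1 h2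
        have h3 : ∀ j, ν (i0.succAbove j) = ν0 (i0.succAbove j) := fun j =>
          congrFun (hb1.trans hb0.symm) j
        simp only [h3] at h1
        have h4 : |((ν i0 : ℝ) - ν0 i0) * ξ i0| ≤ 2 * n * |ξ i0| := by
          rw [abs_le] at h1 h2 ⊢
          constructor <;> nlinarith [h1.1, h1.2, h2.1, h2.2]
        rw [abs_mul] at h4
        have h5 := le_of_mul_le_mul_right h4 (abs_pos.2 h0)
        have h6 : |ν i0 - ν0 i0| ≤ 2 * n := by exact_mod_cast h5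
        rw [abs_le] at h6
        simp only [Finset.coe_Icc, Set.mem_Icc]
        constructor <;> omega
      · obtain ⟨_, hb1⟩ := Finset.mem_filter.1 hν
        obtain ⟨_, hb2⟩ := Finset.mem_filter.1 hν'
        funext i
        rcases Fin.eq_self_or_eq_succAbove i0 i with rfl | ⟨j, rfl⟩
        · exact h
        · exact congrFun (hb1.trans hb2.symm) j

/-- the piece of the kernel on one small cube -/
noncomputable def pc (k : Eu d → ℝ) (κ : ℝ) (ν : Fin d → ℤ) (y : Eu d) : ℝ :=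
  if idx κ y = ν then k y else 0

lemma Nice.ite {k : Eu d → ℝ} (hk : Nice k) (κ : ℝ) (p : (Fin d → ℤ) → Prop) [DecidablePred p] :
    Nice (fun y => if p (idx κ y) then k y else 0) := by
  obtain ⟨B, hB⟩ := hk.bdd
  obtain ⟨R, hR⟩ := hk.supp
  refine ⟨Measurable.ite ((idx_meas κ) (Set.to_countable {ν | p ν}).measurableSet) hk.meas
    measurable_const, ⟨B, fun x => ?_⟩, ⟨R, fun x hx => hR x fun h0 => hx (by simp [h0])⟩⟩
  split_ifs
  · exact hB x
  · simpa using (abs_nonneg _).trans (hB x)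

lemma Nice.pc {k : Eu d → ℝ} (hk : Nice k) (κ : ℝ) (ν : Fin d → ℤ) : Nice (pc k κ ν) :=
  hk.ite κ (fun μ => μ = ν)

lemma freq_le {e : ℕ} {a : ℝ → ℝ} (ha : Dens a) {k : Eu (e + 1) → ℝ} (hk : Nice k)
    {M C0 κ : ℝ} {n : ℕ} (hκ : 0 < κ) (hM : ∀ y, |k y| ≤ M) (h2 : ∀ y, k y ≠ 0 → ‖y‖ ≤ 2)
    (hC : ∀ l, (1 + |l|) ^ n * ‖Phi (e + 1) a l‖ ≤ C0) (ξ : Eu (e + 1)) :
    ‖ft (dil a k) ξ‖ ^ 2 ≤
      2 * (((4 * (e + 2) + 1) * (2 * ⌈2 / κ⌉₊ + 1) ^ e : ℕ) *
        ∑ ν ∈ box (e + 1) ⌈2 / κ⌉₊, ‖ft (dil a (pc k κ ν)) ξ‖ ^ 2) +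
      2 * (M * (C0 / (1 + κ * ‖ξ‖ / (e + 1)) ^ n) * (2 ^ (e + 1) * vb (e + 1))) ^ 2 := by
  classical
  obtain ⟨i0, hi0⟩ := Finite.exists_max (fun i => |ξ i|)
  have hξ : ‖ξ‖ ≤ (e + 1) * |ξ i0| := by
    have := norm_le_of_coord (abs_nonneg _) hi0
    rwa [Nat.cast_add, Nat.cast_one] at this
  have ht0 : 0 ≤ κ * ‖ξ‖ / (e + 1) := by positivity
  have ht1 : κ * ‖ξ‖ / (e + 1) ≤ κ * |ξ i0| := by
    rw [div_le_iff₀ (by positivity)]
    nlinarith
  set T := M * (C0 / (1 + κ * ‖ξ‖ / (e + 1)) ^ n) * (2 ^ (e + 1) * vb (e + 1)) with hT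
  set N : ℕ := (4 * (e + 2) + 1) * (2 * ⌈2 / κ⌉₊ + 1) ^ e with hN
  set Z := ∑ ν ∈ box (e + 1) ⌈2 / κ⌉₊, ‖ft (dil a (pc k κ ν)) ξ‖ ^ 2 with hZ
  have hZ0 : 0 ≤ Z := Finset.sum_nonneg fun _ _ => sq_nonneg _
  by_cases h0 : ξ i0 = 0
  · have h1 : ‖ft (dil a k) ξ‖ ≤ T := tail_le ha hk hM h2 ξ ht0 (fun y _ => by
      rw [h0] at ht1
      exact ht1.trans (by simp)) hC
    have h3 := pow_le_pow_left₀ (norm_nonneg _) h1 2
    have h4 : 0 ≤ (N : ℝ) * Z := by positivity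
    nlinarith [sq_nonneg T]
  · set s := (box (e + 1) ⌈2 / κ⌉₊).filter
      fun ν => |∑ i, (ν i : ℝ) * ξ i| ≤ ((e + 2 : ℕ) : ℝ) * |ξ i0| with hs
    have hsN : s.card ≤ N := slab_card _ (fun i => ξ i) i0 h0 (e + 2) s (Finset.filter_subset _ _)
      fun ν hν => (Finset.mem_filter.1 hν).2
    set k' : Eu (e + 1) → ℝ := fun y => if idx κ y ∉ s then k y else 0 with hk'
    have hk'n : Nice k' := hk.ite κ (fun ν => ν ∉ s)
    set k1 : Eu (e + 1) → ℝ := fun y => ∑ ν ∈ s, pc k κ ν y with hk1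
    have hk1n : Nice k1 := Nice.sum s fun ν => hk.pc κ ν
    have hall : ∀ j : Fin 2, Nice (![k1, k'] j) := by
      intro j
      fin_cases j
      · exact hk1n
      · exact hk'n
    have e1 : k = fun y => ∑ j : Fin 2, ![k1, k'] j y := by
      funext y
      simp only [Fin.sum_univ_two, Matrix.cons_val_zero, Matrix.cons_val_one, hk1, hk', pc,
        Finset.sum_ite_eq]
      split_ifs <;> simp_all
    have e2 : ft (dil a k) ξ = ∑ ν ∈ s, ft (dil a (pc k κ ν)) ξ + ft (dil a k') ξ := by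
      conv_lhs => rw [e1]
      rw [dil_sum _ ha hall, ft_sum _ (fun j => (hall j).dil ha), Fin.sum_univ_two]
      simp only [Matrix.cons_val_zero, Matrix.cons_val_one]
      rw [hk1, dil_sum _ ha (fun ν => hk.pc κ ν), ft_sum _ (fun ν => (hk.pc κ ν).dil ha)]
    have h1 : ‖ft (dil a k') ξ‖ ≤ T := by
      refine tail_le ha hk'n (fun y => ?_) (fun y hy => h2 y fun h => hy (by simp [hk', h])) ξ ht0
        (fun y hy => ht1.trans ?_) hC
      · simp only [hk']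
        split_ifs
        · simpa using (abs_nonneg _).trans (hM y)
        · exact hM y
      · have h3 : idx κ y ∉ s := fun h => hy (by simp [hk', h])
        have h4 : k y ≠ 0 := fun h => hy (by simp [hk', h])
        have h5 : ((e + 2 : ℕ) : ℝ) * |ξ i0| < |∑ i, (idx κ y i : ℝ) * ξ i| := by
          by_contra hc
          exact h3 (Finset.mem_filter.2 ⟨idx_mem hκ (h2 y h4), not_lt.1 hc⟩)
        have h6 : ⟪y, ξ⟫ = ∑ i, y i * ξ i := by
          simp [PiLp.inner_apply, mul_comm]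
        have h7 : |∑ i, (y i - κ * idx κ y i) * ξ i| ≤ (e + 1) * (κ * |ξ i0|) := by
          refine (Finset.abs_sum_le_sum_abs _ _).trans ?_
          calc ∑ i, |(y i - κ * idx κ y i) * ξ i| ≤ ∑ _i : Fin (e + 1), κ * |ξ i0| :=
                Finset.sum_le_sum fun i _ => by
                  rw [abs_mul]
                  exact mul_le_mul (idx_close hκ y i) (hi0 i) (abs_nonneg _) hκ.le
            _ = _ := by simp
        have h8 : κ * ∑ i, (idx κ y i : ℝ) * ξ i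
            = ⟪y, ξ⟫ - ∑ i, (y i - κ * idx κ y i) * ξ i := by
          rw [h6, Finset.mul_sum, ← Finset.sum_sub_distrib]
          exact Finset.sum_congr rfl fun i _ => by ring
        have h9 : κ * |∑ i, (idx κ y i : ℝ) * ξ i|
            ≤ |⟪y, ξ⟫| + |∑ i, (y i - κ * idx κ y i) * ξ i| := by
          rw [← abs_of_pos hκ, ← abs_mul, abs_of_pos hκ, h8]
          exact abs_sub _ _
        push_cast at h5
        nlinarith [mul_lt_mul_of_pos_left h5 hκ]
    have h3 : ‖∑ ν ∈ s, ft (dil a (pc k κ ν)) ξ‖ ^ 2 ≤ N * Z := by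
      calc ‖∑ ν ∈ s, ft (dil a (pc k κ ν)) ξ‖ ^ 2
          ≤ (∑ ν ∈ s, ‖ft (dil a (pc k κ ν)) ξ‖) ^ 2 :=
            pow_le_pow_left₀ (norm_nonneg _) (norm_sum_le _ _) 2
        _ ≤ s.card * ∑ ν ∈ s, ‖ft (dil a (pc k κ ν)) ξ‖ ^ 2 := sq_sum_le_card_mul_sum_sq
        _ ≤ N * Z := mul_le_mul (by exact_mod_cast hsN)
            (Finset.sum_le_sum_of_subset_of_nonneg (Finset.filter_subset _ _)
              fun _ _ _ => sq_nonneg _) (Finset.sum_nonneg fun _ _ => sq_nonneg _) (by positivity)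
    have h4 := pow_le_pow_left₀ (norm_nonneg _) h1 2
    have h5 : ‖ft (dil a k) ξ‖ ≤ ‖∑ ν ∈ s, ft (dil a (pc k κ ν)) ξ‖ + ‖ft (dil a k') ξ‖ := by
      rw [e2]; exact norm_add_le _ _
    have h6 := pow_le_pow_left₀ (norm_nonneg _) h5 2
    nlinarith [sq_nonneg (‖∑ ν ∈ s, ft (dil a (pc k κ ν)) ξ‖ - ‖ft (dil a k') ξ‖)]

lemma tail_weight {d : ℕ} (hd : 1 ≤ d) {κ t : ℝ} (hκ : 0 < κ) (hκ1 : κ ≤ 1) (ht : 0 ≤ t) :
    (κ ^ (2 * d + 4) * t / (1 + κ * t / d) ^ (d + 2)) ^ 2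
      ≤ κ * ((d : ℝ) ^ (d + 2)) ^ 2 * (1 + t) ^ (-((2 * d + 2 : ℕ) : ℝ)) := by
  have hd1 : (1 : ℝ) ≤ d := by exact_mod_cast hd
  have h1 : κ * (1 + t) / d ≤ 1 + κ * t / d := by
    rw [mul_add, add_div, mul_one]
    have : κ / d ≤ 1 := by rw [div_le_one (by positivity)]; linarith
    linarith
  have h2 : κ ^ (2 * d + 4) * t / (1 + κ * t / d) ^ (d + 2)
      ≤ κ ^ (d + 2) * d ^ (d + 2) / (1 + t) ^ (d + 1) := by
    calc κ ^ (2 * d + 4) * t / (1 + κ * t / d) ^ (d + 2)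
        ≤ κ ^ (2 * d + 4) * (1 + t) / (κ * (1 + t) / d) ^ (d + 2) := by
          gcongr
          linarith
      _ = κ ^ (d + 2) * d ^ (d + 2) / (1 + t) ^ (d + 1) := by
          rw [div_pow, mul_pow]
          field_simp
          ring
  have h3 : (κ ^ (d + 2)) ^ 2 ≤ κ := by
    rw [← pow_mul]
    exact pow_le_of_le_one hκ.le hκ1 (by omega)
  rw [Real.rpow_neg (by positivity), Real.rpow_natCast]
  calc _ ≤ (κ ^ (d + 2) * d ^ (d + 2) / (1 + t) ^ (d + 1)) ^ 2 :=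
        pow_le_pow_left₀ (by positivity) h2 2
    _ = (κ ^ (d + 2)) ^ 2 * ((d : ℝ) ^ (d + 2)) ^ 2 * ((1 + t) ^ (2 * d + 2))⁻¹ := by
        rw [div_pow, mul_pow, ← pow_mul (1 + t), div_eq_mul_inv]
        congr 3
        ring
    _ ≤ _ := by gcongr

end SG

open SG in
theorem seeger (d : ℕ) (hd : 1 ≤ d) : SeegerStmt d := by
  intro a ha1 ha2 C1 V hC1 hV
  have ha : Dens a := ⟨ha1, ha2⟩
  obtain ⟨e, rfl⟩ : ∃ e, d = e + 1 := ⟨d - 1, by omega⟩
  obtain ⟨C0, hC00, hC0⟩ := Phi_decay (e + 1) (e + 1 + 2) ha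
  have hvb := vb_nonneg (e + 1)
  set A := ∫ τ, |a τ| with hA
  have hA0 : 0 ≤ A := integral_nonneg fun _ => abs_nonneg _
  have iJ : Integrable (fun ξ : Eu (e + 1) => (1 + ‖ξ‖) ^ (-((2 * (e + 1) + 2 : ℕ) : ℝ))) := by
    refine integrable_one_add_norm ?_
    rw [finrank_euclideanSpace_fin]
    exact_mod_cast (by omega : e + 1 < 2 * (e + 1) + 2)
  set J := ∫ ξ : Eu (e + 1), (1 + ‖ξ‖) ^ (-((2 * (e + 1) + 2 : ℕ) : ℝ)) with hJ
  have hJ0 : 0 ≤ J := integral_nonneg fun ξ => by positivity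
  set D1 : ℝ := 2 * ((4 * (e + 2) + 1) * 7 ^ (2 * e + 1) *
    (A * ((2 * (e + 1) + 2 * C1) ^ (e + 1) * vb (e + 1))) ^ 2) with hD1
  set D2 : ℝ := 2 * (C0 * (2 ^ (e + 1) * vb (e + 1)) * (2 * Real.pi * C1)) ^ 2 * V *
    (((e + 1 : ℕ) : ℝ) ^ (e + 1 + 2)) ^ 2 with hD2
  refine ⟨D1 + D2 * J, by positivity, ?_⟩
  intro k M hk hM h2 κ hκ hκ1 ι _ Q c q B μ hq hQ hdis hv hc hcard hμm hμB hμQ hμ0
  have hM0 : 0 ≤ M := (abs_nonneg _).trans (hM 0)
  have hkn : Nice k := ⟨hk, ⟨M, hM⟩, ⟨2, h2⟩⟩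
  set δ := C1 * κ ^ (2 * (e + 1) + 4) with hδ
  have hδ0 : 0 ≤ δ := by positivity
  have hδ1 : δ ≤ C1 * κ := mul_le_mul_of_nonneg_left (pow_le_of_le_one hκ.le hκ1 (by omega)) hC1
  have hμn : ∀ i, Nice (μ i) := fun i => ⟨hμm i, ⟨B, hμB i⟩, ⟨δ + ‖c i‖, fun y hy => by
    have := hc i y (hμQ i y hy)
    linarith [norm_sub_norm_le y (c i)]⟩⟩
  set ν0 : Eu (e + 1) → ℝ := fun y => ∑ i, μ i y with hν0
  have hνn : Nice ν0 := Nice.sum _ hμn
  set S := ∑ i, (∫ y, |μ i y|) ^ 2 / q with hS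
  have hS0 : 0 ≤ S := Finset.sum_nonneg fun _ _ => by positivity
  set L := ⌈2 / κ⌉₊ with hL
  have hL7 : κ * (2 * L + 1) ≤ 7 := by
    have h1 : (L : ℝ) < 2 / κ + 1 := Nat.ceil_lt_add_one (by positivity)
    have h3 : κ * L ≤ κ * (2 / κ + 1) := mul_le_mul_of_nonneg_left h1.le hκ.le
    rw [mul_add, mul_div_cancel₀ _ hκ.ne'] at h3
    nlinarith
  set N : ℕ := (4 * (e + 2) + 1) * (2 * L + 1) ^ e with hN
  -- the size of the transform of the atoms
  have hm : (∑ i, ∫ y, |μ i y|) ^ 2 ≤ V * S := by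
    calc (∑ i, ∫ y, |μ i y|) ^ 2 ≤ (Finset.univ : Finset ι).card * ∑ i, (∫ y, |μ i y|) ^ 2 :=
          sq_sum_le_card_mul_sum_sq
      _ = (Fintype.card ι * q) * S := by
          rw [hS, ← Finset.sum_div, Finset.card_univ]
          field_simp
      _ ≤ V * S := mul_le_mul_of_nonneg_right hcard hS0
  have hν : ∀ ξ, ‖ft ν0 ξ‖ ^ 2 ≤ (2 * Real.pi * δ * ‖ξ‖) ^ 2 * (V * S) := by
    intro ξ
    have h1 : ‖ft ν0 ξ‖ ≤ 2 * Real.pi * δ * ‖ξ‖ * ∑ i, ∫ y, |μ i y| := by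
      rw [hν0, ft_sum _ hμn, Finset.mul_sum]
      exact (norm_sum_le _ _).trans (Finset.sum_le_sum fun i _ =>
        ft_cancel (hμn i) (hμ0 i) (c i) (fun y hy => hc i y (hμQ i y hy)) ξ)
    refine (pow_le_pow_left₀ (norm_nonneg _) h1 2).trans ?_
    rw [mul_pow]
    exact mul_le_mul_of_nonneg_left hm (sq_nonneg _)
  have hp : ∀ ν, Nice (cv (dil a (pc k κ ν)) ν0) := fun ν => ((hkn.pc κ ν).dil ha).cv hνn
  have hpt : ∀ ξ, ‖ft (cv (dil a k) ν0) ξ‖ ^ 2 ≤
      2 * N * ∑ ν ∈ box (e + 1) L, ‖ft (cv (dil a (pc k κ ν)) ν0) ξ‖ ^ 2 +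
        D2 * M ^ 2 * κ * S * (1 + ‖ξ‖) ^ (-((2 * (e + 1) + 2 : ℕ) : ℝ)) := by
    intro ξ
    have h1 := freq_le ha hkn hκ hM h2 hC0 ξ
    have h3 := tail_weight (d := e + 1) (by omega) hκ hκ1 (norm_nonneg ξ)
    simp only [ft_cv ((hkn.pc κ _).dil ha) hνn, ft_cv (hkn.dil ha) hνn, norm_mul, mul_pow,
      ← Finset.sum_mul]
    refine (mul_le_mul_of_nonneg_right h1 (sq_nonneg _)).trans ?_
    rw [add_mul]
    refine add_le_add (le_of_eq (by rw [hN, hL]; ring)) ?_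
    refine (mul_le_mul_of_nonneg_left (hν ξ) (by positivity)).trans ?_
    have h4 := mul_le_mul_of_nonneg_left h3 (by positivity :
      0 ≤ 2 * (C0 * (2 ^ (e + 1) * vb (e + 1)) * (2 * Real.pi * C1)) ^ 2 * V * M ^ 2 * S)
    refine le_trans (le_of_eq ?_) (h4.trans (le_of_eq ?_))
    · rw [hδ]; push_cast; ring
    · rw [hD2]; ring
  have hpiece : ∀ ν, ∫ x, cv (dil a (pc k κ ν)) ν0 x ^ 2 ≤ M ^ 2 *
      (A * ((2 * (e + 1) + 2 * C1) ^ (e + 1) * vb (e + 1))) ^ 2 * κ ^ (2 * e + 2) * S := by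
    intro ν
    refine (piece_le ha (k := pc k κ ν) (M := M) (ρ := ((e + 1 : ℕ) : ℝ) * κ) (pt κ ν)
      (fun y => ?_) (fun y hy => ?_) (by positivity) hδ0 hq hQ hdis hv hc hμn hμQ).trans ?_
    · unfold pc
      split_ifs
      · exact hM y
      · simpa using hM0
    · have : idx κ y = ν := by
        by_contra h
        exact hy (by simp [pc, h])
      rw [← this]
      exact idx_norm hκ y
    · refine mul_le_mul_of_nonneg_right ?_ hS0
      have h1 : (2 * (((e + 1 : ℕ) : ℝ) * κ) + 2 * δ) ^ (e + 1)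
          ≤ ((2 * (e + 1) + 2 * C1) * κ) ^ (e + 1) :=
        pow_le_pow_left₀ (by positivity) (by push_cast; nlinarith) _
      calc _ ≤ M ^ 2 * (A * (((2 * (e + 1) + 2 * C1) * κ) ^ (e + 1) * vb (e + 1))) ^ 2 := by
            gcongr
        _ = _ := by rw [mul_pow _ κ]; ring
  have i1 : Integrable (fun ξ => ∑ ν ∈ box (e + 1) L, ‖ft (cv (dil a (pc k κ ν)) ν0) ξ‖ ^ 2) :=
    integrable_finsetSum _ fun ν _ => (plancherel (hp ν)).1
  change ∫ x, cv (dil a k) ν0 x ^ 2 ≤ _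
  rw [← (plancherel ((hkn.dil ha).cv hνn)).2]
  refine (integral_mono_of_nonneg (Filter.Eventually.of_forall fun ξ => sq_nonneg _)
    ((i1.const_mul _).add (iJ.const_mul _)) (Filter.Eventually.of_forall hpt)).trans ?_
  rw [integral_add' (i1.const_mul _) (iJ.const_mul _), integral_const_mul, integral_const_mul,
    integral_finsetSum _ fun ν _ => (plancherel (hp ν)).1]
  simp only [(plancherel (hp _)).2]
  have h1 := Finset.sum_le_card_nsmul (box (e + 1) L) _ _ fun ν _ => hpiece ν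
  rw [box_card, nsmul_eq_mul] at h1
  have h3 : (κ * (2 * L + 1)) ^ (2 * e + 1) ≤ 7 ^ (2 * e + 1) :=
    pow_le_pow_left₀ (by positivity) hL7 _
  have h4 := mul_le_mul_of_nonneg_left h3 (by positivity : (0 : ℝ) ≤ 2 * ((4 * (e + 2) + 1) *
    (A * ((2 * (e + 1) + 2 * C1) ^ (e + 1) * vb (e + 1))) ^ 2) * M ^ 2 * κ * S)
  have h5 := mul_le_mul_of_nonneg_left h1 (by positivity : (0 : ℝ) ≤ 2 * N)
  rw [add_mul, add_mul, add_mul]
  refine add_le_add (h5.trans (le_trans (le_of_eq ?_) (h4.trans (le_of_eq ?_)))) (le_of_eq ?_)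
  · rw [hN, mul_pow κ]; push_cast; ring
  · rw [hD1]; ring
  · ring

end Pool.Agent.P.MP_70f35d_an
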