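import Pool.Agent.P.MP_70f35d_an.MainT

set_option autoImplicit false
open Finset

namespace Pool.Agent.P.MP_70f35d_an

variable {X : Type} [Fintype X]

lemma sq_sum_le2 (y : ℕ → ℝ) (r n : ℕ) :
    (∑ t ∈ Ico r n, y t) ^ 2 ≤ 2 * ∑ t ∈ Ico r n, y t * ∑ t' ∈ Ico t n, y t' := by
  rcases le_or_gt r n with h | h
  · induction n, h using Nat.le_induction with
    | base => simp
    | succ n hn ih =>
      have e : ∀ t ∈ Ico r (n + 1), y t * ∑ t' ∈ Ico t (n + 1), y t' =
          y t * ∑ t' ∈ Ico t n, y t' + y t * y n := by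
        intro t ht
        rw [sum_Ico_succ_top (by have := mem_Ico.1 ht; omega), mul_add]
      rw [sum_congr rfl e, sum_add_distrib, ← sum_mul, sum_Ico_succ_top hn, sum_Ico_succ_top hn,
        Ico_self, sum_empty]
      nlinarith [sq_nonneg (y n)]
  · rw [Ico_eq_empty_of_le h.le]; simp

lemma sum_Ico_split (Y : ℕ → ℝ) {t n : ℕ} (h : t ≤ n) (N : ℕ) :
    ∑ t' ∈ Ico t n, Y t' = ∑ s ∈ range (min N (n - t)), Y (t + s) + ∑ t' ∈ Ico (t + N) n, Y t' := by
  rcases le_total (t + N) n with h1 | h1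
  · rw [min_eq_left (by omega), ← sum_Ico_consecutive Y (Nat.le_add_right t N) h1,
      sum_Ico_eq_sum_range, Nat.add_sub_cancel_left]
  · rw [min_eq_right (by omega), Ico_eq_empty_of_le h1, sum_empty, add_zero, sum_Ico_eq_sum_range]

/-- splitting of a square of a double sum into near and far products -/
lemma nearfar (P : Setoid X) {σ : X → ℝ} (hσ : ∀ y, 0 ≤ σ y) (J : Finset ℕ) (N : ℕ → ℕ)
    (D : ℕ → ℕ → X → ℝ) (r n : ℕ) (x : X) {a : ℕ → ℕ → ℕ → ℝ} {b : ℕ → ℕ → ℝ}
    (ha0 : ∀ t j s, 0 ≤ a t j s)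
    (ha : ∀ t ∈ Ico r n, ∀ j ∈ J, ∀ s,
      E P (fun y => σ y * (D t j y * ∑ j' ∈ J, D (t + s) j' y)) x ≤ a t j s)
    (hb : ∀ t ∈ Ico r n, ∀ j ∈ J, E P (fun y => σ y *
      (D t j y * ∑ t' ∈ Ico (t + N j) n, ∑ j' ∈ J, D t' j' y)) x ≤ b t j) :
    E P (fun y => σ y * (∑ t ∈ Ico r n, ∑ j ∈ J, D t j y) ^ 2) x ≤
      2 * ∑ t ∈ Ico r n, ∑ j ∈ J, (∑ s ∈ range (N j), a t j s + b t j) := by
  calc _ ≤ E P (fun y => 2 * ∑ t ∈ Ico r n, ∑ j ∈ J,
        (∑ s ∈ range (min (N j) (n - t)), σ y * (D t j y * ∑ j' ∈ J, D (t + s) j' y) +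
          σ y * (D t j y * ∑ t' ∈ Ico (t + N j) n, ∑ j' ∈ J, D t' j' y))) x := by
        refine E_mono fun y _ => ?_
        refine (mul_le_mul_of_nonneg_left (sq_sum_le2 (fun t => ∑ j ∈ J, D t j y) r n)
          (hσ y)).trans (le_of_eq ?_)
        rw [mul_left_comm, mul_sum]
        congr 1
        refine sum_congr rfl fun t ht => ?_
        rw [sum_mul, mul_sum]
        refine sum_congr rfl fun j _ => ?_
        rw [sum_Ico_split (fun t => ∑ j ∈ J, D t j y) (mem_Ico.1 ht).2.le (N j), ← mul_sum,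
          ← mul_sum]
        ring
    _ ≤ _ := by
        rw [E_cmul, E_sum]
        refine mul_le_mul_of_nonneg_left (sum_le_sum fun t ht => ?_) zero_le_two
        rw [E_sum]
        refine sum_le_sum fun j hj => ?_
        rw [E_add, E_sum]
        refine add_le_add ((sum_le_sum fun s _ => ha t ht j hj s).trans ?_) (hb t ht j hj)
        exact sum_le_sum_of_subset_of_nonneg (range_subset_range.2 (min_le_left _ _))
          fun s _ _ => ha0 t j s

lemma sum_two_pow_le (M : ℕ) : ∑ j ∈ range M, (2 : ℝ) ^ j ≤ 2 ^ M := by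
  induction M with
  | zero => simp
  | succ M ih => rw [sum_range_succ, pow_succ]; linarith

lemma sum_pow_I (M a b : ℕ) (h : a ≤ b) :
    ∑ j ∈ range M, (2 : ℝ) ^ j * I (a + 2 ^ j ≤ b) ≤ 2 * ((b : ℝ) - a) := by
  have hab : (a : ℝ) ≤ b := by exact_mod_cast h
  induction M with
  | zero => simp; linarith
  | succ M ih =>
    rw [sum_range_succ]
    by_cases h1 : a + 2 ^ M ≤ b
    · have h2 : (a : ℝ) + 2 ^ M ≤ b := by exact_mod_cast h1
      have h3 : ∑ j ∈ range M, (2 : ℝ) ^ j * I (a + 2 ^ j ≤ b) ≤ 2 ^ M :=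
        (sum_le_sum fun j _ => mul_le_of_le_one_right (by positivity) (I_le_one _)).trans
          (sum_two_pow_le M)
      rw [I_of h1]; linarith
    · rw [I_not h1]; linarith

/-- localized Carleson embedding for Lebesgue measure -/
lemma carl_loc {P : ℕ → Setoid X} (hP : Filt P) {α : ℕ → X → ℝ} {h : X → ℝ} {C : ℝ} {n : ℕ}
    (h0 : ∀ x, 0 ≤ h x) (hC : 0 ≤ C) (hα : ∀ t x, 0 ≤ α t x)
    (hc : ∀ r x, E (P r) (fun y => ∑ t ∈ Ico r n, α t y) x ≤ C) (r : ℕ) (x : X) :
    E (P r) (fun y => ∑ t ∈ Ico r n, α t y * E (P t) h y ^ 2) x ≤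
      4 * C * E (P r) (fun y => h y ^ 2) x := by
  classical
  have key := carleson hP (α := fun t y => I (r ≤ t) * α t y) (σ := fun _ => 1)
    (f := fun y => I (P r x y) * h y) (C := C) (n := n) (fun _ => one_pos)
    (fun y => mul_nonneg (I_nonneg _) (h0 y)) hC (fun t y => mul_nonneg (I_nonneg _) (hα t y))
    fun r' _ y => by
      rw [E_const, mul_one]
      exact (E_mono fun z _ => sum_le_sum fun t _ =>
        mul_le_of_le_one_left (hα t z) (I_le_one _)).trans (hc r' y)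
  simp only [Ew_one, one_mul] at key
  unfold E
  rw [← mul_div_assoc]
  refine div_le_div_of_nonneg_right ?_ (card_cls_pos _ _).le
  have e2 : ∑ y, (I (P r x y) * h y) ^ 2 = ∑ y ∈ cls (P r) x, h y ^ 2 := by
    rw [cls, sum_filter]
    refine sum_congr rfl fun y _ => ?_
    by_cases hy : P r x y
    · rw [I_of hy, if_pos hy, one_mul]
    · rw [I_not hy, if_neg hy]; simp
  rw [e2, sum_comm] at key
  refine le_trans ?_ key
  refine le_trans (sum_le_sum fun y hy => ?_) (sum_le_sum_of_subset_of_nonneg (subset_univ _)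
    fun y _ _ => sum_nonneg fun t _ => mul_nonneg (mul_nonneg (I_nonneg _) (hα t y)) (sq_nonneg _))
  refine le_trans (le_of_eq (sum_congr rfl fun t ht => ?_)) (sum_le_sum_of_subset_of_nonneg
    (s := Ico r n) (fun t ht => mem_range.2 (mem_Ico.1 ht).2)
    fun t _ _ => mul_nonneg (mul_nonneg (I_nonneg _) (hα t y)) (sq_nonneg _))
  have e3 : E (P t) (fun z => I (P r x z) * h z) y = E (P t) h y := E_congr fun z hz => by
    rw [I_of ((P r).trans' (mem_cls.1 hy) (hP.mono (mem_Ico.1 ht).1 hz)), one_mul]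
  rw [I_of (mem_Ico.1 ht).1, one_mul, e3]
  rfl

namespace Cor

variable (S : Cor X)

lemma w_le_sqrt (t : ℕ) (x : X) :
    E (S.P t) S.w x ≤ S.A * E (S.P t) (fun y => √(S.w y)) x ^ 2 := by
  set a := E (S.P t) (fun y => √(S.w y)) x with ha
  have ha0 : 0 < a := E_pos fun y => Real.sqrt_pos.2 (S.hw y)
  have h1 : E (S.P t) (fun _ => (3 : ℝ)) x ≤
      E (S.P t) (fun y => (2 / a) * √(S.w y) + a ^ 2 * S.σ y) x := by
    refine E_mono fun y _ => ?_
    have hw := S.hw y
    have hs := Real.sqrt_pos.2 hw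
    have h2 := S.hσw y
    rw [← Real.sq_sqrt hw.le] at h2
    set z := √(S.w y) / a with hz
    have hz0 : 0 < z := by positivity
    have e : √(S.w y) = z * a := by rw [hz]; field_simp
    have e2 : 2 / a * √(S.w y) = 2 * z := by rw [hz]; field_simp
    rw [e2]
    rw [e] at h2
    refine le_of_mul_le_mul_left ?_ (pow_pos hz0 2)
    nlinarith [mul_nonneg (sq_nonneg (z - 1)) (by positivity : 0 ≤ 2 * z + 1)]
  rw [E_const, E_add, E_cmul, E_cmul, ← ha, div_mul_cancel₀ _ ha0.ne'] at h1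
  have h2 := S.hA t x
  have h3 := E_pos (P := S.P t) (x := x) S.hw
  nlinarith [mul_le_mul_of_nonneg_left h2 (sq_nonneg a)]

variable {S}

lemma Good.gsub {μ : X → ℝ} {κ : ℝ} (h : S.Good μ κ) (hκ : 0 ≤ κ) {r m : ℕ} (hr : r ≤ m) (x : X) :
    κ * E (S.P r) (fun y => ((S.g m y : ℝ) - S.g r y) * μ y) x ≤ E (S.P r) μ x := by
  refine le_trans (mul_le_mul_of_nonneg_left (E_mono fun y _ => ?_) hκ) (h.count r (m + 1) x)
  rw [← sum_mul]
  exact mul_le_mul_of_nonneg_right (S.g_sub y hr) (h.1 y)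

lemma Good.gam2 {μ : X → ℝ} {κ : ℝ} (h : S.Good μ κ) (hκ : 0 ≤ κ) (N r n : ℕ) (x : X) :
    κ * E (S.P r) (fun y => ∑ t ∈ Ico r n, ((S.g (t + N) y : ℝ) - S.g t y) * μ y) x ≤
      N * E (S.P r) μ x := by
  rcases le_or_gt r n with hr | hr
  · have h1 := mul_le_mul_of_nonneg_left (h.gsub hκ (hr.trans (Nat.le_add_right n N)) x)
      (Nat.cast_nonneg N)
    refine le_trans ?_ h1
    rw [mul_left_comm, ← E_cmul _ (N : ℝ)]
    refine mul_le_mul_of_nonneg_left (E_mono fun y _ => ?_) hκ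
    rw [← sum_mul, ← mul_assoc]
    refine mul_le_mul_of_nonneg_right ?_ (h.1 y)
    have h2 := window_sum (c := fun q => (S.g q y : ℝ) - S.g r y) (p := r) (n := n) (s := N)
      (K := (S.g (n + N) y : ℝ) - S.g r y)
      (sub_nonneg.2 (by exact_mod_cast S.g_mono y (by omega)))
      (fun q hq => sub_nonneg.2 (by exact_mod_cast S.g_mono y hq))
      (fun q _ hq => sub_le_sub_right (by exact_mod_cast S.g_mono y hq) _)
    refine le_trans (le_of_eq (sum_congr rfl fun t _ => by ring)) h2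
  · simp only [Ico_eq_empty_of_le hr.le, sum_empty, E_const, mul_zero]
    exact mul_nonneg (Nat.cast_nonneg N) (E_nonneg h.1)

variable (S)

noncomputable def sun (C M t : ℕ) (y : X) : ℝ :=
  I (∃ j < M, S.g t y + 2 ^ j ≤ S.g (t + C * 2 ^ j) y)

lemma sunrise_pt (C M n : ℕ) (y : X) (k : ℕ) : ∀ r, n ≤ r + k → r ≤ n + C * 2 ^ M →
    ∑ t ∈ Ico r n, S.sun C M t y ≤ C * ((S.g (n + C * 2 ^ M) y : ℝ) - S.g r y) := by
  have h0 : ∀ r, n ≤ r → r ≤ n + C * 2 ^ M →
      ∑ t ∈ Ico r n, S.sun C M t y ≤ C * ((S.g (n + C * 2 ^ M) y : ℝ) - S.g r y) := by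
    intro r h1 h2
    rw [Ico_eq_empty_of_le h1, sum_empty]
    exact mul_nonneg (Nat.cast_nonneg C) (sub_nonneg.2 (by exact_mod_cast S.g_mono y h2))
  induction k with
  | zero => exact fun r h1 h2 => h0 r h1 h2
  | succ k ih =>
    intro r h1 h2
    rcases le_or_gt n r with h3 | h3
    · exact h0 r h3 h2
    by_cases hb : ∃ j < M, S.g r y + 2 ^ j ≤ S.g (r + C * 2 ^ j) y
    · obtain ⟨j, hj, hb⟩ := hb
      have h4 : C * 2 ^ j ≤ C * 2 ^ M :=
        Nat.mul_le_mul_left C (Nat.pow_le_pow_right (by norm_num) hj.le)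
      have h5 : 1 ≤ C * 2 ^ j := by
        by_contra hn
        have h6 : C * 2 ^ j = 0 := by omega
        have := Nat.one_le_two_pow (n := j)
        rw [h6, add_zero] at hb; omega
      have h6 := ih (r + C * 2 ^ j) (by omega) (by omega)
      have h7 : (S.g r y : ℝ) + 2 ^ j ≤ S.g (r + C * 2 ^ j) y := by exact_mod_cast hb
      rw [sum_Ico_split _ h3.le (C * 2 ^ j)]
      have h8 : ∑ s ∈ range (min (C * 2 ^ j) (n - r)), S.sun C M (r + s) y ≤ C * 2 ^ j := by
        refine (sum_le_card_nsmul _ _ 1 fun s _ => I_le_one _).trans ?_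
        rw [card_range, nsmul_eq_mul, mul_one]
        exact_mod_cast min_le_left _ _
      nlinarith [mul_le_mul_of_nonneg_left h7 (Nat.cast_nonneg C : (0 : ℝ) ≤ C)]
    · rw [sum_eq_sum_Ico_succ_bot h3, sun, I_not hb, zero_add]
      refine (ih (r + 1) (by omega) (by omega)).trans (mul_le_mul_of_nonneg_left
        (sub_le_sub_left ?_ _) (Nat.cast_nonneg C))
      exact_mod_cast S.g_mono y (Nat.le_succ r)

lemma sunrise {μ : X → ℝ} {κ : ℝ} (h : S.Good μ κ) (hκ : 0 < κ) (C M r n : ℕ) (x : X) :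
    E (S.P r) (fun y => ∑ t ∈ Ico r n, S.sun C M t y * μ y) x ≤ C / κ * E (S.P r) μ x := by
  rcases le_or_gt r n with hr | hr
  · have h1 := mul_le_mul_of_nonneg_left (h.gsub hκ.le
      (hr.trans (Nat.le_add_right n (C * 2 ^ M))) x) (Nat.cast_nonneg C)
    rw [div_mul_eq_mul_div, le_div_iff₀ hκ, mul_comm]
    refine le_trans ?_ h1
    rw [mul_left_comm, ← E_cmul _ (C : ℝ)]
    refine mul_le_mul_of_nonneg_left (E_mono fun y _ => ?_) hκ.le
    rw [← sum_mul, ← mul_assoc]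
    exact mul_le_mul_of_nonneg_right (S.sunrise_pt C M n y n r (by omega) (by omega)) (h.1 y)
  · simp only [Ico_eq_empty_of_le hr.le, sum_empty, E_const]
    exact mul_nonneg (by positivity) (E_nonneg h.1)

lemma sun_nonneg (C M t : ℕ) (y : X) : 0 ≤ S.sun C M t y := I_nonneg _
lemma sun_le_one (C M t : ℕ) (y : X) : S.sun C M t y ≤ 1 := I_le_one _

lemma sun_meas (C M t : ℕ) : Meas (S.P (t + C * 2 ^ M)) (S.sun C M t) := fun x y h => by
  refine congrArg I (propext (exists_congr fun j => and_congr_right fun hj => ?_))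
  have h4 : C * 2 ^ j ≤ C * 2 ^ M :=
    Nat.mul_le_mul_left C (Nat.pow_le_pow_right (by norm_num) hj.le)
  rw [S.g_meas (S.hP.mono (Nat.le_add_right _ _) h), S.g_meas (S.hP.mono (by omega) h)]

/-- the little lemma -/
lemma sun_w (C M r n : ℕ) (x : X) :
    E (S.P r) (fun y => ∑ t ∈ Ico r n, S.sun C M t y * E (S.P t) S.w y) x ≤
      8 * C * S.A * E (S.P r) S.w x := by
  have hA := S.hA1
  have h1 := carl_loc S.hP (α := S.sun C M) (h := fun y => √(S.w y)) (C := 2 * C) (n := n)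
    (fun _ => Real.sqrt_nonneg _) (by positivity) (S.sun_nonneg C M) (fun r x => by
      have := S.sunrise S.good_one (by norm_num) C M r n x
      simp only [mul_one, E_const] at this
      linarith) r x
  simp only [Real.sq_sqrt (S.hw _).le] at h1
  calc _ ≤ E (S.P r) (fun y => S.A * ∑ t ∈ Ico r n, S.sun C M t y *
          E (S.P t) (fun y => √(S.w y)) y ^ 2) x := by
        refine E_mono fun y _ => ?_
        rw [mul_sum]
        refine sum_le_sum fun t _ => ?_
        have := mul_le_mul_of_nonneg_left (S.w_le_sqrt t y) (S.sun_nonneg C M t y)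
        linarith
    _ ≤ _ := by
        rw [E_cmul]
        have := mul_le_mul_of_nonneg_left h1 (by linarith : 0 ≤ S.A)
        linarith

end Cor

end Pool.Agent.P.MP_70f35d_an
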