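import Pool.Agent.P.MP_70f35d_an.ShA

set_option autoImplicit false
open Finset

namespace Pool.Agent.P.MP_70f35d_an

variable {X : Type} [Fintype X]

namespace Cor

variable (S : Cor X)

noncomputable def χ (C j t : ℕ) (y : X) : ℝ :=
  I (S.g t y + 2 ^ j ≤ S.g (t + C * 2 ^ j) y ∧
    ¬ ∃ j' < j, S.g t y + 2 ^ j' ≤ S.g (t + C * 2 ^ j') y)

lemma χ_nonneg (C j t : ℕ) (y : X) : 0 ≤ S.χ C j t y := I_nonneg _
lemma χ_le_one (C j t : ℕ) (y : X) : S.χ C j t y ≤ 1 := I_le_one _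
lemma χ_le_Γ (C j t : ℕ) (y : X) : S.χ C j t y ≤ S.Γ (2 ^ j) (C * 2 ^ j) t y :=
  I_mono fun h => h.1

lemma χ_meas (C j t : ℕ) : Meas (S.P (t + C * 2 ^ j)) (S.χ C j t) := fun x y h => by
  refine congrArg I (propext (and_congr ?_ (not_congr
    (exists_congr fun j' => and_congr_right fun hj => ?_))))
  · rw [S.g_meas (S.hP.mono (Nat.le_add_right _ _) h), S.g_meas h]
  · have h4 : C * 2 ^ j' ≤ C * 2 ^ j :=
      Nat.mul_le_mul_left C (Nat.pow_le_pow_right (by norm_num) hj.le)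
    rw [S.g_meas (S.hP.mono (Nat.le_add_right _ _) h), S.g_meas (S.hP.mono (by omega) h)]

lemma sum_χ (C M t : ℕ) (y : X) : ∑ j ∈ range M, S.χ C j t y = S.sun C M t y := by
  induction M with
  | zero => rw [range_zero, sum_empty, sun, I_not (by simp)]
  | succ M ih =>
    rw [sum_range_succ, ih, sun, sun, χ]
    by_cases h1 : ∃ j < M, S.g t y + 2 ^ j ≤ S.g (t + C * 2 ^ j) y
    · obtain ⟨j, hj, h⟩ := id h1
      rw [I_of h1, I_not fun h' => h'.2 h1, I_of ⟨j, by omega, h⟩, add_zero]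
    · rw [I_not h1, zero_add]
      refine congrArg I (propext ⟨fun h => ⟨M, by omega, h.1⟩, fun ⟨j, hj, h⟩ => ⟨?_, h1⟩⟩)
      rcases (Nat.lt_succ_iff.1 hj).eq_or_lt with rfl | h2
      · exact h
      · exact (h1 ⟨j, h2, h⟩).elim

noncomputable def ψ (C M j t : ℕ) : X → ℝ :=
  E (S.P t) fun y => S.Γ (2 ^ j) (C * 2 ^ M) t y * S.w y

lemma ψ_nonneg (C M j t : ℕ) (x : X) : 0 ≤ S.ψ C M j t x := S.swap.EΓ_nonneg _ _ t x
lemma ψ_le (C M j t : ℕ) (x : X) : S.ψ C M j t x ≤ E (S.P t) S.w x := S.swap.EΓ_le _ _ t x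
lemma ψ_meas (C M j t : ℕ) : Meas (S.P t) (S.ψ C M j t) := E_meas _ _

noncomputable def ρ (C j t : ℕ) : X → ℝ := E (S.P t) fun y => S.χ C j t y * S.σ y

lemma ρ_nonneg (C j t : ℕ) (x : X) : 0 ≤ S.ρ C j t x :=
  E_nonneg fun y => mul_nonneg (S.χ_nonneg C j t y) (S.hσ y).le

lemma sum_ρ (C M t : ℕ) (x : X) : ∑ j ∈ range M, S.ρ C j t x =
    E (S.P t) (fun y => S.sun C M t y * S.σ y) x := by
  simp only [ρ, ← E_sum, ← sum_mul, sum_χ]

noncomputable def θ (C j t : ℕ) (x : X) : ℝ := S.ρ C j t x / E (S.P t) S.σ x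

lemma θ_nonneg (C j t : ℕ) (x : X) : 0 ≤ S.θ C j t x :=
  div_nonneg (S.ρ_nonneg C j t x) (E_pos S.hσ).le

lemma θ_meas (C j t : ℕ) : Meas (S.P t) (S.θ C j t) := fun x y h => by
  simp only [θ, ρ, E_meas _ _ x y h]

lemma sum_θ (C M t : ℕ) (x : X) : ∑ j ∈ range M, S.θ C j t x ≤ 1 := by
  simp only [θ]
  rw [← sum_div, sum_ρ, div_le_one (E_pos S.hσ)]
  exact E_mono fun y _ => mul_le_of_le_one_left (S.hσ y).le (I_le_one _)

lemma θ_le_one (C j t : ℕ) (x : X) : S.θ C j t x ≤ 1 :=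
  (single_le_sum (f := fun j => S.θ C j t x) (fun j _ => S.θ_nonneg C j t x)
    (self_mem_range_succ j)).trans (S.sum_θ C (j + 1) t x)

lemma θ_mul (C j t : ℕ) (x : X) : S.θ C j t x * E (S.P t) S.σ x = S.ρ C j t x :=
  div_mul_cancel₀ _ (E_pos S.hσ).ne'

lemma E_χθ (C j t : ℕ) (x : X) :
    E (S.P t) (fun y => S.σ y * (S.χ C j t y - S.θ C j t y)) x = 0 := by
  rw [E_congr (v := fun y => S.χ C j t y * S.σ y - S.θ C j t y * S.σ y) fun y _ => by ring,
    E_sub, E_mul_left _ (S.θ_meas C j t x), θ_mul]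
  exact sub_self _

lemma sum_ψ_le (C M t : ℕ) (y : X) {ξ : ℕ → ℝ} (h0 : ∀ j, 0 ≤ ξ j)
    (h1 : ∑ j ∈ range M, ξ j ≤ 1) : 0 ≤ ∑ j ∈ range M, S.ψ C M j t y * ξ j ∧
      ∑ j ∈ range M, S.ψ C M j t y * ξ j ≤ E (S.P t) S.w y := by
  refine ⟨sum_nonneg fun j _ => mul_nonneg (S.ψ_nonneg C M j t y) (h0 j), ?_⟩
  refine (sum_le_sum fun j _ => mul_le_mul_of_nonneg_right (S.ψ_le C M j t y) (h0 j)).trans ?_
  rw [← mul_sum]
  exact mul_le_of_le_one_right (E_pos S.hw).le h1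

lemma sum_χ_le (C M t : ℕ) (y : X) : ∑ j ∈ range M, S.χ C j t y ≤ 1 := by
  rw [sum_χ]; exact I_le_one _

lemma near (C M : ℕ) {G : ℕ → X → ℝ} (hG : ∀ t, Meas (S.P t) (G t)) (hG0 : ∀ t y, 0 ≤ G t y)
    {ξ : ℕ → ℕ → X → ℝ} (hξ : ∀ t j y, |ξ t j y| ≤ 1)
    (hξ2 : ∀ t y, |∑ j ∈ range M, S.ψ C M j t y * ξ t j y| ≤ E (S.P t) S.w y) {r t : ℕ}
    (hrt : r ≤ t) (j s : ℕ) (x : X) :
    E (S.P r) (fun y => S.σ y * (G t y * (S.ψ C M j t y * ξ t j y) *
      ∑ j' ∈ range M, G (t + s) y * (S.ψ C M j' (t + s) y * ξ (t + s) j' y))) x ≤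
      3 / 2 * S.A * E (S.P r) (fun y => G t y ^ 2 * S.ψ C M j t y) x +
        S.A / 2 * E (S.P r) (fun y => S.w y * (G (t + s) y - G t y) ^ 2) x := by
  have hA := S.hA1
  have hts := Nat.le_add_right t s
  have m1 : Meas (S.P (t + s)) fun y => G t y * S.ψ C M j t y * G (t + s) y *
      E (S.P (t + s)) S.w y := fun x y h => by
    simp only [hG t x y (S.hP.mono hts h), S.ψ_meas C M j t x y (S.hP.mono hts h), hG _ x y h,
      E_meas _ _ x y h]
  have m2 : Meas (S.P t) fun y => (G t y * S.ψ C M j t y) ^ 2 := fun x y h => by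
    simp only [hG t x y h, S.ψ_meas C M j t x y h]
  have m3 : Meas (S.P (t + s)) fun y => (G (t + s) y - G t y) ^ 2 := fun x y h => by
    simp only [hG t x y (S.hP.mono hts h), hG _ x y h]
  calc _ ≤ E (S.P r) (fun y => G t y * S.ψ C M j t y * G (t + s) y * E (S.P (t + s)) S.w y *
          S.σ y) x := by
        refine E_mono fun y _ => ?_
        rw [← mul_sum, mul_comm (S.σ y)]
        refine mul_le_mul_of_nonneg_right ((le_abs_self _).trans ?_) (S.hσ y).le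
        rw [abs_mul, abs_mul, abs_mul, abs_mul, abs_of_nonneg (hG0 t y),
          abs_of_nonneg (hG0 _ y), abs_of_nonneg (S.ψ_nonneg C M j t y), mul_assoc _ (G (t + s) y)]
        have := hG0 t y
        have := hG0 (t + s) y
        have := S.ψ_nonneg C M j t y
        exact mul_le_mul (mul_le_mul_of_nonneg_left (mul_le_of_le_one_right this (hξ t j y))
          (hG0 t y)) (mul_le_mul_of_nonneg_left (hξ2 _ y) (hG0 _ y)) (by positivity) (by positivity)
    _ ≤ E (S.P r) (fun y => S.A * (G t y ^ 2 * S.ψ C M j t y) +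
          1 / 2 * ((G t y * S.ψ C M j t y) ^ 2 * E (S.P (t + s)) S.σ y) +
          S.A / 2 * ((G (t + s) y - G t y) ^ 2 * E (S.P (t + s)) S.w y)) x := by
        rw [← S.hP.E_mul_E (hrt.trans hts) m1]
        refine E_mono fun y _ => ?_
        have h1 := S.hA (t + s) y
        have h2 := E_pos (P := S.P (t + s)) (x := y) S.hσ
        have h3 := E_pos (P := S.P (t + s)) (x := y) S.hw
        have h4 := mul_nonneg (sq_nonneg (G t y)) (S.ψ_nonneg C M j t y)
        nlinarith [mul_le_mul_of_nonneg_left h1 h4,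
          mul_le_mul_of_nonneg_left h1 (mul_nonneg (sq_nonneg (G (t + s) y - G t y)) h3.le),
          mul_nonneg h2.le (sq_nonneg (G t y * S.ψ C M j t y -
            (G (t + s) y - G t y) * E (S.P (t + s)) S.w y))]
    _ ≤ _ := by
        rw [E_add, E_add, E_cmul, E_cmul, E_cmul, S.hP.E_mul_E (hrt.trans hts) m3,
          S.hP.E_mul_E (hrt.trans hts) (m2.mono S.hP hts), ← S.hP.E_mul_E hrt m2]
        have h1 : E (S.P r) (fun y => (G t y * S.ψ C M j t y) ^ 2 * E (S.P t) S.σ y) x ≤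
            S.A * E (S.P r) (fun y => G t y ^ 2 * S.ψ C M j t y) x := by
          rw [← E_cmul]
          refine E_mono fun y _ => ?_
          have h2 := (mul_le_mul_of_nonneg_left (S.ψ_le C M j t y) (E_pos S.hσ).le).trans (S.hA t y)
          have := mul_le_mul_of_nonneg_left h2
            (mul_nonneg (sq_nonneg (G t y)) (S.ψ_nonneg C M j t y))
          nlinarith
        simp only [mul_comm (S.w _)]
        linarith

noncomputable def αQ (C M t : ℕ) (y : X) : ℝ :=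
  ∑ j ∈ range M, ((C * 2 ^ j : ℕ) : ℝ) * (S.Γ (2 ^ j) (C * 2 ^ M) t y * S.w y)

lemma αQ_nonneg (C M t : ℕ) (y : X) : 0 ≤ S.αQ C M t y :=
  sum_nonneg fun _ _ => mul_nonneg (Nat.cast_nonneg _) (mul_nonneg (I_nonneg _) (S.hw y).le)

lemma αQ_car (C M r n : ℕ) (x : X) : E (S.P r) (fun y => ∑ t ∈ Ico r n, S.αQ C M t y) x ≤
    8 * C ^ 2 * S.A * 2 ^ M * E (S.P r) S.w x := by
  have hA := S.hA1
  have hg : S.Good S.w (1 / (4 * S.A)) := S.swap.good_σ
  have h1 := hg.gam2 (by positivity) (C * 2 ^ M) r n x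
  rw [one_div, inv_mul_le_iff₀ (by positivity)] at h1
  calc _ ≤ E (S.P r) (fun y => 2 * C * ∑ t ∈ Ico r n,
          ((S.g (t + C * 2 ^ M) y : ℝ) - S.g t y) * S.w y) x := by
        refine E_mono fun y _ => ?_
        rw [mul_sum]
        refine sum_le_sum fun t _ => ?_
        have h2 := mul_le_mul_of_nonneg_left (sum_pow_I M _ _
          (S.g_mono y (Nat.le_add_right t (C * 2 ^ M))))
          (mul_nonneg (Nat.cast_nonneg C : (0 : ℝ) ≤ C) (S.hw y).le)
        rw [mul_sum] at h2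
        refine le_trans (le_of_eq (sum_congr rfl fun j _ => ?_)) (h2.trans (le_of_eq (by ring)))
        simp only [Γ]; push_cast; ring
    _ ≤ _ := by
        rw [E_cmul]
        have := mul_le_mul_of_nonneg_left h1 (by positivity : (0 : ℝ) ≤ 2 * C)
        push_cast at this
        linarith

lemma E_αQ (C M : ℕ) {r t : ℕ} (h : r ≤ t) {φ : X → ℝ} (hφ : Meas (S.P t) φ) (x : X) :
    ∑ j ∈ range M, ((C * 2 ^ j : ℕ) : ℝ) * E (S.P r) (fun y => φ y * S.ψ C M j t y) x =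
      E (S.P r) (fun y => S.αQ C M t y * φ y) x := by
  simp only [ψ, S.hP.E_mul_E h hφ]
  simp only [← E_cmul, ← E_sum, αQ, sum_mul]
  exact E_congr fun y _ => sum_congr rfl fun j _ => by ring

lemma nf2 (C M : ℕ) {G : ℕ → X → ℝ} (hG : ∀ t, Meas (S.P t) (G t)) (hG0 : ∀ t y, 0 ≤ G t y)
    {ξ : ℕ → ℕ → X → ℝ} (hξ : ∀ t j y, |ξ t j y| ≤ 1)
    (hξ2 : ∀ t y, |∑ j ∈ range M, S.ψ C M j t y * ξ t j y| ≤ E (S.P t) S.w y) (r n : ℕ) (x : X)
    {b : ℕ → ℕ → ℝ} (hb : ∀ t ∈ Ico r n, ∀ j ∈ range M, E (S.P r) (fun y => S.σ y *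
      (G t y * (S.ψ C M j t y * ξ t j y) * ∑ t' ∈ Ico (t + C * 2 ^ j) n,
        ∑ j' ∈ range M, G t' y * (S.ψ C M j' t' y * ξ t' j' y))) x ≤ b t j) :
    E (S.P r) (fun y => S.σ y *
      (∑ t ∈ Ico r n, ∑ j ∈ range M, G t y * (S.ψ C M j t y * ξ t j y)) ^ 2) x ≤
      3 * S.A * E (S.P r) (fun y => ∑ t ∈ Ico r n, S.αQ C M t y * G t y ^ 2) x +
      S.A * E (S.P r) (fun y => ∑ j ∈ range M, ∑ s ∈ range (C * 2 ^ j), ∑ t ∈ Ico r n,
        S.w y * (G (t + s) y - G t y) ^ 2) x + 2 * ∑ t ∈ Ico r n, ∑ j ∈ range M, b t j := by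
  have hA := S.hA1
  refine (nearfar (S.P r) (fun y => (S.hσ y).le) (range M) (fun j => C * 2 ^ j)
    (fun t j y => G t y * (S.ψ C M j t y * ξ t j y)) r n x
    (a := fun t j s => 3 / 2 * S.A * E (S.P r) (fun y => G t y ^ 2 * S.ψ C M j t y) x +
        S.A / 2 * E (S.P r) (fun y => S.w y * (G (t + s) y - G t y) ^ 2) x)
    (fun t j s => add_nonneg (mul_nonneg (by positivity) (E_nonneg fun y =>
      mul_nonneg (sq_nonneg _) (S.ψ_nonneg C M j t y))) (mul_nonneg (by positivity)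
      (E_nonneg fun y => mul_nonneg (S.hw y).le (sq_nonneg _))))
    (fun t ht j _ s => S.near C M hG hG0 hξ hξ2 (mem_Ico.1 ht).1 j s x) hb).trans (le_of_eq ?_)
  have e1 : E (S.P r) (fun y => ∑ t ∈ Ico r n, S.αQ C M t y * G t y ^ 2) x =
      ∑ t ∈ Ico r n, ∑ j ∈ range M, ((C * 2 ^ j : ℕ) : ℝ) *
        E (S.P r) (fun y => G t y ^ 2 * S.ψ C M j t y) x := by
    rw [E_sum]
    exact sum_congr rfl fun t ht => (S.E_αQ C M (mem_Ico.1 ht).1
      (fun x y h => by simp only [hG t x y h]) x).symm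
  have e2 : E (S.P r) (fun y => ∑ j ∈ range M, ∑ s ∈ range (C * 2 ^ j), ∑ t ∈ Ico r n,
      S.w y * (G (t + s) y - G t y) ^ 2) x = ∑ t ∈ Ico r n, ∑ j ∈ range M,
      ∑ s ∈ range (C * 2 ^ j), E (S.P r) (fun y => S.w y * (G (t + s) y - G t y) ^ 2) x := by
    simp only [E_sum]
    rw [sum_comm (s := Ico r n)]
    exact sum_congr rfl fun j _ => sum_comm
  rw [e1, e2]
  simp only [mul_sum, ← sum_add_distrib]
  refine sum_congr rfl fun t _ => sum_congr rfl fun j _ => ?_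
  rw [sum_add_distrib, sum_const, card_range, nsmul_eq_mul, ← mul_sum, ← mul_sum]
  ring

lemma abs_χθ (C j t : ℕ) (y : X) : |S.χ C j t y - S.θ C j t y| ≤ 1 := by
  have := S.χ_nonneg C j t y
  have := S.χ_le_one C j t y
  have := S.θ_nonneg C j t y
  have := S.θ_le_one C j t y
  rw [abs_le]; constructor <;> linarith

lemma abs_ψχθ (C M t : ℕ) (y : X) :
    |∑ j ∈ range M, S.ψ C M j t y * (S.χ C j t y - S.θ C j t y)| ≤ E (S.P t) S.w y := by
  have h1 := S.sum_ψ_le C M t y (fun j => S.χ_nonneg C j t y) (S.sum_χ_le C M t y)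
  have h2 := S.sum_ψ_le C M t y (fun j => S.θ_nonneg C j t y) (S.sum_θ C M t y)
  simp only [mul_sub, sum_sub_distrib]
  rw [abs_le]; constructor <;> linarith [h1.1, h1.2, h2.1, h2.2]

/-- orthogonality of the centered terms -/
lemma orth (C M : ℕ) {G : ℕ → X → ℝ} (hG : ∀ t, Meas (S.P t) (G t)) (hG0 : ∀ t y, 0 ≤ G t y)
    (r n : ℕ) (x : X) : E (S.P r) (fun y => S.σ y * (∑ t ∈ Ico r n, ∑ j ∈ range M,
      G t y * (S.ψ C M j t y * (S.χ C j t y - S.θ C j t y))) ^ 2) x ≤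
      3 * S.A * E (S.P r) (fun y => ∑ t ∈ Ico r n, S.αQ C M t y * G t y ^ 2) x +
      S.A * E (S.P r) (fun y => ∑ j ∈ range M, ∑ s ∈ range (C * 2 ^ j), ∑ t ∈ Ico r n,
        S.w y * (G (t + s) y - G t y) ^ 2) x := by
  have := S.nf2 C M hG hG0 (ξ := fun t j y => S.χ C j t y - S.θ C j t y)
    (fun t j y => S.abs_χθ C j t y) (S.abs_ψχθ C M) r n x (b := fun _ _ => 0) fun t ht j _ => by
      simp only [mul_sum, E_sum]
      refine (sum_eq_zero fun t' ht' => sum_eq_zero fun j' _ => ?_).le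
      have h1 := (mem_Ico.1 ht').1
      have h2 : t ≤ t' := by omega
      have m : Meas (S.P t') fun y => G t y * (S.ψ C M j t y * (S.χ C j t y - S.θ C j t y)) *
          (G t' y * S.ψ C M j' t' y) := fun x y h => by
        simp only [hG t x y (S.hP.mono h2 h), S.ψ_meas C M j t x y (S.hP.mono h2 h),
          S.θ_meas C j t x y (S.hP.mono h2 h), S.χ_meas C j t x y (S.hP.mono h1 h), hG t' x y h,
          S.ψ_meas C M j' t' x y h]
      have := S.hP.E_mul_E ((mem_Ico.1 ht).1.trans h2) m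
        (fun y => S.σ y * (S.χ C j' t' y - S.θ C j' t' y)) x
      simp only [E_χθ, mul_zero, E_const] at this
      rw [this]
      exact E_congr fun y _ => by ring
  simpa only [sum_const_zero, mul_zero, add_zero] using this

noncomputable def τ (C M t : ℕ) (x : X) : ℝ := ∑ j ∈ range M, S.ρ C j t x * S.ψ C M j t x

lemma τ_nonneg (C M t : ℕ) (x : X) : 0 ≤ S.τ C M t x :=
  sum_nonneg fun j _ => mul_nonneg (S.ρ_nonneg C j t x) (S.ψ_nonneg C M j t x)

lemma τ_meas (C M t : ℕ) : Meas (S.P t) (S.τ C M t) := fun x y h => by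
  simp only [τ, ρ, ψ, E_meas _ _ x y h]

lemma τ_car (C M r n : ℕ) (x : X) :
    E (S.P r) (fun y => ∑ t ∈ Ico r n, S.τ C M t y) x ≤ 16 * C * S.A * 2 ^ M := by
  have hA := S.hA1
  calc _ ≤ ∑ j ∈ range M, E (S.P r) (fun y => ∑ t ∈ Ico r n,
          E (S.P t) (fun y => S.Γ (2 ^ j) (C * 2 ^ j) t y * S.σ y) y * E (S.P t) S.w y) x := by
        rw [← E_sum]
        refine E_mono fun y _ => ?_
        rw [sum_comm]
        refine sum_le_sum fun t _ => sum_le_sum fun j _ => ?_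
        exact mul_le_mul (E_mono fun z _ => mul_le_mul_of_nonneg_right (S.χ_le_Γ C j t z)
          (S.hσ z).le) (S.ψ_le C M j t y) (S.ψ_nonneg C M j t y) (S.EΓ_nonneg _ _ t y)
    _ ≤ ∑ j ∈ range M, 16 * C * S.A * 2 ^ j := sum_le_sum fun j _ => by
        have := S.bellman (c := C) (l := 2 ^ j) (N := C * 2 ^ j) Nat.one_le_two_pow
          (by push_cast; exact le_rfl) r n x
        exact_mod_cast this
    _ ≤ _ := by
        rw [← mul_sum]
        exact mul_le_mul_of_nonneg_left (sum_two_pow_le M) (by positivity)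

lemma test1 (C M r n : ℕ) (x : X) :
    E (S.P r) (fun y => S.w y * (∑ t ∈ Ico r n, S.τ C M t y / E (S.P t) S.w y) ^ 2) x ≤
      2 * (16 * C * S.A * 2 ^ M) * (C / (1 / (4 * S.A))) * E (S.P r) S.σ x := by
  have hA := S.hA1
  refine testing S.hP (j := fun t y => S.sun C M t y * S.σ y) S.hw (S.τ_meas C M) (S.τ_nonneg C M)
    (by positivity) (fun t x => S.τ_car C M t n x) (fun t x => ?_) r x
    (S.sunrise S.good_σ (by positivity) C M r n x)
  rw [div_le_iff₀ (E_pos S.hw), ← sum_ρ, sum_mul]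
  exact sum_le_sum fun j _ => mul_le_mul_of_nonneg_left (S.ψ_le C M j t x) (S.ρ_nonneg C j t x)

lemma test2 (C M r n : ℕ) (x : X) :
    E (S.P r) (fun y => S.σ y * (∑ t ∈ Ico r n, S.τ C M t y / E (S.P t) S.σ y) ^ 2) x ≤
      608 * C ^ 2 * S.A ^ 2 * 2 ^ M * E (S.P r) S.w x := by
  have hA := S.hA1
  have h1 := S.orth C M (G := fun _ _ => 1) (fun _ _ _ _ => rfl) (fun _ _ => zero_le_one) r n x
  have h2 := S.nf2 C M (G := fun _ _ => 1) (fun _ _ _ _ => rfl) (fun _ _ => zero_le_one)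
    (ξ := fun t j y => S.χ C j t y)
    (fun t j y => (abs_of_nonneg (S.χ_nonneg C j t y)).trans_le (S.χ_le_one C j t y))
    (fun t y => by
      have h1 := S.sum_ψ_le C M t y (fun j => S.χ_nonneg C j t y) (S.sum_χ_le C M t y)
      rw [abs_of_nonneg h1.1]; exact h1.2) r n x
    (b := fun t j => 16 * C * S.A * 2 ^ M * E (S.P r) (fun y => S.ψ C M j t y * S.χ C j t y) x)
    fun t ht j _ => by
      have hr : r ≤ t + C * 2 ^ j := (mem_Ico.1 ht).1.trans (Nat.le_add_right _ _)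
      have m : Meas (S.P (t + C * 2 ^ j)) fun y => S.ψ C M j t y * S.χ C j t y := fun x y h => by
        simp only [S.ψ_meas C M j t x y (S.hP.mono (Nat.le_add_right _ _) h),
          S.χ_meas C j t x y h]
      calc _ = E (S.P r) (fun y => S.ψ C M j t y * S.χ C j t y *
            ∑ t' ∈ Ico (t + C * 2 ^ j) n, S.τ C M t' y) x := by
            simp only [one_mul, τ, mul_sum, E_sum]
            refine sum_congr rfl fun t' ht' => sum_congr rfl fun j' _ => ?_
            have h1 := (mem_Ico.1 ht').1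
            have := S.hP.E_mul_E (hr.trans h1) (φ := fun y => S.ψ C M j t y * S.χ C j t y *
              S.ψ C M j' t' y) (fun x y h => by
                simp only [m.mono S.hP h1 x y h, S.ψ_meas C M j' t' x y h])
              (fun y => S.χ C j' t' y * S.σ y) x
            refine (E_congr fun y _ => by ring).trans (this.symm.trans (E_congr fun y _ => ?_))
            simp only [ρ]; ring
        _ ≤ _ := by
            rw [← S.hP.E_mul_E hr m, ← E_cmul]
            refine E_mono fun y _ => ?_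
            rw [mul_comm]
            exact mul_le_mul_of_nonneg_right (S.τ_car C M _ n y)
              (mul_nonneg (S.ψ_nonneg C M j t y) (S.χ_nonneg C j t y))
  simp only [one_mul, one_pow, mul_one, sub_self, ne_eq, OfNat.ofNat_ne_zero, not_false_eq_true,
    zero_pow, mul_zero, sum_const_zero, E_const, add_zero, ← mul_sum, ← E_sum] at h1 h2
  have h3 := S.αQ_car C M r n x
  have h4 : E (S.P r) (fun y => ∑ t ∈ Ico r n, ∑ j ∈ range M, S.ψ C M j t y * S.χ C j t y) x ≤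
      8 * C * S.A * E (S.P r) S.w x := by
    refine le_trans (E_mono fun y _ => sum_le_sum fun t _ => ?_) (S.sun_w C M r n x)
    rw [← sum_χ, sum_mul]
    exact sum_le_sum fun j _ => by
      rw [mul_comm]; exact mul_le_mul_of_nonneg_left (S.ψ_le C M j t y) (S.χ_nonneg C j t y)
  calc _ ≤ E (S.P r) (fun y => 2 * (S.σ y *
          (∑ t ∈ Ico r n, ∑ j ∈ range M, S.ψ C M j t y * S.χ C j t y) ^ 2) + 2 * (S.σ y *
          (∑ t ∈ Ico r n, ∑ j ∈ range M, S.ψ C M j t y * (S.χ C j t y - S.θ C j t y)) ^ 2)) x := by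
        refine E_mono fun y _ => ?_
        have e : ∑ t ∈ Ico r n, S.τ C M t y / E (S.P t) S.σ y =
            ∑ t ∈ Ico r n, ∑ j ∈ range M, S.ψ C M j t y * S.χ C j t y -
            ∑ t ∈ Ico r n, ∑ j ∈ range M, S.ψ C M j t y * (S.χ C j t y - S.θ C j t y) := by
          simp only [← sum_sub_distrib, τ, sum_div]
          exact sum_congr rfl fun t _ => sum_congr rfl fun j _ => by simp only [θ]; ring
        rw [e]
        nlinarith [mul_nonneg (S.hσ y).le (sq_nonneg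
          (∑ t ∈ Ico r n, ∑ j ∈ range M, S.ψ C M j t y * S.χ C j t y +
            ∑ t ∈ Ico r n, ∑ j ∈ range M, S.ψ C M j t y * (S.χ C j t y - S.θ C j t y)))]
    _ ≤ _ := by
        rw [E_add, E_cmul, E_cmul]
        nlinarith [mul_le_mul_of_nonneg_left h3 (by linarith : 0 ≤ S.A),
          mul_le_mul_of_nonneg_left h4 (by positivity : 0 ≤ 16 * C * S.A * 2 ^ M)]

end Cor

end Pool.Agent.P.MP_70f35d_an
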