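import Pool.Agent.P.MP_70f35d_an.ShB

set_option autoImplicit false
open Finset

namespace Pool.Agent.P.MP_70f35d_an

variable {X : Type} [Fintype X]

noncomputable def YY (A L : ℝ) : ℝ := A * √L + √A * L

lemma YY_nonneg {A L : ℝ} (hA : 0 ≤ A) (hL : 0 ≤ L) : 0 ≤ YY A L := by unfold YY; positivity

lemma YY_sq {A L : ℝ} (hA : 0 ≤ A) (hL : 0 ≤ L) : A ^ 2 * L + A * L ^ 2 ≤ YY A L ^ 2 := by
  have h1 := Real.sq_sqrt hA
  have h2 := Real.sq_sqrt hL
  have h3 : 0 ≤ A * √L * (√A * L) := by positivity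
  have e : YY A L ^ 2 = A ^ 2 * √L ^ 2 + √A ^ 2 * L ^ 2 + 2 * (A * √L * (√A * L)) := by
    unfold YY; ring
  rw [e, h1, h2]; linarith

namespace Cor

variable (S : Cor X)

lemma sun_shift (C M n : ℕ) : ∑ t ∈ range n, ∑ x,
    S.sun C M t x * S.σ x * S.F (t + C * 2 ^ M) x ^ 2 ≤ 4 * (C * 2 ^ M + 4 * S.A * C) := by
  have hA := S.hA1
  have := carleson (P := fun t => S.P (t + C * 2 ^ M)) (fun t x y h => S.hP.mono (by omega) h)
    (α := fun t x => S.sun C M t x * S.σ x) (n := n) (C := C * 2 ^ M + 4 * S.A * C) S.hσ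
    S.f_nonneg (by positivity) (fun t x => mul_nonneg (I_nonneg _) (S.hσ x).le) fun r _ x => by
      have := S.sunrise S.good_σ (by positivity) C M (r + C * 2 ^ M) n x
      rw [div_div_eq_mul_div, div_one, mul_comm (C : ℝ)] at this
      rw [add_mul, ← E_cmul _ ((C : ℝ) * 2 ^ M)]
      refine le_trans ?_ (add_le_add_right this _)
      rw [← E_add]
      refine E_mono fun y _ => ?_
      calc _ ≤ ∑ t ∈ Ico r (r + C * 2 ^ M) ∪ Ico (r + C * 2 ^ M) n, S.sun C M t y * S.σ y :=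
            sum_le_sum_of_subset_of_nonneg (fun t ht => by
              simp only [mem_union, mem_Ico] at ht ⊢; omega)
              fun t _ _ => mul_nonneg (I_nonneg _) (S.hσ y).le
        _ ≤ _ := by
            rw [sum_union (Ico_disjoint_Ico_consecutive _ _ _)]
            refine add_le_add_left ?_ _
            refine (sum_le_card_nsmul _ _ (S.σ y) fun t _ =>
              mul_le_of_le_one_left (S.hσ y).le (I_le_one _)).trans (le_of_eq ?_)
            simp
  have h3 : 0 ≤ 4 * ((C : ℝ) * 2 ^ M + 4 * S.A * C) := by positivity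
  exact this.trans (mul_le_of_le_one_right h3 S.nf)

lemma M_one (C M n : ℕ) : ∑ t ∈ range n, ∑ x, |∑ j ∈ range M,
    E (S.P t) (fun y => S.χ C j t y * S.U y) x * S.swap.dif (2 ^ j) (C * 2 ^ M) t x| ≤
      4 * C * YY S.A (2 ^ M) := by
  have hA := S.hA1
  refine (cs_sum (range n) (K := S.A)
    (p := fun t x => E (S.P t) (fun y => S.sun C M t y * S.σ y * S.F (t + C * 2 ^ M) y ^ 2) x)
    (q := fun t x => E (S.P t) (fun y => S.w y *
      (S.swap.F (t + C * 2 ^ M) y - S.swap.F t y) ^ 2) x)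
    (a := 4 * (C * 2 ^ M + 4 * S.A * C)) (b := (C * 2 ^ M : ℕ)) (by linarith)
    (fun t _ x => E_nonneg fun y => mul_nonneg (mul_nonneg (I_nonneg _) (S.hσ y).le) (sq_nonneg _))
    (fun t _ x => E_nonneg fun y => mul_nonneg (S.hw y).le (sq_nonneg _)) (fun t _ x => ?_)
    (by simp only [sum_E]; exact S.sun_shift C M n)
    (by simp only [sum_E]; exact S.swap.win_F _ n)).trans ?_
  · set q := E (S.P t) (fun y => S.w y * (S.swap.F (t + C * 2 ^ M) y - S.swap.F t y) ^ 2) x
    have hq : 0 ≤ q := E_nonneg fun y => mul_nonneg (S.hw y).le (sq_nonneg _)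
    have hw := E_pos (P := S.P t) (x := x) S.hw
    have h1 : |∑ j ∈ range M, E (S.P t) (fun y => S.χ C j t y * S.U y) x *
        S.swap.dif (2 ^ j) (C * 2 ^ M) t x| ≤
        E (S.P t) (fun y => S.sun C M t y * S.U y) x * √(q * E (S.P t) S.w x) := by
      simp only [← sum_χ, sum_mul, E_sum]
      refine (abs_sum_le_sum_abs _ _).trans (sum_le_sum fun j _ => ?_)
      have h0 : 0 ≤ E (S.P t) (fun y => S.χ C j t y * S.U y) x :=
        E_nonneg fun y => mul_nonneg (I_nonneg _) (S.hU y).le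
      rw [abs_mul, abs_of_nonneg h0]
      exact mul_le_mul_of_nonneg_left (Real.abs_le_sqrt (S.swap.sq_dif _ _ t x)) h0
    have h2 : E (S.P t) (fun y => S.sun C M t y * S.U y) x ^ 2 ≤
        E (S.P t) (fun y => S.sun C M t y * S.σ y * S.F (t + C * 2 ^ M) y ^ 2) x *
          E (S.P t) S.σ x := by
      rw [S.E_φU (Nat.le_add_right t _) (S.sun_meas C M t)]
      simp only [← mul_assoc]
      refine (E_cs' _ (fun y => mul_nonneg (I_nonneg _) (S.hσ y).le) _ x).trans
        (mul_le_mul_of_nonneg_left (E_mono fun y _ =>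
          mul_le_of_le_one_left (S.hσ y).le (I_le_one _)) (E_nonneg fun y =>
          mul_nonneg (mul_nonneg (I_nonneg _) (S.hσ y).le) (sq_nonneg _)))
    rw [← sq_abs]
    exact (pow_le_pow_left₀ (abs_nonneg _) h1 2).trans (mul4 h2
      (Real.sq_sqrt (mul_nonneg hq hw.le)).le (S.hA t x) (E_nonneg fun y =>
        mul_nonneg (mul_nonneg (I_nonneg _) (S.hσ y).le) (sq_nonneg _)) hq)
  · have h1 := YY_sq (A := S.A) (L := 2 ^ M) (by linarith) (by positivity)
    refine sqrt_le_of (mul_nonneg (by positivity) (YY_nonneg (by linarith) (by positivity))) ?_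
    push_cast
    have h2 : 0 ≤ (C : ℝ) ^ 2 * (S.A * (2 ^ M) ^ 2) := by positivity
    nlinarith [mul_le_mul_of_nonneg_left h1 (sq_nonneg (C : ℝ))]

noncomputable def HH (C M n : ℕ) (y : X) : ℝ := ∑ t ∈ Ico 0 n, ∑ j ∈ range M,
  S.swap.F t y * (S.ψ C M j t y * (S.χ C j t y - S.θ C j t y))

lemma HH_sq (C M n : ℕ) : ∑ x, S.σ x * S.HH C M n x ^ 2 ≤ (10 * C * YY S.A (2 ^ M)) ^ 2 := by
  have hA := S.hA1
  have h1 := sum_le_sum fun x (_ : x ∈ univ) =>
    S.orth C M S.swap.F_meas S.swap.F_nonneg 0 n x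
  rw [sum_add_distrib, ← mul_sum, ← mul_sum, sum_E, sum_E, sum_E, sum_comm (t := Ico 0 n),
    sum_comm (t := range M)] at h1
  have h2 := carleson S.hP (α := S.αQ C M) (n := n) (C := 8 * C ^ 2 * S.A * 2 ^ M) S.hw
    S.swap.f_nonneg (by positivity) (S.αQ_nonneg C M) fun r _ x => S.αQ_car C M r n x
  have h3 := h2.trans (mul_le_of_le_one_right (by positivity) S.swap.nf)
  rw [range_eq_Ico] at h3
  have h4 : ∑ j ∈ range M, ∑ x, ∑ s ∈ range (C * 2 ^ j), ∑ t ∈ Ico 0 n,
      S.w x * (S.swap.F (t + s) x - S.swap.F t x) ^ 2 ≤ C ^ 2 * (2 ^ M) ^ 2 := by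
    calc _ ≤ ∑ j ∈ range M, (C : ℝ) ^ 2 * 2 ^ M * 2 ^ j := by
          refine sum_le_sum fun j hj => ?_
          rw [sum_comm]
          refine (sum_le_card_nsmul _ _ (C * 2 ^ M : ℝ) fun s hs => ?_).trans (le_of_eq ?_)
          · rw [sum_comm, ← range_eq_Ico]
            refine (S.swap.win_F s n).trans ?_
            have : s ≤ C * 2 ^ M := (mem_range.1 hs).le.trans
              (Nat.mul_le_mul_left C (Nat.pow_le_pow_right (by norm_num) (mem_range.1 hj).le))
            exact_mod_cast this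
          · rw [card_range, nsmul_eq_mul]; push_cast; ring
      _ ≤ _ := by
          rw [← mul_sum, sq ((2 : ℝ) ^ M), ← mul_assoc]
          exact mul_le_mul_of_nonneg_left (sum_two_pow_le M) (by positivity)
  have h5 := YY_sq (A := S.A) (L := 2 ^ M) (by linarith) (by positivity)
  have h6 : 0 ≤ (C : ℝ) ^ 2 * (S.A * (2 ^ M) ^ 2) := by positivity
  have h7 : 0 ≤ (C : ℝ) ^ 2 * (S.A ^ 2 * 2 ^ M) := by positivity
  refine h1.trans ?_
  have h8 := mul_le_mul_of_nonneg_left h3 (by linarith : 0 ≤ 3 * S.A)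
  have h9 := mul_le_mul_of_nonneg_left h4 (by linarith : 0 ≤ S.A)
  change 3 * S.A * ∑ t ∈ Ico 0 n, ∑ x, S.αQ C M t x * S.swap.F t x ^ 2 ≤ _ at h8
  nlinarith [mul_le_mul_of_nonneg_left h5 (sq_nonneg (C : ℝ))]

lemma M_two (C M n : ℕ) : ∑ t ∈ range n, ∑ x, ∑ j ∈ range M,
    E (S.P t) (fun y => S.χ C j t y * S.U y) x * (S.swap.F t x * S.ψ C M j t x) =
      ∑ x, S.U x * S.HH C M n x +
      ∑ t ∈ range n, ∑ x, S.τ C M t x * (S.F t x * S.swap.F t x) := by
  simp only [HH, mul_sum, τ, sum_mul, ← range_eq_Ico]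
  rw [sum_comm (t := range n), ← sum_add_distrib]
  refine sum_congr rfl fun t _ => ?_
  rw [sum_comm, sum_comm (t := range M), sum_comm (t := range M), ← sum_add_distrib]
  refine sum_congr rfl fun j _ => ?_
  have m1 : Meas (S.P t) fun x => S.swap.F t x * S.ψ C M j t x := fun x y h => by
    simp only [S.swap.F_meas t x y h, S.ψ_meas C M j t x y h]
  have m2 : Meas (S.P t) fun x => S.swap.F t x * S.ψ C M j t x * S.θ C j t x := fun x y h => by
    simp only [S.swap.F_meas t x y h, S.ψ_meas C M j t x y h, S.θ_meas C j t x y h]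
  have h1 := sum_mul_E m1 fun y => S.χ C j t y * S.U y
  have h2 := sum_mul_E m2 S.U
  simp only [S.EU] at h2
  have e : ∀ x, S.ρ C j t x * S.ψ C M j t x * (S.F t x * S.swap.F t x) =
      S.swap.F t x * S.ψ C M j t x * S.θ C j t x * (S.F t x * E (S.P t) S.σ x) := fun x => by
    rw [← S.θ_mul]; ring
  simp only [e, mul_comm (E _ _ _) (S.swap.F t _ * _)]
  rw [h1, h2, ← sum_add_distrib]
  exact sum_congr rfl fun x _ => by ring

theorem mainM (C M n : ℕ) : ∑ t ∈ range n, ∑ x, ∑ j ∈ range M,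
    E (S.P t) (fun y => S.χ C j t y * S.U y) x *
      E (S.P t) (fun y => S.Γ (2 ^ j) (C * 2 ^ M) t y * S.V y) x ≤ 162 * C * YY S.A (2 ^ M) := by
  have hA := S.hA1
  have hY := YY_nonneg (A := S.A) (L := 2 ^ M) (by linarith) (by positivity)
  have h5 := YY_sq (A := S.A) (L := 2 ^ M) (by linarith) (by positivity)
  have h6 : 0 ≤ (C : ℝ) ^ 2 * (S.A * (2 ^ M) ^ 2) := by positivity
  have h7 : 0 ≤ (C : ℝ) ^ 2 * (S.A ^ 2 * 2 ^ M) := by positivity
  have h8 := mul_le_mul_of_nonneg_left h5 (sq_nonneg (C : ℝ))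
  have a1 := S.M_one C M n
  have a2 : ∑ x, S.U x * S.HH C M n x ≤ 10 * C * YY S.A (2 ^ M) := by
    refine le_of_sq_le' ((sum_sq_le_sum_mul_sum_of_sq_le_mul univ
      (f := fun x => S.σ x * S.f x ^ 2) (g := fun x => S.σ x * S.HH C M n x ^ 2)
      (fun x _ => mul_nonneg (S.hσ x).le (sq_nonneg _))
      (fun x _ => mul_nonneg (S.hσ x).le (sq_nonneg _))
      fun x _ => le_of_eq (by rw [← S.σ_f]; ring)).trans ?_) (by positivity)
    exact (mul_le_of_le_one_left (sum_nonneg fun x _ => mul_nonneg (S.hσ x).le (sq_nonneg _))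
      S.nf).trans (S.HH_sq C M n)
  have a3 := sawyer S.hP (n := n) S.hσ S.hw S.f_nonneg S.swap.f_nonneg (by positivity)
    (by positivity) (S.τ_meas C M) (S.τ_nonneg C M) (fun r _ x => S.test1 C M r n x)
    fun r _ x => S.test2 C M r n x
  have b5 : √((∑ x, S.σ x * S.f x ^ 2) * ∑ x, S.w x * S.swap.f x ^ 2) ≤ 1 := by
    refine sqrt_le_of zero_le_one ?_
    rw [one_pow]
    exact mul_le_one₀ S.nf (sum_nonneg fun x _ => mul_nonneg (S.hw x).le (sq_nonneg _)) S.swap.nf
  have a4 := a3.trans (mul_le_of_le_one_right (by positivity) b5)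
  have b1 : √(2 * (16 * C * S.A * 2 ^ M) * (C / (1 / (4 * S.A)))) ≤ 12 * C * YY S.A (2 ^ M) := by
    refine sqrt_le_of (by positivity) ?_
    rw [div_div_eq_mul_div, div_one]
    nlinarith
  have b2 : √(608 * C ^ 2 * S.A ^ 2 * 2 ^ M) ≤ 25 * C * YY S.A (2 ^ M) := by
    refine sqrt_le_of (by positivity) ?_
    nlinarith
  calc _ ≤ ∑ t ∈ range n, ∑ x, |∑ j ∈ range M, E (S.P t) (fun y => S.χ C j t y * S.U y) x *
          S.swap.dif (2 ^ j) (C * 2 ^ M) t x| + ∑ t ∈ range n, ∑ x, ∑ j ∈ range M,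
          E (S.P t) (fun y => S.χ C j t y * S.U y) x * (S.swap.F t x * S.ψ C M j t x) := by
        simp only [← sum_add_distrib]
        refine sum_le_sum fun t _ => sum_le_sum fun x _ => ?_
        refine le_trans (le_of_eq ?_) (add_le_add_left (le_abs_self _) _)
        rw [← sum_add_distrib]
        refine sum_congr rfl fun j _ => ?_
        rw [← mul_add]
        exact congrArg _ (S.swap.split _ _ t x)
    _ ≤ _ := by
        rw [M_two]
        change ∑ t ∈ range n, ∑ x, S.τ C M t x * (S.F t x * S.swap.F t x) ≤ _ at a4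
        linarith

end Cor

end Pool.Agent.P.MP_70f35d_an
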