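import Pool.Agent.P.MP_70f35d_an.ShC
import Pool.Agent.P.MP_70f35d_an.Model

set_option autoImplicit false
open Finset

namespace Pool.Agent.P.MP_70f35d_an

variable {X : Type} [Fintype X]

omit [Fintype X] in
lemma bil_regroup (B : (X → ℝ) →ₗ[ℝ] (X → ℝ) →ₗ[ℝ] ℝ) (F : X → ℝ) (c T : ℕ → X → ℝ) (m : ℕ) :
    B F (T m - T 0) = ∑ j ∈ range m, B (fun y => (1 - ∑ j' ∈ range j, c j' y) * F y)
      (T (j + 1) - T j) + ∑ j ∈ range m, B (fun y => c j y * F y) (T m - T (j + 1)) := by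
  induction m with
  | zero => simp
  | succ m ih =>
    have e1 : ∀ j ∈ range m, B (fun y => c j y * F y) (T (m + 1) - T (j + 1)) =
        B (fun y => c j y * F y) (T m - T (j + 1)) +
        B (fun y => c j y * F y) (T (m + 1) - T m) := fun j _ => by
      rw [← map_add]; congr 1; abel
    have e2 : F = (fun y => (1 - ∑ j' ∈ range m, c j' y) * F y) +
        ∑ j ∈ range m, fun y => c j y * F y := by
      funext y
      rw [Pi.add_apply, Finset.sum_apply, ← sum_mul]; ring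
    have e3 : B F (T (m + 1) - T m) = B (fun y => (1 - ∑ j' ∈ range m, c j' y) * F y)
        (T (m + 1) - T m) + ∑ j ∈ range m, B (fun y => c j y * F y) (T (m + 1) - T m) := by
      nth_rewrite 1 [e2]
      rw [map_add, map_sum, LinearMap.add_apply, LinearMap.sum_apply]
    rw [sum_range_succ, sum_range_succ, sub_self, map_zero, sum_congr rfl e1, sum_add_distrib,
      show T (m + 1) - T 0 = (T m - T 0) + (T (m + 1) - T m) by abel, map_add, ih, e3]
    ring

omit [Fintype X] in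
lemma bil_tri (B : (X → ℝ) →ₗ[ℝ] (X → ℝ) →ₗ[ℝ] ℝ) (T T' : ℕ → X → ℝ) (m : ℕ) :
    B (T m - T 0) (T' m - T' 0) = ∑ i ∈ range m, B (T (i + 1) - T i) (T' (i + 1) - T' 0) +
      ∑ i ∈ range m, B (T i - T 0) (T' (i + 1) - T' i) := by
  induction m with
  | zero => simp
  | succ m ih =>
    rw [sum_range_succ, sum_range_succ, add_add_add_comm, ← ih]
    simp only [map_sub, LinearMap.sub_apply]
    ring

namespace Cor

variable {S : Cor X}

lemma Good.decay2 {μ : X → ℝ} {κ : ℝ} (h : S.Good μ κ) (hκ : κ ≤ 1) (t l s k : ℕ) {φ : X → ℝ}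
    (hφ0 : ∀ y, 0 ≤ φ y) (hφ : ∀ y z, S.P (S.nu t l s y) y z → φ z = φ y) (x : X) :
    E (S.P t) (fun y => φ y * (I (S.g t y + l + k + 1 ≤ S.g (t + s) y) * μ y)) x ≤
      (1 - κ) ^ k * E (S.P t) (fun y => φ y * μ y) x := by
  have e := fun u => (S.nu_stop t l s).E_mul_ES S.hP (q := t) (x := x)
    (fun y _ => (S.nu_spec t l s y).1) (fun y z _ hyz => hφ y z hyz) u
  rw [← e, ← e μ, ← E_cmul]
  refine E_mono fun y _ => ?_
  rw [mul_left_comm]
  refine mul_le_mul_of_nonneg_left (le_trans (E_mono fun z hz => ?_)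
    (h.decay hκ (S.nu_le_cap t l s y) k y)) (hφ0 y)
  refine mul_le_mul_of_nonneg_right (I_mono fun h' => ?_) (h.1 z)
  have h1 := S.g_nu_le t l s y
  rw [← S.g_meas hz, ← S.g_meas (S.hP.mono (S.nu_spec t l s y).1 hz)] at h1
  omega

lemma Lam_decay {κ : ℝ} (h : S.Good S.U κ) (hκ : κ ≤ 1) {n m : ℕ} (hnm : n ≤ m) (k : ℕ) :
    S.Lam n m (k + 1) ≤ (1 - κ) ^ k * (8 * S.A) := by
  have hρ : 0 ≤ (1 - κ) ^ k := pow_nonneg (sub_nonneg.2 hκ) k
  refine le_trans ?_ (mul_le_mul_of_nonneg_left (S.sparse n) hρ)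
  rw [mul_sum]
  refine sum_le_sum fun p hp => ?_
  rw [← sum_mul_E (S.phi_meas p), mul_sum]
  refine sum_le_sum fun x _ => ?_
  have := mul_le_mul_of_nonneg_left (h.decay hκ ((mem_range.1 hp).le.trans hnm) k x)
    (mul_nonneg (I_nonneg (S.top p x = p)) (E_pos (P := S.P p) (x := x) S.hV).le)
  simp only [← add_assoc]
  linarith

variable (S) {η : ℝ} (L : Forms S.P η)

lemma Γ_iff {t l N N' : ℕ} (h : N < N') (y : X) :
    S.g t y + l ≤ S.g (t + N) y ↔ S.nu t l N' y ≤ t + N := by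
  refine ⟨fun h' => S.nu_le (by omega) (Or.inl h'), fun h' => ?_⟩
  have h2 := (S.nu_spec t l N' y).2
  have := S.g_mono y h'
  omega

lemma Γ_det {t l l' N N' : ℕ} (h : N < N') (hl : l' ≤ l) {y z : X} (hyz : S.P (S.nu t l N' y) y z) :
    S.g t z + l' ≤ S.g (t + N) z ↔ S.g t y + l' ≤ S.g (t + N) y := by
  rw [S.Γ_iff h, S.Γ_iff h, S.nu_stop t l' N' y z (S.hP.mono (S.nu_mono hl t N' y) hyz)]

lemma see_two {u : X → ℝ} (hu : ∀ x, |u x| ≤ S.U x) (n : ℕ) {l α β N s : ℕ} (hl : 1 ≤ l)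
    (hlα : l ≤ α) (h : α ≤ β) {φ : ℕ → X → ℝ} (hφ1 : ∀ t y, |φ t y| ≤ 1)
    (hφ : ∀ t y z, S.P (S.nu t l N y) y z → φ t z = φ t y) {G : ℕ → X → ℝ} {b : ℝ}
    (hG : ∑ t ∈ range n, ∑ x, S.swap.ω t x * G t x ^ 2 ≤ b) :
    ∑ t ∈ range n, ∑ x, |L.ℓ t x (fun y => φ t y * I (S.nu t l N y = t + s) * S.W u t α β N y)
      (G t)| ≤ √((η ^ s) ^ 4 * (16 * (4 * S.D) ^ l * S.Lam n (n + N) α) * b) := by
  have hD := S.hD1
  have hcl : ∀ t x y, S.P (t + s) x y → S.nu t l N x = t + s → S.nu t l N y = t + s :=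
    fun t x y hxy h => by rw [← h] at hxy; rw [S.nu_stop t l N x y hxy, h]
  have hcm : ∀ t, Meas (S.P (t + s)) fun y => φ t y * I (S.nu t l N y = t + s) := by
    intro t x y hxy
    by_cases h1 : S.nu t l N x = t + s
    · simp only [I_of h1, I_of (hcl t x y hxy h1), hφ t x y (h1 ▸ hxy)]
    · simp only [I_not h1, I_not fun h' => h1 (hcl t y x ((S.P _).symm' hxy) h'), mul_zero]
  refine S.wcs (by positivity) (fun t x => sq_nonneg _) (fun t x => sq_nonneg _)
    (fun t x => L.h2l t s x _ _ fun y => ?_) ?_ hG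
  · rw [E_mul_left _ (hcm t y)]
    by_cases h1 : S.nu t l N y = t + s
    · unfold W
      have h2 := S.nu_mono hlα t N y
      have h3 := S.nu_mono h t N y
      rw [E_sub, (S.nu_stop t β N).E_ES S.hP, (S.nu_stop t α N).E_ES S.hP,
        min_eq_left (by omega), min_eq_left (by omega), sub_self, mul_zero]
    · rw [I_not h1, mul_zero, zero_mul]
  set Z : ℕ → X → ℝ := fun t y => I (S.nu t l N y = t + s ∧ S.nu t α N y < t + N) with hZ
  have h1 : ∀ t y, S.ω t y * E (S.P (t + s))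
      (fun z => |φ t z * I (S.nu t l N z = t + s) * S.W u t α β N z|) y ^ 2 ≤
      16 * (4 * S.D) ^ l * (S.swap.a t y * E (S.P (t + s)) (fun z => Z t z * S.U z) y) := by
    intro t y
    have hZ0 : 0 ≤ E (S.P (t + s)) (fun z => Z t z * S.U z) y :=
      E_nonneg fun z => mul_nonneg (I_nonneg _) (S.hU z).le
    have hb := S.swap.a_pos t y
    have ha := S.a_pos t y
    by_cases h2 : S.nu t l N y = t + s
    · have h3 := S.abs_W hu (β := β) h (x := y) (q := t + s)
        (fun z hz => (hcl t y z hz h2).ge.trans (S.nu_mono hlα t N z))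
        (p := fun z => S.nu t l N z = t + s) fun y z hyz => by
          rw [S.nu_stop t l N y z (S.hP.mono (S.nu_mono hlα t N y) hyz)]
      have h3' : E (S.P (t + s))
          (fun z => |φ t z * I (S.nu t l N z = t + s) * S.W u t α β N z|) y ≤ _ :=
        (E_mono fun z _ => by
          rw [mul_assoc, abs_mul]
          exact mul_le_of_le_one_left (abs_nonneg _) (hφ1 t z)).trans h3
      have h4 : E (S.P (t + s)) (fun z => Z t z * S.U z) y ≤ 4 * (4 * S.D) ^ l * S.a t y :=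
        (E_mono fun z _ => mul_le_of_le_one_left (S.hU z).le (I_le_one _)).trans
          (S.E_le_a (Nat.le_add_right t s) (by rw [← h2]; exact S.g_nu_le t l N y))
      have h5 := pow_le_pow_left₀ (E_nonneg fun _ => abs_nonneg _) h3' 2
      refine (mul_le_mul_of_nonneg_left h5 (S.ω_pos t y).le).trans ?_
      change S.swap.a t y / S.a t y * (2 * E (S.P (t + s)) (fun z => Z t z * S.U z) y) ^ 2 ≤ _
      rw [div_mul_eq_mul_div, div_le_iff₀ ha]
      nlinarith [mul_le_mul_of_nonneg_left h4 (mul_nonneg hb.le hZ0)]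
    · rw [E_congr (v := fun _ => 0) fun z hz => by
        rw [I_not fun h' => h2 (hcl t z y ((S.P _).symm' hz) h'), mul_zero, zero_mul, abs_zero],
        E_const]
      simp only [ne_eq, OfNat.ofNat_ne_zero, not_false_eq_true, zero_pow, mul_zero]
      positivity
  refine (sum_le_sum fun t _ => sum_le_sum fun y _ => h1 t y).trans ?_
  simp only [← mul_sum]
  refine mul_le_mul_of_nonneg_left ?_ (by positivity)
  rw [sum_congr rfl fun t _ =>
    sum_mul_E (P := S.P (t + s)) ((S.swap.a_meas t).mono S.hP (Nat.le_add_right t s)) _]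
  unfold Lam
  rw [sum_comm, sum_comm (s := range n)]
  refine sum_le_sum fun y _ => ?_
  calc _ = ∑ t ∈ range n, ∑ p ∈ range n, I (S.top t y = p) * Z t y * (E (S.P p) S.V y * S.U y) := by
        refine sum_congr rfl fun t ht => ?_
        have := S.sum_top (mem_range.1 ht) y fun p => E (S.P p) S.V y
        change S.swap.a t y = _ at this
        rw [this, sum_mul]
        exact sum_congr rfl fun p _ => by ring
    _ ≤ _ := by
        rw [sum_comm]
        refine sum_le_sum fun p _ => ?_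
        rw [← sum_mul]
        have h2 : ∑ t ∈ range n, I (S.top t y = p) * Z t y ≤
            I (S.top p y = p) * I (S.g p y + α ≤ S.g (n + N) y) := by
          by_cases h3 : S.top p y = p ∧ S.g p y + α ≤ S.g (n + N) y
          · rw [I_of h3.1, I_of h3.2, one_mul]
            refine le_trans (sum_le_sum fun t ht => ?_)
              (sum_I_le_one (p := fun t => t + s = S.nu p l (n + N) y) fun a b ha hb => by omega)
            by_cases h4 : S.top t y = p ∧ S.nu t l N y = t + s ∧ S.nu t α N y < t + N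
            · have h5 := S.nu_min (t := t) (p := p) (β := l) (s := N) (s' := n + N) (x := y)
                (h4.1 ▸ S.top_le t y) (h4.1 ▸ (S.top_top t y).2.symm) (Or.inl hl)
                (by have := mem_range.1 ht; omega)
              have h6 := S.nu_mono hlα t N y
              rw [I_of (p := t + s = _) (by omega)]
              exact mul_le_one₀ (I_le_one _) (I_nonneg _) (I_le_one _)
            · refine le_trans (le_of_eq ?_) (I_nonneg _)
              by_cases h5 : S.top t y = p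
              · simp only [hZ]; rw [I_not fun h' => h4 ⟨h5, h'⟩, mul_zero]
              · rw [I_not h5, zero_mul]
          · refine le_trans (le_of_eq (sum_eq_zero fun t ht => ?_))
              (mul_nonneg (I_nonneg _) (I_nonneg _))
            by_cases h5 : S.top t y = p
            · simp only [hZ]
              rw [I_not (p := _ ∧ _) fun h' => h3 ⟨h5 ▸ (S.top_top t y).1, ?_⟩, mul_zero]
              have h6 := (S.nu_spec t α N y).2
              have h7 := S.g_mono y (show S.nu t α N y ≤ n + N by have := mem_range.1 ht; omega)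
              have h8 : S.g p y = S.g t y := h5 ▸ (S.top_top t y).2
              omega
            · rw [I_not h5, zero_mul]
        have := mul_le_mul_of_nonneg_right h2
          (mul_pos (E_pos (P := S.P p) (x := y) S.hV) (S.hU y)).le
        linarith

lemma see_sum (h0 : 0 ≤ η) (h1 : η < 1) {u v : X → ℝ} (hu : ∀ x, |u x| ≤ S.U x)
    (hv : ∀ x, |v x| ≤ S.V x) (n : ℕ) {l α β α' β' H N N' : ℕ} (hl : 1 ≤ l) (hlα : l ≤ α)
    (h : α ≤ β) (h' : α' ≤ β') (hH : β' ≤ H) (hlH : l ≤ H) {φ : ℕ → X → ℝ}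
    (hφ1 : ∀ t y, |φ t y| ≤ 1) (hφ : ∀ t y z, S.P (S.nu t l N' y) y z → φ t z = φ t y)
    (hφ2 : ∀ t y, S.nu t l N' y ≤ t + N → φ t y = 0) {Λ : ℝ}
    (hΛ : S.Lam n (n + N') α ≤ Λ) (hΛ0 : 0 ≤ Λ) :
    ∑ t ∈ range n, ∑ x, |L.ℓ t x (fun y => φ t y * S.W u t α β N' y) (S.W v t α' β' N')| ≤
      96 / (1 - η) * (η ^ N * ((4 * S.D) ^ H) ^ 2) * √(Λ * (N' * S.A)) := by
  have hA := S.hA1
  have hD := S.hD1
  have key : ∑ t ∈ range n, ∑ x, |L.ℓ t x (fun y => φ t y * S.W u t α β N' y)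
      (S.W v t α' β' N')| ≤ ∑ s ∈ Ico (N + 1) (N' + 1), ∑ t ∈ range n, ∑ x,
        |L.ℓ t x (fun y => φ t y * I (S.nu t l N' y = t + s) * S.W u t α β N' y)
          (S.W v t α' β' N')| := by
    rw [sum_comm (s := Ico _ _)]
    refine sum_le_sum fun t _ => ?_
    rw [sum_comm (s := Ico _ _)]
    refine sum_le_sum fun x _ => ?_
    have e : (fun y => φ t y * S.W u t α β N' y) = ∑ s ∈ Ico (N + 1) (N' + 1),
        fun y => φ t y * I (S.nu t l N' y = t + s) * S.W u t α β N' y := by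
      funext y
      rw [Finset.sum_apply, ← sum_mul, ← mul_sum]
      have h2 := S.nu_le_cap t l N' y
      by_cases h3 : S.nu t l N' y ≤ t + N
      · rw [hφ2 t y h3, zero_mul, zero_mul, zero_mul]
      · rw [sum_eq_single (S.nu t l N' y - t) (fun b _ hb => I_not (by omega))
          (fun h' => (h' (mem_Ico.2 (by omega))).elim), I_of (by omega), mul_one]
    rw [e, map_sum, LinearMap.sum_apply]
    exact abs_sum_le_sum_abs _ _
  refine key.trans ?_
  have hC : (1 : ℝ) ≤ (4 * S.D) ^ H := one_le_pow₀ (by linarith)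
  have hl' : (4 * S.D) ^ l ≤ (4 * S.D) ^ H := pow_le_pow_right₀ (by linarith) hlH
  calc _ ≤ ∑ s ∈ Ico (N + 1) (N' + 1), η ^ s * (96 * ((4 * S.D) ^ H) ^ 2 * √(Λ * (N' * S.A))) := by
        refine sum_le_sum fun s _ => (S.see_two L hu n hl hlα h hφ1 hφ
          (S.swap.lemW' hv n h' hH le_rfl)).trans (sqrt_le_of (by positivity) ?_)
        change _ * (512 * N' * ((4 * S.D) ^ H) ^ 2 * S.A) ≤ _
        have e1 : (η ^ s) ^ 4 ≤ (η ^ s) ^ 2 :=
          pow_le_pow_of_le_one (pow_nonneg h0 s) (pow_le_one₀ h0 h1.le) (by norm_num)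
        have e2 : 16 * (4 * S.D) ^ l * S.Lam n (n + N') α ≤ 16 * ((4 * S.D) ^ H) ^ 2 * Λ := by
          refine (mul_le_mul_of_nonneg_left hΛ (by positivity)).trans ?_
          gcongr
          nlinarith
        calc _ ≤ (η ^ s) ^ 4 * (16 * ((4 * S.D) ^ H) ^ 2 * Λ) *
              (512 * N' * ((4 * S.D) ^ H) ^ 2 * S.A) := by gcongr
          _ ≤ (η ^ s) ^ 2 * (16 * ((4 * S.D) ^ H) ^ 2 * Λ) *
              (512 * N' * ((4 * S.D) ^ H) ^ 2 * S.A) := by gcongr
          _ ≤ _ := by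
              rw [mul_pow (η ^ s), mul_pow _ (√_), Real.sq_sqrt (by positivity)]
              have : 0 ≤ (η ^ s) ^ 2 * (((4 * S.D) ^ H) ^ 2) ^ 2 * (Λ * (N' * S.A)) := by
                positivity
              nlinarith
    _ ≤ η ^ (N + 1) / (1 - η) * (96 * ((4 * S.D) ^ H) ^ 2 * √(Λ * (N' * S.A))) := by
        rw [← sum_mul]
        exact mul_le_mul_of_nonneg_right (geo_le h0 h1 _ _) (by positivity)
    _ ≤ η ^ N / (1 - η) * (96 * ((4 * S.D) ^ H) ^ 2 * √(Λ * (N' * S.A))) := by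
        exact mul_le_mul_of_nonneg_right (div_le_div_of_nonneg_right
          (pow_le_pow_of_le_one h0 h1.le (Nat.le_succ N)) (sub_pos.2 h1).le) (by positivity)
    _ = _ := by ring

lemma main_one {κ : ℝ} (hg : S.Good S.U κ) (hκ : κ ≤ 1) {u v : X → ℝ} (hu : ∀ x, |u x| ≤ S.U x)
    (hv : ∀ x, |v x| ≤ S.V x) {C i j β β' : ℕ} (hC : 1 ≤ C) (hj : j ≤ i) (h : 2 ^ (i + 1) ≤ β)
    (h' : 2 ^ (j + 1) ≤ β') (t : ℕ) (x : X) :
    |L.ℓ t x (fun y => S.χ C j t y * S.W u t (2 ^ (i + 1)) β (C * 2 ^ (i + 1)) y)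
      (S.W v t (2 ^ (j + 1)) β' (C * 2 ^ (i + 1)))| ≤ 4 * (1 - κ) ^ (2 ^ i - 1) *
      (E (S.P t) (fun y => S.χ C j t y * S.U y) x *
        E (S.P t) (fun y => S.Γ (2 ^ j) (C * 2 ^ (i + 1)) t y * S.V y) x) := by
  have hlt : ∀ j' ≤ i, C * 2 ^ j' < C * 2 ^ (i + 1) := fun j' hj' =>
    Nat.mul_lt_mul_of_pos_left (Nat.pow_lt_pow_right (by norm_num) (by omega)) hC
  have hdet : ∀ l, 2 ^ i ≤ l → ∀ y z, S.P (S.nu t l (C * 2 ^ (i + 1)) y) y z →
      ((S.g t z + 2 ^ j ≤ S.g (t + C * 2 ^ j) z ∧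
        ¬ ∃ j' < j, S.g t z + 2 ^ j' ≤ S.g (t + C * 2 ^ j') z) ↔
      (S.g t y + 2 ^ j ≤ S.g (t + C * 2 ^ j) y ∧
        ¬ ∃ j' < j, S.g t y + 2 ^ j' ≤ S.g (t + C * 2 ^ j') y)) := fun l hl y z hyz =>
    and_congr (S.Γ_det (hlt j hj) ((Nat.pow_le_pow_right (by norm_num) hj).trans hl) hyz)
      (not_congr (exists_congr fun j' => and_congr_right fun hj' => S.Γ_det (hlt j' (by omega))
        ((Nat.pow_le_pow_right (by norm_num) (by omega)).trans hl) hyz))
  have a1 := S.abs_W hu (t := t) (s := C * 2 ^ (i + 1)) (q := t) (x := x) h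
    (fun y _ => (S.nu_spec t _ _ y).1)
    (hdet _ (Nat.pow_le_pow_right (by norm_num) (Nat.le_succ i)))
  have a2 := hg.decay2 hκ t (2 ^ i) (C * 2 ^ (i + 1)) (2 ^ i - 1) (S.χ_nonneg C j t)
    (fun y z hyz => congrArg I (propext (hdet _ le_rfl y z hyz))) x
  have a3 : E (S.P t) (fun y => |S.χ C j t y * S.W u t (2 ^ (i + 1)) β (C * 2 ^ (i + 1)) y|) x ≤
      2 * ((1 - κ) ^ (2 ^ i - 1) * E (S.P t) (fun y => S.χ C j t y * S.U y) x) := by
    refine a1.trans (mul_le_mul_of_nonneg_left (le_trans (E_mono fun y _ => ?_) a2) zero_le_two)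
    rw [← mul_assoc]
    refine mul_le_mul_of_nonneg_right ?_ (S.hU y).le
    by_cases hp : (S.g t y + 2 ^ j ≤ S.g (t + C * 2 ^ j) y ∧
        ¬ ∃ j' < j, S.g t y + 2 ^ j' ≤ S.g (t + C * 2 ^ j') y) ∧
        S.nu t (2 ^ (i + 1)) (C * 2 ^ (i + 1)) y < t + C * 2 ^ (i + 1)
    · have h2 := (S.nu_spec t (2 ^ (i + 1)) (C * 2 ^ (i + 1)) y).2
      have h3 := S.g_mono y hp.2.le
      have h4 := hp.2
      have h5 := Nat.one_le_two_pow (n := i)
      have h6 : 2 ^ (i + 1) = 2 * 2 ^ i := by ring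
      rw [I_of hp, χ, I_of hp.1, I_of (by omega), one_mul]
    · rw [I_not hp]; exact mul_nonneg (I_nonneg _) (I_nonneg _)
  have a4 : E (S.P t) (fun y => |S.W v t (2 ^ (j + 1)) β' (C * 2 ^ (i + 1)) y|) x ≤
      2 * E (S.P t) (fun y => S.Γ (2 ^ j) (C * 2 ^ (i + 1)) t y * S.V y) x := by
    refine le_trans (le_of_eq (E_congr fun y _ => ?_))
      (S.swap.E_main hv (t := t) (N := C * 2 ^ (i + 1)) (N' := C * 2 ^ (i + 1))
        (Nat.pow_le_pow_right (by norm_num) (Nat.le_succ j)) h' x).1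
    rw [I_of (S.swap.nu_le_cap t _ _ y), one_mul]; rfl
  refine (L.h0 t x _ _).trans ((mul_le_mul a3 a4 (E_nonneg fun _ => abs_nonneg _)
    ((E_nonneg fun _ => abs_nonneg _).trans a3)).trans_eq (by ring))

end Cor

end Pool.Agent.P.MP_70f35d_an
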