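import Pool.Agent.P.MP_70f35d_an.ShD

set_option autoImplicit false
open Finset

namespace Pool.Agent.P.MP_70f35d_an

variable {X : Type} [Fintype X]

def e2 : ℕ → ℕ
  | 0 => 0
  | i + 1 => 2 ^ (i + 1)

def l2 : ℕ → ℕ
  | 0 => 1
  | i + 1 => 2 ^ i

def n2 (C : ℕ) : ℕ → ℕ
  | 0 => 0
  | i + 1 => C * 2 ^ i

lemma e2_mono : Monotone e2 := monotone_nat_of_le_succ fun i => by
  cases i with
  | zero => exact Nat.zero_le _
  | succ i => exact Nat.pow_le_pow_right (by norm_num) (Nat.le_succ _)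

lemma sum_half_le (m : ℕ) : ∑ i ∈ range m, (1 / 2 : ℝ) ^ i ≤ 2 := by
  have := geo_le (η := 1 / 2) (by norm_num) (by norm_num) 0 m
  rw [range_eq_Ico]; linarith

lemma sum_rho {κ : ℝ} (h0 : 0 < κ) (h1 : κ ≤ 1) (m : ℕ) :
    ∑ i ∈ range m, (2 : ℝ) ^ i * (1 - κ) ^ (2 ^ i - 1) ≤ 2 / κ := by
  have hρ := sub_nonneg.2 h1
  have key : ∀ m, ∑ i ∈ range (m + 1), (2 : ℝ) ^ i * (1 - κ) ^ (2 ^ i - 1) ≤
      2 * ∑ k ∈ Ico 0 (2 ^ m), (1 - κ) ^ k := by
    intro m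
    induction m with
    | zero => simp
    | succ m ih =>
      have h2 : 2 ^ m ≤ 2 ^ (m + 1) := Nat.pow_le_pow_right (by norm_num) (Nat.le_succ m)
      have h3 := card_nsmul_le_sum (Ico (2 ^ m) (2 ^ (m + 1))) (fun k => (1 - κ) ^ k)
        ((1 - κ) ^ (2 ^ (m + 1) - 1)) fun k hk =>
        pow_le_pow_of_le_one hρ (by linarith) (by have := mem_Ico.1 hk; omega)
      rw [Nat.card_Ico, show 2 ^ (m + 1) - 2 ^ m = 2 ^ m by rw [pow_succ]; omega,
        nsmul_eq_mul] at h3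
      push_cast at h3
      rw [sum_range_succ, ← sum_Ico_consecutive _ (Nat.zero_le _) h2, pow_succ (2 : ℝ)]
      linarith
  refine (sum_le_sum_of_subset_of_nonneg (range_subset_range.2 (Nat.le_succ m))
    fun i _ _ => by positivity).trans ((key m).trans ?_)
  have := geo_le hρ (by linarith) 0 (2 ^ m)
  rw [pow_zero, sub_sub_cancel] at this
  rw [div_eq_mul_one_div]; linarith

lemma sum_sqrt (A : ℝ) (m : ℕ) : ∑ i ∈ range m, I ((2 : ℝ) ^ i ≤ A) * √(2 ^ i) ≤ 4 * √A := by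
  have key : ∑ i ∈ range m, I ((2 : ℝ) ^ i ≤ A) * √(2 ^ i) ≤ 3 * √(2 ^ m) ∧
      ∑ i ∈ range m, I ((2 : ℝ) ^ i ≤ A) * √(2 ^ i) ≤ 4 * √A := by
    induction m with
    | zero => simp
    | succ m ih =>
      have h1 : 4 / 3 * √((2 : ℝ) ^ m) ≤ √(2 ^ (m + 1)) := by
        refine Real.le_sqrt_of_sq_le ?_
        rw [mul_pow, Real.sq_sqrt (by positivity), pow_succ (2 : ℝ)]
        have : (0 : ℝ) < 2 ^ m := by positivity
        linarith
      have h2 := Real.sqrt_nonneg ((2 : ℝ) ^ m)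
      rw [sum_range_succ]
      by_cases h : (2 : ℝ) ^ m ≤ A
      · have := Real.sqrt_le_sqrt h
        rw [I_of h]; constructor <;> linarith [ih.1]
      · rw [I_not h]; constructor <;> linarith [ih.1, ih.2]
  exact key.2

lemma sum_YY {A : ℝ} (hA : 1 ≤ A) (m : ℕ) :
    ∑ i ∈ range m, (1 - 1 / (16 * A)) ^ (2 ^ i - 1) * YY A (2 ^ (i + 1)) ≤ 136 * (√A * A) := by
  have hκ : 1 / (16 * A) ≤ 1 := by rw [div_le_one (by linarith)]; linarith
  have h1 := sum_rho (by positivity) hκ m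
  have h2 := sum_sqrt A m
  have hs := Real.sqrt_nonneg A
  rw [div_div_eq_mul_div, div_one] at h1
  calc _ ≤ ∑ i ∈ range m, (2 * A * (I ((2 : ℝ) ^ i ≤ A) * √(2 ^ i)) +
        4 * √A * (2 ^ i * (1 - 1 / (16 * A)) ^ (2 ^ i - 1))) := by
        refine sum_le_sum fun i _ => ?_
        have r0 : 0 ≤ (1 - 1 / (16 * A)) ^ (2 ^ i - 1) := pow_nonneg (sub_nonneg.2 hκ) _
        have r1 : (1 - 1 / (16 * A)) ^ (2 ^ i - 1) ≤ 1 :=
          pow_le_one₀ (sub_nonneg.2 hκ) (sub_le_self _ (by positivity))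
        have p0 : (0 : ℝ) < 2 ^ i := by positivity
        have s0 := Real.sqrt_nonneg ((2 : ℝ) ^ i)
        have s1 : √((2 : ℝ) ^ (i + 1)) ≤ 2 * √(2 ^ i) := sqrt_le_of (by positivity) (by
          rw [mul_pow, Real.sq_sqrt p0.le, pow_succ (2 : ℝ)]; linarith)
        have s2 : YY A (2 ^ (i + 1)) ≤ 2 * (A * √(2 ^ i)) + 2 * (√A * 2 ^ i) := by
          rw [YY, pow_succ (2 : ℝ) i, ← pow_succ]
          nlinarith [mul_le_mul_of_nonneg_left s1 (by linarith : 0 ≤ A), pow_succ (2 : ℝ) i]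
        have s3 := mul_le_mul_of_nonneg_left s2 r0
        by_cases h : (2 : ℝ) ^ i ≤ A
        · rw [I_of h]
          nlinarith [mul_le_mul_of_nonneg_right r1 (by positivity : 0 ≤ A * √(2 ^ i)),
            mul_nonneg r0 (by positivity : 0 ≤ √A * 2 ^ i)]
        · have s4 : A * √(2 ^ i) ≤ √A * 2 ^ i := by
            have a1 := Real.sqrt_le_sqrt (not_le.1 h).le
            have a2 := Real.mul_self_sqrt (by linarith : 0 ≤ A)
            have a3 := Real.mul_self_sqrt p0.le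
            nlinarith [mul_le_mul_of_nonneg_left a1 (mul_nonneg hs s0)]
          rw [I_not h]
          nlinarith [mul_le_mul_of_nonneg_left s4 r0]
    _ ≤ _ := by
        rw [sum_add_distrib, ← mul_sum, ← mul_sum]
        nlinarith [mul_le_mul_of_nonneg_left h1 hs,
          mul_le_mul_of_nonneg_left h2 (by linarith : 0 ≤ A)]

namespace Cor

variable (S : Cor X) {η : ℝ} (L : Forms S.P η)

noncomputable def K1 (D η : ℝ) : ℝ := 2048 / (1 - η) ^ 2 * (4 * D) ^ 4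

noncomputable def K2 (D η : ℝ) (c : ℕ) : ℝ :=
  96 / (1 - η) * (2 * (4 * D) ^ 4) * (12 * c) + 2592 * c

lemma qH2 (h0 : 0 ≤ η) (h1 : η < 1) {c : ℕ} (hc : η ^ c * (4 * S.D) ^ 2 ≤ 1 / 2) {N H j : ℕ}
    (hH : j + 1 ≤ H) (hN : c * H ≤ N) :
    η ^ N * ((4 * S.D) ^ H) ^ 2 ≤ (4 * S.D) ^ 4 * (1 / 2) ^ j := by
  have hD := S.hD1
  obtain ⟨k, rfl⟩ : ∃ k, H = k + 1 := ⟨H - 1, by omega⟩
  refine le_trans (mul_le_mul_of_nonneg_right (pow_le_pow_of_le_one h0 h1.le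
    ((Nat.mul_le_mul_left c (Nat.le_succ k)).trans hN)) (sq_nonneg _)) ((S.qH h0 hc k).trans ?_)
  exact mul_le_mul (pow_le_pow_right₀ (by linarith) (by norm_num))
    (pow_le_pow_of_le_one (by norm_num) (by norm_num) (by omega)) (by positivity) (by positivity)

lemma piece_zero (h0 : 0 ≤ η) (h1 : η < 1) {u v : X → ℝ} (hu : ∀ x, |u x| ≤ S.U x)
    (hv : ∀ x, |v x| ≤ S.V x) (n : ℕ) {β s : ℕ} (hβ : β ≤ 2) :
    S.Pair L u v n 0 2 0 β s ≤ K1 S.D η * S.A := by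
  have a1 := S.pair_l2 L h0 h1 hu hv n (Nat.zero_le 2) (H := 2) le_rfl (Nat.zero_le β) hβ
    (Nat.zero_le s)
  have a3 : S.Pair L u v n 0 2 0 β 0 = 0 := by
    refine sum_eq_zero fun t _ => sum_eq_zero fun x _ => ?_
    have : S.W u t 0 2 0 = 0 := by
      funext y
      have e : ∀ β, S.nu t β 0 y = t := fun β =>
        le_antisymm (S.nu_le_cap t β 0 y) (S.nu_spec _ _ _ _).1
      simp only [W, ES, e, sub_self, Pi.zero_apply]
    rw [this, map_zero, LinearMap.zero_apply, abs_zero]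
  rw [a3] at a1
  refine a1.trans (le_of_eq ?_)
  unfold K1; ring

lemma piece_succ (h0 : 0 ≤ η) (h1 : η < 1) {c : ℕ} (hc1 : 1 ≤ c)
    (hc : η ^ c * (4 * S.D) ^ 2 ≤ 1 / 2) (hg : S.Good S.U (1 / (16 * S.A))) {u v : X → ℝ}
    (hu : ∀ x, |u x| ≤ S.U x) (hv : ∀ x, |v x| ≤ S.V x) (n : ℕ) {i m s : ℕ} (hm : m ≤ i + 1)
    (hs : 4 * c * 2 ^ (i + 1) ≤ s) :
    S.Pair L u v n (e2 (i + 1)) (e2 (i + 1 + 1)) 0 (e2 (m + 1)) s ≤
      K1 S.D η * ((1 / 2) ^ (i + 1) * S.A) +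
      K2 S.D η c * ((1 - 1 / (16 * S.A)) ^ (2 ^ i - 1) * YY S.A (2 ^ (i + 1))) := by
  have hA := S.hA1
  have hD := S.hD1
  have hη := sub_pos.2 h1
  have hκ : 1 / (16 * S.A) ≤ 1 := by rw [div_le_one (by linarith)]; linarith
  have hc' : (1 : ℝ) ≤ c := by exact_mod_cast hc1
  set C := 4 * c with hC
  have hC1 : 1 ≤ C := by omega
  set N' := C * 2 ^ (i + 1) with hN'
  set ρ := (1 - 1 / (16 * S.A)) ^ (2 ^ i - 1) with hρ
  have hρ0 : 0 ≤ ρ := pow_nonneg (sub_nonneg.2 hκ) _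
  have hY := YY_nonneg (A := S.A) (L := 2 ^ (i + 1)) (by linarith) (by positivity)
  have hp : ∀ k : ℕ, k + 1 ≤ 2 ^ k := fun k => Nat.lt_two_pow_self
  have a1 := S.pair_l2 L h0 h1 hu hv n (e2_mono (Nat.le_succ (i + 1))) le_rfl
    (Nat.zero_le (e2 (m + 1))) (e2_mono (by omega)) hs
  have a2 := S.qH2 h0 h1 hc (N := N') (H := e2 (i + 1 + 1)) (j := i + 1)
    ((Nat.le_succ _).trans (hp _)) (by
      rw [show N' = c * e2 (i + 1 + 1) * 2 by simp only [e2, hN', hC]; ring]; omega)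
  have hΛ : S.Lam n (n + N') (e2 (i + 1)) ≤ ρ ^ 2 * (8 * S.A) := by
    have h2 := hp i
    have h3 : e2 (i + 1) = (2 ^ i - 1) * 2 + 1 + 1 := by simp only [e2, pow_succ]; omega
    rw [h3, hρ, ← pow_mul]
    refine (Lam_decay hg hκ (Nat.le_add_right n N') _).trans (mul_le_mul_of_nonneg_right
      (pow_le_pow_of_le_one (sub_nonneg.2 hκ) (sub_le_self _ (by positivity)) (Nat.le_succ _))
      (by linarith))
  have hΛ1 : √(ρ ^ 2 * (8 * S.A) * (N' * S.A)) ≤ 12 * c * (ρ * YY S.A (2 ^ (i + 1))) := by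
    refine sqrt_le_of (by positivity) ?_
    have h2 := YY_sq (A := S.A) (L := 2 ^ (i + 1)) (by linarith) (by positivity)
    have h3 : (0 : ℝ) ≤ S.A * (2 ^ (i + 1)) ^ 2 := by positivity
    have h4 : 32 * (c : ℝ) ≤ (12 * c) ^ 2 := by nlinarith
    calc _ = 32 * c * (ρ ^ 2 * (S.A ^ 2 * 2 ^ (i + 1))) := by rw [hN', hC]; push_cast; ring
      _ ≤ (12 * c) ^ 2 * (ρ ^ 2 * YY S.A (2 ^ (i + 1)) ^ 2) := by gcongr; linarith
      _ = _ := by ring
  have hlt : ∀ j ≤ i, C * 2 ^ j < N' := fun j hj =>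
    Nat.mul_lt_mul_of_pos_left (Nat.pow_lt_pow_right (by norm_num) (by omega)) hC1
  have a3 : ∀ j ∈ range (m + 1), ∑ t ∈ range n, ∑ x, |L.ℓ t x (fun y => (1 - S.sun C j t y) *
      S.W u t (e2 (i + 1)) (e2 (i + 1 + 1)) N' y) (S.W v t (e2 j) (e2 (j + 1)) N')| ≤
      96 / (1 - η) * (4 * S.D) ^ 4 * (12 * c * (ρ * YY S.A (2 ^ (i + 1)))) * (1 / 2) ^ j := by
    intro j hj
    have hj' := mem_range.1 hj
    have b1 : 1 ≤ l2 j := by cases j <;> simp [l2, Nat.one_le_two_pow]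
    have b2 : ∀ k, j ≤ k + 1 → l2 j ≤ e2 (k + 1) := fun k hk => by
      cases j with
      | zero => exact Nat.one_le_two_pow
      | succ j => exact Nat.pow_le_pow_right (by norm_num) (by omega)
    have b3 : η ^ n2 C j * ((4 * S.D) ^ e2 (j + 1)) ^ 2 ≤ (4 * S.D) ^ 4 * (1 / 2) ^ j := by
      cases j with
      | zero => exact le_of_eq (by simp only [n2, e2]; ring)
      | succ j =>
        exact S.qH2 h0 h1 hc ((Nat.le_succ _).trans (hp _))
          (le_of_eq (by simp only [e2, n2, hC]; ring))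
    refine (S.see_sum L h0 h1 hu hv n (N := n2 C j) b1 (b2 i (by omega))
      (e2_mono (Nat.le_succ _)) (e2_mono (Nat.le_succ j)) le_rfl (b2 j (Nat.le_succ j))
      (fun t y => ?_) (fun t y z hyz => ?_) (fun t y hy => ?_) hΛ (by positivity)).trans ?_
    · have := S.sun_nonneg C j t y
      have := S.sun_le_one C j t y
      rw [abs_le]; constructor <;> linarith
    · refine congrArg (1 - I ·) (propext (exists_congr fun j' => and_congr_right fun hj' =>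
        S.Γ_det (hlt j' (by omega)) ?_ hyz))
      cases j with
      | zero => omega
      | succ j => exact Nat.pow_le_pow_right (by norm_num) (by omega)
    · cases j with
      | zero =>
        have := (S.Γ_iff (N := 0) (by have := hlt 0 (Nat.zero_le i); omega) y).2 hy
        simp only [l2, add_zero] at this
        omega
      | succ j =>
        rw [sun, I_of ⟨j, Nat.lt_succ_self j, (S.Γ_iff (hlt j (by omega)) y).2 hy⟩, sub_self]
    · calc _ ≤ 96 / (1 - η) * ((4 * S.D) ^ 4 * (1 / 2) ^ j) *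
            (12 * c * (ρ * YY S.A (2 ^ (i + 1)))) := by gcongr
        _ = _ := by ring
  have a4 := sum_le_sum a3
  rw [← mul_sum] at a4
  have a5 := a4.trans (mul_le_mul_of_nonneg_left (sum_half_le _) (by positivity))
  have a6 := mul_le_mul_of_nonneg_left (S.mainM C (i + 1) n) (by positivity : 0 ≤ 4 * ρ)
  have a7 : S.Pair L u v n (e2 (i + 1)) (e2 (i + 1 + 1)) 0 (e2 (m + 1)) N' ≤
      ∑ j ∈ range (m + 1), ∑ t ∈ range n, ∑ x, |L.ℓ t x (fun y => (1 - S.sun C j t y) *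
        S.W u t (e2 (i + 1)) (e2 (i + 1 + 1)) N' y) (S.W v t (e2 j) (e2 (j + 1)) N')| +
      4 * ρ * ∑ t ∈ range n, ∑ x, ∑ j ∈ range (i + 1),
        E (S.P t) (fun y => S.χ C j t y * S.U y) x *
          E (S.P t) (fun y => S.Γ (2 ^ j) N' t y * S.V y) x := by
    rw [Pair, sum_comm (s := range (m + 1)), mul_sum, ← sum_add_distrib]
    refine sum_le_sum fun t _ => ?_
    rw [sum_comm (s := range (m + 1)), mul_sum, ← sum_add_distrib]
    refine sum_le_sum fun x _ => ?_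
    have e := bil_regroup (L.ℓ t x) (S.W u t (e2 (i + 1)) (e2 (i + 1 + 1)) N')
      (fun j => S.χ C j t) (fun j => ES S.P (S.nu t (e2 j) N') v) (m + 1)
    rw [sum_range_succ (fun j => L.ℓ t x (fun y => S.χ C j t y * _) _) m, sub_self,
      map_zero, add_zero] at e
    simp only [sum_χ] at e
    refine (congrArg abs e).trans_le ((abs_add_le _ _).trans (add_le_add (abs_sum_le_sum_abs _ _)
      ((abs_sum_le_sum_abs _ _).trans ?_)))
    rw [mul_sum]
    refine (sum_le_sum fun j hj => S.main_one L hg hκ hu hv hC1 (by have := mem_range.1 hj; omega)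
      (e2_mono (Nat.le_succ (i + 1))) (e2_mono (Nat.succ_le_succ (mem_range.1 hj).le)) t x).trans
      (sum_le_sum_of_subset_of_nonneg (range_subset_range.2 hm) fun j _ _ => ?_)
    exact mul_nonneg (by positivity) (mul_nonneg
      (E_nonneg fun y => mul_nonneg (I_nonneg _) (S.hU y).le)
      (E_nonneg fun y => mul_nonneg (I_nonneg _) (S.hV y).le))
  have a8 : 2048 / (1 - η) ^ 2 * (η ^ N' * ((4 * S.D) ^ e2 (i + 1 + 1)) ^ 2) * S.A ≤
      2048 / (1 - η) ^ 2 * ((4 * S.D) ^ 4 * (1 / 2) ^ (i + 1)) * S.A := by gcongr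
  have a9 : ((C : ℕ) : ℝ) = 4 * c := by rw [hC]; push_cast; rfl
  rw [a9] at a6
  unfold K1 K2
  linarith

noncomputable def B2 (D η A : ℝ) (c : ℕ) : ℕ → ℝ
  | 0 => K1 D η * A
  | i + 1 => K1 D η * ((1 / 2) ^ (i + 1) * A) +
      K2 D η c * ((1 - 1 / (16 * A)) ^ (2 ^ i - 1) * YY A (2 ^ (i + 1)))

lemma sum_B2 {D A : ℝ} (h1 : η < 1) (hA : 1 ≤ A) (c m : ℕ) :
    ∑ i ∈ range (m + 1), B2 D η A c i ≤ (2 * K1 D η + 136 * K2 D η c) * (√A * A) := by
  have hη := sub_pos.2 h1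
  have k1 : 0 ≤ K1 D η := by unfold K1; positivity
  have k2 : 0 ≤ K2 D η c := by unfold K2; positivity
  have h2 := sum_half_le (m + 1)
  have h3 := mul_le_mul_of_nonneg_left (sum_YY hA m) k2
  have h4 : A ≤ √A * A := le_mul_of_one_le_left (by linarith) (Real.one_le_sqrt.2 hA)
  rw [sum_range_succ'] at h2 ⊢
  simp only [B2]
  rw [sum_add_distrib, ← mul_sum, ← mul_sum, ← sum_mul]
  nlinarith [mul_le_mul_of_nonneg_left h4 k1,
    mul_le_mul_of_nonneg_left h2 (mul_nonneg k1 (by linarith : 0 ≤ A))]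

lemma piece (h0 : 0 ≤ η) (h1 : η < 1) {c : ℕ} (hc1 : 1 ≤ c)
    (hc : η ^ c * (4 * S.D) ^ 2 ≤ 1 / 2) (hg : S.Good S.U (1 / (16 * S.A))) {u v : X → ℝ}
    (hu : ∀ x, |u x| ≤ S.U x) (hv : ∀ x, |v x| ≤ S.V x) (n : ℕ) {i m s : ℕ} (hm : i ≤ m)
    (hm' : m ≤ i + 1) (hs : 4 * c * 2 ^ i ≤ s) :
    S.Pair L u v n (e2 i) (e2 (i + 1)) 0 (e2 m) s ≤ B2 S.D η S.A c i := by
  cases i with
  | zero => exact S.piece_zero L h0 h1 hu hv n (e2_mono hm')
  | succ i =>
    obtain ⟨m, rfl⟩ : ∃ k, m = k + 1 := ⟨m - 1, by omega⟩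
    exact S.piece_succ L h0 h1 hc1 hc hg hu hv n (by omega) hs

lemma decomp2 {nb : ℕ} (hb : ∀ q x y, nb ≤ q → S.P q x y → x = y) (u : X → ℝ) (t : ℕ) {s : ℕ}
    (hs : nb ≤ s) : u - E (S.P t) u =
      ES S.P (S.nu t (e2 (nb + 1)) s) u - ES S.P (S.nu t (e2 0) s) u := by
  funext y
  have h1 : nb ≤ S.nu t (e2 (nb + 1)) s y := by
    obtain ⟨h1, h2⟩ := S.nu_spec t (e2 (nb + 1)) s y
    have h3 := S.g_le y t (S.nu t (e2 (nb + 1)) s y - t)
    rw [Nat.add_sub_cancel' h1] at h3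
    have : nb + 1 < e2 (nb + 1) := Nat.lt_two_pow_self
    omega
  simp only [ES, Pi.sub_apply]
  rw [show e2 0 = 0 from rfl, S.nu_zero,
    E_eq_of_const (P := S.P (S.nu t (e2 (nb + 1)) s y)) fun z hz => by rw [hb _ _ _ h1 hz]]

theorem total2 (h0 : 0 ≤ η) (h1 : η < 1) {c : ℕ} (hc1 : 1 ≤ c)
    (hc : η ^ c * (4 * S.D) ^ 2 ≤ 1 / 2) (hgU : S.Good S.U (1 / (16 * S.A)))
    (hgV : S.Good S.V (1 / (16 * S.A))) {u v : X → ℝ} (hu : ∀ x, |u x| ≤ S.U x)
    (hv : ∀ x, |v x| ≤ S.V x) {nb : ℕ} (hb : ∀ q x y, nb ≤ q → S.P q x y → x = y) (n : ℕ) :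
    ∑ t ∈ range n, ∑ x, |L.ℓ t x u v| ≤
      2 * ((2 * K1 S.D η + 136 * K2 S.D η c) * (√S.A * S.A)) := by
  set s := 4 * c * 2 ^ nb + nb with hs
  have hsi : ∀ i ∈ range (nb + 1), 4 * c * 2 ^ i ≤ s := fun i hi =>
    (Nat.mul_le_mul_left _ (Nat.pow_le_pow_right (by norm_num)
      (Nat.le_of_lt_succ (mem_range.1 hi)))).trans (Nat.le_add_right _ _)
  have k := sum_B2 (D := S.D) h1 S.hA1 c nb
  calc _ ≤ ∑ i ∈ range (nb + 1), S.Pair L u v n (e2 i) (e2 (i + 1)) 0 (e2 (i + 1)) s +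
        ∑ i ∈ range (nb + 1), S.swap.Pair L.flip v u n (e2 i) (e2 (i + 1)) 0 (e2 i) s := by
        simp only [Pair]
        rw [sum_comm (s := range (nb + 1)), sum_comm (s := range (nb + 1)), ← sum_add_distrib]
        refine sum_le_sum fun t _ => ?_
        rw [sum_comm (s := range (nb + 1)), sum_comm (s := range (nb + 1)), ← sum_add_distrib]
        refine sum_le_sum fun x _ => ?_
        have e : L.ℓ t x (u - E (S.P t) u) v = L.ℓ t x (u - E (S.P t) u) (v - E (S.P t) v) :=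
          L.flip.center t x v _
        rw [L.center t x u v, e, S.decomp2 hb u t (Nat.le_add_left nb _),
          S.decomp2 hb v t (Nat.le_add_left nb (4 * c * 2 ^ nb)),
          bil_tri (L.ℓ t x) (fun j => ES S.P (S.nu t (e2 j) s) u)
            (fun j => ES S.P (S.nu t (e2 j) s) v)]
        exact (abs_add_le _ _).trans (add_le_add (abs_sum_le_sum_abs _ _) (abs_sum_le_sum_abs _ _))
    _ ≤ ∑ i ∈ range (nb + 1), B2 S.D η S.A c i + ∑ i ∈ range (nb + 1), B2 S.D η S.A c i :=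
        add_le_add (sum_le_sum fun i hi => S.piece L h0 h1 hc1 hc hgU hu hv n (Nat.le_succ i)
          le_rfl (hsi i hi)) (sum_le_sum fun i hi => S.swap.piece L.flip h0 h1 hc1 hc hgV hv hu n
          le_rfl (Nat.le_succ i) (hsi i hi))
    _ ≤ _ := by linarith

lemma good_U (h : ∀ t x, S.F t x ≤ 4 * S.f x) : S.Good S.U (1 / (16 * S.A)) := by
  refine ⟨fun x => (S.hU x).le, fun p m x hpm hp => ?_⟩
  have hA := S.hA1
  have h1 := mul_le_mul_of_nonneg_left (S.good_σ.2 p m x hpm hp)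
    (div_nonneg (S.F_nonneg p x) zero_le_four)
  rw [← E_cmul _ (S.F p x / 4)] at h1
  refine le_trans (le_of_eq ?_) (h1.trans (E_mono fun y hy => ?_))
  · rw [S.EU]; field_simp; ring
  · have h2 := h p y
    rw [S.F_meas p x y hy] at h2
    rw [← S.σ_f]
    nlinarith [mul_le_mul_of_nonneg_left h2 (mul_nonneg (S.hσ y).le (I_nonneg (S.g m y = S.g p y)))]

end Cor

end Pool.Agent.P.MP_70f35d_an
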