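import Pool.Agent.P.MP_70f35d_an.ShE

set_option autoImplicit false
open Finset

namespace Pool.Agent.P.MP_70f35d_an

variable {X : Type} [Fintype X]

omit [Fintype X] in
lemma rmax_le_add {F G : ℕ → X → ℝ} {x : X} {c : ℝ} (h : ∀ q, F q x ≤ G q x + c) (n : ℕ) :
    rmax F n x ≤ rmax G n x + c := by
  induction n with
  | zero => exact h 0
  | succ n ih =>
    exact max_le (ih.trans (add_le_add_left (le_max_left _ _) _))
      ((h _).trans (add_le_add_left (le_max_right _ _) _))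

lemma Ew_le_add {P : Setoid X} {σ f g : X → ℝ} (hσ : ∀ y, 0 < σ y) {c : ℝ}
    (h : ∀ y, f y ≤ g y + c) (x : X) : Ew P σ f x ≤ Ew P σ g x + c := by
  have h0 := E_pos (P := P) (x := x) hσ
  rw [Ew, div_le_iff₀ h0, add_mul, Ew_mul hσ, ← E_cmul, ← E_add]
  exact E_mono fun y _ => by nlinarith [mul_le_mul_of_nonneg_left (h y) (hσ y).le]

lemma exists_fix (P : ℕ → Setoid X) {σ : X → ℝ} (hσ : ∀ y, 0 < σ y) (f : X → ℝ) (n : ℕ) :
    ∃ h : X → ℝ, ∀ x, h x = f x + rmax (fun q => Ew (P q) σ fun y => |h y|) n x / 4 := by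
  set T : (X → ℝ) → X → ℝ := fun h x => f x + rmax (fun q => Ew (P q) σ fun y => |h y|) n x / 4
  have key : ∀ a b : X → ℝ, ∀ x, T a x ≤ T b x + dist a b / 4 := fun a b x => by
    have := rmax_le_add (F := fun q => Ew (P q) σ fun y => |a y|)
      (G := fun q => Ew (P q) σ fun y => |b y|) (x := x) (c := dist a b)
      (fun q => Ew_le_add hσ (fun y => by
        have := dist_le_pi_dist a b y
        rw [Real.dist_eq] at this
        linarith [abs_sub_abs_le_abs_sub (a y) (b y)]) x) n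
    simp only [T]; linarith
  have hT : ContractingWith (1 / 4) T := by
    refine ⟨by norm_num, LipschitzWith.of_dist_le_mul fun a b => ?_⟩
    refine (dist_pi_le_iff (by positivity)).2 fun x => ?_
    have h1 := key a b x
    have h2 := key b a x
    rw [dist_comm] at h2
    rw [Real.dist_eq, abs_le]
    push_cast
    constructor <;> linarith
  exact ⟨hT.fixedPoint T, fun x => (congrFun hT.fixedPoint_isFixedPt x).symm⟩

lemma exists_maj {P : ℕ → Setoid X} (hP : Filt P) {nb : ℕ}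
    (hb : ∀ q x y, nb ≤ q → P q x y → x = y) {σ u : X → ℝ} (hσ : ∀ x, 0 < σ x)
    (hu : ∑ x, u x ^ 2 / σ x ≤ 1 / 16) :
    ∃ U : X → ℝ, (∀ x, 0 < U x) ∧ (∀ x, |u x| ≤ U x) ∧ ∑ x, U x ^ 2 / σ x ≤ 1 ∧
      ∀ t x, Ew (P t) σ (fun y => U y / σ y) x ≤ 4 * (U x / σ x) := by
  obtain ⟨U, U0, U1, U2⟩ := exists_dom (u := fun x => 2 * u x) hσ (by
    simp only [mul_pow, mul_div_assoc, ← mul_sum]; linarith)
  obtain ⟨h, hh⟩ := exists_fix P hσ (fun x => U x / (2 * σ x)) nb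
  have f0 : ∀ x, 0 < U x / (2 * σ x) := fun x => div_pos (U0 x) (by linarith [hσ x])
  have m0 : ∀ x, 0 ≤ rmax (fun q => Ew (P q) σ fun y => |h y|) nb x := fun x =>
    (Ew_nonneg hσ (fun _ => abs_nonneg _) x).trans
      (le_rmax (fun q => Ew (P q) σ fun y => |h y|) nb x)
  have h0 : ∀ x, 0 < h x := fun x => by rw [hh]; linarith [f0 x, m0 x]
  have e : (fun y => |h y|) = h := funext fun y => abs_of_pos (h0 y)
  rw [e] at hh m0
  have e2 : ∀ y, σ y * h y / σ y = h y := fun y => mul_div_cancel_left₀ _ (hσ y).ne'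
  refine ⟨fun x => σ x * h x, fun x => mul_pos (hσ x) (h0 x), fun x => ?_, ?_, fun t x => ?_⟩
  · have h1 := U1 x
    have h2 : U x / (2 * σ x) ≤ h x := by rw [hh]; linarith [m0 x]
    rw [div_le_iff₀ (by linarith [hσ x])] at h2
    rw [abs_mul, abs_two] at h1
    linarith
  · have d := doob hP hσ h nb
    have h1 : ∑ x, σ x * h x ^ 2 ≤ 1 / 2 * ∑ x, U x ^ 2 / σ x +
        1 / 8 * ∑ x, σ x * rmax (fun q => Ew (P q) σ h) nb x ^ 2 := by
      rw [mul_sum, mul_sum, ← sum_add_distrib]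
      refine sum_le_sum fun x _ => ?_
      have h2 := hσ x
      have h3 : U x ^ 2 / σ x = 4 * (σ x * (U x / (2 * σ x)) ^ 2) := by field_simp; ring
      rw [h3, hh x]
      nlinarith [mul_nonneg h2.le (sq_nonneg
        (U x / (2 * σ x) - rmax (fun q => Ew (P q) σ h) nb x / 4))]
    have h2 : ∑ x, (σ x * h x) ^ 2 / σ x = ∑ x, σ x * h x ^ 2 := sum_congr rfl fun x _ => by
      have := (hσ x).ne'; field_simp
    linarith
  · simp only [e2]
    rcases le_total t nb with ht | ht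
    · have h1 := (le_rmax (fun q => Ew (P q) σ h) t x).trans (rmax_mono _ x ht)
      have h2 := hh x
      linarith [f0 x]
    · rw [Ew, E_eq_of_const fun y hy => by rw [hb t x y ht hy],
        E_eq_of_const fun y hy => by rw [hb t x y ht hy], e2]
      linarith [h0 x]

theorem model2 (D η : ℝ) (hD : 1 ≤ D) (h0 : 0 ≤ η) (h1 : η < 1) : ∃ C : ℝ, 0 < C ∧
    ∀ (X : Type) [Fintype X] (P : ℕ → Setoid X) (nb : ℕ), Filt P →
    (∀ q x y, nb ≤ q → P q x y → x = y) →
    (∀ t x, ((cls (P t) x).card : ℝ) ≤ D * (cls (P (t + 1)) x).card) →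
    ∀ (σ w : X → ℝ) (A : ℝ), (∀ x, 0 < σ x) → (∀ x, 0 < w x) → (∀ x, 1 ≤ σ x * w x) → 1 ≤ A →
    (∀ t x, E (P t) σ x * E (P t) w x ≤ A) → ∀ (L : Forms P η) (u v : X → ℝ) (n : ℕ),
    ∑ t ∈ range n, ∑ x, |L.ℓ t x u v| ≤ C * A ^ (3 / 2 : ℝ) *
      √(∑ x, u x ^ 2 / σ x) * √(∑ x, v x ^ 2 / w x) := by
  obtain ⟨c, hc⟩ := exists_pow_lt_of_lt_one (show 0 < 1 / 2 / (4 * D) ^ 2 by positivity) h1
  have hc2 : η ^ (c + 1) * (4 * D) ^ 2 ≤ 1 / 2 := by
    rw [lt_div_iff₀ (by positivity)] at hc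
    refine le_trans ?_ hc.le
    exact mul_le_mul_of_nonneg_right (pow_le_pow_of_le_one h0 h1.le (Nat.le_succ c)) (sq_nonneg _)
  have hη := sub_pos.2 h1
  refine ⟨32 * (2 * Cor.K1 D η + 136 * Cor.K2 D η (c + 1)), by
    unfold Cor.K1 Cor.K2; positivity, ?_⟩
  intro X _ P nb hP hb hD' σ w A hσ hw hσw hA hA' L u v n
  have zero : ∀ {σ u : X → ℝ}, (∀ x, 0 < σ x) → √(∑ x, u x ^ 2 / σ x) = 0 → u = 0 := by
    intro σ u hσ h
    have h2 : ∀ x ∈ univ, 0 ≤ u x ^ 2 / σ x := fun x _ => div_nonneg (sq_nonneg _) (hσ x).le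
    rw [Real.sqrt_eq_zero (sum_nonneg h2), sum_eq_zero_iff_of_nonneg h2] at h
    funext x
    simpa [(hσ x).ne'] using h x (mem_univ x)
  have scal : ∀ {σ u : X → ℝ}, (∀ x, 0 < σ x) → 0 < √(∑ x, u x ^ 2 / σ x) →
      ∑ x, (((4 * √(∑ x, u x ^ 2 / σ x))⁻¹ • u) x) ^ 2 / σ x ≤ 1 / 16 := by
    intro σ u hσ h
    simp only [Pi.smul_apply, smul_eq_mul, mul_pow, mul_div_assoc, ← mul_sum]
    nth_rewrite 2 [← Real.sq_sqrt (Real.sqrt_pos.1 h).le]
    field_simp; norm_num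
  rcases (Real.sqrt_nonneg (∑ x, u x ^ 2 / σ x)).eq_or_lt with ha | ha
  · rw [← ha, zero hσ ha.symm]; simp
  rcases (Real.sqrt_nonneg (∑ x, v x ^ 2 / w x)).eq_or_lt with hb' | hb'
  · rw [← hb', zero hw hb'.symm]; simp
  obtain ⟨U, U0, U1, U2, U3⟩ := exists_maj hP hb hσ (scal hσ ha)
  obtain ⟨V, V0, V1, V2, V3⟩ := exists_maj hP hb hw (scal hw hb')
  let S : Cor X :=
    { P := P, hP := hP, D := D, hD1 := hD, hD := hD', σ := σ, w := w, U := U, V := V, A := A
      hσ := hσ, hw := hw, hU := U0, hV := V0, hσw := hσw, hA1 := hA, hA := hA', nU := U2, nV := V2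
      top := topf P U V, top_meas := topf_meas hP U V, top_zero := fun _ => rfl
      top_succ := fun q x => by simp only [topf]; split_ifs <;> simp
      U_le := fun q x => (topf_bound P U0 V0 q x).1
      V_le := fun q x => (topf_bound P U0 V0 q x).2
      reason := fun q x h => by
        by_contra hn
        simp only [topf, if_neg hn] at h
        have := topf_le P U V q x
        omega }
  have key := S.total2 L h0 h1 (Nat.le_add_left 1 c) hc2 (S.good_U U3) (S.swap.good_U V3)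
    U1 V1 hb n
  set a := √(∑ x, u x ^ 2 / σ x)
  set b := √(∑ x, v x ^ 2 / w x)
  simp only [map_smul, LinearMap.smul_apply, smul_eq_mul, abs_mul, ← mul_sum] at key
  rw [abs_of_pos (by positivity), abs_of_pos (by positivity), inv_mul_le_iff₀ (by positivity),
    inv_mul_le_iff₀ (by positivity)] at key
  refine key.trans (le_of_eq ?_)
  rw [show (3 / 2 : ℝ) = 1 / 2 + 1 by norm_num, Real.rpow_add (by linarith), Real.rpow_one,
    ← Real.sqrt_eq_rpow]
  change 4 * a * (4 * b * (2 * ((2 * Cor.K1 D η + 136 * Cor.K2 D η (c + 1)) * (√A * A)))) = _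
  ring

end Pool.Agent.P.MP_70f35d_an
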